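import Pool.Agent.MR8.Defs

set_option autoImplicit false

namespace Pool.Agent.MR8

lemma ALL_rk {r : ℕ} {T T' : Tri} (h : ∀ x y w, T' y w x = T x y w) (hT : RK r T') : RK r T := by
  obtain ⟨α, β, γ, e⟩ := hT
  refine ⟨γ, α, β, fun x y w => ?_⟩
  rw [← h, e]
  exact Finset.sum_congr rfl fun i _ => by ring

lemma ALL_rk' {r : ℕ} {T T' : Tri} (h : ∀ x y w, T' x w y = T x y w) (hT : RK r T') : RK r T := by
  obtain ⟨α, β, γ, e⟩ := hT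
  refine ⟨α, γ, β, fun x y w => ?_⟩
  rw [← h, e]
  exact Finset.sum_congr rfl fun i _ => by ring

/-- A tensor with a slice of rank two in the last direction. -/
lemma ALL_core (h2 : P_TRIP) (h3 : P_NF1) (h4 : P_NF2) (h5 : P_NF3) (h6 : P_FINB) (h7 : P_STAR)
    (T : Tri) (w : V) (hw : w ≠ 0) (hR : Rk2 (rt T w)) : RK 8 T := by
  by_contra hT
  obtain ⟨x0, y0, ht⟩ := h2 T hT w hw hR
  obtain ⟨m, a, b, c, d, e, f, g, hm, hE⟩ := h5 T (h4 T (h3 T hT x0 y0 w ht))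
  obtain ⟨hm1, e1, e2, e3, e4, e5, e6⟩ := h6 T hT m a b c d e f g hm hE
  subst hm1
  exact hT (h7 T a b c d e f g e1 e2 e3 e4 e5 e6 hE)

theorem p_ALL (h1 : P_P1) (h2 : P_TRIP) (h3 : P_NF1) (h4 : P_NF2) (h5 : P_NF3) (h6 : P_FINB)
    (h7 : P_STAR) : P_ALL := by
  intro T
  by_contra hT
  rcases h1 T hT with ⟨x, hx, hR⟩ | ⟨y, hy, hR⟩ | ⟨w, hw, hR⟩
  · refine hT (ALL_rk (T' := sv (sw T)) (fun _ _ _ => rfl) ?_)
    refine ALL_core h2 h3 h4 h5 h6 h7 _ x hx ?_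
    obtain ⟨ξ, υ, ξ', υ', h⟩ := hR
    exact ⟨ξ, υ, ξ', υ', fun y w => h y w⟩
  · refine hT (ALL_rk' (T' := sv T) (fun _ _ _ => rfl) ?_)
    refine ALL_core h2 h3 h4 h5 h6 h7 _ y hy ?_
    obtain ⟨ξ, υ, ξ', υ', h⟩ := hR
    exact ⟨ξ, υ, ξ', υ', fun x w => h x w⟩
  · exact hT (ALL_core h2 h3 h4 h5 h6 h7 T w hw hR)

end Pool.Agent.MR8
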