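import Pool.Agent.MR8.Defs

set_option autoImplicit false

/-!
# A slice of rank at most one

`p_B0A`, `p_B0`: a bad trilinear form on `ℂ⁴` has no nonzero vector whose slice has rank at most
one.
-/

namespace Pool.Agent.MR8

open Matrix

theorem p_B0A (hV : P_B0V) (hD : P_B0DEC) : P_B0A := by
  intro T u y1 ξ β ω hu hy h1 h2 hξ
  by_contra hT
  obtain ⟨v, hv, hωv, γ, hγ⟩ := hV T hT u y1 ξ β ω hu hy h1 h2 hξ
  exact hT (hD T u y1 v ξ β ω γ hu hy hv h1 h2 hγ hξ hωv)

lemma B0_RK_sw {r : ℕ} {T : Tri} (h : RK r (sw T)) : RK r T := by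
  obtain ⟨α, β, γ, h⟩ := h
  refine ⟨β, α, γ, fun x y w => ?_⟩
  have h1 := h y x w
  rw [sw_apply] at h1
  rw [h1]
  exact Finset.sum_congr rfl fun i _ => by ring

lemma B0_RK_sv {r : ℕ} {T : Tri} (h : RK r (sv T)) : RK r T := by
  obtain ⟨α, β, γ, h⟩ := h
  refine ⟨α, γ, β, fun x y w => ?_⟩
  have h1 := h x w y
  rw [sv_apply] at h1
  rw [h1]
  exact Finset.sum_congr rfl fun i _ => by ring

lemma B0_RK_rt {r : ℕ} {T : Tri} (h : RK r (rt T)) : RK r T := B0_RK_sv (B0_RK_sw h)

lemma B0_inj {ω : Fin 4 → D} (hω : LinearIndependent ℂ ω) {w : V} (h : ∀ i, ω i w = 0) :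
    w = 0 := by
  have hc : Fintype.card (Fin 4) = Module.finrank ℂ D := by
    have h1 : Module.finrank ℂ (Module.Dual ℂ V) = Module.finrank ℂ V :=
      Subspace.dual_finrank_eq
    have h2 : Module.finrank ℂ V = 4 := by simp
    rw [Fintype.card_fin]
    exact (h1.trans h2).symm
  let b := basisOfLinearIndependentOfCardEqFinrank hω hc
  have hb : ∀ i, b i = ω i := fun i => by
    simp [b]
  have h1 : ∀ φ : D, φ w = 0 := by
    intro φ
    rw [← b.sum_repr φ, LinearMap.sum_apply]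
    refine Finset.sum_eq_zero fun i _ => ?_
    rw [LinearMap.smul_apply, hb, h, smul_zero]
  funext k
  exact h1 (LinearMap.proj k)

lemma B0_dual {ω : Fin 4 → D} (hω : LinearIndependent ℂ ω) :
    ∃ f : Fin 4 → V, (∀ i j, ω i (f j) = if i = j then 1 else 0) ∧
      ∀ w, w = ∑ i, ω i w • f i := by
  have hinj : Function.Injective (LinearMap.pi ω : V →ₗ[ℂ] V) := by
    rw [← LinearMap.ker_eq_bot, LinearMap.ker_eq_bot']
    intro w hw
    exact B0_inj hω fun i => congrFun hw i
  let e : V ≃ₗ[ℂ] V := LinearEquiv.ofInjectiveEndo (LinearMap.pi ω) hinj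
  have he : ∀ w i, e w i = ω i w := fun w i => rfl
  have hf : ∀ i j, ω i (e.symm (Pi.single j 1)) = if i = j then 1 else 0 := by
    intro i j
    rw [← he, e.apply_symm_apply, Pi.single_apply]
  refine ⟨fun j => e.symm (Pi.single j 1), hf, fun w => ?_⟩
  have h2 : w - ∑ i, ω i w • e.symm (Pi.single i 1) = 0 := by
    refine B0_inj hω fun k => ?_
    rw [map_sub, map_sum]
    simp only [map_smul, hf, smul_eq_mul, mul_ite, mul_one, mul_zero]
    simp
  exact sub_eq_zero.1 h2

lemma B0_LI4 {a : D} {η : Fin 3 → D} {y : V} (hη : LinearIndependent ℂ η)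
    (h0 : ∀ i, η i y = 0) (ha : a y ≠ 0) : LinearIndependent ℂ ![a, η 0, η 1, η 2] := by
  have h1 : (![a, η 0, η 1, η 2] : Fin 4 → D) = Fin.cons a η := by
    funext i
    fin_cases i <;> rfl
  rw [h1, linearIndependent_finCons]
  refine ⟨hη, fun h => ha ?_⟩
  obtain ⟨c, hc⟩ := (Submodule.mem_span_range_iff_exists_fun ℂ).1 h
  rw [← hc, LinearMap.sum_apply]
  refine Finset.sum_eq_zero fun i _ => ?_
  rw [LinearMap.smul_apply, h0, smul_zero]

lemma B0_span {a : D} {η : Fin 3 → D} {y : V} (hη : LinearIndependent ℂ η) (hy : y ≠ 0)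
    (h0 : ∀ i, η i y = 0) (ha : a y = 0) : ∃ c : Fin 3 → ℂ, ∑ i, c i • η i = a := by
  by_contra hc
  apply hy
  have h1 : LinearIndependent ℂ (Fin.cons a η : Fin 4 → D) := by
    rw [linearIndependent_finCons]
    refine ⟨hη, fun h => hc ((Submodule.mem_span_range_iff_exists_fun ℂ).1 h)⟩
  refine B0_inj h1 fun i => ?_
  refine Fin.cases ?_ (fun j => ?_) i
  · exact ha
  · exact h0 j

lemma B0_zero {r : ℕ} {η ω : Fin r → D} (hω : LinearIndependent ℂ ω) {y : V}
    (h : ∀ w, ∑ i, η i y * ω i w = 0) (i : Fin r) : η i y = 0 := by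
  refine Fintype.linearIndependent_iff.1 hω (fun i => η i y) ?_ i
  refine LinearMap.ext fun w => ?_
  rw [LinearMap.sum_apply, LinearMap.zero_apply, ← h w]
  exact Finset.sum_congr rfl fun i _ => by rw [LinearMap.smul_apply, smul_eq_mul]

lemma B0_zero' {r : ℕ} {η ω : Fin r → D} (hη : LinearIndependent ℂ η) {w : V}
    (h : ∀ y, ∑ i, η i y * ω i w = 0) (i : Fin r) : ω i w = 0 := by
  refine B0_zero (η := ω) hη (y := w) (fun y => ?_) i
  rw [← h y]
  exact Finset.sum_congr rfl fun i _ => by ring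

/-- A nonzero common kernel vector of three forms. -/
lemma B0_ker (ω : Fin 3 → D) : ∃ w : V, w ≠ 0 ∧ ∀ i, ω i w = 0 := by
  have h1 : ¬ Function.Injective (LinearMap.pi ω : V →ₗ[ℂ] (Fin 3 → ℂ)) := by
    intro h
    have h2 := LinearMap.finrank_le_finrank_of_injective h
    simp at h2
  rw [← LinearMap.ker_eq_bot, LinearMap.ker_eq_bot'] at h1
  push Not at h1
  obtain ⟨w, hw, hw0⟩ := h1
  exact ⟨w, hw0, fun i => congrFun hw i⟩

/-- A pencil of bilinear forms has a singular member. -/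
lemma B0_sing (T : Tri) (a b : V) :
    ∃ s t : ℂ, (s ≠ 0 ∨ t ≠ 0) ∧ ∃ y, y ≠ 0 ∧ ∀ w, T (s • a + t • b) y w = 0 := by
  by_cases hb : Function.Injective (T b)
  · have hfr : Module.finrank ℂ V = Module.finrank ℂ D :=
      (Subspace.dual_finrank_eq (K := ℂ) (V := V)).symm
    let e : V ≃ₗ[ℂ] D := LinearEquiv.ofInjectiveOfFinrankEq (T b) hb hfr
    have he : ∀ y, e y = T b y := fun y => rfl
    obtain ⟨μ, hμ⟩ := Module.End.exists_eigenvalue (e.symm.toLinearMap ∘ₗ T a : Module.End ℂ V)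
    obtain ⟨y, hy⟩ := hμ.exists_hasEigenvector
    have h1 : e.symm (T a y) = μ • y := hy.apply_eq_smul
    have h2 : T a y = μ • T b y := by
      rw [← he, ← map_smul, ← h1, e.apply_symm_apply]
    refine ⟨1, -μ, Or.inl one_ne_zero, y, hy.2, fun w => ?_⟩
    simp [h2]
  · rw [← LinearMap.ker_eq_bot, LinearMap.ker_eq_bot'] at hb
    push Not at hb
    obtain ⟨y, hy, hy0⟩ := hb
    refine ⟨0, 1, Or.inr one_ne_zero, y, hy0, fun w => ?_⟩
    simp [hy]

/-- Replacing one of three independent forms by the sum. -/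
lemma B0_LI3a {η : Fin 3 → D} {a : D} (hη : LinearIndependent ℂ η) (ha : a = η 0 + η 1 + η 2) :
    LinearIndependent ℂ (fun i => (![a, η 0, η 1, η 2] : Fin 4 → D) ((![0, 2, 3] :
      Fin 3 → Fin 4) i)) := by
  rw [Fintype.linearIndependent_iff]
  intro g hg
  simp only [Fin.sum_univ_three] at hg
  have h1 : g 0 • η 0 + (g 0 + g 1) • η 1 + (g 0 + g 2) • η 2 = 0 := by
    rw [← hg]
    change _ = g 0 • a + g 1 • η 1 + g 2 • η 2
    rw [ha]
    module
  have h2 := Fintype.linearIndependent_iff.1 hη ![g 0, g 0 + g 1, g 0 + g 2]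
    (by rw [Fin.sum_univ_three]; exact h1)
  have h3 : g 0 = 0 := h2 0
  have h4 : g 0 + g 1 = 0 := h2 1
  have h5 : g 0 + g 2 = 0 := h2 2
  intro i
  fin_cases i
  · exact h3
  · change g 1 = 0
    linear_combination h4 - h3
  · change g 2 = 0
    linear_combination h5 - h3

lemma B0_LI3b {η : Fin 3 → D} {a : D} (hη : LinearIndependent ℂ η) (ha : a = η 0 + η 1 + η 2) :
    LinearIndependent ℂ (fun i => (![a, η 0, η 1, η 2] : Fin 4 → D) ((![0, 1, 3] :
      Fin 3 → Fin 4) i)) := by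
  rw [Fintype.linearIndependent_iff]
  intro g hg
  simp only [Fin.sum_univ_three] at hg
  have h1 : (g 0 + g 1) • η 0 + g 0 • η 1 + (g 0 + g 2) • η 2 = 0 := by
    rw [← hg]
    change _ = g 0 • a + g 1 • η 0 + g 2 • η 2
    rw [ha]
    module
  have h2 := Fintype.linearIndependent_iff.1 hη ![g 0 + g 1, g 0, g 0 + g 2]
    (by rw [Fin.sum_univ_three]; exact h1)
  have h3 : g 0 = 0 := h2 1
  have h4 : g 0 + g 1 = 0 := h2 0
  have h5 : g 0 + g 2 = 0 := h2 2
  intro i
  fin_cases i
  · exact h3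
  · change g 1 = 0
    linear_combination h4 - h3
  · change g 2 = 0
    linear_combination h5 - h3

lemma B0_LI3c {η : Fin 3 → D} {a : D} (hη : LinearIndependent ℂ η) (ha : a = η 0 + η 1 + η 2) :
    LinearIndependent ℂ (fun i => (![a, η 0, η 1, η 2] : Fin 4 → D) ((![0, 1, 2] :
      Fin 3 → Fin 4) i)) := by
  rw [Fintype.linearIndependent_iff]
  intro g hg
  simp only [Fin.sum_univ_three] at hg
  have h1 : (g 0 + g 1) • η 0 + (g 0 + g 2) • η 1 + g 0 • η 2 = 0 := by
    rw [← hg]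
    change _ = g 0 • a + g 1 • η 0 + g 2 • η 1
    rw [ha]
    module
  have h2 := Fintype.linearIndependent_iff.1 hη ![g 0 + g 1, g 0 + g 2, g 0]
    (by rw [Fin.sum_univ_three]; exact h1)
  have h3 : g 0 = 0 := h2 2
  have h4 : g 0 + g 1 = 0 := h2 0
  have h5 : g 0 + g 2 = 0 := h2 1
  intro i
  fin_cases i
  · exact h3
  · change g 1 = 0
    linear_combination h4 - h3
  · change g 2 = 0
    linear_combination h5 - h3

/-- The kernel vector on the left side is a zero of `a`, the one on the right side is not a zero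
of `b`. -/
lemma B0_caseB (h3 : P_G3) (hA : P_B0A) (hM : P_MIX) (T : Tri) (u x : V)
    (hux : LinearIndependent ℂ ![u, x]) (a b : D) (ha : a ≠ 0)
    (hu : ∀ y w, T u y w = a y * b w) (η ω : Fin 3 → D)
    (hη : LinearIndependent ℂ η) (hω : LinearIndependent ℂ ω)
    (hx : ∀ y w, T x y w = ∑ i, η i y * ω i w) (y' w' : V) (hy' : y' ≠ 0)
    (hηy : ∀ i, η i y' = 0) (hωw : ∀ i, ω i w' = 0) (hay : a y' = 0) (hbw : b w' ≠ 0) :
    RK 8 T := by
  by_contra hT
  obtain ⟨c, hc⟩ := B0_span hη hy' hηy hay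
  have hc0 : c ≠ 0 := by
    rintro rfl
    apply ha
    rw [← hc]
    simp
  obtain ⟨η', ω', hη', hω', hs, hsum, hk1, hk2⟩ := hM η ω hη hω c hc0
  have hy1 : ∀ i, η' i y' = 0 := (hk1 y').1 hηy
  have hw1 : ∀ i, ω' i w' = 0 := (hk2 w').1 hωw
  have ha' : a = η' 0 + η' 1 + η' 2 := by rw [← hc, hsum]
  have hL : LinearIndependent ℂ ![b, ω' 0, ω' 1, ω' 2] := B0_LI4 hω' hw1 hbw
  have hF : Frames T ![u, x] ![a, η' 0, η' 1, η' 2] ![b, ω' 0, ω' 1, ω' 2] := by
    refine ⟨hux, fun i => ?_⟩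
    fin_cases i
    · refine ⟨![1, 0, 0, 0], fun y w => ?_⟩
      simp [Fin.sum_univ_four, hu]
    · refine ⟨![0, 1, 1, 1], fun y w => ?_⟩
      simp [Fin.sum_univ_four, hx, hs, Fin.sum_univ_three]
  have hyall : ∀ i, (![a, η' 0, η' 1, η' 2] : Fin 4 → D) i y' = 0 := by
    intro i
    fin_cases i
    · exact hay
    · exact hy1 0
    · exact hy1 1
    · exact hy1 2
  have key : ∀ s : Fin 3 → Fin 4, Function.Injective s →
      LinearIndependent ℂ (fun i => (![a, η' 0, η' 1, η' 2] : Fin 4 → D) (s i)) → ∀ w : V,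
      (∀ i, (![b, ω' 0, ω' 1, ω' 2] : Fin 4 → D) (s i) w = 0) → ∀ x', T x' y' w = 0 := by
    intro s hs1 hs2 w hw x'
    exact h3 T hT _ _ _ hF s hs1 hs2 (hL.comp s hs1) y' w (fun i => hyall _) hw x'
  obtain ⟨f, hf1, hf2⟩ := B0_dual hL
  have k1 : ∀ x', T x' y' (f 1) = 0 := by
    refine key ![0, 2, 3] (by decide) (B0_LI3a hη' ha') (f 1) fun i => ?_
    rw [hf1, if_neg]
    revert i
    decide
  have k2 : ∀ x', T x' y' (f 2) = 0 := by
    refine key ![0, 1, 3] (by decide) (B0_LI3b hη' ha') (f 2) fun i => ?_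
    rw [hf1, if_neg]
    revert i
    decide
  have k3 : ∀ x', T x' y' (f 3) = 0 := by
    refine key ![0, 1, 2] (by decide) (B0_LI3c hη' ha') (f 3) fun i => ?_
    rw [hf1, if_neg]
    revert i
    decide
  have hu0 : u ≠ 0 := by
    have := hux.ne_zero 0
    exact this
  refine hT (hA T u y' ((T.flip y').flip (f 0)) a b hu0 hy' (fun x' w => ?_) hu ?_)
  · have h5 : T x' y' w = T x' y' (∑ i, (![b, ω' 0, ω' 1, ω' 2] : Fin 4 → D) i w • f i) := by
      rw [← hf2 w]
    rw [h5, Fin.sum_univ_four]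
    simp only [map_add, map_smul, k1, k2, k3, mul_zero, add_zero, smul_eq_mul]
    change b w * T x' y' (f 0) = T x' y' (f 0) * b w
    ring
  · change T u y' (f 0) = 0
    rw [hu, hay, zero_mul]

/-- Both kernel vectors are zeros. -/
lemma B0_caseD (h3 : P_G3) (hE : P_E) (hA : P_B0A) (hD : P_RKD) (hN : P_DENS) (h0 : P_ZERO)
    (T : Tri) (u x : V)
    (hux : LinearIndependent ℂ ![u, x]) (a b : D)
    (hu : ∀ y w, T u y w = a y * b w) (hx2 : ¬ Rk2 (T x)) (η ω : Fin 3 → D)
    (hη : LinearIndependent ℂ η) (hω : LinearIndependent ℂ ω)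
    (hx : ∀ y w, T x y w = ∑ i, η i y * ω i w) (y' w' : V) (hy' : y' ≠ 0) (hw' : w' ≠ 0)
    (hηy : ∀ i, η i y' = 0) (hωw : ∀ i, ω i w' = 0) (hay : a y' = 0) (hbw : b w' = 0) :
    RK 8 T := by
  by_contra hT
  have hxy : ∀ w, T x y' w = 0 := fun w => by
    rw [hx]
    exact Finset.sum_eq_zero fun i _ => by rw [hηy, zero_mul]
  have hxw : ∀ y, T x y w' = 0 := fun y => by
    rw [hx]
    exact Finset.sum_eq_zero fun i _ => by rw [hωw, mul_zero]
  -- first step
  have s1 : ∀ x', T x' y' w' = 0 := by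
    have hF : Frames T ![u, x] ![a, η 0, η 1, η 2] ![b, ω 0, ω 1, ω 2] := by
      refine ⟨hux, fun i => ?_⟩
      fin_cases i
      · refine ⟨![1, 0, 0, 0], fun y w => ?_⟩
        simp [Fin.sum_univ_four, hu]
      · refine ⟨![0, 1, 1, 1], fun y w => ?_⟩
        simp [Fin.sum_univ_four, hx, Fin.sum_univ_three]
    exact h3 T hT _ _ _ hF Fin.succ (Fin.succ_injective 3)
      (by
        convert hη using 1
        funext i
        fin_cases i <;> rfl)
      (by
        convert hω using 1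
        funext i
        fin_cases i <;> rfl) y' w'
      (fun i => by
        fin_cases i
        · exact hηy 0
        · exact hηy 1
        · exact hηy 2)
      (fun i => by
        fin_cases i
        · exact hωw 0
        · exact hωw 1
        · exact hωw 2)
  -- second step
  have s2 : ∀ y w, T x y w ≠ 0 → ∀ x1 x2, T x1 y' w * T x2 y w' = T x2 y' w * T x1 y w' := by
    intro y w hyw x1 x2
    set α : D := (T x y w)⁻¹ • (T x).flip w with hα
    set β : D := T x y with hβ
    have hα1 : ∀ y1, α y1 = (T x y w)⁻¹ * T x y1 w := fun y1 => rfl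
    have hβ1 : ∀ w1, β w1 = T x y w1 := fun w1 => rfl
    obtain ⟨r, hr, η'', ω'', hη'', hω'', hB⟩ := hD (T x - LinearMap.smulRight α β)
    have hB1 : ∀ y1 w1, T x y1 w1 = α y1 * β w1 + ∑ i, η'' i y1 * ω'' i w1 := by
      intro y1 w1
      rw [← hB]
      change _ = α y1 * β w1 + (T x y1 w1 - α y1 * β w1)
      ring
    have hαy : α y = 1 := by
      rw [hα1]
      exact inv_mul_cancel₀ hyw
    have hβw : β w = T x y w := rfl
    have hαy' : α y' = 0 := by rw [hα1, hxy, mul_zero]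
    have hβw' : β w' = 0 := hxw y
    have e1 : ∀ i, η'' i y = 0 := by
      refine B0_zero hω'' fun w1 => ?_
      have h5 := hB1 y w1
      rw [hαy, one_mul, hβ1] at h5
      linear_combination -h5
    have e2 : ∀ i, η'' i y' = 0 := by
      refine B0_zero hω'' fun w1 => ?_
      have h5 := hB1 y' w1
      rw [hαy', hxy] at h5
      linear_combination -h5
    have e3 : ∀ i, ω'' i w = 0 := by
      refine B0_zero' hη'' fun y1 => ?_
      have h5 := hB1 y1 w
      rw [hα1, hβw] at h5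
      have h6 : (T x y w)⁻¹ * T x y1 w * T x y w = T x y1 w := by
        rw [mul_right_comm, inv_mul_cancel₀ hyw, one_mul]
      rw [h6] at h5
      linear_combination -h5
    have e4 : ∀ i, ω'' i w' = 0 := by
      refine B0_zero' hη'' fun y1 => ?_
      have h5 := hB1 y1 w'
      rw [hβw', hxw] at h5
      linear_combination -h5
    -- the rank is two
    have hr2 : r = 2 := by
      interval_cases r
      · exfalso
        refine hx2 ⟨α, β, 0, 0, fun y1 w1 => ?_⟩
        rw [hB1]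
        simp
      · exfalso
        refine hx2 ⟨α, β, η'' 0, ω'' 0, fun y1 w1 => ?_⟩
        rw [hB1, Fin.sum_univ_one]
      · rfl
      · exfalso
        have h7 := B0_LI4 (a := α) (y := y) hη'' e1 (by rw [hαy]; exact one_ne_zero)
        refine hy' (B0_inj h7 fun i => ?_)
        fin_cases i
        · exact hαy'
        · exact e2 0
        · exact e2 1
        · exact e2 2
      · exfalso
        exact hy' (B0_inj hη'' e2)
    subst hr2
    have hF : Frames T ![u, x] ![a, α, η'' 0, η'' 1] ![b, β, ω'' 0, ω'' 1] := by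
      refine ⟨hux, fun i => ?_⟩
      fin_cases i
      · refine ⟨![1, 0, 0, 0], fun y w => ?_⟩
        simp [Fin.sum_univ_four, hu]
      · refine ⟨![0, 1, 1, 1], fun y1 w1 => ?_⟩
        change T x y1 w1 = _
        rw [hB1, Fin.sum_univ_two, Fin.sum_univ_four]
        change _ = 0 * (a y1 * b w1) + 1 * (α y1 * β w1) + 1 * (η'' 0 y1 * ω'' 0 w1) +
          1 * (η'' 1 y1 * ω'' 1 w1)
        ring
    have h8 := hE T hT _ _ _ hF 2 3 (by decide)
      (by
        change LinearIndependent ℂ ![η'' 0, η'' 1]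
        convert hη'' using 1
        funext i
        fin_cases i <;> rfl)
      (by
        change LinearIndependent ℂ ![ω'' 0, ω'' 1]
        convert hω'' using 1
        funext i
        fin_cases i <;> rfl)
      y' w' y w
      (fun i => by
        fin_cases i
        · exact hay
        · exact hαy'
        · exact e2 0
        · exact e2 1)
      (fun i => by
        fin_cases i
        · exact hbw
        · exact hβw'
        · exact e4 0
        · exact e4 1) s1 (e1 0) (e1 1) (e3 0) (e3 1) x1 x2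
    exact h8
  -- third step
  have hTx : T x ≠ 0 := by
    intro h
    apply hx2
    exact ⟨0, 0, 0, 0, fun y w => by rw [h]; simp⟩
  have s3 : ∀ x1 x2 y w, T x1 y' w * T x2 y w' = T x2 y' w * T x1 y w' := by
    intro x1 x2 y w
    have h9 := hN (T x) (LinearMap.smulRight ((T x2).flip w') (T x1 y') -
      LinearMap.smulRight ((T x1).flip w') (T x2 y')) hTx (fun y1 w1 hne => ?_) y w
    · change T x2 y w' * T x1 y' w - T x1 y w' * T x2 y' w = 0 at h9
      linear_combination h9
    · change T x2 y1 w' * T x1 y' w1 - T x1 y1 w' * T x2 y' w1 = 0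
      linear_combination s2 y1 w1 hne x1 x2
  -- the slices at `y'` and `w'` are not zero
  have n1 : ∃ x1 w1, T x1 y' w1 ≠ 0 := by
    by_contra hcon
    push Not at hcon
    exact hT (B0_RK_sw (h0 (sw T) y' hy' fun x1 w1 => by rw [sw_apply]; exact hcon x1 w1))
  have n2 : ∃ x1 y1, T x1 y1 w' ≠ 0 := by
    by_contra hcon
    push Not at hcon
    exact hT (B0_RK_rt (h0 (rt T) w' hw' fun x1 y1 => by rw [rt_apply]; exact hcon x1 y1))
  obtain ⟨xa, wa, hxa⟩ := n1
  obtain ⟨xb, yb, hxb⟩ := n2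
  -- the last step
  have hfin : RK 8 (sv (rt T)) := by
    refine hA (sv (rt T)) w' y' ((T xb yb w')⁻¹ • T xb y')
      ((T xa y' wa)⁻¹ • (T xb yb w')⁻¹ • T xb y' wa • (T xa).flip w') ((T.flip yb).flip w')
      hw' hy' (fun w x' => ?_) (fun y x' => ?_) ?_
    · change T x' y' w = (T xb yb w')⁻¹ * T xb y' w * T x' yb w'
      have h5 := s3 x' xb yb w
      field_simp
      linear_combination h5
    · change T x' y w' = (T xa y' wa)⁻¹ * ((T xb yb w')⁻¹ * (T xb y' wa * T xa y w')) *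
        T x' yb w'
      have h5 := s3 x' xb yb wa
      have h6 := s3 xa x' y wa
      field_simp
      linear_combination T xb yb w' * h6 + T xa y w' * h5
    · change (T xb yb w')⁻¹ * T xb y' w' = 0
      rw [s1, mul_zero]
  exact hT (B0_RK_rt (B0_RK_sv hfin))

theorem p_B0 (h3 : P_G3) (hE : P_E) (hK : P_KK) (hR : P_R12) (hA : P_B0A) (hD : P_RKD)
    (hM : P_MIX) (hN : P_DENS) (h0 : P_ZERO) : P_B0 := by
  intro T u hu0 hu1
  by_contra hT
  obtain ⟨a, b, hu⟩ := id hu1
  have ha : a ≠ 0 := by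
    rintro rfl
    exact hT (h0 T u hu0 fun y w => by rw [hu]; simp)
  have hb : b ≠ 0 := by
    rintro rfl
    exact hT (h0 T u hu0 fun y w => by rw [hu]; simp)
  -- the second vector
  obtain ⟨x2, x3, hLI⟩ : ∃ x2 x3 : V, LinearIndependent ℂ (![x2, x3, u] : Fin 3 → V) := by
    have h1 : LinearIndependent ℂ (![u] : Fin 1 → V) := by
      rw [linearIndependent_unique_iff]
      exact hu0
    obtain ⟨x3, h2⟩ := exists_linearIndependent_cons_of_lt_finrank h1 (by simp)
    obtain ⟨x2, h4⟩ := exists_linearIndependent_cons_of_lt_finrank h2 (by simp)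
    exact ⟨x2, x3, h4⟩
  obtain ⟨s, t, hst, y', hy', hxy⟩ := B0_sing T x2 x3
  set x : V := s • x2 + t • x3 with hxdef
  have hux : LinearIndependent ℂ ![u, x] := by
    rw [LinearIndependent.pair_iff]
    intro p q hpq
    have h5 := Fintype.linearIndependent_iff.1 hLI ![q * s, q * t, p] (by
      rw [Fin.sum_univ_three]
      change (q * s) • x2 + (q * t) • x3 + p • u = 0
      rw [← hpq, hxdef]
      module)
    have h6 : q * s = 0 := h5 0
    have h7 : q * t = 0 := h5 1
    have h8 : p = 0 := h5 2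
    refine ⟨h8, ?_⟩
    rcases hst with hs | ht
    · exact (mul_eq_zero.1 h6).resolve_right hs
    · exact (mul_eq_zero.1 h7).resolve_right ht
  have hx2 : ¬ Rk2 (T x) := fun h => hT (hR T u x hux hu1 h)
  obtain ⟨r, hr, η, ω, hη, hω, hx⟩ := hD (T x)
  have hηy : ∀ i, η i y' = 0 := B0_zero hω fun w => by rw [← hx]; exact hxy w
  have hr3 : r = 3 := by
    interval_cases r
    · exfalso
      refine hx2 ⟨0, 0, 0, 0, fun y1 w1 => ?_⟩
      rw [hx]
      simp
    · exfalso
      refine hx2 ⟨η 0, ω 0, 0, 0, fun y1 w1 => ?_⟩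
      rw [hx, Fin.sum_univ_one]
      simp
    · exfalso
      refine hx2 ⟨η 0, ω 0, η 1, ω 1, fun y1 w1 => ?_⟩
      rw [hx, Fin.sum_univ_two]
    · rfl
    · exfalso
      exact hy' (B0_inj hη hηy)
  subst hr3
  obtain ⟨w', hw', hωw⟩ := B0_ker ω
  by_cases hay : a y' = 0
  · by_cases hbw : b w' = 0
    · exact hT (B0_caseD h3 hE hA hD hN h0 T u x hux a b hu hx2 η ω hη hω hx y' w' hy' hw' hηy
        hωw hay hbw)
    · exact hT (B0_caseB h3 hA hM T u x hux a b ha hu η ω hη hω hx y' w' hy' hηy hωw hay hbw)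
  · by_cases hbw : b w' = 0
    · refine hT (B0_RK_sv (B0_caseB h3 hA hM (sv T) u x hux b a hb (fun w y => ?_) ω η hω hη
        (fun w y => ?_) w' y' hw' hωw hηy hbw hay))
      · rw [sv_apply, hu, mul_comm]
      · rw [sv_apply, hx]
        exact Finset.sum_congr rfl fun i _ => mul_comm _ _
    · refine hT (hK T ![u, x] ![a, η 0, η 1, η 2] ![b, ω 0, ω 1, ω 2] ⟨hux, fun i => ?_⟩
        (B0_LI4 hη hηy hay) (B0_LI4 hω hωw hbw))
      fin_cases i
      · refine ⟨![1, 0, 0, 0], fun y w => ?_⟩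
        simp [Fin.sum_univ_four, hu]
      · refine ⟨![0, 1, 1, 1], fun y w => ?_⟩
        simp only [Fin.mk_one, Fin.isValue, Matrix.cons_val_one, Matrix.cons_val_fin_one]
        rw [hx, Fin.sum_univ_four, Fin.sum_univ_three]
        change _ = 0 * (a y * b w) + 1 * (η 0 y * ω 0 w) + 1 * (η 1 y * ω 1 w) +
          1 * (η 2 y * ω 2 w)
        ring

end Pool.Agent.MR8
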