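import Pool.Agent.MR8.Defs

set_option autoImplicit false

/-!
# B0DEC: three slices of rank one
-/

namespace Pool.Agent.MR8

lemma B0DEC_sw {r : ℕ} {T : Tri} (h : RK r (sw T)) : RK r T := by
  obtain ⟨α, β, γ, e⟩ := h
  refine ⟨β, α, γ, fun x y w => ?_⟩
  have h1 := e y x w
  rw [sw_apply] at h1
  rw [h1]
  exact Finset.sum_congr rfl fun i _ => by ring

lemma B0DEC_rt {r : ℕ} {T : Tri} (h : RK r (rt T)) : RK r T := by
  obtain ⟨α, β, γ, e⟩ := h
  refine ⟨β, γ, α, fun x y w => ?_⟩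
  have h1 := e w x y
  rw [rt_apply] at h1
  rw [h1]
  exact Finset.sum_congr rfl fun i _ => by ring

/-- A basis adapted to a form and a vector in its kernel. -/
lemma B0DEC_bas (ξ : D) (u : V) (hξ : ξ ≠ 0) (hu : u ≠ 0) (h : ξ u = 0) :
    ∃ (x1 x2 x3 : V) (a0 a2 a3 : D),
      (∀ x, x = a0 x • u + ξ x • x1 + a2 x • x2 + a3 x • x3) ∧
      ξ x1 = 1 ∧ ξ x2 = 0 ∧ ξ x3 = 0 ∧
      a0 u = 1 ∧ a0 x2 = 0 ∧ a0 x3 = 0 ∧
      a2 u = 0 ∧ a2 x2 = 1 ∧ a2 x3 = 0 ∧ a3 u = 0 ∧ a3 x2 = 0 ∧ a3 x3 = 1 := by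
  obtain ⟨x, hx⟩ : ∃ x, ξ x ≠ 0 := by
    by_contra hcon
    push Not at hcon
    exact hξ (LinearMap.ext hcon)
  set x1 : V := (ξ x)⁻¹ • x with hx1
  have e1 : ξ x1 = 1 := by
    rw [hx1, map_smul, smul_eq_mul, inv_mul_cancel₀ hx]
  have hli : LinearIndependent ℂ ![u, x1] := by
    rw [LinearIndependent.pair_iff]
    intro s t hst
    have h1 : ξ (s • u + t • x1) = 0 := by rw [hst, map_zero]
    rw [map_add, map_smul, map_smul, h, e1, smul_eq_mul, smul_eq_mul, mul_zero, zero_add,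
      mul_one] at h1
    rw [h1, zero_smul, add_zero] at hst
    exact ⟨(smul_eq_zero.mp hst).resolve_right hu, h1⟩
  obtain ⟨z2, h2⟩ := exists_linearIndependent_snoc_of_lt_finrank hli
    (by rw [Module.finrank_fin_fun]; norm_num)
  obtain ⟨z3, h3⟩ := exists_linearIndependent_snoc_of_lt_finrank h2
    (by rw [Module.finrank_fin_fun]; norm_num)
  have h4 : LinearIndependent ℂ ![u, x1, z2, z3] := by
    have e : (![u, x1, z2, z3] : Fin 4 → V) =
        Fin.snoc (Fin.snoc ![u, x1] z2 : Fin 3 → V) z3 := by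
      funext i
      fin_cases i <;> rfl
    rw [e]
    exact h3
  let b : Module.Basis (Fin 4) ℂ V := basisOfLinearIndependentOfCardEqFinrank h4 (by simp)
  have bb : ∀ i, b i = ![u, x1, z2, z3] i := fun i => by
    simp only [b, coe_basisOfLinearIndependentOfCardEqFinrank]
  have b0 : b 0 = u := bb 0
  have b1 : b 1 = x1 := bb 1
  have b2 : b 2 = z2 := bb 2
  have b3 : b 3 = z3 := bb 3
  have hd : ∀ x, x = b.coord 0 x • u + b.coord 1 x • x1 + b.coord 2 x • z2 +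
      b.coord 3 x • z3 := by
    intro x
    have h4 := b.sum_repr x
    rw [Fin.sum_univ_four, b0, b1, b2, b3] at h4
    exact h4.symm
  have c : ∀ i j, b.coord i (b j) = if j = i then 1 else 0 := by
    intro i j
    rw [Module.Basis.coord_apply, Module.Basis.repr_self, Finsupp.single_apply]
  have hξd : ∀ x, ξ x = b.coord 1 x + b.coord 2 x * ξ z2 + b.coord 3 x * ξ z3 := by
    intro x
    conv_lhs => rw [hd x]
    simp only [map_add, map_smul, smul_eq_mul, h, e1]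
    ring
  refine ⟨x1, z2 - ξ z2 • x1, z3 - ξ z3 • x1, b.coord 0, b.coord 2, b.coord 3, fun x => ?_,
    e1, ?_, ?_, ?_, ?_, ?_, ?_, ?_, ?_, ?_, ?_, ?_⟩
  · rw [hξd x]
    conv_lhs => rw [hd x]
    module
  · rw [map_sub, map_smul, e1, smul_eq_mul, mul_one, sub_self]
  · rw [map_sub, map_smul, e1, smul_eq_mul, mul_one, sub_self]
  · rw [← b0, c]; simp
  · rw [map_sub, map_smul, ← b2, ← b1, c, c]; simp
  · rw [map_sub, map_smul, ← b3, ← b1, c, c]; simp
  · rw [← b0, c]; simp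
  · rw [map_sub, map_smul, ← b2, ← b1, c, c]; simp
  · rw [map_sub, map_smul, ← b3, ← b1, c, c]; simp
  · rw [← b0, c]; simp
  · rw [map_sub, map_smul, ← b2, ← b1, c, c]; simp
  · rw [map_sub, map_smul, ← b3, ← b1, c, c]; simp

/-- Two nilpotent matrices whose pencil is nilpotent are dependent. -/
lemma B0DEC_nil (p q r p' q' r' : ℂ) (h1 : p ^ 2 + q * r = 0) (h2 : p' ^ 2 + q' * r' = 0)
    (h3 : 2 * p * p' + q * r' + q' * r = 0) :
    ∃ s t : ℂ, (s ≠ 0 ∨ t ≠ 0) ∧ s * p + t * p' = 0 ∧ s * q + t * q' = 0 ∧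
      s * r + t * r' = 0 := by
  have m1 : q * r' - q' * r = 0 := by
    apply pow_eq_zero_iff (two_ne_zero) |>.mp
    linear_combination (4 * p' ^ 2) * h1 + (-4 * q * r) * h2 +
      (q * r' + q' * r - 2 * p * p') * h3
  have m2 : p * q' - p' * q = 0 := by
    apply pow_eq_zero_iff (two_ne_zero) |>.mp
    linear_combination q' ^ 2 * h1 + q ^ 2 * h2 - q * q' * h3
  have m3 : p * r' - p' * r = 0 := by
    apply pow_eq_zero_iff (two_ne_zero) |>.mp
    linear_combination r' ^ 2 * h1 + r ^ 2 * h2 - r * r' * h3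
  by_cases hp : p' = 0
  · by_cases hq : q' = 0
    · by_cases hr : r' = 0
      · exact ⟨0, 1, Or.inr one_ne_zero, by rw [hp]; ring, by rw [hq]; ring, by rw [hr]; ring⟩
      · exact ⟨r', -r, Or.inl hr, by linear_combination m3, by linear_combination m1, by ring⟩
    · exact ⟨q', -q, Or.inl hq, by linear_combination m2, by ring, by linear_combination -m1⟩
  · exact ⟨p', -p, Or.inl hp, by ring, by linear_combination -m2, by linear_combination -m3⟩

/-- A quadratic polynomial without roots is constant. -/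
lemma B0DEC_quad (α β γ : ℂ) (h : ∀ r : ℂ, α + β * r + γ * r ^ 2 ≠ 0) : β = 0 ∧ γ = 0 := by
  have hγ : γ = 0 := by
    by_contra hγ
    obtain ⟨s, hs⟩ := IsAlgClosed.exists_pow_nat_eq (discrim γ β α) (n := 2) (by norm_num)
    obtain ⟨x, hx⟩ := exists_quadratic_eq_zero (a := γ) (b := β) (c := α) hγ
      ⟨s, by rw [← hs, sq]⟩
    exact h x (by linear_combination hx)
  refine ⟨?_, hγ⟩
  by_contra hβ
  apply h (-(α / β))
  rw [hγ]
  field_simp
  ring

/-- Pencils of `2 × 2` matrices: dependent or an element of rank one. -/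
lemma B0DEC_two (a b c : Fin 2 → Fin 2 → ℂ) :
    (∃ s t : ℂ, (s ≠ 0 ∨ t ≠ 0) ∧ ∀ i j, s * b i j + t * c i j = 0) ∨
    ∃ s t : ℂ, (a 0 0 + s * b 0 0 + t * c 0 0) * (a 1 1 + s * b 1 1 + t * c 1 1) =
      (a 0 1 + s * b 0 1 + t * c 0 1) * (a 1 0 + s * b 1 0 + t * c 1 0) := by
  by_contra hcon
  push Not at hcon
  obtain ⟨hdep, hdet⟩ := hcon
  have key : ∀ s t : ℂ,
      (a 0 0 * (s * b 1 1 + t * c 1 1) + a 1 1 * (s * b 0 0 + t * c 0 0) -
        a 0 1 * (s * b 1 0 + t * c 1 0) - a 1 0 * (s * b 0 1 + t * c 0 1)) = 0 ∧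
      ((s * b 0 0 + t * c 0 0) * (s * b 1 1 + t * c 1 1) -
        (s * b 0 1 + t * c 0 1) * (s * b 1 0 + t * c 1 0)) = 0 := by
    intro s t
    apply B0DEC_quad (a 0 0 * a 1 1 - a 0 1 * a 1 0)
    intro r hr
    apply hdet (r * s) (r * t)
    linear_combination hr
  have hA : a 0 0 * a 1 1 - a 0 1 * a 1 0 ≠ 0 := by
    intro h0
    apply hdet 0 0
    linear_combination h0
  obtain ⟨k1, k2⟩ := key 1 0
  obtain ⟨k3, k4⟩ := key 0 1
  obtain ⟨-, k6⟩ := key 1 1
  simp only [one_mul, zero_mul, add_zero, zero_add] at k1 k2 k3 k4 k6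
  obtain ⟨s, t, hst, e1, e2, e3⟩ := B0DEC_nil
    (a 1 1 * b 0 0 - a 0 1 * b 1 0) (a 1 1 * b 0 1 - a 0 1 * b 1 1)
    (-(a 1 0 * b 0 0) + a 0 0 * b 1 0)
    (a 1 1 * c 0 0 - a 0 1 * c 1 0) (a 1 1 * c 0 1 - a 0 1 * c 1 1)
    (-(a 1 0 * c 0 0) + a 0 0 * c 1 0)
    (by linear_combination (a 1 1 * b 0 0 - a 0 1 * b 1 0) * k1 -
      (a 0 0 * a 1 1 - a 0 1 * a 1 0) * k2)
    (by linear_combination (a 1 1 * c 0 0 - a 0 1 * c 1 0) * k3 -
      (a 0 0 * a 1 1 - a 0 1 * a 1 0) * k4)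
    (by linear_combination (a 1 1 * b 0 0 - a 0 1 * b 1 0) * k3 +
      (a 1 1 * c 0 0 - a 0 1 * c 1 0) * k1 -
      (a 0 0 * a 1 1 - a 0 1 * a 1 0) * (k6 - k2 - k4))
  obtain ⟨i, j, hij⟩ := hdep s t hst
  apply hij
  apply (mul_eq_zero.mp (?_ : (a 0 0 * a 1 1 - a 0 1 * a 1 0) *
    (s * b i j + t * c i j) = 0)).resolve_left hA
  fin_cases i <;> fin_cases j
  · change (a 0 0 * a 1 1 - a 0 1 * a 1 0) * (s * b 0 0 + t * c 0 0) = 0
    linear_combination a 0 0 * e1 + a 0 1 * e3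
  · change (a 0 0 * a 1 1 - a 0 1 * a 1 0) * (s * b 0 1 + t * c 0 1) = 0
    linear_combination a 0 0 * e2 - a 0 1 * e1 + a 0 1 * s * k1 + a 0 1 * t * k3
  · change (a 0 0 * a 1 1 - a 0 1 * a 1 0) * (s * b 1 0 + t * c 1 0) = 0
    linear_combination a 1 0 * e1 + a 1 1 * e3
  · change (a 0 0 * a 1 1 - a 0 1 * a 1 0) * (s * b 1 1 + t * c 1 1) = 0
    linear_combination a 1 0 * e2 - a 1 1 * e1 + a 1 1 * s * k1 + a 1 1 * t * k3

/-- A matrix of rank at most one. -/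
lemma B0DEC_rk1 (m : Fin 2 → Fin 2 → ℂ) (h : m 0 0 * m 1 1 = m 0 1 * m 1 0) :
    ∃ p q : Fin 2 → ℂ, ∀ i j, m i j = p i * q j := by
  by_cases h0 : m 0 0 = 0
  · by_cases h1 : m 0 1 = 0
    · refine ⟨![0, 1], m 1, fun i j => ?_⟩
      fin_cases i <;> fin_cases j <;> simp [h0, h1]
    · refine ⟨![1, m 1 1 / m 0 1], m 0, fun i j => ?_⟩
      have h2 : m 1 0 = 0 := by
        rw [h0, zero_mul] at h
        exact (mul_eq_zero.mp h.symm).resolve_left h1
      fin_cases i <;> fin_cases j <;> simp [h0, h1, h2]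
  · refine ⟨![1, m 1 0 / m 0 0], m 0, fun i j => ?_⟩
    have h2 : m 1 1 = m 1 0 / m 0 0 * m 0 1 := by
      field_simp
      linear_combination h
    fin_cases i <;> fin_cases j <;> simp [h0, h2]

theorem p_B0DEC (hR : P_R12) (hP : P_PEN33) (h0 : P_ZERO) : P_B0DEC := by
  intro T u y1 v ξ β ω γ hu hy hv hxw hyw hxy hξu hωv
  by_cases hξ : ξ = 0
  · refine B0DEC_sw (h0 (sw T) y1 hy fun x w => ?_)
    rw [sw_apply, hxw, hξ, LinearMap.zero_apply, zero_mul]
  by_cases hω : ω = 0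
  · refine h0 T u hu fun y w => ?_
    rw [hyw, hω, LinearMap.zero_apply, mul_zero]
  by_cases hβ : β = 0
  · refine h0 T u hu fun y w => ?_
    rw [hyw, hβ, LinearMap.zero_apply, zero_mul]
  have hβy : β y1 = 0 := by
    obtain ⟨w, hw⟩ : ∃ w, ω w ≠ 0 := by
      by_contra hcon
      push Not at hcon
      exact hω (LinearMap.ext hcon)
    have h1 := hyw y1 w
    rw [hxw, hξu, zero_mul] at h1
    exact (mul_eq_zero.mp h1.symm).resolve_right hw
  obtain ⟨x1, x2, x3, a0, a2, a3, hx, ex1, ex2, ex3, -⟩ := B0DEC_bas ξ u hξ hu hξu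
  obtain ⟨z1, z2, z3, b0, b2, b3, hz, ez1, ez2, ez3, -⟩ := B0DEC_bas β y1 hβ hy hβy
  obtain ⟨w1, w2, w3, c0, c2, c3, hw, ew1, ew2, ew3, g0, g02, g03, g2, g22, g23, g3, g32, g33⟩ :=
    B0DEC_bas ω v hω hv hωv
  -- the expansion
  have hT : ∀ x y w, T x y w = a0 x * (β y * ω w) + ξ x * T x1 y w +
      (a2 x * (β y * T x2 z1 w + b2 y * T x2 z2 w + b3 y * T x2 z3 w) +
        a3 x * (β y * T x3 z1 w + b2 y * T x3 z2 w + b3 y * T x3 z3 w)) := by
    intro x y w
    have h1 : T x y w = a0 x * T u y w + ξ x * T x1 y w + a2 x * T x2 y w + a3 x * T x3 y w := by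
      conv_lhs => rw [hx x]
      simp only [map_add, map_smul, LinearMap.add_apply, LinearMap.smul_apply, smul_eq_mul]
    have h2 : ∀ x', T x' y w = b0 y * T x' y1 w + β y * T x' z1 w + b2 y * T x' z2 w +
        b3 y * T x' z3 w := by
      intro x'
      conv_lhs => rw [hz y]
      simp only [map_add, map_smul, LinearMap.add_apply, LinearMap.smul_apply, smul_eq_mul]
    rw [h1, hyw, h2 x2, h2 x3, hxw, hxw, ex2, ex3]
    ring
  let X : Fin 2 → V := ![x2, x3]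
  let Z : Fin 2 → V := ![z2, z3]
  rcases B0DEC_two (fun i j => T (X i) (Z j) w1) (fun i j => T (X i) (Z j) w2)
    (fun i j => T (X i) (Z j) w3) with ⟨s, t, hst, hdep⟩ | ⟨s, t, hdet⟩
  · have d1 : T x2 z2 (s • w2 + t • w3) = 0 := by
      rw [map_add, map_smul, map_smul]; exact hdep 0 0
    have d2 : T x2 z3 (s • w2 + t • w3) = 0 := by
      rw [map_add, map_smul, map_smul]; exact hdep 0 1
    have d3 : T x3 z2 (s • w2 + t • w3) = 0 := by
      rw [map_add, map_smul, map_smul]; exact hdep 1 0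
    have d4 : T x3 z3 (s • w2 + t • w3) = 0 := by
      rw [map_add, map_smul, map_smul]; exact hdep 1 1
    have dω : ω (s • w2 + t • w3) = 0 := by
      rw [map_add, map_smul, map_smul, ew2, ew3, smul_zero, smul_zero, add_zero]
    refine B0DEC_rt (hR (rt T) v (s • w2 + t • w3) ?_ ⟨ξ, γ, fun x y => ?_⟩
      ⟨ξ, (T x1).flip (s • w2 + t • w3), T x2 z1 (s • w2 + t • w3) • a2 +
        T x3 z1 (s • w2 + t • w3) • a3, β, fun x y => ?_⟩)
    · rw [LinearIndependent.pair_iff]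
      intro p q hpq
      have k0 : c0 (p • v + q • (s • w2 + t • w3)) = 0 := by rw [hpq, map_zero]
      have k2 : c2 (p • v + q • (s • w2 + t • w3)) = 0 := by rw [hpq, map_zero]
      have k3 : c3 (p • v + q • (s • w2 + t • w3)) = 0 := by rw [hpq, map_zero]
      simp only [map_add, map_smul, smul_eq_mul, g0, g02, g03, g2, g22, g23, g3, g32, g33,
        mul_one, mul_zero, add_zero, zero_add] at k0 k2 k3
      refine ⟨k0, ?_⟩
      rcases hst with h | h
      · exact (mul_eq_zero.mp k2).resolve_right h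
      · exact (mul_eq_zero.mp k3).resolve_right h
    · rw [rt_apply, hxy]
    · rw [rt_apply, hT, dω, d1, d2, d3, d4]
      simp only [LinearMap.add_apply, LinearMap.smul_apply, smul_eq_mul, LinearMap.flip_apply]
      ring
  · obtain ⟨p, q, hpq⟩ := B0DEC_rk1 (fun i j => T (X i) (Z j) (w1 + s • w2 + t • w3)) (by
      simp only [map_add, map_smul, smul_eq_mul]
      exact hdet)
    have d1 : T x2 z2 (w1 + s • w2 + t • w3) = p 0 * q 0 := hpq 0 0
    have d2 : T x2 z3 (w1 + s • w2 + t • w3) = p 0 * q 1 := hpq 0 1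
    have d3 : T x3 z2 (w1 + s • w2 + t • w3) = p 1 * q 0 := hpq 1 0
    have d4 : T x3 z3 (w1 + s • w2 + t • w3) = p 1 * q 1 := hpq 1 1
    set w' : V := w1 + s • w2 + t • w3 with hw'
    have dω : ω w' = 1 := by
      rw [hw', map_add, map_add, map_smul, map_smul, ew1, ew2, ew3, smul_zero, smul_zero,
        add_zero, add_zero]
    obtain ⟨η, θ, c, d, hc, hd⟩ := hP (rt T w2) (rt T w3) u y1 hu hy
      (fun y => by rw [rt_apply, hyw, ew2, mul_zero])
      (fun x => by rw [rt_apply, hxw, ew2, mul_zero])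
      (fun y => by rw [rt_apply, hyw, ew3, mul_zero])
      (fun x => by rw [rt_apply, hxw, ew3, mul_zero])
    have hc' : ∀ x y, T x y w2 = ∑ j, c j * (η j x * θ j y) := hc
    have hd' : ∀ x y, T x y w3 = ∑ j, d j * (η j x * θ j y) := hd
    refine ⟨![ξ, ξ, a0 + T x2 z1 w' • a2 + T x3 z1 w' • a3, p 0 • a2 + p 1 • a3,
        η 0, η 1, η 2, η 3],
      ![γ, (T x1).flip w', β, q 0 • b2 + q 1 • b3, θ 0, θ 1, θ 2, θ 3],
      ![c0, ω, ω, ω, c 0 • (c2 - s • ω) + d 0 • (c3 - t • ω),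
        c 1 • (c2 - s • ω) + d 1 • (c3 - t • ω), c 2 • (c2 - s • ω) + d 2 • (c3 - t • ω),
        c 3 • (c2 - s • ω) + d 3 • (c3 - t • ω)], fun x y w => ?_⟩
    have h1 : T x y w = c0 w * T x y v + ω w * T x y w' + (c2 w - s * ω w) * T x y w2 +
        (c3 w - t * ω w) * T x y w3 := by
      conv_lhs => rw [hw w]
      rw [hw']
      simp only [map_add, map_smul, smul_eq_mul]
      ring
    rw [h1, hxy, hT x y w', dω, d1, d2, d3, d4, hc', hd', Fin.sum_univ_four, Fin.sum_univ_four,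
      Fin.sum_univ_eight]
    simp [LinearMap.add_apply, LinearMap.smul_apply, smul_eq_mul, LinearMap.flip_apply]
    ring

end Pool.Agent.MR8
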