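import Pool.Agent.MR8.Defs

/-!
# Two slices of rank one which share a factor: the third one (job B0V, helper97)
-/

set_option autoImplicit false

namespace Pool.Agent.MR8

lemma B0V_RK_sw {r : ℕ} {T : Tri} (h : RK r (sw T)) : RK r T := by
  obtain ⟨α, β, γ, h⟩ := h
  refine ⟨β, α, γ, fun x y w => ?_⟩
  rw [← sw_apply, h y x w]
  exact Finset.sum_congr rfl fun i _ => by ring

lemma B0V_surj {k : ℕ} (η : Fin k → D) (hη : LinearIndependent ℂ η) :
    Function.Surjective (LinearMap.pi η : V →ₗ[ℂ] (Fin k → ℂ)) := by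
  rw [← LinearMap.range_eq_top]
  by_contra hne
  obtain ⟨f, hf0, hf⟩ := Submodule.exists_le_ker_of_lt_top _ (lt_top_iff_ne_top.mpr hne)
  apply hf0
  have h1 : ∑ i, f (fun j => if i = j then 1 else 0) • η i = 0 := by
    refine LinearMap.ext fun y => ?_
    have h2 : f (LinearMap.pi η y) = 0 := hf ⟨y, rfl⟩
    rw [LinearMap.pi_apply_eq_sum_univ] at h2
    rw [LinearMap.sum_apply, LinearMap.zero_apply]
    refine Eq.trans (Finset.sum_congr rfl fun i _ => ?_) h2
    rw [LinearMap.smul_apply, smul_eq_mul, LinearMap.pi_apply, smul_eq_mul, mul_comm]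
  have h3 := Fintype.linearIndependent_iff.mp hη _ h1
  refine LinearMap.ext fun z => ?_
  rw [LinearMap.pi_apply_eq_sum_univ f z, LinearMap.zero_apply]
  exact Finset.sum_eq_zero fun i _ => by rw [h3 i, smul_zero]

lemma B0V_dual {k : ℕ} (η : Fin k → D) (hη : LinearIndependent ℂ η) :
    ∃ e : Fin k → V, ∀ i j, η i (e j) = if i = j then 1 else 0 := by
  have hs := B0V_surj η hη
  choose e he using fun j : Fin k => hs (fun i => if i = j then 1 else 0)
  exact ⟨e, fun i j => congrFun (he j) i⟩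

lemma B0V_line (η : Fin 3 → D) (hη : LinearIndependent ℂ η) (v : V) (hv : v ≠ 0)
    (h : ∀ i, η i v = 0) (y : V) (hy : ∀ i, η i y = 0) : ∃ c : ℂ, y = c • v := by
  have hs := B0V_surj η hη
  have h1 : Module.finrank ℂ (LinearMap.ker (LinearMap.pi η : V →ₗ[ℂ] (Fin 3 → ℂ))) = 1 := by
    have h2 := LinearMap.finrank_range_add_finrank_ker (LinearMap.pi η : V →ₗ[ℂ] (Fin 3 → ℂ))
    rw [LinearMap.range_eq_top.mpr hs, finrank_top] at h2
    simp only [Module.finrank_fintype_fun_eq_card, Fintype.card_fin] at h2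
    omega
  have hvk : v ∈ LinearMap.ker (LinearMap.pi η : V →ₗ[ℂ] (Fin 3 → ℂ)) := by
    rw [LinearMap.mem_ker]
    exact funext h
  have hyk : y ∈ LinearMap.ker (LinearMap.pi η : V →ₗ[ℂ] (Fin 3 → ℂ)) := by
    rw [LinearMap.mem_ker]
    exact funext hy
  have hne : (⟨v, hvk⟩ : LinearMap.ker (LinearMap.pi η : V →ₗ[ℂ] (Fin 3 → ℂ))) ≠ 0 := by
    intro h0
    exact hv (congrArg Subtype.val h0)
  obtain ⟨c, hc⟩ := (finrank_eq_one_iff_of_nonzero' _ hne).mp h1 ⟨y, hyk⟩
  exact ⟨c, (congrArg Subtype.val hc).symm⟩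

lemma B0V_ker {k : ℕ} (hk : k < 4) (η : Fin k → D) : ∃ v : V, v ≠ 0 ∧ ∀ i, η i v = 0 := by
  have h : LinearMap.ker (LinearMap.pi η : V →ₗ[ℂ] (Fin k → ℂ)) ≠ ⊥ :=
    LinearMap.ker_ne_bot_of_finrank_lt (by simpa using hk)
  obtain ⟨v, hv, hv0⟩ := Submodule.exists_mem_ne_zero_of_ne_bot h
  refine ⟨v, hv0, fun i => ?_⟩
  have h1 : (LinearMap.pi η : V →ₗ[ℂ] (Fin k → ℂ)) v = 0 := hv
  exact congrFun h1 i

lemma B0V_x (ξ : D) (u : V) (hu : u ≠ 0) : ∃ x : V, LinearIndependent ℂ ![u, x] ∧ ξ x = 0 := by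
  obtain ⟨j, hj⟩ : ∃ j, u j ≠ 0 := by
    by_contra h
    push Not at h
    exact hu (funext h)
  obtain ⟨x, hx, h⟩ := B0V_ker (by norm_num : 2 < 4) ![ξ, LinearMap.proj j]
  have h0 : ξ x = 0 := h 0
  have h1 : x j = 0 := h 1
  refine ⟨x, ?_, h0⟩
  rw [LinearIndependent.pair_iff]
  intro s t hst
  have h2 : s * u j + t * x j = 0 := congrFun hst j
  rw [h1, mul_zero, add_zero] at h2
  have hs : s = 0 := (mul_eq_zero.mp h2).resolve_right hj
  rw [hs, zero_smul, zero_add] at hst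
  exact ⟨hs, (smul_eq_zero.mp hst).resolve_right hx⟩

lemma B0V_r3 (hD : P_RKD) (B : Bi) (hB : ¬ Rk2 B) (y1 : V) (hy1 : y1 ≠ 0)
    (h : ∀ w, B y1 w = 0) :
    ∃ η ω : Fin 3 → D, LinearIndependent ℂ η ∧ LinearIndependent ℂ ω ∧
      (∀ y w, B y w = ∑ i, η i y * ω i w) ∧ ∀ i, η i y1 = 0 := by
  obtain ⟨r, hr, η, ω, hη, hω, hB'⟩ := hD B
  have h0 : ∀ i, η i y1 = 0 := by
    have h1 : ∑ i, η i y1 • ω i = 0 := by
      refine LinearMap.ext fun w => ?_
      rw [LinearMap.sum_apply, LinearMap.zero_apply, ← h w, hB' y1 w]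
      rfl
    exact Fintype.linearIndependent_iff.mp hω _ h1
  interval_cases r
  · exact absurd ⟨0, 0, 0, 0, fun x y => by simp [hB']⟩ hB
  · exact absurd ⟨η 0, ω 0, 0, 0, fun x y => by simp [hB']⟩ hB
  · exact absurd ⟨η 0, ω 0, η 1, ω 1, fun x y => by simp [hB', Fin.sum_univ_two]⟩ hB
  · exact ⟨η, ω, hη, hω, hB', h0⟩
  · exfalso
    have hs := B0V_surj η hη
    have hi : Function.Injective (LinearMap.pi η : V →ₗ[ℂ] V) :=
      LinearMap.injective_iff_surjective.mpr hs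
    refine hy1 (hi ?_)
    rw [map_zero]
    exact funext h0

lemma B0V_span (ω : Fin 3 → D) (hω : LinearIndependent ℂ ω) (v : V) (hv : v ≠ 0)
    (h : ∀ i, ω i v = 0) (ω4 : D) (h4 : ω4 v = 0) :
    ∃ c : Fin 3 → ℂ, ∑ i, c i • ω i = ω4 := by
  obtain ⟨f, hf⟩ := B0V_dual ω hω
  refine ⟨fun i => ω4 (f i), LinearMap.ext fun w => ?_⟩
  obtain ⟨c, hc⟩ := B0V_line ω hω v hv h (w - ∑ i, ω i w • f i) (by
    intro j
    rw [map_sub, map_sum]
    simp [hf])
  have h5 : ω4 w = ω4 (∑ i, ω i w • f i) := by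
    have h6 : w = c • v + ∑ i, ω i w • f i := by
      rw [← hc]
      abel
    calc ω4 w = ω4 (c • v + ∑ i, ω i w • f i) := by rw [← h6]
      _ = ω4 (∑ i, ω i w • f i) := by
        rw [map_add, map_smul, h4, smul_zero, zero_add]
  rw [h5, map_sum, LinearMap.sum_apply]
  refine Finset.sum_congr rfl fun i _ => ?_
  rw [LinearMap.smul_apply, map_smul, smul_eq_mul, smul_eq_mul, mul_comm]

lemma B0V_pair (η : Fin 3 → D) (hη : LinearIndependent ℂ η) (a b : Fin 3) (hab : a ≠ b) :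
    LinearIndependent ℂ ![η a, η b] := by
  have h := hη.comp ![a, b] (by
    intro i j hij
    fin_cases i <;> fin_cases j <;> simp_all)
  have e : η ∘ ![a, b] = ![η a, η b] := by
    funext i
    fin_cases i <;> rfl
  rwa [e] at h

theorem p_B0V (h3 : P_G3) (hE : P_E) (hR : P_R12) (hD : P_RKD) (hM : P_MIX) (h0 : P_ZERO) :
    P_B0V := by
  intro T hT u y1 ξ β ω hu hy1 hy hx hξu
  have hξ : ξ ≠ 0 := by
    intro h
    refine hT (B0V_RK_sw (h0 (sw T) y1 hy1 fun x w => ?_))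
    rw [sw_apply, hy, h, LinearMap.zero_apply, zero_mul]
  have hω : ω ≠ 0 := by
    intro h
    refine hT (B0V_RK_sw (h0 (sw T) y1 hy1 fun x w => ?_))
    rw [sw_apply, hy, h, LinearMap.zero_apply, mul_zero]
  obtain ⟨xs, hxs⟩ : ∃ x, ξ x ≠ 0 := by
    by_contra h
    push Not at h
    exact hξ (LinearMap.ext h)
  obtain ⟨ws, hws⟩ : ∃ w, ω w ≠ 0 := by
    by_contra h
    push Not at h
    exact hω (LinearMap.ext h)
  have hβy1 : β y1 = 0 := by
    have h1 := hx y1 ws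
    rw [hy, hξu, zero_mul] at h1
    exact (mul_eq_zero.mp h1.symm).resolve_right hws
  obtain ⟨x, hux, hξx⟩ := B0V_x ξ u hu
  have hnR : ¬ Rk2 (T x) := fun h => hT (hR T u x hux ⟨β, ω, hx⟩ h)
  obtain ⟨η0, ω0, hη0, hω0, hTx0, hη0y⟩ := B0V_r3 hD (T x) hnR y1 hy1 (fun w => by
    rw [hy, hξx, zero_mul])
  obtain ⟨v, hv, hω0v⟩ := B0V_ker (by norm_num : 3 < 4) ω0
  -- frames for an arbitrary decomposition
  have hfr : ∀ η' ω' : Fin 3 → D, (∀ y w, T x y w = ∑ i, η' i y * ω' i w) →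
      Frames T ![u, x] ![η' 0, η' 1, η' 2, β] ![ω' 0, ω' 1, ω' 2, ω] := by
    intro η' ω' h
    refine ⟨hux, fun i => ?_⟩
    fin_cases i
    · refine ⟨![0, 0, 0, 1], fun y w => ?_⟩
      have e : T (![u, x] 0) y w = β y * ω w := hx y w
      simpa [Fin.sum_univ_four] using e
    · refine ⟨![1, 1, 1, 0], fun y w => ?_⟩
      have e : T (![u, x] 1) y w = ∑ i, η' i y * ω' i w := h y w
      simpa [Fin.sum_univ_four, Fin.sum_univ_three] using e
  have hωv : ω v = 0 := by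
    have h1 := h3 T hT _ _ _ (hfr η0 ω0 hTx0) ![0, 1, 2] (by decide) (by
      have e : (fun i => ![η0 0, η0 1, η0 2, β] (![0, 1, 2] i)) = η0 := by
        funext i
        fin_cases i <;> rfl
      rw [e]
      exact hη0) (by
      have e : (fun i => ![ω0 0, ω0 1, ω0 2, ω] (![0, 1, 2] i)) = ω0 := by
        funext i
        fin_cases i <;> rfl
      rw [e]
      exact hω0) y1 v (fun i => by
        fin_cases i
        · exact hη0y 0
        · exact hη0y 1
        · exact hη0y 2) (fun i => by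
        fin_cases i
        · exact hω0v 0
        · exact hω0v 1
        · exact hω0v 2) xs
    rw [hy] at h1
    exact (mul_eq_zero.mp h1).resolve_left hxs
  obtain ⟨c, hc⟩ := B0V_span ω0 hω0 v hv hω0v ω hωv
  have hc0 : c ≠ 0 := by
    intro h
    apply hω
    rw [← hc, h]
    simp
  obtain ⟨ω', η', hω', hη', hsum, hcω, hkω, hkη⟩ := hM ω0 η0 hω0 hη0 c hc0
  rw [hc] at hcω
  have hTx : ∀ y w, T x y w = ∑ i, η' i y * ω' i w := by
    intro y w
    rw [hTx0]
    calc ∑ i, η0 i y * ω0 i w = ∑ i, ω0 i w * η0 i y :=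
          Finset.sum_congr rfl fun i _ => mul_comm _ _
      _ = ∑ i, ω' i w * η' i y := hsum w y
      _ = _ := Finset.sum_congr rfl fun i _ => mul_comm _ _
  have hη'y : ∀ i, η' i y1 = 0 := (hkη y1).mp hη0y
  have hω'v : ∀ i, ω' i v = 0 := (hkω v).mp hω0v
  obtain ⟨e, he⟩ := B0V_dual η' hη'
  obtain ⟨f, hf⟩ := B0V_dual ω' hω'
  have hωf : ∀ r, ω (f r) = 1 := by
    intro r
    rw [hcω, LinearMap.add_apply, LinearMap.add_apply, hf, hf, hf]
    fin_cases r <;> simp
  have hya : ∀ j, ![η' 0, η' 1, η' 2, β] j y1 = 0 := by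
    intro j
    fin_cases j
    · exact hη'y 0
    · exact hη'y 1
    · exact hη'y 2
    · exact hβy1
  have hwa : ∀ j, ![ω' 0, ω' 1, ω' 2, ω] j v = 0 := by
    intro j
    fin_cases j
    · exact hω'v 0
    · exact hω'v 1
    · exact hω'v 2
    · exact hωv
  have hTa : ∀ x', T x' y1 v = 0 := fun x' => by rw [hy, hωv, mul_zero]
  have key : ∀ r : Fin 3, ∀ x' x'' : V, ξ x' * T x'' (e r) v = ξ x'' * T x' (e r) v := by
    intro r x' x''
    have h1 : T x' y1 (f r) * T x'' (e r) v = T x'' y1 (f r) * T x' (e r) v := by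
      fin_cases r
      · exact hE T hT _ _ _ (hfr η' ω' hTx) 1 2 (by decide) (B0V_pair η' hη' 1 2 (by decide))
          (B0V_pair ω' hω' 1 2 (by decide)) y1 v (e 0) (f 0) hya hwa hTa
          (by simpa using he 1 0) (by simpa using he 2 0)
          (by simpa using hf 1 0) (by simpa using hf 2 0) x' x''
      · exact hE T hT _ _ _ (hfr η' ω' hTx) 0 2 (by decide) (B0V_pair η' hη' 0 2 (by decide))
          (B0V_pair ω' hω' 0 2 (by decide)) y1 v (e 1) (f 1) hya hwa hTa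
          (by simpa using he 0 1) (by simpa using he 2 1)
          (by simpa using hf 0 1) (by simpa using hf 2 1) x' x''
      · exact hE T hT _ _ _ (hfr η' ω' hTx) 0 1 (by decide) (B0V_pair η' hη' 0 1 (by decide))
          (B0V_pair ω' hω' 0 1 (by decide)) y1 v (e 2) (f 2) hya hwa hTa
          (by simpa using he 0 2) (by simpa using he 1 2)
          (by simpa using hf 0 2) (by simpa using hf 1 2) x' x''
    rw [hy, hy, hωf, mul_one, mul_one] at h1
    exact h1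
  refine ⟨v, hv, hωv, (ξ xs)⁻¹ • (rt T v xs), fun x' y => ?_⟩
  have hγ : ((ξ xs)⁻¹ • (rt T v xs)) y = (ξ xs)⁻¹ * T xs y v := rfl
  rw [hγ]
  obtain ⟨k, hk⟩ := B0V_line η' hη' y1 hy1 hη'y (y - ∑ i, η' i y • e i) (by
    intro j
    rw [map_sub, map_sum]
    simp [he])
  have hy2 : y = k • y1 + ∑ i, η' i y • e i := by
    rw [← hk]
    abel
  have hexp : ∀ z : V, T z y v = ∑ i, η' i y * T z (e i) v := by
    intro z
    have h1 : T z y v = T z (k • y1 + ∑ i, η' i y • e i) v := by rw [← hy2]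
    rw [h1, map_add, map_smul, map_sum, LinearMap.add_apply, LinearMap.smul_apply, hTa,
      smul_zero, zero_add, LinearMap.sum_apply]
    refine Finset.sum_congr rfl fun i _ => ?_
    rw [map_smul, LinearMap.smul_apply, smul_eq_mul]
  rw [hexp x', hexp xs, Finset.mul_sum, Finset.mul_sum]
  refine Finset.sum_congr rfl fun i _ => ?_
  have h5 := key i x' xs
  field_simp
  linear_combination (-(η' i y)) * h5

end Pool.Agent.MR8
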