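import Pool.Agent.MR8.Defs
import Pool.Agent.MR4.Pencil

set_option autoImplicit false

/-!
# Basic facts: permutation of the arguments, sums, bases, a zero slice, a pencil
-/

namespace Pool.Agent.MR8

open Matrix

theorem RK_sw {r : ℕ} {T : Tri} : RK r (sw T) ↔ RK r T := by
  constructor
  · rintro ⟨α, β, γ, h⟩
    refine ⟨β, α, γ, fun x y w => ?_⟩
    rw [← sw_apply, h]
    exact Finset.sum_congr rfl fun i _ => by ring
  · rintro ⟨α, β, γ, h⟩
    refine ⟨β, α, γ, fun x y w => ?_⟩
    rw [sw_apply, h]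
    exact Finset.sum_congr rfl fun i _ => by ring

theorem RK_sv {r : ℕ} {T : Tri} : RK r (sv T) ↔ RK r T := by
  constructor
  · rintro ⟨α, β, γ, h⟩
    refine ⟨α, γ, β, fun x y w => ?_⟩
    rw [← sv_apply, h]
    exact Finset.sum_congr rfl fun i _ => by ring
  · rintro ⟨α, β, γ, h⟩
    refine ⟨α, γ, β, fun x y w => ?_⟩
    rw [sv_apply, h]
    exact Finset.sum_congr rfl fun i _ => by ring

theorem RK_rt {r : ℕ} {T : Tri} : RK r (rt T) ↔ RK r T := by
  rw [rt, RK_sw, RK_sv]

theorem RK_mono {r r' : ℕ} {T : Tri} (h : RK r T) (hr : r ≤ r') : RK r' T := by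
  obtain ⟨α, β, γ, h⟩ := h
  refine ⟨fun s => if hs : s.1 < r then α ⟨s.1, hs⟩ else 0,
    fun s => if hs : s.1 < r then β ⟨s.1, hs⟩ else 0,
    fun s => if hs : s.1 < r then γ ⟨s.1, hs⟩ else 0, fun x y w => ?_⟩
  rw [h]
  refine Fintype.sum_of_injective (Fin.castLE hr) (Fin.castLE_injective hr) _ _ ?_ ?_
  · intro s hs
    have : ¬ s.1 < r := fun hlt => hs ⟨⟨s.1, hlt⟩, by ext; simp⟩
    simp [this]
  · intro s
    simp

theorem RK_add {r r' : ℕ} {T T' : Tri} (h : RK r T) (h' : RK r' T') : RK (r + r') (T + T') := by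
  obtain ⟨α, β, γ, h⟩ := h
  obtain ⟨α', β', γ', h'⟩ := h'
  refine ⟨Fin.append α α', Fin.append β β', Fin.append γ γ', fun x y w => ?_⟩
  simp only [LinearMap.add_apply, h, h']
  rw [Fin.sum_univ_add]
  simp

theorem BASE_congr {r : ℕ} {T T' : Tri} (h : RK r T) (e : ∀ x y w, T' x y w = T x y w) :
    RK r T' := by
  obtain ⟨α, β, γ, h⟩ := h
  exact ⟨α, β, γ, fun x y w => by rw [e, h]⟩

/-- Rank one. -/
theorem BASE_one {T : Tri} (α β γ : D) (h : ∀ x y w, T x y w = α x * β y * γ w) : RK 1 T :=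
  ⟨fun _ => α, fun _ => β, fun _ => γ, fun x y w => by simp [h]⟩

/-- The array of `T` in three bases. -/
noncomputable def BASE_toSl (T : Tri) (bX bY bW : Module.Basis (Fin 4) ℂ V) : MR4.Sl :=
  fun k => Matrix.of fun i j => T (bX k) (bY i) (bW j)

theorem BASE_basis {r : ℕ} {T : Tri} (bX bY bW : Module.Basis (Fin 4) ℂ V)
    (h : MR4.RK r (BASE_toSl T bX bY bW)) : RK r T := by
  obtain ⟨a, b, c, h⟩ := h
  refine ⟨fun s => bX.constr ℂ (a s), fun s => bY.constr ℂ (b s), fun s => bW.constr ℂ (c s), ?_⟩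
  have key : T = ∑ s, (bX.constr ℂ (a s) : D).smulRight
      ((bY.constr ℂ (b s) : D).smulRight (bW.constr ℂ (c s) : D)) := by
    refine bX.ext fun k => bY.ext fun i => bW.ext fun j => ?_
    have h1 := h k i j
    simp only [BASE_toSl, Matrix.of_apply] at h1
    rw [h1]
    simp only [LinearMap.sum_apply, LinearMap.smulRight_apply, LinearMap.smul_apply,
      Module.Basis.constr_basis, smul_eq_mul]
    exact Finset.sum_congr rfl fun s _ => by ring
  intro x y w
  rw [key]
  simp only [LinearMap.sum_apply, LinearMap.smulRight_apply, LinearMap.smul_apply, smul_eq_mul]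
  exact Finset.sum_congr rfl fun s _ => by ring

theorem BASE_basis_iff {r : ℕ} {T : Tri} (bX bY bW : Module.Basis (Fin 4) ℂ V) :
    RK r T ↔ MR4.RK r (BASE_toSl T bX bY bW) := by
  refine ⟨?_, BASE_basis bX bY bW⟩
  rintro ⟨α, β, γ, h⟩
  exact ⟨fun s k => α s (bX k), fun s i => β s (bY i), fun s j => γ s (bW j),
    fun k i j => by simp [BASE_toSl, h]⟩

/-- The standard basis. -/
noncomputable abbrev BASE_e : Module.Basis (Fin 4) ℂ V := Pi.basisFun ℂ (Fin 4)

/-- The relation between the two notions of rank. -/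
theorem BASE_bridge {r : ℕ} {T : Tri} :
    RK r T ↔ MR4.RK r (fun k => Matrix.of fun i j =>
      T (Pi.single k 1) (Pi.single i 1) (Pi.single j 1)) := by
  have e : (fun k => Matrix.of fun i j =>
      T (Pi.single k 1) (Pi.single i 1) (Pi.single j 1)) = BASE_toSl T BASE_e BASE_e BASE_e := by
    funext k
    ext i j
    simp only [BASE_toSl, Matrix.of_apply, Pi.basisFun_apply]
  rw [e]
  exact BASE_basis_iff BASE_e BASE_e BASE_e

/-- The trilinear form of an array. -/
noncomputable def BASE_ofSl (M : MR4.Sl) : Tri :=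
  ∑ k, (LinearMap.proj k : D).smulRight
    (∑ i, (LinearMap.proj i : D).smulRight (∑ j, M k i j • (LinearMap.proj j : D)))

theorem BASE_ofSl_single (M : MR4.Sl) (k i j : Fin 4) :
    BASE_ofSl M (Pi.single k 1) (Pi.single i 1) (Pi.single j 1) = M k i j := by
  simp [BASE_ofSl, Pi.single_apply]

theorem BASE_ofSl_apply (M : MR4.Sl) (x y w : V) :
    BASE_ofSl M x y w = ∑ k, ∑ i, ∑ j, x k * y i * (M k i j * w j) := by
  simp only [BASE_ofSl, LinearMap.sum_apply, LinearMap.smulRight_apply, LinearMap.smul_apply,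
    LinearMap.proj_apply, smul_eq_mul, Finset.mul_sum]
  exact Finset.sum_congr rfl fun k _ => Finset.sum_congr rfl fun i _ =>
    Finset.sum_congr rfl fun j _ => by ring

theorem BASE_RK_ofSl {r : ℕ} {M : MR4.Sl} : RK r (BASE_ofSl M) ↔ MR4.RK r M := by
  rw [BASE_bridge]
  have : (fun k => Matrix.of fun i j =>
      BASE_ofSl M (Pi.single k 1) (Pi.single i 1) (Pi.single j 1)) = M := by
    funext k
    ext i j
    rw [Matrix.of_apply, BASE_ofSl_single]
  rw [this]

/-- It is enough to prove the bound for trilinear forms. -/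
theorem BASE_all (h : ∀ T : Tri, RK 8 T) (M : MR4.Sl) : MR4.RK 8 M :=
  BASE_RK_ofSl.mp (h _)

/-- It is enough to prove the bound for trilinear forms. -/
theorem bridge : (∀ T : Tri, RK 8 T) → ∀ M : MR4.Sl, MR4.RK 8 M := BASE_all

/-! ### Bases -/

theorem BASE_ext {n : ℕ} (hn : n ≤ 4) (v : Fin n → V) (hv : LinearIndependent ℂ v) :
    ∃ b : Module.Basis (Fin 4) ℂ V, ∀ i : Fin n, b (Fin.castLE hn i) = v i := by
  have key : ∀ m, ∀ n : ℕ, n + m = 4 → ∀ (hn : n ≤ 4) (v : Fin n → V), LinearIndependent ℂ v →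
      ∃ u : Fin 4 → V, LinearIndependent ℂ u ∧ ∀ i : Fin n, u (Fin.castLE hn i) = v i := by
    intro m
    induction m with
    | zero =>
      intro n h hn v hv
      obtain rfl : n = 4 := by omega
      exact ⟨v, hv, fun i => rfl⟩
    | succ m ih =>
      intro n h hn v hv
      have hlt : n < Module.finrank ℂ V := by
        rw [Module.finrank_fin_fun]
        omega
      obtain ⟨x, hx⟩ := exists_linearIndependent_snoc_of_lt_finrank hv hlt
      obtain ⟨u, hu, h'⟩ := ih (n + 1) (by omega) (by omega) _ hx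
      refine ⟨u, hu, fun i => ?_⟩
      have h2 := h' i.castSucc
      rw [Fin.snoc_castSucc] at h2
      exact h2
  obtain ⟨u, hu, h⟩ := key (4 - n) n (by omega) hn v hv
  refine ⟨basisOfLinearIndependentOfCardEqFinrank hu (by simp), fun i => ?_⟩
  rw [coe_basisOfLinearIndependentOfCardEqFinrank]
  exact h i

theorem BASE_basis4 (v : Fin 4 → V) (hv : LinearIndependent ℂ v) :
    ∃ b : Module.Basis (Fin 4) ℂ V, ∀ i, b i = v i :=
  ⟨basisOfLinearIndependentOfCardEqFinrank hv (by simp), fun i => by simp⟩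

/-! ### The targets -/

theorem p_ZERO : P_ZERO := by
  intro T x hx h
  obtain ⟨b, hb⟩ := BASE_ext (n := 1) (by norm_num) ![x] (by
    rw [linearIndependent_unique_iff]
    simpa using hx)
  have hb0 : b 0 = x := hb 0
  refine BASE_basis b BASE_e BASE_e (MR4.RK8_of_zero' 0 ?_)
  ext i j
  simp [BASE_toSl, hb0, h]

theorem BASE_PEN6 (T : Tri) (l : Fin 2 → V) (hl : LinearIndependent ℂ l)
    (h : ∀ i y w, T (l i) y w = 0) : RK 6 T := by
  obtain ⟨b, hb⟩ := BASE_ext (n := 2) (by norm_num) l hl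
  have h0 : b 0 = l 0 := hb 0
  have h1 : b 1 = l 1 := hb 1
  have e0 : b.reindex (Fin.revPerm) 3 = l 0 := by
    rw [Module.Basis.reindex_apply, ← h0]
    rfl
  have e1 : b.reindex (Fin.revPerm) 2 = l 1 := by
    rw [Module.Basis.reindex_apply, ← h1]
    rfl
  refine BASE_basis (b.reindex Fin.revPerm) BASE_e BASE_e (MR4.RK6_pencil ?_ ?_)
  · ext i j
    simp only [BASE_toSl, Matrix.of_apply, e1, h]
    rfl
  · ext i j
    simp only [BASE_toSl, Matrix.of_apply, e0, h]
    rfl

theorem p_PEN6 : P_PEN6 := by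
  intro T S l hl r hS h
  have h1 : RK 6 (T - S) := BASE_PEN6 (T - S) l hl fun i y w => by
    simp [LinearMap.sub_apply, h]
  have h2 := RK_add hS h1
  exact BASE_congr h2 fun x y w => by
    simp only [LinearMap.add_apply, LinearMap.sub_apply]
    ring

end Pool.Agent.MR8
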