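import Pool.Agent.MR8.Defs

set_option autoImplicit false

namespace Pool.Agent.MR8

/-- The trilinear form of an array. -/
noncomputable def ofArray (T : Fin 4 → Fin 4 → Fin 4 → ℂ) : Tri :=
  ∑ i, ∑ j, ∑ k, (LinearMap.proj i : D).smulRight
    ((LinearMap.proj j : D).smulRight (T i j k • (LinearMap.proj k : D)))

lemma ofArray_apply (T : Fin 4 → Fin 4 → Fin 4 → ℂ) (i j k : Fin 4) :
    ofArray T (Pi.single i 1) (Pi.single j 1) (Pi.single k 1) = T i j k := by
  simp [ofArray, Pi.single_apply]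

/-- Decompositions of arrays from decompositions of forms. -/
lemma exists_of_RK {r : ℕ} (T : Fin 4 → Fin 4 → Fin 4 → ℂ) (h : RK r (ofArray T)) :
    ∃ a b c : Fin r → Fin 4 → ℂ, ∀ i j k, T i j k = ∑ s, a s i * b s j * c s k := by
  obtain ⟨α, β, γ, e⟩ := h
  refine ⟨fun s i => α s (Pi.single i 1), fun s j => β s (Pi.single j 1),
    fun s k => γ s (Pi.single k 1), fun i j k => ?_⟩
  rw [← ofArray_apply T i j k, e]

end Pool.Agent.MR8
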