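import Pool.Agent.MR8.Defs

set_option autoImplicit false

namespace Pool.Agent.MR8

open Matrix

/-- Polar form of the determinant. -/
def CON1_pol (X Y : Matrix (Fin 2) (Fin 2) ℂ) : ℂ :=
  X 0 0 * Y 1 1 + X 1 1 * Y 0 0 - X 0 1 * Y 1 0 - X 1 0 * Y 0 1

lemma CON1_poly4 (c0 c1 c2 c3 c4 : ℂ) (S : Set ℂ) (hS : S.Finite)
    (h : ∀ x, x ∉ S → c0 + c1 * x + c2 * x ^ 2 + c3 * x ^ 3 + c4 * x ^ 4 = 0) :
    c0 = 0 ∧ c1 = 0 ∧ c2 = 0 ∧ c3 = 0 ∧ c4 = 0 := by
  classical
  set p : Polynomial ℂ := Polynomial.C c0 + Polynomial.C c1 * Polynomial.X +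
    Polynomial.C c2 * Polynomial.X ^ 2 + Polynomial.C c3 * Polynomial.X ^ 3 +
    Polynomial.C c4 * Polynomial.X ^ 4 with hp
  have hp0 : p = 0 := by
    apply Polynomial.eq_zero_of_infinite_isRoot
    have h1 : (Sᶜ : Set ℂ).Infinite := hS.infinite_compl
    refine h1.mono ?_
    intro x hx
    have := h x hx
    simp only [Set.mem_ofPred_eq, Polynomial.IsRoot.def, hp]
    simp only [Polynomial.eval_add, Polynomial.eval_mul, Polynomial.eval_C, Polynomial.eval_X,
      Polynomial.eval_pow]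
    exact this
  have hc : ∀ k, p.coeff k = 0 := by intro k; rw [hp0]; simp
  have k0 := hc 0
  have k1 := hc 1
  have k2 := hc 2
  have k3 := hc 3
  have k4 := hc 4
  simp [hp, Polynomial.coeff_X, Polynomial.coeff_C] at k0 k1 k2 k3 k4
  exact ⟨k0, k1, k2, k3, k4⟩

/-- Vanishing order two. -/
lemma CON1_ord (c0 c1 c2 c3 c4 a b c : ℂ)
    (h : ∀ ε : ℂ, c0 + c1 * ε + c2 * ε ^ 2 + c3 * ε ^ 3 + c4 * ε ^ 4 =
      ε ^ 2 * (a + b * ε + c * ε ^ 2)) : c0 = 0 ∧ c1 = 0 := by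
  have h0 := h 0
  have h1 := h 1
  have h2 := h (-1)
  have h3 := h 2
  have h4 := h (-2)
  constructor
  · linear_combination h0
  · linear_combination (2/3) * h1 - (2/3) * h2 - (1/12) * h3 + (1/12) * h4

/-- Rank one factorisation. -/
lemma CON1_rk1 (M : Matrix (Fin 2) (Fin 2) ℂ) (h : M.det = 0) :
    ∃ r s : Fin 2 → ℂ, ∀ i j, M i j = r i * s j := by
  rw [Matrix.det_fin_two] at h
  by_cases h00 : M 0 0 = 0
  · by_cases h01 : M 0 1 = 0
    · refine ⟨![0, 1], ![M 1 0, M 1 1], ?_⟩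
      intro i j
      fin_cases i <;> fin_cases j <;> simp [h00, h01]
    · refine ⟨![M 0 1, M 1 1], ![M 0 0 / M 0 1, 1], ?_⟩
      intro i j
      fin_cases i <;> fin_cases j <;> simp
      · field_simp
      · field_simp; linear_combination -h
  · refine ⟨![M 0 0, M 1 0], ![1, M 0 1 / M 0 0], ?_⟩
    intro i j
    fin_cases i <;> fin_cases j <;> simp
    · field_simp
    · field_simp; linear_combination h

/-- The radical of the determinant on a three-dimensional space is at most one-dimensional. -/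
lemma CON1_rad (b : (Fin 3 → ℂ) →ₗ[ℂ] Matrix (Fin 2) (Fin 2) ℂ) (hb : Function.Injective b)
    (w w' : Fin 3 → ℂ) (hw : LinearIndependent ℂ ![w, w'])
    (h1 : ∀ v, CON1_pol (b w) (b v) = 0) (h2 : ∀ v, CON1_pol (b w') (b v) = 0) : False := by
  classical
  -- the map `X ↦ pol X (b ·)`
  let Φ : Matrix (Fin 2) (Fin 2) ℂ →ₗ[ℂ] Module.Dual ℂ (Matrix (Fin 2) (Fin 2) ℂ) :=
    LinearMap.mk₂ ℂ CON1_pol
      (by intro a b c; simp [CON1_pol]; ring) (by intro a b c; simp [CON1_pol]; ring)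
      (by intro a b c; simp [CON1_pol]; ring) (by intro a b c; simp [CON1_pol]; ring)
  have hΦ : ∀ X Y, Φ X Y = CON1_pol X Y := fun X Y => rfl
  have hinj : Function.Injective Φ := by
    rw [← LinearMap.ker_eq_bot, LinearMap.ker_eq_bot']
    intro X hX
    have e : ∀ Y, CON1_pol X Y = 0 := by intro Y; rw [← hΦ, hX]; rfl
    have e1 := e !![1, 0; 0, 0]
    have e2 := e !![0, 1; 0, 0]
    have e3 := e !![0, 0; 1, 0]
    have e4 := e !![0, 0; 0, 1]
    simp [CON1_pol] at e1 e2 e3 e4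
    ext i j
    fin_cases i <;> fin_cases j <;> simp [e1, e2, e3, e4]
  have hsurj : Function.Surjective Φ := by
    have : Module.finrank ℂ (Matrix (Fin 2) (Fin 2) ℂ) =
        Module.finrank ℂ (Module.Dual ℂ (Matrix (Fin 2) (Fin 2) ℂ)) := by
      rw [Subspace.dual_finrank_eq]
    exact (LinearMap.injective_iff_surjective_of_finrank_eq_finrank this).1 hinj
  let Ψ : Matrix (Fin 2) (Fin 2) ℂ →ₗ[ℂ] Module.Dual ℂ (Fin 3 → ℂ) := b.dualMap ∘ₗ Φ
  have hΨ : ∀ X v, Ψ X v = CON1_pol X (b v) := fun X v => rfl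
  have hΨs : Function.Surjective Ψ := by
    have := LinearMap.dualMap_surjective_of_injective hb
    exact this.comp hsurj
  have hk : Module.finrank ℂ (LinearMap.ker Ψ) = 1 := by
    have h := LinearMap.finrank_range_add_finrank_ker Ψ
    have e3 : Module.finrank ℂ (Module.Dual ℂ (Fin 3 → ℂ)) = 3 := by
      rw [Subspace.dual_finrank_eq, Module.finrank_fin_fun]
    have e4 : Module.finrank ℂ (Matrix (Fin 2) (Fin 2) ℂ) = 4 := by
      rw [Module.finrank_matrix]; simp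
    rw [LinearMap.range_eq_top.2 hΨs, finrank_top, e3, e4] at h
    omega
  have hli : LinearIndependent ℂ ![b w, b w'] := by
    have := hw.map' b (LinearMap.ker_eq_bot.2 hb)
    have e : ![b w, b w'] = ⇑b ∘ ![w, w'] := by
      funext i
      fin_cases i <;> rfl
    rw [e]
    exact this
  have m1 : b w ∈ LinearMap.ker Ψ := by
    rw [LinearMap.mem_ker]
    exact LinearMap.ext fun v => (hΨ _ v).trans (h1 v)
  have m2 : b w' ∈ LinearMap.ker Ψ := by
    rw [LinearMap.mem_ker]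
    exact LinearMap.ext fun v => (hΨ _ v).trans (h2 v)
  let g : Fin 2 → LinearMap.ker Ψ := ![⟨b w, m1⟩, ⟨b w', m2⟩]
  have hg : LinearIndependent ℂ g := by
    have : LinearIndependent ℂ ((LinearMap.ker Ψ).subtype ∘ g) := by
      have e : (LinearMap.ker Ψ).subtype ∘ g = ![b w, b w'] := by
        funext i
        fin_cases i <;> rfl
      rw [e]
      exact hli
    exact LinearIndependent.of_comp _ this
  have := hg.fintype_card_le_finrank
  rw [hk] at this
  simp at this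

/-- Infinitely many zeros. -/
lemma CON1_polyinf (c0 c1 c2 c3 c4 : ℂ)
    (h : {x : ℂ | c0 + c1 * x + c2 * x ^ 2 + c3 * x ^ 3 + c4 * x ^ 4 = 0}.Infinite) :
    c0 = 0 ∧ c1 = 0 ∧ c2 = 0 ∧ c3 = 0 ∧ c4 = 0 := by
  classical
  set p : Polynomial ℂ := Polynomial.C c0 + Polynomial.C c1 * Polynomial.X +
    Polynomial.C c2 * Polynomial.X ^ 2 + Polynomial.C c3 * Polynomial.X ^ 3 +
    Polynomial.C c4 * Polynomial.X ^ 4 with hp
  have hp0 : p = 0 := by
    apply Polynomial.eq_zero_of_infinite_isRoot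
    refine h.mono ?_
    intro x hx
    simp only [Set.mem_ofPred_eq] at hx
    simp only [Set.mem_ofPred_eq, Polynomial.IsRoot.def, hp]
    simp only [Polynomial.eval_add, Polynomial.eval_mul, Polynomial.eval_C, Polynomial.eval_X,
      Polynomial.eval_pow]
    exact hx
  have hc : ∀ k, p.coeff k = 0 := by intro k; rw [hp0]; simp
  have k0 := hc 0
  have k1 := hc 1
  have k2 := hc 2
  have k3 := hc 3
  have k4 := hc 4
  simp [hp, Polynomial.coeff_X, Polynomial.coeff_C] at k0 k1 k2 k3 k4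
  exact ⟨k0, k1, k2, k3, k4⟩

/-- A quartic with nonzero leading coefficient has a root. -/
lemma CON1_root (c0 c1 c2 c3 c4 : ℂ) (h4 : c4 ≠ 0) :
    ∃ z : ℂ, c0 + c1 * z + c2 * z ^ 2 + c3 * z ^ 3 + c4 * z ^ 4 = 0 := by
  set p : Polynomial ℂ := Polynomial.C c0 + Polynomial.C c1 * Polynomial.X +
    Polynomial.C c2 * Polynomial.X ^ 2 + Polynomial.C c3 * Polynomial.X ^ 3 +
    Polynomial.C c4 * Polynomial.X ^ 4 with hp
  have hc : p.coeff 4 = c4 := by simp [hp]
  have hd : p.degree ≠ 0 := by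
    intro h
    have : p.coeff 4 = 0 := by
      apply Polynomial.coeff_eq_zero_of_degree_lt
      rw [h]
      norm_num
    exact h4 (hc ▸ this)
  obtain ⟨z, hz⟩ := IsAlgClosed.exists_root p hd
  refine ⟨z, ?_⟩
  have := hz
  rw [Polynomial.IsRoot.def] at this
  simp only [hp, Polynomial.eval_add, Polynomial.eval_mul, Polynomial.eval_C, Polynomial.eval_X,
      Polynomial.eval_pow] at this
  exact this

/-- Entries of `b w`. -/
lemma CON1_ent (b : (Fin 3 → ℂ) →ₗ[ℂ] Matrix (Fin 2) (Fin 2) ℂ) (w : Fin 3 → ℂ) (i j : Fin 2) :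
    b w i j = w 0 * b ![1, 0, 0] i j + w 1 * b ![0, 1, 0] i j + w 2 * b ![0, 0, 1] i j := by
  have e : w = w 0 • ![1, 0, 0] + w 1 • ![0, 1, 0] + w 2 • ![(0 : ℂ), 0, 1] := by
    ext k
    fin_cases k <;> simp
  conv_lhs => rw [e]
  simp only [map_add, map_smul, Matrix.add_apply, Matrix.smul_apply, smul_eq_mul]

/-- Linear independence of two points of the conic. -/
lemma CON1_li (x y : ℂ) (h : x ≠ y) :
    LinearIndependent ℂ ![![1, x, x ^ 2], ![1, y, y ^ 2]] := by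
  rw [LinearIndependent.pair_iff]
  intro s t hst
  have h0 := congrFun hst 0
  have h1 := congrFun hst 1
  simp at h0 h1
  have h2 : s * (x - y) = 0 := by linear_combination h1 - y * h0
  have h3 : s = 0 := by
    rcases mul_eq_zero.1 h2 with h | h'
    · exact h
    · exact absurd (sub_eq_zero.1 h') h
  refine ⟨h3, ?_⟩
  rw [h3] at h0
  simpa using h0

/-- The double root lies on the second factor. -/
lemma CON1_disc (βx βy B D : ℂ) (hx : βx ≠ 0) (hy : βy ≠ 0) (hD : D ≠ 0)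
    (h : ∃ s t s' t' : ℂ, s * t' - t * s' ≠ 0 ∧ ∃ a0 b0 c0 : ℂ, ∀ ε : ℂ,
      ((s + ε * s') * (t + ε * t') * D) * (βx * (s + ε * s') ^ 2 +
        B * ((s + ε * s') * (t + ε * t')) + βy * (t + ε * t') ^ 2) =
        ε ^ 2 * (a0 + b0 * ε + c0 * ε ^ 2)) : B ^ 2 = 4 * βx * βy := by
  obtain ⟨s, t, s', t', hst, a0, b0, c0, h⟩ := h
  obtain ⟨e0, e1⟩ := CON1_ord (D * (s * t * (βx * s ^ 2 + B * (s * t) + βy * t ^ 2)))
    (D * (s * t * (2 * βx * s * s' + B * (s * t' + s' * t) + 2 * βy * t * t') +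
      (s * t' + s' * t) * (βx * s ^ 2 + B * (s * t) + βy * t ^ 2)))
    (D * (s * t * (βx * s' ^ 2 + B * (s' * t') + βy * t' ^ 2) +
      (s * t' + s' * t) * (2 * βx * s * s' + B * (s * t' + s' * t) + 2 * βy * t * t') +
      s' * t' * (βx * s ^ 2 + B * (s * t) + βy * t ^ 2)))
    (D * ((s * t' + s' * t) * (βx * s' ^ 2 + B * (s' * t') + βy * t' ^ 2) +
      s' * t' * (2 * βx * s * s' + B * (s * t' + s' * t) + 2 * βy * t * t')))
    (D * (s' * t' * (βx * s' ^ 2 + B * (s' * t') + βy * t' ^ 2))) a0 b0 c0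
    (by intro ε; rw [← h ε]; ring)
  have f0 := (mul_eq_zero.1 e0).resolve_left hD
  have f1 := (mul_eq_zero.1 e1).resolve_left hD
  by_cases hs : s = 0
  · exfalso
    subst hs
    have ht : t ≠ 0 := by rintro rfl; simp at hst
    have hs' : s' ≠ 0 := by rintro rfl; simp at hst
    have : s' * t * (βy * t ^ 2) = 0 := by linear_combination f1
    simp [hs', ht, hy] at this
  by_cases ht : t = 0
  · exfalso
    subst ht
    have ht' : t' ≠ 0 := by rintro rfl; simp at hst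
    have : s * t' * (βx * s ^ 2) = 0 := by linear_combination f1
    simp [hs, ht', hx] at this
  have hst0 : s * t ≠ 0 := mul_ne_zero hs ht
  have g0 := (mul_eq_zero.1 f0).resolve_left hst0
  rw [g0, mul_zero, add_zero] at f1
  have g1 := (mul_eq_zero.1 f1).resolve_left hst0
  have k1 : 2 * βx * s + B * t = 0 := by
    have : (s * t' - t * s') * (2 * βx * s + B * t) = 0 := by
      linear_combination 2 * t' * g0 - t * g1
    exact (mul_eq_zero.1 this).resolve_left hst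
  have k2 : B * s + 2 * βy * t = 0 := by
    have : (s * t' - t * s') * (B * s + 2 * βy * t) = 0 := by
      linear_combination s * g1 - 2 * s' * g0
    exact (mul_eq_zero.1 this).resolve_left hst
  have : s * t * (B ^ 2 - 4 * βx * βy) = 0 := by
    linear_combination -(2 * βy * t) * k1 + (B * t) * k2
  have := (mul_eq_zero.1 this).resolve_left hst0
  linear_combination this

/-- The six minors. -/
lemma CON1_six (A b1 c d e f : ℂ)
    (hne : ∃ z, A + b1 * z + (c + d) * z ^ 2 + e * z ^ 3 + f * z ^ 4 ≠ 0)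
    (h : ∀ x y : ℂ, x ≠ y → A + b1 * x + (c + d) * x ^ 2 + e * x ^ 3 + f * x ^ 4 ≠ 0 →
      A + b1 * y + (c + d) * y ^ 2 + e * y ^ 3 + f * y ^ 4 ≠ 0 →
      (2 * A + b1 * (x + y) + c * (x ^ 2 + y ^ 2) + 2 * d * (x * y) + e * (x * y * (x + y)) +
        2 * f * (x ^ 2 * y ^ 2)) ^ 2 =
      4 * (A + b1 * x + (c + d) * x ^ 2 + e * x ^ 3 + f * x ^ 4) *
        (A + b1 * y + (c + d) * y ^ 2 + e * y ^ 3 + f * y ^ 4)) :
    b1 ^ 2 = 4 * A * d ∧ c ^ 2 = 4 * A * f ∧ e ^ 2 = 4 * d * f ∧ b1 * c = 2 * A * e ∧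
      c * e = 2 * f * b1 ∧ b1 * e = 2 * c * d := by
  set S : Set ℂ := {z | A + b1 * z + (c + d) * z ^ 2 + e * z ^ 3 + f * z ^ 4 = 0} with hSd
  have hS : S.Finite := by
    by_contra hinf
    obtain ⟨z, hz⟩ := hne
    obtain ⟨h0, h1, h2, h3, h4⟩ := CON1_polyinf _ _ _ _ _ hinf
    rw [h0, h1, h2, h3, h4] at hz
    simp at hz
  have key : ∀ y, y ∉ S →
      (2 * A + b1 * y + c * y ^ 2) ^ 2 -
        4 * A * (A + b1 * y + (c + d) * y ^ 2 + e * y ^ 3 + f * y ^ 4) = 0 ∧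
      (b1 + 2 * d * y + e * y ^ 2) ^ 2 +
        2 * (2 * A + b1 * y + c * y ^ 2) * (c + e * y + 2 * f * y ^ 2) -
        4 * (c + d) * (A + b1 * y + (c + d) * y ^ 2 + e * y ^ 3 + f * y ^ 4) = 0 ∧
      (c + e * y + 2 * f * y ^ 2) ^ 2 -
        4 * f * (A + b1 * y + (c + d) * y ^ 2 + e * y ^ 3 + f * y ^ 4) = 0 := by
    intro y hy
    obtain ⟨h0, -, h2, -, h4⟩ := CON1_poly4
      ((2 * A + b1 * y + c * y ^ 2) ^ 2 -
        4 * A * (A + b1 * y + (c + d) * y ^ 2 + e * y ^ 3 + f * y ^ 4))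
      (2 * (2 * A + b1 * y + c * y ^ 2) * (b1 + 2 * d * y + e * y ^ 2) -
        4 * b1 * (A + b1 * y + (c + d) * y ^ 2 + e * y ^ 3 + f * y ^ 4))
      ((b1 + 2 * d * y + e * y ^ 2) ^ 2 +
        2 * (2 * A + b1 * y + c * y ^ 2) * (c + e * y + 2 * f * y ^ 2) -
        4 * (c + d) * (A + b1 * y + (c + d) * y ^ 2 + e * y ^ 3 + f * y ^ 4))
      (2 * (b1 + 2 * d * y + e * y ^ 2) * (c + e * y + 2 * f * y ^ 2) -
        4 * e * (A + b1 * y + (c + d) * y ^ 2 + e * y ^ 3 + f * y ^ 4))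
      ((c + e * y + 2 * f * y ^ 2) ^ 2 -
        4 * f * (A + b1 * y + (c + d) * y ^ 2 + e * y ^ 3 + f * y ^ 4))
      (insert y S) (hS.insert y) (by
        intro x hx
        rw [Set.mem_insert_iff, not_or] at hx
        have := h x y hx.1 hx.2 hy
        linear_combination this)
    exact ⟨h0, h2, h4⟩
  obtain ⟨-, -, p2, p3, p4⟩ := CON1_poly4 0 0 (b1 ^ 2 + 4 * A * c - 4 * A * (c + d))
    (2 * b1 * c - 4 * A * e) (c ^ 2 - 4 * A * f) S hS (by
      intro y hy
      linear_combination (key y hy).1)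
  obtain ⟨-, q1, q2, -, -⟩ := CON1_poly4 (c ^ 2 - 4 * A * f) (2 * c * e - 4 * f * b1)
    (e ^ 2 + 4 * c * f - 4 * f * (c + d)) 0 0 S hS (by
      intro y hy
      linear_combination (key y hy).2.2)
  obtain ⟨-, -, r2, -, -⟩ := CON1_poly4
    (b1 ^ 2 + 4 * A * c - 4 * (c + d) * A)
    (4 * b1 * d + 2 * (2 * A * e + b1 * c) - 4 * (c + d) * b1)
    (4 * d ^ 2 + 2 * b1 * e + 2 * (4 * A * f + b1 * e + c ^ 2) - 4 * (c + d) ^ 2)
    (4 * d * e + 2 * (2 * b1 * f + c * e) - 4 * (c + d) * e)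
    (e ^ 2 + 4 * c * f - 4 * (c + d) * f) S hS (by
      intro y hy
      linear_combination (key y hy).2.1)
  refine ⟨?_, ?_, ?_, ?_, ?_, ?_⟩
  · linear_combination p2
  · linear_combination p4
  · linear_combination q2
  · linear_combination p3 / 2
  · linear_combination q1 / 2
  · linear_combination r2 / 4 + p4 / 2

/-- The polar form in coordinates. -/
lemma CON1_polb (b : (Fin 3 → ℂ) →ₗ[ℂ] Matrix (Fin 2) (Fin 2) ℂ) (w v : Fin 3 → ℂ) :
    CON1_pol (b w) (b v) =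
      2 * (b ![1, 0, 0]).det * (w 0 * v 0) +
      CON1_pol (b ![1, 0, 0]) (b ![0, 1, 0]) * (w 0 * v 1 + w 1 * v 0) +
      CON1_pol (b ![1, 0, 0]) (b ![0, 0, 1]) * (w 0 * v 2 + w 2 * v 0) +
      2 * (b ![0, 1, 0]).det * (w 1 * v 1) +
      CON1_pol (b ![0, 1, 0]) (b ![0, 0, 1]) * (w 1 * v 2 + w 2 * v 1) +
      2 * (b ![0, 0, 1]).det * (w 2 * v 2) := by
  simp only [CON1_pol, CON1_ent b w, CON1_ent b v, Matrix.det_fin_two]
  ring

/-- The determinant in coordinates. -/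
lemma CON1_detb (b : (Fin 3 → ℂ) →ₗ[ℂ] Matrix (Fin 2) (Fin 2) ℂ) (w : Fin 3 → ℂ) :
    (b w).det =
      (b ![1, 0, 0]).det * w 0 ^ 2 +
      CON1_pol (b ![1, 0, 0]) (b ![0, 1, 0]) * (w 0 * w 1) +
      CON1_pol (b ![1, 0, 0]) (b ![0, 0, 1]) * (w 0 * w 2) +
      (b ![0, 1, 0]).det * w 1 ^ 2 +
      CON1_pol (b ![0, 1, 0]) (b ![0, 0, 1]) * (w 1 * w 2) +
      (b ![0, 0, 1]).det * w 2 ^ 2 := by
  simp only [CON1_pol, CON1_ent b w, Matrix.det_fin_two]
  ring

/-- The determinant has rank at least two on the image of `b`. -/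
lemma CON1_rk (b : (Fin 3 → ℂ) →ₗ[ℂ] Matrix (Fin 2) (Fin 2) ℂ) (hb : Function.Injective b)
    (A b1 c d e f : ℂ) (hA : (b ![1, 0, 0]).det = A)
    (hb1 : CON1_pol (b ![1, 0, 0]) (b ![0, 1, 0]) = b1)
    (hc : CON1_pol (b ![1, 0, 0]) (b ![0, 0, 1]) = c) (hd : (b ![0, 1, 0]).det = d)
    (he : CON1_pol (b ![0, 1, 0]) (b ![0, 0, 1]) = e) (hf : (b ![0, 0, 1]).det = f)
    (r1 : b1 ^ 2 = 4 * A * d) (r2 : c ^ 2 = 4 * A * f) (r3 : e ^ 2 = 4 * d * f)
    (r4 : b1 * c = 2 * A * e) (r5 : c * e = 2 * f * b1) (r6 : b1 * e = 2 * c * d) : False := by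
  have ker : ∀ w : Fin 3 → ℂ, 2 * A * w 0 + b1 * w 1 + c * w 2 = 0 →
      b1 * w 0 + 2 * d * w 1 + e * w 2 = 0 → c * w 0 + e * w 1 + 2 * f * w 2 = 0 →
      ∀ v, CON1_pol (b w) (b v) = 0 := by
    intro w k0 k1 k2 v
    rw [CON1_polb, hA, hb1, hc, hd, he, hf]
    linear_combination v 0 * k0 + v 1 * k1 + v 2 * k2
  have li : ∀ w w' : Fin 3 → ℂ, (∀ s t : ℂ, s • w + t • w' = 0 → s = 0 ∧ t = 0) →
      LinearIndependent ℂ ![w, w'] := fun w w' h => LinearIndependent.pair_iff.2 h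
  by_cases h0 : A = 0
  · by_cases h1 : d = 0
    · by_cases h2 : f = 0
      · subst h0 h1 h2
        have hb0 : b1 = 0 := by simpa using r1
        have hc0 : c = 0 := by simpa using r2
        have he0 : e = 0 := by simpa using r3
        subst hb0 hc0 he0
        refine CON1_rad b hb ![1, 0, 0] ![0, 1, 0] (li _ _ ?_) (ker _ ?_ ?_ ?_) (ker _ ?_ ?_ ?_)
        · intro s t h
          have e0 := congrFun h 0
          have e1 := congrFun h 1
          simp at e0 e1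
          exact ⟨e0, e1⟩
        all_goals simp
      · refine CON1_rad b hb ![2 * f, 0, -c] ![0, 2 * f, -e] (li _ _ ?_) (ker _ ?_ ?_ ?_)
          (ker _ ?_ ?_ ?_)
        · intro s t h
          have e0 := congrFun h 0
          have e1 := congrFun h 1
          simp [h2] at e0 e1
          exact ⟨e0, e1⟩
        all_goals simp
        · linear_combination -r2
        · linear_combination -r5
        · ring
        · linear_combination -r5
        · linear_combination -r3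
        · ring
    · refine CON1_rad b hb ![2 * d, -b1, 0] ![0, -e, 2 * d] (li _ _ ?_) (ker _ ?_ ?_ ?_)
          (ker _ ?_ ?_ ?_)
      · intro s t h
        have e0 := congrFun h 0
        have e1 := congrFun h 2
        simp [h1] at e0 e1
        exact ⟨e0, e1⟩
      all_goals simp
      · linear_combination -r1
      · ring
      · linear_combination -r6
      · linear_combination -r6
      · ring
      · linear_combination -r3
  · refine CON1_rad b hb ![-b1, 2 * A, 0] ![-c, 0, 2 * A] (li _ _ ?_) (ker _ ?_ ?_ ?_)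
          (ker _ ?_ ?_ ?_)
    · intro s t h
      have e0 := congrFun h 1
      have e1 := congrFun h 2
      simp [h0] at e0 e1
      exact ⟨e0, e1⟩
    all_goals simp
    · ring
    · linear_combination -r1
    · linear_combination -r4
    · ring
    · linear_combination -r4
    · linear_combination -r2

/-- A vector parallel to a nonzero one. -/
lemma CON1_par (r x : Fin 2 → ℂ) (hr : r 0 ≠ 0 ∨ r 1 ≠ 0) (h : r 0 * x 1 - r 1 * x 0 = 0) :
    ∃ μ : ℂ, x 0 = μ * r 0 ∧ x 1 = μ * r 1 := by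
  rcases hr with h0 | h1
  · refine ⟨x 0 / r 0, ?_, ?_⟩
    · field_simp
    · field_simp; linear_combination h
  · refine ⟨x 1 / r 1, ?_, ?_⟩
    · field_simp; linear_combination -h
    · field_simp

theorem p_CON1 : P_CON1 := by
  classical
  intro a b E hab ha
  obtain ⟨-, hb, H⟩ := hab
  obtain ⟨A, hA⟩ : ∃ A, (b ![1, 0, 0]).det = A := ⟨_, rfl⟩
  obtain ⟨b1, hb1⟩ : ∃ b1, CON1_pol (b ![1, 0, 0]) (b ![0, 1, 0]) = b1 := ⟨_, rfl⟩
  obtain ⟨c, hc⟩ : ∃ c, CON1_pol (b ![1, 0, 0]) (b ![0, 0, 1]) = c := ⟨_, rfl⟩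
  obtain ⟨d, hd⟩ : ∃ d, (b ![0, 1, 0]).det = d := ⟨_, rfl⟩
  obtain ⟨e, he⟩ : ∃ e, CON1_pol (b ![0, 1, 0]) (b ![0, 0, 1]) = e := ⟨_, rfl⟩
  obtain ⟨f, hf⟩ : ∃ f, (b ![0, 0, 1]).det = f := ⟨_, rfl⟩
  have hdet : ∀ w : Fin 3 → ℂ, (b w).det = A * w 0 ^ 2 + b1 * (w 0 * w 1) + c * (w 0 * w 2) +
      d * w 1 ^ 2 + e * (w 1 * w 2) + f * w 2 ^ 2 := by
    intro w
    rw [CON1_detb, hA, hb1, hc, hd, he, hf]
  -- part A
  have hzero : ∀ z, A + b1 * z + (c + d) * z ^ 2 + e * z ^ 3 + f * z ^ 4 = 0 := by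
    by_contra hne
    push Not at hne
    obtain ⟨r1, r2, r3, r4, r5, r6⟩ := CON1_six A b1 c d e f hne (by
      intro x y hxy hx hy
      obtain ⟨s, t, s', t', hst, a0, b0, c0, h⟩ := H ![1, x, x ^ 2] ![1, y, y ^ 2] (CON1_li x y hxy)
      apply CON1_disc _ _ _ ((x - y) ^ 2) hx hy (pow_ne_zero 2 (sub_ne_zero.2 hxy))
      refine ⟨s, t, s', t', hst, a0, b0, c0, ?_⟩
      intro ε
      rw [← h ε, hdet, ha]
      simp [Matrix.det_fin_two]
      ring)
    exact CON1_rk b hb A b1 c d e f hA hb1 hc hd he hf r1 r2 r3 r4 r5 r6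
  obtain ⟨A0, b10, cd0, e0, f0⟩ := CON1_poly4 _ _ _ _ _ ∅ Set.finite_empty (fun x _ => hzero x)
  -- part B
  have hcne : c ≠ 0 := by
    intro hc0
    have hd0 : d = 0 := by rw [hc0] at cd0; simpa using cd0
    apply CON1_rk b hb A b1 c d e f hA hb1 hc hd he hf <;> simp [A0, b10, hc0, hd0, e0, f0]
  obtain ⟨r, s, hrs⟩ := CON1_rk1 _ (hA.trans A0)
  obtain ⟨r', s', hrs'⟩ := CON1_rk1 _ (hf.trans f0)
  set ρ : ℂ := r 0 * r' 1 - r 1 * r' 0 with hρ
  set σ : ℂ := s 0 * s' 1 - s 1 * s' 0 with hσ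
  have hcρσ : c = ρ * σ := by
    rw [← hc, CON1_pol, hrs, hrs, hrs, hrs, hrs', hrs', hrs', hrs', hρ, hσ]
    ring
  have hρ0 : ρ ≠ 0 := by rintro h; apply hcne; rw [hcρσ, h, zero_mul]
  have hσ0 : σ ≠ 0 := by rintro h; apply hcne; rw [hcρσ, h, mul_zero]
  have hr0 : r 0 ≠ 0 ∨ r 1 ≠ 0 := by
    by_contra h
    push Not at h
    apply hρ0
    rw [hρ, h.1, h.2]; ring
  have hr'0 : r' 0 ≠ 0 ∨ r' 1 ≠ 0 := by
    by_contra h
    push Not at h
    apply hρ0
    rw [hρ, h.1, h.2]; ring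
  set Q := b ![0, 1, 0] with hQ
  have hb1' : r 0 * (Q 1 0 * (-s 1) + Q 1 1 * s 0) - r 1 * (Q 0 0 * (-s 1) + Q 0 1 * s 0) = 0 := by
    have := hb1
    rw [CON1_pol, hrs, hrs, hrs, hrs, b10] at this
    linear_combination this
  have he' : r' 0 * (Q 1 0 * (-s' 1) + Q 1 1 * s' 0) -
      r' 1 * (Q 0 0 * (-s' 1) + Q 0 1 * s' 0) = 0 := by
    have := he
    rw [CON1_pol, hrs', hrs', hrs', hrs', e0] at this
    linear_combination this
  obtain ⟨la, hla0, hla1⟩ := CON1_par r ![Q 0 0 * (-s 1) + Q 0 1 * s 0,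
    Q 1 0 * (-s 1) + Q 1 1 * s 0] hr0 (by simpa using hb1')
  obtain ⟨mu, hmu0, hmu1⟩ := CON1_par r' ![Q 0 0 * (-s' 1) + Q 0 1 * s' 0,
    Q 1 0 * (-s' 1) + Q 1 1 * s' 0] hr'0 (by simpa using he')
  simp only [Matrix.cons_val_zero, Matrix.cons_val_one] at hla0 hla1 hmu0 hmu1
  have hdd : Q 0 0 * Q 1 1 - Q 0 1 * Q 1 0 = -(ρ * σ) := by
    have : Q.det = d := hd
    rw [Matrix.det_fin_two] at this
    rw [this, ← hcρσ]
    linear_combination cd0
  have hlm : la * mu = -σ ^ 2 := by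
    have h1 : (la * r 0) * (mu * r' 1) - (la * r 1) * (mu * r' 0) =
        (Q 0 0 * Q 1 1 - Q 0 1 * Q 1 0) * σ := by
      rw [← hla0, ← hla1, ← hmu0, ← hmu1, hσ]; ring
    rw [hdd] at h1
    have h2 : ρ * (la * mu + σ ^ 2) = 0 := by
      rw [hρ] at h1 ⊢
      linear_combination h1
    have h3 := (mul_eq_zero.1 h2).resolve_left hρ0
    linear_combination h3
  have hla : la ≠ 0 := by
    rintro h
    rw [h, zero_mul] at hlm
    have : σ ^ 2 = 0 := by linear_combination hlm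
    exact hσ0 (pow_eq_zero_iff (two_ne_zero) |>.1 this)
  -- the point at infinity
  set R := E ![0, 0, 1] with hR
  by_cases hinf : R 0 0 * (-s' 1) + R 0 1 * s' 0 = 0
  · refine ⟨![0, 0, 1], ![1, 0], ![-s' 1, s' 0], ?_, ?_, ?_, ?_, ?_, ?_⟩
    · intro h
      have := congrFun h 2
      simp at this
    · intro h
      have := congrFun h 0
      simp at this
    · intro h
      have h0 := congrFun h 0
      have h1 := congrFun h 1
      simp at h0 h1
      apply hσ0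
      rw [hσ, h0, h1]; ring
    · rw [ha]
      ext j
      fin_cases j <;> simp [Matrix.vecMul, dotProduct, Fin.sum_univ_two]
    · ext j
      simp only [Matrix.mulVec, dotProduct, Fin.sum_univ_two]
      rw [hrs', hrs']
      simp
      ring
    · simp only [Matrix.mulVec, dotProduct, Fin.sum_univ_two]
      simp
      linear_combination hinf
  · -- a root of the quartic
    obtain ⟨z, hz⟩ := CON1_root
      (E ![1, 0, 0] 1 0 * (σ * (-s 1)) + E ![1, 0, 0] 1 1 * (σ * s 0))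
      ((E ![1, 0, 0] 1 0 * (la * (-s' 1)) + E ![0, 1, 0] 1 0 * (σ * (-s 1)) +
        E ![1, 0, 0] 1 1 * (la * s' 0) + E ![0, 1, 0] 1 1 * (σ * s 0)) -
        (E ![1, 0, 0] 0 0 * (σ * (-s 1)) + E ![1, 0, 0] 0 1 * (σ * s 0)))
      ((E ![0, 1, 0] 1 0 * (la * (-s' 1)) + R 1 0 * (σ * (-s 1)) +
        E ![0, 1, 0] 1 1 * (la * s' 0) + R 1 1 * (σ * s 0)) -
        (E ![1, 0, 0] 0 0 * (la * (-s' 1)) + E ![0, 1, 0] 0 0 * (σ * (-s 1)) +
        E ![1, 0, 0] 0 1 * (la * s' 0) + E ![0, 1, 0] 0 1 * (σ * s 0)))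
      ((R 1 0 * (la * (-s' 1)) + R 1 1 * (la * s' 0)) -
        (E ![0, 1, 0] 0 0 * (la * (-s' 1)) + R 0 0 * (σ * (-s 1)) +
        E ![0, 1, 0] 0 1 * (la * s' 0) + R 0 1 * (σ * s 0)))
      (-(R 0 0 * (la * (-s' 1)) + R 0 1 * (la * s' 0))) (by
        intro h
        apply hinf
        have : la * (R 0 0 * (-s' 1) + R 0 1 * s' 0) = 0 := by linear_combination -h
        exact (mul_eq_zero.1 this).resolve_left hla)
    refine ⟨![1, z, z ^ 2], ![-z, 1], ![σ * (-s 1) + z * (la * (-s' 1)),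
      σ * s 0 + z * (la * s' 0)], ?_, ?_, ?_, ?_, ?_, ?_⟩
    · intro h
      have := congrFun h 0
      simp at this
    · intro h
      have := congrFun h 1
      simp at this
    · intro h
      have h0 := congrFun h 0
      have h1 := congrFun h 1
      simp only [Matrix.cons_val_zero, Matrix.cons_val_one, Pi.zero_apply] at h0 h1
      have : σ ^ 2 = 0 := by
        have e2 : σ ^ 2 = (σ * (-s 1) + z * (la * (-s' 1))) * s' 0 +
            (σ * s 0 + z * (la * s' 0)) * s' 1 := by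
          rw [hσ]; ring
        rw [e2, h0, h1]; ring
      exact hσ0 (pow_eq_zero_iff (two_ne_zero) |>.1 this)
    · rw [ha]
      ext j
      fin_cases j <;> simp [Matrix.vecMul, dotProduct, Fin.sum_univ_two]
      ring
    · have hbz : ∀ i j, b ![1, z, z ^ 2] i j =
          b ![1, 0, 0] i j + z * Q i j + z ^ 2 * b ![0, 0, 1] i j := by
        intro i j
        rw [CON1_ent b]
        simp [hQ]
      ext i
      simp only [Matrix.mulVec, dotProduct, Fin.sum_univ_two]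
      rw [hbz, hbz, hrs, hrs, hrs', hrs']
      simp
      fin_cases i
      · simp
        rw [hσ] at hlm ⊢
        linear_combination z * σ * hla0 + z ^ 2 * la * hmu0 + z ^ 2 * r' 0 * hlm
      · simp
        rw [hσ] at hlm ⊢
        linear_combination z * σ * hla1 + z ^ 2 * la * hmu1 + z ^ 2 * r' 1 * hlm
    · have hEz : ∀ i j, E ![1, z, z ^ 2] i j =
          E ![1, 0, 0] i j + z * E ![0, 1, 0] i j + z ^ 2 * R i j := by
        intro i j
        rw [CON1_ent E]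
        simp [hR]
      simp only [Matrix.mulVec, dotProduct, Fin.sum_univ_two]
      rw [hEz, hEz, hEz, hEz]
      simp
      linear_combination hz

end Pool.Agent.MR8
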