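import Pool.Agent.MR8.Defs

set_option autoImplicit false

/-!
# The hook case of the two matrices of linear forms
-/

namespace Pool.Agent.MR8

open Matrix

lemma CON2_lin (b : (Fin 3 → ℂ) →ₗ[ℂ] Matrix (Fin 2) (Fin 2) ℂ) :
    ∃ B : Fin 3 → Matrix (Fin 2) (Fin 2) ℂ, ∀ w i j,
      b w i j = w 0 * B 0 i j + w 1 * B 1 i j + w 2 * B 2 i j := by
  refine ⟨fun i => b (fun j => if i = j then 1 else 0), fun w i j => ?_⟩
  rw [LinearMap.pi_apply_eq_sum_univ b w]
  simp [Fin.sum_univ_three, Matrix.add_apply, Matrix.smul_apply]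

/-- Binary linear form. -/
lemma CON2_z1 (c0 c1 : ℂ) : ∃ x y : ℂ, (x ≠ 0 ∨ y ≠ 0) ∧ c0 * x + c1 * y = 0 := by
  by_cases h : c1 = 0
  · exact ⟨0, 1, Or.inr one_ne_zero, by simp [h]⟩
  · exact ⟨c1, -c0, Or.inl h, by ring⟩

/-- Binary quadratic form. -/
lemma CON2_z2 (c0 c1 c2 : ℂ) :
    ∃ x y : ℂ, (x ≠ 0 ∨ y ≠ 0) ∧ c0 * x ^ 2 + c1 * x * y + c2 * y ^ 2 = 0 := by
  by_cases h : c2 = 0
  · exact ⟨0, 1, Or.inr one_ne_zero, by simp [h]⟩
  · have hd : (Polynomial.C c2 * Polynomial.X ^ 2 + Polynomial.C c1 * Polynomial.X +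
        Polynomial.C c0 : Polynomial ℂ).degree = 2 := Polynomial.degree_quadratic h
    obtain ⟨y, hy⟩ := IsAlgClosed.exists_root _ (by rw [hd]; decide)
    refine ⟨1, y, Or.inl one_ne_zero, ?_⟩
    simp only [Polynomial.IsRoot.def, Polynomial.eval_add, Polynomial.eval_mul,
      Polynomial.eval_C, Polynomial.eval_pow, Polynomial.eval_X] at hy
    linear_combination hy

/-- Binary cubic form. -/
lemma CON2_z3 (c0 c1 c2 c3 : ℂ) :
    ∃ x y : ℂ, (x ≠ 0 ∨ y ≠ 0) ∧
      c0 * x ^ 3 + c1 * x ^ 2 * y + c2 * x * y ^ 2 + c3 * y ^ 3 = 0 := by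
  by_cases h : c3 = 0
  · exact ⟨0, 1, Or.inr one_ne_zero, by simp [h]⟩
  · have hd : (Polynomial.C c3 * Polynomial.X ^ 3 + Polynomial.C c2 * Polynomial.X ^ 2 +
        Polynomial.C c1 * Polynomial.X + Polynomial.C c0 : Polynomial ℂ).degree = 3 :=
      Polynomial.degree_cubic h
    obtain ⟨y, hy⟩ := IsAlgClosed.exists_root _ (by rw [hd]; decide)
    refine ⟨1, y, Or.inl one_ne_zero, ?_⟩
    simp only [Polynomial.IsRoot.def, Polynomial.eval_add, Polynomial.eval_mul,
      Polynomial.eval_C, Polynomial.eval_pow, Polynomial.eval_X] at hy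
    linear_combination hy

/-- A nonzero singular matrix of size two. -/
lemma CON2_rk (M : Matrix (Fin 2) (Fin 2) ℂ) (hM : M ≠ 0) (hd : M.det = 0) :
    ∃ ρ κ : Fin 2 → ℂ, ρ ≠ 0 ∧ κ ≠ 0 ∧ ∀ i j, M i j = ρ i * κ j := by
  rw [Matrix.det_fin_two] at hd
  by_cases h0 : M 0 0 = 0
  · by_cases h1 : M 0 1 = 0
    · refine ⟨![0, 1], M 1, ?_, ?_, ?_⟩
      · intro h
        have := congrFun h 1
        simp at this
      · intro h
        apply hM
        ext i j
        fin_cases i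
        · fin_cases j
          · simpa using h0
          · simpa using h1
        · have := congrFun h j
          simpa using this
      · intro i j
        fin_cases i
        · fin_cases j
          · simpa using h0
          · simpa using h1
        · simp
    · refine ⟨![1, M 1 1 / M 0 1], M 0, ?_, ?_, ?_⟩
      · intro h
        have := congrFun h 0
        simp at this
      · intro h
        exact h1 (by simpa using congrFun h 1)
      · intro i j
        fin_cases i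
        · simp
        · fin_cases j
          · have h2 : M 0 1 * M 1 0 = 0 := by
              rw [h0] at hd
              linear_combination -hd
            have h3 : M 1 0 = 0 := by
              rcases mul_eq_zero.mp h2 with h | h
              · exact absurd h h1
              · exact h
            simp [h0, h3]
          · simp only [Fin.mk_one, Fin.isValue, Matrix.cons_val_one, Matrix.cons_val_fin_one]
            field_simp
  · refine ⟨![1, M 1 0 / M 0 0], M 0, ?_, ?_, ?_⟩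
    · intro h
      have := congrFun h 0
      simp at this
    · intro h
      exact h0 (by simpa using congrFun h 0)
    · intro i j
      fin_cases i
      · simp
      · fin_cases j
        · simp only [Fin.mk_one, Fin.isValue, Matrix.cons_val_one, Matrix.cons_val_fin_one,
            Fin.zero_eta]
          field_simp
        · simp only [Fin.mk_one, Fin.isValue, Matrix.cons_val_one, Matrix.cons_val_fin_one]
          field_simp
          linear_combination hd

/-- Two-dimensional spaces of singular matrices of size two. -/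
lemma CON2_dich (B B' : Matrix (Fin 2) (Fin 2) ℂ)
    (hi : ∀ x y : ℂ, x • B + y • B' = 0 → x = 0 ∧ y = 0)
    (hd : ∀ x y : ℂ, (x • B + y • B').det = 0) :
    (∃ v : Fin 2 → ℂ, v ≠ 0 ∧ ∀ i, B i 0 * v 0 + B i 1 * v 1 = 0 ∧
      B' i 0 * v 0 + B' i 1 * v 1 = 0) ∨
    ∃ v v' : Fin 2 → ℂ, (∀ x y : ℂ, x • v + y • v' = 0 → x = 0 ∧ y = 0) ∧
      ∀ (i : Fin 2) (x y : ℂ), (x * B i 0 + y * B' i 0) * (x * v 0 + y * v' 0) +
        (x * B i 1 + y * B' i 1) * (x * v 1 + y * v' 1) = 0 := by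
  have hB : B ≠ 0 := by
    intro h
    have := (hi 1 0 (by simp [h])).1
    exact one_ne_zero this
  have hB' : B' ≠ 0 := by
    intro h
    have := (hi 0 1 (by simp [h])).2
    exact one_ne_zero this
  obtain ⟨ρ, κ, hρ, hκ, h1⟩ := CON2_rk B hB (by simpa using hd 1 0)
  obtain ⟨σ, μ, hσ, hμ, h2⟩ := CON2_rk B' hB' (by simpa using hd 0 1)
  have h3 : (ρ 0 * σ 1 - ρ 1 * σ 0) * (κ 0 * μ 1 - κ 1 * μ 0) = 0 := by
    have := hd 1 1
    rw [Matrix.det_fin_two] at this
    simp only [one_smul, Matrix.add_apply, h1, h2] at this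
    linear_combination this
  rcases mul_eq_zero.mp h3 with h | h
  · right
    obtain ⟨t, ht⟩ : ∃ t : ℂ, ∀ i, σ i = t * ρ i := by
      by_cases h0 : ρ 0 = 0
      · have h4 : ρ 1 ≠ 0 := by
          intro h5
          apply hρ
          ext i
          fin_cases i
          · simpa using h0
          · simpa using h5
        have h6 : σ 0 = 0 := by
          have : ρ 1 * σ 0 = 0 := by
            rw [h0] at h
            linear_combination -h
          rcases mul_eq_zero.mp this with h7 | h7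
          · exact absurd h7 h4
          · exact h7
        refine ⟨σ 1 / ρ 1, fun i => ?_⟩
        fin_cases i
        · simp [h6, h0]
        · simp only [Fin.mk_one, Fin.isValue]
          field_simp
      · refine ⟨σ 0 / ρ 0, fun i => ?_⟩
        fin_cases i
        · simp only [Fin.zero_eta, Fin.isValue]
          field_simp
        · simp only [Fin.mk_one, Fin.isValue]
          field_simp
          linear_combination h
    refine ⟨![-κ 1, κ 0], ![-(t * μ 1), t * μ 0], ?_, ?_⟩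
    · intro x y hxy
      have e0 := congrFun hxy 0
      have e1 := congrFun hxy 1
      simp only [Pi.add_apply, Pi.smul_apply, smul_eq_mul, Matrix.cons_val_zero,
        Matrix.cons_val_one, Matrix.cons_val_fin_one, Pi.zero_apply] at e0 e1
      apply hi
      ext i j
      simp only [Matrix.add_apply, Matrix.smul_apply, smul_eq_mul, h1, h2, ht,
        Matrix.zero_apply]
      fin_cases j
      · simp only [Fin.zero_eta, Fin.isValue]
        linear_combination ρ i * e1
      · simp only [Fin.mk_one, Fin.isValue]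
        linear_combination -ρ i * e0
    · intro i x y
      simp only [h1, h2, ht, Matrix.cons_val_zero, Matrix.cons_val_one, Matrix.cons_val_fin_one]
      ring
  · left
    refine ⟨![-κ 1, κ 0], ?_, ?_⟩
    · intro h4
      apply hκ
      have e0 := congrFun h4 0
      have e1 := congrFun h4 1
      simp only [Matrix.cons_val_zero, Matrix.cons_val_one, Matrix.cons_val_fin_one,
        Pi.zero_apply, neg_eq_zero] at e0 e1
      ext i
      fin_cases i
      · simpa using e1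
      · simpa using e0
    · intro i
      simp only [h1, h2, Matrix.cons_val_zero, Matrix.cons_val_one, Matrix.cons_val_fin_one]
      constructor
      · ring
      · linear_combination σ i * h

lemma CON2_fin (a b E : (Fin 3 → ℂ) →ₗ[ℂ] Matrix (Fin 2) (Fin 2) ℂ)
    (w : Fin 3 → ℂ) (u v : Fin 2 → ℂ) (hw : w ≠ 0) (hu : u ≠ 0) (hv : v ≠ 0)
    (h1 : ∀ j, u 0 * a w 0 j + u 1 * a w 1 j = 0)
    (h2 : ∀ i, b w i 0 * v 0 + b w i 1 * v 1 = 0)
    (h3 : u 0 * (E w 0 0 * v 0 + E w 0 1 * v 1) + u 1 * (E w 1 0 * v 0 + E w 1 1 * v 1) = 0) :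
    CONc a b E := by
  refine ⟨w, u, v, hw, hu, hv, ?_, ?_, ?_⟩
  · ext j
    simpa [Matrix.vecMul, dotProduct, Fin.sum_univ_two] using h1 j
  · ext i
    simpa [Matrix.mulVec, dotProduct, Fin.sum_univ_two] using h2 i
  · simpa [Matrix.mulVec, dotProduct, Fin.sum_univ_two] using h3

/-- The determinant of `b` vanishes on `w 1 = 0`. -/
lemma CON2_B1 (a b E : (Fin 3 → ℂ) →ₗ[ℂ] Matrix (Fin 2) (Fin 2) ℂ)
    (ha : ∀ w, a w = !![w 0, w 1; w 2, 0]) (hb : Function.Injective b)
    (hq : ∀ x y : ℂ, (b ![x, 0, y]).det = 0) : CONc a b E := by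
  obtain ⟨B, hB⟩ := CON2_lin b
  obtain ⟨F, hF⟩ := CON2_lin E
  have hE : ∀ x y : ℂ, x • B 0 + y • B 2 = b ![x, 0, y] := by
    intro x y
    ext i j
    simp [hB, Matrix.add_apply, Matrix.smul_apply]
  have hw0 : ∀ x y : ℂ, (x ≠ 0 ∨ y ≠ 0) → (![x, 0, y] : Fin 3 → ℂ) ≠ 0 := by
    intro x y hxy h
    have e0 := congrFun h 0
    have e2 := congrFun h 2
    simp only [Matrix.cons_val_zero, Matrix.cons_val, Pi.zero_apply] at e0 e2
    rcases hxy with h | h
    · exact h e0
    · exact h e2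
  have hu0 : ∀ x y : ℂ, (x ≠ 0 ∨ y ≠ 0) → (![-y, x] : Fin 2 → ℂ) ≠ 0 := by
    intro x y hxy h
    have e0 := congrFun h 0
    have e1 := congrFun h 1
    simp only [Matrix.cons_val_zero, Matrix.cons_val_one, Matrix.cons_val_fin_one,
      Pi.zero_apply, neg_eq_zero] at e0 e1
    rcases hxy with h | h
    · exact h e1
    · exact h e0
  have hinj : ∀ x y : ℂ, x • B 0 + y • B 2 = 0 → x = 0 ∧ y = 0 := by
    intro x y h
    rw [hE] at h
    have h1 : (![x, 0, y] : Fin 3 → ℂ) = 0 := hb (by rw [h, map_zero])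
    have e0 := congrFun h1 0
    have e2 := congrFun h1 2
    simp only [Matrix.cons_val_zero, Matrix.cons_val, Pi.zero_apply] at e0 e2
    exact ⟨e0, e2⟩
  rcases CON2_dich (B 0) (B 2) hinj (fun x y => by rw [hE]; exact hq x y) with
    ⟨v, hv, h⟩ | ⟨v, v', hv, h⟩
  · obtain ⟨x, y, hxy, hz⟩ := CON2_z2
      (F 0 1 0 * v 0 + F 0 1 1 * v 1)
      (-(F 0 0 0 * v 0 + F 0 0 1 * v 1) + (F 2 1 0 * v 0 + F 2 1 1 * v 1))
      (-(F 2 0 0 * v 0 + F 2 0 1 * v 1))
    refine CON2_fin a b E ![x, 0, y] ![-y, x] v (hw0 x y hxy) (hu0 x y hxy) hv ?_ ?_ ?_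
    · intro j
      fin_cases j
      · simp [ha]
        ring
      · simp [ha]
    · intro i
      obtain ⟨e0, e1⟩ := h i
      simp only [hB, Matrix.cons_val_zero, Matrix.cons_val_one, Matrix.cons_val]
      linear_combination x * e0 + y * e1
    · simp only [hF, Matrix.cons_val_zero, Matrix.cons_val_one, Matrix.cons_val,
        Matrix.cons_val_fin_one]
      linear_combination hz
  · obtain ⟨x, y, hxy, hz⟩ := CON2_z3
      (F 0 1 0 * v 0 + F 0 1 1 * v 1)
      (F 0 1 0 * v' 0 + F 0 1 1 * v' 1 - (F 0 0 0 * v 0 + F 0 0 1 * v 1) +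
        (F 2 1 0 * v 0 + F 2 1 1 * v 1))
      (-(F 0 0 0 * v' 0 + F 0 0 1 * v' 1) + (F 2 1 0 * v' 0 + F 2 1 1 * v' 1) -
        (F 2 0 0 * v 0 + F 2 0 1 * v 1))
      (-(F 2 0 0 * v' 0 + F 2 0 1 * v' 1))
    have hv0 : x • v + y • v' ≠ 0 := by
      intro h0
      obtain ⟨e0, e1⟩ := hv x y h0
      rcases hxy with h | h
      · exact h e0
      · exact h e1
    refine CON2_fin a b E ![x, 0, y] ![-y, x] (x • v + y • v') (hw0 x y hxy) (hu0 x y hxy)
      hv0 ?_ ?_ ?_
    · intro j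
      fin_cases j
      · simp [ha]
        ring
      · simp [ha]
    · intro i
      have := h i x y
      simp only [hB, Matrix.cons_val_zero, Matrix.cons_val_one, Matrix.cons_val,
        Pi.add_apply, Pi.smul_apply, smul_eq_mul]
      linear_combination this
    · simp only [hF, Matrix.cons_val_zero, Matrix.cons_val_one, Matrix.cons_val,
        Matrix.cons_val_fin_one, Pi.add_apply, Pi.smul_apply, smul_eq_mul]
      linear_combination hz

/-- The determinant of `b` vanishes on `w 2 = 0`. -/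
lemma CON2_B2 (a b E : (Fin 3 → ℂ) →ₗ[ℂ] Matrix (Fin 2) (Fin 2) ℂ)
    (ha : ∀ w, a w = !![w 0, w 1; w 2, 0]) (hb : Function.Injective b)
    (hq : ∀ x y : ℂ, (b ![x, y, 0]).det = 0) : CONc a b E := by
  obtain ⟨B, hB⟩ := CON2_lin b
  obtain ⟨F, hF⟩ := CON2_lin E
  have hE : ∀ x y : ℂ, x • B 0 + y • B 1 = b ![x, y, 0] := by
    intro x y
    ext i j
    simp [hB, Matrix.add_apply, Matrix.smul_apply]
  have hw0 : ∀ x y : ℂ, (x ≠ 0 ∨ y ≠ 0) → (![x, y, 0] : Fin 3 → ℂ) ≠ 0 := by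
    intro x y hxy h
    have e0 := congrFun h 0
    have e2 := congrFun h 1
    simp only [Matrix.cons_val_zero, Matrix.cons_val_one, Pi.zero_apply] at e0 e2
    rcases hxy with h | h
    · exact h e0
    · exact h e2
  have hu0 : (![0, 1] : Fin 2 → ℂ) ≠ 0 := by
    intro h
    have e1 := congrFun h 1
    simp at e1
  have hinj : ∀ x y : ℂ, x • B 0 + y • B 1 = 0 → x = 0 ∧ y = 0 := by
    intro x y h
    rw [hE] at h
    have h1 : (![x, y, 0] : Fin 3 → ℂ) = 0 := hb (by rw [h, map_zero])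
    have e0 := congrFun h1 0
    have e2 := congrFun h1 1
    simp only [Matrix.cons_val_zero, Matrix.cons_val_one, Pi.zero_apply] at e0 e2
    exact ⟨e0, e2⟩
  rcases CON2_dich (B 0) (B 1) hinj (fun x y => by rw [hE]; exact hq x y) with
    ⟨v, hv, h⟩ | ⟨v, v', hv, h⟩
  · obtain ⟨x, y, hxy, hz⟩ := CON2_z1
      (F 0 1 0 * v 0 + F 0 1 1 * v 1) (F 1 1 0 * v 0 + F 1 1 1 * v 1)
    refine CON2_fin a b E ![x, y, 0] ![0, 1] v (hw0 x y hxy) hu0 hv ?_ ?_ ?_
    · intro j
      fin_cases j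
      · simp [ha]
      · simp [ha]
    · intro i
      obtain ⟨e0, e1⟩ := h i
      simp only [hB, Matrix.cons_val_zero, Matrix.cons_val_one, Matrix.cons_val]
      linear_combination x * e0 + y * e1
    · simp only [hF, Matrix.cons_val_zero, Matrix.cons_val_one, Matrix.cons_val,
        Matrix.cons_val_fin_one]
      linear_combination hz
  · obtain ⟨x, y, hxy, hz⟩ := CON2_z2
      (F 0 1 0 * v 0 + F 0 1 1 * v 1)
      (F 0 1 0 * v' 0 + F 0 1 1 * v' 1 + (F 1 1 0 * v 0 + F 1 1 1 * v 1))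
      (F 1 1 0 * v' 0 + F 1 1 1 * v' 1)
    have hv0 : x • v + y • v' ≠ 0 := by
      intro h0
      obtain ⟨e0, e1⟩ := hv x y h0
      rcases hxy with h | h
      · exact h e0
      · exact h e1
    refine CON2_fin a b E ![x, y, 0] ![0, 1] (x • v + y • v') (hw0 x y hxy) hu0
      hv0 ?_ ?_ ?_
    · intro j
      fin_cases j
      · simp [ha]
      · simp [ha]
    · intro i
      have := h i x y
      simp only [hB, Matrix.cons_val_zero, Matrix.cons_val_one, Matrix.cons_val,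
        Pi.add_apply, Pi.smul_apply, smul_eq_mul]
      linear_combination this
    · simp only [hF, Matrix.cons_val_zero, Matrix.cons_val_one, Matrix.cons_val,
        Matrix.cons_val_fin_one, Pi.add_apply, Pi.smul_apply, smul_eq_mul]
      linear_combination hz

lemma CON2_dr (s t s' t' k A β C a0 b0 c0 : ℂ) (hd : s * t' - t * s' ≠ 0) (hk : k ≠ 0)
    (h : ∀ ε : ℂ, k * ((s + ε * s') * (t + ε * t')) * ((s + ε * s') ^ 2 * A +
      (s + ε * s') * (t + ε * t') * β + (t + ε * t') ^ 2 * C) =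
        ε ^ 2 * (a0 + b0 * ε + c0 * ε ^ 2)) :
    A * C * (β ^ 2 - 4 * A * C) = 0 := by
  have f0 : k * ((s * t) * (s ^ 2 * A + s * t * β + t ^ 2 * C)) = 0 := by
    linear_combination h 0
  have f1 : k * ((s' * t + s * t') * (s ^ 2 * A + s * t * β + t ^ 2 * C) +
      s * t * (2 * s * s' * A + (s * t' + s' * t) * β + 2 * t * t' * C)) = 0 := by
    linear_combination (8 / 12) * h 1 - (8 / 12) * h (-1) - (1 / 12) * h 2 + (1 / 12) * h (-2)
  have g0 := (mul_eq_zero.mp f0).resolve_left hk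
  have g1 := (mul_eq_zero.mp f1).resolve_left hk
  by_cases hs : s = 0
  · subst hs
    have ht : t ≠ 0 := by
      rintro rfl
      exact hd (by ring)
    have hs' : s' ≠ 0 := by
      rintro rfl
      exact hd (by ring)
    have : (s' * t * t ^ 2) * C = 0 := by linear_combination g1
    have hC : C = 0 := (mul_eq_zero.mp this).resolve_left
      (mul_ne_zero (mul_ne_zero hs' ht) (pow_ne_zero 2 ht))
    rw [hC]
    ring
  by_cases ht : t = 0
  · subst ht
    have ht' : t' ≠ 0 := by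
      rintro rfl
      exact hd (by ring)
    have : (s * t' * s ^ 2) * A = 0 := by linear_combination g1
    have hA : A = 0 := (mul_eq_zero.mp this).resolve_left
      (mul_ne_zero (mul_ne_zero hs ht') (pow_ne_zero 2 hs))
    rw [hA]
    ring
  have hQ : s ^ 2 * A + s * t * β + t ^ 2 * C = 0 :=
    (mul_eq_zero.mp g0).resolve_left (mul_ne_zero hs ht)
  have hL : 2 * s * s' * A + (s * t' + s' * t) * β + 2 * t * t' * C = 0 := by
    rw [hQ, mul_zero, zero_add] at g1
    exact (mul_eq_zero.mp g1).resolve_left (mul_ne_zero hs ht)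
  have m1 : 2 * A * s + β * t = 0 := by
    have : (s * t' - t * s') * (2 * A * s + β * t) = 0 := by
      linear_combination (2 * t') * hQ - t * hL
    exact (mul_eq_zero.mp this).resolve_left hd
  have m2 : β * s + 2 * C * t = 0 := by
    have : (s * t' - t * s') * (β * s + 2 * C * t) = 0 := by
      linear_combination s * hL - (2 * s') * hQ
    exact (mul_eq_zero.mp this).resolve_left hd
  have m3 : s * (β ^ 2 - 4 * A * C) = 0 := by
    linear_combination β * m2 - 2 * C * m1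
  rw [(mul_eq_zero.mp m3).resolve_left hs, mul_zero]

lemma CON2_gram (B : Fin 3 → Matrix (Fin 2) (Fin 2) ℂ)
    (hi : ∀ x y z : ℂ, x • B 0 + y • B 1 + z • B 2 = 0 → x = 0 ∧ y = 0 ∧ z = 0) :
    ∃ N : Matrix (Fin 2) (Fin 2) ℂ,
      (Matrix.of ![![B 0 0 0, B 0 0 1, B 0 1 0, B 0 1 1], ![B 1 0 0, B 1 0 1, B 1 1 0, B 1 1 1],
        ![B 2 0 0, B 2 0 1, B 2 1 0, B 2 1 1], ![N 0 0, N 0 1, N 1 0, N 1 1]]).det ≠ 0 := by
  have hns : ∃ N : Matrix (Fin 2) (Fin 2) ℂ, ∀ x y z : ℂ, x • B 0 + y • B 1 + z • B 2 ≠ N := by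
    by_contra hcon
    push Not at hcon
    have hf : Function.Surjective (Fintype.linearCombination ℂ B) := by
      intro N
      obtain ⟨x, y, z, h⟩ := hcon N
      refine ⟨![x, y, z], ?_⟩
      rw [Fintype.linearCombination_apply, Fin.sum_univ_three]
      simpa using h
    have h1 := LinearMap.finrank_le_finrank_of_surjective hf
    simp [Module.finrank_matrix] at h1
  obtain ⟨N, hN⟩ := hns
  refine ⟨N, fun h0 => ?_⟩
  obtain ⟨v, hv, h⟩ := Matrix.exists_vecMul_eq_zero_iff.mpr h0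
  have e0 := congrFun h 0
  have e1 := congrFun h 1
  have e2 := congrFun h 2
  have e3 := congrFun h 3
  simp only [Matrix.vecMul, dotProduct, Fin.sum_univ_four, Matrix.of_apply,
    Matrix.cons_val_zero, Matrix.cons_val_one, Matrix.cons_val, Pi.zero_apply] at e0 e1 e2 e3
  have h3 : v 3 = 0 := by
    by_contra h3
    apply hN (-v 0 / v 3) (-v 1 / v 3) (-v 2 / v 3)
    ext i j
    simp only [Matrix.add_apply, Matrix.smul_apply, smul_eq_mul]
    fin_cases i <;> fin_cases j <;> simp only [Fin.zero_eta, Fin.mk_one, Fin.isValue] <;>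
      field_simp
    · linear_combination -e0
    · linear_combination -e1
    · linear_combination -e2
    · linear_combination -e3
  have h4 := hi (v 0) (v 1) (v 2) (by
    ext i j
    simp only [Matrix.add_apply, Matrix.smul_apply, smul_eq_mul, Matrix.zero_apply]
    fin_cases i <;> fin_cases j <;> simp only [Fin.zero_eta, Fin.mk_one, Fin.isValue]
    · linear_combination e0 - N 0 0 * h3
    · linear_combination e1 - N 0 1 * h3
    · linear_combination e2 - N 1 0 * h3
    · linear_combination e3 - N 1 1 * h3)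
  apply hv
  ext i
  fin_cases i
  · exact h4.1
  · exact h4.2.1
  · exact h4.2.2
  · exact h3

lemma CON2_d4 (a b c d e f g h i n : ℂ) (m1 : a * d = b ^ 2) (m2 : a * f = c ^ 2)
    (m3 : d * f = e ^ 2) (m4 : a * e = b * c) (m5 : b * e = c * d) (m6 : c * e = b * f) :
    (Matrix.of ![![a, b, c, g], ![b, d, e, h], ![c, e, f, i], ![g, h, i, n]]).det = 0 := by
  rw [Matrix.det_succ_row_zero]
  simp only [Fin.sum_univ_four, Matrix.det_fin_three, Matrix.submatrix_apply, Matrix.of_apply,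
    Fin.succ_zero_eq_one, Fin.succ_one_eq_two, Matrix.cons_val_zero, Matrix.cons_val_one,
    Matrix.cons_val]
  simp [Fin.succAbove, Fin.lt_def]
  linear_combination n * (a * m3 + b * m6 + c * m5) - (g ^ 2 * m3 + h ^ 2 * m2 + i ^ 2 * m1 +
    2 * g * h * m6 + 2 * g * i * m5 - 2 * h * i * m4)

/-- Polar form of the determinant. -/
def CON2_po (M N : Matrix (Fin 2) (Fin 2) ℂ) : ℂ :=
  M 0 0 * N 1 1 + M 1 1 * N 0 0 - M 0 1 * N 1 0 - M 1 0 * N 0 1

lemma CON2_gr (B : Fin 3 → Matrix (Fin 2) (Fin 2) ℂ) (N : Matrix (Fin 2) (Fin 2) ℂ)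
    (m1 : CON2_po (B 0) (B 0) * CON2_po (B 1) (B 1) = CON2_po (B 0) (B 1) ^ 2)
    (m2 : CON2_po (B 0) (B 0) * CON2_po (B 2) (B 2) = CON2_po (B 0) (B 2) ^ 2)
    (m3 : CON2_po (B 1) (B 1) * CON2_po (B 2) (B 2) = CON2_po (B 1) (B 2) ^ 2)
    (m4 : CON2_po (B 0) (B 0) * CON2_po (B 1) (B 2) = CON2_po (B 0) (B 1) * CON2_po (B 0) (B 2))
    (m5 : CON2_po (B 0) (B 1) * CON2_po (B 1) (B 2) = CON2_po (B 0) (B 2) * CON2_po (B 1) (B 1))
    (m6 : CON2_po (B 0) (B 2) * CON2_po (B 1) (B 2) =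
      CON2_po (B 0) (B 1) * CON2_po (B 2) (B 2)) :
    (Matrix.of ![![B 0 0 0, B 0 0 1, B 0 1 0, B 0 1 1], ![B 1 0 0, B 1 0 1, B 1 1 0, B 1 1 1],
        ![B 2 0 0, B 2 0 1, B 2 1 0, B 2 1 1], ![N 0 0, N 0 1, N 1 0, N 1 1]]).det = 0 := by
  set M : Matrix (Fin 4) (Fin 4) ℂ := Matrix.of ![![B 0 0 0, B 0 0 1, B 0 1 0, B 0 1 1],
    ![B 1 0 0, B 1 0 1, B 1 1 0, B 1 1 1], ![B 2 0 0, B 2 0 1, B 2 1 0, B 2 1 1],
    ![N 0 0, N 0 1, N 1 0, N 1 1]] with hM
  set J : Matrix (Fin 4) (Fin 4) ℂ := Matrix.of ![![0, 0, 0, 1], ![0, 0, -1, 0],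
    ![0, -1, 0, 0], ![1, 0, 0, 0]] with hJ
  have hJd : J.det = 1 := by
    rw [hJ]
    simp [Matrix.det_succ_row_zero, Fin.sum_univ_succ, Fin.succAbove]
    norm_num
  have hp : M * J * Mᵀ = Matrix.of ![
      ![CON2_po (B 0) (B 0), CON2_po (B 0) (B 1), CON2_po (B 0) (B 2), CON2_po (B 0) N],
      ![CON2_po (B 0) (B 1), CON2_po (B 1) (B 1), CON2_po (B 1) (B 2), CON2_po (B 1) N],
      ![CON2_po (B 0) (B 2), CON2_po (B 1) (B 2), CON2_po (B 2) (B 2), CON2_po (B 2) N],
      ![CON2_po (B 0) N, CON2_po (B 1) N, CON2_po (B 2) N, CON2_po N N]] := by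
    ext i j
    fin_cases i <;> fin_cases j <;>
      simp [hM, hJ, Matrix.mul_apply, Fin.sum_univ_four, CON2_po] <;> ring
  have h1 := CON2_d4 _ _ _ _ _ _ (CON2_po (B 0) N) (CON2_po (B 1) N) (CON2_po (B 2) N)
    (CON2_po N N) m1 m2 m3 m4 m5 m6
  rw [← hp, Matrix.det_mul, Matrix.det_mul, hJd, Matrix.det_transpose, mul_one] at h1
  exact mul_self_eq_zero.mp h1

lemma CON2_poly (q00 q11 q22 q01 q02 q12 : ℂ)
    (h : ∀ x0 x2 y0 y1 : ℂ, x2 * y1 * ((q00 * x0 ^ 2 + q02 * x0 * x2 + q22 * x2 ^ 2) *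
      (q00 * y0 ^ 2 + q01 * y0 * y1 + q11 * y1 ^ 2) *
      ((2 * q00 * x0 * y0 + q01 * x0 * y1 + q02 * x2 * y0 + q12 * x2 * y1) ^ 2 -
        4 * (q00 * x0 ^ 2 + q02 * x0 * x2 + q22 * x2 ^ 2) *
        (q00 * y0 ^ 2 + q01 * y0 * y1 + q11 * y1 ^ 2))) = 0) :
    (∀ x y : ℂ, q00 * x ^ 2 + q02 * x * y + q22 * y ^ 2 = 0) ∨
    (∀ x y : ℂ, q00 * x ^ 2 + q01 * x * y + q11 * y ^ 2 = 0) ∨
    ∀ x0 x2 y0 y1 : ℂ, (2 * q00 * x0 * y0 + q01 * x0 * y1 + q02 * x2 * y0 + q12 * x2 * y1) ^ 2 -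
        4 * (q00 * x0 ^ 2 + q02 * x0 * x2 + q22 * x2 ^ 2) *
        (q00 * y0 ^ 2 + q01 * y0 * y1 + q11 * y1 ^ 2) = 0 := by
  set x0 : MvPolynomial (Fin 4) ℂ := MvPolynomial.X 0 with hx0
  set x2 : MvPolynomial (Fin 4) ℂ := MvPolynomial.X 1 with hx2
  set y0 : MvPolynomial (Fin 4) ℂ := MvPolynomial.X 2 with hy0
  set y1 : MvPolynomial (Fin 4) ℂ := MvPolynomial.X 3 with hy1
  set QA : MvPolynomial (Fin 4) ℂ := MvPolynomial.C q00 * x0 ^ 2 +
    MvPolynomial.C q02 * x0 * x2 + MvPolynomial.C q22 * x2 ^ 2 with hQA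
  set QC : MvPolynomial (Fin 4) ℂ := MvPolynomial.C q00 * y0 ^ 2 +
    MvPolynomial.C q01 * y0 * y1 + MvPolynomial.C q11 * y1 ^ 2 with hQC
  set QB : MvPolynomial (Fin 4) ℂ := MvPolynomial.C (2 * q00) * x0 * y0 +
    MvPolynomial.C q01 * x0 * y1 + MvPolynomial.C q02 * x2 * y0 +
    MvPolynomial.C q12 * x2 * y1 with hQB
  have key : x2 * y1 * (QA * QC * (QB ^ 2 - MvPolynomial.C 4 * QA * QC)) = 0 := by
    apply MvPolynomial.funext
    intro z
    have := h (z 0) (z 1) (z 2) (z 3)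
    simp only [hx0, hx2, hy0, hy1, hQA, hQC, hQB, map_mul, map_sub, map_add, map_pow,
      MvPolynomial.eval_X, MvPolynomial.eval_C, map_zero]
    simpa only [mul_assoc] using this
  have hx2' : x2 ≠ 0 := MvPolynomial.X_ne_zero 1
  have hy1' : y1 ≠ 0 := MvPolynomial.X_ne_zero 3
  have key2 := (mul_eq_zero.mp key).resolve_left (mul_ne_zero hx2' hy1')
  rcases mul_eq_zero.mp key2 with h1 | h1
  · rcases mul_eq_zero.mp h1 with h2 | h2
    · left
      intro x y
      have := congrArg (MvPolynomial.eval ![x, y, 0, 0]) h2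
      simpa [hQA, hx0, hx2] using this
    · right
      left
      intro x y
      have := congrArg (MvPolynomial.eval ![0, 0, x, y]) h2
      simpa [hQC, hy0, hy1] using this
  · right
    right
    intro a b c d
    have := congrArg (MvPolynomial.eval ![a, b, c, d]) h1
    simp only [hx0, hx2, hy0, hy1, hQA, hQC, hQB, map_mul, map_sub, map_add, map_pow,
      MvPolynomial.eval_X, MvPolynomial.eval_C, map_zero, Matrix.cons_val_zero,
      Matrix.cons_val_one, Matrix.cons_val] at this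
    linear_combination this

theorem p_CON2 : P_CON2 := by
  intro a b E h ha
  obtain ⟨-, hb, hL⟩ := h
  obtain ⟨B, hB⟩ := CON2_lin b
  obtain ⟨q00, h00⟩ : ∃ q, q = B 0 0 0 * B 0 1 1 - B 0 0 1 * B 0 1 0 := ⟨_, rfl⟩
  obtain ⟨q11, h11⟩ : ∃ q, q = B 1 0 0 * B 1 1 1 - B 1 0 1 * B 1 1 0 := ⟨_, rfl⟩
  obtain ⟨q22, h22⟩ : ∃ q, q = B 2 0 0 * B 2 1 1 - B 2 0 1 * B 2 1 0 := ⟨_, rfl⟩
  obtain ⟨q01, h01⟩ : ∃ q, q = CON2_po (B 0) (B 1) := ⟨_, rfl⟩
  obtain ⟨q02, h02⟩ : ∃ q, q = CON2_po (B 0) (B 2) := ⟨_, rfl⟩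
  obtain ⟨q12, h12⟩ : ∃ q, q = CON2_po (B 1) (B 2) := ⟨_, rfl⟩
  have hdet : ∀ w, (b w).det = q00 * w 0 ^ 2 + q11 * w 1 ^ 2 + q22 * w 2 ^ 2 +
      q01 * w 0 * w 1 + q02 * w 0 * w 2 + q12 * w 1 * w 2 := by
    intro w
    rw [Matrix.det_fin_two, hB, hB, hB, hB, h00, h11, h22, h01, h02, h12]
    simp only [CON2_po]
    ring
  have key := CON2_poly q00 q11 q22 q01 q02 q12 (by
    intro x0 x2 y0 y1
    by_cases hx : x2 = 0
    · simp [hx]
    by_cases hy : y1 = 0
    · simp [hy]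
    have hli : LinearIndependent ℂ ![(![x0, 0, x2] : Fin 3 → ℂ), ![y0, y1, 0]] := by
      rw [LinearIndependent.pair_iff]
      intro s t hst
      have e1 := congrFun hst 1
      have e2 := congrFun hst 2
      simp only [Pi.add_apply, Pi.smul_apply, smul_eq_mul, Matrix.cons_val_one,
        Matrix.cons_val, Pi.zero_apply, mul_zero, zero_add, add_zero] at e1 e2
      exact ⟨(mul_eq_zero.mp e2).resolve_right hx, (mul_eq_zero.mp e1).resolve_right hy⟩
    obtain ⟨s, t, s', t', hd, a0, b0, c0, hε⟩ := hL _ _ hli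
    have := CON2_dr s t s' t' (-(x2 * y1)) (q00 * x0 ^ 2 + q02 * x0 * x2 + q22 * x2 ^ 2)
      (2 * q00 * x0 * y0 + q01 * x0 * y1 + q02 * x2 * y0 + q12 * x2 * y1)
      (q00 * y0 ^ 2 + q01 * y0 * y1 + q11 * y1 ^ 2) a0 b0 c0 hd
      (neg_ne_zero.mpr (mul_ne_zero hx hy)) (by
        intro ε
        rw [← hε ε, hdet, ha, Matrix.det_fin_two]
        simp only [Matrix.of_apply, Matrix.cons_val_zero, Matrix.cons_val_one,
          Matrix.cons_val_fin_one, Matrix.cons_val, Pi.add_apply, Pi.smul_apply, smul_eq_mul]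
        ring)
    rw [this, mul_zero])
  rcases key with h1 | h1 | h1
  · exact CON2_B1 a b E ha hb (fun x y => by
      rw [hdet]
      simp only [Matrix.cons_val_zero, Matrix.cons_val_one, Matrix.cons_val]
      linear_combination h1 x y)
  · exact CON2_B2 a b E ha hb (fun x y => by
      rw [hdet]
      simp only [Matrix.cons_val_zero, Matrix.cons_val_one, Matrix.cons_val]
      linear_combination h1 x y)
  · exfalso
    obtain ⟨N, hN⟩ := CON2_gram B (by
      intro x y z hxyz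
      have h2 : (![x, y, z] : Fin 3 → ℂ) = 0 := hb (by
        rw [map_zero]
        ext i j
        rw [hB]
        have := congrFun (congrFun hxyz i) j
        simpa [Matrix.add_apply, Matrix.smul_apply] using this)
      have e0 := congrFun h2 0
      have e1 := congrFun h2 1
      have e2 := congrFun h2 2
      simp only [Matrix.cons_val_zero, Matrix.cons_val_one, Matrix.cons_val,
        Pi.zero_apply] at e0 e1 e2
      exact ⟨e0, e1, e2⟩)
    apply hN
    have p0 : CON2_po (B 0) (B 0) = 2 * q00 := by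
      rw [h00]
      simp only [CON2_po]
      ring
    have p1 : CON2_po (B 1) (B 1) = 2 * q11 := by
      rw [h11]
      simp only [CON2_po]
      ring
    have p2 : CON2_po (B 2) (B 2) = 2 * q22 := by
      rw [h22]
      simp only [CON2_po]
      ring
    apply CON2_gr
    · rw [p0, p1, ← h01]
      linear_combination -(h1 1 0 0 1)
    · rw [p0, p2, ← h02]
      linear_combination -(h1 0 1 1 0)
    · rw [p1, p2, ← h12]
      linear_combination -(h1 0 1 0 1)
    · rw [p0, ← h12, ← h01, ← h02]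
      linear_combination (1 / 2) * (h1 1 1 1 1 - h1 1 1 0 1 - h1 0 1 1 1 + h1 0 1 0 1)
    · rw [p1, ← h12, ← h01, ← h02]
      linear_combination (1 / 2) * (h1 1 1 0 1 - h1 1 0 0 1 - h1 0 1 0 1)
    · rw [p2, ← h12, ← h01, ← h02]
      linear_combination (1 / 2) * (h1 0 1 1 1 - h1 0 1 1 0 - h1 0 1 0 1)

end Pool.Agent.MR8
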