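import Pool.Agent.MR8.Defs

set_option autoImplicit false

/-!
# Reduction of the general case to the two normal forms
-/

namespace Pool.Agent.MR8

open Matrix

/-- The symmetric form. -/
noncomputable def CON_sym : (Fin 3 → ℂ) →ₗ[ℂ] Matrix (Fin 2) (Fin 2) ℂ where
  toFun w := !![w 0, w 1; w 1, w 2]
  map_add' u v := by ext i j; fin_cases i <;> fin_cases j <;> simp
  map_smul' c u := by ext i j; fin_cases i <;> fin_cases j <;> simp

/-- The hook form. -/
noncomputable def CON_hook : (Fin 3 → ℂ) →ₗ[ℂ] Matrix (Fin 2) (Fin 2) ℂ where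
  toFun w := !![w 0, w 1; w 2, 0]
  map_add' u v := by ext i j; fin_cases i <;> fin_cases j <;> simp
  map_smul' c u := by ext i j; fin_cases i <;> fin_cases j <;> simp

lemma CON_red (a b E : (Fin 3 → ℂ) →ₗ[ℂ] Matrix (Fin 2) (Fin 2) ℂ) (h : CONh a b)
    (P Q : Matrix (Fin 2) (Fin 2) ℂ) (hP : IsUnit P.det) (hQ : IsUnit Q.det)
    (form : (Fin 3 → ℂ) →ₗ[ℂ] Matrix (Fin 2) (Fin 2) ℂ) (hl : (Fin 3 → ℂ) →ₗ[ℂ] (Fin 3 → ℂ))
    (heq : ∀ w, P * a w * Q = form (hl w))
    (hform : ∀ a' b' E' : (Fin 3 → ℂ) →ₗ[ℂ] Matrix (Fin 2) (Fin 2) ℂ, CONh a' b' →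
      (∀ w, a' w = form w) → CONc a' b' E') : CONc a b E := by
  have hcancel : ∀ M : Matrix (Fin 2) (Fin 2) ℂ, P * M * Q = 0 → M = 0 := by
    intro M hM
    have h1 : P⁻¹ * (P * M * Q) * Q⁻¹ = M := by
      rw [Matrix.mul_assoc P M Q, ← Matrix.mul_assoc P⁻¹ P, Matrix.nonsing_inv_mul P hP,
        Matrix.one_mul, Matrix.mul_assoc, Matrix.mul_nonsing_inv Q hQ, Matrix.mul_one]
    rw [← h1, hM, Matrix.mul_zero, Matrix.zero_mul]
  have hinj : Function.Injective hl := by
    rw [injective_iff_map_eq_zero]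
    intro w hw
    have h1 : P * a w * Q = 0 := by rw [heq, hw, map_zero]
    have h2 := hcancel _ h1
    exact (injective_iff_map_eq_zero a).mp h.1 w h2
  set g : (Fin 3 → ℂ) ≃ₗ[ℂ] (Fin 3 → ℂ) := (LinearEquiv.ofInjectiveEndo hl hinj).symm with hg
  have hlg : ∀ w, hl (g w) = w := by
    intro w
    have := (LinearEquiv.ofInjectiveEndo hl hinj).apply_symm_apply w
    rwa [LinearEquiv.coe_ofInjectiveEndo] at this
  have hfg : ∀ w, form w = P * a (g w) * Q := by
    intro w; rw [heq, hlg]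
  have hb : ∀ w, (b ∘ₗ g.toLinearMap) w = b (g w) := fun w => rfl
  have hCh : CONh form (b ∘ₗ g.toLinearMap) := by
    refine ⟨?_, ?_, ?_⟩
    · rw [injective_iff_map_eq_zero]
      intro w hw
      rw [hfg] at hw
      have h2 := hcancel _ hw
      have h3 := (injective_iff_map_eq_zero a).mp h.1 _ h2
      exact g.map_eq_zero_iff.mp h3
    · exact h.2.1.comp g.injective
    · intro u v huv
      have huv' : LinearIndependent ℂ ![g u, g v] := by
        have h1 := huv.map' g.toLinearMap (LinearMap.ker_eq_bot.mpr g.injective)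
        have h2 : (g.toLinearMap : (Fin 3 → ℂ) → (Fin 3 → ℂ)) ∘ ![u, v] = ![g u, g v] := by
          ext i; fin_cases i <;> rfl
        rwa [h2] at h1
      obtain ⟨s, t, s', t', hst, a0, b0, c0, hε⟩ := h.2.2 (g u) (g v) huv'
      refine ⟨s, t, s', t', hst, P.det * Q.det * a0, P.det * Q.det * b0, P.det * Q.det * c0,
        fun ε => ?_⟩
      have h1 := hε ε
      have h2 : g ((s • u + t • v) + ε • (s' • u + t' • v)) =
          (s • g u + t • g v) + ε • (s' • g u + t' • g v) := by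
        simp only [map_add, map_smul]
      rw [hb, hfg, Matrix.det_mul, Matrix.det_mul, h2]
      linear_combination P.det * Q.det * h1
  obtain ⟨w, u, v, hw, hu, hv, h1, h2, h3⟩ := hform form (b ∘ₗ g.toLinearMap)
    ((LinearMap.mulLeft ℂ P) ∘ₗ E ∘ₗ g.toLinearMap) hCh (fun w => rfl)
  refine ⟨g w, u ᵥ* P, v, ?_, ?_, hv, ?_, h2, ?_⟩
  · intro h0; exact hw (g.map_eq_zero_iff.mp h0)
  · intro h0
    apply hu
    have h4 : (u ᵥ* P) ᵥ* P⁻¹ = u := by
      rw [Matrix.vecMul_vecMul, Matrix.mul_nonsing_inv P hP, Matrix.vecMul_one]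
    rw [← h4, h0, Matrix.zero_vecMul]
  · have h4 : ((u ᵥ* P) ᵥ* a (g w)) ᵥ* Q = 0 := by
      rw [Matrix.vecMul_vecMul, Matrix.vecMul_vecMul, ← Matrix.mul_assoc, ← hfg]
      exact h1
    have h5 : (((u ᵥ* P) ᵥ* a (g w)) ᵥ* Q) ᵥ* Q⁻¹ = (u ᵥ* P) ᵥ* a (g w) := by
      rw [Matrix.vecMul_vecMul _ Q, Matrix.mul_nonsing_inv Q hQ, Matrix.vecMul_one]
    rw [← h5, h4, Matrix.zero_vecMul]
  · have h4 : u ⬝ᵥ ((P * E (g w)) *ᵥ v) = 0 := h3
    rw [← Matrix.dotProduct_mulVec, Matrix.mulVec_mulVec]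
    exact h4

lemma CON_symCase (h1 : P_CON1) (a b E : (Fin 3 → ℂ) →ₗ[ℂ] Matrix (Fin 2) (Fin 2) ℂ)
    (h : CONh a b) (m : Matrix (Fin 2) (Fin 2) ℂ) (hdet : m.det ≠ 0)
    (hfa : ∀ w, m 0 0 * a w 0 0 + m 0 1 * a w 0 1 + m 1 0 * a w 1 0 + m 1 1 * a w 1 1 = 0) :
    CONc a b E := by
  set Q : Matrix (Fin 2) (Fin 2) ℂ := !![-m 1 0, m 0 0; -m 1 1, m 0 1] with hQ
  have hQd : IsUnit Q.det := by
    rw [isUnit_iff_ne_zero]
    rw [Matrix.det_fin_two] at hdet
    rw [hQ, Matrix.det_fin_two_of]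
    intro h0
    apply hdet
    linear_combination h0
  refine CON_red a b E h 1 Q (by simp) hQd CON_sym
    { toFun := fun w => ![(a w * Q) 0 0, (a w * Q) 0 1, (a w * Q) 1 1]
      map_add' := fun u v => by
        ext i; fin_cases i <;> simp [Matrix.add_mul]
      map_smul' := fun c u => by
        ext i; fin_cases i <;> simp } ?_ ?_
  · intro w
    have h3 := hfa w
    ext i j
    fin_cases i <;> fin_cases j <;>
      simp [CON_sym, hQ, Matrix.mul_apply, Fin.sum_univ_two] <;> linear_combination -h3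
  · intro a' b' E' hc ha
    exact h1 a' b' E' hc ha

lemma CON_hookCase (h2 : P_CON2) (a b E : (Fin 3 → ℂ) →ₗ[ℂ] Matrix (Fin 2) (Fin 2) ℂ)
    (h : CONh a b) (p q : Fin 2 → ℂ) (hp : p ≠ 0) (hq : q ≠ 0)
    (hfa : ∀ w, p 0 * (a w 0 0 * q 0 + a w 0 1 * q 1) + p 1 * (a w 1 0 * q 0 + a w 1 1 * q 1) = 0) :
    CONc a b E := by
  obtain ⟨p', hp'⟩ : ∃ p' : Fin 2 → ℂ, p' 0 * p 1 - p' 1 * p 0 ≠ 0 := by
    by_cases h0 : p 0 = 0
    · refine ⟨![1, 0], ?_⟩
      have : p 1 ≠ 0 := by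
        intro h1; apply hp; ext i; fin_cases i <;> simp [h0, h1]
      simpa using this
    · refine ⟨![0, 1], ?_⟩
      simpa using h0
  obtain ⟨q', hq'⟩ : ∃ q' : Fin 2 → ℂ, q' 0 * q 1 - q 0 * q' 1 ≠ 0 := by
    by_cases h0 : q 0 = 0
    · refine ⟨![1, 0], ?_⟩
      have : q 1 ≠ 0 := by
        intro h1; apply hq; ext i; fin_cases i <;> simp [h0, h1]
      simpa using this
    · refine ⟨![0, 1], ?_⟩
      simpa using h0
  set P : Matrix (Fin 2) (Fin 2) ℂ := !![p' 0, p' 1; p 0, p 1] with hP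
  set Q : Matrix (Fin 2) (Fin 2) ℂ := !![q' 0, q 0; q' 1, q 1] with hQ
  have hPd : IsUnit P.det := by
    rw [isUnit_iff_ne_zero, hP, Matrix.det_fin_two_of]; exact hp'
  have hQd : IsUnit Q.det := by
    rw [isUnit_iff_ne_zero, hQ, Matrix.det_fin_two_of]; exact hq'
  refine CON_red a b E h P Q hPd hQd CON_hook
    { toFun := fun w => ![(P * a w * Q) 0 0, (P * a w * Q) 0 1, (P * a w * Q) 1 0]
      map_add' := fun u v => by
        ext i; fin_cases i <;> simp [Matrix.add_mul, Matrix.mul_add]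
      map_smul' := fun c u => by
        ext i; fin_cases i <;> simp } ?_ ?_
  · intro w
    have h3 := hfa w
    have h4 : (P * a w * Q) 1 1 = 0 := by
      simp only [hP, hQ, Matrix.mul_apply, Fin.sum_univ_two, Matrix.of_apply, Matrix.cons_val',
        Matrix.cons_val_zero, Matrix.cons_val_one, Matrix.cons_val_fin_one]
      linear_combination h3
    ext i j
    fin_cases i <;> fin_cases j
    · simp [CON_hook]
    · simp [CON_hook]
    · simp [CON_hook]
    · simpa [CON_hook] using h4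
  · intro a' b' E' hc ha
    exact h2 a' b' E' hc ha

theorem p_CON (h1 : P_CON1) (h2 : P_CON2) : P_CON := by
  intro a b E h
  -- the image of `a` is in the kernel of a nonzero functional
  have hrk : LinearMap.range a < ⊤ := by
    rw [lt_top_iff_ne_top]
    intro htop
    have h3 := LinearMap.finrank_range_of_inj h.1
    rw [htop, finrank_top] at h3
    simp [Module.finrank_matrix] at h3
  obtain ⟨f, hf0, hf⟩ := Submodule.exists_le_ker_of_lt_top _ hrk
  set m : Matrix (Fin 2) (Fin 2) ℂ := Matrix.of fun i j => f (Matrix.single i j 1) with hm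
  have hfm : ∀ M : Matrix (Fin 2) (Fin 2) ℂ,
      f M = m 0 0 * M 0 0 + m 0 1 * M 0 1 + m 1 0 * M 1 0 + m 1 1 * M 1 1 := by
    intro M
    have h3 : M = M 0 0 • Matrix.single 0 0 (1 : ℂ) + M 0 1 • Matrix.single 0 1 (1 : ℂ) +
        M 1 0 • Matrix.single 1 0 (1 : ℂ) + M 1 1 • Matrix.single 1 1 (1 : ℂ) := by
      ext i j; fin_cases i <;> fin_cases j <;> simp [Matrix.single]
    conv_lhs => rw [h3]
    simp only [map_add, map_smul, smul_eq_mul, hm, Matrix.of_apply]
    ring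
  have hfa : ∀ w, m 0 0 * a w 0 0 + m 0 1 * a w 0 1 + m 1 0 * a w 1 0 + m 1 1 * a w 1 1 = 0 := by
    intro w
    rw [← hfm]
    exact hf (LinearMap.mem_range_self a w)
  have hm0 : ¬ (m 0 0 = 0 ∧ m 0 1 = 0 ∧ m 1 0 = 0 ∧ m 1 1 = 0) := by
    rintro ⟨e1, e2, e3, e4⟩
    apply hf0
    apply LinearMap.ext
    intro M
    rw [hfm, e1, e2, e3, e4]; simp
  by_cases hdet : m.det = 0
  · rw [Matrix.det_fin_two] at hdet
    -- rank one: m i j = p i * q j
    obtain ⟨p, q, hpq⟩ : ∃ p q : Fin 2 → ℂ, ∀ i j, m i j = p i * q j := by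
      by_cases e1 : m 0 0 = 0
      · by_cases e2 : m 0 1 = 0
        · refine ⟨![0, 1], ![m 1 0, m 1 1], fun i j => ?_⟩
          fin_cases i <;> fin_cases j <;> simp [e1, e2]
        · refine ⟨![1, m 1 1 / m 0 1], ![m 0 0, m 0 1], fun i j => ?_⟩
          have e3 : m 1 0 = 0 := by
            rw [e1] at hdet
            have : m 0 1 * m 1 0 = 0 := by linear_combination -hdet
            exact (mul_eq_zero.mp this).resolve_left e2
          fin_cases i <;> fin_cases j <;> simp [e1, e3, e2]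
      · refine ⟨![1, m 1 0 / m 0 0], ![m 0 0, m 0 1], fun i j => ?_⟩
        fin_cases i <;> fin_cases j
        · simp
        · simp
        · simp [e1]
        · simp only [Fin.mk_one, Matrix.cons_val_one, Matrix.cons_val_fin_one]
          field_simp
          linear_combination hdet
    have hp : p ≠ 0 := by
      rintro rfl
      apply hm0
      simp [hpq]
    have hq : q ≠ 0 := by
      rintro rfl
      apply hm0
      simp [hpq]
    refine CON_hookCase h2 a b E h p q hp hq fun w => ?_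
    have h3 := hfa w
    rw [hpq, hpq, hpq, hpq] at h3
    linear_combination h3
  · exact CON_symCase h1 a b E h m hdet hfa

end Pool.Agent.MR8
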