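import Pool.Agent.MR8.Defs

set_option autoImplicit false

/-!
# Project MR8 (`MP_9e4661_ag`): the determinant of a slice as a quartic polynomial
-/

namespace Pool.Agent.MR8

open Matrix

/-- the linear form with coefficients `c` -/
noncomputable def DET_lin (c : Fin 4 → ℂ) : MvPolynomial (Fin 4) ℂ :=
  ∑ k, MvPolynomial.C (c k) * MvPolynomial.X k

lemma DET_lin_hom (c : Fin 4 → ℂ) : (DET_lin c).IsHomogeneous 1 := by
  refine MvPolynomial.IsHomogeneous.sum _ _ _ fun k _ => ?_
  have h := (MvPolynomial.isHomogeneous_C (Fin 4) (c k)).mul (MvPolynomial.isHomogeneous_X ℂ k)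
  simpa using h

lemma DET_lin_eval (c z : Fin 4 → ℂ) :
    MvPolynomial.eval z (DET_lin c) = ∑ k, c k * z k := by
  simp [DET_lin]

lemma DET_hom (M : Matrix (Fin 4) (Fin 4) (MvPolynomial (Fin 4) ℂ))
    (h : ∀ i j, (M i j).IsHomogeneous 1) : M.det.IsHomogeneous 4 := by
  rw [Matrix.det_apply]
  refine MvPolynomial.IsHomogeneous.sum _ _ _ fun σ _ => ?_
  have h1 : (∏ i : Fin 4, M (σ i) i).IsHomogeneous (∑ _i : Fin 4, 1) :=
    MvPolynomial.IsHomogeneous.prod _ _ _ fun i _ => h _ _
  have h2 : (∏ i : Fin 4, M (σ i) i).IsHomogeneous 4 := by simpa using h1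
  rcases Int.units_eq_one_or (Equiv.Perm.sign σ) with e | e
  · rw [e, one_smul]; exact h2
  · rw [e, Units.neg_smul, one_smul]; exact h2.neg

/-- the linear map with the columns `x` -/
lemma DET_map (x : Fin 4 → V) (hx : LinearIndependent ℂ x) :
    ∃ L : V →ₗ[ℂ] V, (∀ z, L z = ∑ k, z k • x k) ∧
      ∀ u v : V, LinearIndependent ℂ ![u, v] → LinearIndependent ℂ ![L u, L v] := by
  refine ⟨Fintype.linearCombination ℂ x, fun z => Fintype.linearCombination_apply ℂ x z, ?_⟩
  intro u v huv
  have hLi : LinearMap.ker (Fintype.linearCombination ℂ x) = ⊥ := by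
    refine LinearMap.ker_eq_bot'.2 fun m hm => ?_
    rw [Fintype.linearCombination_apply] at hm
    exact funext fun i => Fintype.linearIndependent_iff.1 hx m hm i
  have h1 := huv.map' _ hLi
  have h2 : (⇑(Fintype.linearCombination ℂ x) ∘ ![u, v]) =
      ![Fintype.linearCombination ℂ x u, Fintype.linearCombination ℂ x v] := by
    refine funext fun i => ?_
    fin_cases i
    · rfl
    · rfl
  rw [h2] at h1
  exact h1

lemma DET_eval (T : Tri) (x y w : Fin 4 → V) (z : V) :
    MvPolynomial.eval z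
      (Matrix.of fun i j => DET_lin fun k => T (x k) (y i) (w j) :
        Matrix (Fin 4) (Fin 4) (MvPolynomial (Fin 4) ℂ)).det =
      (Matrix.of fun i j => T (∑ k, z k • x k) (y i) (w j)).det := by
  rw [RingHom.map_det]
  refine congrArg Matrix.det ?_
  refine Matrix.ext fun i j => ?_
  rw [RingHom.mapMatrix_apply, Matrix.map_apply, Matrix.of_apply, Matrix.of_apply, DET_lin_eval,
    map_sum, LinearMap.sum_apply, LinearMap.sum_apply]
  refine Finset.sum_congr rfl fun k _ => ?_
  rw [map_smul, LinearMap.smul_apply, LinearMap.smul_apply, smul_eq_mul, mul_comm]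

/-- **Job DET.** -/
theorem p_DET (h : P_S) : P_DET := by
  intro T hT x y w hx
  obtain ⟨L, hLa, hLi⟩ := DET_map x hx
  refine ⟨_, DET_hom _ fun i j => DET_lin_hom (fun k => T (x k) (y i) (w j)), ?_,
    fun z => DET_eval T x y w z⟩
  intro u v huv
  obtain ⟨s, t, s', t', hst, hdet⟩ := h T hT (L u) (L v) (hLi u v huv)
  refine ⟨s, t, s', t', hst, ?_⟩
  obtain ⟨a, b, c, habc⟩ := hdet y w
  refine ⟨a, b, c, fun ε => ?_⟩
  refine (DET_eval T x y w _).trans (Eq.trans ?_ (habc ε))
  refine congrArg Matrix.det ?_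
  refine Matrix.ext fun i j => ?_
  rw [Matrix.of_apply, Matrix.of_apply, ← hLa, map_add L, map_smul L ε, ← map_smul L s,
    ← map_smul L t, ← map_smul L s', ← map_smul L t', ← map_add L, ← map_add L, map_add T,
    map_smul T, LinearMap.add_apply, LinearMap.add_apply, LinearMap.smul_apply,
    LinearMap.smul_apply, smul_eq_mul]

end Pool.Agent.MR8
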