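import Mathlib

set_option autoImplicit false

/-!
# Trilinear forms on `ℂ⁴`: definitions and targets for `mrank (4,4,4) ≤ 8`

`RK r T`: the trilinear form `T` is a sum of `r` products of linear forms.  The three arguments
are called `x`, `y`, `w`.  `sw T y x w = sv T x w y = rt T w x y = T x y w`.
-/

namespace Pool.Agent.MR8

open Matrix

/-- The space `ℂ⁴`. -/
abbrev V := Fin 4 → ℂ

/-- Linear forms on `ℂ⁴`. -/
abbrev D := V →ₗ[ℂ] ℂ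

/-- Bilinear forms on `ℂ⁴`. -/
abbrev Bi := V →ₗ[ℂ] V →ₗ[ℂ] ℂ

/-- Trilinear forms on `ℂ⁴`. -/
abbrev Tri := V →ₗ[ℂ] V →ₗ[ℂ] V →ₗ[ℂ] ℂ

/-- `T` is a sum of `r` products of linear forms. -/
def RK (r : ℕ) (T : Tri) : Prop :=
  ∃ α β γ : Fin r → D, ∀ x y w, T x y w = ∑ i, α i x * β i y * γ i w

/-- Exchange of the first two arguments. -/
def sw (T : Tri) : Tri := T.flip

/-- Exchange of the last two arguments. -/
def sv (T : Tri) : Tri := (LinearMap.lflip : Bi ≃ₗ[ℂ] Bi).toLinearMap ∘ₗ T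

/-- The last argument becomes the first one: `rt T w x y = T x y w`. -/
def rt (T : Tri) : Tri := sw (sv T)

lemma sw_apply (T : Tri) (x y w : V) : sw T y x w = T x y w := rfl

lemma sv_apply (T : Tri) (x y w : V) : sv T x w y = T x y w := rfl

lemma rt_apply (T : Tri) (x y w : V) : rt T w x y = T x y w := rfl

/-- A bilinear form of rank at most one. -/
def Rk1 (B : Bi) : Prop := ∃ ξ υ : D, ∀ x y, B x y = ξ x * υ y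

/-- A bilinear form of rank at most two. -/
def Rk2 (B : Bi) : Prop := ∃ ξ υ ξ' υ' : D, ∀ x y, B x y = ξ x * υ y + ξ' x * υ' y

/-- The slices `T (l 0)`, `T (l 1)` are in the span of the four products `η j ⊗ ω j`. -/
def Frames (T : Tri) (l : Fin 2 → V) (η ω : Fin 4 → D) : Prop :=
  LinearIndependent ℂ l ∧
    ∀ i, ∃ c : Fin 4 → ℂ, ∀ y w, T (l i) y w = ∑ j, c j * (η j y * ω j w)

/-- Double root at `(s : t)` of the binary quartic with coefficients `c`. -/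
def DR (c : Fin 5 → ℂ) (s t : ℂ) : Prop :=
  4 * c 0 * s ^ 3 + 3 * c 1 * s ^ 2 * t + 2 * c 2 * s * t ^ 2 + c 3 * t ^ 3 = 0 ∧
    c 1 * s ^ 3 + 2 * c 2 * s ^ 2 * t + 3 * c 3 * s * t ^ 2 + 4 * c 4 * t ^ 3 = 0

/-! ### Engine -/

/-- Multi-affine families of binary quartics all of whose members have a double root. -/
def P_POLY : Prop :=
  ∀ (n : ℕ) (Q : (Fin n → ℂ) → Fin 5 → ℂ),
    (∀ v i z, Q (Function.update v i z) =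
      Q (Function.update v i 0) + z • (Q (Function.update v i 1) - Q (Function.update v i 0))) →
    (∀ v, ∃ s t : ℂ, (s ≠ 0 ∨ t ≠ 0) ∧ DR (Q v) s t) →
    ∃ s t : ℂ, (s ≠ 0 ∨ t ≠ 0) ∧ ∀ v, DR (Q v) s t

/-- The engine. -/
def P_G : Prop :=
  ∀ (T : Tri), ¬ RK 8 T → ∀ (l : Fin 2 → V) (η ω : Fin 4 → D), Frames T l η ω →
    ∃ h h' : V, LinearIndependent ℂ ![l 0, l 1, h, h'] ∧
      ∀ (φ : Fin 4 → ℂ) (y w : Fin 4 → V), ∃ a b c : ℂ, ∀ ε : ℂ,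
        (Matrix.of fun i j => T h (y i) (w j) + ε * T h' (y i) (w j) +
          ∑ s, φ s * (η s (y i) * ω s (w j))).det = ε ^ 2 * (a + b * ε + c * ε ^ 2)

/-- Three frames independent in both factors. -/
def P_G3 : Prop :=
  ∀ (T : Tri), ¬ RK 8 T → ∀ (l : Fin 2 → V) (η ω : Fin 4 → D), Frames T l η ω →
    ∀ s : Fin 3 → Fin 4, Function.Injective s → LinearIndependent ℂ (fun i => η (s i)) →
      LinearIndependent ℂ (fun i => ω (s i)) → ∀ y w : V, (∀ i, η (s i) y = 0) →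
        (∀ i, ω (s i) w = 0) → ∀ x, T x y w = 0

/-- Two frames independent in both factors; the remaining `2 × 2` block has a zero entry. -/
def P_E : Prop :=
  ∀ (T : Tri), ¬ RK 8 T → ∀ (l : Fin 2 → V) (η ω : Fin 4 → D), Frames T l η ω →
    ∀ p q : Fin 4, p ≠ q → LinearIndependent ℂ ![η p, η q] → LinearIndependent ℂ ![ω p, ω q] →
      ∀ ya wa yb wb : V, (∀ j, η j ya = 0) → (∀ j, ω j wa = 0) → (∀ x, T x ya wa = 0) →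
        η p yb = 0 → η q yb = 0 → ω p wb = 0 → ω q wb = 0 →
        ∀ x x', T x ya wb * T x' yb wa = T x' ya wb * T x yb wa

/-- Two frames independent in both factors: minors of one slice. -/
def P_G2 : Prop :=
  ∀ (T : Tri), ¬ RK 8 T → ∀ (l : Fin 2 → V) (η ω : Fin 4 → D), Frames T l η ω →
    ∃ h : V, LinearIndependent ℂ ![l 0, l 1, h] ∧ ∀ p q : Fin 4, p ≠ q →
      LinearIndependent ℂ ![η p, η q] → LinearIndependent ℂ ![ω p, ω q] →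
      ∀ ya yb wa wb : V, (∀ j, η j ya = 0) → (∀ j, η j yb = 0) → ω p wa = 0 → ω q wa = 0 →
        ω p wb = 0 → ω q wb = 0 → T h ya wa * T h yb wb = T h ya wb * T h yb wa

/-- Three frames suffice for the pencil: two of them independent in both factors. -/
def P_H3 : Prop :=
  ∀ (T : Tri), ¬ RK 8 T → ∀ (l : Fin 2 → V), LinearIndependent ℂ l → ∀ (η ω : Fin 3 → D),
    (∀ i, ∃ c : Fin 3 → ℂ, ∀ y w, T (l i) y w = ∑ j, c j * (η j y * ω j w)) →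
    ∀ p q : Fin 3, p ≠ q → LinearIndependent ℂ ![η p, η q] → LinearIndependent ℂ ![ω p, ω q] →
      ∀ y w : V, η p y = 0 → η q y = 0 → ω p w = 0 → ω q w = 0 → ∀ x, T x y w = 0

/-- Two slices in the span of four frames independent in both factors. -/
def P_KK : Prop :=
  ∀ (T : Tri) (l : Fin 2 → V) (η ω : Fin 4 → D), Frames T l η ω → LinearIndependent ℂ η →
    LinearIndependent ℂ ω → RK 8 T

/-- Every pencil of slices has a determinant with a double root. -/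
def P_S : Prop :=
  ∀ (T : Tri), ¬ RK 8 T → ∀ u v : V, LinearIndependent ℂ ![u, v] →
    ∃ s t s' t' : ℂ, s * t' - t * s' ≠ 0 ∧ ∀ y w : Fin 4 → V, ∃ a b c : ℂ, ∀ ε : ℂ,
      (Matrix.of fun i j => T (s • u + t • v) (y i) (w j) +
        ε * T (s' • u + t' • v) (y i) (w j)).det = ε ^ 2 * (a + b * ε + c * ε ^ 2)

/-! ### Small facts -/

/-- A zero slice. -/
def P_ZERO : Prop := ∀ (T : Tri) (x : V), x ≠ 0 → (∀ y w, T x y w = 0) → RK 8 T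

/-- Two slices of rank `r` together; the other two cost six. -/
def P_PEN6 : Prop :=
  ∀ (T S : Tri) (l : Fin 2 → V), LinearIndependent ℂ l → ∀ r, RK r S →
    (∀ i y w, T (l i) y w = S (l i) y w) → RK (r + 6) T

/-- Rank decomposition of a bilinear form. -/
def P_RKD : Prop :=
  ∀ B : Bi, ∃ r : ℕ, r ≤ 4 ∧ ∃ η ω : Fin r → D, LinearIndependent ℂ η ∧ LinearIndependent ℂ ω ∧
    ∀ y w, B y w = ∑ i, η i y * ω i w

/-- Change of the decomposition of a rank three form. -/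
def P_MIX : Prop :=
  ∀ (η ω : Fin 3 → D), LinearIndependent ℂ η → LinearIndependent ℂ ω → ∀ c : Fin 3 → ℂ, c ≠ 0 →
    ∃ η' ω' : Fin 3 → D, LinearIndependent ℂ η' ∧ LinearIndependent ℂ ω' ∧
      (∀ y w, ∑ i, η i y * ω i w = ∑ i, η' i y * ω' i w) ∧
      ∑ i, c i • η i = η' 0 + η' 1 + η' 2 ∧
      (∀ y, (∀ i, η i y = 0) ↔ ∀ i, η' i y = 0) ∧ (∀ w, (∀ i, ω i w = 0) ↔ ∀ i, ω' i w = 0)

/-- A bilinear form which vanishes where a nonzero bilinear form does not vanish is zero. -/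
def P_DENS : Prop :=
  ∀ A B : Bi, A ≠ 0 → (∀ y w, A y w ≠ 0 → B y w = 0) → ∀ y w, B y w = 0

/-- Two slices of a `2 × 3 × 3` tensor are in the span of four frames. -/
def P_PEN33 : Prop :=
  ∀ (A B : Bi) (u v : V), u ≠ 0 → v ≠ 0 → (∀ y, A u y = 0) → (∀ x, A x v = 0) →
    (∀ y, B u y = 0) → (∀ x, B x v = 0) →
    ∃ (η ω : Fin 4 → D) (c d : Fin 4 → ℂ), (∀ x y, A x y = ∑ j, c j * (η j x * ω j y)) ∧
      ∀ x y, B x y = ∑ j, d j * (η j x * ω j y)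

/-! ### Zero blocks `2 × 2 × 4` -/

/-- The zero block of the first two vectors of two bases. -/
def ZB (T : Tri) (x y : Fin 4 → V) : Prop :=
  LinearIndependent ℂ x ∧ LinearIndependent ℂ y ∧
    ∀ w, T (x 0) (y 0) w = 0 ∧ T (x 0) (y 1) w = 0 ∧ T (x 1) (y 0) w = 0 ∧ T (x 1) (y 1) w = 0

/-- Both off-diagonal blocks bijective. -/
def P_Z4 : Prop :=
  ∀ (T : Tri) (x y : Fin 4 → V), ZB T x y →
    LinearIndependent ℂ ![T (x 0) (y 2), T (x 0) (y 3), T (x 1) (y 2), T (x 1) (y 3)] →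
    LinearIndependent ℂ ![T (x 2) (y 0), T (x 2) (y 1), T (x 3) (y 0), T (x 3) (y 1)] → RK 8 T

/-- One block symmetric of rank three. -/
def P_ZSYM : Prop :=
  ∀ (T : Tri) (x y : Fin 4 → V), ZB T x y → T (x 0) (y 3) = T (x 1) (y 2) →
    LinearIndependent ℂ ![T (x 0) (y 2), T (x 0) (y 3), T (x 1) (y 3)] → RK 8 T

/-- One block a hook. -/
def P_ZHOOK : Prop :=
  ∀ (T : Tri) (x y : Fin 4 → V), ZB T x y → T (x 1) (y 3) = 0 →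
    LinearIndependent ℂ ![T (x 0) (y 2), T (x 0) (y 3), T (x 1) (y 2)] → RK 8 T

/-- One block `[a₀, a₁; a₁, 0]`: first consequence. -/
def P_ZW1 : Prop :=
  ∀ (T : Tri), ¬ RK 8 T → ∀ (x y : Fin 4 → V), ZB T x y → T (x 0) (y 3) = T (x 1) (y 2) →
    T (x 1) (y 3) = 0 → LinearIndependent ℂ ![T (x 0) (y 2), T (x 0) (y 3)] →
    ∀ x' w, T (x 0) (y 2) w = 0 → T (x 0) (y 3) w = 0 → T x' (y 0) w = 0 ∧ T x' (y 1) w = 0

/-- One block `[a₀, a₁; a₁, 0]`: second consequence. -/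
def P_ZW2 : Prop :=
  ∀ (T : Tri), ¬ RK 8 T → ∀ (x y : Fin 4 → V), ZB T x y → T (x 0) (y 3) = T (x 1) (y 2) →
    T (x 1) (y 3) = 0 → LinearIndependent ℂ ![T (x 0) (y 2), T (x 0) (y 3)] →
    ∀ w, T (x 0) (y 2) w = 0 → T (x 0) (y 3) w = 0 → ∀ x' x'' z v,
      T x' (y 0) v * T x'' z w = T x'' (y 0) v * T x' z w ∧
        T x' (y 1) v * T x'' z w = T x'' (y 1) v * T x' z w

/-- Classification of `2 × 2` matrices of linear forms. -/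
def P_F22 : Prop :=
  ∀ a : Fin 2 → Fin 2 → D,
    LinearIndependent ℂ ![a 0 0, a 0 1, a 1 0, a 1 1] ∨
    (∃ (u v : Fin 2 → Fin 2 → ℂ) (g : Fin 2 → D), ∀ i j, a i j = ∑ s, (u s i * v s j) • g s) ∨
    ∃ P Q : Matrix (Fin 2) (Fin 2) ℂ, IsUnit P.det ∧ IsUnit Q.det ∧ ∃ b : Fin 2 → Fin 2 → D,
      (∀ i j, b i j = ∑ k, ∑ l, (P i k * Q j l) • a k l) ∧
      ((b 0 1 = b 1 0 ∧ LinearIndependent ℂ ![b 0 0, b 0 1, b 1 1]) ∨
        (b 1 1 = 0 ∧ LinearIndependent ℂ ![b 0 0, b 0 1, b 1 0]) ∨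
        (b 0 1 = b 1 0 ∧ b 1 1 = 0 ∧ LinearIndependent ℂ ![b 0 0, b 0 1]))

/-- A zero block `2 × 2 × 4`. -/
def P_Z : Prop :=
  ∀ (T : Tri) (x y : Fin 2 → V), LinearIndependent ℂ x → LinearIndependent ℂ y →
    (∀ i j w, T (x i) (y j) w = 0) → RK 8 T

/-! ### Slices of rank one -/

/-- A slice of rank at most one and another one of rank at most two. -/
def P_R12 : Prop :=
  ∀ (T : Tri) (u x : V), LinearIndependent ℂ ![u, x] → Rk1 (T u) → Rk2 (T x) → RK 8 T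

/-- Two slices of rank one which share a factor: the third one. -/
def P_B0V : Prop :=
  ∀ (T : Tri), ¬ RK 8 T → ∀ (u y1 : V) (ξ β ω : D), u ≠ 0 → y1 ≠ 0 →
    (∀ x w, T x y1 w = ξ x * ω w) → (∀ y w, T u y w = β y * ω w) → ξ u = 0 →
    ∃ v : V, v ≠ 0 ∧ ω v = 0 ∧ ∃ γ : D, ∀ x y, T x y v = ξ x * γ y

/-- Three slices of rank one. -/
def P_B0DEC : Prop :=
  ∀ (T : Tri) (u y1 v : V) (ξ β ω γ : D), u ≠ 0 → y1 ≠ 0 → v ≠ 0 →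
    (∀ x w, T x y1 w = ξ x * ω w) → (∀ y w, T u y w = β y * ω w) →
    (∀ x y, T x y v = ξ x * γ y) → ξ u = 0 → ω v = 0 → RK 8 T

/-- Two slices of rank one which share a factor. -/
def P_B0A : Prop :=
  ∀ (T : Tri) (u y1 : V) (ξ β ω : D), u ≠ 0 → y1 ≠ 0 →
    (∀ x w, T x y1 w = ξ x * ω w) → (∀ y w, T u y w = β y * ω w) → ξ u = 0 → RK 8 T

/-- A slice of rank at most one. -/
def P_B0 : Prop := ∀ (T : Tri) (u : V), u ≠ 0 → Rk1 (T u) → RK 8 T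

/-! ### The kernel pencil of a slice of rank two -/

/-- Type `L₃` (Hankel). -/
def P_KP0 : Prop :=
  ∀ (T : Tri) (p q w0 : V) (c : Fin 3 → V), LinearIndependent ℂ ![p, q] →
    LinearIndependent ℂ ![w0, c 0, c 1, c 2] → (∀ y, T p y w0 = 0) → (∀ y, T q y w0 = 0) →
    sv T q (c 1) = sv T p (c 0) → sv T q (c 2) = sv T p (c 1) →
    LinearIndependent ℂ ![sv T q (c 0), sv T p (c 0), sv T p (c 1), sv T p (c 2)] → RK 8 T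

/-- Type `L₂ ⊕ R₁`. -/
def P_KP1 : Prop :=
  ∀ (T : Tri) (p q w0 : V) (c : Fin 3 → V), LinearIndependent ℂ ![p, q] →
    LinearIndependent ℂ ![w0, c 0, c 1, c 2] → (∀ y, T p y w0 = 0) → (∀ y, T q y w0 = 0) →
    sv T p (c 0) = 0 → sv T q (c 2) = sv T p (c 1) →
    LinearIndependent ℂ ![sv T q (c 0), sv T q (c 1), sv T p (c 1), sv T p (c 2)] → RK 8 T

/-- Type `L₁ ⊕ diag`. -/
def P_KP3 : Prop :=
  ∀ (T : Tri) (p q w0 : V) (c : Fin 3 → V), LinearIndependent ℂ ![p, q] →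
    LinearIndependent ℂ ![w0, c 0, c 1, c 2] → (∀ y, T p y w0 = 0) → (∀ y, T q y w0 = 0) →
    sv T p (c 0) = 0 → sv T q (c 1) = 0 →
    LinearIndependent ℂ ![sv T p (c 1), sv T p (c 2), sv T q (c 0), sv T q (c 2)] → RK 8 T

/-- Classification of `2 × 3` matrices of linear forms without common zero. -/
def P_KCL : Prop :=
  ∀ f : Fin 2 → Fin 3 → D, (∀ y, (∀ i j, f i j y = 0) → y = 0) →
    ∃ (P : Matrix (Fin 2) (Fin 2) ℂ) (Q : Matrix (Fin 3) (Fin 3) ℂ), IsUnit P.det ∧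
      IsUnit Q.det ∧ ∃ g : Fin 2 → Fin 3 → D,
      (∀ i j, g i j = ∑ k, ∑ m, (P i k * Q j m) • f k m) ∧
      ((g 1 1 = g 0 0 ∧ g 1 2 = g 0 1 ∧ LinearIndependent ℂ ![g 1 0, g 0 0, g 0 1, g 0 2]) ∨
        (g 0 0 = 0 ∧ g 1 2 = g 0 1 ∧ LinearIndependent ℂ ![g 1 0, g 1 1, g 0 1, g 0 2]) ∨
        (g 1 0 = 0 ∧ g 1 1 = g 0 0 ∧ LinearIndependent ℂ ![g 1 1, g 1 2, g 0 1, g 0 2]) ∨
        (g 0 0 = 0 ∧ g 1 1 = 0 ∧ LinearIndependent ℂ ![g 0 1, g 0 2, g 1 0, g 1 2]) ∨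
        (g 0 0 = 0 ∧ g 0 1 = 0) ∨ (g 0 0 = 0 ∧ g 1 0 = 0))

/-- The data of a pencil with a common zero `e4` in the second argument. -/
def ZR (p q e4 w0 : V) (η ω : Fin 3 → D) : Prop :=
  LinearIndependent ℂ ![p, q] ∧ e4 ≠ 0 ∧ w0 ≠ 0 ∧ LinearIndependent ℂ η ∧
    LinearIndependent ℂ ω ∧ (∀ i, η i e4 = 0) ∧ ∀ i, ω i w0 = 0

/-- Two frames in each of two slices of rank two, regular. -/
def P_KZA : Prop :=
  ∀ (T : Tri) (p q e4 w0 : V) (η ω : Fin 3 → D), ZR p q e4 w0 η ω →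
    (∀ y w, T p y w = η 0 y * ω 0 w + η 1 y * ω 1 w) →
    (∀ y w, T q y w = η 0 y * ω 1 w + η 2 y * ω 2 w) → RK 8 T

/-- Unit matrix and a matrix of rank one, square zero. -/
def P_KZB : Prop :=
  ∀ (T : Tri) (p q e4 w0 : V) (η ω : Fin 3 → D), ZR p q e4 w0 η ω →
    (∀ y w, T p y w = η 0 y * ω 0 w + η 1 y * ω 1 w + η 2 y * ω 2 w) →
    (∀ y w, T q y w = η 0 y * ω 1 w) → RK 8 T

/-- Unit matrix and a nilpotent matrix of rank two. -/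
def P_KZC : Prop :=
  ∀ (T : Tri) (p q e4 w0 : V) (η ω : Fin 3 → D), ZR p q e4 w0 η ω →
    (∀ y w, T p y w = η 0 y * ω 0 w + η 1 y * ω 1 w + η 2 y * ω 2 w) →
    (∀ y w, T q y w = η 0 y * ω 1 w + η 1 y * ω 2 w) → RK 8 T

/-- Diagonal. -/
def P_KZD : Prop :=
  ∀ (T : Tri) (p q e4 w0 : V) (η ω : Fin 3 → D) (α β : Fin 3 → ℂ), ZR p q e4 w0 η ω →
    (∀ y w, T p y w = ∑ i, α i * (η i y * ω i w)) →
    (∀ y w, T q y w = ∑ i, β i * (η i y * ω i w)) → RK 8 T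

/-- The singular type. -/
def P_KZ7 : Prop :=
  ∀ (T : Tri) (p q e4 w0 : V) (η ω : Fin 3 → D), ZR p q e4 w0 η ω →
    (∀ y w, T p y w = η 0 y * ω 0 w + η 1 y * ω 2 w) →
    (∀ y w, T q y w = η 0 y * ω 1 w + η 2 y * ω 2 w) → RK 8 T

/-- Singular pencils of bilinear forms have a large common zero block. -/
def P_PEN : Prop :=
  ∀ (n : ℕ) (A B : (Fin n → ℂ) →ₗ[ℂ] (Fin n → ℂ) →ₗ[ℂ] ℂ),
    (∀ s t : ℂ, ∃ y, y ≠ 0 ∧ ∀ w, s * A y w + t * B y w = 0) →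
    ∃ E F : Submodule ℂ (Fin n → ℂ), Module.finrank ℂ E + Module.finrank ℂ F = n + 1 ∧
      ∀ y ∈ E, ∀ w ∈ F, A y w = 0 ∧ B y w = 0

/-- Classification of pencils of `3 × 3` matrices without common zeros. -/
def P_P33 : Prop :=
  ∀ (A B : Bi) (e4 w0 : V), e4 ≠ 0 → w0 ≠ 0 → (∀ w, A e4 w = 0) → (∀ w, B e4 w = 0) →
    (∀ y, A y w0 = 0) → (∀ y, B y w0 = 0) →
    (∀ y, (∀ w, A y w = 0 ∧ B y w = 0) → ∃ z : ℂ, y = z • e4) →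
    (∀ w, (∀ y, A y w = 0 ∧ B y w = 0) → ∃ z : ℂ, w = z • w0) →
    ∃ P : Matrix (Fin 2) (Fin 2) ℂ, IsUnit P.det ∧ ∃ η ω : Fin 3 → D, LinearIndependent ℂ η ∧
      LinearIndependent ℂ ω ∧ (∀ i, η i e4 = 0) ∧ (∀ i, ω i w0 = 0) ∧
      (((∀ y w, P 0 0 * A y w + P 0 1 * B y w = η 0 y * ω 0 w + η 1 y * ω 1 w) ∧
          ∀ y w, P 1 0 * A y w + P 1 1 * B y w = η 0 y * ω 1 w + η 2 y * ω 2 w) ∨
        ((∀ y w, P 0 0 * A y w + P 0 1 * B y w =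
            η 0 y * ω 0 w + η 1 y * ω 1 w + η 2 y * ω 2 w) ∧
          ∀ y w, P 1 0 * A y w + P 1 1 * B y w = η 0 y * ω 1 w) ∨
        ((∀ y w, P 0 0 * A y w + P 0 1 * B y w =
            η 0 y * ω 0 w + η 1 y * ω 1 w + η 2 y * ω 2 w) ∧
          ∀ y w, P 1 0 * A y w + P 1 1 * B y w = η 0 y * ω 1 w + η 1 y * ω 2 w) ∨
        (∃ α β : Fin 3 → ℂ,
          (∀ y w, P 0 0 * A y w + P 0 1 * B y w = ∑ i, α i * (η i y * ω i w)) ∧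
          ∀ y w, P 1 0 * A y w + P 1 1 * B y w = ∑ i, β i * (η i y * ω i w)) ∨
        ((∀ y w, P 0 0 * A y w + P 0 1 * B y w = η 0 y * ω 0 w + η 1 y * ω 2 w) ∧
          ∀ y w, P 1 0 * A y w + P 1 1 * B y w = η 0 y * ω 1 w + η 2 y * ω 2 w))

/-- The remaining type of a kernel pencil. -/
def B3 (T : Tri) (w0 p q : V) : Prop :=
  LinearIndependent ℂ ![p, q] ∧ (∀ y, T p y w0 = 0) ∧ (∀ y, T q y w0 = 0) ∧
    ∃ c : Fin 3 → V, LinearIndependent ℂ ![w0, c 0, c 1, c 2] ∧ sv T q (c 0) = 0 ∧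
      sv T q (c 1) = sv T p (c 0) ∧
      LinearIndependent ℂ ![sv T q (c 1), sv T q (c 2), sv T p (c 1), sv T p (c 2)]

/-- The kernel pencil of a slice of rank two is of one type. -/
def P_KP : Prop :=
  ∀ (T : Tri), ¬ RK 8 T → ∀ l0 l1 w0 : V, LinearIndependent ℂ ![l0, l1] → w0 ≠ 0 →
    (∀ y, T l0 y w0 = 0) → (∀ y, T l1 y w0 = 0) →
    ∃ P : Matrix (Fin 2) (Fin 2) ℂ, IsUnit P.det ∧
      B3 T w0 (P 0 0 • l0 + P 0 1 • l1) (P 1 0 • l0 + P 1 1 • l1)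

/-- Facts about the remaining type. -/
def P_B3F : Prop :=
  ∀ (T : Tri) (w0 p q : V), B3 T w0 p q → Rk2 (T q) ∧
    (∀ s t : ℂ, Rk2 (T (s • p + t • q)) → s = 0) ∧
    (∀ y, (∀ w, T p y w = 0) → (∀ w, T q y w = 0) → y = 0) ∧
    ∃ c : V, LinearIndependent ℂ ![w0, c] ∧ (∀ y, T q y c = 0) ∧ sv T p c ≠ 0 ∧
      (∃ c' : V, sv T p c = sv T q c') ∧
      ∀ w, (∀ y, T q y w = 0) → ∃ a b : ℂ, w = a • w0 + b • c

/-- Two slices of rank two in one direction. -/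
def P_UNI : Prop :=
  ∀ (T : Tri) (x x' : V), LinearIndependent ℂ ![x, x'] → Rk2 (T x) → Rk2 (T x') → RK 8 T

/-! ### Existence of a slice of rank two -/

/-- The polynomial has a double root on every line. -/
def SC (F : MvPolynomial (Fin 4) ℂ) : Prop :=
  ∀ u v : V, LinearIndependent ℂ ![u, v] → ∃ s t s' t' : ℂ, s * t' - t * s' ≠ 0 ∧
    ∃ a b c : ℂ, ∀ ε : ℂ,
      MvPolynomial.eval ((s • u + t • v) + ε • (s' • u + t' • v)) F =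
        ε ^ 2 * (a + b * ε + c * ε ^ 2)

/-- Quartics with a double root on every line. -/
def P_FAC : Prop :=
  ∀ F : MvPolynomial (Fin 4) ℂ, F.IsHomogeneous 4 → SC F →
    F = 0 ∨ (∃ l g : MvPolynomial (Fin 4) ℂ, l.IsHomogeneous 1 ∧ g.IsHomogeneous 2 ∧
      F = l ^ 2 * g) ∨ ∃ q : MvPolynomial (Fin 4) ℂ, q.IsHomogeneous 2 ∧ F = q ^ 2

/-- The determinant as a polynomial. -/
def P_DET : Prop :=
  ∀ (T : Tri), ¬ RK 8 T → ∀ x y w : Fin 4 → V, LinearIndependent ℂ x →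
    ∃ F : MvPolynomial (Fin 4) ℂ, F.IsHomogeneous 4 ∧ SC F ∧
    ∀ z : V, MvPolynomial.eval z F =
      (Matrix.of fun i j => T (∑ k, z k • x k) (y i) (w j)).det

/-- A line of singular slices. -/
def P_LINE : Prop :=
  ∀ (T : Tri), ¬ RK 8 T → ∃ u v : V, LinearIndependent ℂ ![u, v] ∧
    ∀ s t : ℂ, ∃ y, y ≠ 0 ∧ ∀ w, T (s • u + t • v) y w = 0

/-- Two matrices of linear forms in three variables. -/
def CONh (a b : (Fin 3 → ℂ) →ₗ[ℂ] Matrix (Fin 2) (Fin 2) ℂ) : Prop :=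
  Function.Injective a ∧ Function.Injective b ∧
    ∀ u v : Fin 3 → ℂ, LinearIndependent ℂ ![u, v] → ∃ s t s' t' : ℂ, s * t' - t * s' ≠ 0 ∧
      ∃ a0 b0 c0 : ℂ, ∀ ε : ℂ,
        (a ((s • u + t • v) + ε • (s' • u + t' • v))).det *
          (b ((s • u + t • v) + ε • (s' • u + t' • v))).det =
        ε ^ 2 * (a0 + b0 * ε + c0 * ε ^ 2)

/-- The point looked for. -/
def CONc (a b E : (Fin 3 → ℂ) →ₗ[ℂ] Matrix (Fin 2) (Fin 2) ℂ) : Prop :=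
  ∃ (w : Fin 3 → ℂ) (u v : Fin 2 → ℂ), w ≠ 0 ∧ u ≠ 0 ∧ v ≠ 0 ∧ u ᵥ* a w = 0 ∧ b w *ᵥ v = 0 ∧
    u ⬝ᵥ (E w *ᵥ v) = 0

/-- Symmetric case. -/
def P_CON1 : Prop :=
  ∀ (a b E : (Fin 3 → ℂ) →ₗ[ℂ] Matrix (Fin 2) (Fin 2) ℂ), CONh a b →
    (∀ w, a w = !![w 0, w 1; w 1, w 2]) → CONc a b E

/-- Hook case. -/
def P_CON2 : Prop :=
  ∀ (a b E : (Fin 3 → ℂ) →ₗ[ℂ] Matrix (Fin 2) (Fin 2) ℂ), CONh a b →
    (∀ w, a w = !![w 0, w 1; w 2, 0]) → CONc a b E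

/-- General case. -/
def P_CON : Prop :=
  ∀ (a b E : (Fin 3 → ℂ) →ₗ[ℂ] Matrix (Fin 2) (Fin 2) ℂ), CONh a b → CONc a b E

/-- A zero block `2 × 2 × 3`. -/
def P_P1C : Prop :=
  ∀ (T : Tri), ¬ RK 8 T → ∀ (x y : Fin 2 → V) (w : Fin 3 → V), LinearIndependent ℂ x →
    LinearIndependent ℂ y → LinearIndependent ℂ w → (∀ i j k, T (x i) (y j) (w k) = 0) →
    ∃ v : V, v ≠ 0 ∧ Rk2 (rt T v)

/-- A slice of rank two in some direction. -/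
def P_P1 : Prop :=
  ∀ (T : Tri), ¬ RK 8 T → (∃ x, x ≠ 0 ∧ Rk2 (T x)) ∨ (∃ y, y ≠ 0 ∧ Rk2 (sw T y)) ∨
    ∃ w, w ≠ 0 ∧ Rk2 (rt T w)

/-! ### The last tensor -/

/-- Three mutually related slices of rank two. -/
def TRIP (T : Tri) (x0 y0 w0 : V) : Prop :=
  x0 ≠ 0 ∧ y0 ≠ 0 ∧ w0 ≠ 0 ∧ Rk2 (T x0) ∧ Rk2 (sw T y0) ∧ Rk2 (rt T w0) ∧
    (∀ w, T x0 y0 w = 0) ∧ (∀ y, T x0 y w0 = 0) ∧ ∀ x, T x y0 w0 = 0

/-- Existence of the three slices. -/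
def P_TRIP : Prop :=
  ∀ (T : Tri), ¬ RK 8 T → ∀ w0, w0 ≠ 0 → Rk2 (rt T w0) → ∃ x0 y0, TRIP T x0 y0 w0

/-- The pair lemma. -/
def P_PAIR : Prop :=
  ∀ (T : Tri), ¬ RK 8 T → ∀ x0 y0 w0 a c : V, TRIP T x0 y0 w0 →
    LinearIndependent ℂ ![x0, a] → (∀ y, T a y w0 = 0) → LinearIndependent ℂ ![w0, c] →
    (∀ y, T x0 y c = 0) → (∃ y, T a y c ≠ 0) ∧ (∀ y, (∀ w, T x0 y w = 0) → T a y c = 0) ∧
      (∀ y, (∀ x, T x y w0 = 0) → T a y c = 0)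

/-- The normal form, first step: `t i j k = T (x i) (y j) (w k)`. -/
def NF1 (t : Fin 4 → Fin 4 → Fin 4 → ℂ) : Prop :=
  (∀ k, t 0 0 k = 0) ∧ (∀ j, t 0 j 0 = 0) ∧ (∀ i, t i 0 0 = 0) ∧
  t 0 1 1 = 0 ∧ t 0 1 2 = 0 ∧ t 0 2 1 = 0 ∧ t 0 2 2 = 0 ∧ t 0 2 3 = 0 ∧ t 0 3 1 = 0 ∧
  t 0 3 3 = 0 ∧
  t 1 0 1 = 0 ∧ t 1 0 2 = 0 ∧ t 2 0 1 = 0 ∧ t 2 0 2 = 0 ∧ t 2 0 3 = 0 ∧ t 3 0 2 = 0 ∧
  t 3 0 3 = 0 ∧
  t 1 1 0 = 0 ∧ t 1 2 0 = 0 ∧ t 1 3 0 = 0 ∧ t 2 1 0 = 0 ∧ t 2 2 0 = 0 ∧ t 3 1 0 = 0 ∧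
  t 3 3 0 = 0 ∧
  t 1 1 1 = 0 ∧ t 1 2 1 = 0 ∧ t 1 1 2 = 0 ∧ t 2 1 2 = 0 ∧ t 2 2 1 = 0 ∧ t 2 2 2 = 0 ∧
  t 0 1 3 ≠ 0 ∧ t 0 3 2 ≠ 0 ∧ t 1 0 3 ≠ 0 ∧ t 3 0 1 ≠ 0 ∧ t 2 3 0 ≠ 0 ∧ t 3 2 0 ≠ 0 ∧
  t 1 3 1 ≠ 0 ∧ t 3 1 2 ≠ 0 ∧ t 2 2 3 ≠ 0 ∧ t 1 2 2 ≠ 0 ∧ t 2 1 1 ≠ 0

/-- `t` are the entries of `T` in three bases. -/
def EN (T : Tri) (t : Fin 4 → Fin 4 → Fin 4 → ℂ) : Prop :=
  ∃ x y w : Fin 4 → V, LinearIndependent ℂ x ∧ LinearIndependent ℂ y ∧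
    LinearIndependent ℂ w ∧ ∀ i j k, T (x i) (y j) (w k) = t i j k

/-- First normal form. -/
def P_NF1 : Prop :=
  ∀ (T : Tri), ¬ RK 8 T → ∀ x0 y0 w0, TRIP T x0 y0 w0 → ∃ t, EN T t ∧ NF1 t

/-- Second normal form: nine more entries are zero. -/
def P_NF2 : Prop :=
  ∀ (T : Tri), (∃ t, EN T t ∧ NF1 t) → ∃ t, EN T t ∧ NF1 t ∧ t 1 1 3 = 0 ∧ t 2 1 3 = 0 ∧
    t 3 1 3 = 0 ∧ t 3 1 1 = 0 ∧ t 1 2 3 = 0 ∧ t 1 3 3 = 0 ∧ t 3 2 1 = 0 ∧ t 3 2 2 = 0 ∧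
    t 3 2 3 = 0

/-- The entries of the third normal form. -/
def tt (m a b c d e f g : ℂ) : Fin 4 → Fin 4 → Fin 4 → ℂ :=
  ![![![0, 0, 0, 0], ![0, 0, 0, 1], ![0, 0, 0, 0], ![0, 0, 1, 0]],
    ![![0, 0, 0, 1], ![0, 0, 0, 0], ![0, 0, 1, 0], ![0, 1, a, 0]],
    ![![0, 0, 0, 0], ![0, m, 0, 0], ![0, 0, 0, 1], ![1, b, c, d]],
    ![![0, 1, 0, 0], ![0, 0, 1, 0], ![1, 0, 0, 0], ![0, e, f, g]]]

/-- Third normal form: scaling. -/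
def P_NF3 : Prop :=
  ∀ (T : Tri), (∃ t, EN T t ∧ NF1 t ∧ t 1 1 3 = 0 ∧ t 2 1 3 = 0 ∧
    t 3 1 3 = 0 ∧ t 3 1 1 = 0 ∧ t 1 2 3 = 0 ∧ t 1 3 3 = 0 ∧ t 3 2 1 = 0 ∧ t 3 2 2 = 0 ∧
    t 3 2 3 = 0) → ∃ m a b c d e f g : ℂ, m ≠ 0 ∧ EN T (tt m a b c d e f g)

/-- The determinant condition. -/
def P_FINB : Prop :=
  ∀ (T : Tri), ¬ RK 8 T → ∀ m a b c d e f g : ℂ, m ≠ 0 → EN T (tt m a b c d e f g) →
    m = 1 ∧ a ^ 2 = 4 ∧ b ^ 2 = 4 ∧ 2 * c = a * b ∧ 2 * f = a * e ∧ 2 * d = - (b * e) ∧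
      4 * g = - e ^ 2

/-- The last tensors have rank at most eight. -/
def P_STAR : Prop :=
  ∀ (T : Tri) (a b c d e f g : ℂ), a ^ 2 = 4 → b ^ 2 = 4 → 2 * c = a * b → 2 * f = a * e →
    2 * d = - (b * e) → 4 * g = - e ^ 2 → EN T (tt 1 a b c d e f g) → RK 8 T

/-- The aim. -/
def P_ALL : Prop := ∀ T : Tri, RK 8 T

end Pool.Agent.MR8
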