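import Pool.Agent.MR8.G3

set_option autoImplicit false

/-!
# Two frames independent in both factors
-/

namespace Pool.Agent.MR8

open Matrix

/-- the matrix `g` with `z 0, z 1` added on the diagonal -/
def E_add (g : Fin 4 → Fin 4 → ℂ) (z0 z1 : ℂ) : Matrix (Fin 4) (Fin 4) ℂ :=
  Matrix.of fun i j => g i j + (if i = j then ![z0, z1, 0, 0] i else 0)

lemma E_alt (g : Fin 4 → Fin 4 → ℂ) :
    (E_add g 1 1).det - (E_add g 0 1).det - (E_add g 1 0).det + (E_add g 0 0).det =
      g 2 2 * g 3 3 - g 2 3 * g 3 2 := by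
  simp only [G3_det4, E_add, Matrix.of_apply]
  simp
  ring

/-- The lower right minor of the matrix in adapted vectors. -/
lemma E_minor (T : Tri) (η ω : Fin 4 → D) (u u' : V)
    (hdet : ∀ (φ : Fin 4 → ℂ) (y w : Fin 4 → V), ∃ a b c : ℂ, ∀ ε : ℂ,
        (Matrix.of fun i j => T u (y i) (w j) + ε * T u' (y i) (w j) +
          ∑ s, φ s * (η s (y i) * ω s (w j))).det = ε ^ 2 * (a + b * ε + c * ε ^ 2))
    (p q : Fin 4) (hpq : p ≠ q) (hη : LinearIndependent ℂ ![η p, η q])
    (hω : LinearIndependent ℂ ![ω p, ω q]) (ya yb wa wb : V)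
    (h1 : η p ya = 0) (h2 : η q ya = 0) (h3 : η p yb = 0) (h4 : η q yb = 0)
    (h5 : ω p wa = 0) (h6 : ω q wa = 0) (h7 : ω p wb = 0) (h8 : ω q wb = 0) :
    ∃ a b c : ℂ, ∀ ε : ℂ,
      (T u ya wa + ε * T u' ya wa) * (T u yb wb + ε * T u' yb wb) -
        (T u ya wb + ε * T u' ya wb) * (T u yb wa + ε * T u' yb wa) =
      ε ^ 2 * (a + b * ε + c * ε ^ 2) := by
  obtain ⟨e, he⟩ := G3_dual ![η p, η q] hη
  obtain ⟨f, hf⟩ := G3_dual ![ω p, ω q] hω
  have e00 : η p (e 0) = 1 := by simpa using he 0 0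
  have e01 : η p (e 1) = 0 := by simpa using he 0 1
  have e10 : η q (e 0) = 0 := by simpa using he 1 0
  have e11 : η q (e 1) = 1 := by simpa using he 1 1
  have f00 : ω p (f 0) = 1 := by simpa using hf 0 0
  have f01 : ω p (f 1) = 0 := by simpa using hf 0 1
  have f10 : ω q (f 0) = 0 := by simpa using hf 1 0
  have f11 : ω q (f 1) = 1 := by simpa using hf 1 1
  let g : ℂ → Fin 4 → Fin 4 → ℂ := fun ε i j =>
    T u (![e 0, e 1, ya, yb] i) (![f 0, f 1, wa, wb] j) +
      ε * T u' (![e 0, e 1, ya, yb] i) (![f 0, f 1, wa, wb] j)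
  have hsum : ∀ (z0 z1 : ℂ) (a b : V),
      ∑ s, (if s = p then z0 else if s = q then z1 else 0) * (η s a * ω s b) =
        z0 * (η p a * ω p b) + z1 * (η q a * ω q b) := by
    intro z0 z1 a b
    have h9 : ∀ s : Fin 4, (if s = p then z0 else if s = q then z1 else 0) * (η s a * ω s b) =
        (if s = p then z0 * (η p a * ω p b) else 0) +
          (if s = q then z1 * (η q a * ω q b) else 0) := by
      intro s
      by_cases hs : s = p
      · subst hs
        simp [hpq]
      · by_cases hs' : s = q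
        · subst hs'
          simp [hs]
        · simp [hs, hs']
    rw [Finset.sum_congr rfl fun s _ => h9 s, Finset.sum_add_distrib, Finset.sum_ite_eq',
      Finset.sum_ite_eq']
    simp
  have hmat : ∀ z0 z1 ε : ℂ, (Matrix.of fun i j =>
      T u (![e 0, e 1, ya, yb] i) (![f 0, f 1, wa, wb] j) +
      ε * T u' (![e 0, e 1, ya, yb] i) (![f 0, f 1, wa, wb] j) +
      ∑ s, (if s = p then z0 else if s = q then z1 else 0) *
        (η s (![e 0, e 1, ya, yb] i) * ω s (![f 0, f 1, wa, wb] j))) =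
      E_add (g ε) z0 z1 := by
    intro z0 z1 ε
    ext i j
    rw [Matrix.of_apply, hsum, E_add, Matrix.of_apply]
    simp only [g]
    fin_cases i <;> fin_cases j <;>
      simp [e00, e01, e10, e11, f00, f01, f10, f11, h1, h2, h3, h4, h5, h6, h7, h8]
  have hz : ∀ z0 z1 : ℂ, ∃ a b c : ℂ, ∀ ε : ℂ,
      (E_add (g ε) z0 z1).det = ε ^ 2 * (a + b * ε + c * ε ^ 2) := by
    intro z0 z1
    obtain ⟨a, b, c, habc⟩ := hdet (fun s => if s = p then z0 else if s = q then z1 else 0)
      ![e 0, e 1, ya, yb] ![f 0, f 1, wa, wb]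
    refine ⟨a, b, c, fun ε => ?_⟩
    rw [← hmat]
    exact habc ε
  obtain ⟨a0, b0, c0, k0⟩ := hz 1 1
  obtain ⟨a1, b1, c1, k1⟩ := hz 0 1
  obtain ⟨a2, b2, c2, k2⟩ := hz 1 0
  obtain ⟨a3, b3, c3, k3⟩ := hz 0 0
  refine ⟨a0 - a1 - a2 + a3, b0 - b1 - b2 + b3, c0 - c1 - c2 + c3, ?_⟩
  intro ε
  have h9 := E_alt (g ε)
  rw [k0, k1, k2, k3] at h9
  have h10 : g ε 2 2 * g ε 3 3 - g ε 2 3 * g ε 3 2 =
      (T u ya wa + ε * T u' ya wa) * (T u yb wb + ε * T u' yb wb) -
        (T u ya wb + ε * T u' ya wb) * (T u yb wa + ε * T u' yb wa) := rfl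
  rw [h10] at h9
  rw [← h9]
  ring

theorem p_E (h : P_G) : P_E := by
  intro T hT l η ω hF p q hpq hη hω ya wa yb wb hya hwa hT0 hpb hqb hpb' hqb'
  obtain ⟨u, u', hLI, hdet⟩ := h T hT l η ω hF
  obtain ⟨a, b, c, hm⟩ := E_minor T η ω u u' hdet p q hpq hη hω ya yb wa wb (hya p) (hya q) hpb
    hqb (hwa p) (hwa q) hpb' hqb'
  have hprod : T u ya wb * T u yb wa = 0 ∧
      T u ya wb * T u' yb wa + T u' ya wb * T u yb wa = 0 := by
    refine G3_eps _ _ (-a - T u' ya wb * T u' yb wa) (-b) (-c) ?_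
    intro ε
    have h1 := hm ε
    rw [hT0, hT0] at h1
    linear_combination -h1
  have halt : T u ya wb * T u' yb wa - T u' ya wb * T u yb wa = 0 := by
    obtain ⟨h1, h2⟩ := hprod
    rcases mul_eq_zero.mp h1 with h3 | h3
    · rw [h3] at h2 ⊢
      linear_combination -h2
    · rw [h3] at h2 ⊢
      linear_combination h2
  have hl : ∀ i w, T (l i) ya w = 0 := by
    intro i w
    obtain ⟨c, hc⟩ := hF.2 i
    rw [hc]
    exact Finset.sum_eq_zero fun j _ => by rw [hya]; ring
  have hl' : ∀ i y, T (l i) y wa = 0 := by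
    intro i y
    obtain ⟨c, hc⟩ := hF.2 i
    rw [hc]
    exact Finset.sum_eq_zero fun j _ => by rw [hwa]; ring
  -- the two functionals
  have hA : ∀ x, ((T.flip ya).flip wb) x = T x ya wb := fun x => rfl
  have hB : ∀ x, ((T.flip yb).flip wa) x = T x yb wa := fun x => rfl
  have key : ∀ x', (T u ya wb * T x' yb wa - T x' ya wb * T u yb wa = 0) ∧
      (T u' ya wb * T x' yb wa - T x' ya wb * T u' yb wa = 0) := by
    intro x'
    constructor
    · have := G3_span hLI (T u ya wb • ((T.flip yb).flip wa) - T u yb wa • ((T.flip ya).flip wb))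
        (by simp [hl, hl']) (by simp [hl, hl'])
        (by simp only [LinearMap.sub_apply, LinearMap.smul_apply, smul_eq_mul, hA, hB]; ring)
        (by simp only [LinearMap.sub_apply, LinearMap.smul_apply, smul_eq_mul, hA, hB]
            linear_combination halt) x'
      simp only [LinearMap.sub_apply, LinearMap.smul_apply, smul_eq_mul, hA, hB] at this
      linear_combination this
    · have := G3_span hLI (T u' ya wb • ((T.flip yb).flip wa) - T u' yb wa • ((T.flip ya).flip wb))
        (by simp [hl, hl']) (by simp [hl, hl'])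
        (by simp only [LinearMap.sub_apply, LinearMap.smul_apply, smul_eq_mul, hA, hB]
            linear_combination -halt)
        (by simp only [LinearMap.sub_apply, LinearMap.smul_apply, smul_eq_mul, hA, hB]; ring) x'
      simp only [LinearMap.sub_apply, LinearMap.smul_apply, smul_eq_mul, hA, hB] at this
      linear_combination this
  intro x x'
  have := G3_span hLI (T x' yb wa • ((T.flip ya).flip wb) - T x' ya wb • ((T.flip yb).flip wa))
    (by simp [hl, hl']) (by simp [hl, hl'])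
    (by simp only [LinearMap.sub_apply, LinearMap.smul_apply, smul_eq_mul, hA, hB]
        linear_combination (key x').1)
    (by simp only [LinearMap.sub_apply, LinearMap.smul_apply, smul_eq_mul, hA, hB]
        linear_combination (key x').2) x
  simp only [LinearMap.sub_apply, LinearMap.smul_apply, smul_eq_mul, hA, hB] at this
  linear_combination this

theorem p_G2 (h : P_G) : P_G2 := by
  intro T hT l η ω hF
  obtain ⟨u, u', hLI, hdet⟩ := h T hT l η ω hF
  refine ⟨u, ?_, ?_⟩
  · have h1 := hLI.comp (![0, 1, 2] : Fin 3 → Fin 4) (by decide)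
    have h2 : (![l 0, l 1, u, u'] ∘ (![0, 1, 2] : Fin 3 → Fin 4)) = ![l 0, l 1, u] := by
      funext i
      fin_cases i <;> rfl
    rwa [h2] at h1
  · intro p q hpq hη hω ya yb wa wb hya hyb h1 h2 h3 h4
    obtain ⟨a, b, c, hm⟩ := E_minor T η ω u u' hdet p q hpq hη hω ya yb wa wb (hya p) (hya q)
      (hyb p) (hyb q) h1 h2 h3 h4
    have h5 := hm 0
    simp only [zero_mul, add_zero] at h5
    linear_combination h5

end Pool.Agent.MR8
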