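import Mathlib
import Pool.Agent.MR8.Defs

set_option autoImplicit false

/-!
# Classification of `2 × 2` matrices of linear forms
-/

namespace Pool.Agent.MR8

open Matrix

/-- Change of rows and columns. -/
def F22_act (P Q : Matrix (Fin 2) (Fin 2) ℂ) (a : Fin 2 → Fin 2 → D) : Fin 2 → Fin 2 → D :=
  fun i j => ∑ k, ∑ l, (P i k * Q j l) • a k l

/-- Sum of two products. -/
def F22_R2 (a : Fin 2 → Fin 2 → D) : Prop :=
  ∃ (u v : Fin 2 → Fin 2 → ℂ) (g : Fin 2 → D), ∀ i j, a i j = ∑ s, (u s i * v s j) • g s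

/-- The three normal forms. -/
def F22_F (b : Fin 2 → Fin 2 → D) : Prop :=
  (b 0 1 = b 1 0 ∧ LinearIndependent ℂ ![b 0 0, b 0 1, b 1 1]) ∨
    (b 1 1 = 0 ∧ LinearIndependent ℂ ![b 0 0, b 0 1, b 1 0]) ∨
    (b 0 1 = b 1 0 ∧ b 1 1 = 0 ∧ LinearIndependent ℂ ![b 0 0, b 0 1])

/-- The two last alternatives of the statement. -/
def F22_G (a : Fin 2 → Fin 2 → D) : Prop :=
  F22_R2 a ∨ ∃ P Q : Matrix (Fin 2) (Fin 2) ℂ, IsUnit P.det ∧ IsUnit Q.det ∧
    F22_F (F22_act P Q a)

lemma F22_act_act (P Q P' Q' : Matrix (Fin 2) (Fin 2) ℂ) (a : Fin 2 → Fin 2 → D) :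
    F22_act P' Q' (F22_act P Q a) = F22_act (P' * P) (Q' * Q) a := by
  funext i j
  simp only [F22_act, Fin.sum_univ_two, Matrix.mul_apply]
  module

lemma F22_act_one (a : Fin 2 → Fin 2 → D) : F22_act 1 1 a = a := by
  funext i j
  simp only [F22_act, Matrix.one_apply, Fin.sum_univ_two]
  fin_cases i <;> fin_cases j <;> simp

lemma F22_R2_act (P Q : Matrix (Fin 2) (Fin 2) ℂ) (a : Fin 2 → Fin 2 → D) (h : F22_R2 a) :
    F22_R2 (F22_act P Q a) := by
  obtain ⟨u, v, g, h⟩ := h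
  refine ⟨fun s i => ∑ k, P i k * u s k, fun s j => ∑ l, Q j l * v s l, g, fun i j => ?_⟩
  simp only [F22_act, Fin.sum_univ_two, h]
  module

lemma F22_G_act (P Q : Matrix (Fin 2) (Fin 2) ℂ) (hP : IsUnit P.det) (hQ : IsUnit Q.det)
    (a : Fin 2 → Fin 2 → D) (h : F22_G (F22_act P Q a)) : F22_G a := by
  rcases h with h | ⟨P', Q', hP', hQ', h⟩
  · left
    have h1 := F22_R2_act P⁻¹ Q⁻¹ _ h
    rwa [F22_act_act, Matrix.nonsing_inv_mul _ hP, Matrix.nonsing_inv_mul _ hQ,
      F22_act_one] at h1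
  · right
    refine ⟨P' * P, Q' * Q, ?_, ?_, ?_⟩
    · rw [Matrix.det_mul]; exact hP'.mul hP
    · rw [Matrix.det_mul]; exact hQ'.mul hQ
    · rwa [F22_act_act] at h

lemma F22_G_F (a : Fin 2 → Fin 2 → D) (h : F22_F a) : F22_G a := by
  right
  refine ⟨1, 1, by simp, by simp, ?_⟩
  rwa [F22_act_one]

lemma F22_diag (a : Fin 2 → Fin 2 → D) (h1 : a 0 1 = 0) (h2 : a 1 0 = 0) : F22_R2 a := by
  refine ⟨![![1, 0], ![0, 1]], ![![1, 0], ![0, 1]], ![a 0 0, a 1 1], fun i j => ?_⟩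
  fin_cases i <;> fin_cases j <;> simp [Fin.sum_univ_two, h1, h2]

lemma F22_B (b : Fin 2 → Fin 2 → D) (h : b 1 1 = 0) : F22_G b := by
  by_cases hli : LinearIndependent ℂ ![b 0 0, b 0 1, b 1 0]
  · exact F22_G_F _ (Or.inr (Or.inl ⟨h, hli⟩))
  rw [Fintype.not_linearIndependent_iff] at hli
  obtain ⟨g, hg, hne⟩ := hli
  simp only [Fin.sum_univ_three, Matrix.cons_val_zero, Matrix.cons_val_one, Matrix.cons_val] at hg
  by_cases h0 : g 0 = 0
  · rw [h0, zero_smul, zero_add] at hg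
    by_cases h1 : g 1 = 0
    · have h2 : g 2 ≠ 0 := by
        obtain ⟨i, hi⟩ := hne
        fin_cases i
        · exact absurd h0 hi
        · exact absurd h1 hi
        · exact hi
      rw [h1, zero_smul, zero_add] at hg
      have h3 : b 1 0 = 0 := (smul_eq_zero.1 hg).resolve_left h2
      left
      refine ⟨![![1, 0], ![1, 0]], ![![1, 0], ![0, 1]], ![b 0 0, b 0 1], fun i j => ?_⟩
      fin_cases i <;> fin_cases j <;> simp [Fin.sum_univ_two, h, h3]
    by_cases h2 : g 2 = 0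
    · rw [h2, zero_smul, add_zero] at hg
      have h3 : b 0 1 = 0 := (smul_eq_zero.1 hg).resolve_left h1
      left
      refine ⟨![![1, 0], ![0, 1]], ![![1, 0], ![1, 0]], ![b 0 0, b 1 0], fun i j => ?_⟩
      fin_cases i <;> fin_cases j <;> simp [Fin.sum_univ_two, h, h3]
    · -- both non zero
      have hQ : IsUnit (!![-(g 2), 0; 0, g 1] : Matrix (Fin 2) (Fin 2) ℂ).det := by
        rw [Matrix.det_fin_two_of]
        exact isUnit_iff_ne_zero.2 (by simp [h1, h2])
      refine F22_G_act 1 !![-(g 2), 0; 0, g 1] (by simp) hQ b ?_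
      set b' := F22_act 1 !![-(g 2), 0; 0, g 1] b with hb'
      have e00 : b' 0 0 = -(g 2) • b 0 0 := by
        rw [hb']; simp [F22_act, Fin.sum_univ_two]
      have e01 : b' 0 1 = g 1 • b 0 1 := by
        rw [hb']; simp [F22_act, Fin.sum_univ_two]
      have e10 : b' 1 0 = -(g 2) • b 1 0 := by
        rw [hb']; simp [F22_act, Fin.sum_univ_two]
      have e11 : b' 1 1 = 0 := by
        rw [hb']; simp [F22_act, Fin.sum_univ_two, h]
      have hs : b' 0 1 = b' 1 0 := by
        rw [e01, e10, neg_smul]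
        exact eq_neg_of_add_eq_zero_left hg
      by_cases hl2 : LinearIndependent ℂ ![b' 0 0, b' 0 1]
      · exact F22_G_F _ (Or.inr (Or.inr ⟨hs, e11, hl2⟩))
      rw [Fintype.not_linearIndependent_iff] at hl2
      obtain ⟨w, hw, hwne⟩ := hl2
      simp only [Fin.sum_univ_two, Matrix.cons_val_zero, Matrix.cons_val_one] at hw
      left
      by_cases hw0 : w 0 = 0
      · have hw1 : w 1 ≠ 0 := by
          obtain ⟨i, hi⟩ := hwne
          fin_cases i
          · exact absurd hw0 hi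
          · exact hi
        rw [hw0, zero_smul, zero_add] at hw
        have h3 : b' 0 1 = 0 := (smul_eq_zero.1 hw).resolve_left hw1
        exact F22_diag _ h3 (hs ▸ h3)
      · have h3 : b' 0 0 = (-(w 1 / w 0)) • b' 0 1 := by
          have h4 : (w 0)⁻¹ • (w 0 • b' 0 0 + w 1 • b' 0 1) = 0 := by rw [hw, smul_zero]
          rw [smul_add, smul_smul, smul_smul, inv_mul_cancel₀ hw0, one_smul] at h4
          rw [eq_neg_of_add_eq_zero_left h4, neg_smul]
          congr 2
          ring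
        refine ⟨![![1, 0], ![0, 1]], ![![-(w 1 / w 0), 1], ![1, 0]], ![b' 0 1, b' 0 1],
          fun i j => ?_⟩
        fin_cases i <;> fin_cases j <;> simp [Fin.sum_univ_two, e11, ← hs]
        · simpa using h3
  · -- `g 0 ≠ 0`
    have hP : IsUnit (!![1, g 2 / g 0; 0, 1] : Matrix (Fin 2) (Fin 2) ℂ).det := by
      rw [Matrix.det_fin_two_of]; simp
    have hQ : IsUnit (!![1, g 1 / g 0; 0, 1] : Matrix (Fin 2) (Fin 2) ℂ).det := by
      rw [Matrix.det_fin_two_of]; simp
    refine F22_G_act _ _ hP hQ b ?_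
    set b' := F22_act !![1, g 2 / g 0; 0, 1] !![1, g 1 / g 0; 0, 1] b with hb'
    have e00 : b' 0 0 = 0 := by
      have h4 : (g 0)⁻¹ • (g 0 • b 0 0 + g 1 • b 0 1 + g 2 • b 1 0) = 0 := by
        rw [hg, smul_zero]
      rw [smul_add, smul_add, smul_smul, smul_smul, smul_smul, inv_mul_cancel₀ h0, one_smul] at h4
      rw [hb', ← h4]
      simp [F22_act, Fin.sum_univ_two, h, div_eq_inv_mul]
    have e11 : b' 1 1 = 0 := by
      rw [hb']; simp [F22_act, Fin.sum_univ_two, h]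
    left
    refine ⟨![![1, 0], ![0, 1]], ![![0, 1], ![1, 0]], ![b' 0 1, b' 1 0], fun i j => ?_⟩
    fin_cases i <;> fin_cases j <;> simp [Fin.sum_univ_two, e00, e11]

/-- A binary quadratic form over `ℂ` is a product of two linear forms. -/
lemma F22_factor (α β γ : ℂ) : ∃ g0 g1 h0 h1 : ℂ, g0 * h0 = α ∧ g0 * h1 + g1 * h0 = β ∧
    g1 * h1 = γ := by
  by_cases hα : α = 0
  · exact ⟨0, 1, β, γ, by simp [hα], by ring, by ring⟩
  · obtain ⟨d, hd⟩ := IsAlgClosed.exists_pow_nat_eq (β ^ 2 - 4 * α * γ) (n := 2) (by norm_num)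
    refine ⟨α, (β + d) / 2, 1, (β - d) / (2 * α), by ring, ?_, ?_⟩
    · field_simp
      ring
    · field_simp
      linear_combination (-1 : ℂ) * hd

/-- A row which is not a multiple of a given one. -/
lemma F22_row (x0 x1 : ℂ) (h : x0 ≠ 0 ∨ x1 ≠ 0) :
    ∃ y0 y1 : ℂ, IsUnit (!![y0, y1; x0, x1] : Matrix (Fin 2) (Fin 2) ℂ).det := by
  rcases h with h | h
  · refine ⟨0, 1, ?_⟩
    rw [Matrix.det_fin_two_of]
    exact isUnit_iff_ne_zero.2 (by simpa using h)
  · refine ⟨1, 0, ?_⟩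
    rw [Matrix.det_fin_two_of]
    exact isUnit_iff_ne_zero.2 (by simpa using h)

/-- A singular relation. -/
lemma F22_sing (a : Fin 2 → Fin 2 → D) (x0 x1 y0 y1 : ℂ) (hx : x0 ≠ 0 ∨ x1 ≠ 0)
    (hy : y0 ≠ 0 ∨ y1 ≠ 0)
    (h : (x0 * y0) • a 0 0 + (x0 * y1) • a 0 1 + (x1 * y0) • a 1 0 + (x1 * y1) • a 1 1 = 0) :
    F22_G a := by
  obtain ⟨p, q, hP⟩ := F22_row x0 x1 hx
  obtain ⟨p', q', hQ⟩ := F22_row y0 y1 hy
  refine F22_G_act _ _ hP hQ a (F22_B _ ?_)
  rw [← h]
  simp only [F22_act, Fin.sum_univ_two, Matrix.of_apply, Matrix.cons_val_zero,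
    Matrix.cons_val_one]
  module

/-- The symmetric case. -/
lemma F22_sym (b : Fin 2 → Fin 2 → D) (hs : b 0 1 = b 1 0) : F22_G b := by
  by_cases hli : LinearIndependent ℂ ![b 0 0, b 0 1, b 1 1]
  · exact F22_G_F _ (Or.inl ⟨hs, hli⟩)
  rw [Fintype.not_linearIndependent_iff] at hli
  obtain ⟨g, hg, hne⟩ := hli
  simp only [Fin.sum_univ_three, Matrix.cons_val_zero, Matrix.cons_val_one, Matrix.cons_val] at hg
  obtain ⟨g0, g1, h0, h1, e0, e1, e2⟩ := F22_factor (g 0) (g 1) (g 2)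
  have hrel : (g0 * h0) • b 0 0 + (g0 * h1) • b 0 1 + (g1 * h0) • b 1 0 +
      (g1 * h1) • b 1 1 = 0 := by
    rw [← hg, ← e0, ← e1, ← e2, ← hs]
    module
  have hgne : g0 ≠ 0 ∨ g1 ≠ 0 := by
    by_contra hcon
    push Not at hcon
    obtain ⟨i, hi⟩ := hne
    fin_cases i
    · exact hi (by simp [← e0, hcon.1])
    · exact hi (by simp [← e1, hcon.1, hcon.2])
    · exact hi (by simp [← e2, hcon.2])
  have hhne : h0 ≠ 0 ∨ h1 ≠ 0 := by
    by_contra hcon
    push Not at hcon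
    obtain ⟨i, hi⟩ := hne
    fin_cases i
    · exact hi (by simp [← e0, hcon.1])
    · exact hi (by simp [← e1, hcon.1, hcon.2])
    · exact hi (by simp [← e2, hcon.2])
  exact F22_sing b g0 g1 h0 h1 hgne hhne hrel

/-- Classification of `2 × 2` matrices of linear forms. -/
theorem p_F22 : P_F22 := by
  intro a
  by_cases hli : LinearIndependent ℂ ![a 0 0, a 0 1, a 1 0, a 1 1]
  · exact Or.inl hli
  right
  suffices hG : F22_G a by
    rcases hG with h | ⟨P, Q, hP, hQ, h⟩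
    · exact Or.inl h
    · exact Or.inr ⟨P, Q, hP, hQ, F22_act P Q a, fun i j => rfl, h⟩
  rw [Fintype.not_linearIndependent_iff] at hli
  obtain ⟨m, hm, hne⟩ := hli
  simp only [Fin.sum_univ_four, Matrix.cons_val_zero, Matrix.cons_val_one, Matrix.cons_val] at hm
  by_cases hdet : m 0 * m 3 - m 1 * m 2 = 0
  · -- rank one
    have hd : m 0 * m 3 = m 1 * m 2 := sub_eq_zero.1 hdet
    by_cases h0 : m 0 = 0
    · by_cases h1 : m 1 = 0
      · -- first row zero
        have hy : m 2 ≠ 0 ∨ m 3 ≠ 0 := by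
          by_contra hcon
          push Not at hcon
          obtain ⟨i, hi⟩ := hne
          fin_cases i
          · exact hi h0
          · exact hi h1
          · exact hi hcon.1
          · exact hi hcon.2
        refine F22_sing a 0 1 (m 2) (m 3) (by simp) hy ?_
        rw [← hm, h0, h1]
        module
      · -- `m 2 = 0`
        have h2 : m 2 = 0 := by
          have : m 1 * m 2 = 0 := by rw [← hd, h0, zero_mul]
          exact (mul_eq_zero.1 this).resolve_left h1
        refine F22_sing a (m 1) (m 3) 0 1 (Or.inl h1) (by simp) ?_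
        rw [← hm, h0, h2]
        module
    · refine F22_sing a (m 0) (m 2) 1 (m 1 / m 0) (Or.inl h0) (by simp) ?_
      have h3 : m 2 * (m 1 / m 0) = m 3 := by
        field_simp
        linear_combination -hd
      have h4 : m 0 * (m 1 / m 0) = m 1 := by field_simp
      rw [← hm, h3, h4]
      module
  · -- rank two
    have hQ : IsUnit (!![-(m 2), -(m 3); m 0, m 1] : Matrix (Fin 2) (Fin 2) ℂ).det := by
      rw [Matrix.det_fin_two_of]
      refine isUnit_iff_ne_zero.2 fun hcon => hdet ?_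
      linear_combination hcon
    refine F22_G_act 1 _ (by simp) hQ a (F22_sym _ ?_)
    rw [← sub_eq_zero, ← hm]
    simp only [F22_act, Fin.sum_univ_two, Matrix.of_apply, Matrix.cons_val_zero,
      Matrix.cons_val_one, Matrix.one_apply]
    simp
    module

end Pool.Agent.MR8
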