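import Pool.Agent.MR8.Defs

set_option autoImplicit false

/-!
# Quartics with a double root on every line
-/

namespace Pool.Agent.MR8

open Polynomial in
theorem FAC_bez {R : Type*} [CommRing R] [IsDomain R] [IsIntegrallyClosed R] [CharZero R]
    (f : R[X]) (hf : f.Monic) (hsq : Squarefree f) :
    ∃ (A B : R[X]) (d : R), d ≠ 0 ∧ A * f + B * derivative f = C d := by
  let K := FractionRing R
  have hinj : Function.Injective (algebraMap R K) := IsFractionRing.injective R K
  have : CharZero K := charZero_of_injective_algebraMap hinj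
  have hfm : (f.map (algebraMap R K)).Monic := hf.map _
  have hsqK : Squarefree (f.map (algebraMap R K)) := by
    intro x hx
    obtain ⟨g, hg⟩ := IsIntegrallyClosed.eq_map_mul_C_of_dvd K hf (dvd_of_mul_left_dvd hx)
    have hx0 : x ≠ 0 := by
      rintro rfl
      simp only [mul_zero, zero_dvd_iff] at hx
      exact hfm.ne_zero hx
    have hl0 : x.leadingCoeff ≠ 0 := leadingCoeff_ne_zero.mpr hx0
    have hgm : (g.map (algebraMap R K)).Monic := by
      have := congrArg leadingCoeff hg
      rw [leadingCoeff_mul, leadingCoeff_C] at this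
      exact mul_right_cancel₀ hl0 (this.trans (one_mul _).symm)
    have hgm' : g.Monic := monic_of_injective hinj hgm
    have hdvd : (g * g).map (algebraMap R K) ∣ f.map (algebraMap R K) := by
      rw [Polynomial.map_mul]
      refine dvd_trans ?_ hx
      refine mul_dvd_mul ?_ ?_ <;> exact ⟨_, hg.symm⟩
    have hd2 : g * g ∣ f := (Monic.dvd_iff_fraction_map_dvd_fraction_map (K := K) hf (hgm'.mul hgm')).mp hdvd
    have hu := hsq g hd2
    have hu1 : IsUnit (g.map (algebraMap R K)) := hu.map (mapRingHom (algebraMap R K))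
    rw [← hg]
    exact hu1.mul ((isUnit_iff_ne_zero.mpr hl0).map C)
  have hsep : (f.map (algebraMap R K)).Separable := PerfectField.separable_iff_squarefree.mpr hsqK
  obtain ⟨a, b, hab⟩ := hsep
  obtain ⟨r, hr, har⟩ := IsLocalization.integerNormalization_spec (nonZeroDivisors R) a
  obtain ⟨r', hr', hbr⟩ := IsLocalization.integerNormalization_spec (nonZeroDivisors R) b
  refine ⟨C r' * IsLocalization.integerNormalization (nonZeroDivisors R) a,
    C r * IsLocalization.integerNormalization (nonZeroDivisors R) b, r * r',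
    mul_ne_zero (nonZeroDivisors.ne_zero hr) (nonZeroDivisors.ne_zero hr'), ?_⟩
  apply Polynomial.map_injective _ hinj
  rw [Polynomial.map_add, Polynomial.map_mul, Polynomial.map_mul, Polynomial.map_mul,
    Polynomial.map_mul, har, hbr, Polynomial.map_C, Polynomial.map_C, Polynomial.map_C,
    ← Polynomial.derivative_map]
  have e1 : r • a = C (algebraMap R K r) * a := by
    rw [← Polynomial.smul_eq_C_mul, algebraMap_smul]
  have e2 : r' • b = C (algebraMap R K r') * b := by
    rw [← Polynomial.smul_eq_C_mul, algebraMap_smul]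
  rw [e1, e2, _root_.map_mul, C_mul]
  linear_combination C (algebraMap R K r) * C (algebraMap R K r') * hab

open MvPolynomial in
/-- The dilation `x ↦ X x`. -/
noncomputable def FAC_dil : MvPolynomial (Fin 4) ℂ →ₐ[ℂ] Polynomial (MvPolynomial (Fin 4) ℂ) :=
  MvPolynomial.aeval fun i => Polynomial.C (X i) * Polynomial.X

open MvPolynomial in
theorem FAC_dil_coeff (G : MvPolynomial (Fin 4) ℂ) :
    ∀ j : ℕ, ((FAC_dil G).coeff j).IsHomogeneous j := by
  induction G using MvPolynomial.induction_on with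
  | C a =>
    intro j
    have h : FAC_dil (C a) = Polynomial.C (C a) := by
      unfold FAC_dil
      rw [MvPolynomial.aeval_C]
      rfl
    rw [h, Polynomial.coeff_C]
    split_ifs with h0
    · subst h0; exact isHomogeneous_C _ _
    · exact isHomogeneous_zero _ _ _
  | add p q hp hq =>
    intro j
    rw [map_add, Polynomial.coeff_add]
    exact (hp j).add (hq j)
  | mul_X p i hp =>
    intro j
    have h : FAC_dil (p * X i) = FAC_dil p * Polynomial.C (X i) * Polynomial.X := by
      rw [map_mul]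
      unfold FAC_dil
      rw [MvPolynomial.aeval_X, mul_assoc]
    rw [h]
    cases j with
    | zero => rw [Polynomial.mul_coeff_zero, Polynomial.coeff_X_zero, mul_zero]; exact isHomogeneous_zero _ _ _
    | succ j =>
      rw [Polynomial.coeff_mul_X, Polynomial.coeff_mul_C]
      exact (hp j).mul (isHomogeneous_X _ _)

open MvPolynomial in
theorem FAC_dil_eval (G : MvPolynomial (Fin 4) ℂ) : (FAC_dil G).eval 1 = G := by
  induction G using MvPolynomial.induction_on with
  | C a =>
    have h : FAC_dil (C a) = Polynomial.C (C a) := by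
      unfold FAC_dil
      rw [MvPolynomial.aeval_C]
      rfl
    rw [h, Polynomial.eval_C]
  | add p q hp hq => rw [map_add, Polynomial.eval_add, hp, hq]
  | mul_X p i hp =>
    rw [map_mul, Polynomial.eval_mul, hp]
    unfold FAC_dil
    rw [MvPolynomial.aeval_X]
    simp

open MvPolynomial in
theorem FAC_dil_hom (F : MvPolynomial (Fin 4) ℂ) (n : ℕ) (hF : F.IsHomogeneous n) :
    FAC_dil F = Polynomial.C F * Polynomial.X ^ n := by
  have hs : ∀ d ∈ F.support, FAC_dil (monomial d (coeff d F)) =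
      Polynomial.C (monomial d (coeff d F)) * Polynomial.X ^ n := by
    intro d hd
    have hdeg : d.degree = n := by
      by_contra h
      exact (mem_support_iff.mp hd) (hF.coeff_eq_zero h)
    unfold FAC_dil
    rw [aeval_monomial, ← hdeg, Finsupp.degree_eq_sum]
    rw [Finsupp.prod_fintype _ _ (fun _ => pow_zero _)]
    simp_rw [mul_pow]
    rw [Finset.prod_mul_distrib, Finset.prod_pow_eq_pow_sum, ← mul_assoc]
    congr 1
    rw [monomial_eq, Finsupp.prod_fintype _ _ (fun _ => pow_zero _)]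
    rw [Polynomial.C_mul, map_prod]
    simp only [map_pow]
    rfl
  conv_lhs => rw [F.as_sum]
  conv_rhs => rw [F.as_sum]
  rw [map_sum, map_sum, Finset.sum_mul]
  exact Finset.sum_congr rfl hs

open MvPolynomial in
theorem FAC_split (F G H : MvPolynomial (Fin 4) ℂ) (hF : F.IsHomogeneous 4) (hF0 : F ≠ 0)
    (hG : ¬ IsUnit G) (h : F = G * G * H) :
    (∃ l g : MvPolynomial (Fin 4) ℂ, l.IsHomogeneous 1 ∧ g.IsHomogeneous 2 ∧
      F = l ^ 2 * g) ∨ ∃ q : MvPolynomial (Fin 4) ℂ, q.IsHomogeneous 2 ∧ F = q ^ 2 := by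
  have hG0 : FAC_dil G ≠ 0 := by
    intro h0
    have := FAC_dil_eval G
    rw [h0, Polynomial.eval_zero] at this
    rw [← this] at h
    simp at h
    exact hF0 h
  have hH0 : FAC_dil H ≠ 0 := by
    intro h0
    have := FAC_dil_eval H
    rw [h0, Polynomial.eval_zero] at this
    rw [← this] at h
    simp at h
    exact hF0 h
  have e : Polynomial.C F * Polynomial.X ^ 4 = FAC_dil G * FAC_dil G * FAC_dil H := by
    rw [← FAC_dil_hom F 4 hF, h, map_mul, map_mul]
  have hdeg : 4 = (FAC_dil G).natDegree + (FAC_dil G).natDegree + (FAC_dil H).natDegree := by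
    have := congrArg Polynomial.natDegree e
    rw [Polynomial.natDegree_C_mul_X_pow 4 F hF0, Polynomial.natDegree_mul (mul_ne_zero hG0 hG0) hH0,
      Polynomial.natDegree_mul hG0 hG0] at this
    exact this
  have hlc : F = (FAC_dil G).leadingCoeff * (FAC_dil G).leadingCoeff * (FAC_dil H).leadingCoeff := by
    have := congrArg Polynomial.leadingCoeff e
    rw [Polynomial.leadingCoeff_mul, Polynomial.leadingCoeff_mul, Polynomial.leadingCoeff_mul,
      Polynomial.leadingCoeff_C, Polynomial.leadingCoeff_X_pow, mul_one] at this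
    exact this
  have hn0 : (FAC_dil G).natDegree ≠ 0 := by
    intro h0
    apply hG
    rw [Polynomial.natDegree_eq_zero] at h0
    obtain ⟨c, hc⟩ := h0
    have h1 := FAC_dil_coeff G 0
    rw [← hc, Polynomial.coeff_C_zero] at h1
    have h2 := FAC_dil_eval G
    rw [← hc, Polynomial.eval_C] at h2
    rw [h2] at h1
    have h3 : G.totalDegree = 0 := by
      have := h1.totalDegree_le
      omega
    rw [MvPolynomial.totalDegree_eq_zero_iff_eq_C] at h3
    rw [h3]
    apply IsUnit.map
    rw [isUnit_iff_ne_zero]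
    intro h4
    rw [h4, map_zero] at h3
    apply hG0
    rw [h3, map_zero]
  have hGh : (FAC_dil G).leadingCoeff.IsHomogeneous (FAC_dil G).natDegree := FAC_dil_coeff G _
  have hHh : (FAC_dil H).leadingCoeff.IsHomogeneous (FAC_dil H).natDegree := FAC_dil_coeff H _
  have hcase : (FAC_dil G).natDegree = 1 ∧ (FAC_dil H).natDegree = 2 ∨
      (FAC_dil G).natDegree = 2 ∧ (FAC_dil H).natDegree = 0 := by omega
  rcases hcase with ⟨h1, h2⟩ | ⟨h1, h2⟩
  · left
    rw [h1] at hGh
    rw [h2] at hHh
    exact ⟨_, _, hGh, hHh, by rw [sq]; exact hlc⟩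
  · right
    rw [h1] at hGh
    rw [h2] at hHh
    have h3 : (FAC_dil H).leadingCoeff.totalDegree = 0 := by
      have := hHh.totalDegree_le
      omega
    rw [MvPolynomial.totalDegree_eq_zero_iff_eq_C] at h3
    obtain ⟨z, hz⟩ := IsAlgClosed.exists_pow_nat_eq (coeff 0 (FAC_dil H).leadingCoeff) (n := 2) (by norm_num)
    refine ⟨(FAC_dil G).leadingCoeff * C z, ?_, ?_⟩
    · have := hGh.mul (isHomogeneous_C (Fin 4) z)
      simpa using this
    · rw [mul_pow, ← map_pow, hz, ← h3, sq]
      exact hlc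

open MvPolynomial in
/-- The base point of the line. -/
noncomputable def FAC_base : Fin 4 → MvPolynomial (Fin 3) ℂ := Fin.cons 0 fun j => X j

open MvPolynomial in
/-- The shear `x ↦ (0, x') + X v`. -/
noncomputable def FAC_sh (v : Fin 4 → ℂ) :
    MvPolynomial (Fin 4) ℂ →ₐ[ℂ] Polynomial (MvPolynomial (Fin 3) ℂ) :=
  MvPolynomial.aeval fun i => Polynomial.C (FAC_base i) + Polynomial.C (C (v i)) * Polynomial.X

open MvPolynomial in
/-- The inverse of the shear. -/
noncomputable def FAC_inv (v : Fin 4 → ℂ) :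
    Polynomial (MvPolynomial (Fin 3) ℂ) →+* MvPolynomial (Fin 4) ℂ :=
  Polynomial.eval₂RingHom
    (MvPolynomial.aeval (R := ℂ) (fun j : Fin 3 =>
      (X j.succ - C (v j.succ * (v 0)⁻¹) * X 0 : MvPolynomial (Fin 4) ℂ))).toRingHom
    (C (v 0)⁻¹ * X 0)

open MvPolynomial in
theorem FAC_sh_C (v : Fin 4 → ℂ) (a : ℂ) : FAC_sh v (C a) = Polynomial.C (C a) := by
  unfold FAC_sh
  rw [MvPolynomial.aeval_C]
  rfl

open MvPolynomial in
theorem FAC_sh_X (v : Fin 4 → ℂ) (i : Fin 4) :
    FAC_sh v (X i) = Polynomial.C (FAC_base i) + Polynomial.C (C (v i)) * Polynomial.X := by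
  unfold FAC_sh
  rw [MvPolynomial.aeval_X]

open MvPolynomial in
theorem FAC_inv_sh (v : Fin 4 → ℂ) (hv : v 0 ≠ 0) (F : MvPolynomial (Fin 4) ℂ) :
    FAC_inv v (FAC_sh v F) = F := by
  induction F using MvPolynomial.induction_on with
  | C a =>
    rw [FAC_sh_C]
    unfold FAC_inv
    simp
  | add p q hp hq => rw [map_add, map_add, hp, hq]
  | mul_X p i hp =>
    rw [map_mul, map_mul, hp]
    congr 1
    rw [FAC_sh_X]
    unfold FAC_inv FAC_base
    refine Fin.cases ?_ (fun j => ?_) i
    · simp only [Fin.cons_zero, Polynomial.coe_eval₂RingHom, Polynomial.eval₂_add,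
        Polynomial.eval₂_mul, Polynomial.eval₂_C, Polynomial.eval₂_X]
      simp only [AlgHom.toRingHom_eq_coe, RingHom.coe_coe, map_zero, zero_add, aeval_C]
      rw [algebraMap_eq, ← mul_assoc, ← C_mul, mul_inv_cancel₀ hv, C_1, one_mul]
    · simp only [Fin.cons_succ, Polynomial.coe_eval₂RingHom, Polynomial.eval₂_add,
        Polynomial.eval₂_mul, Polynomial.eval₂_C, Polynomial.eval₂_X]
      simp only [AlgHom.toRingHom_eq_coe, RingHom.coe_coe, aeval_X, aeval_C]
      simp only [C_mul, algebraMap_eq]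
      ring

open MvPolynomial in
theorem FAC_sh_inv (v : Fin 4 → ℂ) (hv : v 0 ≠ 0) (g : Polynomial (MvPolynomial (Fin 3) ℂ)) :
    FAC_sh v (FAC_inv v g) = g := by
  have h : ((FAC_sh v).toRingHom.comp (FAC_inv v)) = RingHom.id _ := by
    apply Polynomial.ringHom_ext
    · intro a
      induction a using MvPolynomial.induction_on with
      | C a =>
        simp only [RingHom.comp_apply]
        unfold FAC_inv
        simp only [Polynomial.coe_eval₂RingHom, Polynomial.eval₂_C, AlgHom.toRingHom_eq_coe,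
          RingHom.coe_coe, aeval_C, algebraMap_eq]
        rw [FAC_sh_C]
        rfl
      | add p q hp hq =>
        rw [Polynomial.C_add, map_add, map_add, hp, hq]
      | mul_X p i hp =>
        rw [Polynomial.C_mul, map_mul, map_mul, hp]
        congr 1
        simp only [RingHom.comp_apply]
        unfold FAC_inv
        simp only [Polynomial.coe_eval₂RingHom, Polynomial.eval₂_C, AlgHom.toRingHom_eq_coe,
          RingHom.coe_coe, aeval_X]
        rw [map_sub, map_mul, FAC_sh_C, FAC_sh_X, FAC_sh_X]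
        unfold FAC_base
        simp only [Fin.cons_succ, Fin.cons_zero, Polynomial.C_0, zero_add]
        rw [← mul_assoc, ← Polynomial.C_mul, ← C_mul, inv_mul_cancel_right₀ hv]
        simp
    · simp only [RingHom.comp_apply]
      unfold FAC_inv
      simp only [Polynomial.coe_eval₂RingHom, Polynomial.eval₂_X, AlgHom.toRingHom_eq_coe,
        RingHom.coe_coe]
      rw [map_mul, FAC_sh_C, FAC_sh_X]
      unfold FAC_base
      simp only [Fin.cons_zero, Polynomial.C_0, zero_add]
      rw [← mul_assoc, ← Polynomial.C_mul, ← C_mul, inv_mul_cancel₀ hv]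
      simp
  have := congrArg (fun φ : Polynomial (MvPolynomial (Fin 3) ℂ) →+* _ => φ g) h
  exact this

open MvPolynomial in
theorem FAC_sh_eval (v : Fin 4 → ℂ) (F : MvPolynomial (Fin 4) ℂ) (u : Fin 3 → ℂ) (y : ℂ) :
    ((FAC_sh v F).map (eval u)).eval y = eval (fun i => (Fin.cons 0 u : Fin 4 → ℂ) i + y * v i) F := by
  induction F using MvPolynomial.induction_on with
  | C a => rw [FAC_sh_C]; simp
  | add p q hp hq =>
    rw [map_add, Polynomial.map_add, Polynomial.eval_add, hp, hq, map_add]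
  | mul_X p i hp =>
    rw [map_mul, Polynomial.map_mul, Polynomial.eval_mul, hp, map_mul, FAC_sh_X]
    congr 1
    unfold FAC_base
    refine Fin.cases ?_ (fun j => ?_) i
    · simp only [Fin.cons_zero, Polynomial.map_add, Polynomial.map_mul, Polynomial.map_C,
        Polynomial.map_X, Polynomial.eval_add, Polynomial.eval_mul, Polynomial.eval_C,
        Polynomial.eval_X, eval_C, map_zero, eval_X, Polynomial.map_zero, Polynomial.eval_zero]
      ring
    · simp only [Fin.cons_succ, Polynomial.map_add, Polynomial.map_mul, Polynomial.map_C,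
        Polynomial.map_X, Polynomial.eval_add, Polynomial.eval_mul, Polynomial.eval_C,
        Polynomial.eval_X, eval_C, eval_X]
      ring

open MvPolynomial in
theorem FAC_sh_top (v : Fin 4 → ℂ) (F : MvPolynomial (Fin 4) ℂ) (n : ℕ) (hF : F.IsHomogeneous n) :
    (FAC_sh v F).natDegree ≤ n ∧ (FAC_sh v F).coeff n = C (eval v F) := by
  have hlin : ∀ i, (FAC_sh v (X i)).natDegree ≤ 1 ∧ (FAC_sh v (X i)).coeff 1 = C (v i) := by
    intro i
    rw [FAC_sh_X]
    constructor
    · compute_degree
    · simp [Polynomial.coeff_C]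
  have hprod : ∀ (d : Fin 4 →₀ ℕ) (s : Finset (Fin 4)),
      (∏ i ∈ s, (FAC_sh v (X i)) ^ d i).natDegree ≤ ∑ i ∈ s, d i ∧
      (∏ i ∈ s, (FAC_sh v (X i)) ^ d i).coeff (∑ i ∈ s, d i) = ∏ i ∈ s, C (v i) ^ d i := by
    intro d s
    induction s using Finset.induction_on with
    | empty => simp
    | insert a s ha ih =>
      rw [Finset.prod_insert ha, Finset.sum_insert ha, Finset.prod_insert ha]
      have h1 : ((FAC_sh v (X a)) ^ d a).natDegree ≤ d a := by
        refine (Polynomial.natDegree_pow_le).trans ?_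
        calc d a * (FAC_sh v (X a)).natDegree ≤ d a * 1 := Nat.mul_le_mul_left _ (hlin a).1
          _ = d a := mul_one _
      refine ⟨(Polynomial.natDegree_mul_le).trans (add_le_add h1 ih.1), ?_⟩
      rw [Polynomial.coeff_mul_add_eq_of_natDegree_le h1 ih.1, ih.2]
      congr 1
      have := Polynomial.coeff_pow_of_natDegree_le (m := d a) (hlin a).1
      rw [mul_one] at this
      rw [this, (hlin a).2]
  have hmon : ∀ d ∈ F.support, (FAC_sh v (monomial d (coeff d F))).natDegree ≤ n ∧
      (FAC_sh v (monomial d (coeff d F))).coeff n = C (eval v (monomial d (coeff d F))) := by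
    intro d hd
    have hdeg : d.degree = n := by
      by_contra h
      exact (mem_support_iff.mp hd) (hF.coeff_eq_zero h)
    have hdeg' : ∑ i, d i = n := by rw [← hdeg, Finsupp.degree_eq_sum]
    have e : FAC_sh v (monomial d (coeff d F)) =
        Polynomial.C (C (coeff d F)) * ∏ i, (FAC_sh v (X i)) ^ d i := by
      rw [monomial_eq, map_mul, FAC_sh_C, Finsupp.prod_fintype _ _ (fun _ => pow_zero _), map_prod]
      simp only [map_pow]
    obtain ⟨h1, h2⟩ := hprod d Finset.univ
    rw [hdeg'] at h1 h2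
    rw [e]
    refine ⟨(Polynomial.natDegree_C_mul_le _ _).trans h1, ?_⟩
    rw [Polynomial.coeff_C_mul, h2, eval_monomial, Finsupp.prod_fintype _ _ (fun _ => pow_zero _),
      C_mul, map_prod]
    simp only [map_pow]
  rw [F.as_sum, map_sum]
  constructor
  · exact Polynomial.natDegree_sum_le_of_forall_le _ _ (fun d hd => (hmon d hd).1)
  · rw [Polynomial.finsetSum_coeff, map_sum, map_sum]
    exact Finset.sum_congr rfl (fun d hd => (hmon d hd).2)

open MvPolynomial in
theorem FAC_eval_smul (F : MvPolynomial (Fin 4) ℂ) (n : ℕ) (hF : F.IsHomogeneous n) (z : ℂ)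
    (w : Fin 4 → ℂ) : eval (z • w) F = z ^ n * eval w F := by
  rw [eval_eq', eval_eq', Finset.mul_sum]
  refine Finset.sum_congr rfl fun d hd => ?_
  have hdeg : d.degree = n := by
    by_contra h
    exact (mem_support_iff.mp hd) (hF.coeff_eq_zero h)
  simp only [Pi.smul_apply, smul_eq_mul, mul_pow]
  rw [Finset.prod_mul_distrib, Finset.prod_pow_eq_pow_sum, ← hdeg, Finsupp.degree_eq_sum]
  ring

theorem FAC_alg (c0 c1 c2 c3 c4 s t s' t' a b c : ℂ) (hs : s ≠ 0) (hd : s * t' - t * s' ≠ 0)
    (h : ∀ ε : ℂ, c0 * (s + ε * s') ^ 4 + c1 * (t + ε * t') * (s + ε * s') ^ 3 +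
      c2 * (t + ε * t') ^ 2 * (s + ε * s') ^ 2 + c3 * (t + ε * t') ^ 3 * (s + ε * s') +
      c4 * (t + ε * t') ^ 4 = ε ^ 2 * (a + b * ε + c * ε ^ 2)) :
    c0 + c1 * (t / s) + c2 * (t / s) ^ 2 + c3 * (t / s) ^ 3 + c4 * (t / s) ^ 4 = 0 ∧
      c1 + 2 * c2 * (t / s) + 3 * c3 * (t / s) ^ 2 + 4 * c4 * (t / s) ^ 3 = 0 := by
  have h0 := h 0
  have h1 := h 1
  have h2 := h (-1)
  have h3 := h 2
  have h4 := h (-2)
  have e0 : c0 * s ^ 4 + c1 * t * s ^ 3 + c2 * t ^ 2 * s ^ 2 + c3 * t ^ 3 * s + c4 * t ^ 4 = 0 := by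
    linear_combination h0
  have eD : t' * (c1 * s ^ 3 + 2 * c2 * t * s ^ 2 + 3 * c3 * t ^ 2 * s + 4 * c4 * t ^ 3) +
      s' * (4 * c0 * s ^ 3 + 3 * c1 * t * s ^ 2 + 2 * c2 * t ^ 2 * s + c3 * t ^ 3) = 0 := by
    linear_combination (1 / 12 : ℂ) * (8 * (h1 - h2) - (h3 - h4))
  have eV : c1 * s ^ 3 + 2 * c2 * t * s ^ 2 + 3 * c3 * t ^ 2 * s + 4 * c4 * t ^ 3 = 0 := by
    have : (s * t' - t * s') *
        (c1 * s ^ 3 + 2 * c2 * t * s ^ 2 + 3 * c3 * t ^ 2 * s + 4 * c4 * t ^ 3) = 0 := by
      linear_combination s * eD - 4 * s' * e0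
    exact (mul_eq_zero.mp this).resolve_left hd
  constructor
  · field_simp
    linear_combination e0
  · field_simp
    linear_combination eV

open MvPolynomial in
theorem FAC_nsq (F : MvPolynomial (Fin 4) ℂ) (hF : F.IsHomogeneous 4) (hSC : SC F) (hF0 : F ≠ 0) :
    ∃ G, G * G ∣ F ∧ ¬ IsUnit G := by
  by_contra hcon
  push Not at hcon
  have hv : ∃ v : Fin 4 → ℂ, eval v (F * X 0) ≠ 0 := by
    by_contra h
    push Not at h
    have : F * X 0 = 0 := MvPolynomial.funext fun v => by rw [h v, map_zero]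
    exact (mul_ne_zero hF0 (X_ne_zero 0)) this
  obtain ⟨v, hv⟩ := hv
  rw [map_mul, eval_X] at hv
  have hFv : eval v F ≠ 0 := left_ne_zero_of_mul hv
  have hv0 : v 0 ≠ 0 := right_ne_zero_of_mul hv
  obtain ⟨htop1, htop2⟩ := FAC_sh_top v F 4 hF
  set f := FAC_sh v F with hf
  set k : Polynomial (MvPolynomial (Fin 3) ℂ) := Polynomial.C (C (eval v F)⁻¹) with hk
  have hkk : Polynomial.C (C (eval v F)) * (k * f) = f := by
    rw [hk, ← mul_assoc, ← Polynomial.C_mul, ← C_mul, mul_inv_cancel₀ hFv, C_1, Polynomial.C_1,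
      one_mul]
  have hmon : (k * f).Monic := by
    refine Polynomial.monic_of_natDegree_le_of_coeff_eq_one 4
      ((Polynomial.natDegree_C_mul_le _ _).trans htop1) ?_
    rw [hk, Polynomial.coeff_C_mul, htop2, ← C_mul, inv_mul_cancel₀ hFv, C_1]
  have hsq : Squarefree (k * f) := by
    intro x hx
    have h1 : x * x ∣ f := by
      rw [← hkk]
      exact hx.mul_left _
    have h2 : FAC_inv v x * FAC_inv v x ∣ F := by
      have := map_dvd (FAC_inv v) h1
      rw [map_mul, hf, FAC_inv_sh v hv0] at this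
      exact this
    have h3 := (hcon _ h2).map (FAC_sh v)
    rwa [FAC_sh_inv v hv0] at h3
  obtain ⟨A, B, d, hd, hAB⟩ := FAC_bez (k * f) hmon hsq
  have hu : ∃ u : Fin 3 → ℂ, eval u (d * X 0) ≠ 0 := by
    by_contra h
    push Not at h
    have : d * X 0 = 0 := MvPolynomial.funext fun v => by rw [h v, map_zero]
    exact (mul_ne_zero hd (X_ne_zero 0)) this
  obtain ⟨u, hu⟩ := hu
  rw [map_mul, eval_X] at hu
  have hdu : eval u d ≠ 0 := left_ne_zero_of_mul hu
  have hu0 : u 0 ≠ 0 := right_ne_zero_of_mul hu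
  set p : Polynomial ℂ := f.map (eval u) with hp
  have hpdeg : p.natDegree < 5 := by
    have := (Polynomial.natDegree_map_le (f := eval u) (p := f)).trans htop1
    rw [hp]
    omega
  have hp5 : p = Polynomial.C (p.coeff 0) + Polynomial.C (p.coeff 1) * Polynomial.X +
      Polynomial.C (p.coeff 2) * Polynomial.X ^ 2 + Polynomial.C (p.coeff 3) * Polynomial.X ^ 3 +
      Polynomial.C (p.coeff 4) * Polynomial.X ^ 4 := by
    conv_lhs => rw [p.as_sum_range' 5 hpdeg]
    simp [Finset.sum_range_succ, ← Polynomial.C_mul_X_pow_eq_monomial]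
  have hp4 : p.coeff 4 = eval v F := by
    rw [hp, Polynomial.coeff_map, htop2, eval_C]
  have hpe : ∀ y, p.eval y = p.coeff 0 + p.coeff 1 * y + p.coeff 2 * y ^ 2 + p.coeff 3 * y ^ 3 +
      p.coeff 4 * y ^ 4 := by
    intro y
    conv_lhs => rw [hp5]
    simp
  have hpd : ∀ y, p.derivative.eval y = p.coeff 1 + 2 * p.coeff 2 * y + 3 * p.coeff 3 * y ^ 2 +
      4 * p.coeff 4 * y ^ 3 := by
    intro y
    conv_lhs => rw [hp5]
    simp
    ring
  set U : Fin 4 → ℂ := Fin.cons 0 u with hU
  have hline : ∀ S T : ℂ, eval (S • U + T • v) F = p.coeff 0 * S ^ 4 + p.coeff 1 * T * S ^ 3 +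
      p.coeff 2 * T ^ 2 * S ^ 2 + p.coeff 3 * T ^ 3 * S + p.coeff 4 * T ^ 4 := by
    intro S T
    by_cases hS : S = 0
    · subst hS
      rw [zero_smul, zero_add, FAC_eval_smul F 4 hF, hp4]
      ring
    · have h1 : S • U + T • v = S • (fun i => U i + (T / S) * v i) := by
        funext i
        simp only [Pi.add_apply, Pi.smul_apply, smul_eq_mul]
        field_simp
      rw [h1, FAC_eval_smul F 4 hF, hU, ← FAC_sh_eval v F u (T / S), ← hf, ← hp, hpe]
      field_simp
  have hLI : LinearIndependent ℂ ![U, v] := by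
    rw [LinearIndependent.pair_iff]
    intro x y hxy
    have h0 := congrFun hxy 0
    simp only [Pi.add_apply, Pi.smul_apply, smul_eq_mul, hU, Fin.cons_zero, mul_zero, zero_add,
      Pi.zero_apply] at h0
    have hy : y = 0 := (mul_eq_zero.mp h0).resolve_right hv0
    have h1 := congrFun hxy 1
    have hU1 : U 1 = u 0 := by rw [hU]; rfl
    simp only [Pi.add_apply, Pi.smul_apply, smul_eq_mul, hU1, hy, zero_mul, add_zero,
      Pi.zero_apply] at h1
    exact ⟨(mul_eq_zero.mp h1).resolve_right hu0, hy⟩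
  obtain ⟨s, t, s', t', hst, a, b, c, habc⟩ := hSC U v hLI
  have hs : s ≠ 0 := by
    rintro rfl
    have h0 := habc 0
    have e1 : (0 : ℂ) • U + t • v + (0 : ℂ) • (s' • U + t' • v) = t • v := by simp
    rw [e1, FAC_eval_smul F 4 hF] at h0
    have ht : t ≠ 0 := by
      rintro rfl
      apply hst
      ring
    have : t ^ 4 * eval v F ≠ 0 := mul_ne_zero (pow_ne_zero _ ht) hFv
    apply this
    rw [h0]
    ring
  have hh : ∀ ε : ℂ, p.coeff 0 * (s + ε * s') ^ 4 + p.coeff 1 * (t + ε * t') * (s + ε * s') ^ 3 +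
      p.coeff 2 * (t + ε * t') ^ 2 * (s + ε * s') ^ 2 +
      p.coeff 3 * (t + ε * t') ^ 3 * (s + ε * s') +
      p.coeff 4 * (t + ε * t') ^ 4 = ε ^ 2 * (a + b * ε + c * ε ^ 2) := by
    intro ε
    rw [← habc ε, ← hline]
    congr 1
    congr 1
    funext i
    simp only [Pi.add_apply, Pi.smul_apply, smul_eq_mul]
    ring
  obtain ⟨r1, r2⟩ := FAC_alg _ _ _ _ _ s t s' t' a b c hs hst hh
  have hz := congrArg (fun q : Polynomial (MvPolynomial (Fin 3) ℂ) =>
    (q.map (eval u)).eval (t / s)) hAB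
  simp only [hk, Polynomial.map_add, Polynomial.map_mul, Polynomial.map_C, Polynomial.eval_add,
    Polynomial.eval_mul, Polynomial.eval_C, eval_C, ← Polynomial.derivative_map, ← hp,
    Polynomial.derivative_C_mul] at hz
  rw [hpe, hpd, r1, r2] at hz
  apply hdu
  rw [← hz]
  ring

theorem p_FAC : P_FAC := by
  intro F hF hSC
  by_cases hF0 : F = 0
  · exact Or.inl hF0
  · right
    obtain ⟨G, ⟨H, hH⟩, hG⟩ := FAC_nsq F hF hSC hF0
    exact FAC_split F G H hF hF0 hG hH

end Pool.Agent.MR8
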