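import Pool.Agent.MR8.Defs

set_option autoImplicit false

namespace Pool.Agent.MR8

/-- A linear form in four variables. -/
lemma FINB_deg1 {q : MvPolynomial (Fin 4) ℂ} (hq : q.IsHomogeneous 1) :
    ∃ c : Fin 4 → ℂ, ∀ z : V, MvPolynomial.eval z q = ∑ i, c i * z i := by
  classical
  have key : ∀ s : Finset (Fin 4 →₀ ℕ), s ⊆ q.support → ∃ c : Fin 4 → ℂ, ∀ z : V,
      ∑ d ∈ s, MvPolynomial.coeff d q * ∏ i, z i ^ d i = ∑ i, c i * z i := by
    intro s
    induction s using Finset.induction_on with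
    | empty => exact fun _ => ⟨0, fun z => by simp⟩
    | insert d s hd ih =>
      intro hs
      obtain ⟨c, hc⟩ := ih fun x hx => hs (Finset.mem_insert_of_mem hx)
      have h1 : MvPolynomial.coeff d q ≠ 0 :=
        MvPolynomial.mem_support_iff.mp (hs (Finset.mem_insert_self d s))
      have h2 := hq h1
      simp only [Finsupp.weight_apply, Pi.one_apply, smul_eq_mul, mul_one] at h2
      rw [Finsupp.sum_fintype _ _ (fun _ => rfl)] at h2
      have h3 : ∃ i, ∀ z : V, ∏ k, z k ^ d k = z i := by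
        simp only [Fin.sum_univ_four] at h2
        simp only [Fin.prod_univ_four]
        generalize d 0 = n0 at *
        generalize d 1 = n1 at *
        generalize d 2 = n2 at *
        generalize d 3 = n3 at *
        have b0 : n0 ≤ 1 := by omega
        have b1 : n1 ≤ 1 := by omega
        have b2 : n2 ≤ 1 := by omega
        have b3 : n3 ≤ 1 := by omega
        interval_cases n0 <;> interval_cases n1 <;> interval_cases n2 <;>
          interval_cases n3 <;> first
            | omega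
            | (refine ⟨0, fun z => ?_⟩; simp; done)
            | (refine ⟨1, fun z => ?_⟩; simp; done)
            | (refine ⟨2, fun z => ?_⟩; simp; done)
            | (refine ⟨3, fun z => ?_⟩; simp; done)
      obtain ⟨i, hi⟩ := h3
      refine ⟨c + Pi.single i (MvPolynomial.coeff d q), fun z => ?_⟩
      rw [Finset.sum_insert hd, hc, hi]
      simp only [Pi.add_apply, add_mul, Finset.sum_add_distrib]
      rw [add_comm]
      congr 1
      rw [Finset.sum_eq_single i]
      · simp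
      · intro j _ hj
        simp [Pi.single_eq_of_ne hj]
      · simp
  obtain ⟨c, hc⟩ := key q.support (fun _ h => h)
  exact ⟨c, fun z => by rw [MvPolynomial.eval_eq', hc]⟩

/-- A quadratic form in four variables. -/
lemma FINB_deg2 {q : MvPolynomial (Fin 4) ℂ} (hq : q.IsHomogeneous 2) :
    ∃ c : Fin 4 → Fin 4 → ℂ, ∀ z : V,
      MvPolynomial.eval z q = ∑ i, ∑ j, c i j * (z i * z j) := by
  classical
  have key : ∀ s : Finset (Fin 4 →₀ ℕ), s ⊆ q.support → ∃ c : Fin 4 → Fin 4 → ℂ, ∀ z : V,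
      ∑ d ∈ s, MvPolynomial.coeff d q * ∏ i, z i ^ d i =
        ∑ i, ∑ j, c i j * (z i * z j) := by
    intro s
    induction s using Finset.induction_on with
    | empty => exact fun _ => ⟨0, fun z => by simp⟩
    | insert d s hd ih =>
      intro hs
      obtain ⟨c, hc⟩ := ih fun x hx => hs (Finset.mem_insert_of_mem hx)
      have h1 : MvPolynomial.coeff d q ≠ 0 :=
        MvPolynomial.mem_support_iff.mp (hs (Finset.mem_insert_self d s))
      have h2 := hq h1
      simp only [Finsupp.weight_apply, Pi.one_apply, smul_eq_mul, mul_one] at h2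
      rw [Finsupp.sum_fintype _ _ (fun _ => rfl)] at h2
      have h3 : ∃ i j, ∀ z : V, ∏ k, z k ^ d k = z i * z j := by
        simp only [Fin.sum_univ_four] at h2
        simp only [Fin.prod_univ_four]
        generalize d 0 = n0 at *
        generalize d 1 = n1 at *
        generalize d 2 = n2 at *
        generalize d 3 = n3 at *
        have b0 : n0 ≤ 2 := by omega
        have b1 : n1 ≤ 2 := by omega
        have b2 : n2 ≤ 2 := by omega
        have b3 : n3 ≤ 2 := by omega
        interval_cases n0 <;> interval_cases n1 <;> interval_cases n2 <;>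
          interval_cases n3 <;> first
            | omega
            | (refine ⟨0, 0, fun z => ?_⟩; simp [pow_two]; done)
            | (refine ⟨1, 1, fun z => ?_⟩; simp [pow_two]; done)
            | (refine ⟨2, 2, fun z => ?_⟩; simp [pow_two]; done)
            | (refine ⟨3, 3, fun z => ?_⟩; simp [pow_two]; done)
            | (refine ⟨0, 1, fun z => ?_⟩; simp; done)
            | (refine ⟨0, 2, fun z => ?_⟩; simp; done)
            | (refine ⟨0, 3, fun z => ?_⟩; simp; done)
            | (refine ⟨1, 2, fun z => ?_⟩; simp; done)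
            | (refine ⟨1, 3, fun z => ?_⟩; simp; done)
            | (refine ⟨2, 3, fun z => ?_⟩; simp; done)
      obtain ⟨i, j, hi⟩ := h3
      refine ⟨c + Pi.single i (Pi.single j (MvPolynomial.coeff d q)), fun z => ?_⟩
      rw [Finset.sum_insert hd, hc, hi]
      simp only [Pi.add_apply, add_mul, Finset.sum_add_distrib]
      rw [add_comm]
      congr 1
      rw [Finset.sum_eq_single i]
      · rw [Finset.sum_eq_single j]
        · simp
        · intro k _ hk
          simp [Pi.single_eq_of_ne hk]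
        · simp
      · intro k _ hk
        simp [Pi.single_eq_of_ne hk]
      · simp
  obtain ⟨c, hc⟩ := key q.support (fun _ h => h)
  exact ⟨c, fun z => by rw [MvPolynomial.eval_eq', hc]⟩

/-- The rank does not depend on the order of the arguments. -/
lemma FINB_sw {T : Tri} {r : ℕ} (h : RK r (sw T)) : RK r T := by
  obtain ⟨α, β, γ, h⟩ := h
  refine ⟨β, α, γ, fun x y w => ?_⟩
  rw [← sw_apply, h]
  exact Finset.sum_congr rfl fun i _ => by ring

/-- The determinant. -/
lemma FINB_det (m a b c d e f g z0 z1 z2 z3 : ℂ) :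
    (Matrix.of ![![0, 0, z3, z1], ![0, z3, z2 + a * z3, z0],
      ![z3, m * z1 + b * z3, c * z3, z2 + d * z3],
      ![z2, z0 + e * z3, z1 + f * z3, g * z3]]).det =
    z0 ^ 2 * z3 ^ 2 + m * z1 ^ 2 * z2 ^ 2 - (1 + m) * z0 * z1 * z2 * z3 + z1 ^ 2 * z3 ^ 2 +
      z2 ^ 2 * z3 ^ 2 - a * z0 * z1 * z3 ^ 2 - b * z0 * z2 * z3 ^ 2 + e * z0 * z3 ^ 3 +
      a * m * z1 ^ 2 * z2 * z3 + b * z1 * z2 ^ 2 * z3 + (a * b - c - e) * z1 * z2 * z3 ^ 2 +
      (f - a * e) * z1 * z3 ^ 3 + d * z2 * z3 ^ 3 - g * z3 ^ 4 := by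
  simp only [Matrix.det_succ_row_zero, Fin.sum_univ_succ, Matrix.det_fin_zero]
  simp [Fin.succAbove, Matrix.submatrix]
  ring

/-- Coefficients of the polynomial identity. -/
lemma FINB_coef (k1 k2 k3 k4 k5 k6 k7 k8 k9 k10 k11 k12 k13 k14 : ℂ)
    (h : ∀ x y z : ℂ, k1 * x ^ 2 + k2 * x * y * z + k3 * y ^ 2 * z ^ 2 + k4 * x + k5 * y ^ 2 +
      k6 * z ^ 2 + k7 * x * y + k8 * x * z + k9 * y ^ 2 * z + k10 * y * z ^ 2 +
      k11 * y * z + k12 * y + k13 * z + k14 = 0) :
    k1 = 0 ∧ k2 = 0 ∧ k3 = 0 ∧ k4 = 0 ∧ k5 = 0 ∧ k6 = 0 ∧ k7 = 0 ∧ k8 = 0 ∧ k9 = 0 ∧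
      k10 = 0 ∧ k11 = 0 ∧ k12 = 0 ∧ k13 = 0 ∧ k14 = 0 := by
  have e14 : k14 = 0 := by linear_combination h 0 0 0
  have e1 : k1 = 0 := by linear_combination (h 1 0 0 + h (-1) 0 0) / 2 - e14
  have e4 : k4 = 0 := by linear_combination (h 1 0 0 - h (-1) 0 0) / 2
  have e5 : k5 = 0 := by linear_combination (h 0 1 0 + h 0 (-1) 0) / 2 - e14
  have e12 : k12 = 0 := by linear_combination (h 0 1 0 - h 0 (-1) 0) / 2
  have e6 : k6 = 0 := by linear_combination (h 0 0 1 + h 0 0 (-1)) / 2 - e14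
  have e13 : k13 = 0 := by linear_combination (h 0 0 1 - h 0 0 (-1)) / 2
  have e7 : k7 = 0 := by linear_combination h 1 1 0 - e1 - e4 - e5 - e12 - e14
  have e8 : k8 = 0 := by linear_combination h 1 0 1 - e1 - e4 - e6 - e13 - e14
  have e3 : k3 = 0 := by
    linear_combination (h 0 1 1 + h 0 (-1) 1 + h 0 1 (-1) + h 0 (-1) (-1)) / 4 - e5 - e6 - e14
  have e9 : k9 = 0 := by
    linear_combination (h 0 1 1 + h 0 (-1) 1 - h 0 1 (-1) - h 0 (-1) (-1)) / 4 - e13
  have e10 : k10 = 0 := by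
    linear_combination (h 0 1 1 - h 0 (-1) 1 + h 0 1 (-1) - h 0 (-1) (-1)) / 4 - e12
  have e11 : k11 = 0 := by
    linear_combination (h 0 1 1 - h 0 (-1) 1 - h 0 1 (-1) + h 0 (-1) (-1)) / 4
  have e2 : k2 = 0 := by
    linear_combination h 1 1 1 - e1 - e3 - e4 - e5 - e6 - e7 - e8 - e9 - e10 - e11 - e12 -
      e13 - e14
  exact ⟨e1, e2, e3, e4, e5, e6, e7, e8, e9, e10, e11, e12, e13, e14⟩

theorem p_FINB (h1 : P_FAC) (h2 : P_DET) : P_FINB := by
  intro T hT m a b c d e f g hm hE
  obtain ⟨x, y, w, hx, hy, hw, h⟩ := hE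
  obtain ⟨F, hF4, hSC, hF⟩ := h2 (sw T) (fun hh => hT (FINB_sw hh)) y x w hy
  have hD : ∀ z : V, MvPolynomial.eval z F =
      z 0 ^ 2 * z 3 ^ 2 + m * z 1 ^ 2 * z 2 ^ 2 - (1 + m) * z 0 * z 1 * z 2 * z 3 +
      z 1 ^ 2 * z 3 ^ 2 +
      z 2 ^ 2 * z 3 ^ 2 - a * z 0 * z 1 * z 3 ^ 2 - b * z 0 * z 2 * z 3 ^ 2 +
      e * z 0 * z 3 ^ 3 +
      a * m * z 1 ^ 2 * z 2 * z 3 + b * z 1 * z 2 ^ 2 * z 3 +
      (a * b - c - e) * z 1 * z 2 * z 3 ^ 2 +
      (f - a * e) * z 1 * z 3 ^ 3 + d * z 2 * z 3 ^ 3 - g * z 3 ^ 4 := by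
    intro z
    rw [hF, ← FINB_det]
    congr 1
    ext i j
    have hs : sw T (∑ k, z k • y k) (x i) (w j) =
        ∑ k, z k * tt m a b c d e f g i k j := by
      rw [sw_apply, map_sum, LinearMap.sum_apply]
      refine Finset.sum_congr rfl fun k _ => ?_
      rw [map_smul, LinearMap.smul_apply, smul_eq_mul, h]
    simp only [Matrix.of_apply]
    rw [hs]
    simp only [tt, Fin.sum_univ_four]
    fin_cases i <;> fin_cases j <;> simp <;> ring
  rcases h1 F hF4 hSC with h0 | ⟨l, q, hl, hq, hlq⟩ | ⟨q, hq, hqq⟩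
  · exfalso
    have := hD ![0, 1, 1, 0]
    rw [h0] at this
    simp at this
    exact hm this.symm
  · exfalso
    obtain ⟨L, hL⟩ := FINB_deg1 hl
    obtain ⟨Q, hQ⟩ := FINB_deg2 hq
    have hid : ∀ z : V, (∑ i, L i * z i) ^ 2 * (∑ i, ∑ j, Q i j * (z i * z j)) =
        MvPolynomial.eval z F := by
      intro z
      rw [hlq, map_mul, map_pow, hL, hQ]
    have e1 : ∀ t : ℂ, (L 0 * t + L 1 + L 2) ^ 2 * (Q 0 0 * t ^ 2 + (Q 0 1 + Q 1 0 + Q 0 2 +
        Q 2 0) * t + (Q 1 1 + Q 1 2 + Q 2 1 + Q 2 2)) = m := by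
      intro t
      have := hid ![t, 1, 1, 0]
      rw [hD] at this
      simp [Fin.sum_univ_four] at this
      linear_combination this
    have hL0 : L 0 = 0 := by
      by_contra hL0
      have := e1 (-(L 1 + L 2) / L 0)
      rw [mul_div_cancel₀ _ hL0] at this
      apply hm
      rw [← this]
      ring
    have hl0 : (L 1 + L 2) ^ 2 ≠ 0 := by
      intro hh
      have := e1 0
      apply hm
      rw [← this]
      simp only [mul_zero, zero_add]
      rw [hh, zero_mul]
    have hQ0 : Q 0 0 = 0 := by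
      have h1 := e1 1
      have h2 := e1 (-1)
      have h3 := e1 0
      rw [hL0] at h1 h2 h3
      have : (L 1 + L 2) ^ 2 * Q 0 0 = 0 := by
        linear_combination (h1 + h2) / 2 - h3
      exact (mul_eq_zero.mp this).resolve_left hl0
    have e2 : ∀ t : ℂ, (L 0 * t + L 3) ^ 2 * (Q 0 0 * t ^ 2 + (Q 0 3 + Q 3 0) * t + Q 3 3) =
        t ^ 2 + e * t - g := by
      intro t
      have := hid ![t, 0, 0, 1]
      rw [hD] at this
      simp [Fin.sum_univ_four] at this
      linear_combination this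
    have h1 := e2 1
    have h2 := e2 (-1)
    have h3 := e2 0
    rw [hL0, hQ0] at h1 h2 h3
    have : (1 : ℂ) = 0 := by
      linear_combination -(h1 + h2) / 2 + h3
    exact one_ne_zero this
  · obtain ⟨Q, hQ⟩ := FINB_deg2 hq
    have hid : ∀ z : V, (∑ i, ∑ j, Q i j * (z i * z j)) ^ 2 = MvPolynomial.eval z F := by
      intro z
      rw [hqq, map_pow, hQ]
    have q0 : Q 0 0 = 0 := by
      have := hid ![1, 0, 0, 0]
      rw [hD] at this
      simpa [Fin.sum_univ_four] using this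
    have q1 : Q 1 1 = 0 := by
      have := hid ![0, 1, 0, 0]
      rw [hD] at this
      simpa [Fin.sum_univ_four] using this
    have q2 : Q 2 2 = 0 := by
      have := hid ![0, 0, 1, 0]
      rw [hD] at this
      simpa [Fin.sum_univ_four] using this
    have q01 : Q 0 1 + Q 1 0 = 0 := by
      have := hid ![1, 1, 0, 0]
      rw [hD] at this
      simpa [Fin.sum_univ_four, q0, q1] using this
    have q02 : Q 0 2 + Q 2 0 = 0 := by
      have := hid ![1, 0, 1, 0]
      rw [hD] at this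
      simpa [Fin.sum_univ_four, q0, q2] using this
    obtain ⟨μ, hμ⟩ : ∃ μ, μ = Q 1 2 + Q 2 1 := ⟨_, rfl⟩
    obtain ⟨la, hla⟩ : ∃ la, la = Q 0 3 + Q 3 0 := ⟨_, rfl⟩
    obtain ⟨al, hal⟩ : ∃ al, al = Q 1 3 + Q 3 1 := ⟨_, rfl⟩
    obtain ⟨be, hbe⟩ : ∃ be, be = Q 2 3 + Q 3 2 := ⟨_, rfl⟩
    obtain ⟨ga, hga⟩ : ∃ ga, ga = Q 3 3 := ⟨_, rfl⟩
    have hP : ∀ u v z : ℂ, (μ * v * z + la * u + al * v + be * z + ga) ^ 2 =
        u ^ 2 + m * v ^ 2 * z ^ 2 - (1 + m) * u * v * z + v ^ 2 + z ^ 2 - a * u * v -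
        b * u * z + e * u + a * m * v ^ 2 * z + b * v * z ^ 2 + (a * b - c - e) * v * z +
        (f - a * e) * v + d * z - g := by
      intro u v z
      have h3 := hid ![u, v, z, 1]
      rw [hD] at h3
      simp only [Fin.sum_univ_four, Matrix.cons_val] at h3
      have h4 : Q 0 0 * (u * u) + Q 0 1 * (u * v) + Q 0 2 * (u * z) + Q 0 3 * (u * 1) +
          (Q 1 0 * (v * u) + Q 1 1 * (v * v) + Q 1 2 * (v * z) + Q 1 3 * (v * 1)) +
          (Q 2 0 * (z * u) + Q 2 1 * (z * v) + Q 2 2 * (z * z) + Q 2 3 * (z * 1)) +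
          (Q 3 0 * (1 * u) + Q 3 1 * (1 * v) + Q 3 2 * (1 * z) + Q 3 3 * (1 * 1)) =
          μ * v * z + la * u + al * v + be * z + ga := by
        rw [hμ, hla, hal, hbe, hga]
        linear_combination u * u * q0 + v * v * q1 + z * z * q2 + u * v * q01 + u * z * q02
      rw [h4] at h3
      rw [h3]
      ring
    obtain ⟨c1, c2, c3, c4, c5, c6, c7, c8, c9, c10, c11, c12, c13, c14⟩ :=
      FINB_coef (la ^ 2 - 1) (2 * la * μ + (1 + m)) (μ ^ 2 - m) (2 * la * ga - e)
        (al ^ 2 - 1) (be ^ 2 - 1) (2 * la * al + a) (2 * la * be + b) (2 * μ * al - a * m)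
        (2 * μ * be - b) (2 * μ * ga + 2 * al * be - (a * b - c - e))
        (2 * al * ga - (f - a * e)) (2 * be * ga - d) (ga ^ 2 + g) (by
          intro u v z
          linear_combination hP u v z)
    have hm1 : m = 1 := by
      have : (m - 1) ^ 2 = 0 := by
        linear_combination (1 + m - 2 * la * μ) * c2 + 4 * μ ^ 2 * c1 + 4 * c3
      have := pow_eq_zero_iff (two_ne_zero) |>.mp this
      linear_combination this
    rw [hm1] at c2
    have ha : a = -2 * la * al := by linear_combination c7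
    have hb : b = -2 * la * be := by linear_combination c8
    have he : e = 2 * la * ga := by linear_combination -c4
    have hμ' : μ = -la := by linear_combination (la * c2 - 2 * μ * c1) / 2
    rw [ha, hb, he, hμ'] at c11
    rw [ha, he] at c12
    refine ⟨hm1, ?_, ?_, ?_, ?_, ?_, ?_⟩
    · rw [ha]
      linear_combination 4 * al ^ 2 * c1 + 4 * c5
    · rw [hb]
      linear_combination 4 * be ^ 2 * c1 + 4 * c6
    · rw [ha, hb]
      linear_combination 2 * c11 + 4 * al * be * c1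
    · rw [ha, he]
      linear_combination -2 * c12 - 4 * al * ga * c1
    · rw [hb, he]
      linear_combination -2 * c13 - 4 * be * ga * c1
    · rw [he]
      linear_combination 4 * c14 + 4 * ga ^ 2 * c1

end Pool.Agent.MR8
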