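import Pool.Agent.MR8.Defs
import Pool.Agent.MR4.Eight

set_option autoImplicit false

/-!
# Project MR8: the engine `P_G`
-/

namespace Pool.Agent.MR8

open Matrix

/-- The binary quartic with coefficients `c`. -/
def G_q (c : Fin 5 → ℂ) (s t : ℂ) : ℂ :=
  c 0 * s ^ 4 + c 1 * s ^ 3 * t + c 2 * s ^ 2 * t ^ 2 + c 3 * s * t ^ 3 + c 4 * t ^ 4

theorem G_det_q (A B : Matrix (Fin 4) (Fin 4) ℂ) :
    ∃ c : Fin 5 → ℂ, ∀ s t : ℂ, (s • A + t • B).det = G_q c s t := by
  set p : Polynomial ℂ :=
    ((Polynomial.X : Polynomial ℂ) • B.map Polynomial.C + A.map Polynomial.C).det with hp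
  have hd : p.natDegree ≤ 4 := by
    have := Polynomial.natDegree_det_X_add_C_le B A
    simpa using this
  have h4 : p.coeff 4 = B.det := by
    have := Polynomial.coeff_det_X_add_C_card B A
    simpa using this
  have he : ∀ t : ℂ, p.eval t = (A + t • B).det := by
    intro t
    have h1 := RingHom.map_det (Polynomial.evalRingHom t)
      ((Polynomial.X : Polynomial ℂ) • B.map Polynomial.C + A.map Polynomial.C)
    rw [Polynomial.coe_evalRingHom] at h1
    rw [hp, h1]
    congr 1
    ext i j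
    simp [add_comm]
    exact mul_comm _ _
  have h5 : ∀ t : ℂ, (A + t • B).det = ∑ k ∈ Finset.range 5, p.coeff k * t ^ k := by
    intro t
    rw [← he t, Polynomial.eval_eq_sum_range' (show p.natDegree < 5 by omega)]
  refine ⟨fun k => p.coeff k, fun s t => ?_⟩
  by_cases hs : s = 0
  · subst hs
    rw [zero_smul, zero_add, det_smul]
    simp [G_q, h4, mul_comm]
  · have h6 : s • A + t • B = s • (A + (t / s) • B) := by
      rw [smul_add, smul_smul, mul_div_cancel₀ _ hs]
    rw [h6, det_smul, h5]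
    simp only [Finset.sum_range_succ, Finset.range_zero, Finset.sum_empty, G_q, Fintype.card_fin]
    simp
    field_simp

theorem G_aff (M : Matrix (Fin 4) (Fin 4) ℂ) (u v : Fin 4 → ℂ) (z : ℂ) :
    (M + z • vecMulVec u v).det = M.det + z * ((M + vecMulVec u v).det - M.det) := by
  simp only [Matrix.det_succ_row_zero, Fin.sum_univ_succ, Matrix.submatrix_apply, Matrix.add_apply,
    Matrix.smul_apply, vecMulVec_apply, smul_eq_mul, Matrix.det_fin_zero, Finset.univ_unique,
    Finset.sum_singleton]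
  simp [Fin.succAbove, Fin.succ, Fin.ext_iff]
  ring

theorem G_uniq {c : Fin 5 → ℂ} (h : ∀ s t : ℂ, G_q c s t = 0) : c = 0 := by
  have h1 := h 1 0
  have h2 := h 0 1
  have h3 := h 1 1
  have h4 := h 1 (-1)
  have h5 := h 1 2
  simp only [G_q] at h1 h2 h3 h4 h5
  have e0 : c 0 = 0 := by linear_combination h1
  have e4 : c 4 = 0 := by linear_combination h2
  have e2 : c 2 = 0 := by linear_combination (1 / 2) * (h3 + h4) - e0 - e4
  have e3 : c 3 = 0 := by
    linear_combination (1 / 6) * h5 - (1 / 6) * (h3 - h4) - (1 / 6) * e0 - (4 / 6) * e2 -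
      (16 / 6) * e4
  have e1 : c 1 = 0 := by linear_combination (1 / 2) * (h3 - h4) - e3
  funext i
  fin_cases i <;> simpa

theorem G_taylor {c : Fin 5 → ℂ} {s t : ℂ} (h : DR c s t) (s' t' : ℂ) :
    ∃ a b d : ℂ, ∀ ε : ℂ, G_q c (s + ε * s') (t + ε * t') = ε ^ 2 * (a + b * ε + d * ε ^ 2) := by
  obtain ⟨h1, h2⟩ := h
  refine ⟨c 0 * 6 * s ^ 2 * s' ^ 2 + c 1 * (3 * s ^ 2 * s' * t' + 3 * s * s' ^ 2 * t) +
      c 2 * (s ^ 2 * t' ^ 2 + 4 * s * s' * t * t' + s' ^ 2 * t ^ 2) +
      c 3 * (3 * s' * t ^ 2 * t' + 3 * s * t * t' ^ 2) + c 4 * 6 * t ^ 2 * t' ^ 2,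
    s * (4 * c 0 * s' ^ 3 + 3 * c 1 * s' ^ 2 * t' + 2 * c 2 * s' * t' ^ 2 + c 3 * t' ^ 3) +
      t * (c 1 * s' ^ 3 + 2 * c 2 * s' ^ 2 * t' + 3 * c 3 * s' * t' ^ 2 + 4 * c 4 * t' ^ 3),
    G_q c s' t', fun ε => ?_⟩
  simp only [G_q]
  linear_combination (s / 4 + ε * s') * h1 + (t / 4 + ε * t') * h2

theorem G_conv {c : Fin 5 → ℂ} {s t s' t' : ℂ} (hd : s * t' - t * s' ≠ 0)
    (h : ∃ a b d : ℂ, ∀ ε : ℂ, G_q c (s + ε * s') (t + ε * t') =
      ε ^ 2 * (a + b * ε + d * ε ^ 2)) : DR c s t := by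
  obtain ⟨a, b, d, h⟩ := h
  have h0 := h 0
  have h1 := h 1
  have h2 := h (-1)
  have h3 := h 2
  have h4 := h (-2)
  simp only [G_q] at h0 h1 h2 h3 h4
  have q1 : s' * (4 * c 0 * s ^ 3 + 3 * c 1 * s ^ 2 * t + 2 * c 2 * s * t ^ 2 + c 3 * t ^ 3) +
      t' * (c 1 * s ^ 3 + 2 * c 2 * s ^ 2 * t + 3 * c 3 * s * t ^ 2 + 4 * c 4 * t ^ 3) = 0 := by
    linear_combination (2 / 3) * (h1 - h2) - (1 / 12) * (h3 - h4)
  have q0 : s * (4 * c 0 * s ^ 3 + 3 * c 1 * s ^ 2 * t + 2 * c 2 * s * t ^ 2 + c 3 * t ^ 3) +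
      t * (c 1 * s ^ 3 + 2 * c 2 * s ^ 2 * t + 3 * c 3 * s * t ^ 2 + 4 * c 4 * t ^ 3) = 0 := by
    linear_combination 4 * h0
  refine ⟨?_, ?_⟩
  · have : (s * t' - t * s') *
        (4 * c 0 * s ^ 3 + 3 * c 1 * s ^ 2 * t + 2 * c 2 * s * t ^ 2 + c 3 * t ^ 3) = 0 := by
      linear_combination t' * q0 - t * q1
    exact (mul_eq_zero.mp this).resolve_left hd
  · have : (s * t' - t * s') *
        (c 1 * s ^ 3 + 2 * c 2 * s ^ 2 * t + 3 * c 3 * s * t ^ 2 + 4 * c 4 * t ^ 3) = 0 := by
      linear_combination s * q1 - s' * q0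
    exact (mul_eq_zero.mp this).resolve_left hd

/-- A vector which is independent of `(s, t)`. -/
theorem G_indep {s t : ℂ} (h : s ≠ 0 ∨ t ≠ 0) : ∃ s' t' : ℂ, s * t' - t * s' ≠ 0 := by
  by_cases hs : s = 0
  · have ht : t ≠ 0 := by
      rcases h with h | h
      · exact absurd hs h
      · exact h
    exact ⟨1, 0, by simpa using ht⟩
  · exact ⟨0, 1, by simpa using hs⟩

/-- Four distinct roots. -/
theorem G_roots (c : Fin 5 → ℂ) (h0 : c 0 ≠ 0) (hno : ∀ z : ℂ, ¬ DR c (-z) 1) :
    ∃ r : Fin 4 → ℂ, Function.Injective r ∧ ∀ i, G_q c (-(r i)) 1 = 0 := by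
  set f : Polynomial ℂ := Polynomial.C (c 0) * Polynomial.X ^ 4 +
    Polynomial.C (-c 1) * Polynomial.X ^ 3 + Polynomial.C (c 2) * Polynomial.X ^ 2 +
    Polynomial.C (-c 3) * Polynomial.X + Polynomial.C (c 4) with hf
  have hdeg : f.natDegree = 4 := by
    rw [hf]
    compute_degree!
  have hf0 : f ≠ 0 := by
    intro h
    rw [h] at hdeg
    simp at hdeg
  have hev : ∀ z, f.eval z = G_q c (-z) 1 := by
    intro z
    simp only [hf, G_q, Polynomial.eval_add, Polynomial.eval_mul, Polynomial.eval_C,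
      Polynomial.eval_pow, Polynomial.eval_X]
    ring
  have hdev : ∀ z, f.derivative.eval z =
      4 * c 0 * z ^ 3 - 3 * c 1 * z ^ 2 + 2 * c 2 * z - c 3 := by
    intro z
    simp only [hf, Polynomial.derivative_add, Polynomial.derivative_mul, Polynomial.derivative_C,
      Polynomial.derivative_X_pow, Polynomial.derivative_X, Polynomial.eval_add,
      Polynomial.eval_mul, Polynomial.eval_C, Polynomial.eval_pow, Polynomial.eval_X,
      Polynomial.eval_zero, Polynomial.eval_one]
    norm_num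
    ring
  have hnd : f.roots.Nodup := by
    rw [Multiset.nodup_iff_count_le_one]
    intro z
    rw [Polynomial.count_roots]
    by_contra hc
    push Not at hc
    obtain ⟨e1, e2⟩ := (Polynomial.one_lt_rootMultiplicity_iff_isRoot hf0).mp hc
    rw [Polynomial.IsRoot, hev] at e1
    rw [Polynomial.IsRoot, hdev] at e2
    simp only [G_q] at e1
    refine hno z ⟨?_, ?_⟩
    · linear_combination -e2
    · linear_combination 4 * e1 - z * e2
  have hcard : f.roots.toFinset.card = 4 := by
    rw [Multiset.toFinset_card_of_nodup hnd,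
      ← (IsAlgClosed.splits f).natDegree_eq_card_roots, hdeg]
  let e := (f.roots.toFinset.equivFinOfCardEq hcard).symm
  refine ⟨fun i => (e i : ℂ), fun i j hij => e.injective (Subtype.ext hij), fun i => ?_⟩
  have h1 := (e i).2
  rw [Multiset.mem_toFinset, Polynomial.mem_roots hf0, Polynomial.IsRoot, hev] at h1
  exact h1

theorem G_inv (A B : Matrix (Fin 4) (Fin 4) ℂ) (hU : IsUnit A.det) (r : ℂ) :
    A⁻¹ * B - r • (1 : Matrix (Fin 4) (Fin 4) ℂ) = A⁻¹ * ((-r) • A + (1 : ℂ) • B) := by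
  rw [Matrix.mul_add, Matrix.mul_smul, Matrix.mul_smul, Matrix.nonsing_inv_mul _ hU]
  module

/-- A pencil whose determinant has no double root is diagonalisable. -/
theorem G_four (A B : Matrix (Fin 4) (Fin 4) ℂ) (c : Fin 5 → ℂ)
    (hc : ∀ s t : ℂ, (s • A + t • B).det = G_q c s t)
    (hno : ¬ ∃ s t : ℂ, (s ≠ 0 ∨ t ≠ 0) ∧ DR c s t) :
    ∃ (u v : Fin 4 → Fin 4 → ℂ) (α β : Fin 4 → ℂ),
      (∀ j k, A j k = ∑ i, α i * (u i j * v i k)) ∧
        ∀ j k, B j k = ∑ i, β i * (u i j * v i k) := by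
  have h1 : ∃ s t : ℂ, G_q c s t ≠ 0 := by
    by_contra hcon
    push Not at hcon
    have := G_uniq hcon
    refine hno ⟨1, 0, Or.inl one_ne_zero, ?_⟩
    rw [this]
    simp [DR]
  obtain ⟨s0, t0, h0⟩ := h1
  have hst : s0 ≠ 0 ∨ t0 ≠ 0 := by
    by_contra hcon
    push Not at hcon
    apply h0
    rw [hcon.1, hcon.2]
    simp [G_q]
  obtain ⟨s1, t1, hd⟩ := G_indep hst
  set A' := s0 • A + t0 • B with hA'
  set B' := s1 • A + t1 • B with hB'
  obtain ⟨c', hc'⟩ := G_det_q A' B'
  have hcc : ∀ x y : ℂ, G_q c' x y = G_q c (x * s0 + y * s1) (x * t0 + y * t1) := by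
    intro x y
    rw [← hc', ← hc]
    congr 1
    rw [hA', hB']
    module
  have hdA : A'.det = G_q c s0 t0 := by rw [hA', hc]
  have hc0 : c' 0 = A'.det := by
    have := hc' 1 0
    rw [one_smul, zero_smul, add_zero] at this
    rw [this]
    simp [G_q]
  have hc0' : c' 0 ≠ 0 := by
    rw [hc0, hdA]
    exact h0
  have hno' : ∀ z : ℂ, ¬ DR c' (-z) 1 := by
    intro z hz
    obtain ⟨a, b, d, h2⟩ := G_taylor hz 1 0
    have h3 : DR c (-z * s0 + s1) (-z * t0 + t1) := by
      refine G_conv (s' := s0) (t' := t0) ?_ ⟨a, b, d, fun ε => ?_⟩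
      · intro h
        apply hd
        linear_combination -h
      · rw [← h2 ε, hcc]
        congr 1 <;> ring
    refine hno ⟨_, _, ?_, h3⟩
    by_contra hcon
    push Not at hcon
    apply hd
    linear_combination s0 * hcon.2 - t0 * hcon.1
  obtain ⟨r, hr, hr0⟩ := G_roots c' hc0' hno'
  have hU : IsUnit A'.det := by
    rw [isUnit_iff_ne_zero, hdA]
    exact h0
  obtain ⟨P, hP, hXP⟩ := MR4.diag_of_four (A'⁻¹ * B') r hr (by
    intro i
    rw [G_inv A' B' hU, det_mul, hc', hr0, mul_zero])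
  have hBP : B' * P = A' * P * diagonal r := by
    have h2 : A' * (A'⁻¹ * B' * P) = A' * (P * diagonal r) := by rw [hXP]
    rw [Matrix.mul_assoc, Matrix.mul_nonsing_inv_cancel_left _ _ hU, ← Matrix.mul_assoc] at h2
    exact h2
  have hA2 : A' = A' * P * P⁻¹ := by
    rw [Matrix.mul_nonsing_inv_cancel_right _ _ hP]
  have hB2 : B' = A' * P * diagonal r * P⁻¹ := by
    rw [← hBP, Matrix.mul_nonsing_inv_cancel_right _ _ hP]
  have hA3 : ∀ j k, A' j k = ∑ i, (A' * P) j i * P⁻¹ i k := by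
    intro j k
    conv_lhs => rw [hA2]
    rw [Matrix.mul_apply]
  have hB3 : ∀ j k, B' j k = ∑ i, r i * ((A' * P) j i * P⁻¹ i k) := by
    intro j k
    conv_lhs => rw [hB2]
    rw [Matrix.mul_apply]
    refine Finset.sum_congr rfl fun i _ => ?_
    rw [Matrix.mul_diagonal]
    ring
  set Δ := s0 * t1 - t0 * s1 with hΔ
  refine ⟨fun i j => (A' * P) j i, fun i k => P⁻¹ i k, fun i => (t1 - t0 * r i) / Δ,
    fun i => (-s1 + s0 * r i) / Δ, fun j k => ?_, fun j k => ?_⟩
  · have h2 : Δ * A j k = t1 * A' j k - t0 * B' j k := by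
      rw [hA', hB', hΔ]
      simp only [Matrix.add_apply, Matrix.smul_apply, smul_eq_mul]
      ring
    have h3 : A j k = (t1 * A' j k - t0 * B' j k) / Δ := by
      rw [← h2]
      field_simp
    rw [h3, hA3, hB3, Finset.mul_sum, Finset.mul_sum, ← Finset.sum_sub_distrib, Finset.sum_div]
    refine Finset.sum_congr rfl fun i _ => ?_
    ring
  · have h2 : Δ * B j k = -s1 * A' j k + s0 * B' j k := by
      rw [hA', hB', hΔ]
      simp only [Matrix.add_apply, Matrix.smul_apply, smul_eq_mul]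
      ring
    have h3 : B j k = (-s1 * A' j k + s0 * B' j k) / Δ := by
      rw [← h2]
      field_simp
    rw [h3, hA3, hB3, Finset.mul_sum, Finset.mul_sum, ← Finset.sum_add_distrib, Finset.sum_div]
    refine Finset.sum_congr rfl fun i _ => ?_
    ring

/-- The linear form with coefficients `u`. -/
noncomputable def G_form (u : Fin 4 → ℂ) : D := ∑ j, u j • LinearMap.proj j

theorem G_form_apply (u : Fin 4 → ℂ) (y : V) : G_form u y = ∑ j, u j * y j := by
  simp [G_form]

/-- The matrix of a bilinear form. -/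
def G_mat (B : Bi) : Matrix (Fin 4) (Fin 4) ℂ :=
  Matrix.of fun j k => B (Pi.single j 1) (Pi.single k 1)

theorem G_bil (B : Bi) (y w : V) : B y w = ∑ j, ∑ k, y j * w k * G_mat B j k := by
  have hz : ∀ z : V, z = ∑ j, z j • (Pi.single j 1 : V) := by
    intro z
    ext i
    simp [Finset.sum_apply, Pi.single_apply]
  conv_lhs => rw [hz y, hz w]
  simp only [map_sum, LinearMap.sum_apply, map_smul, LinearMap.smul_apply, smul_eq_mul, G_mat,
    Matrix.of_apply, Finset.mul_sum]
  rw [Finset.sum_comm]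
  refine Finset.sum_congr rfl fun j _ => Finset.sum_congr rfl fun k _ => ?_
  ring

theorem G_detYW (N : Bi) (y w : Fin 4 → V) :
    (Matrix.of fun i j => N (y i) (w j)).det =
      (Matrix.of y).det * (Matrix.of w).det * (G_mat N).det := by
  have h : (Matrix.of fun i j => N (y i) (w j)) = Matrix.of y * G_mat N * (Matrix.of w)ᵀ := by
    ext i j
    rw [Matrix.of_apply, G_bil, Matrix.mul_apply]
    simp only [Matrix.mul_apply, Matrix.of_apply, Matrix.transpose_apply, Finset.sum_mul]
    rw [Finset.sum_comm]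
    refine Finset.sum_congr rfl fun k _ => Finset.sum_congr rfl fun m _ => ?_
    ring
  rw [h, det_mul, det_mul, det_transpose]
  ring

theorem G_form_prod (N : Bi) (u v : Fin 4 → Fin 4 → ℂ) (α : Fin 4 → ℂ)
    (h : ∀ j k, G_mat N j k = ∑ i, α i * (u i j * v i k)) (y w : V) :
    N y w = ∑ i, α i * (G_form (u i) y * G_form (v i) w) := by
  rw [G_bil]
  simp only [h, G_form_apply, Fin.sum_univ_four]
  ring

/-- The product of two linear forms. -/
noncomputable def G_pr (η ω : D) : Bi := η.smulRight ω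

theorem G_pr_apply (η ω : D) (y w : V) : G_pr η ω y w = η y * ω w := by
  simp [G_pr]

/-- A bilinear form moved by the frames. -/
noncomputable def G_N (B : Bi) (η ω : Fin 4 → D) (φ : Fin 4 → ℂ) : Bi :=
  B + ∑ r, φ r • G_pr (η r) (ω r)

theorem G_N_apply (B : Bi) (η ω : Fin 4 → D) (φ : Fin 4 → ℂ) (y w : V) :
    G_N B η ω φ y w = B y w + ∑ r, φ r * (η r y * ω r w) := by
  simp [G_N, G_pr_apply, LinearMap.sum_apply]

theorem G_mat_N (B : Bi) (η ω : Fin 4 → D) (φ : Fin 4 → ℂ) (j k : Fin 4) :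
    G_mat (G_N B η ω φ) j k =
      G_mat B j k + ∑ r, φ r * (η r (Pi.single j 1) * ω r (Pi.single k 1)) := by
  simp only [G_mat, Matrix.of_apply, G_N_apply]

/-- Change of one coefficient. -/
theorem G_upd (B : Bi) (η ω : Fin 4 → D) (φ : Fin 4 → ℂ) (r : Fin 4) (z : ℂ) :
    G_mat (G_N B η ω (Function.update φ r z)) = G_mat (G_N B η ω (Function.update φ r 0)) +
      z • vecMulVec (fun j => η r (Pi.single j 1)) (fun k => ω r (Pi.single k 1)) := by
  ext j k
  rw [Matrix.add_apply, Matrix.smul_apply, vecMulVec_apply, smul_eq_mul, G_mat_N, G_mat_N,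
    add_assoc]
  congr 1
  have h1 : ∀ x : ℂ, ∑ i, Function.update φ r x i * (η i (Pi.single j 1) * ω i (Pi.single k 1)) =
      x * (η r (Pi.single j 1) * ω r (Pi.single k 1)) +
        ∑ i ∈ Finset.univ.erase r, φ i * (η i (Pi.single j 1) * ω i (Pi.single k 1)) := by
    intro x
    rw [← Finset.add_sum_erase _ _ (Finset.mem_univ r), Function.update_self]
    congr 1
    refine Finset.sum_congr rfl fun i hi => ?_
    rw [Function.update_of_ne (Finset.ne_of_mem_erase hi)]
  rw [h1 z, h1 0]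
  ring

/-- The family of quartics. -/
noncomputable def G_Q (A B : Bi) (η ω : Fin 4 → D) (v : Fin (4 + 4) → ℂ) : Fin 5 → ℂ :=
  (G_det_q (G_mat (G_N A η ω fun r => v (Fin.castAdd 4 r)))
    (G_mat (G_N B η ω fun r => v (Fin.natAdd 4 r)))).choose

theorem G_Q_spec (A B : Bi) (η ω : Fin 4 → D) (v : Fin (4 + 4) → ℂ) (s t : ℂ) :
    (s • G_mat (G_N A η ω fun r => v (Fin.castAdd 4 r)) +
      t • G_mat (G_N B η ω fun r => v (Fin.natAdd 4 r))).det = G_q (G_Q A B η ω v) s t :=
  (G_det_q (G_mat (G_N A η ω fun r => v (Fin.castAdd 4 r)))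
    (G_mat (G_N B η ω fun r => v (Fin.natAdd 4 r)))).choose_spec s t

theorem G_castAdd_update (v : Fin (4 + 4) → ℂ) (i : Fin 4) (z : ℂ) :
    (fun r => Function.update v (Fin.castAdd 4 i) z (Fin.castAdd 4 r)) =
      Function.update (fun r => v (Fin.castAdd 4 r)) i z ∧
    (fun r => Function.update v (Fin.castAdd 4 i) z (Fin.natAdd 4 r)) =
      fun r => v (Fin.natAdd 4 r) := by
  constructor
  · funext r
    by_cases h : r = i
    · subst h
      simp
    · rw [Function.update_of_ne h, Function.update_of_ne]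
      intro h'
      exact h (Fin.castAdd_injective 4 4 h')
  · funext r
    rw [Function.update_of_ne]
    intro h'
    have := congrArg Fin.val h'
    simp only [Fin.val_natAdd, Fin.val_castAdd] at this
    omega

theorem G_natAdd_update (v : Fin (4 + 4) → ℂ) (i : Fin 4) (z : ℂ) :
    (fun r => Function.update v (Fin.natAdd 4 i) z (Fin.natAdd 4 r)) =
      Function.update (fun r => v (Fin.natAdd 4 r)) i z ∧
    (fun r => Function.update v (Fin.natAdd 4 i) z (Fin.castAdd 4 r)) =
      fun r => v (Fin.castAdd 4 r) := by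
  constructor
  · funext r
    by_cases h : r = i
    · subst h
      simp
    · rw [Function.update_of_ne h, Function.update_of_ne]
      intro h'
      exact h (Fin.natAdd_injective 4 4 h')
  · funext r
    rw [Function.update_of_ne]
    intro h'
    have := congrArg Fin.val h'
    simp only [Fin.val_natAdd, Fin.val_castAdd] at this
    omega

theorem G_q_lin (c d e : Fin 5 → ℂ) (z s t : ℂ) :
    G_q (c - (d + z • (e - d))) s t = G_q c s t - (G_q d s t + z * (G_q e s t - G_q d s t)) := by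
  simp only [G_q, Pi.sub_apply, Pi.add_apply, Pi.smul_apply, smul_eq_mul]
  ring

theorem G_Q_aff (A B : Bi) (η ω : Fin 4 → D) (v : Fin (4 + 4) → ℂ) (i : Fin (4 + 4)) (z : ℂ) :
    G_Q A B η ω (Function.update v i z) = G_Q A B η ω (Function.update v i 0) +
      z • (G_Q A B η ω (Function.update v i 1) - G_Q A B η ω (Function.update v i 0)) := by
  rw [← sub_eq_zero]
  apply G_uniq
  intro s t
  rw [G_q_lin, ← G_Q_spec, ← G_Q_spec, ← G_Q_spec]
  refine Fin.addCases (fun r => ?_) (fun r => ?_) i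
  · rw [(G_castAdd_update v r z).1, (G_castAdd_update v r z).2, (G_castAdd_update v r 0).1,
      (G_castAdd_update v r 0).2, (G_castAdd_update v r 1).1, (G_castAdd_update v r 1).2]
    rw [G_upd A η ω _ r z, G_upd A η ω _ r 1]
    set X := G_mat (G_N A η ω (Function.update (fun r => v (Fin.castAdd 4 r)) r 0))
    set Y := G_mat (G_N B η ω (fun r => v (Fin.natAdd 4 r)))
    set a := fun j => η r (Pi.single j (1 : ℂ))
    set b := fun j => ω r (Pi.single j (1 : ℂ))
    have h := G_aff (s • X + t • Y) (s • a) b z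
    have e1 : s • (X + z • vecMulVec a b) + t • Y = s • X + t • Y + z • vecMulVec (s • a) b := by
      rw [Matrix.smul_vecMulVec]
      module
    have e2 : s • (X + (1 : ℂ) • vecMulVec a b) + t • Y = s • X + t • Y + vecMulVec (s • a) b := by
      rw [Matrix.smul_vecMulVec]
      module
    rw [e1, e2, h]
    ring
  · rw [(G_natAdd_update v r z).1, (G_natAdd_update v r z).2, (G_natAdd_update v r 0).1,
      (G_natAdd_update v r 0).2, (G_natAdd_update v r 1).1, (G_natAdd_update v r 1).2]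
    rw [G_upd B η ω _ r z, G_upd B η ω _ r 1]
    set X := G_mat (G_N A η ω (fun r => v (Fin.castAdd 4 r)))
    set Y := G_mat (G_N B η ω (Function.update (fun r => v (Fin.natAdd 4 r)) r 0))
    set a := fun j => η r (Pi.single j (1 : ℂ))
    set b := fun j => ω r (Pi.single j (1 : ℂ))
    have h := G_aff (s • X + t • Y) (t • a) b z
    have e1 : s • X + t • (Y + z • vecMulVec a b) = s • X + t • Y + z • vecMulVec (t • a) b := by
      rw [Matrix.smul_vecMulVec]
      module
    have e2 : s • X + t • (Y + (1 : ℂ) • vecMulVec a b) = s • X + t • Y + vecMulVec (t • a) b := by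
      rw [Matrix.smul_vecMulVec]
      module
    rw [e1, e2, h]
    ring

/-- Completion of two vectors. -/
theorem G_compl (l : Fin 2 → V) (hl : LinearIndependent ℂ l) :
    ∃ a b : V, LinearIndependent ℂ ![l 0, l 1, a, b] := by
  have h2 : 2 < Module.finrank ℂ V := by
    rw [Module.finrank_fintype_fun_eq_card, Fintype.card_fin]
    norm_num
  have h3 : 3 < Module.finrank ℂ V := by
    rw [Module.finrank_fintype_fun_eq_card, Fintype.card_fin]
    norm_num
  obtain ⟨a, ha⟩ := exists_linearIndependent_snoc_of_lt_finrank hl h2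
  obtain ⟨b, hb⟩ := exists_linearIndependent_snoc_of_lt_finrank ha h3
  have e : (![l 0, l 1, a, b] : Fin 4 → V) =
      Fin.snoc (α := fun _ => V) (Fin.snoc (α := fun _ => V) l a) b := by
    funext i
    fin_cases i <;> rfl
  refine ⟨a, b, ?_⟩
  rw [e]
  exact hb

/-- Rank at most eight from eight products. -/
theorem G_RK8 (T : Tri) (b : Fin 4 → V) (hb : LinearIndependent ℂ b) (η ω η' ω' : Fin 4 → D)
    (p q : Fin 4 → Fin 4 → ℂ)
    (h : ∀ k y w, T (b k) y w = ∑ r, p k r * (η r y * ω r w) + ∑ r, q k r * (η' r y * ω' r w)) :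
    RK 8 T := by
  let bb := basisOfLinearIndependentOfCardEqFinrank hb (by simp)
  have hbb : ∀ k, bb k = b k := fun k => by
    simp [bb]
  refine ⟨Fin.append (fun r => ∑ k, p k r • bb.coord k) (fun r => ∑ k, q k r • bb.coord k),
    Fin.append η η', Fin.append ω ω', fun x y w => ?_⟩
  have hx := bb.sum_repr x
  conv_lhs => rw [← hx]
  rw [map_sum, LinearMap.sum_apply, LinearMap.sum_apply]
  rw [show (∑ i : Fin 8, Fin.append (fun r => ∑ k, p k r • bb.coord k)
      (fun r => ∑ k, q k r • bb.coord k) i x * Fin.append η η' i y * Fin.append ω ω' i w) =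
      ∑ i : Fin (4 + 4), Fin.append (fun r => ∑ k, p k r • bb.coord k)
      (fun r => ∑ k, q k r • bb.coord k) i x * Fin.append η η' i y * Fin.append ω ω' i w from rfl,
    Fin.sum_univ_add]
  simp only [Fin.append_left, Fin.append_right, map_smul, LinearMap.smul_apply, hbb, h,
    LinearMap.add_apply, Module.Basis.coord_apply, smul_eq_mul, Fin.sum_univ_four]
  ring

/-- The engine. -/
theorem p_G (h : P_POLY) : P_G := by
  intro T hT l η ω hF
  obtain ⟨hl, hc⟩ := hF
  choose c hc using hc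
  obtain ⟨h3, h4, hli⟩ := G_compl l hl
  obtain ⟨s0, t0, hst, hDR⟩ := h (4 + 4) (G_Q (T h3) (T h4) η ω)
    (fun v i z => G_Q_aff (T h3) (T h4) η ω v i z) (by
      intro v
      by_contra hno
      apply hT
      obtain ⟨u, u', α, β, e3, e4⟩ := G_four _ _ _ (G_Q_spec (T h3) (T h4) η ω v) hno
      have f3 := G_form_prod _ u u' α e3
      have f4 := G_form_prod _ u u' β e4
      refine G_RK8 T _ hli η ω (fun i => G_form (u i)) (fun i => G_form (u' i))
        ![c 0, c 1, fun r => -v (Fin.castAdd 4 r), fun r => -v (Fin.natAdd 4 r)]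
        ![0, 0, α, β] ?_
      intro k y w
      fin_cases k
      · simp [hc 0 y w]
      · simp [hc 1 y w]
      · have := f3 y w
        rw [G_N_apply] at this
        simp only [Fin.reduceFinMk, Matrix.cons_val, neg_mul, Finset.sum_neg_distrib]
        linear_combination this
      · have := f4 y w
        rw [G_N_apply] at this
        simp only [Fin.reduceFinMk, Matrix.cons_val, neg_mul, Finset.sum_neg_distrib]
        linear_combination this)
  obtain ⟨s1, t1, hd⟩ := G_indep hst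
  refine ⟨s0 • h3 + t0 • h4, s1 • h3 + t1 • h4, ?_, fun φ y w => ?_⟩
  · rw [Fintype.linearIndependent_iff] at hli ⊢
    intro g hg
    have h1 := hli ![g 0, g 1, g 2 * s0 + g 3 * s1, g 2 * t0 + g 3 * t1] (by
      rw [← hg]
      simp only [Fin.sum_univ_four, Matrix.cons_val]
      module)
    have i0 := h1 0
    have i1 := h1 1
    have i2 := h1 2
    have i3 := h1 3
    simp only [Matrix.cons_val] at i0 i1 i2 i3
    have j2 : (s0 * t1 - t0 * s1) * g 2 = 0 := by linear_combination t1 * i2 - s1 * i3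
    have j3 : (s0 * t1 - t0 * s1) * g 3 = 0 := by linear_combination s0 * i3 - t0 * i2
    have k2 := (mul_eq_zero.mp j2).resolve_left hd
    have k3 := (mul_eq_zero.mp j3).resolve_left hd
    intro i
    fin_cases i
    · exact i0
    · exact i1
    · exact k2
    · exact k3
  · set Δ := s0 * t1 - t0 * s1 with hΔ
    let v : Fin (4 + 4) → ℂ := Fin.append (fun r => t1 * φ r / Δ) (fun r => -s1 * φ r / Δ)
    obtain ⟨a, b, d, he⟩ := G_taylor (hDR v) s1 t1
    refine ⟨(Matrix.of y).det * (Matrix.of w).det * a, (Matrix.of y).det * (Matrix.of w).det * b,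
      (Matrix.of y).det * (Matrix.of w).det * d, fun ε => ?_⟩
    have hN : (Matrix.of fun i j => T (s0 • h3 + t0 • h4) (y i) (w j) +
        ε * T (s1 • h3 + t1 • h4) (y i) (w j) + ∑ s, φ s * (η s (y i) * ω s (w j))) =
        Matrix.of fun i j => ((s0 + ε * s1) • G_N (T h3) η ω (fun r => v (Fin.castAdd 4 r)) +
          (t0 + ε * t1) • G_N (T h4) η ω (fun r => v (Fin.natAdd 4 r))) (y i) (w j) := by
      ext i j
      simp only [Matrix.of_apply, LinearMap.add_apply, LinearMap.smul_apply, smul_eq_mul,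
        G_N_apply, map_add, map_smul, v, Fin.append_left, Fin.append_right, Fin.sum_univ_four]
      field_simp
      rw [hΔ]
      ring
    rw [hN, G_detYW]
    have hM : G_mat ((s0 + ε * s1) • G_N (T h3) η ω (fun r => v (Fin.castAdd 4 r)) +
          (t0 + ε * t1) • G_N (T h4) η ω (fun r => v (Fin.natAdd 4 r))) =
        (s0 + ε * s1) • G_mat (G_N (T h3) η ω (fun r => v (Fin.castAdd 4 r))) +
          (t0 + ε * t1) • G_mat (G_N (T h4) η ω (fun r => v (Fin.natAdd 4 r))) := by
      ext j k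
      simp [G_mat]
    rw [hM, G_Q_spec, he]
    ring

end Pool.Agent.MR8
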