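import Pool.Agent.MR8.Defs

set_option autoImplicit false

/-!
# Three frames independent in both factors
-/

namespace Pool.Agent.MR8

open Matrix

/-- determinant of a `4 × 4` matrix -/
lemma G3_det4 (A : Matrix (Fin 4) (Fin 4) ℂ) : A.det =
    A 0 0 * (A 1 1 * (A 2 2 * A 3 3 - A 2 3 * A 3 2) - A 1 2 * (A 2 1 * A 3 3 - A 2 3 * A 3 1) +
        A 1 3 * (A 2 1 * A 3 2 - A 2 2 * A 3 1)) -
      A 0 1 * (A 1 0 * (A 2 2 * A 3 3 - A 2 3 * A 3 2) - A 1 2 * (A 2 0 * A 3 3 - A 2 3 * A 3 0) +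
        A 1 3 * (A 2 0 * A 3 2 - A 2 2 * A 3 0)) +
      A 0 2 * (A 1 0 * (A 2 1 * A 3 3 - A 2 3 * A 3 1) - A 1 1 * (A 2 0 * A 3 3 - A 2 3 * A 3 0) +
        A 1 3 * (A 2 0 * A 3 1 - A 2 1 * A 3 0)) -
      A 0 3 * (A 1 0 * (A 2 1 * A 3 2 - A 2 2 * A 3 1) - A 1 1 * (A 2 0 * A 3 2 - A 2 2 * A 3 0) +
        A 1 2 * (A 2 0 * A 3 1 - A 2 1 * A 3 0)) := by
  rw [Matrix.det_succ_row_zero, Fin.sum_univ_four]
  simp only [Matrix.det_fin_three, Matrix.submatrix_apply]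
  have h00 : Fin.succAbove (0 : Fin 4) (0 : Fin 3) = 1 := rfl
  have h01 : Fin.succAbove (0 : Fin 4) (1 : Fin 3) = 2 := rfl
  have h02 : Fin.succAbove (0 : Fin 4) (2 : Fin 3) = 3 := rfl
  have h10 : Fin.succAbove (1 : Fin 4) (0 : Fin 3) = 0 := rfl
  have h11 : Fin.succAbove (1 : Fin 4) (1 : Fin 3) = 2 := rfl
  have h12 : Fin.succAbove (1 : Fin 4) (2 : Fin 3) = 3 := rfl
  have h20 : Fin.succAbove (2 : Fin 4) (0 : Fin 3) = 0 := rfl
  have h21 : Fin.succAbove (2 : Fin 4) (1 : Fin 3) = 1 := rfl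
  have h22 : Fin.succAbove (2 : Fin 4) (2 : Fin 3) = 3 := rfl
  have h30 : Fin.succAbove (3 : Fin 4) (0 : Fin 3) = 0 := rfl
  have h31 : Fin.succAbove (3 : Fin 4) (1 : Fin 3) = 1 := rfl
  have h32 : Fin.succAbove (3 : Fin 4) (2 : Fin 3) = 2 := rfl
  have s0 : Fin.succ (0 : Fin 3) = 1 := rfl
  have s1 : Fin.succ (1 : Fin 3) = 2 := rfl
  have s2 : Fin.succ (2 : Fin 3) = 3 := rfl
  simp only [h00, h01, h02, h10, h11, h12, h20, h21, h22, h30, h31, h32, s0, s1, s2]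
  have e0 : ((0 : Fin 4) : ℕ) = 0 := rfl
  have e1 : ((1 : Fin 4) : ℕ) = 1 := rfl
  have e2 : ((2 : Fin 4) : ℕ) = 2 := rfl
  have e3 : ((3 : Fin 4) : ℕ) = 3 := rfl
  simp only [e0, e1, e2, e3]
  ring

/-- the matrix `g` with `z 0, z 1, z 2` added on the diagonal -/
def G3_add (g : Fin 4 → Fin 4 → ℂ) (z0 z1 z2 : ℂ) : Matrix (Fin 4) (Fin 4) ℂ :=
  Matrix.of fun i j => g i j + (if i = j then ![z0, z1, z2, 0] i else 0)

lemma G3_alt (g : Fin 4 → Fin 4 → ℂ) :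
    (G3_add g 1 1 1).det - (G3_add g 0 1 1).det - (G3_add g 1 0 1).det - (G3_add g 1 1 0).det +
      (G3_add g 1 0 0).det + (G3_add g 0 1 0).det + (G3_add g 0 0 1).det -
      (G3_add g 0 0 0).det = g 3 3 := by
  simp only [G3_det4, G3_add, Matrix.of_apply]
  simp
  ring

/-- vectors dual to independent forms -/
lemma G3_dual {n : ℕ} (α : Fin n → D) (h : LinearIndependent ℂ α) :
    ∃ e : Fin n → V, ∀ i j, α i (e j) = if i = j then 1 else 0 := by
  have hs : LinearMap.range (LinearMap.pi α : V →ₗ[ℂ] (Fin n → ℂ)) = ⊤ := by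
    by_contra hne
    obtain ⟨φ, hφ, hle⟩ := Submodule.exists_le_ker_of_lt_top _ (lt_top_iff_ne_top.mpr hne)
    apply hφ
    have h1 : ∀ v : V, ∑ i, φ (Pi.single i 1) * α i v = 0 := by
      intro v
      have h2 : φ (LinearMap.pi α v) = 0 := hle ⟨v, rfl⟩
      have h3 : (LinearMap.pi α v : Fin n → ℂ) = ∑ i, α i v • Pi.single i (1 : ℂ) := by
        funext j
        simp [Finset.sum_apply, Pi.single_apply]
      rw [h3, map_sum] at h2
      simp only [map_smul, smul_eq_mul] at h2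
      rw [← h2]
      exact Finset.sum_congr rfl fun i _ => mul_comm _ _
    have h4 : ∑ i, φ (Pi.single i 1) • α i = 0 := by
      refine LinearMap.ext fun v => ?_
      rw [LinearMap.sum_apply]
      simp only [LinearMap.smul_apply, smul_eq_mul, LinearMap.zero_apply]
      exact h1 _
    have h5 := Fintype.linearIndependent_iff.mp h (fun i => φ (Pi.single i 1)) h4
    ext i
    simpa using h5 i
  choose e he using fun j => (LinearMap.range_eq_top.mp hs) (Pi.single j (1 : ℂ))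
  refine ⟨e, fun i j => ?_⟩
  have h1 := congrFun (he j) i
  rw [LinearMap.pi_apply] at h1
  rw [h1, Pi.single_apply]

/-- a form with a double zero for all values of the parameter -/
lemma G3_eps (p q a b c : ℂ) (h : ∀ ε : ℂ, p + ε * q = ε ^ 2 * (a + b * ε + c * ε ^ 2)) :
    p = 0 ∧ q = 0 := by
  have h0 := h 0
  have h1 := h 1
  have h2 := h (-1)
  have h3 := h 2
  have h4 := h (-2)
  have hp : p = 0 := by simpa using h0
  subst hp
  refine ⟨rfl, ?_⟩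
  have e1 : q = b := by linear_combination (h1 - h2) / 2
  have e2 : q = 4 * b := by linear_combination (h3 - h4) / 4
  have e3 : b = 0 := by linear_combination (e1 - e2) / 3
  rw [e1, e3]

/-- a functional which vanishes on four independent vectors -/
lemma G3_span {u0 u1 u2 u3 : V} (h : LinearIndependent ℂ ![u0, u1, u2, u3]) (φ : V →ₗ[ℂ] ℂ)
    (h0 : φ u0 = 0) (h1 : φ u1 = 0) (h2 : φ u2 = 0) (h3 : φ u3 = 0) (x : V) : φ x = 0 := by
  have hs := h.span_eq_top_of_card_eq_finrank (by simp)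
  have hx : x ∈ Submodule.span ℂ (Set.range ![u0, u1, u2, u3]) := by rw [hs]; trivial
  have hle : Submodule.span ℂ (Set.range ![u0, u1, u2, u3]) ≤ LinearMap.ker φ := by
    rw [Submodule.span_le]
    rintro _ ⟨i, rfl⟩
    fin_cases i
    · exact h0
    · exact h1
    · exact h2
    · exact h3
  exact hle hx

theorem p_G3 (h : P_G) : P_G3 := by
  intro T hT l η ω hF s hs hη hω y w hy hw x
  obtain ⟨u, u', hLI, hdet⟩ := h T hT l η ω hF
  obtain ⟨e, he⟩ := G3_dual (fun i => η (s i)) hη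
  obtain ⟨f, hf⟩ := G3_dual (fun i => ω (s i)) hω
  obtain ⟨s4, hs4⟩ : ∃ s4 : Fin 4, ∀ i, s i ≠ s4 := by
    by_contra hcon
    push Not at hcon
    have h1 : Function.Surjective s := fun b => hcon b
    have h2 := Fintype.card_le_of_surjective s h1
    simp at h2
  have hinj : Function.Injective (Fin.snoc s s4 : Fin 4 → Fin 4) := by
    rw [Fin.snoc_injective_iff]
    exact ⟨hs, fun ⟨i, hi⟩ => hs4 i hi⟩
  let σ : Fin 4 ≃ Fin 4 := Equiv.ofBijective _ (Finite.injective_iff_bijective.mp hinj)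
  have hσ0 : σ 0 = s 0 := rfl
  have hσ1 : σ 1 = s 1 := rfl
  have hσ2 : σ 2 = s 2 := rfl
  have hσ3 : σ 3 = s4 := rfl
  have hsum : ∀ (z : Fin 4 → ℂ) (a b : V), ∑ t, z (σ.symm t) * (η t a * ω t b) =
      z 0 * (η (s 0) a * ω (s 0) b) + z 1 * (η (s 1) a * ω (s 1) b) +
      z 2 * (η (s 2) a * ω (s 2) b) + z 3 * (η s4 a * ω s4 b) := by
    intro z a b
    rw [← Equiv.sum_comp σ, Fin.sum_univ_four]
    simp only [Equiv.symm_apply_apply]
    simp only [hσ0, hσ1, hσ2, hσ3]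
  let g : ℂ → ℂ → Fin 4 → Fin 4 → ℂ := fun ε z4 i j =>
    T u (![e 0, e 1, e 2, y] i) (![f 0, f 1, f 2, w] j) +
      ε * T u' (![e 0, e 1, e 2, y] i) (![f 0, f 1, f 2, w] j) +
      z4 * (η s4 (![e 0, e 1, e 2, y] i) * ω s4 (![f 0, f 1, f 2, w] j))
  have he' : ∀ i j, η (s i) (e j) = if i = j then 1 else 0 := he
  have hf' : ∀ i j, ω (s i) (f j) = if i = j then 1 else 0 := hf
  have hmat : ∀ z0 z1 z2 z4 ε : ℂ, (Matrix.of fun i j =>
      T u (![e 0, e 1, e 2, y] i) (![f 0, f 1, f 2, w] j) +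
      ε * T u' (![e 0, e 1, e 2, y] i) (![f 0, f 1, f 2, w] j) +
      ∑ t, ![z0, z1, z2, z4] (σ.symm t) *
        (η t (![e 0, e 1, e 2, y] i) * ω t (![f 0, f 1, f 2, w] j))) =
      G3_add (g ε z4) z0 z1 z2 := by
    intro z0 z1 z2 z4 ε
    ext i j
    rw [Matrix.of_apply, hsum, G3_add, Matrix.of_apply]
    simp only [g]
    fin_cases i <;> fin_cases j <;> simp [he', hf', hy, hw] <;> ring
  have hz : ∀ z0 z1 z2 z4 : ℂ, ∃ a b c : ℂ, ∀ ε : ℂ,
      (G3_add (g ε z4) z0 z1 z2).det = ε ^ 2 * (a + b * ε + c * ε ^ 2) := by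
    intro z0 z1 z2 z4
    obtain ⟨a, b, c, habc⟩ := hdet (fun t => ![z0, z1, z2, z4] (σ.symm t)) ![e 0, e 1, e 2, y]
      ![f 0, f 1, f 2, w]
    refine ⟨a, b, c, fun ε => ?_⟩
    rw [← hmat]
    exact habc ε
  have hg : ∀ z4 : ℂ, T u y w + z4 * (η s4 y * ω s4 w) = 0 ∧ T u' y w = 0 := by
    intro z4
    obtain ⟨a0, b0, c0, k0⟩ := hz 1 1 1 z4
    obtain ⟨a1, b1, c1, k1⟩ := hz 0 1 1 z4
    obtain ⟨a2, b2, c2, k2⟩ := hz 1 0 1 z4
    obtain ⟨a3, b3, c3, k3⟩ := hz 1 1 0 z4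
    obtain ⟨a4, b4, c4, k4⟩ := hz 1 0 0 z4
    obtain ⟨a5, b5, c5, k5⟩ := hz 0 1 0 z4
    obtain ⟨a6, b6, c6, k6⟩ := hz 0 0 1 z4
    obtain ⟨a7, b7, c7, k7⟩ := hz 0 0 0 z4
    refine G3_eps _ _ (a0 - a1 - a2 - a3 + a4 + a5 + a6 - a7)
      (b0 - b1 - b2 - b3 + b4 + b5 + b6 - b7) (c0 - c1 - c2 - c3 + c4 + c5 + c6 - c7) ?_
    intro ε
    have h1 := G3_alt (g ε z4)
    rw [k0, k1, k2, k3, k4, k5, k6, k7] at h1
    have h2 : g ε z4 3 3 = T u y w + ε * T u' y w + z4 * (η s4 y * ω s4 w) := rfl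
    rw [h2] at h1
    linear_combination -h1
  have hu : T u y w = 0 := by simpa using (hg 0).1
  have hu' : T u' y w = 0 := (hg 0).2
  have hk : η s4 y * ω s4 w = 0 := by
    have h1 := (hg 1).1
    rw [hu, one_mul, zero_add] at h1
    exact h1
  have hl : ∀ i, T (l i) y w = 0 := by
    intro i
    obtain ⟨c, hc⟩ := hF.2 i
    rw [hc, ← Equiv.sum_comp σ, Fin.sum_univ_four]
    simp only [hσ0, hσ1, hσ2, hσ3, hy, hk, zero_mul, mul_zero, add_zero]
  exact G3_span hLI ((T.flip y).flip w) (hl 0) (hl 1) hu hu' x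

end Pool.Agent.MR8
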