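import Pool.Agent.MR8.Defs

/-!
# MR8, block H3 (helper65)
-/

set_option autoImplicit false

namespace Pool.Agent.MR8

/-- A third linear form which vanishes at `y`. -/
theorem H3_ext (y : V) (hy : y ≠ 0) (α β : D) (h : LinearIndependent ℂ ![α, β])
    (_ha : α y = 0) (_hb : β y = 0) : ∃ γ : D, γ y = 0 ∧ LinearIndependent ℂ ![γ, α, β] := by
  classical
  let ev : D →ₗ[ℂ] ℂ := LinearMap.applyₗ y
  have hsurj : Function.Surjective ev := by
    obtain ⟨i, hi⟩ : ∃ i, y i ≠ 0 := by
      by_contra hc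
      push Not at hc
      exact hy (funext hc)
    intro c
    refine ⟨(c / y i) • LinearMap.proj i, ?_⟩
    simp [ev, hi]
  have hD : Module.finrank ℂ D = 4 := by
    simp [D, V]
  have hker : Module.finrank ℂ (LinearMap.ker ev) = 3 := by
    have h1 := LinearMap.finrank_range_add_finrank_ker ev
    rw [LinearMap.range_eq_top.2 hsurj, finrank_top, Module.finrank_self, hD] at h1
    omega
  have hspan : Module.finrank ℂ (Submodule.span ℂ (Set.range ![α, β])) = 2 := by
    rw [finrank_span_eq_card h]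
    rfl
  have hne : ¬ LinearMap.ker ev ≤ Submodule.span ℂ (Set.range ![α, β]) := by
    intro hle
    have := Submodule.finrank_mono hle
    omega
  obtain ⟨γ, hγ1, hγ2⟩ := SetLike.not_le_iff_exists.1 hne
  refine ⟨γ, hγ1, ?_⟩
  have := (linearIndependent_finCons (x := γ) (v := ![α, β])).2 ⟨h, hγ2⟩
  exact this

theorem p_H3 (h : P_G3) : P_H3 := by
  intro T hT l hl η ω hs p q hpq hη hω y w hpy hqy hpw hqw x
  by_cases hy : y = 0
  · subst hy
    simp
  by_cases hw : w = 0
  · subst hw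
    simp
  obtain ⟨γ, hγy, hγ⟩ := H3_ext y hy (η p) (η q) hη hpy hqy
  obtain ⟨δ, hδw, hδ⟩ := H3_ext w hw (ω p) (ω q) hω hpw hqw
  have hfr : Frames T l (Fin.snoc η γ) (Fin.snoc ω δ) := by
    refine ⟨hl, fun i => ?_⟩
    obtain ⟨c, hc⟩ := hs i
    refine ⟨Fin.snoc c 0, fun y' w' => ?_⟩
    rw [hc]
    refine Eq.symm ?_
    rw [Fin.sum_univ_castSucc]
    have e1 : ∀ j : Fin 3, (Fin.snoc η γ : Fin 4 → D) j.castSucc = η j := fun j =>
      Fin.snoc_castSucc (α := fun _ => D) γ η j
    have e2 : ∀ j : Fin 3, (Fin.snoc ω δ : Fin 4 → D) j.castSucc = ω j := fun j =>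
      Fin.snoc_castSucc (α := fun _ => D) δ ω j
    have e3 : ∀ j : Fin 3, (Fin.snoc c 0 : Fin 4 → ℂ) j.castSucc = c j := fun j =>
      Fin.snoc_castSucc (α := fun _ => ℂ) 0 c j
    have e4 : (Fin.snoc c 0 : Fin 4 → ℂ) (Fin.last 3) = 0 :=
      Fin.snoc_last (α := fun _ => ℂ) 0 c
    rw [e4, zero_mul, add_zero]
    exact Finset.sum_congr rfl fun j _ => by rw [e1, e2, e3]
  let s : Fin 3 → Fin 4 := ![Fin.last 3, p.castSucc, q.castSucc]
  have hs1 : (fun i => (Fin.snoc η γ : Fin 4 → D) (s i)) = ![γ, η p, η q] := by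
    funext i
    fin_cases i
    · exact Fin.snoc_last _ _
    · exact Fin.snoc_castSucc (α := fun _ => D) γ η p
    · exact Fin.snoc_castSucc (α := fun _ => D) γ η q
  have hs2 : (fun i => (Fin.snoc ω δ : Fin 4 → D) (s i)) = ![δ, ω p, ω q] := by
    funext i
    fin_cases i
    · exact Fin.snoc_last _ _
    · exact Fin.snoc_castSucc (α := fun _ => D) δ ω p
    · exact Fin.snoc_castSucc (α := fun _ => D) δ ω q
  have hinj : Function.Injective s := by
    intro a b hab
    have h1 : p.castSucc ≠ Fin.last 3 := Fin.castSucc_ne_last p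
    have h2 : q.castSucc ≠ Fin.last 3 := Fin.castSucc_ne_last q
    have h3 : p.castSucc ≠ q.castSucc := fun h => hpq (Fin.castSucc_injective _ h)
    fin_cases a <;> fin_cases b <;> simp_all [s, eq_comm]
  refine h T hT l _ _ hfr s hinj (by rw [hs1]; exact hγ) (by rw [hs2]; exact hδ) y w ?_ ?_ x
  · intro i
    have := congrFun hs1 i
    change (Fin.snoc η γ : Fin 4 → D) (s i) = _ at this
    rw [this]
    fin_cases i
    · exact hγy
    · exact hpy
    · exact hqy
  · intro i
    have := congrFun hs2 i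
    change (Fin.snoc ω δ : Fin 4 → D) (s i) = _ at this
    rw [this]
    fin_cases i
    · exact hδw
    · exact hpw
    · exact hqw

end Pool.Agent.MR8
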