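import Pool.Agent.MR8.Defs

set_option autoImplicit false

/-! Classification of `2 × 3` matrices of linear forms without common zero. -/

namespace Pool.Agent.MR8

open Matrix

/-- the bilinear map `(a, b) ↦ ∑ a k * b m • f k m` -/
noncomputable def KCL_F (f : Fin 2 → Fin 3 → D) :
    (Fin 2 → ℂ) →ₗ[ℂ] (Fin 3 → ℂ) →ₗ[ℂ] D :=
  LinearMap.mk₂ ℂ (fun a b => ∑ k, ∑ m, (a k * b m) • f k m)
    (fun a a' b => by simp only [Pi.add_apply, add_mul, add_smul, Finset.sum_add_distrib])
    (fun c a b => by
      simp only [Pi.smul_apply, smul_eq_mul, mul_assoc, mul_smul, Finset.smul_sum])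
    (fun a b b' => by simp only [Pi.add_apply, mul_add, add_smul, Finset.sum_add_distrib])
    (fun c a b => by
      simp only [Pi.smul_apply, smul_eq_mul, Finset.smul_sum, smul_smul]
      refine Finset.sum_congr rfl fun k _ => Finset.sum_congr rfl fun m _ => ?_
      congr 1
      ring)

lemma KCL_F_apply (f : Fin 2 → Fin 3 → D) (a : Fin 2 → ℂ) (b : Fin 3 → ℂ) :
    KCL_F f a b = ∑ k, ∑ m, (a k * b m) • f k m := rfl

lemma KCL_LI4 (h : Fin 4 → D) (h0 : ∀ y, (∀ i, h i y = 0) → y = 0) :
    LinearIndependent ℂ h := by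
  let L : V →ₗ[ℂ] (Fin 4 → ℂ) := LinearMap.pi h
  have hinj : Function.Injective L := by
    rw [← LinearMap.ker_eq_bot, LinearMap.ker_eq_bot']
    intro y hy
    exact h0 y fun i => congrFun hy i
  have hsurj : Function.Surjective L := LinearMap.injective_iff_surjective.1 hinj
  rw [Fintype.linearIndependent_iff]
  intro c hc i
  obtain ⟨y, hy⟩ := hsurj (Pi.single i 1)
  have h1 := congrArg (fun φ : D => φ y) hc
  simp only [LinearMap.sum_apply, LinearMap.smul_apply, smul_eq_mul, LinearMap.zero_apply] at h1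
  have h2 : ∀ j, h j y = (Pi.single i 1 : Fin 4 → ℂ) j := fun j => congrFun hy j
  simp only [h2] at h1
  simpa [Pi.single_apply] using h1

/-- two independent relations -/
lemma KCL_two (f : Fin 2 → Fin 3 → D) (a0 a1 : Fin 2 → ℂ) :
    1 < Module.finrank ℂ (LinearMap.ker ((KCL_F f a0).coprod (KCL_F f a1))) := by
  have h1 := LinearMap.finrank_range_add_finrank_ker ((KCL_F f a0).coprod (KCL_F f a1))
  have h2 : Module.finrank ℂ (LinearMap.range ((KCL_F f a0).coprod (KCL_F f a1))) ≤ 4 := by
    refine (Submodule.finrank_le _).trans (le_of_eq ?_)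
    rw [Module.finrank_linearMap]
    simp
  have h3 : Module.finrank ℂ ((Fin 3 → ℂ) × (Fin 3 → ℂ)) = 6 := by simp
  omega

lemma KCL_unit {n : ℕ} (a : Fin n → Fin n → ℂ) (ha : LinearIndependent ℂ a) :
    IsUnit (Matrix.of a).det := by
  rw [← Matrix.isUnit_iff_isUnit_det]
  exact Matrix.linearIndependent_rows_iff_isUnit.1 ha

/-- passage from bases to the statement -/
lemma KCL_fin (f : Fin 2 → Fin 3 → D) (hf : ∀ y, (∀ i j, f i j y = 0) → y = 0)
    (a : Fin 2 → Fin 2 → ℂ) (b : Fin 3 → Fin 3 → ℂ) (ha : LinearIndependent ℂ a)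
    (hb : LinearIndependent ℂ b) (y : V) (h : ∀ i j, KCL_F f (a i) (b j) y = 0) : y = 0 := by
  let G : (Fin 2 → ℂ) →ₗ[ℂ] (Fin 3 → ℂ) →ₗ[ℂ] ℂ :=
    LinearMap.mk₂ ℂ (fun a b => KCL_F f a b y)
      (fun a a' b => by simp) (fun c a b => by simp) (fun a b b' => by simp)
      (fun c a b => by simp)
  have hG : G = 0 := by
    let ba := basisOfLinearIndependentOfCardEqFinrank ha (by simp)
    let bb := basisOfLinearIndependentOfCardEqFinrank hb (by simp)
    refine LinearMap.ext_basis ba bb fun i j => ?_
    simp only [ba, bb, coe_basisOfLinearIndependentOfCardEqFinrank, LinearMap.zero_apply]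
    exact h i j
  apply hf
  intro i j
  have h1 := congrArg (fun G : (Fin 2 → ℂ) →ₗ[ℂ] (Fin 3 → ℂ) →ₗ[ℂ] ℂ =>
    G (Pi.single i 1) (Pi.single j 1)) hG
  have h2 : KCL_F f (Pi.single i 1) (Pi.single j 1) y = 0 := h1
  rw [KCL_F_apply] at h2
  simpa [Pi.single_apply, LinearMap.sum_apply] using h2

/-- extension to a basis -/
lemma KCL_ext (b0 b1 : Fin 3 → ℂ) (h : LinearIndependent ℂ ![b0, b1]) :
    ∃ b2, LinearIndependent ℂ ![b0, b1, b2] := by
  obtain ⟨x, hx⟩ := exists_linearIndependent_snoc_of_lt_finrank h (by simp)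
  refine ⟨x, ?_⟩
  have h1 : ![b0, b1, x] = Fin.snoc ![b0, b1] x := by
    funext i
    fin_cases i <;> rfl
  rw [h1]
  exact hx

/-- The combinatorial part. -/
lemma KCL_main (f : Fin 2 → Fin 3 → D) :
    ∃ (a : Fin 2 → Fin 2 → ℂ) (b : Fin 3 → Fin 3 → ℂ), LinearIndependent ℂ a ∧
      LinearIndependent ℂ b ∧
      ((KCL_F f (a 1) (b 1) = KCL_F f (a 0) (b 0) ∧ KCL_F f (a 1) (b 2) = KCL_F f (a 0) (b 1)) ∨
        (KCL_F f (a 0) (b 0) = 0 ∧ KCL_F f (a 1) (b 2) = KCL_F f (a 0) (b 1)) ∨
        (KCL_F f (a 1) (b 0) = 0 ∧ KCL_F f (a 1) (b 1) = KCL_F f (a 0) (b 0)) ∨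
        (KCL_F f (a 0) (b 0) = 0 ∧ KCL_F f (a 1) (b 1) = 0) ∨
        (KCL_F f (a 0) (b 0) = 0 ∧ KCL_F f (a 0) (b 1) = 0) ∨
        (KCL_F f (a 0) (b 0) = 0 ∧ KCL_F f (a 1) (b 0) = 0)) := by
  by_cases hI : ∃ (x : Fin 2 → ℂ) (w : Fin 3 → ℂ), x ≠ 0 ∧ w ≠ 0 ∧ KCL_F f x w = 0
  · obtain ⟨x, w, hx, hw, hxw⟩ := hI
    obtain ⟨x', hx'⟩ := exists_linearIndependent_pair_of_one_lt_finrank (R := ℂ)
      (M := Fin 2 → ℂ) (by simp) hx
    set N := LinearMap.ker ((KCL_F f x).coprod (KCL_F f x')) with hN
    have hv : (((w, 0) : (Fin 3 → ℂ) × (Fin 3 → ℂ))) ∈ N := by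
      rw [hN, LinearMap.mem_ker, LinearMap.coprod_apply, map_zero, add_zero, hxw]
    have hv0 : (⟨(w, 0), hv⟩ : N) ≠ 0 := by
      intro h
      have := congrArg (fun z : N => (z : (Fin 3 → ℂ) × (Fin 3 → ℂ)).1) h
      exact hw this
    obtain ⟨⟨⟨w2, w3⟩, hu⟩, hli⟩ := exists_linearIndependent_pair_of_one_lt_finrank (R := ℂ)
      (M := N) (KCL_two f x x') hv0
    have hrel : KCL_F f x w2 + KCL_F f x' w3 = 0 := by
      rw [hN, LinearMap.mem_ker, LinearMap.coprod_apply] at hu
      exact hu
    have hli' : ∀ s t : ℂ, s • w + t • w2 = 0 → t • w3 = 0 → s = 0 ∧ t = 0 := by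
      intro s t h1 h2
      rw [LinearIndependent.pair_iff] at hli
      apply hli s t
      apply Subtype.ext
      apply Prod.ext
      · simpa using h1
      · simpa using h2
    by_cases h3 : w3 = 0
    · -- form 5
      have hb : LinearIndependent ℂ ![w, w2] := by
        rw [LinearIndependent.pair_iff]
        intro s t h
        exact hli' s t h (by rw [h3, smul_zero])
      obtain ⟨b2, hb2⟩ := KCL_ext w w2 hb
      refine ⟨![x, x'], ![w, w2, b2], hx', hb2, ?_⟩
      right; right; right; right; left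
      refine ⟨hxw, ?_⟩
      rw [h3, map_zero, add_zero] at hrel
      exact hrel
    by_cases hc : ∃ c : ℂ, w3 = c • w
    · obtain ⟨c, hc⟩ := hc
      have hc0 : c ≠ 0 := by
        rintro rfl
        rw [zero_smul] at hc
        exact h3 hc
      by_cases hd : ∃ d : ℂ, w2 = d • w
      · -- form 6
        obtain ⟨d, hd⟩ := hd
        have hw2 : ∃ b1, LinearIndependent ℂ ![w, b1] :=
          exists_linearIndependent_pair_of_one_lt_finrank (R := ℂ) (M := Fin 3 → ℂ) (by simp) hw
        obtain ⟨b1, hb1⟩ := hw2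
        obtain ⟨b2, hb2⟩ := KCL_ext w b1 hb1
        refine ⟨![x, d • x + c • x'], ![w, b1, b2], ?_, hb2, ?_⟩
        · rw [LinearIndependent.pair_iff] at hx' ⊢
          intro s t h
          have h1 := hx' (s + t * d) (t * c) (by
            rw [← h, smul_add, smul_smul, smul_smul, add_smul, add_assoc])
          have ht : t = 0 := by
            rcases mul_eq_zero.1 h1.2 with h2 | h2
            · exact h2
            · exact absurd h2 hc0
          rw [ht] at h1
          exact ⟨by simpa using h1.1, ht⟩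
        · right; right; right; right; right
          refine ⟨hxw, ?_⟩
          show KCL_F f (d • x + c • x') w = 0
          rw [hc, hd, map_smul, map_smul] at hrel
          rw [map_add, map_smul, map_smul, LinearMap.add_apply, LinearMap.smul_apply,
            LinearMap.smul_apply]
          exact hrel
      · -- form 3
        have hb : LinearIndependent ℂ ![w, w2] := by
          rw [LinearIndependent.pair_iff]
          intro s t h
          by_cases ht : t = 0
          · rw [ht, zero_smul, add_zero, smul_eq_zero] at h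
            exact ⟨h.resolve_right hw, ht⟩
          · exfalso
            apply hd
            refine ⟨-(t⁻¹ * s), ?_⟩
            have h1 : t • w2 = -(s • w) := by rw [eq_neg_iff_add_eq_zero, add_comm]; exact h
            calc w2 = t⁻¹ • (t • w2) := by rw [smul_smul, inv_mul_cancel₀ ht, one_smul]
              _ = _ := by rw [h1, smul_neg, smul_smul, neg_smul]
        obtain ⟨b2, hb2⟩ := KCL_ext w w2 hb
        refine ⟨![-(c • x'), x], ![w, w2, b2], ?_, hb2, ?_⟩
        · rw [LinearIndependent.pair_iff] at hx' ⊢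
          intro s t h
          have h1 := hx' t (-(s * c)) (by
            rw [← h, neg_smul, mul_smul, smul_neg, add_comm])
          have h2 : s = 0 := by
            have := neg_eq_zero.1 h1.2
            rcases mul_eq_zero.1 this with h3 | h3
            · exact h3
            · exact absurd h3 hc0
          exact ⟨h2, h1.1⟩
        · right; right; left
          refine ⟨hxw, ?_⟩
          show KCL_F f x w2 = KCL_F f (-(c • x')) w
          rw [hc, map_smul] at hrel
          rw [map_neg, map_smul, LinearMap.neg_apply, LinearMap.smul_apply,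
            eq_neg_iff_add_eq_zero]
          exact hrel
    · have hw3 : LinearIndependent ℂ ![w, w3] := by
        rw [LinearIndependent.pair_iff]
        intro s t h
        by_cases ht : t = 0
        · rw [ht, zero_smul, add_zero, smul_eq_zero] at h
          exact ⟨h.resolve_right hw, ht⟩
        · exfalso
          apply hc
          refine ⟨-(t⁻¹ * s), ?_⟩
          have h1 : t • w3 = -(s • w) := by rw [eq_neg_iff_add_eq_zero, add_comm]; exact h
          calc w3 = t⁻¹ • (t • w3) := by rw [smul_smul, inv_mul_cancel₀ ht, one_smul]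
            _ = _ := by rw [h1, smul_neg, smul_smul, neg_smul]
      by_cases hd : ∃ α β : ℂ, w2 = α • w + β • w3
      · -- form 4
        obtain ⟨α, β, hd⟩ := hd
        obtain ⟨b2, hb2⟩ := KCL_ext w w3 hw3
        refine ⟨![x, β • x + x'], ![w, w3, b2], ?_, hb2, ?_⟩
        · rw [LinearIndependent.pair_iff] at hx' ⊢
          intro s t h
          have h1 := hx' (s + t * β) t (by
            rw [← h, smul_add, smul_smul, add_smul, add_assoc])
          have ht := h1.2
          rw [ht] at h1
          exact ⟨by simpa using h1.1, ht⟩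
        · right; right; right; left
          refine ⟨hxw, ?_⟩
          show KCL_F f (β • x + x') w3 = 0
          rw [hd, map_add, map_smul, map_smul, hxw, smul_zero, zero_add] at hrel
          rw [map_add, map_smul, LinearMap.add_apply, LinearMap.smul_apply]
          exact hrel
      · -- form 2
        refine ⟨![x, x'], ![w, -w2, w3], hx', ?_, ?_⟩
        · rw [Fintype.linearIndependent_iff]
          intro c h
          rw [Fin.sum_univ_three] at h
          simp only [Matrix.cons_val_zero, Matrix.cons_val_one, Matrix.cons_val_two,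
            Matrix.head_cons, Matrix.tail_cons] at h
          have hc1 : c 1 = 0 := by
            by_contra hc1
            apply hd
            refine ⟨(c 1)⁻¹ * c 0, (c 1)⁻¹ * c 2, ?_⟩
            have h1 : c 1 • w2 = c 0 • w + c 2 • w3 := by
              rw [smul_neg] at h
              have := h
              rw [add_right_comm, ← sub_eq_add_neg, sub_eq_zero] at this
              exact this.symm
            calc w2 = (c 1)⁻¹ • (c 1 • w2) := by rw [smul_smul, inv_mul_cancel₀ hc1, one_smul]
              _ = _ := by rw [h1, smul_add, smul_smul, smul_smul]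
          rw [hc1, zero_smul, add_zero] at h
          rw [LinearIndependent.pair_iff] at hw3
          have h2 := hw3 _ _ h
          intro i
          fin_cases i
          · exact h2.1
          · exact hc1
          · exact h2.2
        · right; left
          refine ⟨hxw, ?_⟩
          show KCL_F f x' w3 = KCL_F f x (-w2)
          rw [map_neg, eq_neg_iff_add_eq_zero, add_comm]
          exact hrel
  · -- form 1
    push Not at hI
    set e0 : Fin 2 → ℂ := ![1, 0] with he0
    set e1 : Fin 2 → ℂ := ![0, 1] with he1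
    have he : LinearIndependent ℂ ![e0, e1] := by
      rw [LinearIndependent.pair_iff]
      intro s t h
      have h1 := congrFun h 0
      have h2 := congrFun h 1
      simp [he0, he1] at h1 h2
      exact ⟨h1, h2⟩
    have hpair : ∀ s t : ℂ, s • e0 + t • e1 = 0 → s = 0 ∧ t = 0 :=
      LinearIndependent.pair_iff.1 he
    have he00 : e0 ≠ 0 := by
      intro h
      have := hpair 1 0 (by rw [h]; simp)
      exact one_ne_zero this.1
    have he10 : e1 ≠ 0 := by
      intro h
      have := hpair 0 1 (by rw [h]; simp)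
      exact one_ne_zero this.2
    have hfr := KCL_two f e0 e1
    set N := LinearMap.ker ((KCL_F f e0).coprod (KCL_F f e1)) with hN
    have hnt : Nontrivial N := Module.nontrivial_of_finrank_pos (R := ℂ) (by omega)
    obtain ⟨v, hv⟩ := exists_ne (0 : N)
    obtain ⟨v', hli⟩ := exists_linearIndependent_pair_of_one_lt_finrank (R := ℂ)
      (M := N) hfr hv
    obtain ⟨⟨p, q⟩, hpq⟩ := v
    obtain ⟨⟨p', q'⟩, hpq'⟩ := v'
    have hr : KCL_F f e0 p + KCL_F f e1 q = 0 := by
      rw [hN, LinearMap.mem_ker, LinearMap.coprod_apply] at hpq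
      exact hpq
    have hr' : KCL_F f e0 p' + KCL_F f e1 q' = 0 := by
      rw [hN, LinearMap.mem_ker, LinearMap.coprod_apply] at hpq'
      exact hpq'
    have hli' : ∀ s t : ℂ, s • p + t • p' = 0 → s • q + t • q' = 0 → s = 0 ∧ t = 0 := by
      intro s t h1 h2
      rw [LinearIndependent.pair_iff] at hli
      apply hli s t
      apply Subtype.ext
      apply Prod.ext
      · simpa using h1
      · simpa using h2
    have hcomb : ∀ s t : ℂ, KCL_F f e0 (s • p + t • p') = -KCL_F f e1 (s • q + t • q') := by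
      intro s t
      rw [map_add, map_add, map_smul, map_smul, map_smul, map_smul, eq_neg_iff_add_eq_zero]
      have : s • (KCL_F f e0 p + KCL_F f e1 q) + t • (KCL_F f e0 p' + KCL_F f e1 q') = 0 := by
        rw [hr, hr', smul_zero, smul_zero, add_zero]
      rw [← this, smul_add, smul_add]
      abel
    have hP : ∀ s t : ℂ, s • p + t • p' = 0 → s = 0 ∧ t = 0 := by
      intro s t h
      apply hli' s t h
      by_contra h2
      apply hI e1 _ he10 h2
      have h3 := hcomb s t
      rw [h, map_zero] at h3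
      exact neg_eq_zero.1 h3.symm
    have hQ : ∀ s t : ℂ, s • q + t • q' = 0 → s = 0 ∧ t = 0 := by
      intro s t h
      refine hli' s t ?_ h
      by_contra h2
      apply hI e0 _ he00 h2
      have h3 := hcomb s t
      rw [h, map_zero, neg_zero] at h3
      exact h3
    -- a dependence
    have hdep : ¬ LinearIndependent ℂ ![p, p', q, q'] := by
      intro h
      have := h.fintype_card_le_finrank
      simp at this
    rw [Fintype.not_linearIndependent_iff] at hdep
    obtain ⟨c, hc, i, hi⟩ := hdep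
    rw [Fin.sum_univ_four] at hc
    simp only [Matrix.cons_val_zero, Matrix.cons_val_one, Matrix.cons_val_two,
      Matrix.cons_val_three, Matrix.head_cons, Matrix.tail_cons] at hc
    obtain ⟨b1, hb1⟩ : ∃ b1 : Fin 3 → ℂ, b1 = c 0 • p + c 1 • p' := ⟨_, rfl⟩
    have hb1' : b1 = (-c 2) • q + (-c 3) • q' := by
      rw [hb1, neg_smul, neg_smul, ← sub_eq_zero]
      rw [← hc]
      abel
    have hb10 : b1 ≠ 0 := by
      intro h
      have h1 := hP _ _ (hb1.symm.trans h)
      have h2 := hQ _ _ (hb1'.symm.trans h)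
      apply hi
      fin_cases i
      · exact h1.1
      · exact h1.2
      · exact neg_eq_zero.1 h2.1
      · exact neg_eq_zero.1 h2.2
    obtain ⟨b2, hb2⟩ : ∃ b2 : Fin 3 → ℂ, b2 = -(c 0 • q + c 1 • q') := ⟨_, rfl⟩
    obtain ⟨b0, hb0⟩ : ∃ b0 : Fin 3 → ℂ, b0 = c 2 • p + c 3 • p' := ⟨_, rfl⟩
    have h12 : KCL_F f e1 b2 = KCL_F f e0 b1 := by
      rw [hb2, hb1, map_neg, hcomb]
    have h01 : KCL_F f e1 b1 = KCL_F f e0 b0 := by
      rw [hb0, hcomb, hb1', ← map_neg]
      congr 1
      rw [neg_smul, neg_smul, neg_add]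
    refine ⟨![e0, e1], ![b0, b1, b2], he, ?_, Or.inl ⟨h01, h12⟩⟩
    -- independence
    have hA : ∀ s t : ℂ, s • b0 + t • b1 = 0 → s = 0 ∧ t = 0 := by
      intro s t h
      by_cases hs : s = 0
      · rw [hs, zero_smul, zero_add, smul_eq_zero] at h
        exact ⟨hs, h.resolve_right hb10⟩
      · exfalso
        have h1 : b0 = (-(s⁻¹ * t)) • b1 := by
          have h2 : s • b0 = -(t • b1) := eq_neg_of_add_eq_zero_left h
          calc b0 = s⁻¹ • (s • b0) := by rw [smul_smul, inv_mul_cancel₀ hs, one_smul]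
            _ = _ := by rw [h2, smul_neg, smul_smul, neg_smul]
        apply hI (e1 - (-(s⁻¹ * t)) • e0) b1 ?_ hb10
        · rw [map_sub, map_smul, LinearMap.sub_apply, LinearMap.smul_apply, h01, h1, map_smul,
            sub_self]
        · intro h2
          have := hpair (s⁻¹ * t) 1 (by
            rw [← h2, neg_smul, sub_neg_eq_add, one_smul, add_comm])
          exact one_ne_zero this.2
    rw [Fintype.linearIndependent_iff]
    intro g hg
    rw [Fin.sum_univ_three] at hg
    simp only [Matrix.cons_val_zero, Matrix.cons_val_one, Matrix.cons_val_two,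
      Matrix.head_cons, Matrix.tail_cons] at hg
    have hg2 : g 2 = 0 := by
      by_contra hg2
      -- `b2 = α b0 + β b1`
      obtain ⟨α, hα⟩ : ∃ α : ℂ, α = -((g 2)⁻¹ * g 0) := ⟨_, rfl⟩
      obtain ⟨β, hβ⟩ : ∃ β : ℂ, β = -((g 2)⁻¹ * g 1) := ⟨_, rfl⟩
      have h2 : b2 = α • b0 + β • b1 := by
        have h3 : g 2 • b2 = -(g 0 • b0 + g 1 • b1) := eq_neg_of_add_eq_zero_right hg
        calc b2 = (g 2)⁻¹ • (g 2 • b2) := by rw [smul_smul, inv_mul_cancel₀ hg2, one_smul]
          _ = _ := by rw [h3, smul_neg, smul_add, smul_smul, smul_smul, hα, hβ, neg_smul,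
            neg_smul, neg_add]
      obtain ⟨s, hs⟩ : ∃ s : ℂ, s ^ 2 + β * s - α = 0 := by
        obtain ⟨r, hr⟩ := IsAlgClosed.exists_pow_nat_eq (β ^ 2 + 4 * α) (n := 2) (by norm_num)
        exact ⟨(-β + r) / 2, by linear_combination hr / 4⟩
      have hw : b1 + s • b0 ≠ 0 := by
        intro h
        have := hA s 1 (by rw [← h, one_smul, add_comm])
        exact one_ne_zero this.2
      apply hI (e0 - (β + s) • e1) (b1 + s • b0) ?_ hw
      · have h3 : KCL_F f e0 (b1 + s • b0) = KCL_F f e1 (b2 + s • b1) := by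
          rw [map_add, map_add, map_smul, map_smul, h12, h01]
        have h4 : b2 + s • b1 = (β + s) • (b1 + s • b0) := by
          rw [h2, smul_add, smul_smul, show (β + s) * s = α by linear_combination hs]
          rw [add_smul]
          abel
        rw [map_sub, map_smul, LinearMap.sub_apply, LinearMap.smul_apply, h3, h4, map_smul,
          sub_self]
      · intro h3
        have := hpair 1 (-(β + s)) (by
          rw [← h3, neg_smul, one_smul, sub_eq_add_neg])
        exact one_ne_zero this.1
    rw [hg2, zero_smul, add_zero] at hg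
    have h3 := hA _ _ hg
    intro i
    fin_cases i
    · exact h3.1
    · exact h3.2
    · exact hg2

theorem p_KCL : P_KCL := by
  intro f hf
  obtain ⟨a, b, ha, hb, h⟩ := KCL_main f
  have hz := KCL_fin f hf a b ha hb
  refine ⟨Matrix.of a, Matrix.of b, KCL_unit a ha, KCL_unit b hb,
    fun i j => KCL_F f (a i) (b j), fun i j => rfl, ?_⟩
  have key : ∀ (y : V), KCL_F f (a 0) (b 0) y = 0 → KCL_F f (a 0) (b 1) y = 0 →
      KCL_F f (a 0) (b 2) y = 0 → KCL_F f (a 1) (b 0) y = 0 → KCL_F f (a 1) (b 1) y = 0 →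
      KCL_F f (a 1) (b 2) y = 0 → y = 0 := by
    intro y h00 h01 h02 h10 h11 h12
    apply hz y
    intro i j
    fin_cases i <;> fin_cases j <;> assumption
  rcases h with ⟨h1, h2⟩ | ⟨h1, h2⟩ | ⟨h1, h2⟩ | ⟨h1, h2⟩ | ⟨h1, h2⟩ | ⟨h1, h2⟩
  · left
    refine ⟨h1, h2, KCL_LI4 _ fun y hy => ?_⟩
    have e0 := hy 0
    have e1 := hy 1
    have e2 := hy 2
    have e3 := hy 3
    simp only [Matrix.cons_val_zero, Matrix.cons_val_one, Matrix.cons_val_two,
      Matrix.cons_val_three, Matrix.head_cons, Matrix.tail_cons] at e0 e1 e2 e3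
    exact key y e1 e2 e3 e0 (by rw [h1]; exact e1) (by rw [h2]; exact e2)
  · right; left
    refine ⟨h1, h2, KCL_LI4 _ fun y hy => ?_⟩
    have e0 := hy 0
    have e1 := hy 1
    have e2 := hy 2
    have e3 := hy 3
    simp only [Matrix.cons_val_zero, Matrix.cons_val_one, Matrix.cons_val_two,
      Matrix.cons_val_three, Matrix.head_cons, Matrix.tail_cons] at e0 e1 e2 e3
    exact key y (by rw [h1]; rfl) e2 e3 e0 e1 (by rw [h2]; exact e2)
  · right; right; left
    refine ⟨h1, h2, KCL_LI4 _ fun y hy => ?_⟩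
    have e0 := hy 0
    have e1 := hy 1
    have e2 := hy 2
    have e3 := hy 3
    simp only [Matrix.cons_val_zero, Matrix.cons_val_one, Matrix.cons_val_two,
      Matrix.cons_val_three, Matrix.head_cons, Matrix.tail_cons] at e0 e1 e2 e3
    exact key y (by rw [← h2]; exact e0) e2 e3 (by rw [h1]; rfl) e0 e1
  · right; right; right; left
    refine ⟨h1, h2, KCL_LI4 _ fun y hy => ?_⟩
    have e0 := hy 0
    have e1 := hy 1
    have e2 := hy 2
    have e3 := hy 3
    simp only [Matrix.cons_val_zero, Matrix.cons_val_one, Matrix.cons_val_two,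
      Matrix.cons_val_three, Matrix.head_cons, Matrix.tail_cons] at e0 e1 e2 e3
    exact key y (by rw [h1]; rfl) e0 e1 e2 (by rw [h2]; rfl) e3
  · right; right; right; right; left
    exact ⟨h1, h2⟩
  · right; right; right; right; right
    exact ⟨h1, h2⟩

end Pool.Agent.MR8
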