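import Pool.Agent.MR8.Defs
import Pool.Agent.MR4.Eight

set_option autoImplicit false

/-!
# Two slices in the span of four frames independent in both factors
-/

namespace Pool.Agent.MR8

open Matrix

/-- The vectors dual to four independent linear forms. -/
lemma KK_dual (η : Fin 4 → D) (h : LinearIndependent ℂ η) :
    ∃ e : Fin 4 → V, (∀ i j, η i (e j) = if i = j then 1 else 0) ∧
      ∀ y : V, y = ∑ i, η i y • e i := by
  have hc : Fintype.card (Fin 4) = Module.finrank ℂ D := by
    rw [show Module.finrank ℂ D = Module.finrank ℂ V from Subspace.dual_finrank_eq]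
    simp
  let B : Module.Basis (Fin 4) ℂ (Module.Dual ℂ V) := basisOfLinearIndependentOfCardEqFinrank h hc
  have hB : ∀ i, B i = η i := fun i => by
    simp [B]
  let e : Fin 4 → V := fun j => (Module.evalEquiv ℂ V).symm (B.dualBasis j)
  have he : ∀ i j, η i (e j) = if i = j then 1 else 0 := by
    intro i j
    have h1 : Module.evalEquiv ℂ V (e j) = B.dualBasis j := by
      simp [e]
    have h2 : (Module.evalEquiv ℂ V (e j)) (η i) = η i (e j) := by
      simp [Module.evalEquiv_apply]
    rw [← h2, h1, ← hB i, Module.Basis.dualBasis_apply_self]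
  refine ⟨e, he, fun y => ?_⟩
  have h3 : ∀ φ : Module.Dual ℂ V, φ (y - ∑ i, η i y • e i) = 0 := by
    intro φ
    have h4 : φ = ∑ i, B.repr φ i • η i := by
      conv_lhs => rw [← B.sum_repr φ]
      simp [hB]
    have h5 : ∀ i, η i (y - ∑ i, η i y • e i) = 0 := by
      intro i
      rw [map_sub, map_sum]
      simp [he]
    rw [h4, LinearMap.sum_apply]
    refine Finset.sum_eq_zero fun i _ => ?_
    rw [LinearMap.smul_apply, h5 i, smul_zero]
  exact sub_eq_zero.mp ((Module.forall_dual_apply_eq_zero_iff ℂ _).mp h3)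

/-- Coordinates with respect to a basis which extends two independent vectors. -/
lemma KK_ext (l : Fin 2 → V) (h : LinearIndependent ℂ l) :
    ∃ (b : Fin 4 → V) (p : Fin 4 → D), b 0 = l 0 ∧ b 1 = l 1 ∧
      ∀ x : V, x = ∑ i, p i x • b i := by
  have hf : Module.finrank ℂ V = 4 := by simp
  obtain ⟨x, hx⟩ := exists_linearIndependent_snoc_of_lt_finrank h (by rw [hf]; norm_num)
  obtain ⟨y, hy⟩ := exists_linearIndependent_snoc_of_lt_finrank hx (by rw [hf]; norm_num)
  let B : Module.Basis (Fin 4) ℂ V := basisOfLinearIndependentOfCardEqFinrank hy (by simp)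
  have hB : (B : Fin 4 → V) = Fin.snoc (α := fun _ => V) (Fin.snoc (α := fun _ => V) l x) y :=
    coe_basisOfLinearIndependentOfCardEqFinrank hy (by simp)
  refine ⟨B, fun i => B.coord i, ?_, ?_, fun v => ?_⟩
  · rw [hB]; rfl
  · rw [hB]; rfl
  · exact (B.sum_repr v).symm

/-- Expansion of a trilinear form. -/
lemma KK_expand (T : Tri) (p q r : Fin 4 → ℂ) (b e f : Fin 4 → V) :
    T (∑ k, p k • b k) (∑ i, q i • e i) (∑ j, r j • f j) =
      ∑ k, ∑ i, ∑ j, p k * q i * r j * T (b k) (e i) (f j) := by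
  have e1 : ∀ B : Bi, B (∑ i, q i • e i) (∑ j, r j • f j) =
      ∑ i, ∑ j, q i * r j * B (e i) (f j) := by
    intro B
    rw [map_sum B, LinearMap.sum_apply]
    refine Finset.sum_congr rfl fun i _ => ?_
    rw [map_smul, LinearMap.smul_apply, map_sum, smul_eq_mul, Finset.mul_sum]
    refine Finset.sum_congr rfl fun j _ => ?_
    rw [map_smul, smul_eq_mul]
    ring
  rw [map_sum T, LinearMap.sum_apply, LinearMap.sum_apply]
  refine Finset.sum_congr rfl fun k _ => ?_
  rw [map_smul, LinearMap.smul_apply, LinearMap.smul_apply, e1, smul_eq_mul, Finset.mul_sum]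
  refine Finset.sum_congr rfl fun i _ => ?_
  rw [Finset.mul_sum]
  refine Finset.sum_congr rfl fun j _ => ?_
  ring

/-- Product of three sums. -/
lemma KK_prod (A B C : Fin 4 → ℂ) :
    (∑ k, A k) * (∑ i, B i) * (∑ j, C j) = ∑ k, ∑ i, ∑ j, A k * B i * C j := by
  rw [Finset.sum_mul_sum, Finset.sum_mul]
  refine Finset.sum_congr rfl fun k _ => ?_
  rw [Finset.sum_mul]
  refine Finset.sum_congr rfl fun i _ => ?_
  rw [Finset.mul_sum]

theorem p_KK : P_KK := by
  intro T l η ω hF hη hω
  obtain ⟨hl, hc⟩ := hF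
  obtain ⟨b, p, hb0, hb1, hp⟩ := KK_ext l hl
  obtain ⟨e, he, hy⟩ := KK_dual η hη
  obtain ⟨f, hf, hw⟩ := KK_dual ω hω
  obtain ⟨c0, h0⟩ := hc 0
  obtain ⟨c1, h1⟩ := hc 1
  have key : MR4.RK 8 (fun k => Matrix.of fun i j => T (b k) (e i) (f j)) := by
    refine MR4.RK8_of_diag c0 c1 ?_ ?_
    · ext i j
      simp only [Matrix.of_apply, hb0, h0, he, hf, Matrix.diagonal_apply]
      by_cases hij : i = j
      · subst hij; simp
      · simp [hij, Ne.symm hij]
    · ext i j
      simp only [Matrix.of_apply, hb1, h1, he, hf, Matrix.diagonal_apply]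
      by_cases hij : i = j
      · subst hij; simp
      · simp [hij, Ne.symm hij]
  obtain ⟨α, β, γ, hk⟩ := key
  refine ⟨fun s => ∑ k, α s k • p k, fun s => ∑ i, β s i • η i, fun s => ∑ j, γ s j • ω j, ?_⟩
  intro x y w
  conv_lhs => rw [hp x, hy y, hw w, KK_expand]
  have hk' : ∀ k i j, T (b k) (e i) (f j) = ∑ s, α s k * β s i * γ s j := hk
  simp only [hk', LinearMap.sum_apply, LinearMap.smul_apply, smul_eq_mul, KK_prod]
  conv_rhs => rw [Finset.sum_comm]
  refine Finset.sum_congr rfl fun k _ => ?_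
  conv_rhs => rw [Finset.sum_comm]
  refine Finset.sum_congr rfl fun i _ => ?_
  conv_rhs => rw [Finset.sum_comm]
  refine Finset.sum_congr rfl fun j _ => ?_
  rw [Finset.mul_sum]
  refine Finset.sum_congr rfl fun s _ => ?_
  ring

end Pool.Agent.MR8
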