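import Pool.Agent.MR8.Defs

set_option autoImplicit false

namespace Pool.Agent.MR8

open Matrix

lemma KP_rk' {r : ℕ} {T T' : Tri} (h : ∀ x y w, T' x w y = T x y w) (hT : RK r T') : RK r T := by
  obtain ⟨α, β, γ, e⟩ := hT
  refine ⟨α, γ, β, fun x y w => ?_⟩
  rw [← h, e]
  exact Finset.sum_congr rfl fun i _ => by ring

lemma KP_pair {l0 l1 : V} (h : LinearIndependent ℂ ![l0, l1]) (P : Matrix (Fin 2) (Fin 2) ℂ)
    (hP : IsUnit P.det) :
    LinearIndependent ℂ ![P 0 0 • l0 + P 0 1 • l1, P 1 0 • l0 + P 1 1 • l1] := by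
  rw [LinearIndependent.pair_iff] at h ⊢
  intro s t e
  have hd : P 0 0 * P 1 1 - P 0 1 * P 1 0 ≠ 0 := by
    rw [← Matrix.det_fin_two]
    exact isUnit_iff_ne_zero.mp hP
  have e' : (s * P 0 0 + t * P 1 0) • l0 + (s * P 0 1 + t * P 1 1) • l1 = 0 := by
    rw [← e]
    module
  obtain ⟨e1, e2⟩ := h _ _ e'
  constructor
  · have : s * (P 0 0 * P 1 1 - P 0 1 * P 1 0) = 0 := by
      linear_combination P 1 1 * e1 - P 1 0 * e2
    exact (mul_eq_zero.mp this).resolve_right hd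
  · have : t * (P 0 0 * P 1 1 - P 0 1 * P 1 0) = 0 := by
      linear_combination P 0 0 * e2 - P 0 1 * e1
    exact (mul_eq_zero.mp this).resolve_right hd

lemma KP_ext {w0 : V} (h : w0 ≠ 0) : ∃ c : Fin 3 → V, LinearIndependent ℂ ![w0, c 0, c 1, c 2] := by
  have h1 : LinearIndependent ℂ ![w0] := LinearIndependent.of_subsingleton 0 h
  obtain ⟨c0, h2⟩ := exists_linearIndependent_snoc_of_lt_finrank (h := by simp) h1
  obtain ⟨c1, h3⟩ := exists_linearIndependent_snoc_of_lt_finrank (h := by simp) h2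
  obtain ⟨c2, h4⟩ := exists_linearIndependent_snoc_of_lt_finrank (h := by simp) h3
  refine ⟨![c0, c1, c2], ?_⟩
  have e : (![w0, ![c0, c1, c2] 0, ![c0, c1, c2] 1, ![c0, c1, c2] 2] : Fin 4 → V) =
      Fin.snoc (Fin.snoc (Fin.snoc ![w0] c0) c1) c2 := by
    funext i
    fin_cases i <;> rfl
  rw [e]
  exact h4

lemma KP_Q {w0 : V} {c : Fin 3 → V} (h : LinearIndependent ℂ ![w0, c 0, c 1, c 2])
    (Q : Matrix (Fin 3) (Fin 3) ℂ) (hQ : IsUnit Q.det) :
    LinearIndependent ℂ ![w0, ∑ m, Q 0 m • c m, ∑ m, Q 1 m • c m, ∑ m, Q 2 m • c m] := by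
  rw [Fintype.linearIndependent_iff] at h ⊢
  intro g e
  simp only [Fin.sum_univ_four, Fin.sum_univ_three, Matrix.cons_val] at e
  have e' : ∑ i, (![g 0, g 1 * Q 0 0 + g 2 * Q 1 0 + g 3 * Q 2 0,
      g 1 * Q 0 1 + g 2 * Q 1 1 + g 3 * Q 2 1,
      g 1 * Q 0 2 + g 2 * Q 1 2 + g 3 * Q 2 2] : Fin 4 → ℂ) i • ![w0, c 0, c 1, c 2] i = 0 := by
    simp only [Fin.sum_univ_four, Matrix.cons_val]
    rw [← e]
    module
  have k := h _ e'
  have k0 := k 0
  have k1 := k 1
  have k2 := k 2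
  have k3 := k 3
  simp only [Matrix.cons_val] at k0 k1 k2 k3
  have kv : ![g 1, g 2, g 3] ᵥ* Q = 0 := by
    funext m
    fin_cases m
    · simpa [Matrix.vecMul, dotProduct, Fin.sum_univ_three] using k1
    · simpa [Matrix.vecMul, dotProduct, Fin.sum_univ_three] using k2
    · simpa [Matrix.vecMul, dotProduct, Fin.sum_univ_three] using k3
  have kz : (![g 1, g 2, g 3] : Fin 3 → ℂ) = 0 := by
    have := congrArg (fun v => v ᵥ* Q⁻¹) kv
    simpa [Matrix.vecMul_vecMul, Matrix.mul_nonsing_inv _ hQ] using this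
  intro i
  fin_cases i
  · exact k0
  · exact congrFun kz 0
  · exact congrFun kz 1
  · exact congrFun kz 2

lemma KP_zy (hZ : P_Z) {T : Tri} (hT : ¬ RK 8 T) {l0 l1 y y' : V}
    (hl : LinearIndependent ℂ ![l0, l1]) (hy : LinearIndependent ℂ ![y, y'])
    (h0 : ∀ w, T l0 y w = 0) (h1 : ∀ w, T l1 y w = 0) (h0' : ∀ w, T l0 y' w = 0)
    (h1' : ∀ w, T l1 y' w = 0) : False := by
  refine hT (hZ T ![l0, l1] ![y, y'] hl hy fun i j w => ?_)
  fin_cases i <;> fin_cases j
  · exact h0 w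
  · exact h0' w
  · exact h1 w
  · exact h1' w

lemma KP_zw (hZ : P_Z) {T : Tri} (hT : ¬ RK 8 T) {l0 l1 w w' : V}
    (hl : LinearIndependent ℂ ![l0, l1]) (hw : LinearIndependent ℂ ![w, w'])
    (h0 : ∀ y, T l0 y w = 0) (h1 : ∀ y, T l1 y w = 0) (h0' : ∀ y, T l0 y w' = 0)
    (h1' : ∀ y, T l1 y w' = 0) : False := by
  refine hT (KP_rk' (T' := sv T) (fun _ _ _ => rfl) (hZ (sv T) ![l0, l1] ![w, w'] hl hw
    fun i j y => ?_))
  fin_cases i <;> fin_cases j
  · exact h0 y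
  · exact h0' y
  · exact h1 y
  · exact h1' y

lemma KP_li {a b : V} (ha : a ≠ 0) (h : ¬ ∃ z : ℂ, b = z • a) : LinearIndependent ℂ ![a, b] := by
  rw [LinearIndependent.pair_iff' ha]
  exact fun z hz => h ⟨z, hz.symm⟩

theorem p_KP (h1 : P_Z) (h2 : P_B0) (h3 : P_KP0) (h4 : P_KP1) (h5 : P_KP3) (h6 : P_KCL)
    (h7 : P_P33) (h8 : P_KZA) (h9 : P_KZB) (h10 : P_KZC) (h11 : P_KZD) (h12 : P_KZ7) : P_KP := by
  intro T hT l0 l1 w0 hl hw g0 g1
  obtain ⟨c, hc⟩ := KP_ext hw
  by_cases hN : ∃ e4 : V, e4 ≠ 0 ∧ (∀ w, T l0 e4 w = 0) ∧ ∀ w, T l1 e4 w = 0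
  · exfalso
    obtain ⟨e4, he, e0, e1⟩ := hN
    have hy : ∀ y, (∀ w, T l0 y w = 0 ∧ T l1 y w = 0) → ∃ z : ℂ, y = z • e4 := by
      intro y hy
      by_contra hn
      exact KP_zy h1 hT hl (KP_li he hn) e0 e1 (fun w => (hy w).1) (fun w => (hy w).2)
    have hw' : ∀ w, (∀ y, T l0 y w = 0 ∧ T l1 y w = 0) → ∃ z : ℂ, w = z • w0 := by
      intro w hw'
      by_contra hn
      exact KP_zw h1 hT hl (KP_li hw hn) g0 g1 (fun y => (hw' y).1) (fun y => (hw' y).2)
    obtain ⟨P, hP, η, ω, hη, hω, z1, z2, hcase⟩ := h7 (T l0) (T l1) e4 w0 he hw e0 e1 g0 g1 hy hw'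
    have hZ : ZR (P 0 0 • l0 + P 0 1 • l1) (P 1 0 • l0 + P 1 1 • l1) e4 w0 η ω :=
      ⟨KP_pair hl P hP, he, hw, hη, hω, z1, z2⟩
    have hp : ∀ y w, T (P 0 0 • l0 + P 0 1 • l1) y w = P 0 0 * T l0 y w + P 0 1 * T l1 y w := by
      intro y w
      simp
    have hq : ∀ y w, T (P 1 0 • l0 + P 1 1 • l1) y w = P 1 0 * T l0 y w + P 1 1 * T l1 y w := by
      intro y w
      simp
    rcases hcase with ⟨k1, k2⟩ | ⟨k1, k2⟩ | ⟨k1, k2⟩ | ⟨α, β, k1, k2⟩ | ⟨k1, k2⟩
    · exact hT (h8 T _ _ e4 w0 η ω hZ (fun y w => by rw [hp, k1]) (fun y w => by rw [hq, k2]))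
    · exact hT (h9 T _ _ e4 w0 η ω hZ (fun y w => by rw [hp, k1]) (fun y w => by rw [hq, k2]))
    · exact hT (h10 T _ _ e4 w0 η ω hZ (fun y w => by rw [hp, k1]) (fun y w => by rw [hq, k2]))
    · exact hT (h11 T _ _ e4 w0 η ω α β hZ (fun y w => by rw [hp, k1])
        (fun y w => by rw [hq, k2]))
    · exact hT (h12 T _ _ e4 w0 η ω hZ (fun y w => by rw [hp, k1]) (fun y w => by rw [hq, k2]))
  · -- no common zero
    set f : Fin 2 → Fin 3 → D := fun i j => sv T (![l0, l1] i) (c j) with hf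
    have hspan : ∀ w : V, ∃ (z : ℂ) (d : Fin 3 → ℂ), w = z • w0 + ∑ j, d j • c j := by
      intro w
      have hcard : Fintype.card (Fin 4) = Module.finrank ℂ V := by simp
      set b := basisOfLinearIndependentOfCardEqFinrank hc hcard with hb
      have eb : ∀ i, b i = ![w0, c 0, c 1, c 2] i := fun i => by
        rw [hb, coe_basisOfLinearIndependentOfCardEqFinrank]
      refine ⟨b.repr w 0, ![b.repr w 1, b.repr w 2, b.repr w 3], ?_⟩
      conv_lhs => rw [← b.sum_repr w]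
      simp only [Fin.sum_univ_four, Fin.sum_univ_three, eb, Matrix.cons_val]
      module
    have hzero : ∀ y, (∀ i j, f i j y = 0) → y = 0 := by
      intro y hy
      by_contra hy0
      refine hN ⟨y, hy0, fun w => ?_, fun w => ?_⟩
      · obtain ⟨z, d, e⟩ := hspan w
        have k : ∀ j, T l0 y (c j) = 0 := fun j => hy 0 j
        rw [e]
        simp [g0, k]
      · obtain ⟨z, d, e⟩ := hspan w
        have k : ∀ j, T l1 y (c j) = 0 := fun j => hy 1 j
        rw [e]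
        simp [g1, k]
    obtain ⟨P, Q, hP, hQ, g, hg, hcase⟩ := h6 f hzero
    set p := P 0 0 • l0 + P 0 1 • l1 with hpd
    set q := P 1 0 • l0 + P 1 1 • l1 with hqd
    set c' : Fin 3 → V := fun j => ∑ m, Q j m • c m with hc'd
    have hpq : LinearIndependent ℂ ![p, q] := KP_pair hl P hP
    have hc' : LinearIndependent ℂ ![w0, c' 0, c' 1, c' 2] := KP_Q hc Q hQ
    have hgp : ∀ j, sv T p (c' j) = g 0 j := by
      intro j
      rw [hg]
      simp only [hpd, hc'd, hf, map_add, map_smul, LinearMap.add_apply,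
        LinearMap.smul_apply, Fin.sum_univ_two, Fin.sum_univ_three, Matrix.cons_val]
      module
    have hgq : ∀ j, sv T q (c' j) = g 1 j := by
      intro j
      rw [hg]
      simp only [hqd, hc'd, hf, map_add, map_smul, LinearMap.add_apply,
        LinearMap.smul_apply, Fin.sum_univ_two, Fin.sum_univ_three, Matrix.cons_val]
      module
    have hp0 : ∀ y, T p y w0 = 0 := by
      intro y
      simp [hpd, g0, g1]
    have hq0 : ∀ y, T q y w0 = 0 := by
      intro y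
      simp [hqd, g0, g1]
    rcases hcase with ⟨k1, k2, k3⟩ | ⟨k1, k2, k3⟩ | ⟨k1, k2, k3⟩ | ⟨k1, k2, k3⟩ | ⟨k1, k2⟩ |
      ⟨k1, k2⟩
    · exfalso
      refine hT (h3 T p q w0 c' hpq hc' hp0 hq0 ?_ ?_ ?_)
      · rw [hgp, hgq, k1]
      · rw [hgp, hgq, k2]
      · rw [hgp, hgp, hgp, hgq]
        exact k3
    · exfalso
      refine hT (h4 T p q w0 c' hpq hc' hp0 hq0 ?_ ?_ ?_)
      · rw [hgp, k1]
      · rw [hgp, hgq, k2]
      · rw [hgp, hgp, hgq, hgq]
        exact k3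
    · refine ⟨P, hP, hpq, hp0, hq0, c', hc', ?_, ?_, ?_⟩
      · rw [hgq, k1]
      · rw [hgp, hgq, k2]
      · rw [hgp, hgp, hgq, hgq]
        exact k3
    · exfalso
      refine hT (h5 T p q w0 c' hpq hc' hp0 hq0 ?_ ?_ ?_)
      · rw [hgp, k1]
      · rw [hgq, k2]
      · rw [hgp, hgp, hgq, hgq]
        exact k3
    · -- a slice of rank one
      exfalso
      have hpne : p ≠ 0 := hpq.ne_zero 0
      refine hT (h2 T p hpne ?_)
      have hcard : Fintype.card (Fin 4) = Module.finrank ℂ V := by simp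
      set b := basisOfLinearIndependentOfCardEqFinrank hc' hcard with hb
      have eb : ∀ i, b i = ![w0, c' 0, c' 1, c' 2] i := fun i => by
        rw [hb, coe_basisOfLinearIndependentOfCardEqFinrank]
      refine ⟨g 0 2, b.coord 3, fun y w => ?_⟩
      have z0 : T p y (c' 0) = 0 := by
        have := congrArg (fun φ : D => φ y) (hgp 0)
        simpa [k1, sv_apply] using this
      have z1 : T p y (c' 1) = 0 := by
        have := congrArg (fun φ : D => φ y) (hgp 1)
        simpa [k2, sv_apply] using this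
      have z2 : T p y (c' 2) = g 0 2 y := congrArg (fun φ : D => φ y) (hgp 2)
      conv_lhs => rw [← b.sum_repr w]
      simp only [Fin.sum_univ_four, eb, Matrix.cons_val, map_add, map_smul, hp0, z0, z1, z2,
        smul_eq_mul, Module.Basis.coord_apply]
      ring
    · exfalso
      have hwc : LinearIndependent ℂ ![w0, c' 0] := by
        have := hc'.comp ![0, 1] (by decide)
        convert this using 1
        funext i
        fin_cases i <;> rfl
      refine KP_zw h1 hT hpq hwc hp0 hq0 (fun y => ?_) (fun y => ?_)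
      · have := congrArg (fun φ : D => φ y) (hgp 0)
        simpa [k1, sv_apply] using this
      · have := congrArg (fun φ : D => φ y) (hgq 0)
        simpa [k2, sv_apply] using this

end Pool.Agent.MR8
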