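import Pool.Agent.MR8.Defs

/-!
# MR8: KP0, KP1, KP3 (helper49)

The kernel pencil of a slice of rank two.
-/

set_option autoImplicit false

namespace Pool.Agent.MR8

open Matrix

lemma KP0_RK_rt {r : ℕ} {T : Tri} (h : RK r (rt T)) : RK r T := by
  obtain ⟨α, β, γ, h⟩ := h
  refine ⟨β, γ, α, fun x y w => ?_⟩
  have h1 := h w x y
  rw [rt_apply] at h1
  rw [h1]
  exact Finset.sum_congr rfl fun i _ => by ring

lemma KP0_dual (η : Fin 4 → D) (h : LinearIndependent ℂ η) :
    ∃ e : Fin 4 → V, (∀ i j, η i (e j) = if i = j then 1 else 0) ∧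
      ∀ y, y = ∑ j, η j y • e j := by
  classical
  have hc : Fintype.card (Fin 4) = Module.finrank ℂ D := by
    rw [Subspace.dual_finrank_eq]
    simp
  let B := basisOfLinearIndependentOfCardEqFinrank h hc
  have hB : ∀ i, B i = η i := fun i => by
    simp [B]
  let e : Fin 4 → V := fun j => (Module.evalEquiv ℂ V).symm (B.dualBasis j)
  have he : ∀ (f : D) (j : Fin 4), f (e j) = B.dualBasis j f := by
    intro f j
    have h1 : (Module.evalEquiv ℂ V (e j)) f = B.dualBasis j f := by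
      simp only [e, LinearEquiv.apply_symm_apply]
    rw [← h1]
    rfl
  have h2 : ∀ i j, η i (e j) = if i = j then 1 else 0 := by
    intro i j
    rw [he, ← hB i, Module.Basis.dualBasis_apply_self]
  refine ⟨e, h2, fun y => ?_⟩
  have h3 : ∀ f : D, f y = f (∑ j, η j y • e j) := by
    intro f
    have h4 : f = ∑ i, B.repr f i • B i := (B.sum_repr f).symm
    rw [h4]
    simp only [LinearMap.sum_apply, LinearMap.smul_apply, map_sum, map_smul, hB, h2,
      smul_eq_mul, mul_ite, mul_one, mul_zero]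
    refine Finset.sum_congr rfl fun i _ => ?_
    simp [mul_comm]
  have h5 : ∀ f : Module.Dual ℂ V, f (y - ∑ j, η j y • e j) = 0 := by
    intro f
    rw [map_sub, sub_eq_zero]
    exact h3 f
  exact sub_eq_zero.1 ((Module.forall_dual_apply_eq_zero_iff ℂ _).1 h5)

lemma KP0_coords {w0 : V} {c : Fin 3 → V} (h : LinearIndependent ℂ ![w0, c 0, c 1, c 2]) :
    w0 ≠ 0 ∧ ∃ Ω : Fin 3 → D, (∀ i, Ω i w0 = 0) ∧ (∀ i j, Ω i (c j) = if i = j then 1 else 0) ∧
      ∀ f : D, f w0 = 0 → ∀ w, f w = ∑ i, Ω i w * f (c i) := by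
  refine ⟨h.ne_zero 0, ?_⟩
  have hc : Fintype.card (Fin 4) = Module.finrank ℂ V := by simp
  let B := basisOfLinearIndependentOfCardEqFinrank h hc
  have hB : ⇑B = ![w0, c 0, c 1, c 2] := coe_basisOfLinearIndependentOfCardEqFinrank h hc
  have h0 : B 0 = w0 := by rw [hB]; rfl
  have hs : ∀ i : Fin 3, B i.succ = c i := by
    intro i
    rw [hB]
    fin_cases i <;> rfl
  refine ⟨fun i => B.coord i.succ, fun _ => ?_, fun i j => ?_, fun f hf w => ?_⟩
  · rw [← h0, Module.Basis.coord_apply, Module.Basis.repr_self,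
      Finsupp.single_eq_of_ne (by simp [Fin.succ_ne_zero])]
  · rw [← hs j, Module.Basis.coord_apply, Module.Basis.repr_self]
    by_cases hij : i = j
    · subst hij; simp
    · rw [if_neg hij, Finsupp.single_eq_of_ne (by simpa [Fin.succ_inj] using hij)]
  · conv_lhs => rw [← B.sum_repr w]
    rw [Fin.sum_univ_succ, map_add, map_smul, h0, hf, smul_zero, zero_add, map_sum]
    refine Finset.sum_congr rfl fun i _ => ?_
    rw [map_smul, hs, smul_eq_mul, Module.Basis.coord_apply]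

lemma KP0_core (h3 : P_G3) {T : Tri} (hT : ¬ RK 8 T) {l : Fin 2 → V} {η ω : Fin 4 → D}
    (hF : Frames T l η ω) (hη : LinearIndependent ℂ η) {w0 : V} (hw : ∀ j, ω j w0 = 0)
    (k : Fin 4) (hω : LinearIndependent ℂ (fun i => ω (k.succAbove i))) {e : V}
    (he : ∀ j, j ≠ k → η j e = 0) : ∀ x, T x e w0 = 0 :=
  h3 T hT l η ω hF k.succAbove Fin.succAbove_right_injective
    (hη.comp _ Fin.succAbove_right_injective) hω e w0
    (fun i => he _ (Fin.succAbove_ne k i)) (fun _ => hw _)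

lemma KP0_all (h3 : P_G3) (h0 : P_ZERO) {T : Tri} (hT : ¬ RK 8 T) {l : Fin 2 → V}
    {η ω : Fin 4 → D} (hF : Frames T l η ω) (hη : LinearIndependent ℂ η) {w0 : V}
    (hw0 : w0 ≠ 0) (hw : ∀ j, ω j w0 = 0)
    (hω : ∀ k : Fin 4, LinearIndependent ℂ (fun i => ω (k.succAbove i))) : False := by
  obtain ⟨e, he, hy⟩ := KP0_dual η hη
  have h1 : ∀ k x, T x (e k) w0 = 0 := fun k =>
    KP0_core h3 hT hF hη hw k (hω k) (fun j hj => by rw [he, if_neg hj])
  have h2 : ∀ x y, T x y w0 = 0 := by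
    intro x y
    rw [hy y]
    simp [h1]
  exact hT (KP0_RK_rt (h0 (rt T) w0 hw0 fun x y => by rw [rt_apply]; exact h2 x y))

lemma KP0_li3 (v : Fin 3 → D) (c : Fin 3 → V)
    (h : (Matrix.of fun i j => v i (c j)).det ≠ 0) : LinearIndependent ℂ v := by
  rw [Fintype.linearIndependent_iff]
  intro g hg
  have h1 : g ᵥ* (Matrix.of fun i j => v i (c j)) = 0 := by
    ext j
    have h2 := LinearMap.congr_fun hg (c j)
    simpa [Matrix.vecMul, dotProduct] using h2
  exact congr_fun (Matrix.eq_zero_of_vecMul_eq_zero h h1)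

theorem p_KP0 (h3 : P_G3) (h0 : P_ZERO) : P_KP0 := by
  intro T p q w0 c hpq hw hp hq h10 h21 hu
  by_contra hT
  obtain ⟨hw0, Ω, hΩ0, hΩ, hf⟩ := KP0_coords hw
  have ep : ∀ y w, T p y w = Ω 0 w * T p y (c 0) + Ω 1 w * T p y (c 1) + Ω 2 w * T p y (c 2) := by
    intro y w
    rw [hf (T p y) (hp y) w, Fin.sum_univ_three]
  have eq : ∀ y w, T q y w = Ω 0 w * T q y (c 0) + Ω 1 w * T p y (c 0) + Ω 2 w * T p y (c 1) := by
    intro y w
    have h1 : T q y (c 1) = T p y (c 0) := LinearMap.congr_fun h10 y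
    have h2 : T q y (c 2) = T p y (c 1) := LinearMap.congr_fun h21 y
    rw [hf (T q y) (hq y) w, Fin.sum_univ_three, h1, h2]
  clear h10 h21
  have e0 : ∀ y, T q y (c 0) = sv T q (c 0) y := fun y => rfl
  have e1 : ∀ y, T p y (c 0) = sv T p (c 0) y := fun y => rfl
  have e2 : ∀ y, T p y (c 1) = sv T p (c 1) y := fun y => rfl
  have e3 : ∀ y, T p y (c 2) = sv T p (c 2) y := fun y => rfl
  simp only [e0, e1, e2, e3] at ep eq
  clear e0 e1 e2 e3
  generalize sv T q (c 0) = u0 at *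
  generalize sv T p (c 0) = u1 at *
  generalize sv T p (c 1) = u2 at *
  generalize sv T p (c 2) = u3 at *
  let η : Fin 4 → D := ![(1 / 2 : ℂ) • (2 • u0 - u1 - 2 • u2 + u3),
    (1 / 2 : ℂ) • (2 • u1 + u2 - u3), (1 / 6 : ℂ) • (3 • u2 - 2 • u1 - u3),
    (1 / 6 : ℂ) • (u3 - u1)]
  let ω : Fin 4 → D := ![Ω 0, Ω 0 + Ω 1 + Ω 2, Ω 0 - Ω 1 + Ω 2, Ω 0 + 2 • Ω 1 + 4 • Ω 2]
  have hη : LinearIndependent ℂ η := by
    rw [Fintype.linearIndependent_iff] at hu ⊢
    intro g hg
    have h1 := hu ![g 0, -(1 / 2) * g 0 + g 1 - (1 / 3) * g 2 - (1 / 6) * g 3,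
      -g 0 + (1 / 2) * g 1 + (1 / 2) * g 2,
      (1 / 2) * g 0 - (1 / 2) * g 1 - (1 / 6) * g 2 + (1 / 6) * g 3] (by
        rw [← hg]
        simp only [Fin.sum_univ_four, η, Matrix.cons_val]
        module)
    have a0 := h1 0
    have a1 := h1 1
    have a2 := h1 2
    have a3 := h1 3
    simp only [Matrix.cons_val] at a0 a1 a2 a3
    have b1 : g 1 + g 2 = 0 := by linear_combination 2 * a2 + 2 * a0
    have b2 : g 1 - g 2 = 0 := by linear_combination 2 * (a1 + a3)
    have b3 : g 1 = 0 := by linear_combination (1 / 2) * (b1 + b2)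
    have b4 : g 2 = 0 := by linear_combination (1 / 2) * (b1 - b2)
    have b5 : g 3 = 0 := by linear_combination 6 * a3 - 3 * a0 + 3 * b3 + b4
    intro i
    fin_cases i
    exacts [a0, b3, b4, b5]
  have hF : Frames T ![p, q] η ω := by
    refine ⟨hpq, fun i => ?_⟩
    fin_cases i
    · refine ⟨![0, 1, -1, 2], fun y w => ?_⟩
      show T p y w = _
      rw [ep]
      simp [Fin.sum_univ_four, η, ω, Matrix.cons_val]
      ring
    · refine ⟨![1, 1, 1, 1], fun y w => ?_⟩
      show T q y w = _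
      rw [eq]
      simp [Fin.sum_univ_four, η, ω, Matrix.cons_val]
      ring
  refine KP0_all h3 h0 hT hF hη hw0 (fun j => ?_) (fun k => KP0_li3 _ c ?_)
  · fin_cases j <;> simp [ω, hΩ0]
  · fin_cases k <;> simp [Matrix.det_fin_three, ω, hΩ, Fin.succAbove] <;> norm_num

theorem p_KP1 (h3 : P_G3) (hB : P_B0) : P_KP1 := by
  intro T p q w0 c hpq hw hp hq h10 h21 hu
  by_contra hT
  obtain ⟨hw0, Ω, hΩ0, hΩ, hf⟩ := KP0_coords hw
  have ep : ∀ y w, T p y w = Ω 1 w * T p y (c 1) + Ω 2 w * T p y (c 2) := by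
    intro y w
    have h1 : T p y (c 0) = 0 := LinearMap.congr_fun h10 y
    rw [hf (T p y) (hp y) w, Fin.sum_univ_three, h1, mul_zero, zero_add]
  have eq : ∀ y w, T q y w = Ω 0 w * T q y (c 0) + Ω 1 w * T q y (c 1) + Ω 2 w * T p y (c 1) := by
    intro y w
    have h2 : T q y (c 2) = T p y (c 1) := LinearMap.congr_fun h21 y
    rw [hf (T q y) (hq y) w, Fin.sum_univ_three, h2]
  clear h10 h21
  have e0 : ∀ y, T q y (c 0) = sv T q (c 0) y := fun y => rfl
  have e1 : ∀ y, T q y (c 1) = sv T q (c 1) y := fun y => rfl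
  have e2 : ∀ y, T p y (c 1) = sv T p (c 1) y := fun y => rfl
  have e3 : ∀ y, T p y (c 2) = sv T p (c 2) y := fun y => rfl
  simp only [e0, e1, e2, e3] at ep eq
  clear e0 e1 e2 e3
  generalize sv T q (c 0) = u0 at *
  generalize sv T q (c 1) = u1 at *
  generalize sv T p (c 1) = u2 at *
  generalize sv T p (c 2) = u3 at *
  let η : Fin 4 → D := ![u0, u1 - u3, (1 / 2 : ℂ) • (u3 + u2), (1 / 2 : ℂ) • (u3 - u2)]
  let ω : Fin 4 → D := ![Ω 0, Ω 1, Ω 1 + Ω 2, Ω 1 - Ω 2]
  have hη : LinearIndependent ℂ η := by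
    rw [Fintype.linearIndependent_iff] at hu ⊢
    intro g hg
    have h1 := hu ![g 0, g 1, (1 / 2) * g 2 - (1 / 2) * g 3,
      -g 1 + (1 / 2) * g 2 + (1 / 2) * g 3] (by
        rw [← hg]
        simp only [Fin.sum_univ_four, η, Matrix.cons_val]
        module)
    have a0 := h1 0
    have a1 := h1 1
    have a2 := h1 2
    have a3 := h1 3
    simp only [Matrix.cons_val] at a0 a1 a2 a3
    have b2 : g 2 = 0 := by linear_combination a1 + a2 + a3
    have b3 : g 3 = 0 := by linear_combination a1 - a2 + a3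
    intro i
    fin_cases i
    exacts [a0, a1, b2, b3]
  have hF : Frames T ![p, q] η ω := by
    refine ⟨hpq, fun i => ?_⟩
    fin_cases i
    · refine ⟨![0, 0, 1, -1], fun y w => ?_⟩
      show T p y w = _
      rw [ep]
      simp [Fin.sum_univ_four, η, ω, Matrix.cons_val]
      ring
    · refine ⟨![1, 1, 1, 1], fun y w => ?_⟩
      show T q y w = _
      rw [eq]
      simp [Fin.sum_univ_four, η, ω, Matrix.cons_val]
      ring
  have hw' : ∀ j, ω j w0 = 0 := fun j => by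
    fin_cases j <;> simp [ω, hΩ0]
  obtain ⟨e, he, hy⟩ := KP0_dual η hη
  have hk : ∀ k : Fin 3, ∀ x, T x (e k.succ) w0 = 0 := fun k =>
    KP0_core h3 hT hF hη hw' k.succ
      (KP0_li3 _ c (by
        fin_cases k <;> simp [Matrix.det_fin_three, ω, hΩ, Fin.succAbove] <;> norm_num))
      (fun j hj => by rw [he, if_neg hj])
  refine hT (KP0_RK_rt (hB (rt T) w0 hw0 ⟨(T.flip (e 0)).flip w0, η 0, fun x y => ?_⟩))
  rw [rt_apply]
  conv_lhs => rw [hy y]
  rw [Fin.sum_univ_succ, map_add, LinearMap.add_apply, map_sum, LinearMap.sum_apply,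
    Finset.sum_eq_zero (fun k _ => by rw [map_smul, LinearMap.smul_apply, hk, smul_zero]),
    add_zero, map_smul, LinearMap.smul_apply, smul_eq_mul, mul_comm]
  rfl

theorem p_KP3 (h3 : P_G3) (h0 : P_ZERO) : P_KP3 := by
  intro T p q w0 c hpq hw hp hq h10 h21 hu
  by_contra hT
  obtain ⟨hw0, Ω, hΩ0, hΩ, hf⟩ := KP0_coords hw
  have ep : ∀ y w, T p y w = Ω 1 w * T p y (c 1) + Ω 2 w * T p y (c 2) := by
    intro y w
    have h1 : T p y (c 0) = 0 := LinearMap.congr_fun h10 y
    rw [hf (T p y) (hp y) w, Fin.sum_univ_three, h1, mul_zero, zero_add]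
  have eq : ∀ y w, T q y w = Ω 0 w * T q y (c 0) + Ω 2 w * T q y (c 2) := by
    intro y w
    have h2 : T q y (c 1) = 0 := LinearMap.congr_fun h21 y
    rw [hf (T q y) (hq y) w, Fin.sum_univ_three, h2, mul_zero, add_zero]
  clear h10 h21
  have e0 : ∀ y, T q y (c 0) = sv T q (c 0) y := fun y => rfl
  have e1 : ∀ y, T q y (c 2) = sv T q (c 2) y := fun y => rfl
  have e2 : ∀ y, T p y (c 1) = sv T p (c 1) y := fun y => rfl
  have e3 : ∀ y, T p y (c 2) = sv T p (c 2) y := fun y => rfl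
  simp only [e0, e1, e2, e3] at ep eq
  clear e0 e1 e2 e3
  generalize sv T q (c 0) = q0 at *
  generalize sv T q (c 2) = q2 at *
  generalize sv T p (c 1) = p1 at *
  generalize sv T p (c 2) = p2 at *
  let η : Fin 4 → D := ![p1 + p2, p1 - p2, q0 + q2, q0 - q2]
  let ω : Fin 4 → D := ![Ω 1 + Ω 2, Ω 1 - Ω 2, Ω 0 + Ω 2, Ω 0 - Ω 2]
  have hη : LinearIndependent ℂ η := by
    rw [Fintype.linearIndependent_iff] at hu ⊢
    intro g hg
    have h1 := hu ![g 0 + g 1, g 0 - g 1, g 2 + g 3, g 2 - g 3] (by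
        rw [← hg]
        simp only [Fin.sum_univ_four, η, Matrix.cons_val]
        module)
    have a0 := h1 0
    have a1 := h1 1
    have a2 := h1 2
    have a3 := h1 3
    simp only [Matrix.cons_val] at a0 a1 a2 a3
    have b0 : g 0 = 0 := by linear_combination (1 / 2) * (a0 + a1)
    have b1 : g 1 = 0 := by linear_combination (1 / 2) * (a0 - a1)
    have b2 : g 2 = 0 := by linear_combination (1 / 2) * (a2 + a3)
    have b3 : g 3 = 0 := by linear_combination (1 / 2) * (a2 - a3)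
    intro i
    fin_cases i
    exacts [b0, b1, b2, b3]
  have hF : Frames T ![p, q] η ω := by
    refine ⟨hpq, fun i => ?_⟩
    fin_cases i
    · refine ⟨![1 / 2, 1 / 2, 0, 0], fun y w => ?_⟩
      show T p y w = _
      rw [ep]
      simp [Fin.sum_univ_four, η, ω, Matrix.cons_val]
      ring
    · refine ⟨![0, 0, 1 / 2, 1 / 2], fun y w => ?_⟩
      show T q y w = _
      rw [eq]
      simp [Fin.sum_univ_four, η, ω, Matrix.cons_val]
      ring
  refine KP0_all h3 h0 hT hF hη hw0 (fun j => ?_) (fun k => KP0_li3 _ c ?_)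
  · fin_cases j <;> simp [ω, hΩ0]
  · fin_cases k <;> simp [Matrix.det_fin_three, ω, hΩ, Fin.succAbove] <;> norm_num

end Pool.Agent.MR8
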