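import Pool.Agent.MR8.Defs

set_option autoImplicit false

/-!
# The kernel pencils of the types KZA and KZ7
-/

namespace Pool.Agent.MR8

open Matrix

/-! ### The rank does not depend on the order of the arguments -/

lemma KZA_RK_sw {r : ℕ} {T : Tri} (h : RK r (sw T)) : RK r T := by
  obtain ⟨α, β, γ, h⟩ := h
  refine ⟨β, α, γ, fun x y w => ?_⟩
  rw [← sw_apply, h]
  exact Finset.sum_congr rfl fun i _ => by ring

lemma KZA_RK_rt {r : ℕ} {T : Tri} (h : RK r (rt T)) : RK r T := by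
  obtain ⟨α, β, γ, h⟩ := h
  refine ⟨β, γ, α, fun x y w => ?_⟩
  rw [← rt_apply, h]
  exact Finset.sum_congr rfl fun i _ => by ring

/-! ### Dual vectors -/

/-- vectors dual to three independent forms; `e4` spans the common kernel -/
lemma KZA_dual (η : Fin 3 → D) (h : LinearIndependent ℂ η) (e4 : V) (h4 : e4 ≠ 0)
    (h0 : ∀ i, η i e4 = 0) :
    ∃ e : Fin 3 → V, (∀ i j, η i (e j) = if i = j then 1 else 0) ∧
      ∀ y : V, ∃ c : ℂ, y = η 0 y • e 0 + η 1 y • e 1 + η 2 y • e 2 + c • e4 := by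
  let φ : V →ₗ[ℂ] (Fin 3 → ℂ) := LinearMap.pi η
  have hφ : ∀ y i, φ y i = η i y := fun y i => rfl
  have hsurj : LinearMap.range φ = ⊤ := by
    by_contra hne
    obtain ⟨f, hf, hle⟩ := Submodule.exists_le_ker_of_lt_top _ (lt_top_iff_ne_top.2 hne)
    have h1 : ∑ i, f (Pi.single i 1) • η i = 0 := by
      ext y
      rw [LinearMap.zero_comp, LinearMap.zero_apply]
      have h2 : f (φ (LinearMap.single ℂ (fun _ => ℂ) y 1)) = 0 :=
        hle (LinearMap.mem_range_self φ _)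
      have h3 : ∀ v : Fin 3 → ℂ, f v = ∑ i, f (Pi.single i 1) * v i := by
        intro v
        conv_lhs => rw [LinearMap.pi_apply_eq_sum_univ f v]
        exact Finset.sum_congr rfl fun i _ => by
          rw [smul_eq_mul, mul_comm]
          congr 2
          ext j
          simp [Pi.single_apply, eq_comm]
      rw [h3] at h2
      simpa [hφ] using h2
    have h2 := Fintype.linearIndependent_iff.1 h _ h1
    apply hf
    refine LinearMap.pi_ext' fun i => ?_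
    ext
    simpa using h2 i
  have hs : Function.Surjective φ := LinearMap.range_eq_top.1 hsurj
  choose g hg using hs
  refine ⟨fun j => g (Pi.single j 1), fun i j => ?_, fun y => ?_⟩
  · rw [← hφ, hg]
    simp [Pi.single_apply]
  · have hk : Module.finrank ℂ (LinearMap.ker φ) = 1 := by
      have h1 := LinearMap.finrank_range_add_finrank_ker φ
      rw [hsurj, finrank_top] at h1
      simp at h1
      omega
    have h4k : e4 ∈ LinearMap.ker φ := by
      rw [LinearMap.mem_ker]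
      funext i
      rw [hφ, h0]
      rfl
    have hyk : y - (η 0 y • g (Pi.single 0 1) + η 1 y • g (Pi.single 1 1) +
        η 2 y • g (Pi.single 2 1)) ∈ LinearMap.ker φ := by
      rw [LinearMap.mem_ker, map_sub, map_add, map_add, map_smul, map_smul, map_smul, hg, hg, hg]
      funext i
      fin_cases i <;> simp [hφ]
    have hne : (⟨e4, h4k⟩ : LinearMap.ker φ) ≠ 0 := by
      intro h
      exact h4 (congrArg Subtype.val h)
    obtain ⟨c, hc⟩ := exists_smul_eq_of_finrank_eq_one hk hne ⟨_, hyk⟩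
    refine ⟨c, ?_⟩
    have h2 := congrArg Subtype.val hc
    simp only [Submodule.coe_smul] at h2
    rw [h2]
    abel

/-! ### Independence -/

lemma KZA_li2 (g0 g1 : D) (v0 v1 : V) (h : g0 v0 * g1 v1 - g0 v1 * g1 v0 ≠ 0) :
    LinearIndependent ℂ ![g0, g1] := by
  rw [LinearIndependent.pair_iff]
  intro s t hst
  have e0 : s * g0 v0 + t * g1 v0 = 0 := by
    have := congrArg (fun f : D => f v0) hst
    simpa using this
  have e1 : s * g0 v1 + t * g1 v1 = 0 := by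
    have := congrArg (fun f : D => f v1) hst
    simpa using this
  constructor
  · have : s * (g0 v0 * g1 v1 - g0 v1 * g1 v0) = 0 := by
      linear_combination g1 v1 * e0 - g1 v0 * e1
    exact (mul_eq_zero.1 this).resolve_right h
  · have : t * (g0 v0 * g1 v1 - g0 v1 * g1 v0) = 0 := by
      linear_combination g0 v0 * e1 - g0 v1 * e0
    exact (mul_eq_zero.1 this).resolve_right h

/-- the bilinear relation -/
def KZA_S (T : Tri) (e4 w0 y w : V) : Prop :=
  ∀ x x', T x e4 w * T x' y w0 = T x' e4 w * T x y w0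

/-- end of the proof -/
lemma KZA_fin (hB : P_B0) (h0 : P_ZERO) (T : Tri) (e4 w0 : V) (h4 : e4 ≠ 0) (hw : w0 ≠ 0)
    (hS : ∀ y w, KZA_S T e4 w0 y w) : RK 8 T := by
  by_cases hz : ∀ x w, T x e4 w = 0
  · exact KZA_RK_sw (h0 (sw T) e4 h4 fun x w => hz x w)
  · push Not at hz
    obtain ⟨x0, f0, hx⟩ := hz
    refine KZA_RK_rt (hB (rt T) w0 hw ?_)
    refine ⟨(sv (sw T) e4) f0, (T x0 e4 f0)⁻¹ • sv T x0 w0, fun x y => ?_⟩
    have h1 := hS y f0 x x0
    show T x y w0 = T x e4 f0 * ((T x0 e4 f0)⁻¹ * T x0 y w0)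
    field_simp
    linear_combination (-1 : ℂ) * h1

/-- all relations follow from the nine ones for the dual vectors -/
lemma KZA_nine {T : Tri} {e4 w0 : V} {η ω : Fin 3 → D} {e f : Fin 3 → V}
    (hy : ∀ y : V, ∃ c : ℂ, y = η 0 y • e 0 + η 1 y • e 1 + η 2 y • e 2 + c • e4)
    (hw : ∀ w : V, ∃ c : ℂ, w = ω 0 w • f 0 + ω 1 w • f 1 + ω 2 w • f 2 + c • w0)
    (h1 : ∀ x, T x e4 w0 = 0) (hS : ∀ i j, KZA_S T e4 w0 (e i) (f j)) (y w : V) :
    KZA_S T e4 w0 y w := by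
  intro x x'
  obtain ⟨c, hc⟩ := hy y
  obtain ⟨d, hd⟩ := hw w
  have ey : ∀ z, T z y w0 = η 0 y * T z (e 0) w0 + η 1 y * T z (e 1) w0 +
      η 2 y * T z (e 2) w0 := by
    intro z
    conv_lhs => rw [hc]
    simp [h1]
  have ew : ∀ z, T z e4 w = ω 0 w * T z e4 (f 0) + ω 1 w * T z e4 (f 1) +
      ω 2 w * T z e4 (f 2) := by
    intro z
    conv_lhs => rw [hd]
    simp [h1]
  rw [ey, ey, ew, ew]
  linear_combination ω 0 w * η 0 y * hS 0 0 x x' + ω 1 w * η 0 y * hS 0 1 x x' +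
    ω 2 w * η 0 y * hS 0 2 x x' + ω 0 w * η 1 y * hS 1 0 x x' + ω 1 w * η 1 y * hS 1 1 x x' +
    ω 2 w * η 1 y * hS 1 2 x x' + ω 0 w * η 2 y * hS 2 0 x x' + ω 1 w * η 2 y * hS 2 1 x x' +
    ω 2 w * η 2 y * hS 2 2 x x'

lemma KZA_frames {T : Tri} {p q : V} (hpq : LinearIndependent ℂ ![p, q]) (A C : Fin 4 → D)
    (hp : ∀ y w, T p y w = A 0 y * C 0 w + A 1 y * C 1 w)
    (hq : ∀ y w, T q y w = A 2 y * C 2 w + A 3 y * C 3 w) : Frames T ![p, q] A C := by
  refine ⟨hpq, fun i => ?_⟩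
  fin_cases i
  · refine ⟨![1, 1, 0, 0], fun y w => ?_⟩
    simp [Fin.sum_univ_four, hp]
  · refine ⟨![0, 0, 1, 1], fun y w => ?_⟩
    simp [Fin.sum_univ_four, hq]

/-- the use of the block E -/
lemma KZA_use (hE : P_E) {T : Tri} (hT : ¬ RK 8 T) {p q e4 w0 : V}
    (hpq : LinearIndependent ℂ ![p, q]) (h1 : ∀ x, T x e4 w0 = 0) (A C : Fin 4 → D)
    (hp : ∀ y w, T p y w = A 0 y * C 0 w + A 1 y * C 1 w)
    (hq : ∀ y w, T q y w = A 2 y * C 2 w + A 3 y * C 3 w)
    (hA : ∀ j, A j e4 = 0) (hC : ∀ j, C j w0 = 0) (i j : Fin 4) (hij : i ≠ j)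
    (v0 v1 u0 u1 : V) (hv : A i v0 * A j v1 - A i v1 * A j v0 ≠ 0)
    (hu : C i u0 * C j u1 - C i u1 * C j u0 ≠ 0) (y w : V) (hi : A i y = 0) (hj : A j y = 0)
    (hi' : C i w = 0) (hj' : C j w = 0) : KZA_S T e4 w0 y w :=
  fun x x' => hE T hT ![p, q] A C (KZA_frames hpq A C hp hq) i j hij (KZA_li2 _ _ v0 v1 hv)
    (KZA_li2 _ _ u0 u1 hu) e4 w0 y w hA hC h1 hi hj hi' hj' x x'

lemma KZA_forall4 {P : Fin 4 → Prop} (h0 : P 0) (h1 : P 1) (h2 : P 2) (h3 : P 3) :
    ∀ j, P j := by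
  intro j
  fin_cases j
  · exact h0
  · exact h1
  · exact h2
  · exact h3

lemma KZA_forall9 {P : Fin 3 → Fin 3 → Prop} (h00 : P 0 0) (h01 : P 0 1) (h02 : P 0 2)
    (h10 : P 1 0) (h11 : P 1 1) (h12 : P 1 2) (h20 : P 2 0) (h21 : P 2 1) (h22 : P 2 2) :
    ∀ i j, P i j := by
  intro i j
  fin_cases i <;> fin_cases j
  · exact h00
  · exact h01
  · exact h02
  · exact h10
  · exact h11
  · exact h12
  · exact h20
  · exact h21
  · exact h22

theorem p_KZA (h3 : P_G3) (hE : P_E) (hB : P_B0) (h0 : P_ZERO) : P_KZA := by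
  intro T p q e4 w0 η ω hZ hp hq
  by_contra hT
  obtain ⟨hpq, he4, hw0, hη, hω, hηe, hωw⟩ := hZ
  obtain ⟨e, he, hy⟩ := KZA_dual η hη e4 he4 hηe
  obtain ⟨f, hf, hw⟩ := KZA_dual ω hω w0 hw0 hωw
  -- step 1
  have h1 : ∀ x, T x e4 w0 = 0 := by
    have hF : Frames T ![p, q] ![η 0, η 1, η 0, η 2] ![ω 0, ω 1, ω 1, ω 2] :=
      KZA_frames hpq _ _ (fun y w => by simp [hp]) (fun y w => by simp [hq])
    have hs : Function.Injective (![0, 1, 3] : Fin 3 → Fin 4) := by decide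
    refine h3 T hT _ _ _ hF ![0, 1, 3] hs ?_ ?_ e4 w0 ?_ ?_
    · convert hη using 1
      funext i
      fin_cases i <;> rfl
    · convert hω using 1
      funext i
      fin_cases i <;> rfl
    · intro i
      fin_cases i <;> simp [hηe]
    · intro i
      fin_cases i <;> simp [hωw]
  -- frames (i) and (iii)
  have hA : ∀ a b : ℂ, ∀ j, (![η 0 + a • η 1, η 1, η 0 + b • η 2, η 2] : Fin 4 → D) j e4 = 0 :=
    fun a b => KZA_forall4 (by simp [hηe]) (by simp [hηe]) (by simp [hηe]) (by simp [hηe])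
  have hC : ∀ a b : ℂ, ∀ j, (![ω 0, ω 1 - a • ω 0, ω 1, ω 2 - b • ω 1] : Fin 4 → D) j w0 = 0 :=
    fun a b => KZA_forall4 (by simp [hωw]) (by simp [hωw]) (by simp [hωw]) (by simp [hωw])
  have hpa : ∀ (a b : ℂ) (y w : V), T p y w =
      (![η 0 + a • η 1, η 1, η 0 + b • η 2, η 2] : Fin 4 → D) 0 y *
        (![ω 0, ω 1 - a • ω 0, ω 1, ω 2 - b • ω 1] : Fin 4 → D) 0 w +
      (![η 0 + a • η 1, η 1, η 0 + b • η 2, η 2] : Fin 4 → D) 1 y *
        (![ω 0, ω 1 - a • ω 0, ω 1, ω 2 - b • ω 1] : Fin 4 → D) 1 w := by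
    intro a b y w
    simp [hp]
    ring
  have hqa : ∀ (a b : ℂ) (y w : V), T q y w =
      (![η 0 + a • η 1, η 1, η 0 + b • η 2, η 2] : Fin 4 → D) 2 y *
        (![ω 0, ω 1 - a • ω 0, ω 1, ω 2 - b • ω 1] : Fin 4 → D) 2 w +
      (![η 0 + a • η 1, η 1, η 0 + b • η 2, η 2] : Fin 4 → D) 3 y *
        (![ω 0, ω 1 - a • ω 0, ω 1, ω 2 - b • ω 1] : Fin 4 → D) 3 w := by
    intro a b y w
    simp [hq]
    ring
  have use1 := fun (a b : ℂ) => KZA_use hE hT hpq h1 _ _ (hpa a b) (hqa a b) (hA a b) (hC a b)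
  have s22 : KZA_S T e4 w0 (e 2) (f 2) := by
    apply use1 0 0 0 1 (by decide) (e 0) (e 1) (f 0) (f 1) <;> simp [he, hf]
  have s10 : KZA_S T e4 w0 (e 1) (f 0) := by
    apply use1 0 0 2 3 (by decide) (e 0) (e 2) (f 1) (f 2) <;> simp [he, hf]
  have s12 : KZA_S T e4 w0 (e 1) (f 2) := by
    apply use1 0 1 0 2 (by decide) (e 0) (e 2) (f 0) (f 1) <;> simp [he, hf]
  have s02' : KZA_S T e4 w0 (e 0 - e 1 - e 2) (f 2) := by
    apply use1 1 1 0 2 (by decide) (e 1) (e 2) (f 0) (f 1) <;> simp [he, hf]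
  have s11 : KZA_S T e4 w0 (e 1) (f 1) := by
    apply use1 0 0 0 3 (by decide) (e 0) (e 2) (f 0) (f 2) <;> simp [he, hf]
  have s01' : KZA_S T e4 w0 (e 0 - e 1) (f 1) := by
    apply use1 1 0 0 3 (by decide) (e 0) (e 2) (f 0) (f 2) <;> simp [he, hf]
  have s00 : KZA_S T e4 w0 (e 0) (f 0) := by
    apply use1 0 0 1 3 (by decide) (e 1) (e 2) (f 1) (f 2) <;> simp [he, hf]
  -- frames (ii) and (iv), `a = 0`, `b = 1`
  have s20' : KZA_S T e4 w0 (e 0 - e 2) (f 0) := by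
    refine KZA_use hE hT hpq h1 ![η 1, η 0, η 2 + η 0, η 0] ![ω 1, ω 0, ω 2, ω 1 - ω 2]
      ?_ ?_ ?_ ?_ 0 2 (by decide) (e 1) (e 2) (f 1) (f 2) ?_ ?_ _ _ ?_ ?_ ?_ ?_
    · intro y w
      simp [hp]
      ring
    · intro y w
      simp [hq]
      ring
    · exact KZA_forall4 (by simp [hηe]) (by simp [hηe]) (by simp [hηe]) (by simp [hηe])
    · exact KZA_forall4 (by simp [hωw]) (by simp [hωw]) (by simp [hωw]) (by simp [hωw])
    all_goals simp [he, hf]
  -- frames (i) and (iv), `a = b = 1`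
  have s21' : KZA_S T e4 w0 (e 2) (f 0 + f 1 + f 2) := by
    refine KZA_use hE hT hpq h1 ![η 0 + η 1, η 1, η 2 + η 0, η 0]
      ![ω 0, ω 1 - ω 0, ω 2, ω 1 - ω 2]
      ?_ ?_ ?_ ?_ 1 3 (by decide) (e 1) (e 0) (f 0) (f 2) ?_ ?_ _ _ ?_ ?_ ?_ ?_
    · intro y w
      simp [hp]
      ring
    · intro y w
      simp [hq]
      ring
    · exact KZA_forall4 (by simp [hηe]) (by simp [hηe]) (by simp [hηe]) (by simp [hηe])
    · exact KZA_forall4 (by simp [hωw]) (by simp [hωw]) (by simp [hωw]) (by simp [hωw])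
    all_goals simp [he, hf]
  have s02 : KZA_S T e4 w0 (e 0) (f 2) := by
    intro x x'
    have h := s02' x x'
    simp only [map_sub, LinearMap.sub_apply] at h
    linear_combination h + s12 x x' + s22 x x'
  have s01 : KZA_S T e4 w0 (e 0) (f 1) := by
    intro x x'
    have h := s01' x x'
    simp only [map_sub, LinearMap.sub_apply] at h
    linear_combination h + s11 x x'
  have s20 : KZA_S T e4 w0 (e 2) (f 0) := by
    intro x x'
    have h := s20' x x'
    simp only [map_sub, LinearMap.sub_apply] at h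
    linear_combination s00 x x' - h
  have s21 : KZA_S T e4 w0 (e 2) (f 1) := by
    intro x x'
    have h := s21' x x'
    simp only [map_add] at h
    linear_combination h - s20 x x' - s22 x x'
  exact hT (KZA_fin hB h0 T e4 w0 he4 hw0 (KZA_nine hy hw h1
    (KZA_forall9 s00 s01 s02 s10 s11 s12 s20 s21 s22)))

theorem p_KZ7 (h3 : P_G3) (hE : P_E) (hB : P_B0) (h0 : P_ZERO) : P_KZ7 := by
  intro T p q e4 w0 η ω hZ hp hq
  by_contra hT
  obtain ⟨hpq, he4, hw0, hη, hω, hηe, hωw⟩ := hZ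
  obtain ⟨e, he, hy⟩ := KZA_dual η hη e4 he4 hηe
  obtain ⟨f, hf, hw⟩ := KZA_dual ω hω w0 hw0 hωw
  -- step 1
  have h1 : ∀ x, T x e4 w0 = 0 := by
    have hF : Frames T ![p, q] ![η 0 + η 1, η 1, η 0, η 2] ![ω 0, ω 2 - ω 0, ω 1, ω 2] :=
      KZA_frames hpq _ _ (fun y w => by simp [hp]; ring) (fun y w => by simp [hq])
    have hs : Function.Injective (![0, 2, 3] : Fin 3 → Fin 4) := by decide
    refine h3 T hT _ _ _ hF ![0, 2, 3] hs ?_ ?_ e4 w0 ?_ ?_
    · rw [Fintype.linearIndependent_iff]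
      intro g hg
      have hv : ∀ v : V, g 0 * (η 0 v + η 1 v) + g 1 * η 0 v + g 2 * η 2 v = 0 := by
        intro v
        have h' := congrArg (fun φ : D => φ v) hg
        simp [Fin.sum_univ_three] at h'
        linear_combination h'
      have a0 := hv (e 0)
      have a1 := hv (e 1)
      have a2 := hv (e 2)
      simp [he] at a0 a1 a2
      rw [a1] at a0
      intro i
      fin_cases i
      · exact a1
      · simpa using a0
      · exact a2
    · convert hω using 1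
      funext i
      fin_cases i <;> rfl
    · intro i
      fin_cases i <;> simp [hηe]
    · intro i
      fin_cases i <;> simp [hωw]
  -- frames (i) and (iii)
  have hA : ∀ a b : ℂ, ∀ j, (![η 0 + a • η 1, η 1, η 0 + b • η 2, η 2] : Fin 4 → D) j e4 = 0 :=
    fun a b => KZA_forall4 (by simp [hηe]) (by simp [hηe]) (by simp [hηe]) (by simp [hηe])
  have hC : ∀ a b : ℂ, ∀ j, (![ω 0, ω 2 - a • ω 0, ω 1, ω 2 - b • ω 1] : Fin 4 → D) j w0 = 0 :=
    fun a b => KZA_forall4 (by simp [hωw]) (by simp [hωw]) (by simp [hωw]) (by simp [hωw])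
  have hpa : ∀ (a b : ℂ) (y w : V), T p y w =
      (![η 0 + a • η 1, η 1, η 0 + b • η 2, η 2] : Fin 4 → D) 0 y *
        (![ω 0, ω 2 - a • ω 0, ω 1, ω 2 - b • ω 1] : Fin 4 → D) 0 w +
      (![η 0 + a • η 1, η 1, η 0 + b • η 2, η 2] : Fin 4 → D) 1 y *
        (![ω 0, ω 2 - a • ω 0, ω 1, ω 2 - b • ω 1] : Fin 4 → D) 1 w := by
    intro a b y w
    simp [hp]
    ring
  have hqa : ∀ (a b : ℂ) (y w : V), T q y w =
      (![η 0 + a • η 1, η 1, η 0 + b • η 2, η 2] : Fin 4 → D) 2 y *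
        (![ω 0, ω 2 - a • ω 0, ω 1, ω 2 - b • ω 1] : Fin 4 → D) 2 w +
      (![η 0 + a • η 1, η 1, η 0 + b • η 2, η 2] : Fin 4 → D) 3 y *
        (![ω 0, ω 2 - a • ω 0, ω 1, ω 2 - b • ω 1] : Fin 4 → D) 3 w := by
    intro a b y w
    simp [hq]
    ring
  have use1 := fun (a b : ℂ) => KZA_use hE hT hpq h1 _ _ (hpa a b) (hqa a b) (hA a b) (hC a b)
  have s21 : KZA_S T e4 w0 (e 2) (f 1) := by
    apply use1 0 0 0 1 (by decide) (e 0) (e 1) (f 0) (f 2) <;> simp [he, hf]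
  have s10 : KZA_S T e4 w0 (e 1) (f 0) := by
    apply use1 0 0 2 3 (by decide) (e 0) (e 2) (f 1) (f 2) <;> simp [he, hf]
  have s22 : KZA_S T e4 w0 (e 2) (f 2) := by
    apply use1 1 0 0 2 (by decide) (e 1) (e 0) (f 0) (f 1) <;> simp [he, hf]
  have s12 : KZA_S T e4 w0 (e 1) (f 2) := by
    apply use1 0 1 0 2 (by decide) (e 0) (e 2) (f 0) (f 1) <;> simp [he, hf]
  have s02' : KZA_S T e4 w0 (e 0 - e 1 - e 2) (f 2) := by
    apply use1 1 1 0 2 (by decide) (e 1) (e 2) (f 0) (f 1) <;> simp [he, hf]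
  have s11 : KZA_S T e4 w0 (e 1) (f 1) := by
    apply use1 0 0 0 3 (by decide) (e 0) (e 2) (f 0) (f 2) <;> simp [he, hf]
  have s01' : KZA_S T e4 w0 (e 0 - e 1) (f 1) := by
    apply use1 1 0 0 3 (by decide) (e 0) (e 2) (f 0) (f 2) <;> simp [he, hf]
  have s20 : KZA_S T e4 w0 (e 2) (f 0) := by
    apply use1 0 0 1 2 (by decide) (e 1) (e 0) (f 2) (f 1) <;> simp [he, hf]
  have s00' : KZA_S T e4 w0 (e 0 - e 2) (f 0) := by
    apply use1 0 1 1 2 (by decide) (e 1) (e 0) (f 2) (f 1) <;> simp [he, hf]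
  have s02 : KZA_S T e4 w0 (e 0) (f 2) := by
    intro x x'
    have h := s02' x x'
    simp only [map_sub, LinearMap.sub_apply] at h
    linear_combination h + s12 x x' + s22 x x'
  have s01 : KZA_S T e4 w0 (e 0) (f 1) := by
    intro x x'
    have h := s01' x x'
    simp only [map_sub, LinearMap.sub_apply] at h
    linear_combination h + s11 x x'
  have s00 : KZA_S T e4 w0 (e 0) (f 0) := by
    intro x x'
    have h := s00' x x'
    simp only [map_sub, LinearMap.sub_apply] at h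
    linear_combination h + s20 x x'
  exact hT (KZA_fin hB h0 T e4 w0 he4 hw0 (KZA_nine hy hw h1
    (KZA_forall9 s00 s01 s02 s10 s11 s12 s20 s21 s22)))

end Pool.Agent.MR8
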