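import Pool.Agent.MR8.Defs

set_option autoImplicit false

/-!
# Jobs KZC, KZB, KZD of the project MR8
-/

namespace Pool.Agent.MR8

open Matrix

/-- Dual vectors of independent forms. -/
lemma KZC_dual {n : ℕ} (η : Fin n → D) (h : LinearIndependent ℂ η) :
    ∃ E : Fin n → V, ∀ i j, η i (E j) = if i = j then 1 else 0 := by
  classical
  set L : V →ₗ[ℂ] (Fin n → ℂ) := LinearMap.pi η with hL
  have hs : LinearMap.range L = ⊤ := by
    by_contra hne
    obtain ⟨φ, hφ, hle⟩ := Submodule.exists_le_ker_of_lt_top _ (lt_top_iff_ne_top.2 hne)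
    apply hφ
    have hz : ∑ i, φ (Pi.single i 1) • η i = 0 := by
      apply LinearMap.ext
      intro y
      have h1 : φ (L y) = 0 := by
        have := hle (LinearMap.mem_range_self L y)
        simpa using this
      have h2 : L y = ∑ i, (η i y) • (Pi.single i 1 : Fin n → ℂ) := by
        ext j
        simp [hL, Finset.sum_apply, Pi.single_apply]
      rw [h2] at h1
      simp only [map_sum, map_smul, smul_eq_mul] at h1
      simp only [LinearMap.sum_apply, LinearMap.smul_apply, smul_eq_mul, LinearMap.zero_apply]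
      rw [← h1]
      exact Finset.sum_congr rfl fun i _ => mul_comm _ _
    have h0 := Fintype.linearIndependent_iff.1 h _ hz
    apply LinearMap.pi_ext'
    intro i
    ext
    simpa using h0 i
  have hsur := LinearMap.range_eq_top.1 hs
  choose E hE using fun j => hsur (Pi.single j 1)
  refine ⟨E, fun i j => ?_⟩
  have := congrFun (hE j) i
  simpa [hL, Pi.single_apply] using this

/-- The common kernel of three independent forms is a line. -/
lemma KZC_line (η : Fin 3 → D) (h : LinearIndependent ℂ η) (e : V) (he : e ≠ 0)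
    (h0 : ∀ i, η i e = 0) (y : V) (hy : ∀ i, η i y = 0) : ∃ z : ℂ, y = z • e := by
  classical
  obtain ⟨E, hE⟩ := KZC_dual η h
  set L : V →ₗ[ℂ] (Fin 3 → ℂ) := LinearMap.pi η with hL
  have hsur : LinearMap.range L = ⊤ := by
    rw [LinearMap.range_eq_top]
    intro v
    refine ⟨∑ j, v j • E j, ?_⟩
    ext i
    simp [hL, hE, Finset.sum_ite_eq]
  have hk : Module.finrank ℂ (LinearMap.ker L) = 1 := by
    have h1 := LinearMap.finrank_range_add_finrank_ker L
    rw [hsur, finrank_top, Module.finrank_pi, Module.finrank_pi] at h1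
    simp at h1
    omega
  have hem : e ∈ LinearMap.ker L := by
    rw [LinearMap.mem_ker]; ext i; simpa [hL] using h0 i
  have hym : y ∈ LinearMap.ker L := by
    rw [LinearMap.mem_ker]; ext i; simpa [hL] using hy i
  have h2 := (finrank_eq_one_iff_of_nonzero' (⟨e, hem⟩ : LinearMap.ker L) (by
    intro h; apply he; exact congrArg Subtype.val h)).1 hk ⟨y, hym⟩
  obtain ⟨z, hz⟩ := h2
  exact ⟨z, (congrArg Subtype.val hz).symm⟩

/-- Decomposition of a vector. -/
lemma KZC_dec (η : Fin 3 → D) (h : LinearIndependent ℂ η) (E : Fin 3 → V)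
    (hE : ∀ i j, η i (E j) = if i = j then 1 else 0) (e : V) (he : e ≠ 0)
    (h0 : ∀ i, η i e = 0) (y : V) : ∃ z : ℂ, y = (∑ i, η i y • E i) + z • e := by
  obtain ⟨z, hz⟩ := KZC_line η h e he h0 (y - ∑ i, η i y • E i) (by
    intro i
    simp [hE])
  exact ⟨z, by rw [← hz]; abel⟩

/-- Independence of combinations with a nonzero minor. -/
lemma KZC_li2 (η : Fin 3 → D) (E : Fin 3 → V)
    (hE : ∀ i j, η i (E j) = if i = j then 1 else 0) (a b : Fin 3 → ℂ) (i k : Fin 3)
    (hm : a i * b k - a k * b i ≠ 0) :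
    LinearIndependent ℂ ![∑ j, a j • η j, ∑ j, b j • η j] := by
  rw [LinearIndependent.pair_iff]
  intro s t hst
  have h1 : ∀ l, s * a l + t * b l = 0 := by
    intro l
    have := LinearMap.congr_fun hst (E l)
    simpa [hE] using this
  have hi := h1 i
  have hk := h1 k
  constructor
  · have : s * (a i * b k - a k * b i) = 0 := by linear_combination b k * hi - b i * hk
    exact (mul_eq_zero.1 this).resolve_right hm
  · have : t * (a i * b k - a k * b i) = 0 := by linear_combination a i * hk - a k * hi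
    exact (mul_eq_zero.1 this).resolve_right hm

/-- Independence of three combinations. -/
lemma KZC_li3 (η : Fin 3 → D) (E : Fin 3 → V)
    (hE : ∀ i j, η i (E j) = if i = j then 1 else 0) (a : Fin 3 → Fin 3 → ℂ)
    (hm : (Matrix.of a).det ≠ 0) :
    LinearIndependent ℂ (fun i => ∑ j, a i j • η j) := by
  rw [Fintype.linearIndependent_iff]
  intro g hg
  have h1 : g ᵥ* (Matrix.of a) = 0 := by
    ext l
    have := LinearMap.congr_fun hg (E l)
    simpa [hE, Matrix.vecMul, dotProduct] using this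
  have := Matrix.eq_zero_of_vecMul_eq_zero hm h1
  intro i
  exact congrFun this i
/-- Frames given by coefficients. -/
lemma KZC_fr (T : Tri) (p q : V) (η ω : Fin 3 → D) (hl : LinearIndependent ℂ ![p, q])
    (M N : Fin 3 → Fin 3 → ℂ)
    (hp : ∀ y w, T p y w = ∑ i, ∑ k, M i k * (η i y * ω k w))
    (hq : ∀ y w, T q y w = ∑ i, ∑ k, N i k * (η i y * ω k w))
    (a b : Fin 4 → Fin 3 → ℂ) (c d : Fin 4 → ℂ)
    (hM : ∀ i k, M i k = ∑ j, c j * (a j i * b j k))
    (hN : ∀ i k, N i k = ∑ j, d j * (a j i * b j k)) :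
    Frames T ![p, q] (fun j => ∑ i, a j i • η i) (fun j => ∑ k, b j k • ω k) := by
  have key : ∀ (c : Fin 4 → ℂ) (M : Fin 3 → Fin 3 → ℂ),
      (∀ i k, M i k = ∑ j, c j * (a j i * b j k)) → ∀ y w,
      ∑ i, ∑ k, M i k * (η i y * ω k w) =
        ∑ j, c j * ((∑ i, a j i • η i) y * (∑ k, b j k • ω k) w) := by
    intro c M hM y w
    simp only [Fin.sum_univ_three, Fin.sum_univ_four, LinearMap.add_apply,
      LinearMap.smul_apply, smul_eq_mul, hM]
    ring
  refine ⟨hl, ?_⟩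
  intro i
  fin_cases i
  · exact ⟨c, fun y w => by simpa [hp] using key c M hM y w⟩
  · exact ⟨d, fun y w => by simpa [hq] using key d N hN y w⟩

/-- The data common to all cases. -/
structure KZC_data (T : Tri) (p q e4 w0 : V) (η ω : Fin 3 → D) (E F : Fin 3 → V)
    (M N : Fin 3 → Fin 3 → ℂ) : Prop where
  zr : ZR p q e4 w0 η ω
  hE : ∀ i j, η i (E j) = if i = j then 1 else 0
  hF : ∀ i j, ω i (F j) = if i = j then 1 else 0
  hp : ∀ y w, T p y w = ∑ i, ∑ k, M i k * (η i y * ω k w)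
  hq : ∀ y w, T q y w = ∑ i, ∑ k, N i k * (η i y * ω k w)

/-- Step 1. -/
lemma KZC_step1 (h3 : P_G3) (T : Tri) (hT : ¬ RK 8 T) (p q e4 w0 : V) (η ω : Fin 3 → D)
    (E F : Fin 3 → V) (M N : Fin 3 → Fin 3 → ℂ) (hd : KZC_data T p q e4 w0 η ω E F M N)
    (a b : Fin 4 → Fin 3 → ℂ) (c d : Fin 4 → ℂ)
    (hM : ∀ i k, M i k = ∑ j, c j * (a j i * b j k))
    (hN : ∀ i k, N i k = ∑ j, d j * (a j i * b j k))
    (ha : (Matrix.of fun i : Fin 3 => a i.castSucc).det ≠ 0)
    (hb : (Matrix.of fun i : Fin 3 => b i.castSucc).det ≠ 0) (x : V) : T x e4 w0 = 0 := by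
  obtain ⟨hl, he, hw, hη, hω, h4, h0⟩ := hd.zr
  refine h3 T hT ![p, q] _ _ (KZC_fr T p q η ω hl M N hd.hp hd.hq a b c d hM hN)
    Fin.castSucc (Fin.castSucc_injective 3) ?_ ?_ e4 w0 ?_ ?_ x
  · exact KZC_li3 η E hd.hE (fun i => a i.castSucc) ha
  · exact KZC_li3 ω F hd.hF (fun i => b i.castSucc) hb
  · intro i; simp [h4]
  · intro i; simp [h0]

/-- Step 2. -/
lemma KZC_step2 (hE' : P_E) (T : Tri) (hT : ¬ RK 8 T) (p q e4 w0 : V) (η ω : Fin 3 → D)
    (E F : Fin 3 → V) (M N : Fin 3 → Fin 3 → ℂ) (hd : KZC_data T p q e4 w0 η ω E F M N)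
    (h40 : ∀ x, T x e4 w0 = 0)
    (a b : Fin 4 → Fin 3 → ℂ) (c d : Fin 4 → ℂ)
    (hM : ∀ i k, M i k = ∑ j, c j * (a j i * b j k))
    (hN : ∀ i k, N i k = ∑ j, d j * (a j i * b j k))
    (s t : Fin 4) (hst : s ≠ t) (i k : Fin 3) (ha : a s i * a t k - a s k * a t i ≠ 0)
    (i' k' : Fin 3) (hb : b s i' * b t k' - b s k' * b t i' ≠ 0) (e f : Fin 3 → ℂ)
    (h1 : ∑ i, a s i * e i = 0) (h2 : ∑ i, a t i * e i = 0)
    (h3 : ∑ i, b s i * f i = 0) (h4 : ∑ i, b t i * f i = 0) (x x' : V) :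
    T x e4 (∑ j, f j • F j) * T x' (∑ i, e i • E i) w0 =
      T x' e4 (∑ j, f j • F j) * T x (∑ i, e i • E i) w0 := by
  obtain ⟨hl, he, hw, hη, hω, h4', h0⟩ := hd.zr
  refine hE' T hT ![p, q] _ _ (KZC_fr T p q η ω hl M N hd.hp hd.hq a b c d hM hN) s t hst
    (KZC_li2 η E hd.hE _ _ i k ha) (KZC_li2 ω F hd.hF _ _ i' k' hb) e4 w0 _ _ ?_ ?_ h40
    ?_ ?_ ?_ ?_ x x'
  · intro j; simp [h4']
  · intro j; simp [h0]
  · simpa [hd.hE, mul_comm] using h1
  · simpa [hd.hE, mul_comm] using h2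
  · simpa [hd.hF, mul_comm] using h3
  · simpa [hd.hF, mul_comm] using h4

/-- Step 3. -/
lemma KZC_step3 (hB : P_B0) (hZ : P_ZERO) (T : Tri) (p q e4 w0 : V)
    (η ω : Fin 3 → D) (E F : Fin 3 → V) (M N : Fin 3 → Fin 3 → ℂ)
    (hd : KZC_data T p q e4 w0 η ω E F M N) (h40 : ∀ x, T x e4 w0 = 0)
    (h : ∀ i j x x', T x e4 (F j) * T x' (E i) w0 = T x' e4 (F j) * T x (E i) w0) :
    RK 8 T := by
  obtain ⟨hl, he, hw, hη, hω, h4', h0⟩ := hd.zr
  have hall : ∀ x x' y w, T x e4 w * T x' y w0 = T x' e4 w * T x y w0 := by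
    intro x x' y w
    obtain ⟨z, hz⟩ := KZC_dec η hη E hd.hE e4 he h4' y
    obtain ⟨z', hz'⟩ := KZC_dec ω hω F hd.hF w0 hw h0 w
    rw [hz, hz']
    simp only [map_add, map_sum, map_smul, LinearMap.add_apply, LinearMap.sum_apply,
      LinearMap.smul_apply, h40, smul_eq_mul, mul_zero, add_zero]
    rw [Finset.sum_mul_sum, Finset.sum_mul_sum]
    refine Finset.sum_congr rfl fun j _ => Finset.sum_congr rfl fun i _ => ?_
    have := h i j x x'
    linear_combination (ω j w) * (η i y) * this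
  by_cases hc : ∀ x w, T x e4 w = 0
  · obtain ⟨α, β, γ, hr⟩ := hZ (sw T) e4 he (fun x w => by rw [sw_apply]; exact hc x w)
    refine ⟨β, α, γ, fun x y w => ?_⟩
    rw [← sw_apply T x y w, hr]
    exact Finset.sum_congr rfl fun i _ => by ring
  · push Not at hc
    obtain ⟨xs, ws, hs⟩ := hc
    have h1 : Rk1 (rt T w0) := by
      refine ⟨(T.flip e4).flip ws, (T xs e4 ws)⁻¹ • (T xs).flip w0, fun x y => ?_⟩
      rw [rt_apply]
      have := hall xs x y ws
      simp only [LinearMap.smul_apply, LinearMap.flip_apply, smul_eq_mul]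
      field_simp
      linear_combination this
    obtain ⟨α, β, γ, hr⟩ := hB (rt T) w0 hw h1
    refine ⟨β, γ, α, fun x y w => ?_⟩
    rw [← rt_apply T x y w, hr]
    exact Finset.sum_congr rfl fun i _ => by ring

lemma KZC_li4 (η : Fin 3 → D) (h : LinearIndependent ℂ η) (e : V) (h0 : ∀ i, η i e = 0)
    (ζ : D) (hζ : ζ e ≠ 0) : LinearIndependent ℂ ![η 0, η 1, η 2, ζ] := by
  rw [Fintype.linearIndependent_iff]
  intro g hg
  simp only [Fin.sum_univ_four, Matrix.cons_val] at hg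
  have h3 : g 3 = 0 := by
    have := LinearMap.congr_fun hg e
    simp only [LinearMap.add_apply, LinearMap.smul_apply, h0, smul_eq_mul, mul_zero, zero_add,
      LinearMap.zero_apply] at this
    exact (mul_eq_zero.1 this).resolve_right hζ
  have h2 := Fintype.linearIndependent_iff.1 h (fun i => g i.castSucc) (by
    rw [Fin.sum_univ_three]
    rw [h3, zero_smul, add_zero] at hg
    exact hg)
  intro i
  fin_cases i
  · exact h2 0
  · exact h2 1
  · exact h2 2
  · exact h3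

lemma KZC_form (e : V) (he : e ≠ 0) : ∃ ζ : D, ζ e ≠ 0 := by
  obtain ⟨i, hi⟩ := Function.ne_iff.1 he
  exact ⟨LinearMap.proj i, by simpa using hi⟩

theorem p_KZD (hK : P_KK) : P_KZD := by
  intro T p q e4 w0 η ω α β hz hp hq
  obtain ⟨hl, he, hw, hη, hω, h4, h0⟩ := hz
  obtain ⟨η4, hη4⟩ := KZC_form e4 he
  obtain ⟨ω4, hω4⟩ := KZC_form w0 hw
  refine hK T ![p, q] ![η 0, η 1, η 2, η4] ![ω 0, ω 1, ω 2, ω4] ⟨hl, ?_⟩
    (KZC_li4 η hη e4 h4 η4 hη4) (KZC_li4 ω hω w0 h0 ω4 hω4)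
  intro i
  fin_cases i
  · refine ⟨![α 0, α 1, α 2, 0], fun y w => ?_⟩
    simp [hp, Fin.sum_univ_three, Fin.sum_univ_four]
  · refine ⟨![β 0, β 1, β 2, 0], fun y w => ?_⟩
    simp [hq, Fin.sum_univ_three, Fin.sum_univ_four]

/-- One pair of frames for `KZB`. -/
lemma KZC_B (h3 : P_G3) (hE' : P_E) (T : Tri) (hT : ¬ RK 8 T) (p q e4 w0 : V)
    (η ω : Fin 3 → D) (E F : Fin 3 → V)
    (hd : KZC_data T p q e4 w0 η ω E F (fun i k => if i = k then 1 else 0)
      (fun i k => if i = 0 ∧ k = 1 then 1 else 0)) :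
    (∀ x, T x e4 w0 = 0) ∧
    ∀ i j x x', T x e4 (F j) * T x' (E i) w0 = T x' e4 (F j) * T x (E i) w0 := by
  have h40 : ∀ x, T x e4 w0 = 0 := by
    refine KZC_step1 h3 T hT p q e4 w0 η ω E F _ _ hd
      ![![1, 0, 0], ![0, 1, 0], ![0, 0, 1], ![1, 0, 0]]
      ![![1, 0, 0], ![0, 1, 0], ![0, 0, 1], ![0, 1, 0]] ![1, 1, 1, 0] ![0, 0, 0, 1] ?_ ?_ ?_ ?_
    · intro i k; fin_cases i <;> fin_cases k <;> simp [Fin.sum_univ_four]
    · intro i k; fin_cases i <;> fin_cases k <;> simp [Fin.sum_univ_four]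
    · simp [Matrix.det_fin_three]
    · simp [Matrix.det_fin_three]
  refine ⟨h40, ?_⟩
  have hdiag : ∀ i x x', T x e4 (F i) * T x' (E i) w0 = T x' e4 (F i) * T x (E i) w0 := by
    intro i x x'
    have hM : ∀ i k : Fin 3, (if i = k then (1 : ℂ) else 0) = ∑ j, (![1, 1, 1, 0] : Fin 4 → ℂ) j *
        ((![![1, 0, 0], ![0, 1, 0], ![0, 0, 1], ![1, 0, 0]] : Fin 4 → Fin 3 → ℂ) j i *
        (![![1, 0, 0], ![0, 1, 0], ![0, 0, 1], ![0, 1, 0]] : Fin 4 → Fin 3 → ℂ) j k) := by
      intro i k; fin_cases i <;> fin_cases k <;> simp [Fin.sum_univ_four]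
    have hN : ∀ i k : Fin 3, (if i = 0 ∧ k = 1 then (1 : ℂ) else 0) =
        ∑ j, (![0, 0, 0, 1] : Fin 4 → ℂ) j *
        ((![![1, 0, 0], ![0, 1, 0], ![0, 0, 1], ![1, 0, 0]] : Fin 4 → Fin 3 → ℂ) j i *
        (![![1, 0, 0], ![0, 1, 0], ![0, 0, 1], ![0, 1, 0]] : Fin 4 → Fin 3 → ℂ) j k) := by
      intro i k; fin_cases i <;> fin_cases k <;> simp [Fin.sum_univ_four]
    fin_cases i
    · simpa [Fin.sum_univ_three] using KZC_step2 hE' T hT p q e4 w0 η ω E F _ _ hd h40 _ _ _ _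
        hM hN 1 2 (by decide) 1 2 (by simp) 1 2 (by simp) ![1, 0, 0] ![1, 0, 0]
        (by simp [Fin.sum_univ_three]) (by simp [Fin.sum_univ_three])
        (by simp [Fin.sum_univ_three]) (by simp [Fin.sum_univ_three]) x x'
    · simpa [Fin.sum_univ_three] using KZC_step2 hE' T hT p q e4 w0 η ω E F _ _ hd h40 _ _ _ _
        hM hN 0 2 (by decide) 0 2 (by simp) 0 2 (by simp) ![0, 1, 0] ![0, 1, 0]
        (by simp [Fin.sum_univ_three]) (by simp [Fin.sum_univ_three])
        (by simp [Fin.sum_univ_three]) (by simp [Fin.sum_univ_three]) x x'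
    · simpa [Fin.sum_univ_three] using KZC_step2 hE' T hT p q e4 w0 η ω E F _ _ hd h40 _ _ _ _
        hM hN 0 1 (by decide) 0 1 (by simp) 0 1 (by simp) ![0, 0, 1] ![0, 0, 1]
        (by simp [Fin.sum_univ_three]) (by simp [Fin.sum_univ_three])
        (by simp [Fin.sum_univ_three]) (by simp [Fin.sum_univ_three]) x x'
  have hoff : ∀ i j k : Fin 3, i ≠ j → i ≠ k → j ≠ k → ∀ x x',
      T x e4 (F i) * T x' (E j) w0 = T x' e4 (F i) * T x (E j) w0 := by
    intro i j k hij hik hjk x x'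
    have hM : ∀ i' k' : Fin 3, (if i' = k' then (1 : ℂ) else 0) =
        ∑ l, (![1, 1, 1, 0] : Fin 4 → ℂ) l *
        ((![Pi.single j 1 - Pi.single i 1, Pi.single k 1, Pi.single i 1, Pi.single 0 1] :
          Fin 4 → Fin 3 → ℂ) l i' *
        (![Pi.single j 1, Pi.single k 1, Pi.single i 1 + Pi.single j 1, Pi.single 1 1] :
          Fin 4 → Fin 3 → ℂ) l k') := by
      intro i' k'
      fin_cases i <;> fin_cases j <;> fin_cases k <;>
        first
        | exact absurd rfl hij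
        | exact absurd rfl hik
        | exact absurd rfl hjk
        | (fin_cases i' <;> fin_cases k' <;> simp [Fin.sum_univ_four])
    have hN : ∀ i' k' : Fin 3, (if i' = 0 ∧ k' = 1 then (1 : ℂ) else 0) =
        ∑ l, (![0, 0, 0, 1] : Fin 4 → ℂ) l *
        ((![Pi.single j 1 - Pi.single i 1, Pi.single k 1, Pi.single i 1, Pi.single 0 1] :
          Fin 4 → Fin 3 → ℂ) l i' *
        (![Pi.single j 1, Pi.single k 1, Pi.single i 1 + Pi.single j 1, Pi.single 1 1] :
          Fin 4 → Fin 3 → ℂ) l k') := by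
      intro i' k'
      fin_cases i' <;> fin_cases k' <;> simp [Fin.sum_univ_four]
    have := KZC_step2 hE' T hT p q e4 w0 η ω E F _ _ hd h40 _ _ _ _
        hM hN 0 1 (by decide) j k (by simp [hjk, hjk.symm, hij, hik, hij.symm, hik.symm])
        j k (by simp [hjk, hjk.symm]) (Pi.single i 1 + Pi.single j 1) (Pi.single i 1)
        (by simp [Finset.sum_add_distrib, Pi.single_apply, hij, hij.symm, sub_mul, mul_add])
        (by simp [Finset.sum_add_distrib, Pi.single_apply, hik, hjk, hik.symm, hjk.symm])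
        (by simp [Pi.single_apply, hij, hij.symm])
        (by simp [Pi.single_apply, hik, hik.symm]) x x'
    simp only [Pi.add_apply, add_smul, Finset.sum_add_distrib, Pi.single_apply, ite_smul,
      one_smul, zero_smul, Finset.sum_ite_eq', Finset.mem_univ, if_true, map_add,
      LinearMap.add_apply] at this
    linear_combination this - hdiag i x x'
  intro i j x x'
  fin_cases i <;> fin_cases j
  · exact hdiag 0 x x'
  · exact hoff 1 0 2 (by decide) (by decide) (by decide) x x'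
  · exact hoff 2 0 1 (by decide) (by decide) (by decide) x x'
  · exact hoff 0 1 2 (by decide) (by decide) (by decide) x x'
  · exact hdiag 1 x x'
  · exact hoff 2 1 0 (by decide) (by decide) (by decide) x x'
  · exact hoff 0 2 1 (by decide) (by decide) (by decide) x x'
  · exact hoff 1 2 0 (by decide) (by decide) (by decide) x x'
  · exact hdiag 2 x x'

theorem p_KZB (h3 : P_G3) (hE' : P_E) (hB : P_B0) (h0 : P_ZERO) : P_KZB := by
  intro T p q e4 w0 η ω hz hp hq
  by_contra hT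
  obtain ⟨hl, he, hw, hη, hω, h4, h0'⟩ := id hz
  obtain ⟨E, hE⟩ := KZC_dual η hη
  obtain ⟨F, hF⟩ := KZC_dual ω hω
  have hd : KZC_data T p q e4 w0 η ω E F (fun i k => if i = k then 1 else 0)
      (fun i k => if i = 0 ∧ k = 1 then 1 else 0) := by
    refine ⟨hz, hE, hF, fun y w => ?_, fun y w => ?_⟩
    · rw [hp]; simp [Fin.sum_univ_three]
    · rw [hq]; simp [Fin.sum_univ_three]
  obtain ⟨h40, h⟩ := KZC_B h3 hE' T hT p q e4 w0 η ω E F hd
  exact hT (KZC_step3 hB h0 T p q e4 w0 η ω E F _ _ hd h40 h)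

lemma KZC_root : ∃ r : ℂ, r ^ 2 + r + 1 = 0 := by
  obtain ⟨s, hs⟩ := IsAlgClosed.exists_pow_nat_eq (-3 : ℂ) (n := 2) (by norm_num)
  refine ⟨(-1 + s) / 2, ?_⟩
  linear_combination (1 / 4) * hs

/-- The frames for `KZC`. -/
def KZC_a (z r : ℂ) : Fin 4 → Fin 3 → ℂ :=
  ![![1, z, z ^ 2], ![1, z * r, (z * r) ^ 2], ![1, z * r ^ 2, (z * r ^ 2) ^ 2], ![0, 0, 1]]

def KZC_b (z r : ℂ) : Fin 4 → Fin 3 → ℂ :=
  ![![z ^ 2, z, 1], ![(z * r) ^ 2, z * r, 1], ![(z * r ^ 2) ^ 2, z * r ^ 2, 1], ![1, 0, 0]]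

noncomputable def KZC_c (z r : ℂ) : Fin 4 → ℂ := ![1 / (3 * z ^ 2), r / (3 * z ^ 2), r ^ 2 / (3 * z ^ 2), 0]

noncomputable def KZC_d (z r : ℂ) : Fin 4 → ℂ := ![1 / (3 * z), r ^ 2 / (3 * z), r / (3 * z), - z ^ 3]

lemma KZC_hM (z r : ℂ) (hz : z ≠ 0) (hr : r ^ 2 + r + 1 = 0) (i k : Fin 3) :
    (if i = k then (1 : ℂ) else 0) = ∑ j, KZC_c z r j * (KZC_a z r j i * KZC_b z r j k) := by
  have r2 : r ^ 2 = -1 - r := by linear_combination hr
  have r3 : r ^ 3 = 1 := by linear_combination (r - 1) * hr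
  have r4 : r ^ 4 = r := by linear_combination r * r3
  have r5 : r ^ 5 = -1 - r := by linear_combination r ^ 2 * r3 + r2
  have r6 : r ^ 6 = 1 := by linear_combination (r ^ 3 + 1) * r3
  have r7 : r ^ 7 = r := by linear_combination r * r6
  have r8 : r ^ 8 = -1 - r := by linear_combination r ^ 2 * r6 + r2
  have r9 : r ^ 9 = 1 := by linear_combination (r ^ 6 + r ^ 3 + 1) * r3
  have r10 : r ^ 10 = r := by linear_combination r * r9
  fin_cases i <;> fin_cases k <;>
    simp [Fin.sum_univ_four, KZC_a, KZC_b, KZC_c] <;> field_simp <;> ring_nf <;>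
    simp only [r2, r3, r4, r5, r6, r7, r8, r9, r10] <;> ring

lemma KZC_hN (z r : ℂ) (hz : z ≠ 0) (hr : r ^ 2 + r + 1 = 0) (i k : Fin 3) :
    (if (i = 0 ∧ k = 1) ∨ (i = 1 ∧ k = 2) then (1 : ℂ) else 0) =
      ∑ j, KZC_d z r j * (KZC_a z r j i * KZC_b z r j k) := by
  have r2 : r ^ 2 = -1 - r := by linear_combination hr
  have r3 : r ^ 3 = 1 := by linear_combination (r - 1) * hr
  have r4 : r ^ 4 = r := by linear_combination r * r3
  have r5 : r ^ 5 = -1 - r := by linear_combination r ^ 2 * r3 + r2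
  have r6 : r ^ 6 = 1 := by linear_combination (r ^ 3 + 1) * r3
  have r7 : r ^ 7 = r := by linear_combination r * r6
  have r8 : r ^ 8 = -1 - r := by linear_combination r ^ 2 * r6 + r2
  have r9 : r ^ 9 = 1 := by linear_combination (r ^ 6 + r ^ 3 + 1) * r3
  have r10 : r ^ 10 = r := by linear_combination r * r9
  fin_cases i <;> fin_cases k <;>
    simp [Fin.sum_univ_four, KZC_a, KZC_b, KZC_d] <;> field_simp <;> ring_nf <;>
    simp only [r2, r3, r4, r5, r6, r7, r8, r9, r10] <;> ring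

/-- The two families of relations for `KZC`. -/
lemma KZC_C (h3 : P_G3) (hE' : P_E) (T : Tri) (hT : ¬ RK 8 T) (p q e4 w0 : V)
    (η ω : Fin 3 → D) (E F : Fin 3 → V)
    (hd : KZC_data T p q e4 w0 η ω E F (fun i k => if i = k then 1 else 0)
      (fun i k => if (i = 0 ∧ k = 1) ∨ (i = 1 ∧ k = 2) then 1 else 0)) :
    (∀ x, T x e4 w0 = 0) ∧
    ∀ x x' (B : Fin 3 → Fin 3 → ℂ),
      (∀ i j, B i j = T x e4 (F j) * T x' (E i) w0 - T x' e4 (F j) * T x (E i) w0) →
      B 0 2 = 0 ∧ B 0 1 + B 1 2 = 0 ∧ B 0 0 + B 1 1 + B 2 2 = 0 ∧ B 1 0 + B 2 1 = 0 ∧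
        B 2 0 = 0 ∧ B 1 1 = 0 := by
  obtain ⟨r, hr⟩ := KZC_root
  have hr1 : r - 1 ≠ 0 := by
    intro h
    have : (3 : ℂ) = 0 := by linear_combination hr - (r + 2) * h
    norm_num at this
  have hr0 : r ≠ 0 := by
    intro h
    rw [h] at hr
    norm_num at hr
  have h40 : ∀ x, T x e4 w0 = 0 := by
    refine KZC_step1 h3 T hT p q e4 w0 η ω E F _ _ hd (KZC_a 1 r) (KZC_b 1 r) (KZC_c 1 r)
      (KZC_d 1 r) (KZC_hM 1 r one_ne_zero hr) (KZC_hN 1 r one_ne_zero hr) ?_ ?_
    · have : (Matrix.of fun i : Fin 3 => KZC_a 1 r i.castSucc).det = - (r - 1) ^ 3 := by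
        simp [Matrix.det_fin_three, KZC_a]
        linear_combination (r - 1) ^ 3 * hr
      rw [this]
      exact neg_ne_zero.2 (pow_ne_zero 3 hr1)
    · have : (Matrix.of fun i : Fin 3 => KZC_b 1 r i.castSucc).det = (r - 1) ^ 3 := by
        simp [Matrix.det_fin_three, KZC_b]
        linear_combination - (r - 1) ^ 3 * hr
      rw [this]
      exact pow_ne_zero 3 hr1
  refine ⟨h40, ?_⟩
  intro x x' B hB
  have hA : ∀ z : ℂ, z ≠ 0 → B 2 0 + z * (B 1 0 + B 2 1) + z ^ 2 * (B 0 0 + B 1 1 + B 2 2) +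
      z ^ 3 * (B 0 1 + B 1 2) + z ^ 4 * B 0 2 = 0 := by
    intro z hz
    have := KZC_step2 hE' T hT p q e4 w0 η ω E F _ _ hd h40 (KZC_a z r) (KZC_b z r)
      (KZC_c z r) (KZC_d z r) (KZC_hM z r hz hr) (KZC_hN z r hz hr) 1 2 (by decide) 0 1
      (by
        simp only [KZC_a, Matrix.cons_val]
        have : (1 : ℂ) * (z * r ^ 2) - z * r * 1 = z * r * (r - 1) := by ring
        rw [this]
        exact mul_ne_zero (mul_ne_zero hz hr0) hr1)
      1 2 (by
        simp only [KZC_b, Matrix.cons_val]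
        have : z * r * 1 - 1 * (z * r ^ 2) = - (z * r * (r - 1)) := by ring
        rw [this]
        exact neg_ne_zero.2 (mul_ne_zero (mul_ne_zero hz hr0) hr1))
      ![z ^ 2, z, 1] ![1, z, z ^ 2]
      (by simp [Fin.sum_univ_three, KZC_a]; linear_combination z ^ 2 * hr)
      (by simp [Fin.sum_univ_three, KZC_a]; linear_combination z ^ 2 * (r ^ 2 - r + 1) * hr)
      (by simp [Fin.sum_univ_three, KZC_b]; linear_combination z ^ 2 * hr)
      (by simp [Fin.sum_univ_three, KZC_b]; linear_combination z ^ 2 * (r ^ 2 - r + 1) * hr)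
      x x'
    simp only [Fin.sum_univ_three, Matrix.cons_val, map_add, map_smul, LinearMap.add_apply,
      LinearMap.smul_apply, smul_eq_mul] at this
    simp only [hB]
    linear_combination this
  have hB1 := KZC_step2 hE' T hT p q e4 w0 η ω E F _ _ hd h40 (KZC_a 1 r) (KZC_b 1 r)
      (KZC_c 1 r) (KZC_d 1 r) (KZC_hM 1 r one_ne_zero hr) (KZC_hN 1 r one_ne_zero hr) 0 3
      (by decide) 0 2 (by simp [KZC_a]) 0 2 (by simp [KZC_b]) ![1, -1, 0] ![0, 1, -1]
      (by simp [Fin.sum_univ_three, KZC_a]) (by simp [Fin.sum_univ_three, KZC_a])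
      (by simp [Fin.sum_univ_three, KZC_b]) (by simp [Fin.sum_univ_three, KZC_b])
      x x'
  have hBB : B 0 1 - B 0 2 - B 1 1 + B 1 2 = 0 := by
    simp only [Fin.sum_univ_three, Matrix.cons_val, map_add, map_smul, LinearMap.add_apply,
      LinearMap.smul_apply, smul_eq_mul] at hB1
    simp only [hB]
    linear_combination hB1
  have p1 := hA 1 one_ne_zero
  have p2 := hA (-1) (by norm_num)
  have p3 := hA 2 (by norm_num)
  have p4 := hA (-2) (by norm_num)
  have p5 := hA 3 (by norm_num)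
  have s3 : B 0 1 + B 1 2 = 0 := by
    linear_combination (1 / 12) * (p3 - p4) - (1 / 6) * (p1 - p2)
  have s1 : B 1 0 + B 2 1 = 0 := by linear_combination (1 / 2) * (p1 - p2) - s3
  have s4 : B 0 2 = 0 := by
    linear_combination (1 / 40) * (p5 - 3 * s1 - 27 * s3) - (1 / 30) * (p3 + p4) +
      (1 / 48) * (p1 + p2)
  have s2 : B 0 0 + B 1 1 + B 2 2 = 0 := by
    linear_combination (1 / 6) * (p3 + p4) - (1 / 6) * (p1 + p2) - 5 * s4
  have s0 : B 2 0 = 0 := by linear_combination (1 / 2) * (p1 + p2) - s2 - s4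
  have s5 : B 1 1 = 0 := by linear_combination s3 - s4 - hBB
  exact ⟨s4, s3, s2, s1, s0, s5⟩

theorem p_KZC (h3 : P_G3) (hE' : P_E) (hB : P_B0) (h0 : P_ZERO) : P_KZC := by
  intro T p q e4 w0 η ω hz hp hq
  by_contra hT
  obtain ⟨hl, he, hw, hη, hω, h4, h0'⟩ := id hz
  obtain ⟨E, hE⟩ := KZC_dual η hη
  obtain ⟨F, hF⟩ := KZC_dual ω hω
  have hd : KZC_data T p q e4 w0 η ω E F (fun i k => if i = k then 1 else 0)
      (fun i k => if (i = 0 ∧ k = 1) ∨ (i = 1 ∧ k = 2) then 1 else 0) := by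
    refine ⟨hz, hE, hF, fun y w => ?_, fun y w => ?_⟩
    · rw [hp]; simp [Fin.sum_univ_three]
    · rw [hq]; simp [Fin.sum_univ_three]
  obtain ⟨h40, hC⟩ := KZC_C h3 hE' T hT p q e4 w0 η ω E F hd
  -- the transformed data
  have hs : ∀ (s : ℂ) (x x' : V) (B : Fin 3 → Fin 3 → ℂ),
      (∀ i j, B i j = T x e4 (F j) * T x' (E i) w0 - T x' e4 (F j) * T x (E i) w0) →
      B 0 2 + s * (B 0 1 - B 1 2) + s ^ 2 * (B 2 2 - B 1 1) + s ^ 3 * B 2 1 = 0 := by
    intro s x x' B hBd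
    have hη' := KZC_li3 η E hE ![![1, 0, 0], ![s, 1, 0], ![0, s, 1]]
      (by simp [Matrix.det_fin_three])
    have hω' := KZC_li3 ω F hF ![![1, -s, s ^ 2], ![0, 1, -s], ![0, 0, 1]]
      (by simp [Matrix.det_fin_three])
    have hd' : KZC_data T p q e4 w0
        (fun i => ∑ j, (![![1, 0, 0], ![s, 1, 0], ![0, s, 1]] : Fin 3 → Fin 3 → ℂ) i j • η j)
        (fun i => ∑ j, (![![1, -s, s ^ 2], ![0, 1, -s], ![0, 0, 1]] :
          Fin 3 → Fin 3 → ℂ) i j • ω j)
        ![E 0 - s • E 1 + s ^ 2 • E 2, E 1 - s • E 2, E 2]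
        ![F 0, F 1 + s • F 0, F 2 + s • F 1] (fun i k => if i = k then 1 else 0)
        (fun i k => if (i = 0 ∧ k = 1) ∨ (i = 1 ∧ k = 2) then 1 else 0) := by
      refine ⟨⟨hl, he, hw, hη', hω', ?_, ?_⟩, ?_, ?_, ?_, ?_⟩
      · intro i; simp [h4]
      · intro i; simp [h0']
      · intro i j
        fin_cases i <;> fin_cases j <;> simp [Fin.sum_univ_three, hE] <;> ring
      · intro i j
        fin_cases i <;> fin_cases j <;> simp [Fin.sum_univ_three, hF] <;> ring
      · intro y w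
        rw [hp]
        simp [Fin.sum_univ_three]
        ring
      · intro y w
        rw [hq]
        simp [Fin.sum_univ_three]
        ring
    have := ((KZC_C h3 hE' T hT p q e4 w0 _ _ _ _ hd').2 x x' _ (fun i j => rfl)).1
    simp only [Matrix.cons_val, map_add, map_sub, map_smul, LinearMap.add_apply,
      LinearMap.sub_apply, LinearMap.smul_apply, smul_eq_mul] at this
    simp only [hBd]
    linear_combination this
  apply hT
  refine KZC_step3 hB h0 T p q e4 w0 η ω E F _ _ hd h40 ?_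
  intro i j x x'
  set B : Fin 3 → Fin 3 → ℂ := fun i j =>
    T x e4 (F j) * T x' (E i) w0 - T x' e4 (F j) * T x (E i) w0 with hBdef
  obtain ⟨s4, s3, s2, s1, s0, s5⟩ := hC x x' B (fun i j => rfl)
  have q1 := hs 1 x x' B (fun i j => rfl)
  have q2 := hs (-1) x x' B (fun i j => rfl)
  have q3 := hs 2 x x' B (fun i j => rfl)
  have hb : B 2 2 - B 1 1 = 0 := by linear_combination (1 / 2) * (q1 + q2) - s4
  have hc : B 2 1 = 0 := by linear_combination (1 / 6) * (q3 - 2 * q1 + s4 - 2 * hb)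
  have ha : B 0 1 - B 1 2 = 0 := by linear_combination q1 - s4 - hb - hc
  have key : B i j = 0 := by
    fin_cases i <;> fin_cases j
    · change B 0 0 = 0; linear_combination s2 - s5 - hb - s5
    · change B 0 1 = 0; linear_combination (1 / 2) * (s3 + ha)
    · exact s4
    · change B 1 0 = 0; linear_combination s1 - hc
    · exact s5
    · change B 1 2 = 0; linear_combination (1 / 2) * (s3 - ha)
    · exact s0
    · exact hc
    · change B 2 2 = 0; linear_combination hb + s5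
  linear_combination key

end Pool.Agent.MR8
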