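import Pool.Agent.MR8.Defs

set_option autoImplicit false

/-!
# A line of singular slices
-/

namespace Pool.Agent.MR8

open Matrix

/-- A monomial of positive degree has a variable as a factor. -/
lemma LINE_mon (n : ℕ) (m : Fin 4 → ℕ) (h : ∑ i, m i = n + 1) :
    ∃ (i : Fin 4) (m' : Fin 4 → ℕ), ∑ i, m' i = n ∧
      ∀ z : Fin 4 → ℂ, ∏ j, z j ^ m j = z i * ∏ j, z j ^ m' j := by
  have h1 : ∃ i, m i ≠ 0 := by
    by_contra hc
    push Not at hc
    rw [Finset.sum_eq_zero fun i _ => hc i] at h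
    omega
  obtain ⟨i, hi⟩ := h1
  refine ⟨i, Function.update m i (m i - 1), ?_, fun z => ?_⟩
  · have h2 := Finset.sum_update_of_mem (Finset.mem_univ i) m (m i - 1)
    have h3 := Finset.add_sum_erase Finset.univ m (Finset.mem_univ i)
    rw [h2, Finset.sdiff_singleton_eq_erase]
    rw [h] at h3
    omega
  · rw [← Finset.mul_prod_erase Finset.univ (fun j => z j ^ m j) (Finset.mem_univ i),
      ← Finset.mul_prod_erase Finset.univ (fun j => z j ^ (Function.update m i (m i - 1)) j)
        (Finset.mem_univ i), ← mul_assoc]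
    congr 1
    · rw [Function.update_self, ← pow_succ']
      congr 1
      omega
    · refine Finset.prod_congr rfl fun j hj => ?_
      rw [Function.update_of_ne (Finset.ne_of_mem_erase hj)]

/-- The exponents of a homogeneous polynomial. -/
lemma LINE_deg {n : ℕ} {p : MvPolynomial (Fin 4) ℂ} (h : p.IsHomogeneous n) (m : Fin 4 →₀ ℕ)
    (hm : m ∈ p.support) : ∑ i, m i = n := by
  have h1 := h (MvPolynomial.mem_support_iff.mp hm)
  rw [← Finsupp.degree_eq_sum, Finsupp.degree_eq_weight_one]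
  exact h1

/-- Homogeneous of degree one: a linear form. -/
lemma LINE_lin {p : MvPolynomial (Fin 4) ℂ} (h : p.IsHomogeneous 1) :
    ∃ φ : D, ∀ z, MvPolynomial.eval z p = φ z := by
  have h1 : ∀ m : Fin 4 →₀ ℕ, ∃ i : Fin 4, m ∈ p.support →
      ∀ z : Fin 4 → ℂ, ∏ j, z j ^ m j = z i := by
    intro m
    by_cases hm : m ∈ p.support
    · obtain ⟨i, m', hm', hz⟩ := LINE_mon 0 m (LINE_deg h m hm)
      refine ⟨i, fun _ z => ?_⟩
      rw [hz]
      have : ∀ j, m' j = 0 := fun j => by
        have := Finset.sum_eq_zero_iff.mp hm' j (Finset.mem_univ j)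
        exact this
      simp [this]
    · exact ⟨0, fun hm' => absurd hm' hm⟩
  choose ι hι using h1
  refine ⟨∑ m ∈ p.support, p.coeff m • LinearMap.proj (ι m), fun z => ?_⟩
  rw [MvPolynomial.eval_eq', LinearMap.sum_apply]
  refine Finset.sum_congr rfl fun m hm => ?_
  rw [hι m hm z]
  simp

/-- Homogeneous of degree two: a quadratic form. -/
lemma LINE_quad {p : MvPolynomial (Fin 4) ℂ} (h : p.IsHomogeneous 2) :
    ∃ B : Bi, ∀ z, MvPolynomial.eval z p = B z z := by
  have h1 : ∀ m : Fin 4 →₀ ℕ, ∃ i j : Fin 4, m ∈ p.support →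
      ∀ z : Fin 4 → ℂ, ∏ j, z j ^ m j = z i * z j := by
    intro m
    by_cases hm : m ∈ p.support
    · obtain ⟨i, m', hm', hz⟩ := LINE_mon 1 m (LINE_deg h m hm)
      obtain ⟨j, m'', hm'', hz'⟩ := LINE_mon 0 m' hm'
      refine ⟨i, j, fun _ z => ?_⟩
      rw [hz, hz']
      have : ∀ j, m'' j = 0 := fun j => by
        have := Finset.sum_eq_zero_iff.mp hm'' j (Finset.mem_univ j)
        exact this
      simp [this]
    · exact ⟨0, 0, fun hm' => absurd hm' hm⟩
  choose ι κ hι using h1
  refine ⟨∑ m ∈ p.support, p.coeff m • (LinearMap.proj (ι m) : D).smulRight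
    (LinearMap.proj (κ m) : D), fun z => ?_⟩
  rw [MvPolynomial.eval_eq', LinearMap.sum_apply, LinearMap.sum_apply]
  refine Finset.sum_congr rfl fun m hm => ?_
  rw [hι m hm z]
  simp

/-- A binary quadratic form has a zero. -/
lemma LINE_root (a b c : ℂ) : ∃ s t : ℂ, (s ≠ 0 ∨ t ≠ 0) ∧
    s ^ 2 * a + s * t * b + t ^ 2 * c = 0 := by
  by_cases ha : a = 0
  · exact ⟨1, 0, Or.inl one_ne_zero, by rw [ha]; ring⟩
  · obtain ⟨r, hr⟩ := IsAlgClosed.exists_pow_nat_eq (b ^ 2 - 4 * a * c) (n := 2) (by norm_num)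
    refine ⟨(-b + r) / (2 * a), 1, Or.inr one_ne_zero, ?_⟩
    field_simp
    linear_combination hr

/-- Two more vectors in the kernel of a form. -/
lemma LINE_ker (φ : D) (u : V) (hu : u ≠ 0) (h : φ u = 0) :
    ∃ a b : V, LinearIndependent ℂ ![u, a, b] ∧ φ a = 0 ∧ φ b = 0 := by
  have hf : 3 ≤ Module.finrank ℂ (LinearMap.ker φ) := by
    have h1 := LinearMap.finrank_range_add_finrank_ker φ
    have h2 : Module.finrank ℂ (LinearMap.range φ) ≤ 1 := by
      have := (LinearMap.range φ).finrank_le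
      simpa using this
    have h3 : Module.finrank ℂ V = 4 := by simp
    omega
  let u' : LinearMap.ker φ := ⟨u, h⟩
  have hu' : u' ≠ 0 := fun h0 => hu (congrArg Subtype.val h0)
  have h1 : LinearIndependent ℂ (fun _ : Fin 1 => u') := by
    rw [linearIndependent_unique_iff]
    exact hu'
  obtain ⟨a, ha⟩ := exists_linearIndependent_snoc_of_lt_finrank h1 (by omega)
  obtain ⟨b, hb⟩ := exists_linearIndependent_snoc_of_lt_finrank ha (by omega)
  refine ⟨a, b, ?_, a.2, b.2⟩
  have h2 := hb.map' (LinearMap.ker φ).subtype (Submodule.ker_subtype _)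
  have h3 : ![u, (a : V), (b : V)] = (LinearMap.ker φ).subtype ∘
      (Fin.snoc (α := fun _ => LinearMap.ker φ)
        (Fin.snoc (α := fun _ => LinearMap.ker φ) (fun _ : Fin 1 => u') a) b) := by
    funext i
    fin_cases i <;> rfl
  rw [h3]
  exact h2

/-- Two independent isotropic vectors. -/
lemma LINE_iso (B : Bi) : ∃ u v : V, LinearIndependent ℂ ![u, v] ∧
    ∀ s t : ℂ, B (s • u + t • v) (s • u + t • v) = 0 := by
  have hex : ∀ (B : Bi) (a b : V), ∀ s t : ℂ, B (s • a + t • b) (s • a + t • b) =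
      s ^ 2 * B a a + s * t * (B a b + B b a) + t ^ 2 * B b b := by
    intro B a b s t
    simp only [map_add, LinearMap.add_apply, map_smul, LinearMap.smul_apply, smul_eq_mul]
    ring
  obtain ⟨s0, t0, hst, h0⟩ := LINE_root (B (Pi.single 0 1) (Pi.single 0 1))
    (B (Pi.single 0 1) (Pi.single 1 1) + B (Pi.single 1 1) (Pi.single 0 1))
    (B (Pi.single 1 1) (Pi.single 1 1))
  rw [← hex] at h0
  obtain ⟨u, hu⟩ : ∃ u : V, u = s0 • Pi.single 0 1 + t0 • Pi.single 1 1 := ⟨_, rfl⟩
  rw [← hu] at h0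
  have hu0 : u ≠ 0 := by
    intro h
    rw [hu] at h
    have e0 := congrFun h 0
    have e1 := congrFun h 1
    simp at e0 e1
    rcases hst with h | h
    · exact h e0
    · exact h e1
  let φ : D := B u + B.flip u
  have hφ : ∀ z, φ z = B u z + B z u := fun z => rfl
  obtain ⟨a, b, hab, ha, hb⟩ := LINE_ker φ u hu0 (by rw [hφ, h0, add_zero])
  obtain ⟨s1, t1, hst1, h1⟩ := LINE_root (B a a) (B a b + B b a) (B b b)
  rw [← hex] at h1
  refine ⟨u, s1 • a + t1 • b, ?_, fun s t => ?_⟩
  · rw [LinearIndependent.pair_iff]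
    intro s t h
    have h2 := Fintype.linearIndependent_iff.mp hab ![s, t * s1, t * t1] (by
      rw [Fin.sum_univ_three]
      simp only [cons_val]
      rw [← h, smul_add, smul_smul, smul_smul, add_assoc])
    have e0 := h2 0
    have e1 := h2 1
    have e2 := h2 2
    simp only [cons_val] at e0 e1 e2
    refine ⟨e0, ?_⟩
    rcases hst1 with h | h
    · exact (mul_eq_zero.mp e1).resolve_right h
    · exact (mul_eq_zero.mp e2).resolve_right h
  · have h2 : B u (s1 • a + t1 • b) + B (s1 • a + t1 • b) u = 0 := by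
      rw [← hφ, map_add, map_smul, map_smul, ha, hb]
      simp
    rw [hex, h0, h1, h2]
    ring

/-- Two independent vectors in the kernel of a linear form. -/
lemma LINE_ker2 (φ : D) : ∃ u v : V, LinearIndependent ℂ ![u, v] ∧
    ∀ s t : ℂ, φ (s • u + t • v) = 0 := by
  have hf : 3 ≤ Module.finrank ℂ (LinearMap.ker φ) := by
    have h1 := LinearMap.finrank_range_add_finrank_ker φ
    have h2 : Module.finrank ℂ (LinearMap.range φ) ≤ 1 := by
      have := (LinearMap.range φ).finrank_le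
      simpa using this
    have h3 : Module.finrank ℂ V = 4 := by simp
    omega
  obtain ⟨u, hu⟩ : ∃ u : LinearMap.ker φ, u ≠ 0 := by
    have : Nontrivial (LinearMap.ker φ) := Module.nontrivial_of_finrank_pos (R := ℂ) (by omega)
    exact exists_ne 0
  obtain ⟨a, b, hab, ha, -⟩ := LINE_ker φ u (fun h => hu (Subtype.ext h)) u.2
  refine ⟨u, a, ?_, fun s t => ?_⟩
  · rw [LinearIndependent.pair_iff]
    intro s t h
    have h2 := Fintype.linearIndependent_iff.mp hab ![s, t, 0] (by
      rw [Fin.sum_univ_three]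
      simp only [cons_val]
      rw [h, zero_smul, add_zero])
    exact ⟨by simpa using h2 0, by simpa using h2 1⟩
  · rw [map_add, map_smul, map_smul, ha, show φ u = 0 from u.2]
    simp

theorem p_LINE (h1 : P_FAC) (h2 : P_DET) : P_LINE := by
  intro T hT
  have hli : LinearIndependent ℂ (fun k : Fin 4 => (Pi.single k 1 : V)) := by
    have := (Pi.basisFun ℂ (Fin 4)).linearIndependent
    convert this using 1
    funext k
    simp
  obtain ⟨F, hF, hS, hd⟩ := h2 T hT (fun k => Pi.single k 1) (fun k => Pi.single k 1)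
    (fun k => Pi.single k 1) hli
  have hz : ∀ z : V, ∑ k, z k • (Pi.single k 1 : V) = z := by
    intro z
    funext j
    simp [Finset.sum_apply, Pi.single_apply]
  suffices h : ∃ u v : V, LinearIndependent ℂ ![u, v] ∧
      ∀ s t : ℂ, MvPolynomial.eval (s • u + t • v) F = 0 by
    obtain ⟨u, v, huv, h⟩ := h
    refine ⟨u, v, huv, fun s t => ?_⟩
    have h3 := hd (s • u + t • v)
    rw [h s t, hz] at h3
    obtain ⟨y, hy, hy'⟩ := Matrix.exists_vecMul_eq_zero_iff.mpr h3.symm
    refine ⟨y, hy, fun w => ?_⟩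
    have h4 : ∀ j : Fin 4, T (s • u + t • v) y (Pi.single j 1) = 0 := by
      intro j
      have h5 := congrFun hy' j
      simp only [Matrix.vecMul, dotProduct, Matrix.of_apply, Pi.zero_apply] at h5
      conv_lhs => rw [← hz y]
      rw [map_sum, LinearMap.sum_apply]
      simpa [mul_add] using h5
    rw [← hz w, map_sum]
    refine Finset.sum_eq_zero fun j _ => ?_
    rw [map_smul, h4, smul_zero]
  rcases h1 F hF hS with h | ⟨l, g, hl, hg, h⟩ | ⟨q, hq, h⟩
  · obtain ⟨u, v, huv, -⟩ := LINE_ker2 0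
    exact ⟨u, v, huv, fun s t => by rw [h, map_zero]⟩
  · obtain ⟨φ, hφ⟩ := LINE_lin hl
    obtain ⟨u, v, huv, h3⟩ := LINE_ker2 φ
    refine ⟨u, v, huv, fun s t => ?_⟩
    rw [h, map_mul, map_pow, hφ, h3]
    simp
  · obtain ⟨B, hB⟩ := LINE_quad hq
    obtain ⟨u, v, huv, h3⟩ := LINE_iso B
    refine ⟨u, v, huv, fun s t => ?_⟩
    rw [h, map_pow, hB, h3]
    simp

end Pool.Agent.MR8
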