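import Pool.Agent.MR8.Defs

set_option autoImplicit false

/-!
# MR8: the first normal form (NF1)
-/

namespace Pool.Agent.MR8

open Matrix

/-! ### Exchange of the arguments -/

lemma NF1_RK_sw {r : ℕ} {T : Tri} (h : RK r (sw T)) : RK r T := by
  obtain ⟨α, β, γ, h⟩ := h
  refine ⟨β, α, γ, fun x y w => ?_⟩
  rw [← sw_apply, h]
  exact Finset.sum_congr rfl fun i _ => by ring

lemma NF1_RK_sv {r : ℕ} {T : Tri} (h : RK r (sv T)) : RK r T := by
  obtain ⟨α, β, γ, h⟩ := h
  refine ⟨α, γ, β, fun x y w => ?_⟩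
  rw [← sv_apply, h]
  exact Finset.sum_congr rfl fun i _ => by ring

lemma NF1_RK_rt {r : ℕ} {T : Tri} (h : RK r (rt T)) : RK r T := NF1_RK_sv (NF1_RK_sw h)

lemma NF1_Rk2_symm {A B : Bi} (h : ∀ x y, A x y = B y x) (hB : Rk2 B) : Rk2 A := by
  obtain ⟨ξ, υ, ξ', υ', hB⟩ := hB
  exact ⟨υ, ξ, υ', ξ', fun x y => by rw [h, hB]; ring⟩

lemma NF1_trip_sw {T : Tri} {x0 y0 w0 : V} (h : TRIP T x0 y0 w0) : TRIP (sw T) y0 x0 w0 := by
  obtain ⟨hx0, hy0, hw0, r1, r2, r3, e1, e2, e3⟩ := h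
  exact ⟨hy0, hx0, hw0, r2, r1, NF1_Rk2_symm (fun _ _ => rfl) r3, e1, e3, e2⟩

lemma NF1_trip_sv {T : Tri} {x0 y0 w0 : V} (h : TRIP T x0 y0 w0) : TRIP (sv T) x0 w0 y0 := by
  obtain ⟨hx0, hy0, hw0, r1, r2, r3, e1, e2, e3⟩ := h
  exact ⟨hx0, hw0, hy0, NF1_Rk2_symm (fun _ _ => rfl) r1, r3, r2, e2, e1, e3⟩

/-! ### No common zero -/

lemma NF1_nz (h2 : P_KP) (h3 : P_B3F) (T : Tri) (hT : ¬ RK 8 T) (l0 l1 w0 : V)
    (hl : LinearIndependent ℂ ![l0, l1]) (hw : w0 ≠ 0) (e0 : ∀ y, T l0 y w0 = 0)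
    (e1 : ∀ y, T l1 y w0 = 0) (y : V) (f0 : ∀ w, T l0 y w = 0) (f1 : ∀ w, T l1 y w = 0) :
    y = 0 := by
  obtain ⟨P, hP, hB⟩ := h2 T hT l0 l1 w0 hl hw e0 e1
  obtain ⟨-, -, h, -⟩ := h3 T w0 _ _ hB
  refine h y (fun w => ?_) (fun w => ?_) <;>
    simp only [map_add, map_smul, LinearMap.add_apply, LinearMap.smul_apply, f0, f1, smul_zero,
      add_zero]

/-! ### Linear algebra -/

lemma NF1_ker (ξ ξ' : D) (u : V) (hu : u ≠ 0) :
    ∃ a : V, LinearIndependent ℂ ![u, a] ∧ ξ a = 0 ∧ ξ' a = 0 := by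
  by_contra hcon
  push Not at hcon
  have hle : LinearMap.ker ξ ⊓ LinearMap.ker ξ' ≤ Submodule.span ℂ {u} := by
    intro a ha
    by_contra hna
    have h1 : LinearIndependent ℂ ![u, a] := by
      rw [LinearIndependent.pair_iff' hu]
      intro c hc
      exact hna (Submodule.mem_span_singleton.2 ⟨c, hc⟩)
    exact hcon a h1 ha.1 ha.2
  have h1 := Submodule.finrank_mono hle
  have h2 : Module.finrank ℂ (Submodule.span ℂ {u}) = 1 := finrank_span_singleton hu
  have h3 := Submodule.finrank_sup_add_finrank_inf_eq (LinearMap.ker ξ) (LinearMap.ker ξ')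
  have h4 := LinearMap.finrank_range_add_finrank_ker ξ
  have h5 := LinearMap.finrank_range_add_finrank_ker ξ'
  have h6 : Module.finrank ℂ (LinearMap.range ξ) ≤ 1 := by
    have := Submodule.finrank_le (LinearMap.range ξ)
    rwa [Module.finrank_self] at this
  have h7 : Module.finrank ℂ (LinearMap.range ξ') ≤ 1 := by
    have := Submodule.finrank_le (LinearMap.range ξ')
    rwa [Module.finrank_self] at this
  have h8 : Module.finrank ℂ V = 4 := by simp [V]
  have h9 := Submodule.finrank_le (LinearMap.ker ξ ⊔ LinearMap.ker ξ')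
  omega

lemma NF1_kerL {B : Bi} (hB : Rk2 B) (u : V) (hu : u ≠ 0) :
    ∃ a : V, LinearIndependent ℂ ![u, a] ∧ ∀ y, B a y = 0 := by
  obtain ⟨ξ, υ, ξ', υ', hB⟩ := hB
  obtain ⟨a, h1, h2, h3⟩ := NF1_ker ξ ξ' u hu
  exact ⟨a, h1, fun y => by rw [hB, h2, h3]; ring⟩

lemma NF1_kerR {B : Bi} (hB : Rk2 B) (u : V) (hu : u ≠ 0) :
    ∃ a : V, LinearIndependent ℂ ![u, a] ∧ ∀ x, B x a = 0 := by
  obtain ⟨ξ, υ, ξ', υ', hB⟩ := hB
  obtain ⟨a, h1, h2, h3⟩ := NF1_ker υ υ' u hu
  exact ⟨a, h1, fun y => by rw [hB, h2, h3]; ring⟩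

lemma NF1_li3 {u v w : V} (h : LinearIndependent ℂ ![u, v])
    (hw : ∀ s t : ℂ, w ≠ s • u + t • v) : LinearIndependent ℂ ![u, v, w] := by
  rw [Fintype.linearIndependent_iff]
  intro g hg
  rw [Fin.sum_univ_three] at hg
  simp only [Matrix.cons_val_zero, Matrix.cons_val_one, Matrix.cons_val] at hg
  have h2 : g 2 = 0 := by
    by_contra hne
    refine hw (-(g 0 / g 2)) (-(g 1 / g 2)) ?_
    have h3 : w = (g 2)⁻¹ • (g 2 • w) := by rw [smul_smul, inv_mul_cancel₀ hne, one_smul]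
    have h4 : g 2 • w = -(g 0 • u + g 1 • v) := by
      rw [← sub_eq_zero, ← hg]; abel
    rw [h3, h4]
    module
  rw [h2, zero_smul, add_zero] at hg
  obtain ⟨h0, h1⟩ := LinearIndependent.pair_iff.1 h _ _ hg
  intro i
  fin_cases i
  · exact h0
  · exact h1
  · exact h2

lemma NF1_li3' {u v w : V} (h : LinearIndependent ℂ ![u, v, w]) (r s t : ℂ)
    (he : r • u + s • v + t • w = 0) : r = 0 ∧ s = 0 ∧ t = 0 := by
  rw [Fintype.linearIndependent_iff] at h
  have h1 := h ![r, s, t] (by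
    rw [Fin.sum_univ_three]
    simpa using he)
  exact ⟨h1 0, h1 1, h1 2⟩

lemma NF1_li4 {u v w x : V} (h : LinearIndependent ℂ ![u, v, w])
    (hx : ∀ r s t : ℂ, x ≠ r • u + s • v + t • w) : LinearIndependent ℂ ![u, v, w, x] := by
  rw [Fintype.linearIndependent_iff]
  intro g hg
  rw [Fin.sum_univ_four] at hg
  simp only [Matrix.cons_val_zero, Matrix.cons_val_one, Matrix.cons_val] at hg
  have h2 : g 3 = 0 := by
    by_contra hne
    refine hx (-(g 0 / g 3)) (-(g 1 / g 3)) (-(g 2 / g 3)) ?_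
    have h3 : x = (g 3)⁻¹ • (g 3 • x) := by rw [smul_smul, inv_mul_cancel₀ hne, one_smul]
    have h4 : g 3 • x = -(g 0 • u + g 1 • v + g 2 • w) := by
      rw [← sub_eq_zero, ← hg]; abel
    rw [h3, h4]
    module
  rw [h2, zero_smul, add_zero] at hg
  obtain ⟨h0, h1, h3⟩ := NF1_li3' h _ _ _ hg
  intro i
  fin_cases i
  · exact h0
  · exact h1
  · exact h3
  · exact h2

lemma NF1_compl (u v w : V) : ∃ x : V, ∀ r s t : ℂ, x ≠ r • u + s • v + t • w := by
  by_contra hcon
  push Not at hcon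
  have h1 : (⊤ : Submodule ℂ V) ≤ Submodule.span ℂ (Set.range ![u, v, w]) := by
    intro x _
    obtain ⟨r, s, t, hx⟩ := hcon x
    rw [hx]
    refine Submodule.add_mem _ (Submodule.add_mem _ ?_ ?_) ?_
    · exact Submodule.smul_mem _ _ (Submodule.subset_span ⟨0, rfl⟩)
    · exact Submodule.smul_mem _ _ (Submodule.subset_span ⟨1, rfl⟩)
    · exact Submodule.smul_mem _ _ (Submodule.subset_span ⟨2, rfl⟩)
  have h2 := Submodule.finrank_mono h1
  have h3 : Module.finrank ℂ (Submodule.span ℂ (Set.range ![u, v, w])) ≤ 3 :=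
    finrank_range_le_card ![u, v, w]
  rw [finrank_top] at h2
  have h8 : Module.finrank ℂ V = 4 := by simp [V]
  omega

/-- the basis -/
noncomputable def NF1_bas {x : Fin 4 → V} (hx : LinearIndependent ℂ x) : Module.Basis (Fin 4) ℂ V :=
  basisOfLinearIndependentOfCardEqFinrank hx (by simp [V])

lemma NF1_bas_apply {x : Fin 4 → V} (hx : LinearIndependent ℂ x) (i : Fin 4) :
    NF1_bas hx i = x i := by
  simp [NF1_bas]

lemma NF1_ext1 {x : Fin 4 → V} (hx : LinearIndependent ℂ x) {φ ψ : D}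
    (h : ∀ i, φ (x i) = ψ (x i)) (z : V) : φ z = ψ z := by
  have h1 : φ = ψ := (NF1_bas hx).ext fun i => by rw [NF1_bas_apply]; exact h i
  rw [h1]

lemma NF1_row {x w : Fin 4 → V} (hx : LinearIndependent ℂ x) (hw : LinearIndependent ℂ w)
    (A : Bi) (i0 : Fin 4) (h : ∀ i, i ≠ i0 → ∀ k, A (x i) (w k) = 0) : Rk1 A := by
  refine ⟨(NF1_bas hx).coord i0, A (x i0), fun a b => ?_⟩
  have h1 : A.flip b = ((A (x i0)) b) • (NF1_bas hx).coord i0 := by
    refine (NF1_bas hx).ext fun i => ?_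
    rw [NF1_bas_apply]
    by_cases hi : i = i0
    · rw [hi]
      have h2 : (NF1_bas hx).coord i0 (x i0) = 1 := by
        conv_lhs => rw [← NF1_bas_apply hx i0]
        simp
      rw [LinearMap.smul_apply, h2, smul_eq_mul, mul_one]
      rfl
    · have h2 : (NF1_bas hx).coord i0 (x i) = 0 := by
        conv_lhs => rw [← NF1_bas_apply hx i]
        simp [hi]
      rw [LinearMap.smul_apply, h2, smul_zero]
      show A (x i) b = 0
      have h3 : A (x i) = 0 := (NF1_bas hw).ext fun k => by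
        rw [NF1_bas_apply]; exact h i hi k
      rw [h3]; rfl
  have h4 : A a b = A.flip b a := rfl
  rw [h4, h1, LinearMap.smul_apply, smul_eq_mul, mul_comm]

lemma NF1_Rk1_symm {A B : Bi} (h : ∀ x y, A x y = B y x) (hB : Rk1 B) : Rk1 A := by
  obtain ⟨ξ, υ, hB⟩ := hB
  exact ⟨υ, ξ, fun x y => by rw [h, hB]; ring⟩

lemma NF1_col {x w : Fin 4 → V} (hx : LinearIndependent ℂ x) (hw : LinearIndependent ℂ w)
    (A : Bi) (k0 : Fin 4) (h : ∀ k, k ≠ k0 → ∀ i, A (x i) (w k) = 0) : Rk1 A :=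
  NF1_Rk1_symm (B := A.flip) (fun _ _ => rfl) (NF1_row hw hx A.flip k0 h)

/-- membership in a plane, from dependence -/
lemma NF1_plane {u v w : V} (hu : LinearIndependent ℂ ![u, w]) {s t : ℂ}
    (h : w = s • u + t • v) : t ≠ 0 := by
  intro ht
  rw [ht, zero_smul, add_zero] at h
  rw [LinearIndependent.pair_iff' (by
    intro h0
    have := (LinearIndependent.pair_iff.1 hu) 1 0 (by rw [h0]; simp)
    exact one_ne_zero this.1)] at hu
  exact hu s h.symm

theorem p_NF1 (h1 : P_PAIR) (h2 : P_KP) (h3 : P_B3F) (h4 : P_B0) : P_NF1 := by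
  intro T hT x0 y0 w0 hTr
  have hT2 : ¬ RK 8 (sw T) := fun h => hT (NF1_RK_sw h)
  have hT3 : ¬ RK 8 (sv T) := fun h => hT (NF1_RK_sv h)
  have hT4 : ¬ RK 8 (rt T) := fun h => hT (NF1_RK_rt h)
  have hT5 : ¬ RK 8 (sv (rt T)) := fun h => hT4 (NF1_RK_sv h)
  have hTr2 := NF1_trip_sw hTr
  have hTr3 := NF1_trip_sv hTr
  obtain ⟨hx0, hy0, hw0, r1, r2, r3, e1, e2, e3⟩ := hTr
  have hTr : TRIP T x0 y0 w0 := ⟨hx0, hy0, hw0, r1, r2, r3, e1, e2, e3⟩
  -- the six kernel vectors
  obtain ⟨a, la, ea⟩ := NF1_kerL r3 x0 hx0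
  obtain ⟨b, lb, eb⟩ := NF1_kerR r3 y0 hy0
  obtain ⟨a', la', ea'⟩ := NF1_kerL r2 x0 hx0
  obtain ⟨c', lc', ec'⟩ := NF1_kerR r2 w0 hw0
  obtain ⟨b', lb', eb'⟩ := NF1_kerL r1 y0 hy0
  obtain ⟨c, lc, ec⟩ := NF1_kerR r1 w0 hw0
  have ea : ∀ y, T a y w0 = 0 := ea
  have eb : ∀ x, T x b w0 = 0 := eb
  have ea' : ∀ w, T a' y0 w = 0 := ea'
  have ec' : ∀ x, T x y0 c' = 0 := ec'
  have eb' : ∀ w, T x0 b' w = 0 := eb'
  have ec : ∀ y, T x0 y c = 0 := ec
  -- the pair lemma
  obtain ⟨p1, p1', p1''⟩ := h1 T hT x0 y0 w0 a c hTr la ea lc ec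
  obtain ⟨p2, p2', p2''⟩ := h1 (sw T) hT2 y0 x0 w0 b c' hTr2 lb eb lc' ec'
  obtain ⟨p3, p3', p3''⟩ := h1 (sv T) hT3 x0 w0 y0 a' b' hTr3 la' ea' lb' eb'
  have z101 : T a y0 c = 0 := p1' y0 e1
  have z121 : T a b' c = 0 := p1' b' eb'
  have z111 : T a b c = 0 := p1'' b eb
  have z012 : T x0 b c' = 0 := p2' x0 e1
  have z212 : T a' b c' = 0 := p2' a' ea'
  have z112 : T a b c' = 0 := p2'' a ea
  have z220 : T a' b' w0 = 0 := p3' w0 e2
  have z221 : T a' b' c = 0 := p3' c ec
  have z222 : T a' b' c' = 0 := p3'' c' ec'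
  -- independence
  have nzX := NF1_nz h2 h3 T hT x0 a w0 la hw0 e2 ea
  have nzY := NF1_nz h2 h3 (sw T) hT2 y0 b w0 lb hw0 e3 eb
  have nzW := NF1_nz h2 h3 (sv (rt T)) hT5 w0 c x0 lc hx0 e2 ec
  have Lx : LinearIndependent ℂ ![x0, a, a'] := by
    refine NF1_li3 la fun s t h => ?_
    have ht := NF1_plane la' h
    refine hy0 (nzX y0 e1 fun w => ?_)
    have h5 := ea' w
    rw [h] at h5
    simp only [map_add, map_smul, LinearMap.add_apply, LinearMap.smul_apply, e1, smul_eq_mul,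
      mul_zero, zero_add, mul_eq_zero] at h5
    exact h5.resolve_left ht
  have Ly : LinearIndependent ℂ ![y0, b, b'] := by
    refine NF1_li3 lb fun s t h => ?_
    have ht := NF1_plane lb' h
    refine hx0 (nzY x0 e1 fun w => ?_)
    have h5 := eb' w
    rw [h] at h5
    simp only [map_add, map_smul, LinearMap.add_apply, LinearMap.smul_apply, e1, smul_eq_mul,
      mul_zero, zero_add, mul_eq_zero] at h5
    exact h5.resolve_left ht
  have Lw : LinearIndependent ℂ ![w0, c, c'] := by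
    refine NF1_li3 lc fun s t h => ?_
    have ht := NF1_plane lc' h
    refine hy0 (nzW y0 e3 fun x => ?_)
    have h5 := ec' x
    rw [h] at h5
    simp only [map_add, map_smul, e3, smul_eq_mul, mul_zero,
      zero_add, mul_eq_zero] at h5
    exact h5.resolve_left ht
  obtain ⟨x4, hx4⟩ := NF1_compl x0 a a'
  obtain ⟨y4, hy4⟩ := NF1_compl y0 b b'
  obtain ⟨w4, hw4⟩ := NF1_compl w0 c c'
  have LX := NF1_li4 Lx hx4
  have LY := NF1_li4 Ly hy4
  have LW := NF1_li4 Lw hw4
  -- the three matrices of rank two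
  have n103 : T a y0 w4 ≠ 0 := fun h => hT2 (h4 (sw T) y0 hy0 (NF1_row LX LW _ 3 (by
    intro i hi k
    fin_cases i
    · exact e1 _
    · fin_cases k
      · exact e3 _
      · exact z101
      · exact ec' _
      · exact h
    · exact ea' _
    · exact absurd rfl hi)))
  have n301 : T x4 y0 c ≠ 0 := fun h => hT2 (h4 (sw T) y0 hy0 (NF1_col LX LW _ 3 (by
    intro k hk i
    fin_cases k
    · exact e3 _
    · fin_cases i
      · exact e1 _
      · exact z101
      · exact ea' _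
      · exact h
    · exact ec' _
    · exact absurd rfl hk)))
  have n013 : T x0 b w4 ≠ 0 := fun h => hT (h4 T x0 hx0 (NF1_row LY LW _ 3 (by
    intro i hi k
    fin_cases i
    · exact e1 _
    · fin_cases k
      · exact e2 _
      · exact ec _
      · exact z012
      · exact h
    · exact eb' _
    · exact absurd rfl hi)))
  have n032 : T x0 y4 c' ≠ 0 := fun h => hT (h4 T x0 hx0 (NF1_col LY LW _ 3 (by
    intro k hk i
    fin_cases k
    · exact e2 _
    · exact ec _
    · fin_cases i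
      · exact e1 _
      · exact z012
      · exact eb' _
      · exact h
    · exact absurd rfl hk)))
  have n230 : T a' y4 w0 ≠ 0 := fun h => hT4 (h4 (rt T) w0 hw0 (NF1_row LX LY _ 3 (by
    intro i hi k
    fin_cases i
    · exact e2 _
    · exact ea _
    · fin_cases k
      · exact e3 _
      · exact eb _
      · exact z220
      · exact h
    · exact absurd rfl hi)))
  have n320 : T x4 b' w0 ≠ 0 := fun h => hT4 (h4 (rt T) w0 hw0 (NF1_col LX LY _ 3 (by
    intro k hk i
    fin_cases k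
    · exact e3 _
    · exact eb _
    · fin_cases i
      · exact e2 _
      · exact ea _
      · exact z220
      · exact h
    · exact absurd rfl hk)))
  -- the other nonzero entries
  have n131 : T a y4 c ≠ 0 := by
    intro h
    obtain ⟨y, hy⟩ := p1
    refine hy (NF1_ext1 LY (φ := (sv T a) c) (ψ := 0) ?_ y)
    intro i
    fin_cases i
    · exact z101
    · exact z111
    · exact z121
    · exact h
  have n312 : T x4 b c' ≠ 0 := by
    intro h
    obtain ⟨x, hx⟩ := p2
    refine hx (NF1_ext1 LX (φ := (sv (sw T) b) c') (ψ := 0) ?_ x)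
    intro i
    fin_cases i
    · exact z012
    · exact z112
    · exact z212
    · exact h
  have n223 : T a' b' w4 ≠ 0 := by
    intro h
    obtain ⟨w, hw⟩ := p3
    refine hw (NF1_ext1 LW (φ := T a' b') (ψ := 0) ?_ w)
    intro i
    fin_cases i
    · exact z220
    · exact z221
    · exact z222
    · exact h
  have n122 : T a b' c' ≠ 0 := by
    intro h
    have h5 : T a y0 w4 • b' - T a b' w4 • y0 = 0 := by
      refine nzX _ (fun w => ?_) (fun w => ?_)
      · simp only [map_sub, map_smul, LinearMap.sub_apply, LinearMap.smul_apply, e1, eb',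
          smul_zero, sub_zero]
      · refine NF1_ext1 LW (φ := T a (T a y0 w4 • b' - T a b' w4 • y0)) (ψ := 0) ?_ w
        intro i
        fin_cases i
        · show T a (T a y0 w4 • b' - T a b' w4 • y0) w0 = 0
          exact ea _
        · show T a (T a y0 w4 • b' - T a b' w4 • y0) c = 0
          simp only [map_sub, map_smul, LinearMap.sub_apply, LinearMap.smul_apply, z101, z121,
            smul_zero, sub_zero]
        · show T a (T a y0 w4 • b' - T a b' w4 • y0) c' = 0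
          simp only [map_sub, map_smul, LinearMap.sub_apply, LinearMap.smul_apply, h, ec',
            smul_zero, sub_zero]
        · show T a (T a y0 w4 • b' - T a b' w4 • y0) w4 = 0
          simp only [map_sub, map_smul, LinearMap.sub_apply, LinearMap.smul_apply, smul_eq_mul]
          ring
    have h6 := (LinearIndependent.pair_iff.1 lb') (-(T a b' w4)) (T a y0 w4) (by
      rw [← h5]; module)
    exact n103 h6.2
  have n211 : T a' b c ≠ 0 := by
    intro h
    have h5 : T x0 b w4 • a' - T a' b w4 • x0 = 0 := by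
      refine nzY _ (fun w => ?_) (fun w => ?_)
      · show T (T x0 b w4 • a' - T a' b w4 • x0) y0 w = 0
        simp only [map_sub, map_smul, LinearMap.sub_apply, LinearMap.smul_apply, e1, ea',
          smul_zero, sub_zero]
      · refine NF1_ext1 LW (φ := T (T x0 b w4 • a' - T a' b w4 • x0) b) (ψ := 0) ?_ w
        intro i
        fin_cases i
        · show T (T x0 b w4 • a' - T a' b w4 • x0) b w0 = 0
          exact eb _
        · show T (T x0 b w4 • a' - T a' b w4 • x0) b c = 0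
          simp only [map_sub, map_smul, LinearMap.sub_apply, LinearMap.smul_apply, h, ec,
            smul_zero, sub_zero]
        · show T (T x0 b w4 • a' - T a' b w4 • x0) b c' = 0
          simp only [map_sub, map_smul, LinearMap.sub_apply, LinearMap.smul_apply, z212, z012,
            smul_zero, sub_zero]
        · show T (T x0 b w4 • a' - T a' b w4 • x0) b w4 = 0
          simp only [map_sub, map_smul, LinearMap.sub_apply, LinearMap.smul_apply, smul_eq_mul]
          ring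
    have h6 := (LinearIndependent.pair_iff.1 la') (-(T a' b w4)) (T x0 b w4) (by
      rw [← h5]; module)
    exact n013 h6.2
  -- the final choice
  obtain ⟨al, hal⟩ : ∃ al : ℂ, T x4 y4 w0 + al * T a' y4 w0 = 0 :=
    ⟨-(T x4 y4 w0 / T a' y4 w0), by field_simp; ring⟩
  obtain ⟨be, hbe⟩ : ∃ be : ℂ, T x4 y0 w4 + be * T a y0 w4 = 0 :=
    ⟨-(T x4 y0 w4 / T a y0 w4), by field_simp; ring⟩
  obtain ⟨ga, hga⟩ : ∃ ga : ℂ, T x0 y4 w4 + ga * T x0 b w4 = 0 :=
    ⟨-(T x0 y4 w4 / T x0 b w4), by field_simp; ring⟩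
  have LX' : LinearIndependent ℂ ![x0, a, a', x4 + al • a' + be • a] := by
    refine NF1_li4 Lx fun r s t h => hx4 r (s - be) (t - al) ?_
    have h5 : x4 = (x4 + al • a' + be • a) - al • a' - be • a := by abel
    rw [h5, h]
    module
  have LY' : LinearIndependent ℂ ![y0, b, b', y4 + ga • b] := by
    refine NF1_li4 Ly fun r s t h => hy4 r (s - ga) t ?_
    have h5 : y4 = (y4 + ga • b) - ga • b := by abel
    rw [h5, h]
    module
  have ex : ∀ y w, T (x4 + al • a' + be • a) y w = T x4 y w + al * T a' y w + be * T a y w := by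
    intro y w
    simp only [map_add, map_smul, LinearMap.add_apply, LinearMap.smul_apply, smul_eq_mul]
  have ey : ∀ x w, T x (y4 + ga • b) w = T x y4 w + ga * T x b w := by
    intro x w
    simp only [map_add, map_smul, LinearMap.add_apply, LinearMap.smul_apply, smul_eq_mul]
  refine ⟨fun i j k => T (![x0, a, a', x4 + al • a' + be • a] i) (![y0, b, b', y4 + ga • b] j)
    (![w0, c, c', w4] k), ⟨_, _, _, LX', LY', LW, fun _ _ _ => rfl⟩, ?_⟩
  refine ⟨fun k => e1 _, fun j => e2 _, fun i => e3 _, ?_⟩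
  refine ⟨ec _, z012, eb' _, eb' _, eb' _, ec _, ?_, ?_⟩
  · show T x0 (y4 + ga • b) w4 = 0
    rw [ey, hga]
  refine ⟨z101, ec' _, ea' _, ea' _, ea' _, ec' _, ?_, ?_⟩
  · show T (x4 + al • a' + be • a) y0 w4 = 0
    rw [ex, ea', mul_zero, add_zero, hbe]
  refine ⟨ea _, ea _, ea _, eb _, z220, eb _, ?_, ?_⟩
  · show T (x4 + al • a' + be • a) (y4 + ga • b) w0 = 0
    rw [ex, ey, ey, ey, eb, eb, eb, ea]
    linear_combination hal
  refine ⟨z111, z121, z112, z212, z221, z222, n013, ?_, n103, ?_, ?_, ?_, ?_, ?_, n223, n122,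
    n211⟩
  · show T x0 (y4 + ga • b) c' ≠ 0
    rw [ey, z012, mul_zero, add_zero]
    exact n032
  · show T (x4 + al • a' + be • a) y0 c ≠ 0
    rw [ex, ea', z101, mul_zero, mul_zero, add_zero, add_zero]
    exact n301
  · show T a' (y4 + ga • b) w0 ≠ 0
    rw [ey, eb, mul_zero, add_zero]
    exact n230
  · show T (x4 + al • a' + be • a) b' w0 ≠ 0
    rw [ex, z220, ea, mul_zero, mul_zero, add_zero, add_zero]
    exact n320
  · show T a (y4 + ga • b) c ≠ 0
    rw [ey, z111, mul_zero, add_zero]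
    exact n131
  · show T (x4 + al • a' + be • a) b c' ≠ 0
    rw [ex, z212, z112, mul_zero, mul_zero, add_zero, add_zero]
    exact n312

end Pool.Agent.MR8
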