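import Pool.Agent.MR8.Defs

set_option autoImplicit false
set_option linter.unusedSimpArgs false

namespace Pool.Agent.MR8

lemma NF3_LIadd {x : Fin 4 → V} (hx : LinearIndependent ℂ x) (c : Fin 4 → ℂ) (h0 : c 0 = 0) :
    LinearIndependent ℂ (fun i => x i + c i • x 0) := by
  rw [Fintype.linearIndependent_iff] at hx ⊢
  intro g hg
  have h := hx ![g 0 + g 1 * c 1 + g 2 * c 2 + g 3 * c 3, g 1, g 2, g 3] (by
    rw [← hg]
    simp only [Fin.sum_univ_four, Matrix.cons_val, h0]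
    module)
  have h1 : g 1 = 0 := by simpa using h 1
  have h2 : g 2 = 0 := by simpa using h 2
  have h3 : g 3 = 0 := by simpa using h 3
  have h4 : g 0 = 0 := by simpa [h1, h2, h3] using h 0
  intro i
  fin_cases i
  · exact h4
  · exact h1
  · exact h2
  · exact h3

lemma NF3_LIsmul {x : Fin 4 → V} (hx : LinearIndependent ℂ x) (c : Fin 4 → ℂ)
    (h : ∀ i, c i ≠ 0) : LinearIndependent ℂ (fun i => c i • x i) :=
  hx.units_smul (fun i => Units.mk0 (c i) (h i))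

theorem p_NF2 : P_NF2 := by
  rintro T ⟨t, ⟨x, y, w, hx, hy, hw, ht⟩, z1, z2, z3, z4, z5, z6, z7, z8, z9, z10, z11, z12, z13,
    z14, z15, z16, z17, z18, z19, z20, z21, z22, z23, z24, z25, z26, z27, z28, z29, z30,
    A1, A2, B1, B2, C1, C2, n1, n2, n3, n4, n5⟩
  set be1 : ℂ := - t 3 1 1 / t 3 0 1 with hbe1
  set be2 : ℂ := - t 1 2 3 / t 1 0 3 with hbe2
  set be3 : ℂ := - t 1 3 3 / t 1 0 3 with hbe3
  set ga1 : ℂ := - (t 3 2 1 + be2 * t 3 0 1) / t 3 2 0 with hga1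
  set ga2 : ℂ := - t 3 2 2 / t 3 2 0 with hga2
  set ga3 : ℂ := - t 3 2 3 / t 3 2 0 with hga3
  set al1 : ℂ := - (t 1 1 3 + be1 * t 1 0 3) / t 0 1 3 with hal1
  set al2 : ℂ := - t 2 1 3 / t 0 1 3 with hal2
  set al3 : ℂ := - t 3 1 3 / t 0 1 3 with hal3
  set al : Fin 4 → ℂ := ![0, al1, al2, al3] with hal
  set be : Fin 4 → ℂ := ![0, be1, be2, be3] with hbe
  set ga : Fin 4 → ℂ := ![0, ga1, ga2, ga3] with hga
  have key : ∀ i j k, T (x i + al i • x 0) (y j + be j • y 0) (w k + ga k • w 0) =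
      t i j k + al i * t 0 j k + be j * t i 0 k + ga k * t i j 0 := by
    intro i j k
    simp only [map_add, map_smul, LinearMap.add_apply, LinearMap.smul_apply, smul_eq_mul, ht,
      z1, z2, z3]
    ring
  refine ⟨fun i j k => t i j k + al i * t 0 j k + be j * t i 0 k + ga k * t i j 0,
    ⟨fun i => x i + al i • x 0, fun i => y i + be i • y 0, fun i => w i + ga i • w 0,
      NF3_LIadd hx al (by simp [hal]), NF3_LIadd hy be (by simp [hbe]),
      NF3_LIadd hw ga (by simp [hga]), key⟩, ?_⟩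
  have a0 : al 0 = 0 := by simp [hal]
  have a1 : al 1 = al1 := by simp [hal]
  have a2 : al 2 = al2 := by simp [hal]
  have a3 : al 3 = al3 := by simp [hal]
  have b0 : be 0 = 0 := by simp [hbe]
  have b1 : be 1 = be1 := by simp [hbe]
  have b2 : be 2 = be2 := by simp [hbe]
  have b3 : be 3 = be3 := by simp [hbe]
  have g0 : ga 0 = 0 := by simp [hga]
  have g1 : ga 1 = ga1 := by simp [hga]
  have g2 : ga 2 = ga2 := by simp [hga]
  have g3 : ga 3 = ga3 := by simp [hga]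
  have e1 : be1 * t 3 0 1 = - t 3 1 1 := by rw [hbe1]; field_simp
  have e2 : be2 * t 1 0 3 = - t 1 2 3 := by rw [hbe2]; field_simp
  have e3 : be3 * t 1 0 3 = - t 1 3 3 := by rw [hbe3]; field_simp
  have e4 : ga1 * t 3 2 0 = - (t 3 2 1 + be2 * t 3 0 1) := by rw [hga1]; field_simp
  have e5 : ga2 * t 3 2 0 = - t 3 2 2 := by rw [hga2]; field_simp
  have e6 : ga3 * t 3 2 0 = - t 3 2 3 := by rw [hga3]; field_simp
  have e7 : al1 * t 0 1 3 = - (t 1 1 3 + be1 * t 1 0 3) := by rw [hal1]; field_simp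
  have e8 : al2 * t 0 1 3 = - t 2 1 3 := by rw [hal2]; field_simp
  have e9 : al3 * t 0 1 3 = - t 3 1 3 := by rw [hal3]; field_simp
  clear_value be1 be2 be3 ga1 ga2 ga3 al1 al2 al3
  refine ⟨⟨fun k => ?_, fun j => ?_, fun i => ?_, ?_⟩, ?_⟩
  · simp [a0, b0, z1, z2, z3]
  · simp [a0, g0, z1, z2, z3]
  · simp [b0, g0, z1, z2, z3]
  · simp only [a0, a1, a2, a3, b0, b1, b2, b3, g0, g1, g2, g3, z1, z2, z3, z4, z5, z6, z7, z8, z9,
      z10, z11, z12, z13, z14, z15, z16, z17, z18, z19, z20, z21, z22, z23, z24, z25, z26, z27,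
      z28, z29, z30, mul_zero, zero_mul, add_zero, zero_add, ne_eq, not_false_eq_true, and_true,
      true_and, A1, A2, B1, B2, C1, C2, n1, n2, n3, n4, n5, and_self]
  · simp only [a0, a1, a2, a3, b0, b1, b2, b3, g0, g1, g2, g3, z1, z2, z3, z4, z5, z6, z7, z8, z9,
      z10, z11, z12, z13, z14, z15, z16, z17, z18, z19, z20, z21, z22, z23, z24, z25, z26, z27,
      z28, z29, z30, mul_zero, zero_mul, add_zero, zero_add, e1, e2, e3, e4, e5, e6, e7, e8, e9]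
    refine ⟨by ring, by ring, by ring, by ring, by ring, by ring, by ring, by ring, by ring⟩

theorem p_NF3 : P_NF3 := by
  rintro T ⟨t, ⟨x, y, w, hx, hy, hw, ht⟩, ⟨z1, z2, z3, z4, z5, z6, z7, z8, z9, z10, z11, z12, z13,
    z14, z15, z16, z17, z18, z19, z20, z21, z22, z23, z24, z25, z26, z27, z28, z29, z30,
    A1, A2, B1, B2, C1, C2, n1, n2, n3, n4, n5⟩, z34, z35, z36, z37, z38, z39, z40, z41, z42⟩
  obtain ⟨p, hp⟩ := IsAlgClosed.exists_pow_nat_eq (k := ℂ)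
    (t 3 2 0 * t 1 3 1 * t 1 0 3 * t 3 1 2 ^ 2 * t 2 2 3 /
      (t 0 1 3 ^ 2 * t 3 0 1 * t 2 3 0 * t 1 2 2 ^ 2)) (n := 2) (by norm_num)
  have hp0 : p ≠ 0 := by
    rintro rfl
    have : (t 3 2 0 * t 1 3 1 * t 1 0 3 * t 3 1 2 ^ 2 * t 2 2 3 /
      (t 0 1 3 ^ 2 * t 3 0 1 * t 2 3 0 * t 1 2 2 ^ 2)) ≠ 0 := by positivity
    exact this (by rw [← hp]; ring)
  obtain ⟨q, hq⟩ := IsAlgClosed.exists_pow_nat_eq (k := ℂ)
    (p ^ 2 * t 0 1 3 * t 0 3 2 * t 3 0 1 / (t 1 3 1 * t 1 0 3 * t 3 1 2)) (n := 2) (by norm_num)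
  have hq0 : q ≠ 0 := by
    rintro rfl
    have : (p ^ 2 * t 0 1 3 * t 0 3 2 * t 3 0 1 / (t 1 3 1 * t 1 0 3 * t 3 1 2)) ≠ 0 := by
      positivity
    exact this (by rw [← hq]; ring)
  have hp' : p ^ 2 * (t 0 1 3 ^ 2 * t 3 0 1 * t 2 3 0 * t 1 2 2 ^ 2) =
      t 3 2 0 * t 1 3 1 * t 1 0 3 * t 3 1 2 ^ 2 * t 2 2 3 := by
    rw [hp]; field_simp
  have hq' : q ^ 2 * (t 1 3 1 * t 1 0 3 * t 3 1 2) = p ^ 2 * t 0 1 3 * t 0 3 2 * t 3 0 1 := by
    rw [hq]; field_simp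
  clear hp hq
  set A := t 0 1 3 with hA
  set A' := t 0 3 2 with hA'
  set B := t 1 0 3 with hB
  set B' := t 3 0 1 with hB'
  set C := t 2 3 0 with hC
  set C' := t 3 2 0 with hC'
  set a := t 1 3 1 with ha
  set h := t 3 1 2 with hh
  set g := t 2 2 3 with hg
  set u := t 1 2 2 with hu
  set r : ℂ := p * A' * C' / (C * u * q) with hr
  have hr0 : r ≠ 0 := by rw [hr]; positivity
  have hr' : r * (C * u * q) = p * A' * C' := by rw [hr]; field_simp
  clear_value r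
  set X : Fin 4 → ℂ := ![p, q, r, 1] with hX
  set Y : Fin 4 → ℂ := ![q * a / B', p * A' / h, r * C / C', 1] with hY
  set W : Fin 4 → ℂ := ![1 / (r * C), 1 / (q * a), 1 / (p * A'), h / (p ^ 2 * A * A')] with hW
  have X0 : ∀ i, X i ≠ 0 := by
    intro i
    fin_cases i
    · exact hp0
    · exact hq0
    · exact hr0
    · exact one_ne_zero
  have Y0 : ∀ i, Y i ≠ 0 := by
    intro i
    fin_cases i
    · show q * a / B' ≠ 0
      positivity
    · show p * A' / h ≠ 0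
      positivity
    · show r * C / C' ≠ 0
      positivity
    · exact one_ne_zero
  have W0 : ∀ i, W i ≠ 0 := by
    intro i
    fin_cases i
    · exact one_div_ne_zero (mul_ne_zero hr0 C1)
    · exact one_div_ne_zero (mul_ne_zero hq0 n1)
    · exact one_div_ne_zero (mul_ne_zero hp0 A2)
    · exact div_ne_zero n2 (mul_ne_zero (mul_ne_zero (pow_ne_zero 2 hp0) A1) A2)
  refine ⟨X 2 * Y 1 * W 1 * t 2 1 1, X 1 * Y 3 * W 2 * t 1 3 2, X 2 * Y 3 * W 1 * t 2 3 1,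
    X 2 * Y 3 * W 2 * t 2 3 2, X 2 * Y 3 * W 3 * t 2 3 3, X 3 * Y 3 * W 1 * t 3 3 1,
    X 3 * Y 3 * W 2 * t 3 3 2, X 3 * Y 3 * W 3 * t 3 3 3,
    mul_ne_zero (mul_ne_zero (mul_ne_zero (X0 2) (Y0 1)) (W0 1)) n5,
    fun i => X i • x i, fun i => Y i • y i, fun i => W i • w i,
    NF3_LIsmul hx X X0, NF3_LIsmul hy Y Y0, NF3_LIsmul hw W W0, ?_⟩
  have key : ∀ i j k, T (X i • x i) (Y j • y j) (W k • w k) = X i * Y j * W k * t i j k := by
    intro i j k
    simp only [map_smul, LinearMap.smul_apply, smul_eq_mul, ht]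
    ring
  have x0 : X 0 = p := rfl
  have x1 : X 1 = q := rfl
  have x2 : X 2 = r := rfl
  have x3 : X 3 = 1 := rfl
  have y0 : Y 0 = q * a / B' := rfl
  have y1 : Y 1 = p * A' / h := rfl
  have y2 : Y 2 = r * C / C' := rfl
  have y3 : Y 3 = 1 := rfl
  have w0 : W 0 = 1 / (r * C) := rfl
  have w1 : W 1 = 1 / (q * a) := rfl
  have w2 : W 2 = 1 / (p * A') := rfl
  have w3 : W 3 = h / (p ^ 2 * A * A') := rfl
  clear_value X Y W
  have m1 : X 0 * Y 1 * W 3 * A = 1 := by rw [x0, y1, w3]; field_simp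
  have m2 : X 0 * Y 3 * W 2 * A' = 1 := by rw [x0, y3, w2]; field_simp
  have m3 : X 1 * Y 0 * W 3 * B = 1 := by
    rw [x1, y0, w3]; field_simp
    linear_combination hq'
  have m4 : X 3 * Y 0 * W 1 * B' = 1 := by rw [x3, y0, w1]; field_simp
  have m5 : X 2 * Y 3 * W 0 * C = 1 := by rw [x2, y3, w0]; field_simp
  have m6 : X 3 * Y 2 * W 0 * C' = 1 := by rw [x3, y2, w0]; field_simp
  have m7 : X 1 * Y 3 * W 1 * a = 1 := by rw [x1, y3, w1]; field_simp
  have m8 : X 3 * Y 1 * W 2 * h = 1 := by rw [x3, y1, w2]; field_simp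
  have m9 : X 2 * Y 2 * W 3 * g = 1 := by
    rw [x2, y2, w3]; field_simp
    have hK : p ^ 2 * A' * (C * u ^ 2 * A * B') ≠ 0 := by positivity
    refine mul_left_cancel₀ hK ?_
    linear_combination (-(r ^ 2 * C ^ 2 * u ^ 2 * h * g)) * hq' +
      a * B * h ^ 2 * g * (r * (C * u * q) + p * A' * C') * hr' - p ^ 2 * A' ^ 2 * C' * hp'
  have m10 : X 1 * Y 2 * W 2 * u = 1 := by
    rw [x1, y2, w2]; field_simp
    linear_combination hr'
  rw [hA] at m1
  rw [hA'] at m2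
  rw [hB] at m3
  rw [hB'] at m4
  rw [hC] at m5
  rw [hC'] at m6
  rw [ha] at m7
  rw [hh] at m8
  rw [hg] at m9
  rw [hu] at m10
  intro i j k
  rw [key]
  fin_cases i <;> fin_cases j <;> fin_cases k <;>
    simp [tt, z1, z2, z3, z4, z5, z6, z7, z8, z9, z10, z11, z12, z13,
    z14, z15, z16, z17, z18, z19, z20, z21, z22, z23, z24, z25, z26, z27, z28, z29, z30,
    z34, z35, z36, z37, z38, z39, z40, z41, z42, m1, m2, m3, m4, m5, m6, m7, m8, m9, m10]

end Pool.Agent.MR8
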