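import Pool.Agent.MR8.Defs

set_option autoImplicit false

/-!
# Classification of pencils of `3 × 3` matrices without common zeros
-/

namespace Pool.Agent.MR8

open Matrix

/-- The coordinate space of dimension three. -/
abbrev P33_U := Fin 3 → ℂ

/-- Square matrices of size three. -/
abbrev P33_M := Matrix (Fin 3) (Fin 3) ℂ

/-- The five normal forms. -/
def P33_nf (a b : P33_M) : Prop :=
  ∃ G H : P33_M, IsUnit G.det ∧ IsUnit H.det ∧
    ((a = G * !![1, 0, 0; 0, 1, 0; 0, 0, 0] * H ∧ b = G * !![0, 1, 0; 0, 0, 0; 0, 0, 1] * H) ∨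
     (a = G * H ∧ b = G * !![0, 1, 0; 0, 0, 0; 0, 0, 0] * H) ∨
     (a = G * H ∧ b = G * !![0, 1, 0; 0, 0, 1; 0, 0, 0] * H) ∨
     (∃ d d' : Fin 3 → ℂ, a = G * diagonal d * H ∧ b = G * diagonal d' * H) ∨
     (a = G * !![1, 0, 0; 0, 0, 1; 0, 0, 0] * H ∧ b = G * !![0, 1, 0; 0, 0, 0; 0, 0, 1] * H))

/-- The pencil has a normal form. -/
def P33_gd (a b : P33_M) : Prop :=
  ∃ P : Matrix (Fin 2) (Fin 2) ℂ, IsUnit P.det ∧
    P33_nf (P 0 0 • a + P 0 1 • b) (P 1 0 • a + P 1 1 • b)

lemma P33_nf_mul {a b : P33_M} (U : P33_M) (hU : IsUnit U.det) (h : P33_nf a b) :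
    P33_nf (U * a) (U * b) := by
  obtain ⟨G, H, hG, hH, h⟩ := h
  refine ⟨U * G, H, by rw [Matrix.det_mul]; exact hU.mul hG, hH, ?_⟩
  rcases h with ⟨h1, h2⟩ | ⟨h1, h2⟩ | ⟨h1, h2⟩ | ⟨d, d', h1, h2⟩ | ⟨h1, h2⟩
  · left; rw [h1, h2]; simp only [Matrix.mul_assoc]; exact ⟨trivial, trivial⟩
  · right; left; rw [h1, h2]; simp only [Matrix.mul_assoc]; exact ⟨trivial, trivial⟩
  · right; right; left; rw [h1, h2]; simp only [Matrix.mul_assoc]; exact ⟨trivial, trivial⟩
  · right; right; right; left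
    refine ⟨d, d', ?_⟩
    rw [h1, h2]; simp only [Matrix.mul_assoc]; exact ⟨trivial, trivial⟩
  · right; right; right; right
    rw [h1, h2]; simp only [Matrix.mul_assoc]; exact ⟨trivial, trivial⟩

lemma P33_gd_mul {a b : P33_M} (U : P33_M) (hU : IsUnit U.det) (h : P33_gd a b) :
    P33_gd (U * a) (U * b) := by
  obtain ⟨P, hP, h⟩ := h
  refine ⟨P, hP, ?_⟩
  have h2 := P33_nf_mul U hU h
  simpa only [Matrix.mul_add, Matrix.mul_smul] using h2

lemma P33_gd_comb {a b : P33_M} (R : Matrix (Fin 2) (Fin 2) ℂ) (hR : IsUnit R.det)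
    (h : P33_gd (R 0 0 • a + R 0 1 • b) (R 1 0 • a + R 1 1 • b)) : P33_gd a b := by
  obtain ⟨P, hP, h⟩ := h
  refine ⟨P * R, by rw [Matrix.det_mul]; exact hP.mul hR, ?_⟩
  convert h using 1
  · simp only [Matrix.mul_apply, Fin.sum_univ_two]
    module
  · simp only [Matrix.mul_apply, Fin.sum_univ_two]
    module

/-! ### Jordan form -/

/-- A matrix with a given basis of columns. -/
lemma P33_conj (J K : P33_M) (c : Fin 3 → P33_U) (hc : LinearIndependent ℂ c)
    (h : ∀ j, J *ᵥ c j = ∑ i, K i j • c i) :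
    ∃ C : P33_M, IsUnit C.det ∧ J * C = C * K := by
  refine ⟨(Matrix.of c)ᵀ, ?_, ?_⟩
  · rw [Matrix.det_transpose]
    have h1 : LinearIndependent ℂ (Matrix.of c).row := hc
    exact (Matrix.isUnit_iff_isUnit_det _).1 (Matrix.linearIndependent_rows_iff_isUnit.1 h1)
  · ext i j
    have h1 := congrFun (h j) i
    simp only [mulVec, dotProduct, Finset.sum_apply, Pi.smul_apply, smul_eq_mul] at h1
    simp only [Matrix.mul_apply, Matrix.transpose_apply, Matrix.of_apply]
    rw [h1]
    exact Finset.sum_congr rfl fun k _ => mul_comm _ _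

lemma P33_diag_of_iSup (Y : P33_M)
    (hs : (⨆ μ : ℂ, Module.End.eigenspace (Matrix.toLin' Y) μ) = ⊤) :
    ∃ (P : P33_M) (d : Fin 3 → ℂ), IsUnit P.det ∧ Y * P = P * diagonal d := by
  classical
  let S : Set P33_U := {x | ∃ μ : ℂ, Y *ᵥ x = μ • x}
  have hspan : Submodule.span ℂ S = ⊤ := by
    rw [eq_top_iff, ← hs]
    refine iSup_le fun μ x hx => Submodule.subset_span ⟨μ, ?_⟩
    rw [Module.End.mem_eigenspace_iff, Matrix.toLin'_apply] at hx
    exact hx
  obtain ⟨b, hbS, hb, hli⟩ := exists_linearIndependent ℂ S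
  let B : Module.Basis b ℂ P33_U := Module.Basis.mk hli (by
    rw [Subtype.range_coe, hb, hspan])
  have hfin : Finite b := Module.Finite.finite_basis B
  have : Fintype b := Fintype.ofFinite b
  have hcard : Fintype.card b = 3 := by
    rw [← Module.finrank_eq_card_basis B]
    simp
  let e : b ≃ Fin 3 := Fintype.equivFinOfCardEq hcard
  let B' : Module.Basis (Fin 3) ℂ P33_U := B.reindex e
  have hB' : ∀ j, ∃ μ : ℂ, Y *ᵥ (B' j) = μ • B' j := by
    intro j
    have h1 : B' j = ((e.symm j : b) : P33_U) := by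
      simp [B', B]
    rw [h1]
    exact hbS (e.symm j).2
  choose d hd using hB'
  obtain ⟨C, hC, h⟩ := P33_conj Y (diagonal d) B' B'.linearIndependent (fun j => by
    rw [hd j]
    rw [Finset.sum_eq_single j]
    · rw [diagonal_apply_eq]
    · intro i _ hi
      rw [diagonal_apply_ne _ hi, zero_smul]
    · simp)
  exact ⟨C, d, hC, h⟩

lemma P33_end_mat (J : P33_M) (z : ℂ) (v : P33_U) :
    (Matrix.toLin' J - z • (1 : Module.End ℂ P33_U)) v = J *ᵥ v - z • v := by
  simp

/-- Jordan normal form of matrices of size three. -/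
lemma P33_jordan (J : P33_M) :
    ∃ (C K : P33_M), IsUnit C.det ∧ J * C = C * K ∧
      ((∃ d : Fin 3 → ℂ, K = diagonal d) ∨
       (∃ l m : ℂ, m ≠ l ∧ K = !![l, m - l, 0; 0, l, 0; 0, 0, m]) ∨
       (∃ l : ℂ, K = !![l, 1, 0; 0, l, 0; 0, 0, l]) ∨
       (∃ l : ℂ, K = !![l, 1, 0; 0, l, 1; 0, 0, l])) := by
  classical
  by_cases hss : ∀ (l : ℂ) (v : P33_U), J *ᵥ (J *ᵥ v - l • v) = l • (J *ᵥ v - l • v) →
      J *ᵥ v - l • v = 0
  · -- semisimple
    have key : ∀ (l : ℂ) (n : ℕ) (v : P33_U),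
        ((Matrix.toLin' J - l • (1 : Module.End ℂ P33_U)) ^ (n + 1)) v = 0 →
        J *ᵥ v - l • v = 0 := by
      intro l n
      induction n with
      | zero =>
        intro v hv
        rw [zero_add, pow_one, P33_end_mat] at hv
        exact hv
      | succ n ih =>
        intro v hv
        rw [pow_succ, Module.End.mul_apply, P33_end_mat] at hv
        have h1 := ih _ hv
        exact hss l v (sub_eq_zero.1 h1)
    have htop : (⨆ μ : ℂ, Module.End.eigenspace (Matrix.toLin' J) μ) = ⊤ := by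
      rw [eq_top_iff, ← Module.End.iSup_maxGenEigenspace_eq_top (Matrix.toLin' J)]
      refine iSup_mono fun μ v hv => ?_
      rw [Module.End.mem_maxGenEigenspace] at hv
      obtain ⟨k, hk⟩ := hv
      rw [Module.End.mem_eigenspace_iff, Matrix.toLin'_apply]
      cases k with
      | zero =>
        have : v = 0 := by simpa using hk
        rw [this]; simp
      | succ n => exact sub_eq_zero.1 (key μ n v hk)
    obtain ⟨P, d, hP, h⟩ := P33_diag_of_iSup J htop
    exact ⟨P, diagonal d, hP, h, Or.inl ⟨d, rfl⟩⟩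
  push Not at hss
  obtain ⟨l, v, hv2, hv1⟩ := hss
  set w : P33_U := J *ᵥ v - l • v with hw
  have hJv : J *ᵥ v = w + l • v := by rw [hw]; abel
  by_cases hm : ∃ (m : ℂ) (u : P33_U), m ≠ l ∧ u ≠ 0 ∧ J *ᵥ u = m • u
  · obtain ⟨m, u, hml, hu, hJu⟩ := hm
    have hml' : m - l ≠ 0 := sub_ne_zero.2 hml
    -- basis `w / (m - l), v, u`
    have hli : LinearIndependent ℂ ![(m - l)⁻¹ • w, v, u] := by
      rw [Fintype.linearIndependent_iff]
      intro g hg
      rw [Fin.sum_univ_three] at hg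
      simp only [Matrix.cons_val_zero, Matrix.cons_val_one, Matrix.cons_val_two,
        Matrix.tail_cons, Matrix.head_cons] at hg
      have e1 : J *ᵥ (g 0 • (m - l)⁻¹ • w + g 1 • v + g 2 • u) -
          l • (g 0 • (m - l)⁻¹ • w + g 1 • v + g 2 • u) = 0 := by
        rw [hg]; simp
      have e2 : g 1 • w + (g 2 * (m - l)) • u = 0 := by
        rw [← e1]
        simp only [Matrix.mulVec_add, Matrix.mulVec_smul, hv2, hJv, hJu]
        module
      have e3 : J *ᵥ (g 1 • w + (g 2 * (m - l)) • u) -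
          l • (g 1 • w + (g 2 * (m - l)) • u) = 0 := by
        rw [e2]; simp
      have e4 : (g 2 * (m - l) * (m - l)) • u = 0 := by
        rw [← e3]
        simp only [Matrix.mulVec_add, Matrix.mulVec_smul, hv2, hJu]
        module
      have g2 : g 2 = 0 := by
        rcases smul_eq_zero.1 e4 with h | h
        · simpa [hml'] using h
        · exact absurd h hu
      have g1 : g 1 = 0 := by
        rw [g2, zero_mul, zero_smul, add_zero] at e2
        rcases smul_eq_zero.1 e2 with h | h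
        · exact h
        · exact absurd h hv1
      have g0 : g 0 = 0 := by
        rw [g2, g1, zero_smul, zero_smul, add_zero, add_zero] at hg
        rcases smul_eq_zero.1 hg with h | h
        · exact h
        · rcases smul_eq_zero.1 h with h | h
          · exact absurd h (inv_ne_zero hml')
          · exact absurd h hv1
      intro i
      fin_cases i
      · exact g0
      · exact g1
      · exact g2
    obtain ⟨C, hC, h⟩ := P33_conj J !![l, m - l, 0; 0, l, 0; 0, 0, m] _ hli (by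
      intro j
      rw [Fin.sum_univ_three]
      fin_cases j
      · simp [Matrix.mulVec_smul, hv2, smul_smul, mul_comm]
      · simp [hJv, smul_smul, mul_inv_cancel₀ hml']
      · simp [hJu])
    exact ⟨C, _, hC, h, Or.inr (Or.inl ⟨l, m, hml, rfl⟩)⟩
  push Not at hm
  -- only eigenvalue `l`; `N = J - l` is nilpotent
  have htop : ∀ x : P33_U, ∃ k : ℕ,
      ((Matrix.toLin' J - l • (1 : Module.End ℂ P33_U)) ^ k) x = 0 := by
    intro x
    have h1 : (⨆ μ : ℂ, Module.End.maxGenEigenspace (Matrix.toLin' J) μ) ≤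
        Module.End.maxGenEigenspace (Matrix.toLin' J) l := by
      refine iSup_le fun μ => ?_
      by_cases hμ : μ = l
      · rw [hμ]
      · have h2 : Module.End.maxGenEigenspace (Matrix.toLin' J) μ = ⊥ := by
          by_contra hne
          have h3 : ¬ Module.End.HasEigenvalue (Matrix.toLin' J) μ := by
            intro h4
            obtain ⟨u, hu⟩ := h4.exists_hasEigenvector
            have h5 := hu.apply_eq_smul
            rw [Matrix.toLin'_apply] at h5
            exact hm μ u hμ hu.2 h5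
          rw [← ne_eq, Submodule.ne_bot_iff] at hne
          obtain ⟨y, hy, hy0⟩ := hne
          rw [Module.End.mem_maxGenEigenspace] at hy
          obtain ⟨k, hk⟩ := hy
          apply h3
          rw [Module.End.hasEigenvalue_iff, Submodule.ne_bot_iff]
          induction k generalizing y with
          | zero => exact absurd (by simpa using hk) hy0
          | succ n ih =>
            rw [pow_succ, Module.End.mul_apply, P33_end_mat] at hk
            by_cases hz : J *ᵥ y - μ • y = 0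
            · refine ⟨y, ?_, hy0⟩
              rw [Module.End.mem_eigenspace_iff, Matrix.toLin'_apply]
              exact sub_eq_zero.1 hz
            · exact ih _ hz hk
        rw [h2]; exact bot_le
    have h3 : x ∈ Module.End.maxGenEigenspace (Matrix.toLin' J) l := by
      apply h1
      rw [Module.End.iSup_maxGenEigenspace_eq_top]
      trivial
    rwa [Module.End.mem_maxGenEigenspace] at h3
  by_cases hN2 : ∃ x : P33_U, J *ᵥ (J *ᵥ x - l • x) - l • (J *ᵥ x - l • x) ≠ 0
  · -- a vector with `N² x ≠ 0` and `N³ x = 0`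
    obtain ⟨x, hx⟩ := hN2
    have hx3 : ∃ y : P33_U, J *ᵥ (J *ᵥ y - l • y) - l • (J *ᵥ y - l • y) ≠ 0 ∧
        J *ᵥ (J *ᵥ (J *ᵥ y - l • y) - l • (J *ᵥ y - l • y)) =
          l • (J *ᵥ (J *ᵥ y - l • y) - l • (J *ᵥ y - l • y)) := by
      obtain ⟨k, hk⟩ := htop x
      induction k generalizing x with
      | zero =>
        exfalso
        apply hx
        have : x = 0 := by simpa using hk
        rw [this]; simp
      | succ n ih =>
        by_cases h3 : J *ᵥ (J *ᵥ (J *ᵥ x - l • x) - l • (J *ᵥ x - l • x)) =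
          l • (J *ᵥ (J *ᵥ x - l • x) - l • (J *ᵥ x - l • x))
        · exact ⟨x, hx, h3⟩
        · rw [pow_succ, Module.End.mul_apply, P33_end_mat] at hk
          exact ih (J *ᵥ x - l • x) (sub_ne_zero.2 h3) hk
    obtain ⟨y, hy2, hy3⟩ := hx3
    set y1 : P33_U := J *ᵥ y - l • y with hy1
    set y2 : P33_U := J *ᵥ y1 - l • y1 with hy2'
    have hJy : J *ᵥ y = y1 + l • y := by rw [hy1]; abel
    have hJy1 : J *ᵥ y1 = y2 + l • y1 := by rw [hy2']; abel
    have hli : LinearIndependent ℂ ![y2, y1, y] := by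
      rw [Fintype.linearIndependent_iff]
      intro g hg
      rw [Fin.sum_univ_three] at hg
      simp only [Matrix.cons_val_zero, Matrix.cons_val_one, Matrix.cons_val_two,
        Matrix.tail_cons, Matrix.head_cons] at hg
      have e1 : J *ᵥ (g 0 • y2 + g 1 • y1 + g 2 • y) -
          l • (g 0 • y2 + g 1 • y1 + g 2 • y) = 0 := by
        rw [hg]; simp
      have e2 : g 1 • y2 + g 2 • y1 = 0 := by
        rw [← e1]
        simp only [Matrix.mulVec_add, Matrix.mulVec_smul, hy3, hJy, hJy1]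
        module
      have e3 : J *ᵥ (g 1 • y2 + g 2 • y1) - l • (g 1 • y2 + g 2 • y1) = 0 := by
        rw [e2]; simp
      have e4 : g 2 • y2 = 0 := by
        rw [← e3]
        simp only [Matrix.mulVec_add, Matrix.mulVec_smul, hy3, hJy1]
        module
      have g2 : g 2 = 0 := by
        rcases smul_eq_zero.1 e4 with h | h
        · exact h
        · exact absurd h hy2
      have g1 : g 1 = 0 := by
        rw [g2, zero_smul, add_zero] at e2
        rcases smul_eq_zero.1 e2 with h | h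
        · exact h
        · exact absurd h hy2
      have g0 : g 0 = 0 := by
        rw [g2, g1, zero_smul, zero_smul, add_zero, add_zero] at hg
        rcases smul_eq_zero.1 hg with h | h
        · exact h
        · exact absurd h hy2
      intro i
      fin_cases i
      · exact g0
      · exact g1
      · exact g2
    obtain ⟨C, hC, h⟩ := P33_conj J !![l, 1, 0; 0, l, 1; 0, 0, l] _ hli (by
      intro j
      rw [Fin.sum_univ_three]
      fin_cases j
      · simp [hy3]
      · simp [hJy1]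
      · simp [hJy])
    exact ⟨C, _, hC, h, Or.inr (Or.inr (Or.inr ⟨l, rfl⟩))⟩
  · push Not at hN2
    -- `N² = 0`: rank one
    set f : Module.End ℂ P33_U := Matrix.toLin' J - l • (1 : Module.End ℂ P33_U) with hf
    have hfa : ∀ x, f x = J *ᵥ x - l • x := fun x => P33_end_mat J l x
    have hle : LinearMap.range f ≤ LinearMap.ker f := by
      rintro _ ⟨x, rfl⟩
      rw [LinearMap.mem_ker, hfa, hfa]
      exact hN2 x
    have h1 := LinearMap.finrank_range_add_finrank_ker f
    have h2 := Submodule.finrank_mono hle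
    rw [Module.finrank_fin_fun] at h1
    have h3 : 2 ≤ Module.finrank ℂ (LinearMap.ker f) := by omega
    have hu : ∃ u, f u = 0 ∧ u ∉ Submodule.span ℂ {w} := by
      by_contra hcon
      push Not at hcon
      have h4 : LinearMap.ker f ≤ Submodule.span ℂ {w} := fun u hu => hcon u hu
      have h5 := Submodule.finrank_mono h4
      have h6 := finrank_span_le_card (R := ℂ) ({w} : Set P33_U)
      simp at h6
      omega
    obtain ⟨u, hu0, hus⟩ := hu
    rw [hfa] at hu0
    have hJu : J *ᵥ u = l • u := sub_eq_zero.1 hu0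
    have hli : LinearIndependent ℂ ![w, v, u] := by
      rw [Fintype.linearIndependent_iff]
      intro g hg
      rw [Fin.sum_univ_three] at hg
      simp only [Matrix.cons_val_zero, Matrix.cons_val_one, Matrix.cons_val_two,
        Matrix.tail_cons, Matrix.head_cons] at hg
      have e1 : J *ᵥ (g 0 • w + g 1 • v + g 2 • u) -
          l • (g 0 • w + g 1 • v + g 2 • u) = 0 := by
        rw [hg]; simp
      have e2 : g 1 • w = 0 := by
        rw [← e1]
        simp only [Matrix.mulVec_add, Matrix.mulVec_smul, hv2, hJv, hJu]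
        module
      have g1 : g 1 = 0 := by
        rcases smul_eq_zero.1 e2 with h | h
        · exact h
        · exact absurd h hv1
      rw [g1, zero_smul, add_zero] at hg
      have g2 : g 2 = 0 := by
        by_contra hne
        apply hus
        rw [Submodule.mem_span_singleton]
        refine ⟨- (g 2)⁻¹ * g 0, ?_⟩
        have h7 : g 2 • u = - (g 0 • w) := by
          rw [eq_neg_iff_add_eq_zero, add_comm]; exact hg
        have h8 : u = (g 2)⁻¹ • (g 2 • u) := by rw [smul_smul, inv_mul_cancel₀ hne, one_smul]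
        rw [h8, h7]
        module
      have g0 : g 0 = 0 := by
        rw [g2, zero_smul, add_zero] at hg
        rcases smul_eq_zero.1 hg with h | h
        · exact h
        · exact absurd h hv1
      intro i
      fin_cases i
      · exact g0
      · exact g1
      · exact g2
    obtain ⟨C, hC, h⟩ := P33_conj J !![l, 1, 0; 0, l, 0; 0, 0, l] _ hli (by
      intro j
      rw [Fin.sum_univ_three]
      fin_cases j
      · simp [hv2]
      · simp [hJv]
      · simp [hJu])
    exact ⟨C, _, hC, h, Or.inr (Or.inr (Or.inl ⟨l, rfl⟩))⟩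

/-! ### Regular pencils -/

lemma P33_one (J : P33_M) : P33_gd 1 J := by
  obtain ⟨C, K, hC, h, hK⟩ := P33_jordan J
  have hCu : IsUnit C := (Matrix.isUnit_iff_isUnit_det _).2 hC
  have hCC : C * C⁻¹ = 1 := Matrix.mul_nonsing_inv _ hC
  have hJ : J = C * K * C⁻¹ := by
    rw [← h, Matrix.mul_assoc, hCC, Matrix.mul_one]
  have hCi : IsUnit (C⁻¹).det := by
    rw [Matrix.isUnit_nonsing_inv_det_iff]; exact hC
  rcases hK with ⟨d, rfl⟩ | ⟨l, m, hml, rfl⟩ | ⟨l, rfl⟩ | ⟨l, rfl⟩
  · refine ⟨1, by simp, C, C⁻¹, hC, hCi, ?_⟩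
    right; right; right; left
    refine ⟨1, d, ?_, ?_⟩
    · simp [hCC]
    · simp [hJ]
  · have hml' : m - l ≠ 0 := sub_ne_zero.2 hml
    refine ⟨!![1 + l / (m - l), - (m - l)⁻¹; - (l / (m - l)), (m - l)⁻¹], ?_, C,
      !![1, -1, 0; 0, 1, 0; 0, 0, 1] * C⁻¹, hC, ?_, ?_⟩
    · rw [Matrix.det_fin_two_of, isUnit_iff_ne_zero]
      have : (1 + l / (m - l)) * (m - l)⁻¹ - - (m - l)⁻¹ * - (l / (m - l)) = (m - l)⁻¹ := by ring
      rw [this]
      exact inv_ne_zero hml'
    · rw [Matrix.det_mul]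
      refine IsUnit.mul ?_ hCi
      rw [Matrix.det_fin_three]
      simp
    · left
      have h1 : (1 : P33_M) = C * 1 * C⁻¹ := by rw [Matrix.mul_one, hCC]
      constructor
      · have h2 : (1 + l / (m - l)) • (1 : P33_M) + (- (m - l)⁻¹) • J =
            C * ((1 + l / (m - l)) • (1 : P33_M) +
              (- (m - l)⁻¹) • !![l, m - l, 0; 0, l, 0; 0, 0, m]) * C⁻¹ := by
          rw [Matrix.mul_add, Matrix.add_mul, Matrix.mul_smul, Matrix.mul_smul, Matrix.smul_mul,
            Matrix.smul_mul, ← h1, ← hJ]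
        have h3 : ((1 + l / (m - l)) • (1 : P33_M) +
              (- (m - l)⁻¹) • !![l, m - l, 0; 0, l, 0; 0, 0, m]) =
            !![1, 0, 0; 0, 1, 0; 0, 0, 0] * !![1, -1, 0; 0, 1, 0; 0, 0, 1] := by
          ext i j
          fin_cases i <;> fin_cases j <;>
            simp [Matrix.mul_apply, Fin.sum_univ_three] <;> field_simp <;> ring
        simp only [Matrix.of_apply, Matrix.cons_val', Matrix.cons_val_zero, Matrix.cons_val_one,
          Matrix.cons_val_fin_one]
        rw [h2, h3]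
        simp only [Matrix.mul_assoc]
      · have h2 : (- (l / (m - l))) • (1 : P33_M) + (m - l)⁻¹ • J =
            C * ((- (l / (m - l))) • (1 : P33_M) +
              (m - l)⁻¹ • !![l, m - l, 0; 0, l, 0; 0, 0, m]) * C⁻¹ := by
          rw [Matrix.mul_add, Matrix.add_mul, Matrix.mul_smul, Matrix.mul_smul, Matrix.smul_mul,
            Matrix.smul_mul, ← h1, ← hJ]
        have h3 : ((- (l / (m - l))) • (1 : P33_M) +
              (m - l)⁻¹ • !![l, m - l, 0; 0, l, 0; 0, 0, m]) =
            !![0, 1, 0; 0, 0, 0; 0, 0, 1] * !![1, -1, 0; 0, 1, 0; 0, 0, 1] := by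
          ext i j
          fin_cases i <;> fin_cases j <;>
            simp [Matrix.mul_apply, Fin.sum_univ_three] <;> field_simp <;> ring
        simp only [Matrix.of_apply, Matrix.cons_val', Matrix.cons_val_zero, Matrix.cons_val_one,
          Matrix.cons_val_fin_one]
        rw [h2, h3]
        simp only [Matrix.mul_assoc]
  · refine ⟨!![1, 0; -l, 1], by simp, C, C⁻¹, hC, hCi, ?_⟩
    right; left
    have h1 : (1 : P33_M) = C * 1 * C⁻¹ := by rw [Matrix.mul_one, hCC]
    constructor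
    · simp [hCC]
    · have h2 : (-l) • (1 : P33_M) + (1 : ℂ) • J =
          C * ((-l) • (1 : P33_M) + (1 : ℂ) • !![l, 1, 0; 0, l, 0; 0, 0, l]) * C⁻¹ := by
        rw [Matrix.mul_add, Matrix.add_mul, Matrix.mul_smul, Matrix.mul_smul, Matrix.smul_mul,
          Matrix.smul_mul, ← h1, ← hJ]
      have h3 : ((-l) • (1 : P33_M) + (1 : ℂ) • !![l, 1, 0; 0, l, 0; 0, 0, l]) =
          !![0, 1, 0; 0, 0, 0; 0, 0, 0] := by
        ext i j
        fin_cases i <;> fin_cases j <;> simp
      simp only [Matrix.of_apply, Matrix.cons_val', Matrix.cons_val_zero, Matrix.cons_val_one,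
        Matrix.cons_val_fin_one]
      rw [h2, h3]
  · refine ⟨!![1, 0; -l, 1], by simp, C, C⁻¹, hC, hCi, ?_⟩
    right; right; left
    have h1 : (1 : P33_M) = C * 1 * C⁻¹ := by rw [Matrix.mul_one, hCC]
    constructor
    · simp [hCC]
    · have h2 : (-l) • (1 : P33_M) + (1 : ℂ) • J =
          C * ((-l) • (1 : P33_M) + (1 : ℂ) • !![l, 1, 0; 0, l, 1; 0, 0, l]) * C⁻¹ := by
        rw [Matrix.mul_add, Matrix.add_mul, Matrix.mul_smul, Matrix.mul_smul, Matrix.smul_mul,
          Matrix.smul_mul, ← h1, ← hJ]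
      have h3 : ((-l) • (1 : P33_M) + (1 : ℂ) • !![l, 1, 0; 0, l, 1; 0, 0, l]) =
          !![0, 1, 0; 0, 0, 1; 0, 0, 0] := by
        ext i j
        fin_cases i <;> fin_cases j <;> simp
      simp only [Matrix.of_apply, Matrix.cons_val', Matrix.cons_val_zero, Matrix.cons_val_one,
        Matrix.cons_val_fin_one]
      rw [h2, h3]

lemma P33_reg {a b : P33_M} (ha : IsUnit a.det) : P33_gd a b := by
  have h := P33_gd_mul a ha (P33_one (a⁻¹ * b))
  rwa [Matrix.mul_one, ← Matrix.mul_assoc, Matrix.mul_nonsing_inv _ ha, Matrix.one_mul] at h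

lemma P33_reg' {a b : P33_M} (s t : ℂ) (h : IsUnit (s • a + t • b).det) : P33_gd a b := by
  by_cases hs : s = 0
  · have ht : t ≠ 0 := by
      rintro rfl
      rw [hs] at h
      simp at h
    refine P33_gd_comb !![0, t; 1, 0] ?_ ?_
    · rw [Matrix.det_fin_two_of, isUnit_iff_ne_zero]
      simpa using ht
    · simp only [Matrix.of_apply, Matrix.cons_val', Matrix.cons_val_zero, Matrix.cons_val_one,
        Matrix.cons_val_fin_one]
      rw [hs] at h
      exact P33_reg h
  · refine P33_gd_comb !![s, t; 0, 1] ?_ ?_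
    · rw [Matrix.det_fin_two_of, isUnit_iff_ne_zero]
      simpa using hs
    · simp only [Matrix.of_apply, Matrix.cons_val', Matrix.cons_val_zero, Matrix.cons_val_one,
        Matrix.cons_val_fin_one]
      exact P33_reg h

/-! ### Singular pencils -/

lemma P33_zero {v : P33_U} (h : ∀ w, v ⬝ᵥ w = 0) : v = 0 := by
  funext i
  have := h (Pi.single i 1)
  rwa [dotProduct_single_one] at this

/-- A form whose kernel is a given plane. -/
lemma P33_form (E : Submodule ℂ P33_U) (hE : Module.finrank ℂ E = 2) :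
    ∃ (g u : P33_U), g ⬝ᵥ u = 1 ∧ ∀ y, y - (g ⬝ᵥ y) • u ∈ E ∧ (g ⬝ᵥ y = 0 → y ∈ E) := by
  have hlt : E < ⊤ := by
    rw [lt_top_iff_ne_top]
    rintro rfl
    rw [finrank_top, Module.finrank_fin_fun] at hE
    omega
  obtain ⟨f, hf0, hf⟩ := Submodule.exists_le_ker_of_lt_top E hlt
  have hv : ∃ v, f v ≠ 0 := by
    by_contra hcon
    push Not at hcon
    exact hf0 (LinearMap.ext hcon)
  obtain ⟨v, hv⟩ := hv
  have hker : E = LinearMap.ker f := by
    apply Submodule.eq_of_le_of_finrank_le hf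
    have h1 := LinearMap.finrank_range_add_finrank_ker f
    rw [Module.finrank_fin_fun] at h1
    have h2 : 0 < Module.finrank ℂ (LinearMap.range f) := by
      rw [Module.finrank_pos_iff_exists_ne_zero]
      exact ⟨⟨f v, v, rfl⟩, fun h => hv (congrArg Subtype.val h)⟩
    omega
  have hg : ∀ y : P33_U, (fun i => f (Pi.single i 1)) ⬝ᵥ y = f y := by
    intro y
    rw [LinearMap.pi_apply_eq_sum_univ f y, dotProduct]
    refine Finset.sum_congr rfl fun i _ => ?_
    rw [smul_eq_mul, mul_comm]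
    congr 2
    funext j
    simp [Pi.single_apply, eq_comm]
  refine ⟨fun i => f (Pi.single i 1), (f v)⁻¹ • v, ?_, fun y => ⟨?_, ?_⟩⟩
  · rw [hg, map_smul, smul_eq_mul, inv_mul_cancel₀ hv]
  · rw [hg, hker, LinearMap.mem_ker, map_sub, map_smul, map_smul, smul_eq_mul, smul_eq_mul,
      inv_mul_cancel₀ hv, mul_one, sub_self]
  · rw [hg, hker, LinearMap.mem_ker]
    exact id

lemma P33_id (a : P33_M) (E F : Submodule ℂ P33_U) (h0 : ∀ y ∈ E, ∀ w ∈ F, y ⬝ᵥ (a *ᵥ w) = 0)
    (g u h x : P33_U) (hg : ∀ y, y - (g ⬝ᵥ y) • u ∈ E) (hh : ∀ w, w - (h ⬝ᵥ w) • x ∈ F)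
    (y w : P33_U) : y ⬝ᵥ (a *ᵥ w) = (g ⬝ᵥ y) * (u ⬝ᵥ (a *ᵥ w)) +
      (h ⬝ᵥ w) * (y ⬝ᵥ (a *ᵥ x) - (g ⬝ᵥ y) * (u ⬝ᵥ (a *ᵥ x))) := by
  have h1 := h0 _ (hg y) _ (hh w)
  rw [Matrix.mulVec_sub, Matrix.mulVec_smul, dotProduct_sub, sub_dotProduct, sub_dotProduct,
    dotProduct_smul, dotProduct_smul, smul_dotProduct, smul_dotProduct, smul_eq_mul, smul_eq_mul,
    smul_eq_mul, smul_eq_mul] at h1
  linear_combination h1

lemma P33_mat (a : P33_M) (g u h x : P33_U)
    (hid : ∀ y w : P33_U, y ⬝ᵥ (a *ᵥ w) = (g ⬝ᵥ y) * (u ⬝ᵥ (a *ᵥ w)) +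
      (h ⬝ᵥ w) * (y ⬝ᵥ (a *ᵥ x) - (g ⬝ᵥ y) * (u ⬝ᵥ (a *ᵥ x)))) (i j : Fin 3) :
    a i j = g i * (u ᵥ* a) j + ((a *ᵥ x) i - g i * (u ⬝ᵥ (a *ᵥ x))) * h j := by
  have h1 := hid (Pi.single i 1) (Pi.single j 1)
  rw [single_one_dotProduct, Matrix.mulVec_single_one, dotProduct_single_one,
    dotProduct_single_one, single_one_dotProduct] at h1
  have h2 : u ⬝ᵥ a.col j = (u ᵥ* a) j := rfl
  rw [h2] at h1
  simp only [Matrix.col_apply] at h1
  rw [h1]
  ring

lemma P33_sing (hP : P_PEN) (a b : P33_M) (hs : ∀ s t : ℂ, (s • a + t • b).det = 0)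
    (hL : ∀ v, v ᵥ* a = 0 → v ᵥ* b = 0 → v = 0)
    (hR : ∀ v, a *ᵥ v = 0 → b *ᵥ v = 0 → v = 0) : P33_gd a b := by
  obtain ⟨E, F, hEF, h0⟩ := hP 3 (Matrix.toLinearMap₂' ℂ a) (Matrix.toLinearMap₂' ℂ b) (by
    intro s t
    obtain ⟨v, hv, h⟩ := Matrix.exists_vecMul_eq_zero_iff.2 (hs s t)
    refine ⟨v, hv, fun w => ?_⟩
    rw [Matrix.toLinearMap₂'_apply', Matrix.toLinearMap₂'_apply', Matrix.dotProduct_mulVec,
      Matrix.dotProduct_mulVec]
    rw [Matrix.vecMul_add, Matrix.vecMul_smul, Matrix.vecMul_smul] at h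
    have h2 := congrArg (fun z => z ⬝ᵥ w) h
    simpa [add_dotProduct, smul_dotProduct] using h2)
  have ha0 : ∀ y ∈ E, ∀ w ∈ F, y ⬝ᵥ (a *ᵥ w) = 0 := fun y hy w hw => by
    have := (h0 y hy w hw).1
    rwa [Matrix.toLinearMap₂'_apply'] at this
  have hb0 : ∀ y ∈ E, ∀ w ∈ F, y ⬝ᵥ (b *ᵥ w) = 0 := fun y hy w hw => by
    have := (h0 y hy w hw).2
    rwa [Matrix.toLinearMap₂'_apply'] at this
  have hE3 := Submodule.finrank_le E
  have hF3 := Submodule.finrank_le F
  rw [Module.finrank_fin_fun] at hE3 hF3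
  have hF2 : Module.finrank ℂ F ≠ 3 := by
    intro h3
    have hFt : F = ⊤ := Submodule.eq_top_of_finrank_eq (by rw [h3, Module.finrank_fin_fun])
    have hE1 : 0 < Module.finrank ℂ E := by omega
    rw [Module.finrank_pos_iff_exists_ne_zero] at hE1
    obtain ⟨⟨y, hy⟩, hy0⟩ := hE1
    apply hy0
    have h5 : y = 0 := by
      apply hL y
      · apply P33_zero
        intro w
        rw [← Matrix.dotProduct_mulVec]
        exact ha0 y hy w (by rw [hFt]; trivial)
      · apply P33_zero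
        intro w
        rw [← Matrix.dotProduct_mulVec]
        exact hb0 y hy w (by rw [hFt]; trivial)
    exact Subtype.ext h5
  have hE2 : Module.finrank ℂ E ≠ 3 := by
    intro h3
    have hEt : E = ⊤ := Submodule.eq_top_of_finrank_eq (by rw [h3, Module.finrank_fin_fun])
    have hF1 : 0 < Module.finrank ℂ F := by omega
    rw [Module.finrank_pos_iff_exists_ne_zero] at hF1
    obtain ⟨⟨w, hw⟩, hw0⟩ := hF1
    apply hw0
    have h5 : w = 0 := by
      apply hR w
      · apply P33_zero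
        intro y
        rw [dotProduct_comm]
        exact ha0 y (by rw [hEt]; trivial) w hw
      · apply P33_zero
        intro y
        rw [dotProduct_comm]
        exact hb0 y (by rw [hEt]; trivial) w hw
    exact Subtype.ext h5
  have hE4 : Module.finrank ℂ E = 2 := by
    have h1 : Module.finrank ℂ E ≤ 3 := hE3
    have h2 : Module.finrank ℂ F ≤ 3 := hF3
    have h3 : Module.finrank ℂ E + Module.finrank ℂ F = 3 + 1 := hEF
    have h4 : Module.finrank ℂ E ≠ 3 := hE2
    have h5 : Module.finrank ℂ F ≠ 3 := hF2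
    clear hE3 hF3 hEF hE2 hF2
    omega
  have hF4 : Module.finrank ℂ F = 2 := by
    have h3 : Module.finrank ℂ E + Module.finrank ℂ F = 3 + 1 := hEF
    rw [hE4] at h3
    omega
  obtain ⟨g, u, hgu, hg⟩ := P33_form E hE4
  obtain ⟨h, x, hhx, hh⟩ := P33_form F hF4
  have ida := P33_id a E F ha0 g u h x (fun y => (hg y).1) (fun w => (hh w).1)
  have idb := P33_id b E F hb0 g u h x (fun y => (hg y).1) (fun w => (hh w).1)
  have ma := P33_mat a g u h x ida
  have mb := P33_mat b g u h x idb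
  refine ⟨1, by simp, ?_⟩
  have e1 : ((1 : Matrix (Fin 2) (Fin 2) ℂ) 0 0 • a +
      (1 : Matrix (Fin 2) (Fin 2) ℂ) 0 1 • b) = a := by
    simp
  have e2 : ((1 : Matrix (Fin 2) (Fin 2) ℂ) 1 0 • a +
      (1 : Matrix (Fin 2) (Fin 2) ℂ) 1 1 • b) = b := by
    simp
  rw [e1, e2]
  refine ⟨Matrix.of fun i => ![g i, (a *ᵥ x) i - g i * (u ⬝ᵥ (a *ᵥ x)),
      (b *ᵥ x) i - g i * (u ⬝ᵥ (b *ᵥ x))], Matrix.of ![u ᵥ* a, u ᵥ* b, h], ?_, ?_, ?_⟩
  · rw [isUnit_iff_ne_zero]
    intro hdet
    obtain ⟨y, hy, hy2⟩ := Matrix.exists_vecMul_eq_zero_iff.2 hdet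
    have c0 : g ⬝ᵥ y = 0 := by
      rw [dotProduct_comm]
      exact congrFun hy2 0
    have c1 : y ⬝ᵥ (a *ᵥ x) = 0 := by
      have := congrFun hy2 1
      simp only [vecMul, dotProduct, Matrix.of_apply, Matrix.cons_val_one, Pi.zero_apply,
        Matrix.cons_val_zero] at this
      have h7 : ∑ i, y i * ((a *ᵥ x) i - g i * (u ⬝ᵥ (a *ᵥ x))) =
          y ⬝ᵥ (a *ᵥ x) - (g ⬝ᵥ y) * (u ⬝ᵥ (a *ᵥ x)) := by
        simp only [dotProduct, Finset.sum_mul, ← Finset.sum_sub_distrib]
        exact Finset.sum_congr rfl fun i _ => by ring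
      have h8 : y ⬝ᵥ (a *ᵥ x) - (g ⬝ᵥ y) * (u ⬝ᵥ (a *ᵥ x)) = 0 := by
        rw [← h7]; exact this
      rw [c0, zero_mul, sub_zero] at h8
      exact h8
    have c2 : y ⬝ᵥ (b *ᵥ x) = 0 := by
      have := congrFun hy2 2
      have h7 : ∑ i, y i * ((b *ᵥ x) i - g i * (u ⬝ᵥ (b *ᵥ x))) =
          y ⬝ᵥ (b *ᵥ x) - (g ⬝ᵥ y) * (u ⬝ᵥ (b *ᵥ x)) := by
        simp only [dotProduct, Finset.sum_mul, ← Finset.sum_sub_distrib]
        exact Finset.sum_congr rfl fun i _ => by ring
      have h8 : y ⬝ᵥ (b *ᵥ x) - (g ⬝ᵥ y) * (u ⬝ᵥ (b *ᵥ x)) = 0 := by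
        rw [← h7]; exact this
      rw [c0, zero_mul, sub_zero] at h8
      exact h8
    apply hy
    apply hL y
    · apply P33_zero
      intro w
      rw [← Matrix.dotProduct_mulVec, ida, c0, c1]
      ring
    · apply P33_zero
      intro w
      rw [← Matrix.dotProduct_mulVec, idb, c0, c2]
      ring
  · rw [isUnit_iff_ne_zero]
    intro hdet
    obtain ⟨w, hw, hw2⟩ := Matrix.exists_mulVec_eq_zero_iff.2 hdet
    have c0 : u ⬝ᵥ (a *ᵥ w) = 0 := by
      rw [Matrix.dotProduct_mulVec]; exact congrFun hw2 0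
    have c1 : u ⬝ᵥ (b *ᵥ w) = 0 := by
      rw [Matrix.dotProduct_mulVec]; exact congrFun hw2 1
    have c2 : h ⬝ᵥ w = 0 := congrFun hw2 2
    apply hw
    apply hR w
    · apply P33_zero
      intro y
      rw [dotProduct_comm, ida, c0, c2]
      ring
    · apply P33_zero
      intro y
      rw [dotProduct_comm, idb, c1, c2]
      ring
  · right; right; right; right
    constructor
    · ext i j
      rw [ma i j]
      simp [Matrix.mul_apply, Fin.sum_univ_three]
    · ext i j
      rw [mb i j]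
      simp [Matrix.mul_apply, Fin.sum_univ_three]

/-! ### Reduction to matrices -/

/-- Coordinates modulo one vector. -/
lemma P33_fr (e4 : V) (h : e4 ≠ 0) : ∃ (α : Fin 3 → D) (e : Fin 3 → V), (∀ i, α i e4 = 0) ∧
    (∀ i j, α i (e j) = if i = j then 1 else 0) ∧
    ∀ y, ∃ z : ℂ, y = ∑ i, α i y • e i + z • e4 := by
  obtain ⟨i0, hi0⟩ := Function.ne_iff.1 h
  have hi0' : e4 i0 ≠ 0 := hi0
  refine ⟨fun j => LinearMap.proj (i0.succAbove j) -
    (e4 (i0.succAbove j) / e4 i0) • LinearMap.proj i0, fun j => Pi.single (i0.succAbove j) 1,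
    fun i => ?_, fun i j => ?_, fun y => ⟨y i0 / e4 i0, ?_⟩⟩
  · simp only [LinearMap.sub_apply, LinearMap.smul_apply, LinearMap.proj_apply, smul_eq_mul]
    field_simp
    ring
  · simp only [LinearMap.sub_apply, LinearMap.smul_apply, LinearMap.proj_apply, smul_eq_mul]
    rw [Pi.single_eq_of_ne (Fin.succAbove_ne i0 j).symm, mul_zero, sub_zero]
    rw [Pi.single_apply]
    simp only [(Fin.succAbove_right_injective (p := i0)).eq_iff]
  · funext k
    rw [Pi.add_apply, Finset.sum_apply]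
    simp only [Pi.smul_apply, LinearMap.sub_apply, LinearMap.smul_apply, LinearMap.proj_apply,
      smul_eq_mul]
    rcases Fin.eq_self_or_eq_succAbove i0 k with hk | ⟨j, hk⟩
    · rw [hk]
      have : ∀ i, (y (i0.succAbove i) - e4 (i0.succAbove i) / e4 i0 * y i0) *
          (Pi.single (i0.succAbove i) (1 : ℂ) : V) i0 = 0 := fun i => by
        rw [Pi.single_eq_of_ne (Fin.succAbove_ne i0 i).symm, mul_zero]
      simp only [this, Finset.sum_const_zero, zero_add]
      field_simp
    · rw [hk]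
      have : ∀ i, (y (i0.succAbove i) - e4 (i0.succAbove i) / e4 i0 * y i0) *
          (Pi.single (i0.succAbove i) (1 : ℂ) : V) (i0.succAbove j) =
          if i = j then (y (i0.succAbove i) - e4 (i0.succAbove i) / e4 i0 * y i0) else 0 :=
        fun i => by
          rw [Pi.single_apply]
          simp only [(Fin.succAbove_right_injective (p := i0)).eq_iff]
          by_cases hij : i = j
          · simp [hij]
          · simp [hij, Ne.symm hij]
      simp only [this, Finset.sum_ite_eq', Finset.mem_univ, if_true]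
      ring

lemma P33_li (α : Fin 3 → D) (e : Fin 3 → V) (h : ∀ i j, α i (e j) = if i = j then 1 else 0)
    (G : P33_M) (hG : IsUnit G.det) :
    LinearIndependent ℂ (fun i => ∑ k, G i k • α k) := by
  rw [Fintype.linearIndependent_iff]
  intro c hc
  have h1 : c ᵥ* G = 0 := by
    funext j
    have h2 := LinearMap.congr_fun hc (e j)
    simp only [LinearMap.sum_apply, LinearMap.smul_apply, h, smul_eq_mul, mul_ite, mul_one,
      mul_zero, Finset.sum_ite_eq', Finset.mem_univ, if_true, LinearMap.zero_apply] at h2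
    simp only [vecMul, dotProduct, Pi.zero_apply]
    exact h2
  intro i
  have h3 : c = 0 := by
    have h4 : c = c ᵥ* G ᵥ* G⁻¹ := by
      rw [Matrix.vecMul_vecMul, Matrix.mul_nonsing_inv _ hG, Matrix.vecMul_one]
    rw [h4, h1, Matrix.zero_vecMul]
  rw [h3]; rfl

lemma P33_exp (α β : Fin 3 → D) (G n H : P33_M) (y w : V) :
    (fun k => α k y) ⬝ᵥ ((G * n * H) *ᵥ fun l => β l w) =
      (fun i => (∑ k, Gᵀ i k • α k) y) ⬝ᵥ (n *ᵥ fun j => (∑ l, H j l • β l) w) := by
  have e1 : (fun j => (∑ l, H j l • β l) w) = H *ᵥ fun l => β l w := by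
    funext j
    simp [mulVec, dotProduct, LinearMap.sum_apply]
  have e2 : (fun i => (∑ k, Gᵀ i k • α k) y) = (fun k => α k y) ᵥ* G := by
    funext i
    simp only [vecMul, dotProduct, LinearMap.sum_apply, LinearMap.smul_apply, smul_eq_mul,
      Matrix.transpose_apply]
    exact Finset.sum_congr rfl fun k _ => mul_comm _ _
  rw [e1, e2, Matrix.mulVec_mulVec, ← Matrix.dotProduct_mulVec, Matrix.mulVec_mulVec,
    Matrix.mul_assoc]

/-- Classification of pencils of `3 × 3` matrices without common zeros. -/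
theorem p_P33 (h : P_PEN) : P_P33 := by
  intro A B e4 w0 he4 hw0 hAe hBe hAw hBw hN hM
  obtain ⟨α, e, hα4, hαe, hα⟩ := P33_fr e4 he4
  obtain ⟨β, f, hβ4, hβf, hβ⟩ := P33_fr w0 hw0
  have hform : ∀ (C : Bi), (∀ w, C e4 w = 0) → (∀ y, C y w0 = 0) → ∀ y w,
      C y w = (fun k => α k y) ⬝ᵥ ((Matrix.of fun i j => C (e i) (f j)) *ᵥ fun l => β l w) := by
    intro C h1 h2 y w
    obtain ⟨z, hz⟩ := hα y
    obtain ⟨z', hz'⟩ := hβ w
    have h3 : C y w = C (∑ i, α i y • e i) (∑ j, β j w • f j) := by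
      conv_lhs => rw [hz, hz']
      simp only [map_add, LinearMap.add_apply, map_smul, LinearMap.smul_apply, h1, h2, smul_zero,
        add_zero]
    rw [h3]
    simp only [map_sum, map_smul, LinearMap.sum_apply, LinearMap.smul_apply, smul_eq_mul,
      dotProduct, mulVec, Matrix.of_apply, Finset.mul_sum]
    rw [Finset.sum_comm]
    exact Finset.sum_congr rfl fun i _ => Finset.sum_congr rfl fun j _ => by ring
  set a : P33_M := Matrix.of fun i j => A (e i) (f j) with ha
  set b : P33_M := Matrix.of fun i j => B (e i) (f j) with hb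
  have hA := hform A hAe hAw
  have hB := hform B hBe hBw
  rw [← ha] at hA
  rw [← hb] at hB
  have hcoy : ∀ v : P33_U, (fun k => α k (∑ i, v i • e i)) = v := by
    intro v
    funext k
    simp only [map_sum, map_smul, hαe, smul_eq_mul, mul_ite, mul_one, mul_zero,
      Finset.sum_ite_eq, Finset.mem_univ, if_true]
  have hcow : ∀ v : P33_U, (fun k => β k (∑ i, v i • f i)) = v := by
    intro v
    funext k
    simp only [map_sum, map_smul, hβf, smul_eq_mul, mul_ite, mul_one, mul_zero,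
      Finset.sum_ite_eq, Finset.mem_univ, if_true]
  have hgd : P33_gd a b := by
    by_cases hs : ∃ s t : ℂ, IsUnit (s • a + t • b).det
    · obtain ⟨s, t, hst⟩ := hs
      exact P33_reg' s t hst
    · push Not at hs
      refine P33_sing h a b (fun s t => ?_) (fun v h1 h2 => ?_) (fun v h1 h2 => ?_)
      · by_contra hne
        exact hs s t (isUnit_iff_ne_zero.2 hne)
      · obtain ⟨z, hz⟩ := hN (∑ i, v i • e i) (fun w => by
          rw [hA, hB, hcoy, Matrix.dotProduct_mulVec, Matrix.dotProduct_mulVec, h1, h2,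
            zero_dotProduct]
          exact ⟨rfl, rfl⟩)
        rw [← hcoy v, hz]
        funext k
        rw [map_smul, hα4, smul_zero]; rfl
      · obtain ⟨z, hz⟩ := hM (∑ i, v i • f i) (fun y => by
          rw [hA, hB, hcow, h1, h2, dotProduct_zero]
          exact ⟨rfl, rfl⟩)
        rw [← hcow v, hz]
        funext k
        rw [map_smul, hβ4, smul_zero]; rfl
  obtain ⟨P, hP, G, H, hG, hH, hnf⟩ := hgd
  have hGt : IsUnit (Gᵀ).det := by rw [Matrix.det_transpose]; exact hG
  refine ⟨P, hP, fun i => ∑ k, Gᵀ i k • α k, fun j => ∑ l, H j l • β l,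
    P33_li α e hαe Gᵀ hGt, P33_li β f hβf H hH, fun i => ?_, fun i => ?_, ?_⟩
  · simp [LinearMap.sum_apply, hα4]
  · simp [LinearMap.sum_apply, hβ4]
  have hlin : ∀ (p q : ℂ) (y w : V), p * A y w + q * B y w =
      (fun k => α k y) ⬝ᵥ ((p • a + q • b) *ᵥ fun l => β l w) := by
    intro p q y w
    rw [hA, hB, Matrix.add_mulVec, Matrix.smul_mulVec, Matrix.smul_mulVec, dotProduct_add,
      dotProduct_smul, dotProduct_smul, smul_eq_mul, smul_eq_mul]
  have hG1 : G * H = G * 1 * H := by rw [Matrix.mul_one]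
  rcases hnf with ⟨h1, h2⟩ | ⟨h1, h2⟩ | ⟨h1, h2⟩ | ⟨d, d', h1, h2⟩ | ⟨h1, h2⟩
  · left
    refine ⟨fun y w => ?_, fun y w => ?_⟩
    · rw [hlin, h1, P33_exp]
      simp [mulVec, dotProduct, Fin.sum_univ_three]
    · rw [hlin, h2, P33_exp]
      simp [mulVec, dotProduct, Fin.sum_univ_three]
  · right; left
    refine ⟨fun y w => ?_, fun y w => ?_⟩
    · rw [hlin, h1, hG1, P33_exp]
      simp [dotProduct, Fin.sum_univ_three]
    · rw [hlin, h2, P33_exp]
      simp [mulVec, dotProduct, Fin.sum_univ_three]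
  · right; right; left
    refine ⟨fun y w => ?_, fun y w => ?_⟩
    · rw [hlin, h1, hG1, P33_exp]
      simp [dotProduct, Fin.sum_univ_three]
    · rw [hlin, h2, P33_exp]
      simp [mulVec, dotProduct, Fin.sum_univ_three]
  · right; right; right; left
    refine ⟨d, d', fun y w => ?_, fun y w => ?_⟩
    · rw [hlin, h1, P33_exp]
      simp only [Matrix.mulVec_diagonal, dotProduct]
      exact Finset.sum_congr rfl fun i _ => by ring
    · rw [hlin, h2, P33_exp]
      simp only [Matrix.mulVec_diagonal, dotProduct]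
      exact Finset.sum_congr rfl fun i _ => by ring
  · right; right; right; right
    refine ⟨fun y w => ?_, fun y w => ?_⟩
    · rw [hlin, h1, P33_exp]
      simp [mulVec, dotProduct, Fin.sum_univ_three]
    · rw [hlin, h2, P33_exp]
      simp [mulVec, dotProduct, Fin.sum_univ_three]

end Pool.Agent.MR8
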