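import Pool.Agent.MR8.Defs

set_option autoImplicit false

/-!
# Singular pencils of bilinear forms have a large common zero block (helper78)
-/

namespace Pool.Agent.MR8

open Module

theorem PEN_sub {M : Type} [AddCommGroup M] [Module ℂ M] [FiniteDimensional ℂ M]
    (V : Submodule ℂ M) (m : ℕ) (h : m ≤ finrank ℂ V) :
    ∃ V' : Submodule ℂ M, V' ≤ V ∧ finrank ℂ V' = m := by
  have hli : LinearIndependent ℂ (fun i : Fin m => ((finBasis ℂ V (Fin.castLE h i) : V) : M)) :=
    (((finBasis ℂ V).linearIndependent.comp _ (Fin.castLE_injective h)).map' V.subtype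
      (Submodule.ker_subtype V))
  refine ⟨Submodule.span ℂ (Set.range fun i : Fin m =>
    ((finBasis ℂ V (Fin.castLE h i) : V) : M)), ?_, ?_⟩
  · rw [Submodule.span_le]
    rintro _ ⟨i, rfl⟩
    exact (finBasis ℂ V (Fin.castLE h i)).2
  · rw [finrank_span_eq_card hli, Fintype.card_fin]

theorem PEN_avoid {S : Set ℂ} (hS : S.Finite) : ∃ t : ℂ, t ∉ S := by
  by_contra hc
  push Not at hc
  exact Set.infinite_univ (hS.subset fun t _ => hc t)

/-- the main step, for a subspace `V` with `y ∈ V ↔ A y ∈ B V` -/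
theorem PEN_inj {M G : Type} [AddCommGroup M] [Module ℂ M] [FiniteDimensional ℂ M]
    [AddCommGroup G] [Module ℂ G] [FiniteDimensional ℂ G] (hMG : finrank ℂ M = finrank ℂ G)
    (A B : M →ₗ[ℂ] G) (V : Submodule ℂ M) (hV : ∀ y, y ∈ V ↔ A y ∈ V.map B)
    (hB : Function.Injective (B.domRestrict V)) :
    ∃ t : ℂ, ∀ y, A y + t • B y = 0 → y = 0 := by
  -- the quotient
  have hA1 : V ≤ (V.map B).comap A := fun y hy => (hV y).1 hy
  have hB1 : V ≤ (V.map B).comap B := Submodule.le_comap_map B V
  set Ab := V.mapQ (V.map B) A hA1 with hAb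
  set Bb := V.mapQ (V.map B) B hB1 with hBb
  have hinj : Function.Injective Ab := by
    rw [← LinearMap.ker_eq_bot, LinearMap.ker_eq_bot']
    intro z hz
    obtain ⟨y, rfl⟩ := Submodule.mkQ_surjective V z
    rw [Submodule.mkQ_apply] at hz ⊢
    rw [hAb, Submodule.mapQ_apply, Submodule.Quotient.mk_eq_zero] at hz
    rw [Submodule.Quotient.mk_eq_zero]
    exact (hV y).2 hz
  have hmap : V.map B = LinearMap.range (B.domRestrict V) := by
    rw [LinearMap.range_domRestrict]
  have hdim : finrank ℂ (V.map B) = finrank ℂ V := by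
    rw [hmap]
    exact LinearMap.finrank_range_of_inj hB
  have hq : finrank ℂ (M ⧸ V) = finrank ℂ (G ⧸ V.map B) := by
    have h1 := Submodule.finrank_quotient_add_finrank V
    have h2 := Submodule.finrank_quotient_add_finrank (V.map B)
    omega
  let e := LinearMap.linearEquivOfInjective Ab hinj hq
  let C : End ℂ (M ⧸ V) := e.symm.toLinearMap ∘ₗ Bb
  -- the restriction
  let e' := LinearEquiv.ofInjective (B.domRestrict V) hB
  have hA2 : ∀ v : V, A v ∈ LinearMap.range (B.domRestrict V) := by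
    intro v
    rw [← hmap]
    exact (hV v).1 v.2
  let A' : V →ₗ[ℂ] LinearMap.range (B.domRestrict V) :=
    (A.domRestrict V).codRestrict _ hA2
  let N : End ℂ V := e'.symm.toLinearMap ∘ₗ A'
  have hN : ∀ v : V, B (N v) = A v := by
    intro v
    have h1 : e' (N v) = A' v := by simp [N]
    have h2 := congrArg Subtype.val h1
    exact h2
  -- the bad values
  have hfin : ({0} ∪ (fun t : ℂ => -t) ⁻¹' {μ | N.HasEigenvalue μ} ∪
      (fun t : ℂ => -t⁻¹) ⁻¹' {μ | C.HasEigenvalue μ}).Finite := by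
    refine ((Set.finite_singleton 0).union ?_).union ?_
    · exact (End.finite_hasEigenvalue N).preimage (neg_injective.injOn)
    · exact (End.finite_hasEigenvalue C).preimage
        ((neg_injective.comp inv_injective).injOn)
  obtain ⟨t, ht⟩ := PEN_avoid hfin
  simp only [Set.mem_union, Set.mem_singleton_iff, Set.mem_preimage, Set.mem_ofPred_eq,
    not_or] at ht
  obtain ⟨⟨ht0, htN⟩, htC⟩ := ht
  refine ⟨t, fun y hy => ?_⟩
  -- y is in V
  have hyV : y ∈ V := by
    by_contra hyV
    apply htC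
    have hz : (Submodule.Quotient.mk y : M ⧸ V) ≠ 0 := by
      rwa [Ne, Submodule.Quotient.mk_eq_zero]
    refine End.hasEigenvalue_of_hasEigenvector (x := (Submodule.Quotient.mk y : M ⧸ V))
      ⟨End.mem_eigenspace_iff.2 ?_, hz⟩
    have h1 : Ab (Submodule.Quotient.mk y) + t • Bb (Submodule.Quotient.mk y) = 0 := by
      rw [hAb, hBb, Submodule.mapQ_apply, Submodule.mapQ_apply, ← Submodule.Quotient.mk_smul,
        ← Submodule.Quotient.mk_add, hy, Submodule.Quotient.mk_zero]
    have h2 : e (C (Submodule.Quotient.mk y)) = Bb (Submodule.Quotient.mk y) := by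
      simp [C]
    have h3 : e (Submodule.Quotient.mk y) = Ab (Submodule.Quotient.mk y) := rfl
    apply e.injective
    rw [h2, map_smul, h3]
    have h4 : Ab (Submodule.Quotient.mk y) = -(t • Bb (Submodule.Quotient.mk y)) :=
      eq_neg_of_add_eq_zero_left h1
    rw [h4, smul_neg, neg_smul, neg_neg, smul_smul, inv_mul_cancel₀ ht0, one_smul]
  by_contra hy0
  apply htN
  have hv0 : (⟨y, hyV⟩ : V) ≠ 0 := by
    intro h
    exact hy0 (congrArg Subtype.val h)
  refine End.hasEigenvalue_of_hasEigenvector (x := (⟨y, hyV⟩ : V))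
    ⟨End.mem_eigenspace_iff.2 ?_, hv0⟩
  apply hB
  have h1 := hN ⟨y, hyV⟩
  have h2 : B.domRestrict V (N ⟨y, hyV⟩) = A y := h1
  rw [h2, map_smul]
  have h3 : B.domRestrict V ⟨y, hyV⟩ = B y := rfl
  rw [h3, neg_smul]
  exact eq_neg_of_add_eq_zero_left hy

theorem p_PEN : P_PEN := by
  intro n A B h
  -- a fixed point
  let Φ : Submodule ℂ (Fin n → ℂ) →o Submodule ℂ (Fin n → ℂ) :=
    ⟨fun U => (U.map B).comap A, fun U U' hU => Submodule.comap_mono (Submodule.map_mono hU)⟩
  set V := Φ.lfp with hVdef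
  have hfix : (V.map B).comap A = V := Φ.map_lfp
  have hV : ∀ y, y ∈ V ↔ A y ∈ V.map B := by
    intro y
    have h1 : y ∈ (V.map B).comap A ↔ A y ∈ V.map B := Submodule.mem_comap
    rw [hfix] at h1
    exact h1
  have hMG : finrank ℂ (Fin n → ℂ) = finrank ℂ ((Fin n → ℂ) →ₗ[ℂ] ℂ) :=
    (Subspace.dual_finrank_eq (K := ℂ) (V := Fin n → ℂ)).symm
  have hninj : ¬ Function.Injective (B.domRestrict V) := by
    intro hinj
    obtain ⟨t, ht⟩ := PEN_inj hMG A B V hV hinj
    obtain ⟨y, hy0, hy⟩ := h 1 t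
    apply hy0
    apply ht
    refine LinearMap.ext fun w => ?_
    have h1 := hy w
    rw [one_mul] at h1
    rw [LinearMap.add_apply, LinearMap.smul_apply, smul_eq_mul, LinearMap.zero_apply]
    exact h1
  have hker : 0 < finrank ℂ (LinearMap.ker (B.domRestrict V)) := by
    rw [Nat.pos_iff_ne_zero]
    intro hb
    exact hninj (LinearMap.ker_eq_bot.1 (Submodule.finrank_eq_zero.1 hb))
  have hrn := LinearMap.finrank_range_add_finrank_ker (B.domRestrict V)
  have hmap : V.map B = LinearMap.range (B.domRestrict V) := by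
    rw [LinearMap.range_domRestrict]
  rw [← hmap] at hrn
  have hco : finrank ℂ (V.map B) +
      finrank ℂ (Submodule.dualCoannihilator (R := ℂ) (M := Fin n → ℂ) (V.map B)) = n := by
    have := Subspace.finrank_add_finrank_dualCoannihilator_eq (K := ℂ) (V := Fin n → ℂ)
      (V.map B)
    rwa [Module.finrank_fin_fun] at this
  have hle : finrank ℂ (Submodule.dualCoannihilator (R := ℂ) (M := Fin n → ℂ) (V.map B)) ≤ n := by
    omega
  obtain ⟨E, hE, hEd⟩ := PEN_sub V
    (n + 1 - finrank ℂ (Submodule.dualCoannihilator (R := ℂ) (M := Fin n → ℂ) (V.map B)))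
    (by omega)
  refine ⟨E, Submodule.dualCoannihilator (R := ℂ) (M := Fin n → ℂ) (V.map B), by omega, ?_⟩
  intro y hy w hw
  rw [Submodule.mem_dualCoannihilator] at hw
  exact ⟨hw _ ((hV y).1 (hE hy)), hw _ (Submodule.mem_map_of_mem (hE hy))⟩

end Pool.Agent.MR8
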