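import Pool.Agent.MR8.Defs

set_option autoImplicit false

/-!
# Two slices of a `2 × 3 × 3` tensor are in the span of four frames
-/

namespace Pool.Agent.MR8

open Matrix Polynomial

namespace PEN33

/-- The coordinate space. -/
abbrev W3 := Fin 3 → ℂ

lemma diag_of_iSup (Y : Matrix (Fin 3) (Fin 3) ℂ)
    (hs : (⨆ μ : ℂ, Module.End.eigenspace (Matrix.toLin' Y) μ) = ⊤) :
    ∃ (P : Matrix (Fin 3) (Fin 3) ℂ) (d : Fin 3 → ℂ), IsUnit P.det ∧ Y * P = P * diagonal d := by
  classical
  let S : Set W3 := {x | ∃ μ : ℂ, Y *ᵥ x = μ • x}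
  have hspan : Submodule.span ℂ S = ⊤ := by
    rw [eq_top_iff, ← hs]
    refine iSup_le fun μ x hx => Submodule.subset_span ⟨μ, ?_⟩
    rw [Module.End.mem_eigenspace_iff, Matrix.toLin'_apply] at hx
    exact hx
  obtain ⟨b, hbS, hb, hli⟩ := exists_linearIndependent ℂ S
  let B : Module.Basis b ℂ W3 := Module.Basis.mk hli (by
    rw [Subtype.range_coe, hb, hspan])
  have hfin : Finite b := Module.Finite.finite_basis B
  have : Fintype b := Fintype.ofFinite b
  have hcard : Fintype.card b = 3 := by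
    rw [← Module.finrank_eq_card_basis B]
    simp
  let e : b ≃ Fin 3 := Fintype.equivFinOfCardEq hcard
  let B' : Module.Basis (Fin 3) ℂ W3 := B.reindex e
  have hB' : ∀ j, ∃ μ : ℂ, Y *ᵥ (B' j) = μ • B' j := by
    intro j
    have h1 : B' j = ((e.symm j : b) : W3) := by
      simp [B', B]
    rw [h1]
    exact hbS (e.symm j).2
  choose d hd using hB'
  refine ⟨(Pi.basisFun ℂ (Fin 3)).toMatrix B', d, ?_, ?_⟩
  · have := (Pi.basisFun ℂ (Fin 3)).invertibleToMatrix B'
    exact Matrix.isUnit_det_of_invertible _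
  · ext i j
    have h1 := congrFun (hd j) i
    rw [Matrix.mul_apply, Matrix.mul_diagonal]
    simp only [Module.Basis.toMatrix_apply, Pi.basisFun_repr]
    simp only [mulVec, dotProduct, Pi.smul_apply, smul_eq_mul] at h1
    rw [h1]
    ring

lemma diag_of_sqf (Y : Matrix (Fin 3) (Fin 3) ℂ) (p : ℂ[X]) (hp : Squarefree p)
    (h : aeval (Matrix.toLin' Y) p = 0) :
    ∃ (P : Matrix (Fin 3) (Fin 3) ℂ) (d : Fin 3 → ℂ), IsUnit P.det ∧ Y * P = P * diagonal d :=
  diag_of_iSup Y (Module.End.isSemisimple_of_squarefree_aeval_eq_zero hp h).iSup_eigenspace_eq_top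

/-- Changing the image of one basis vector is a rank one perturbation. -/
lemma perturb (X : Matrix (Fin 3) (Fin 3) ℂ) (b : Module.Basis (Fin 3) ℂ W3) (j : Fin 3)
    (y : W3) :
    ∃ u v : W3, (∀ i, i ≠ j → (X + vecMulVec u v) *ᵥ (b i) = X *ᵥ (b i)) ∧
      (X + vecMulVec u v) *ᵥ (b j) = y := by
  classical
  let v : W3 := fun i => b.coord j (Pi.single i 1)
  have hv : ∀ x : W3, v ⬝ᵥ x = b.coord j x := by
    intro x
    have h1 : x = ∑ i, x i • (Pi.single i (1 : ℂ) : W3) := by
      ext k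
      simp [Finset.sum_apply, Pi.single_apply]
    conv_rhs => rw [h1, map_sum]
    simp only [dotProduct, map_smul, smul_eq_mul, v]
    exact Finset.sum_congr rfl fun i _ => mul_comm _ _
  have key : ∀ x : W3, (X + vecMulVec (y - X *ᵥ b j) v) *ᵥ x =
      X *ᵥ x + (b.coord j x) • (y - X *ᵥ b j) := by
    intro x
    rw [add_mulVec, ← hv x]
    congr 1
    ext i
    simp only [mulVec, dotProduct, vecMulVec_apply, Pi.smul_apply, smul_eq_mul, Finset.sum_mul]
    exact Finset.sum_congr rfl fun k _ => by ring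
  refine ⟨y - X *ᵥ b j, v, fun i hi => ?_, ?_⟩
  · rw [key]
    have : b.coord j (b i) = 0 := by
      simp [Module.Basis.coord_apply, Module.Basis.repr_self, hi]
    rw [this, zero_smul, add_zero]
  · rw [key]
    have : b.coord j (b j) = 1 := by
      simp [Module.Basis.coord_apply]
    rw [this, one_smul]
    abel

/-- Some vector has three independent iterates unless a quadratic polynomial kills the matrix. -/
lemma exists_three (f : Module.End ℂ W3)
    (h : ∀ a b : ℂ, (f - algebraMap ℂ _ a) * (f - algebraMap ℂ _ b) ≠ 0) :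
    ∃ e : W3, LinearIndependent ℂ ![e, f e, f (f e)] := by
  classical
  by_contra hcon
  push Not at hcon
  -- the local statement
  have hloc : ∀ e : W3, ∃ a b : ℂ,
      ((f - algebraMap ℂ _ a) * (f - algebraMap ℂ _ b)) e = 0 := by
    intro e
    have h1 := hcon e
    rw [Fintype.not_linearIndependent_iff] at h1
    obtain ⟨c, hc, i, hi⟩ := h1
    simp only [Fin.sum_univ_three, Matrix.cons_val_zero, Matrix.cons_val_one,
      Matrix.cons_val_two, Matrix.head_cons, Matrix.tail_cons] at hc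
    by_cases h2 : c 2 = 0
    · by_cases h1' : c 1 = 0
      · have h0 : c 0 ≠ 0 := by
          fin_cases i
          · exact hi
          · exact absurd h1' hi
          · exact absurd h2 hi
        have he : e = 0 := by
          rw [h2, h1', zero_smul, zero_smul, add_zero, add_zero] at hc
          exact (smul_eq_zero.1 hc).resolve_left h0
        exact ⟨0, 0, by rw [he, map_zero]⟩
      · refine ⟨0, -(c 0) / c 1, ?_⟩
        have h3 : (f - algebraMap ℂ (Module.End ℂ W3) (-(c 0) / c 1)) e = 0 := by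
          rw [h2, zero_smul, add_zero] at hc
          have h4 : f e = (-(c 0) / c 1) • e := by
            have h5 : c 1 • f e = -(c 0) • e := by
              rw [neg_smul, eq_neg_iff_add_eq_zero, add_comm]; exact hc
            have h6 := congrArg (fun z : W3 => (c 1)⁻¹ • z) h5
            simp only [smul_smul, inv_mul_cancel₀ h1', one_smul] at h6
            rw [h6]
            congr 1
            rw [div_eq_mul_inv, mul_comm]
          rw [LinearMap.sub_apply, Module.algebraMap_end_apply, h4, sub_self]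
        rw [Module.End.mul_apply, h3, map_zero]
    · -- a quadratic equation
      obtain ⟨a, ha⟩ : ∃ a : ℂ, c 2 * (a * a) + c 1 * a + c 0 = 0 := by
        obtain ⟨s, hs⟩ := IsAlgClosed.exists_pow_nat_eq (discrim (c 2) (c 1) (c 0))
          (n := 2) (by norm_num)
        obtain ⟨a, ha⟩ := exists_quadratic_eq_zero h2 ⟨s, by rw [← hs, sq]⟩
        exact ⟨a, ha⟩
      refine ⟨a, -(c 1) / c 2 - a, ?_⟩
      have hsum : (-(c 1) / c 2 - a) + a = -(c 1) / c 2 := by ring
      have hprod : a * (-(c 1) / c 2 - a) = c 0 / c 2 := by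
        field_simp
        linear_combination -ha
      have h3 : ((f - algebraMap ℂ (Module.End ℂ W3) a) *
          (f - algebraMap ℂ (Module.End ℂ W3) (-(c 1) / c 2 - a))) e =
          f (f e) - (-(c 1) / c 2) • f e + (c 0 / c 2) • e := by
        rw [Module.End.mul_apply, LinearMap.sub_apply, LinearMap.sub_apply,
          Module.algebraMap_end_apply, Module.algebraMap_end_apply, map_sub, map_smul, smul_sub,
          smul_smul, hprod, ← hsum, add_smul]
        module
      rw [h3]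
      have h4 : c 2 • (f (f e) - (-(c 1) / c 2) • f e + (c 0 / c 2) • e) = 0 := by
        rw [smul_add, smul_sub, smul_smul, smul_smul]
        have e1 : c 2 * (-(c 1) / c 2) = -(c 1) := by field_simp
        have e2 : c 2 * (c 0 / c 2) = c 0 := by field_simp
        rw [e1, e2, neg_smul, sub_neg_eq_add, ← hc]
        abel
      exact (smul_eq_zero.1 h4).resolve_left h2
  -- only eigenvalues are needed
  have hinj : ∀ a : ℂ, ¬ f.HasEigenvalue a →
      ∀ y : W3, (f - algebraMap ℂ _ a) y = 0 → y = 0 := by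
    intro a ha y hy
    by_contra hy0
    apply ha
    refine Module.End.hasEigenvalue_of_hasEigenvector (x := y) ⟨?_, hy0⟩
    rw [Module.End.mem_eigenspace_iff]
    rw [LinearMap.sub_apply, Module.algebraMap_end_apply, sub_eq_zero] at hy
    exact hy
  obtain ⟨z, hz⟩ := Module.End.exists_eigenvalue f
  have hloc2 : ∀ e : W3, ∃ p : f.Eigenvalues × f.Eigenvalues,
      ((f - algebraMap ℂ _ (p.1 : ℂ)) * (f - algebraMap ℂ _ (p.2 : ℂ))) e = 0 := by
    intro e
    obtain ⟨a, b, hab⟩ := hloc e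
    by_cases ha : f.HasEigenvalue a
    · by_cases hb : f.HasEigenvalue b
      · exact ⟨(⟨a, ha⟩, ⟨b, hb⟩), hab⟩
      · refine ⟨(⟨a, ha⟩, ⟨a, ha⟩), ?_⟩
        have hcomm : (f - algebraMap ℂ (Module.End ℂ W3) a) * (f - algebraMap ℂ _ b) =
            (f - algebraMap ℂ _ b) * (f - algebraMap ℂ _ a) := by
          have h1 := Algebra.commutes (A := Module.End ℂ W3) b f
          have h2 := Algebra.commutes (A := Module.End ℂ W3) a f
          have h3 := Algebra.commutes (A := Module.End ℂ W3) a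
            (algebraMap ℂ (Module.End ℂ W3) b)
          rw [sub_mul, sub_mul, mul_sub, mul_sub, mul_sub, mul_sub, h1, h2, h3]
          abel
        rw [hcomm, Module.End.mul_apply] at hab
        have h4 := hinj b hb _ hab
        rw [Module.End.mul_apply]
        change (f - algebraMap ℂ (Module.End ℂ W3) a)
          ((f - algebraMap ℂ (Module.End ℂ W3) a) e) = 0
        rw [h4, map_zero]
    · rw [Module.End.mul_apply] at hab
      have h4 := hinj a ha _ hab
      by_cases hb : f.HasEigenvalue b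
      · refine ⟨(⟨b, hb⟩, ⟨b, hb⟩), ?_⟩
        rw [Module.End.mul_apply]
        change (f - algebraMap ℂ (Module.End ℂ W3) b)
          ((f - algebraMap ℂ (Module.End ℂ W3) b) e) = 0
        rw [h4, map_zero]
      · have h5 := hinj b hb _ h4
        exact ⟨(⟨z, hz⟩, ⟨z, hz⟩), by rw [h5, map_zero]⟩
  obtain ⟨p, hp⟩ := Subspace.exists_eq_top_of_iUnion_eq_univ (k := ℂ) (E := W3)
    (p := fun p : f.Eigenvalues × f.Eigenvalues =>
      LinearMap.ker ((f - algebraMap ℂ _ (p.1 : ℂ)) * (f - algebraMap ℂ _ (p.2 : ℂ)))) (by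
        rw [Set.eq_univ_iff_forall]
        intro e
        obtain ⟨p, hp⟩ := hloc2 e
        exact Set.mem_iUnion.2 ⟨p, hp⟩)
  exact h _ _ (LinearMap.ker_eq_top.1 hp)

/-- A matrix of rank at most one. -/
lemma of_rank_one (N : Matrix (Fin 3) (Fin 3) ℂ) (h : N * N = 0) :
    ∃ u v : W3, N = vecMulVec u v := by
  have h2 := Matrix.rank_add_rank_le_card_of_mul_eq_zero h
  rw [Fintype.card_fin] at h2
  have h3 : N.rank ≤ 1 := by omega
  have h4 : Module.finrank ℂ (LinearMap.range N.mulVecLin) ≤ 1 := h3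
  obtain ⟨u, hu⟩ := finrank_le_one_iff.1 h4
  have h5 : ∀ j : Fin 3, ∃ c : ℂ, ∀ i, N i j = c * (u : W3) i := by
    intro j
    obtain ⟨c, hc⟩ := hu ⟨N.mulVecLin (Pi.single j 1), LinearMap.mem_range_self _ _⟩
    refine ⟨c, fun i => ?_⟩
    have h6 := congrFun (congrArg Subtype.val hc) i
    simp only [Matrix.mulVecLin_apply, Matrix.mulVec_single_one] at h6
    simpa [Matrix.col_apply] using h6.symm
  choose c hc using h5
  refine ⟨(u : W3), c, ?_⟩
  ext i j
  rw [vecMulVec_apply, hc, mul_comm]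

theorem cyc3 (X : Matrix (Fin 3) (Fin 3) ℂ) :
    ∃ (u v : W3) (P : Matrix (Fin 3) (Fin 3) ℂ) (d : Fin 3 → ℂ), IsUnit P.det ∧
      (X + vecMulVec u v) * P = P * diagonal d := by
  classical
  set f : Module.End ℂ W3 := Matrix.toLin' X with hf
  have hfX : ∀ x, f x = X *ᵥ x := fun x => by rw [hf, Matrix.toLin'_apply]
  have hsc : ∀ z : ℂ, Matrix.toLin' (X - z • 1) = f - algebraMap ℂ _ z := by
    intro z
    ext x i
    simp [hf, Module.algebraMap_end_apply]
  by_cases hA : ∃ a b : ℂ, (f - algebraMap ℂ _ a) * (f - algebraMap ℂ _ b) = 0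
  · obtain ⟨a, b, hab⟩ := hA
    by_cases hne : a = b
    · subst hne
      have h1 : (X - a • 1) * (X - a • 1) = 0 := by
        have h1 : Matrix.toLin' ((X - a • 1) * (X - a • 1)) = 0 := by
          rw [Matrix.toLin'_mul, hsc]
          exact hab
        exact (LinearEquiv.map_eq_zero_iff _).1 h1
      obtain ⟨u, v, huv⟩ := of_rank_one _ h1
      refine ⟨-u, v, 1, fun _ => a, by simp, ?_⟩
      have h2 : vecMulVec (-u) v = -(X - a • 1) := by
        rw [huv]
        ext i j
        simp [vecMulVec_apply]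
      rw [h2, mul_one, one_mul, ← Matrix.smul_one_eq_diagonal]
      abel
    · obtain ⟨P, d, hP, hd⟩ := diag_of_sqf X ((Polynomial.X - C a) * (Polynomial.X - C b)) (by
        refine (squarefree_mul_iff).2 ⟨?_, (Polynomial.irreducible_X_sub_C a).squarefree,
          (Polynomial.irreducible_X_sub_C b).squarefree⟩
        exact (Polynomial.isCoprime_X_sub_C_of_isUnit_sub
          (sub_ne_zero.2 hne).isUnit).isRelPrime) (by
        rw [map_mul, map_sub, map_sub, aeval_X, aeval_C, aeval_C]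
        exact hab)
      refine ⟨0, 0, P, d, hP, ?_⟩
      have h0 : vecMulVec (0 : W3) (0 : W3) = 0 := by
        ext i j
        simp [vecMulVec_apply]
      rw [h0, add_zero, hd]
  push Not at hA
  obtain ⟨e, he⟩ := exists_three f hA
  let b : Module.Basis (Fin 3) ℂ W3 := basisOfLinearIndependentOfCardEqFinrank he (by simp)
  have hb : ∀ i, b i = ![e, f e, f (f e)] i := fun i => by
    simp [b]
  have hb0 : b 0 = e := hb 0
  have hb1 : b 1 = f e := hb 1
  have hb2 : b 2 = f (f e) := hb 2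
  obtain ⟨u, v, h1, h2⟩ := perturb X b 2 ((6 : ℂ) • b 2 - (11 : ℂ) • b 1 + (6 : ℂ) • b 0)
  set Y := X + vecMulVec u v with hY
  set g : Module.End ℂ W3 := Matrix.toLin' Y with hg
  have hgY : ∀ x, g x = Y *ᵥ x := fun x => by rw [hg, Matrix.toLin'_apply]
  have g0 : g (b 0) = b 1 := by rw [hgY, h1 0 (by decide), ← hfX, hb0, hb1]
  have g1 : g (b 1) = b 2 := by rw [hgY, h1 1 (by decide), ← hfX, hb1, hb2]
  have g2 : g (b 2) = (6 : ℂ) • b 2 - (11 : ℂ) • b 1 + (6 : ℂ) • b 0 := by
    rw [hgY, h2]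
  let q : ℂ[X] := ∏ i : Fin 3, (Polynomial.X - C (((i : ℕ) : ℂ) + 1))
  have hq0 : aeval g q (b 0) = 0 := by
    simp only [q, Fin.prod_univ_three, map_mul, map_sub, aeval_X, aeval_C, Module.End.mul_apply,
      LinearMap.sub_apply, Module.algebraMap_end_apply, map_smul, g0, g1, g2]
    simp only [Fin.val_zero, Fin.val_one, Fin.val_two, Nat.cast_zero, Nat.cast_one,
      Nat.cast_ofNat]
    module
  have hcomm : ∀ x, aeval g q (g x) = g (aeval g q x) := by
    intro x
    have h3 : aeval g q * g = g * aeval g q := by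
      have h4 : aeval g (q * Polynomial.X) = aeval g (Polynomial.X * q) := by rw [mul_comm]
      simpa only [map_mul, aeval_X] using h4
    exact congrArg (fun k : Module.End ℂ W3 => k x) h3
  have hq1 : aeval g q (b 1) = 0 := by rw [← g0, hcomm, hq0, map_zero]
  have hq2 : aeval g q (b 2) = 0 := by rw [← g1, hcomm, hq1, map_zero]
  have hsq : Squarefree q := by
    refine (Polynomial.separable_prod_X_sub_C_iff.2 ?_).squarefree
    intro i j hij
    have : ((i : ℕ) : ℂ) = ((j : ℕ) : ℂ) := by simpa using hij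
    exact Fin.ext (by exact_mod_cast this)
  have hz : aeval g q = 0 := by
    refine b.ext fun i => ?_
    rw [LinearMap.zero_apply]
    fin_cases i
    · exact hq0
    · exact hq1
    · exact hq2
  obtain ⟨P, d, hP, hd⟩ := diag_of_sqf Y q hsq hz
  exact ⟨u, v, P, d, hP, hd⟩

/-- The two matrices are in the span of four rank one matrices. -/
def Q4 (M N : Matrix (Fin 3) (Fin 3) ℂ) : Prop :=
  ∃ (p q : Fin 4 → W3) (c d : Fin 4 → ℂ), (∀ i j, M i j = ∑ s, c s * (p s i * q s j)) ∧
    ∀ i j, N i j = ∑ s, d s * (p s i * q s j)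

lemma Q4.mul {M N : Matrix (Fin 3) (Fin 3) ℂ} (h : Q4 M N) (P : Matrix (Fin 3) (Fin 3) ℂ) :
    Q4 (P * M) (P * N) := by
  obtain ⟨p, q, c, d, h1, h2⟩ := h
  have key : ∀ (M : Matrix (Fin 3) (Fin 3) ℂ) (c : Fin 4 → ℂ),
      (∀ i j, M i j = ∑ s, c s * (p s i * q s j)) →
      ∀ i j, (P * M) i j = ∑ s, c s * ((P *ᵥ p s) i * q s j) := by
    intro M c h i j
    simp only [Matrix.mul_apply, mulVec, dotProduct, h, Fin.sum_univ_three, Fin.sum_univ_four]
    ring
  exact ⟨fun s => P *ᵥ p s, q, c, d, key M c h1, key N d h2⟩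

lemma Q4.comb {M N : Matrix (Fin 3) (Fin 3) ℂ} (h : Q4 M N)
    {M' N' : Matrix (Fin 3) (Fin 3) ℂ} {a b a' b' : ℂ} (h1 : M' = a • M + b • N)
    (h2 : N' = a' • M + b' • N) : Q4 M' N' := by
  obtain ⟨p, q, c, d, e1, e2⟩ := h
  refine ⟨p, q, fun s => a * c s + b * d s, fun s => a' * c s + b' * d s, fun i j => ?_,
    fun i j => ?_⟩
  · rw [h1, Matrix.add_apply, Matrix.smul_apply, Matrix.smul_apply, e1, e2]
    simp only [Fin.sum_univ_four, smul_eq_mul]
    ring
  · rw [h2, Matrix.add_apply, Matrix.smul_apply, Matrix.smul_apply, e1, e2]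
    simp only [Fin.sum_univ_four, smul_eq_mul]
    ring

lemma Q4_one (X : Matrix (Fin 3) (Fin 3) ℂ) : Q4 1 X := by
  obtain ⟨u, v, P, d, hP, h⟩ := cyc3 X
  have h1 : P * P⁻¹ = 1 := Matrix.mul_nonsing_inv _ hP
  have h2 : X + vecMulVec u v = P * diagonal d * P⁻¹ := by
    rw [← h, mul_assoc, h1, mul_one]
  refine ⟨![fun i => P i 0, fun i => P i 1, fun i => P i 2, u],
    ![fun j => P⁻¹ 0 j, fun j => P⁻¹ 1 j, fun j => P⁻¹ 2 j, v],
    ![1, 1, 1, 0], ![d 0, d 1, d 2, -1], fun i j => ?_, fun i j => ?_⟩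
  · have h3 := congrFun (congrFun h1 i) j
    rw [Matrix.mul_apply, Fin.sum_univ_three] at h3
    rw [← h3, Fin.sum_univ_four]
    simp
  · have h3 := congrFun (congrFun h2 i) j
    rw [Matrix.add_apply, vecMulVec_apply, Matrix.mul_apply, Fin.sum_univ_three] at h3
    simp only [Matrix.mul_diagonal] at h3
    rw [Fin.sum_univ_four]
    simp only [Matrix.cons_val_zero, Matrix.cons_val_one, Matrix.cons_val_two,
      Matrix.cons_val_three, Matrix.head_cons, Matrix.tail_cons]
    linear_combination h3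

lemma Q4_unit {M N : Matrix (Fin 3) (Fin 3) ℂ} (h : IsUnit M.det) : Q4 M N := by
  have h1 := (Q4_one (M⁻¹ * N)).mul M
  rw [mul_one, Matrix.mul_nonsing_inv_cancel_left _ _ h] at h1
  exact h1

lemma Q4_reg {M N : Matrix (Fin 3) (Fin 3) ℂ} {s t : ℂ} (h : (s • M + t • N).det ≠ 0) :
    Q4 M N := by
  by_cases hs : s = 0
  · have ht : t ≠ 0 := by
      rintro rfl
      apply h
      rw [hs, zero_smul, zero_smul, add_zero]
      simp
    refine (Q4_unit (M := s • M + t • N) (N := M) h.isUnit).comb (a := 0) (b := 1)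
      (a' := t⁻¹) (b' := 0) (by simp) ?_
    rw [hs, zero_smul, zero_add, add_zero, smul_smul, inv_mul_cancel₀ ht, one_smul]
  · refine (Q4_unit (M := s • M + t • N) (N := N) h.isUnit).comb (a := s⁻¹) (b := -(s⁻¹ * t))
      (a' := 0) (b' := 1) ?_ (by simp)
    rw [smul_add, smul_smul, inv_mul_cancel₀ hs, one_smul, smul_smul, neg_smul]
    abel

/-- The bilinear form of a matrix. -/
noncomputable def bil (M : Matrix (Fin 3) (Fin 3) ℂ) : W3 →ₗ[ℂ] W3 →ₗ[ℂ] ℂ :=
  LinearMap.mk₂ ℂ (fun x y => ∑ i, ∑ j, x i * M i j * y j)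
    (fun x x' y => by simp only [Fin.sum_univ_three, Pi.add_apply]; ring)
    (fun c x y => by simp only [Fin.sum_univ_three, Pi.smul_apply, smul_eq_mul]; ring)
    (fun x y y' => by simp only [Fin.sum_univ_three, Pi.add_apply]; ring)
    (fun c x y => by simp only [Fin.sum_univ_three, Pi.smul_apply, smul_eq_mul]; ring)

lemma bil_apply (M : Matrix (Fin 3) (Fin 3) ℂ) (x y : W3) :
    bil M x y = ∑ i, ∑ j, x i * M i j * y j := rfl

lemma bil_single (M : Matrix (Fin 3) (Fin 3) ℂ) (i j : Fin 3) :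
    bil M (Pi.single i 1) (Pi.single j 1) = M i j := by
  rw [bil_apply, Finset.sum_eq_single i, Finset.sum_eq_single j]
  · simp
  · intro b _ hb
    simp [hb]
  · simp
  · intro b _ hb
    simp [hb]
  · simp

/-- From forms to matrices. -/
lemma Q4_of_forms {M N : Matrix (Fin 3) (Fin 3) ℂ} (η ω : Fin 4 → W3 →ₗ[ℂ] ℂ)
    (c d : Fin 4 → ℂ) (h1 : ∀ x y, bil M x y = ∑ s, c s * (η s x * ω s y))
    (h2 : ∀ x y, bil N x y = ∑ s, d s * (η s x * ω s y)) : Q4 M N := by
  refine ⟨fun s i => η s (Pi.single i 1), fun s j => ω s (Pi.single j 1), c, d,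
    fun i j => ?_, fun i j => ?_⟩
  · rw [← bil_single M, h1]
  · rw [← bil_single N, h2]

/-- A basis which starts with a given nonzero vector. -/
lemma exists_basis (n : ℕ) (e : Fin (n + 1) → ℂ) (he : e ≠ 0) :
    ∃ b : Module.Basis (Fin (n + 1)) ℂ (Fin (n + 1) → ℂ), b 0 = e := by
  have h1 : (Pi.single 0 1 : Fin (n + 1) → ℂ) ≠ 0 := by
    intro h
    have := congrFun h 0
    simp at this
  obtain ⟨A, hA⟩ := SeparatingDual.exists_continuousLinearEquiv_apply_eq (R := ℂ) h1 he
  refine ⟨(Pi.basisFun ℂ (Fin (n + 1))).map A.toLinearEquiv, ?_⟩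
  simp [hA]

/-- Common kernel vector on the left. -/
lemma Q4_left {M N : Matrix (Fin 3) (Fin 3) ℂ} (e : W3) (he : e ≠ 0)
    (h1 : ∀ y, bil M e y = 0) (h2 : ∀ y, bil N e y = 0) : Q4 M N := by
  obtain ⟨b, hb⟩ := exists_basis 2 e he
  have key : ∀ A : W3 →ₗ[ℂ] W3 →ₗ[ℂ] ℂ, (∀ y, A e y = 0) → ∀ x y,
      A x y = b.coord 1 x * A (b 1) y + b.coord 2 x * A (b 2) y := by
    intro A hA x y
    conv_lhs => rw [← b.sum_repr x]
    rw [Fin.sum_univ_three, hb, map_add, map_add, map_smul, map_smul, map_smul,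
      LinearMap.add_apply, LinearMap.add_apply, LinearMap.smul_apply, LinearMap.smul_apply,
      LinearMap.smul_apply, hA, smul_zero, zero_add]
    rfl
  refine Q4_of_forms ![b.coord 1, b.coord 2, b.coord 1, b.coord 2]
    ![bil M (b 1), bil M (b 2), bil N (b 1), bil N (b 2)] ![1, 1, 0, 0] ![0, 0, 1, 1]
    (fun x y => ?_) (fun x y => ?_)
  · rw [key _ h1, Fin.sum_univ_four]
    simp
  · rw [key _ h2, Fin.sum_univ_four]
    simp

/-- Common kernel vector on the right. -/
lemma Q4_right {M N : Matrix (Fin 3) (Fin 3) ℂ} (e : W3) (he : e ≠ 0)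
    (h1 : ∀ x, bil M x e = 0) (h2 : ∀ x, bil N x e = 0) : Q4 M N := by
  obtain ⟨b, hb⟩ := exists_basis 2 e he
  have key : ∀ A : W3 →ₗ[ℂ] W3 →ₗ[ℂ] ℂ, (∀ x, A x e = 0) → ∀ x y,
      A x y = A.flip (b 1) x * b.coord 1 y + A.flip (b 2) x * b.coord 2 y := by
    intro A hA x y
    conv_lhs => rw [← b.sum_repr y]
    rw [Fin.sum_univ_three, hb, map_add, map_add, map_smul, map_smul, map_smul, hA, smul_zero,
      zero_add, LinearMap.flip_apply, LinearMap.flip_apply, smul_eq_mul, smul_eq_mul,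
      Module.Basis.coord_apply, Module.Basis.coord_apply]
    ring
  refine Q4_of_forms ![(bil M).flip (b 1), (bil M).flip (b 2), (bil N).flip (b 1),
    (bil N).flip (b 2)] ![b.coord 1, b.coord 2, b.coord 1, b.coord 2]
    ![1, 1, 0, 0] ![0, 0, 1, 1] (fun x y => ?_) (fun x y => ?_)
  · rw [key _ h1, Fin.sum_univ_four]
    simp
  · rw [key _ h2, Fin.sum_univ_four]
    simp

/-- A plane in the space. -/
lemma plane (E : Submodule ℂ W3) (hE : Module.finrank ℂ E = 2) :
    ∃ (f : W3 →ₗ[ℂ] ℂ) (e : W3), f e = 1 ∧ ∀ x, f x = 0 → x ∈ E := by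
  have hlt : E < ⊤ := by
    rw [lt_top_iff_ne_top]
    rintro rfl
    rw [finrank_top] at hE
    simp at hE
  obtain ⟨f, hf, hle⟩ := Submodule.exists_le_ker_of_lt_top E hlt
  obtain ⟨e, he⟩ : ∃ e, f e ≠ 0 := by
    by_contra hcon
    push Not at hcon
    exact hf (LinearMap.ext hcon)
  have hker : Module.finrank ℂ (LinearMap.ker f) = 2 := by
    have h1 := LinearMap.finrank_range_add_finrank_ker f
    have h2 : Module.finrank ℂ (LinearMap.range f) = 1 := by
      rw [LinearMap.range_eq_top.2 (LinearMap.surjective hf), finrank_top]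
      simp
    rw [h2] at h1
    simp at h1
    omega
  have heq : E = LinearMap.ker f :=
    Submodule.eq_of_le_of_finrank_eq hle (by rw [hE, hker])
  refine ⟨f, (f e)⁻¹ • e, by rw [map_smul, smul_eq_mul, inv_mul_cancel₀ he], fun x hx => ?_⟩
  rw [heq]
  exact hx

/-- A common zero block `2 × 2`. -/
lemma Q4_mid {M N : Matrix (Fin 3) (Fin 3) ℂ} (E F : Submodule ℂ W3)
    (hE : Module.finrank ℂ E = 2) (hF : Module.finrank ℂ F = 2)
    (h1 : ∀ x ∈ E, ∀ y ∈ F, bil M x y = 0) (h2 : ∀ x ∈ E, ∀ y ∈ F, bil N x y = 0) :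
    Q4 M N := by
  obtain ⟨f, e, hfe, hf⟩ := plane E hE
  obtain ⟨g, e', hge, hg⟩ := plane F hF
  have key : ∀ A : W3 →ₗ[ℂ] W3 →ₗ[ℂ] ℂ, (∀ x ∈ E, ∀ y ∈ F, A x y = 0) → ∀ x y,
      A x y = f x * A e y + (A.flip e' - (A e e') • f) x * g y := by
    intro A hA x y
    have h3 := hA (x - f x • e) (hf _ (by rw [map_sub, map_smul, hfe, smul_eq_mul, mul_one,
      sub_self])) (y - g y • e') (hg _ (by rw [map_sub, map_smul, hge, smul_eq_mul, mul_one,
      sub_self]))
    simp only [map_sub, map_smul, LinearMap.sub_apply, LinearMap.smul_apply, smul_eq_mul] at h3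
    simp only [LinearMap.sub_apply, LinearMap.smul_apply, LinearMap.flip_apply, smul_eq_mul]
    linear_combination h3
  refine Q4_of_forms ![f, f, (bil M).flip e' - (bil M e e') • f,
    (bil N).flip e' - (bil N e e') • f] ![bil M e, bil N e, g, g] ![1, 0, 1, 0] ![0, 1, 0, 1]
    (fun x y => ?_) (fun x y => ?_)
  · rw [key _ h1, Fin.sum_univ_four]
    simp
  · rw [key _ h2, Fin.sum_univ_four]
    simp

lemma Q4_sing (h : P_PEN) {M N : Matrix (Fin 3) (Fin 3) ℂ}
    (hs : ∀ s t : ℂ, (s • M + t • N).det = 0) : Q4 M N := by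
  obtain ⟨E, F, hd, hz⟩ := h 3 (bil M) (bil N) (by
    intro s t
    obtain ⟨y, hy, hy2⟩ := Matrix.exists_vecMul_eq_zero_iff.2 (hs s t)
    refine ⟨y, hy, fun w => ?_⟩
    have h3 : ∀ j, ∑ i, y i * (s * M i j + t * N i j) = 0 := by
      intro j
      have h4 := congrFun hy2 j
      simpa [Matrix.vecMul, dotProduct] using h4
    rw [bil_apply, bil_apply]
    have h5 := h3 0
    have h6 := h3 1
    have h7 := h3 2
    simp only [Fin.sum_univ_three] at h5 h6 h7 ⊢
    linear_combination w 0 * h5 + w 1 * h6 + w 2 * h7)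
  have hE : Module.finrank ℂ E ≤ 3 := by
    have := Submodule.finrank_le E
    simpa using this
  have hF : Module.finrank ℂ F ≤ 3 := by
    have := Submodule.finrank_le F
    simpa using this
  have hcase : (Module.finrank ℂ E = 1 ∧ Module.finrank ℂ F = 3) ∨
      (Module.finrank ℂ E = 2 ∧ Module.finrank ℂ F = 2) ∨
      (Module.finrank ℂ E = 3 ∧ Module.finrank ℂ F = 1) := by omega
  have htop : ∀ G : Submodule ℂ W3, Module.finrank ℂ G = 3 → ∀ x, x ∈ G := by
    intro G hG x
    have : G = ⊤ := Submodule.eq_top_of_finrank_eq (by rw [hG]; simp)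
    rw [this]
    trivial
  have hne : ∀ G : Submodule ℂ W3, Module.finrank ℂ G = 1 → ∃ x ∈ G, x ≠ 0 := by
    intro G hG
    have : G ≠ ⊥ := by
      rintro rfl
      simp at hG
    exact Submodule.exists_mem_ne_zero_of_ne_bot this
  rcases hcase with ⟨h1, h2⟩ | ⟨h1, h2⟩ | ⟨h1, h2⟩
  · obtain ⟨e, heE, he⟩ := hne E h1
    exact Q4_left e he (fun y => (hz e heE y (htop F h2 y)).1)
      (fun y => (hz e heE y (htop F h2 y)).2)
  · exact Q4_mid E F h1 h2 (fun x hx y hy => (hz x hx y hy).1)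
      (fun x hx y hy => (hz x hx y hy).2)
  · obtain ⟨e, heF, he⟩ := hne F h2
    exact Q4_right e he (fun x => (hz x (htop E h1 x) e heF).1)
      (fun x => (hz x (htop E h1 x) e heF).2)

theorem Q4_all (h : P_PEN) (M N : Matrix (Fin 3) (Fin 3) ℂ) : Q4 M N := by
  by_cases hs : ∀ s t : ℂ, (s • M + t • N).det = 0
  · exact Q4_sing h hs
  · push Not at hs
    obtain ⟨s, t, hst⟩ := hs
    exact Q4_reg hst

end PEN33

open PEN33 in
theorem p_PEN33 (h : P_PEN) : P_PEN33 := by
  intro A B u v hu hv hA1 hA2 hB1 hB2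
  obtain ⟨b, hb⟩ := exists_basis 3 u hu
  obtain ⟨b', hb'⟩ := exists_basis 3 v hv
  have key : ∀ A : Bi, (∀ y, A u y = 0) → (∀ x, A x v = 0) → ∀ x y, A x y =
      ∑ i : Fin 3, ∑ j : Fin 3, b.coord i.succ x * A (b i.succ) (b' j.succ) *
        b'.coord j.succ y := by
    intro A h1 h2 x y
    conv_lhs => rw [← b.sum_repr x, ← b'.sum_repr y]
    simp only [map_sum, LinearMap.sum_apply, map_smul, LinearMap.smul_apply, smul_eq_mul]
    rw [Fin.sum_univ_succ]
    simp only [Fin.sum_univ_succ (n := 3), hb, hb', h1, h2, mul_zero, zero_add,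
      Finset.sum_const_zero, Module.Basis.coord_apply]
    rw [Finset.sum_comm]
    refine Finset.sum_congr rfl fun i _ => ?_
    rw [Finset.mul_sum]
    refine Finset.sum_congr rfl fun j _ => ?_
    ring
  obtain ⟨p, q, c, d, e1, e2⟩ := Q4_all h
    (Matrix.of fun i j : Fin 3 => A (b i.succ) (b' j.succ))
    (Matrix.of fun i j : Fin 3 => B (b i.succ) (b' j.succ))
  have key2 : ∀ (A : Bi) (c : Fin 4 → ℂ), (∀ y, A u y = 0) → (∀ x, A x v = 0) →
      (∀ i j : Fin 3, A (b i.succ) (b' j.succ) = ∑ s, c s * (p s i * q s j)) →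
      ∀ x y, A x y = ∑ s, c s * ((∑ i : Fin 3, p s i • b.coord i.succ) x *
        (∑ j : Fin 3, q s j • b'.coord j.succ) y) := by
    intro A c h1 h2 h3 x y
    rw [key A h1 h2]
    simp only [h3, Fin.sum_univ_three, Fin.sum_univ_four, LinearMap.add_apply,
      LinearMap.smul_apply, smul_eq_mul]
    ring
  exact ⟨_, _, c, d, key2 A c hA1 hA2 e1, key2 B d hB1 hB2 e2⟩

end Pool.Agent.MR8
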