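import Pool.Agent.MR8.Defs

/-!
# POLY: multi-affine families of binary quartics all of whose members have a double root
-/

set_option autoImplicit false

namespace Pool.Agent.MR8

open Polynomial in
/-- The quartic as a polynomial in `t` for `s = 1`. -/
noncomputable def POLY_p (c : Fin 5 → ℂ) : Polynomial ℂ :=
  C (c 0) + C (c 1) * X + C (c 2) * X ^ 2 + C (c 3) * X ^ 3 + C (c 4) * X ^ 4

open Polynomial in
lemma POLY_eval (c : Fin 5 → ℂ) (x : ℂ) :
    (POLY_p c).eval x = c 0 + c 1 * x + c 2 * x ^ 2 + c 3 * x ^ 3 + c 4 * x ^ 4 := by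
  simp [POLY_p]

open Polynomial in
lemma POLY_deval (c : Fin 5 → ℂ) (x : ℂ) :
    (derivative (POLY_p c)).eval x = c 1 + 2 * c 2 * x + 3 * c 3 * x ^ 2 + 4 * c 4 * x ^ 3 := by
  simp [POLY_p]
  ring

open Polynomial in
lemma POLY_coeff (c : Fin 5 → ℂ) (h : POLY_p c = 0) : c = 0 := by
  have h' : ∀ n, (POLY_p c).coeff n = 0 := by
    intro n
    rw [h]
    simp
  have h0 := h' 0
  have h1 := h' 1
  have h2 := h' 2
  have h3 := h' 3
  have h4 := h' 4
  simp [POLY_p, coeff_X, coeff_C, coeff_X_pow] at h0 h1 h2 h3 h4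
  funext i
  fin_cases i
  · exact h0
  · exact h1
  · exact h2
  · exact h3
  · exact h4

/-- Homogeneity. -/
lemma POLY_smul {c : Fin 5 → ℂ} {s t : ℂ} (k : ℂ) (h : DR c s t) : DR c (k * s) (k * t) := by
  constructor
  · linear_combination k ^ 3 * h.1
  · linear_combination k ^ 3 * h.2

/-- Proportional points. -/
lemma POLY_prop {c : Fin 5 → ℂ} {s t s' t' : ℂ} (h : DR c s t) (hne : s ≠ 0 ∨ t ≠ 0)
    (hp : s * t' = t * s') : DR c s' t' := by
  rcases hne with hs | ht
  · have e1 : s' = s' / s * s := by field_simp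
    have e2 : t' = s' / s * t := by
      field_simp
      linear_combination hp
    rw [e1, e2]
    exact POLY_smul _ h
  · have e1 : s' = t' / t * s := by
      field_simp
      linear_combination -hp
    have e2 : t' = t' / t * t := by field_simp
    have h3 := POLY_smul (t' / t) h
    rw [← e1, ← e2] at h3
    exact h3

/-- Linearity. -/
lemma POLY_lin {c d e : Fin 5 → ℂ} {s t a b : ℂ} (hc : DR c s t) (hd : DR d s t)
    (he : ∀ i, e i = a * c i + b * d i) : DR e s t := by
  constructor
  · rw [he, he, he, he]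
    linear_combination a * hc.1 + b * hd.1
  · rw [he, he, he, he]
    linear_combination a * hc.2 + b * hd.2

open Polynomial in
/-- Vanishing Wronskian. -/
lemma POLY_wronsk {p q : Polynomial ℂ} (hq : q ≠ 0)
    (h : derivative p * q = p * derivative q) : ∃ k : ℂ, p = C k * q := by
  classical
  obtain ⟨g, p1, q1, hg, hcop, hp1, hq1⟩ : ∃ g p1 q1 : Polynomial ℂ, g ≠ 0 ∧ IsCoprime p1 q1 ∧
      p = g * p1 ∧ q = g * q1 := by
    refine ⟨gcd p q, p / gcd p q, q / gcd p q, ?_, ?_, ?_, ?_⟩
    · intro h0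
      exact hq ((gcd_eq_zero_iff p q).mp h0).2
    · exact isCoprime_div_gcd_div_gcd hq
    · exact (EuclideanDomain.mul_div_cancel' (fun h0 => hq ((gcd_eq_zero_iff p q).mp h0).2)
        (gcd_dvd_left p q)).symm
    · exact (EuclideanDomain.mul_div_cancel' (fun h0 => hq ((gcd_eq_zero_iff p q).mp h0).2)
        (gcd_dvd_right p q)).symm
  have hw : wronskian p1 q1 = 0 := by
    have h1 : g ^ 2 * wronskian p1 q1 = 0 := by
      rw [hp1, hq1] at h
      simp only [derivative_mul] at h
      unfold wronskian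
      linear_combination -h
    exact (mul_eq_zero.mp h1).resolve_left (pow_ne_zero 2 hg)
  have hd := (hcop.wronskian_eq_zero_iff).mp hw
  have hp2 := derivative_eq_zero.mp hd.1
  have hq2 := derivative_eq_zero.mp hd.2
  obtain ⟨a, ha⟩ := natDegree_eq_zero.mp hp2
  obtain ⟨b, hb⟩ := natDegree_eq_zero.mp hq2
  have hb0 : b ≠ 0 := by
    intro h0
    apply hq
    rw [hq1, ← hb, h0]
    simp
  refine ⟨a / b, ?_⟩
  rw [hp1, hq1, ← ha, ← hb]
  have e : C (a / b) * (g * C b) = g * (C (a / b) * C b) := by ring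
  rw [e, ← C_mul, div_mul_cancel₀ _ hb0]

open Polynomial in
/-- A pencil of quartics with moving double roots is zero. -/
lemma POLY_zero (c d : Fin 5 → ℂ) (s t : ℂ → ℂ)
    (hinj : ∀ z z', z ≠ z' → s z * t z' ≠ t z * s z')
    (h : ∀ z, DR (fun i => c i + z * d i) (s z) (t z)) : c = 0 ∧ d = 0 := by
  have hfin : Set.Finite {z : ℂ | s z = 0} := by
    apply Set.Subsingleton.finite
    intro z hz z' hz'
    by_contra hzz
    apply hinj z z' hzz
    rw [Set.mem_ofPred_eq] at hz hz'
    rw [hz, hz']
    ring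
  have hinf : Set.Infinite {z : ℂ | s z ≠ 0} := by
    have := hfin.infinite_compl
    exact this
  set ρ : ℂ → ℂ := fun z => t z / s z with hρ
  have hρinj : Set.InjOn ρ {z : ℂ | s z ≠ 0} := by
    intro z hz z' hz' he
    by_contra hzz
    apply hinj z z' hzz
    rw [Set.mem_ofPred_eq] at hz hz'
    simp only [hρ] at he
    rw [div_eq_div_iff hz hz'] at he
    linear_combination -he
  have hDR : ∀ z, s z ≠ 0 → DR (fun i => c i + z * d i) 1 (ρ z) := by
    intro z hz
    refine POLY_prop (h z) (Or.inl hz) ?_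
    simp only [hρ]
    field_simp
  have hp : ∀ z, s z ≠ 0 → (POLY_p c).eval (ρ z) + z * (POLY_p d).eval (ρ z) = 0 := by
    intro z hz
    have h1 := hDR z hz
    obtain ⟨h2, h3⟩ := h1
    simp only at h2 h3
    rw [POLY_eval, POLY_eval]
    linear_combination (1 / 4 : ℂ) * h2 + (ρ z / 4) * h3
  have hp' : ∀ z, s z ≠ 0 → (derivative (POLY_p c)).eval (ρ z) +
      z * (derivative (POLY_p d)).eval (ρ z) = 0 := by
    intro z hz
    have h1 := hDR z hz
    obtain ⟨h2, h3⟩ := h1
    simp only at h2 h3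
    rw [POLY_deval, POLY_deval]
    linear_combination h3
  have himg : Set.Infinite (ρ '' {z : ℂ | s z ≠ 0}) := hinf.image hρinj
  have hd : POLY_p d = 0 := by
    by_contra hd0
    have hw : derivative (POLY_p c) * POLY_p d = POLY_p c * derivative (POLY_p d) := by
      rw [← sub_eq_zero]
      apply eq_zero_of_infinite_isRoot
      refine himg.mono ?_
      rintro x ⟨z, hz, rfl⟩
      have h1 := hp z hz
      have h2 := hp' z hz
      show IsRoot _ _
      rw [IsRoot.def, eval_sub, eval_mul, eval_mul]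
      linear_combination (POLY_p d).eval (ρ z) * h2 - (derivative (POLY_p d)).eval (ρ z) * h1
    obtain ⟨k, hk⟩ := POLY_wronsk hd0 hw
    apply hd0
    apply eq_zero_of_infinite_isRoot
    have hinf2 : Set.Infinite ({z : ℂ | s z ≠ 0} \ {-k}) := hinf.sdiff (Set.finite_singleton _)
    refine (hinf2.image (hρinj.mono Set.sdiff_subset)).mono ?_
    rintro x ⟨z, ⟨hz, hzk⟩, rfl⟩
    have h1 := hp z hz
    rw [hk, eval_mul, eval_C] at h1
    have h2 : (k + z) * (POLY_p d).eval (ρ z) = 0 := by linear_combination h1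
    have h3 : k + z ≠ 0 := by
      intro h4
      apply hzk
      rw [Set.mem_singleton_iff]
      linear_combination h4
    exact (mul_eq_zero.mp h2).resolve_left h3
  have hc : POLY_p c = 0 := by
    apply eq_zero_of_infinite_isRoot
    refine himg.mono ?_
    rintro x ⟨z, hz, rfl⟩
    have h1 := hp z hz
    rw [hd, eval_zero, mul_zero, add_zero] at h1
    exact h1
  exact ⟨POLY_coeff c hc, POLY_coeff d hd⟩

theorem p_POLY : P_POLY := by
  intro n
  induction n with
  | zero =>
    intro Q _ hD
    obtain ⟨s, t, hne, h⟩ := hD default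
    refine ⟨s, t, hne, fun v => ?_⟩
    rw [Subsingleton.elim v default]
    exact h
  | succ n ih =>
    intro Q hQ hD
    have key : ∀ z : ℂ, ∃ s t : ℂ, (s ≠ 0 ∨ t ≠ 0) ∧
        ∀ v : Fin n → ℂ, DR (Q (Fin.cons z v)) s t := by
      intro z
      refine ih (fun v => Q (Fin.cons z v)) ?_ (fun v => hD _)
      intro v i x
      simp only [Fin.cons_update]
      exact hQ _ _ _
    have hlin : ∀ (z : ℂ) (v : Fin n → ℂ) (i : Fin 5), Q (Fin.cons z v) i =
        Q (Fin.cons 0 v) i + z * (Q (Fin.cons 1 v) i - Q (Fin.cons 0 v) i) := by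
      intro z v i
      have h1 := hQ (Fin.cons 0 v) 0 z
      simp only [Fin.update_cons_zero] at h1
      have h2 := congrFun h1 i
      simpa using h2
    choose s t hne hDR using key
    have hall : ∀ w : Fin (n + 1) → ℂ, ∃ (z : ℂ) (v : Fin n → ℂ), w = Fin.cons z v :=
      fun w => ⟨w 0, Fin.tail w, (Fin.cons_self_tail w).symm⟩
    by_cases hex : ∃ z z' : ℂ, z ≠ z' ∧ s z * t z' = t z * s z'
    · obtain ⟨z, z', hzz, hp⟩ := hex
      refine ⟨s z', t z', hne z', fun w => ?_⟩
      obtain ⟨x, v, rfl⟩ := hall w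
      have h1 : DR (Q (Fin.cons z v)) (s z') (t z') := POLY_prop (hDR z v) (hne z) hp
      have h2 : DR (Q (Fin.cons z' v)) (s z') (t z') := hDR z' v
      have hz : z - z' ≠ 0 := sub_ne_zero.mpr hzz
      refine POLY_lin (a := (x - z') / (z - z')) (b := (z - x) / (z - z')) h1 h2 fun i => ?_
      rw [hlin x v i, hlin z v i, hlin z' v i]
      field_simp
      ring
    · push Not at hex
      refine ⟨1, 0, Or.inl one_ne_zero, fun w => ?_⟩
      obtain ⟨x, v, rfl⟩ := hall w
      have h0 := POLY_zero (Q (Fin.cons 0 v)) (fun i => Q (Fin.cons 1 v) i - Q (Fin.cons 0 v) i)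
        s t hex (fun z => by
          have h1 := hDR z v
          have h2 : (fun i => Q (Fin.cons 0 v) i +
              z * (Q (Fin.cons 1 v) i - Q (Fin.cons 0 v) i)) = Q (Fin.cons z v) := by
            funext i
            exact (hlin z v i).symm
          rw [h2]
          exact h1)
      have h3 : Q (Fin.cons x v) = 0 := by
        funext i
        rw [hlin x v i]
        have e1 := congrFun h0.1 i
        have e2 := congrFun h0.2 i
        simp only [Pi.zero_apply] at e1 e2 ⊢
        rw [e1] at e2 ⊢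
        rw [e2]
        ring
      rw [h3]
      constructor <;> simp

end Pool.Agent.MR8
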