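import Pool.Agent.MR8.Defs

set_option autoImplicit false

/-!
# MR8: rank decomposition, change of the decomposition, density
-/

namespace Pool.Agent.MR8

open Matrix

theorem p_RKD : P_RKD := by
  intro B
  let b := Module.finBasis ℂ (LinearMap.range B)
  refine ⟨Module.finrank ℂ (LinearMap.range B), ?_,
    fun i => (b.coord i) ∘ₗ B.rangeRestrict, fun i => (b i : D), ?_, ?_, ?_⟩
  · have h1 := LinearMap.finrank_range_le B
    have h2 : Module.finrank ℂ V = 4 := by simp [V]
    omega
  · rw [Fintype.linearIndependent_iff]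
    intro g hg i
    obtain ⟨v, hv⟩ := LinearMap.surjective_rangeRestrict B (b i)
    have h1 := LinearMap.congr_fun hg v
    simp only [LinearMap.sum_apply, LinearMap.smul_apply, LinearMap.comp_apply, hv,
      Module.Basis.coord_apply, Module.Basis.repr_self, LinearMap.zero_apply, smul_eq_mul] at h1
    rw [Finset.sum_eq_single i] at h1
    · simpa using h1
    · intro j _ hj
      simp [hj.symm]
    · simp
  · exact b.linearIndependent.map' (LinearMap.range B).subtype (Submodule.ker_subtype _)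
  · intro y w
    have h1 := b.sum_repr (B.rangeRestrict y)
    have h2 := congrArg (fun z : LinearMap.range B => (z : D) w) h1
    simp only [Submodule.coe_sum, Submodule.coe_smul, LinearMap.sum_apply, LinearMap.smul_apply,
      smul_eq_mul] at h2
    exact h2.symm

theorem RKD_mix (G H : Matrix (Fin 3) (Fin 3) ℂ) (hGH : G * H = 1) (η ω : Fin 3 → D)
    (hη : LinearIndependent ℂ η) (hω : LinearIndependent ℂ ω) (c : Fin 3 → ℂ)
    (hc : ∀ i, G 0 i + G 1 i + G 2 i = c i) :
    ∃ η' ω' : Fin 3 → D, LinearIndependent ℂ η' ∧ LinearIndependent ℂ ω' ∧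
      (∀ y w, ∑ i, η i y * ω i w = ∑ i, η' i y * ω' i w) ∧
      ∑ i, c i • η i = η' 0 + η' 1 + η' 2 ∧
      (∀ y, (∀ i, η i y = 0) ↔ ∀ i, η' i y = 0) ∧ (∀ w, (∀ i, ω i w = 0) ↔ ∀ i, ω' i w = 0) := by
  have hHG : H * G = 1 := mul_eq_one_comm.mp hGH
  have key : ∀ (P Q : Matrix (Fin 3) (Fin 3) ℂ) (ξ : Fin 3 → D), P * Q = 1 →
      LinearIndependent ℂ ξ → LinearIndependent ℂ (fun j => ∑ i, P j i • ξ i) := by
    intro P Q ξ hPQ hξ
    rw [Fintype.linearIndependent_iff] at hξ ⊢
    intro g hg
    have h1 : ∑ i, (g ᵥ* P) i • ξ i = 0 := by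
      rw [← hg]
      simp only [Finset.smul_sum, smul_smul, Matrix.vecMul, dotProduct]
      rw [Finset.sum_comm]
      simp only [Finset.sum_smul]
    have h2 : g ᵥ* P = 0 := funext (hξ _ h1)
    have h3 : g = (g ᵥ* P) ᵥ* Q := by rw [Matrix.vecMul_vecMul, hPQ, Matrix.vecMul_one]
    intro i
    rw [h3, h2, Matrix.zero_vecMul]
    rfl
  have key2 : ∀ (P Q : Matrix (Fin 3) (Fin 3) ℂ) (ξ : Fin 3 → D), Q * P = 1 → ∀ y,
      (∀ i, ξ i y = 0) ↔ ∀ j, (∑ i, P j i • ξ i : D) y = 0 := by
    intro P Q ξ hQP y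
    constructor
    · intro h j
      simp [LinearMap.sum_apply, h]
    · intro h
      have h1 : P *ᵥ (fun i => ξ i y) = 0 := by
        funext j
        have := h j
        simpa [LinearMap.sum_apply, Matrix.mulVec, dotProduct] using this
      have h3 : (fun i => ξ i y) = Q *ᵥ (P *ᵥ (fun i => ξ i y)) := by
        rw [Matrix.mulVec_mulVec, hQP, Matrix.one_mulVec]
      intro i
      have := congrFun h3 i
      rw [h1, Matrix.mulVec_zero] at this
      exact this
  have hT : Hᵀ * Gᵀ = 1 := by rw [← Matrix.transpose_mul, hGH, Matrix.transpose_one]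
  have hT' : Gᵀ * Hᵀ = 1 := by rw [← Matrix.transpose_mul, hHG, Matrix.transpose_one]
  refine ⟨fun j => ∑ i, G j i • η i, fun j => ∑ i, Hᵀ j i • ω i, key G H η hGH hη,
    key Hᵀ Gᵀ ω hT hω, ?_, ?_, key2 G H η hHG, key2 Hᵀ Gᵀ ω hT'⟩
  · intro y w
    have e : ∀ a b : Fin 3, ∑ j, H a j * G j b = if a = b then 1 else 0 := by
      intro a b
      have := congrFun (congrFun hHG a) b
      rwa [Matrix.mul_apply, Matrix.one_apply] at this
    have h1 : ∀ j, (∑ i, G j i • η i : D) y * (∑ i, Hᵀ j i • ω i : D) w =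
        ∑ a, ∑ b, (H a j * G j b) * (η b y * ω a w) := by
      intro j
      simp only [LinearMap.sum_apply, LinearMap.smul_apply, smul_eq_mul, Finset.sum_mul,
        Finset.mul_sum, Matrix.transpose_apply]
      refine Finset.sum_congr rfl fun b _ => Finset.sum_congr rfl fun a _ => ?_
      ring
    rw [Finset.sum_congr rfl fun j _ => h1 j, Finset.sum_comm]
    refine Finset.sum_congr rfl fun a _ => ?_
    rw [Finset.sum_comm]
    simp only [← Finset.sum_mul, e]
    simp
  · have : ∑ i, c i • η i = ∑ i, (G 0 i + G 1 i + G 2 i) • η i :=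
      Finset.sum_congr rfl fun i _ => by rw [hc i]
    rw [this]
    simp only [add_smul, Finset.sum_add_distrib]

theorem p_MIX : P_MIX := by
  intro η ω hη hω c hc
  by_cases h0 : c 0 ≠ 0
  · refine RKD_mix !![c 0, c 1 - 1, c 2 - 1; 0, 1, 0; 0, 0, 1]
      !![1 / c 0, -(c 1 - 1) / c 0, -(c 2 - 1) / c 0; 0, 1, 0; 0, 0, 1] ?_ η ω hη hω c ?_
    · ext i j
      fin_cases i <;> fin_cases j <;> simp [Matrix.mul_apply, Fin.sum_univ_three] <;>
        field_simp <;> ring
    · intro i
      fin_cases i <;> simp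
  · push Not at h0
    by_cases h1 : c 1 ≠ 0
    · refine RKD_mix !![-1, c 1, c 2 - 1; 1, 0, 0; 0, 0, 1]
        !![0, 1, 0; 1 / c 1, 1 / c 1, -(c 2 - 1) / c 1; 0, 0, 1] ?_ η ω hη hω c ?_
      · ext i j
        fin_cases i <;> fin_cases j <;> simp [Matrix.mul_apply, Fin.sum_univ_three] <;>
          field_simp <;> ring
      · intro i
        fin_cases i <;> simp [h0]
    · push Not at h1
      have h2 : c 2 ≠ 0 := by
        intro h2
        apply hc
        funext i
        fin_cases i
        · exact h0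
        · exact h1
        · exact h2
      refine RKD_mix !![-1, -1, c 2; 1, 0, 0; 0, 1, 0]
        !![0, 1, 0; 0, 0, 1; 1 / c 2, 1 / c 2, 1 / c 2] ?_ η ω hη hω c ?_
      · ext i j
        fin_cases i <;> fin_cases j <;> simp [Matrix.mul_apply, Fin.sum_univ_three] <;>
          field_simp <;> ring
      · intro i
        fin_cases i <;> simp [h0, h1]

theorem p_DENS : P_DENS := by
  intro A B hA h y w
  obtain ⟨y0, w0, h0⟩ : ∃ y0 w0, A y0 w0 ≠ 0 := by
    by_contra hcon
    push Not at hcon
    apply hA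
    refine LinearMap.ext fun y => LinearMap.ext fun w => ?_
    simpa using hcon y w
  have e : ∀ (C : Bi) (s : ℂ), C (y + s • y0) (w + s • w0) =
      C y w + s * (C y w0 + C y0 w) + s ^ 2 * C y0 w0 := by
    intro C s
    simp only [map_add, map_smul, LinearMap.add_apply, LinearMap.smul_apply, smul_eq_mul]
    ring
  let f : Bi → Polynomial ℂ := fun C => Polynomial.C (C y w) +
    Polynomial.X * Polynomial.C (C y w0 + C y0 w) + Polynomial.X ^ 2 * Polynomial.C (C y0 w0)
  have ef : ∀ C s, (f C).eval s = C (y + s • y0) (w + s • w0) := by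
    intro C s
    rw [e]
    simp [f]
    ring
  have hz : f A * f B = 0 := by
    refine Polynomial.funext fun s => ?_
    rw [Polynomial.eval_mul, ef, ef, Polynomial.eval_zero]
    by_cases hs : A (y + s • y0) (w + s • w0) = 0
    · rw [hs, zero_mul]
    · rw [h _ _ hs, mul_zero]
  have hfA : f A ≠ 0 := by
    intro hf
    have ev : ∀ s : ℂ, A y w + s * (A y w0 + A y0 w) + s ^ 2 * A y0 w0 = 0 := by
      intro s
      rw [← e, ← ef, hf, Polynomial.eval_zero]
    apply h0
    have e1 := ev 1
    have e2 := ev (-1)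
    have e3 := ev 0
    linear_combination (1 / 2) * e1 + (1 / 2) * e2 - e3
  rcases mul_eq_zero.mp hz with h1 | h1
  · exact absurd h1 hfA
  · have := ef B 0
    rw [h1] at this
    simpa using this.symm

end Pool.Agent.MR8
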