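import Pool.Agent.MR8.Defs
import Pool.Agent.MR4.Eight

set_option autoImplicit false

/-!
# Every pencil of slices has a determinant with a double root
-/

namespace Pool.Agent.MR8

open Matrix Polynomial

/-- The matrix of a bilinear form in the standard basis. -/
def S_mat (B : Bi) : Matrix (Fin 4) (Fin 4) ℂ :=
  Matrix.of fun i j => B (Pi.single i 1) (Pi.single j 1)

lemma S_vec (y : V) : y = ∑ i, y i • (Pi.single i (1 : ℂ) : V) := by
  ext k
  simp [Finset.sum_apply, Pi.single_apply]

lemma S_apply (B : Bi) (y w : V) : B y w = ∑ i, ∑ j, y i * S_mat B i j * w j := by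
  conv_lhs => rw [S_vec y, S_vec w]
  rw [Finset.sum_comm]
  simp only [map_sum, map_smul, LinearMap.sum_apply, LinearMap.smul_apply, smul_eq_mul, S_mat,
    Matrix.of_apply]
  refine Finset.sum_congr rfl fun i _ => ?_
  rw [Finset.mul_sum]
  refine Finset.sum_congr rfl fun j _ => ?_
  ring

lemma S_det (B : Bi) (y w : Fin 4 → V) :
    (Matrix.of fun i j => B (y i) (w j)).det =
      (Matrix.of y).det * (S_mat B).det * (Matrix.of w).det := by
  have e : (Matrix.of fun i j => B (y i) (w j)) = Matrix.of y * S_mat B * (Matrix.of w)ᵀ := by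
    ext i j
    rw [Matrix.of_apply, S_apply, Matrix.mul_apply]
    simp only [Matrix.mul_apply, Matrix.of_apply, Matrix.transpose_apply, Finset.sum_mul]
    rw [Finset.sum_comm]
  rw [e, Matrix.det_mul, Matrix.det_mul, Matrix.det_transpose]

lemma S_pen (T : Tri) (u v : V) (s t s' t' ε : ℂ) :
    S_mat (T (s • u + t • v) + ε • T (s' • u + t' • v)) =
      (s • S_mat (T u) + t • S_mat (T v)) + ε • (s' • S_mat (T u) + t' • S_mat (T v)) := by
  ext i j
  simp [S_mat]

lemma S_pen0 (T : Tri) (u v : V) (s t : ℂ) :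
    S_mat (T (s • u + t • v)) = s • S_mat (T u) + t • S_mat (T v) := by
  ext i j
  simp [S_mat]

lemma S_det' (T : Tri) (u v : V) (s t s' t' ε : ℂ) (y w : Fin 4 → V) :
    (Matrix.of fun i j => T (s • u + t • v) (y i) (w j) +
        ε * T (s' • u + t' • v) (y i) (w j)).det =
      (Matrix.of y).det * ((s • S_mat (T u) + t • S_mat (T v)) +
        ε • (s' • S_mat (T u) + t' • S_mat (T v))).det * (Matrix.of w).det := by
  rw [← S_pen, ← S_det]
  congr 1

/-- A quadratic polynomial function. -/
lemma S_quad (q : ℂ[X]) (hq : q.natDegree ≤ 2) (z ε : ℂ) :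
    q.eval (z - ε) = (q.coeff 0 + q.coeff 1 * z + q.coeff 2 * z ^ 2) +
      (-q.coeff 1 - 2 * q.coeff 2 * z) * ε + q.coeff 2 * ε ^ 2 := by
  rw [Polynomial.eval_eq_sum_range' (Nat.lt_succ_of_le hq)]
  simp only [Finset.sum_range_succ, Finset.sum_range_zero]
  ring

/-- Either four distinct eigenvalues or a double root. -/
lemma S_cases (X : Matrix (Fin 4) (Fin 4) ℂ) :
    (∃ t : Fin 4 → ℂ, Function.Injective t ∧
      ∀ i, (X - t i • (1 : Matrix (Fin 4) (Fin 4) ℂ)).det = 0) ∨
    ∃ z : ℂ, ∃ a b c : ℂ, ∀ ε : ℂ, (X - z • (1 : Matrix (Fin 4) (Fin 4) ℂ) +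
      ε • (1 : Matrix (Fin 4) (Fin 4) ℂ)).det = ε ^ 2 * (a + b * ε + c * ε ^ 2) := by
  have hev : ∀ z : ℂ, (X - z • (1 : Matrix (Fin 4) (Fin 4) ℂ)).det = X.charpoly.eval z := by
    intro z
    rw [Matrix.eval_charpoly]
    have : X - z • (1 : Matrix (Fin 4) (Fin 4) ℂ) = -(Matrix.scalar (Fin 4) z - X) := by
      rw [neg_sub]
      congr 1
      ext i j
      simp [Matrix.scalar_apply, Matrix.diagonal_apply, Matrix.one_apply]
    rw [this, Matrix.det_neg, Fintype.card_fin]
    ring
  have hcard : X.charpoly.roots.card = 4 := by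
    have h1 := (IsAlgClosed.splits X.charpoly).natDegree_eq_card_roots
    rw [← h1, Matrix.charpoly_natDegree_eq_dim]
    simp
  have hne : X.charpoly ≠ 0 := (Matrix.charpoly_monic X).ne_zero
  by_cases hnd : X.charpoly.roots.Nodup
  · left
    have h4 : X.charpoly.roots.toFinset.card = 4 := by
      rw [Multiset.toFinset_card_of_nodup hnd, hcard]
    let e := (Finset.equivFinOfCardEq h4).symm
    refine ⟨fun i => (e i : ℂ), fun i j hij => e.injective (Subtype.ext hij), fun i => ?_⟩
    rw [hev]
    have := (e i).2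
    rw [Multiset.mem_toFinset, Polynomial.mem_roots hne] at this
    exact this
  · right
    rw [Multiset.nodup_iff_count_le_one] at hnd
    push Not at hnd
    obtain ⟨z, hz⟩ := hnd
    rw [Polynomial.count_roots] at hz
    have hdvd : (Polynomial.X - Polynomial.C z) ^ 2 ∣ X.charpoly :=
      (pow_dvd_pow _ hz).trans (Polynomial.pow_rootMultiplicity_dvd _ _)
    obtain ⟨q, hq⟩ := hdvd
    have hq0 : q ≠ 0 := by
      rintro rfl
      exact hne (by rw [hq, mul_zero])
    have hdeg : q.natDegree ≤ 2 := by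
      have h1 : X.charpoly.natDegree = 4 := by
        rw [Matrix.charpoly_natDegree_eq_dim]; simp
      rw [hq, Polynomial.natDegree_mul (pow_ne_zero _ (Polynomial.X_sub_C_ne_zero z)) hq0,
        Polynomial.natDegree_pow, Polynomial.natDegree_X_sub_C] at h1
      omega
    refine ⟨z, q.coeff 0 + q.coeff 1 * z + q.coeff 2 * z ^ 2, -q.coeff 1 - 2 * q.coeff 2 * z,
      q.coeff 2, fun ε => ?_⟩
    have e1 : X - z • (1 : Matrix (Fin 4) (Fin 4) ℂ) + ε • (1 : Matrix (Fin 4) (Fin 4) ℂ) =
        X - (z - ε) • (1 : Matrix (Fin 4) (Fin 4) ℂ) := by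
      rw [sub_smul]
      abel
    rw [e1, hev, hq, Polynomial.eval_mul, Polynomial.eval_pow, Polynomial.eval_sub,
      Polynomial.eval_X, Polynomial.eval_C, S_quad q hdeg z ε]
    ring

lemma S_li_dual (P : Matrix (Fin 4) (Fin 4) ℂ) (hP : IsUnit P.det) (η : Fin 4 → D)
    (h : ∀ k y, η k y = ∑ i, y i * P i k) : LinearIndependent ℂ η := by
  rw [Fintype.linearIndependent_iff]
  intro g hg
  have h1 : P *ᵥ g = 0 := by
    ext i
    have h2 := LinearMap.congr_fun hg (Pi.single i 1)
    simp only [LinearMap.sum_apply, LinearMap.smul_apply, smul_eq_mul, LinearMap.zero_apply] at h2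
    rw [Matrix.mulVec, dotProduct, Pi.zero_apply, ← h2]
    refine Finset.sum_congr rfl fun k _ => ?_
    rw [h k]
    simp [Pi.single_apply, mul_comm]
  have h3 := Matrix.eq_zero_of_mulVec_eq_zero hP.ne_zero h1
  intro i
  exact congrFun h3 i

/-- Every pencil of slices has a determinant with a double root. -/
theorem p_S (h : P_KK) : P_S := by
  intro T hT u v huv
  by_cases hz : ∀ s t : ℂ, (s • S_mat (T u) + t • S_mat (T v)).det = 0
  · refine ⟨1, 0, 0, 1, by norm_num, fun y w => ⟨0, 0, 0, fun ε => ?_⟩⟩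
    rw [S_det']
    have := hz 1 ε
    have e : (1 : ℂ) • S_mat (T u) + (0 : ℂ) • S_mat (T v) +
        ε • ((0 : ℂ) • S_mat (T u) + (1 : ℂ) • S_mat (T v)) =
        (1 : ℂ) • S_mat (T u) + ε • S_mat (T v) := by
      simp
    rw [e, this]
    ring
  · push Not at hz
    obtain ⟨s0, t0, hst⟩ := hz
    obtain ⟨s1, t1, hdet⟩ : ∃ s1 t1 : ℂ, s1 * t0 - t1 * s0 ≠ 0 := by
      by_cases h0 : t0 = 0
      · by_cases h00 : s0 = 0
        · exfalso
          apply hst
          subst h0 h00
          simp
        · exact ⟨0, 1, by simpa using h00⟩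
      · exact ⟨1, 0, by simpa using h0⟩
    set A' := s0 • S_mat (T u) + t0 • S_mat (T v) with hA'
    set B' := s1 • S_mat (T u) + t1 • S_mat (T v) with hB'
    have hAu : IsUnit A'.det := isUnit_iff_ne_zero.mpr hst
    set X := A'⁻¹ * B' with hX
    have hAX : A' * X = B' := by
      rw [hX, ← Matrix.mul_assoc, Matrix.mul_nonsing_inv A' hAu, Matrix.one_mul]
    rcases S_cases X with ⟨t, ht, hti⟩ | ⟨z, a, b, c, hz⟩
    · exfalso
      apply hT
      obtain ⟨P, hP, hXP⟩ := MR4.diag_of_four X t ht hti
      let η : Fin 4 → D := fun k =>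
        ∑ i, (A' * P) i k • (LinearMap.proj i : D)
      let ω : Fin 4 → D := fun k =>
        ∑ j, P⁻¹ k j • (LinearMap.proj j : D)
      have hη : ∀ k y, η k y = ∑ i, y i * (A' * P) i k := by
        intro k y
        simp only [η, LinearMap.sum_apply, LinearMap.smul_apply, LinearMap.proj_apply, smul_eq_mul]
        exact Finset.sum_congr rfl fun i _ => mul_comm _ _
      have hω : ∀ k w, ω k w = ∑ j, w j * P⁻¹ k j := by
        intro k w
        simp only [ω, LinearMap.sum_apply, LinearMap.smul_apply, LinearMap.proj_apply, smul_eq_mul]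
        exact Finset.sum_congr rfl fun i _ => mul_comm _ _
      have key : ∀ (B : Bi) (c : Fin 4 → ℂ), S_mat B = A' * P * diagonal c * P⁻¹ →
          ∀ y w, B y w = ∑ k, c k * (η k y * ω k w) := by
        intro B c hB y w
        rw [S_apply, hB]
        simp only [hη, hω]
        have e1 : ∀ i j, (A' * P * diagonal c * P⁻¹) i j =
            ∑ k, (A' * P) i k * c k * P⁻¹ k j := by
          intro i j
          rw [Matrix.mul_apply]
          refine Finset.sum_congr rfl fun k _ => ?_
          rw [Matrix.mul_diagonal]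
        simp only [e1]
        have e2 : ∀ i j, y i * (∑ k, (A' * P) i k * c k * P⁻¹ k j) * w j =
            ∑ k, y i * ((A' * P) i k * c k * P⁻¹ k j) * w j := by
          intro i j
          rw [Finset.mul_sum, Finset.sum_mul]
        simp only [e2]
        rw [Finset.sum_congr rfl (fun i _ => Finset.sum_comm), Finset.sum_comm]
        refine Finset.sum_congr rfl fun k _ => ?_
        rw [Finset.sum_mul_sum, Finset.mul_sum]
        refine Finset.sum_congr rfl fun i _ => ?_
        rw [Finset.mul_sum]
        refine Finset.sum_congr rfl fun j _ => ?_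
        ring
      refine h T ![s0 • u + t0 • v, s1 • u + t1 • v] η ω ⟨?_, ?_⟩ ?_ ?_
      · rw [LinearIndependent.pair_iff] at huv ⊢
        intro a b hab
        have h1 : (a * s0 + b * s1) • u + (a * t0 + b * t1) • v = 0 := by
          rw [← hab]
          module
        obtain ⟨h2, h3⟩ := huv _ _ h1
        constructor
        · have : a * (s1 * t0 - t1 * s0) = 0 := by linear_combination s1 * h3 - t1 * h2
          exact (mul_eq_zero.mp this).resolve_right hdet
        · have : b * (s1 * t0 - t1 * s0) = 0 := by linear_combination t0 * h2 - s0 * h3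
          exact (mul_eq_zero.mp this).resolve_right hdet
      · intro i
        fin_cases i
        · refine ⟨fun _ => 1, key _ _ ?_⟩
          show S_mat (T (s0 • u + t0 • v)) = _
          rw [S_pen0, Matrix.diagonal_one, Matrix.mul_one, Matrix.mul_assoc,
            Matrix.mul_nonsing_inv P hP, Matrix.mul_one]
        · refine ⟨t, key _ _ ?_⟩
          show S_mat (T (s1 • u + t1 • v)) = _
          rw [S_pen0, Matrix.mul_assoc A' P, ← hXP, Matrix.mul_assoc, Matrix.mul_assoc,
            Matrix.mul_nonsing_inv P hP, Matrix.mul_one, hAX]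
      · exact S_li_dual (A' * P) (by rw [Matrix.det_mul]; exact hAu.mul hP) η hη
      · refine S_li_dual (P⁻¹)ᵀ ?_ ω hω
        rw [Matrix.det_transpose]
        exact Matrix.isUnit_nonsing_inv_det P hP
    · refine ⟨s1 - z * s0, t1 - z * t0, s0, t0, ?_, fun y w => ?_⟩
      · intro h0
        apply hdet
        linear_combination h0
      · refine ⟨(Matrix.of y).det * A'.det * (Matrix.of w).det * a,
          (Matrix.of y).det * A'.det * (Matrix.of w).det * b,
          (Matrix.of y).det * A'.det * (Matrix.of w).det * c, fun ε => ?_⟩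
        rw [S_det']
        have e : (s1 - z * s0) • S_mat (T u) + (t1 - z * t0) • S_mat (T v) +
            ε • (s0 • S_mat (T u) + t0 • S_mat (T v)) =
            A' * (X - z • (1 : Matrix (Fin 4) (Fin 4) ℂ) +
              ε • (1 : Matrix (Fin 4) (Fin 4) ℂ)) := by
          rw [Matrix.mul_add, Matrix.mul_sub, hAX, Matrix.mul_smul, Matrix.mul_smul,
            Matrix.mul_one, hB', hA']
          module
        rw [e, Matrix.det_mul, hz ε]
        ring

end Pool.Agent.MR8
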