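import Pool.Agent.MR8.Defs

set_option autoImplicit false

namespace Pool.Agent.MR8

/-- Expansion of a trilinear form in three bases. -/
lemma STAR_expand {T : Tri} {t : Fin 4 → Fin 4 → Fin 4 → ℂ} (h : EN T t) :
    ∃ ξ η ω : Fin 4 → D, ∀ x y w, T x y w = ∑ i, ∑ j, ∑ k, ξ i x * η j y * ω k w * t i j k := by
  obtain ⟨x, y, w, hx, hy, hw, h⟩ := h
  have hc : Fintype.card (Fin 4) = Module.finrank ℂ V := by simp
  set bx := basisOfLinearIndependentOfCardEqFinrank hx hc with hbx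
  set by' := basisOfLinearIndependentOfCardEqFinrank hy hc with hby
  set bw := basisOfLinearIndependentOfCardEqFinrank hw hc with hbw
  have ex : ∀ i, bx i = x i := fun i => by
    rw [hbx, coe_basisOfLinearIndependentOfCardEqFinrank]
  have ey : ∀ i, by' i = y i := fun i => by
    rw [hby, coe_basisOfLinearIndependentOfCardEqFinrank]
  have ew : ∀ i, bw i = w i := fun i => by
    rw [hbw, coe_basisOfLinearIndependentOfCardEqFinrank]
  refine ⟨fun i => bx.coord i, fun i => by'.coord i, fun i => bw.coord i, fun X Y W => ?_⟩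
  conv_lhs => rw [← bx.sum_repr X, ← by'.sum_repr Y, ← bw.sum_repr W]
  simp only [map_sum, map_smul, LinearMap.sum_apply, LinearMap.smul_apply, smul_eq_mul,
    Finset.mul_sum, ex, ey, ew, h, Module.Basis.coord_apply]
  simp only [Fin.sum_univ_four]
  ring

/-- The explicit decomposition. -/
lemma STAR_eight {T : Tri} (X Y W : Fin 4 → D)
    (h : ∀ x y w, T x y w =
      X 0 x * Y 1 y * W 3 w + X 0 x * Y 3 y * W 2 w + X 1 x * Y 0 y * W 3 w +
      X 3 x * Y 0 y * W 1 w + X 2 x * Y 3 y * W 0 w + X 3 x * Y 2 y * W 0 w +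
      X 1 x * Y 3 y * W 1 w + X 3 x * Y 1 y * W 2 w + X 2 x * Y 2 y * W 3 w +
      X 1 x * Y 2 y * W 2 w + X 2 x * Y 1 y * W 1 w + 2 * (X 1 x * Y 3 y * W 2 w) +
      2 * (X 2 x * Y 3 y * W 1 w) + 2 * (X 2 x * Y 3 y * W 2 w)) : RK 8 T := by
  refine ⟨![(1 / 2 : ℂ) • X 1 + X 2 + (3 / 4 : ℂ) • X 3, (6 / 17 : ℂ) • X 1 + X 3, X 3, X 1,
      (3 / 4 : ℂ) • X 0 + (1 / 2 : ℂ) • X 1,
      (-3 / 8 : ℂ) • X 0 + (1 / 2 : ℂ) • X 1 + (1 / 2 : ℂ) • X 2,
      (-2 / 3 : ℂ) • X 2 - (2 : ℂ) • X 3, (1 / 2 : ℂ) • X 0 + (2 / 3 : ℂ) • X 2],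
    ![Y 1 + (2 : ℂ) • Y 3, Y 0 + (-3 / 4 : ℂ) • Y 1 + (-1 / 2 : ℂ) • Y 2,
      Y 2 + (-3 : ℂ) • Y 3, Y 0 + (2 / 3 : ℂ) • Y 1 + (-1 / 2 : ℂ) • Y 2,
      Y 2 + (4 / 3 : ℂ) • Y 3, (-4 / 3 : ℂ) • Y 1 + Y 2, Y 3, Y 1 + (3 / 4 : ℂ) • Y 2],
    ![W 1 + (4 / 3 : ℂ) • W 2, W 1, W 0 + (1 / 2 : ℂ) • W 1, (-6 / 17 : ℂ) • W 1 + W 3, W 2,
      W 2 + W 3, (-3 / 2 : ℂ) • W 0 + W 2, W 3 - W 2], fun x y w => ?_⟩
  rw [h]
  simp only [Fin.sum_univ_eight, Matrix.cons_val, LinearMap.add_apply, LinearMap.sub_apply,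
    LinearMap.smul_apply, smul_eq_mul]
  ring

theorem p_STAR : P_STAR := by
  intro T a b c d e f g ha hb hc hf hd hg hT
  obtain ⟨ξ, η, ω, h⟩ := STAR_expand hT
  have hc' : c = a * b / 2 := by linear_combination hc / 2
  have hf' : f = a * e / 2 := by linear_combination hf / 2
  have hd' : d = - (b * e) / 2 := by linear_combination hd / 2
  have hg' : g = - e ^ 2 / 4 := by linear_combination hg / 4
  subst hc' hf' hd' hg'
  have ha' : a = 2 ∨ a = -2 := by
    have : (a - 2) * (a + 2) = 0 := by linear_combination ha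
    rcases mul_eq_zero.mp this with h | h
    · exact Or.inl (by linear_combination h)
    · exact Or.inr (by linear_combination h)
  have hb' : b = 2 ∨ b = -2 := by
    have : (b - 2) * (b + 2) = 0 := by linear_combination hb
    rcases mul_eq_zero.mp this with h | h
    · exact Or.inl (by linear_combination h)
    · exact Or.inr (by linear_combination h)
  -- signs
  obtain ⟨p, hp, hp2⟩ : ∃ p : ℂ, a = 2 * p ∧ p ^ 2 = 1 := ⟨a / 2, by ring, by
    linear_combination ha / 4⟩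
  obtain ⟨q, hq, hq2⟩ : ∃ q : ℂ, b = 2 * q ∧ q ^ 2 = 1 := ⟨b / 2, by ring, by
    linear_combination hb / 4⟩
  refine STAR_eight
    ![q • ξ 0 + (p * q * e / 2) • ξ 3, (p * q) • ξ 1, p • ξ 2, ξ 3]
    ![(p * q) • η 0 + (p * q * e / 2) • (p • η 2) + (p * q * e) • η 3,
      q • η 1 + (p * q * e / 2) • η 3, p • η 2, η 3]
    ![p • ω 0 - (p * q * e / 2) • ((p * q) • ω 1), (p * q) • ω 1,
      q • ω 2 - (p * q * e / 2) • ω 3, ω 3] fun x y w => ?_
  rw [h]
  rcases ha' with ha' | ha' <;> rcases hb' with hb' | hb'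
  · have h1 : p = 1 := by linear_combination ha' / 2 - hp / 2
    have h2 : q = 1 := by linear_combination hb' / 2 - hq / 2
    subst h1 h2 ha' hb'
    simp only [Fin.sum_univ_four, tt, Matrix.cons_val, LinearMap.add_apply, LinearMap.sub_apply,
      LinearMap.smul_apply, smul_eq_mul]
    ring
  · have h1 : p = 1 := by linear_combination ha' / 2 - hp / 2
    have h2 : q = -1 := by linear_combination hb' / 2 - hq / 2
    subst h1 h2 ha' hb'
    simp only [Fin.sum_univ_four, tt, Matrix.cons_val, LinearMap.add_apply, LinearMap.sub_apply,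
      LinearMap.smul_apply, smul_eq_mul]
    ring
  · have h1 : p = -1 := by linear_combination ha' / 2 - hp / 2
    have h2 : q = 1 := by linear_combination hb' / 2 - hq / 2
    subst h1 h2 ha' hb'
    simp only [Fin.sum_univ_four, tt, Matrix.cons_val, LinearMap.add_apply, LinearMap.sub_apply,
      LinearMap.smul_apply, smul_eq_mul]
    ring
  · have h1 : p = -1 := by linear_combination ha' / 2 - hp / 2
    have h2 : q = -1 := by linear_combination hb' / 2 - hq / 2
    subst h1 h2 ha' hb'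
    simp only [Fin.sum_univ_four, tt, Matrix.cons_val, LinearMap.add_apply, LinearMap.sub_apply,
      LinearMap.smul_apply, smul_eq_mul]
    ring

end Pool.Agent.MR8
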