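import Pool.Agent.MR8.Defs

set_option autoImplicit false

/-!
# Jobs TRIP, PAIR of the project MR8
-/

namespace Pool.Agent.MR8

open Matrix

lemma TRIP_sw (T : Tri) (h : RK 8 (sw T)) : RK 8 T := by
  obtain ⟨α, β, γ, hr⟩ := h
  refine ⟨β, α, γ, fun x y w => ?_⟩
  rw [← sw_apply T x y w, hr]
  exact Finset.sum_congr rfl fun i _ => by ring

lemma TRIP_sv (T : Tri) (h : RK 8 (sv T)) : RK 8 T := by
  obtain ⟨α, β, γ, hr⟩ := h
  refine ⟨α, γ, β, fun x y w => ?_⟩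
  rw [← sv_apply T x y w, hr]
  exact Finset.sum_congr rfl fun i _ => by ring

/-- Two forms have two independent common zeros. -/
lemma TRIP_ker (ξ ξ' : D) : ∃ l0 l1 : V, LinearIndependent ℂ ![l0, l1] ∧
    ξ l0 = 0 ∧ ξ' l0 = 0 ∧ ξ l1 = 0 ∧ ξ' l1 = 0 := by
  set L : V →ₗ[ℂ] (ℂ × ℂ) := ξ.prod ξ' with hL
  have h1 := LinearMap.finrank_range_add_finrank_ker L
  have h2 : Module.finrank ℂ (LinearMap.range L) ≤ 2 := by
    have := Submodule.finrank_le (LinearMap.range L)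
    simpa using this
  have h3 : Module.finrank ℂ V = 4 := by simp
  have h4 : 1 < Module.finrank ℂ (LinearMap.ker L) := by omega
  have hnt : Nontrivial (LinearMap.ker L) := Module.nontrivial_of_finrank_pos (R := ℂ) (by omega)
  obtain ⟨x, hx⟩ := exists_ne (0 : LinearMap.ker L)
  obtain ⟨y, hxy⟩ := exists_linearIndependent_pair_of_one_lt_finrank h4 hx
  have hx' : (ξ x, ξ' x) = (0 : ℂ × ℂ) := x.2
  have hy' : (ξ y, ξ' y) = (0 : ℂ × ℂ) := y.2
  rw [Prod.mk_eq_zero] at hx' hy'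
  refine ⟨x, y, ?_, hx'.1, hx'.2, hy'.1, hy'.2⟩
  rw [LinearIndependent.pair_iff] at hxy ⊢
  intro s t hst
  exact hxy s t (Subtype.ext (by simpa using hst))

/-- The vector `q` obtained from `KP` for a last slice of rank two. -/
lemma TRIP_q (h1 : P_KP) (h2 : P_B3F) (T : Tri) (hT : ¬ RK 8 T) (w0 : V) (hw : w0 ≠ 0)
    (ξ υ ξ' υ' : D) (h : ∀ x y, T x y w0 = ξ x * υ y + ξ' x * υ' y) :
    ∃ q, q ≠ 0 ∧ Rk2 (T q) ∧ ∀ y, T q y w0 = 0 := by
  obtain ⟨l0, l1, hl, a0, a0', a1, a1'⟩ := TRIP_ker ξ ξ'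
  obtain ⟨P, hP, hB⟩ := h1 T hT l0 l1 w0 hl hw (fun y => by rw [h, a0, a0']; ring)
    (fun y => by rw [h, a1, a1']; ring)
  refine ⟨_, ?_, (h2 T w0 _ _ hB).1, hB.2.2.1⟩
  exact hB.1.ne_zero 1

lemma TRIP_bad_sw (T : Tri) (hT : ¬ RK 8 T) : ¬ RK 8 (sw T) := fun h => hT (TRIP_sw T h)

lemma TRIP_bad_sv (T : Tri) (hT : ¬ RK 8 T) : ¬ RK 8 (sv T) := fun h => hT (TRIP_sv T h)

theorem p_TRIP (h1 : P_KP) (h2 : P_B3F) (h3 : P_UNI) : P_TRIP := by
  intro T hT w0 hw hr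
  obtain ⟨ξ, υ, ξ', υ', h⟩ := id hr
  have h' : ∀ x y, T x y w0 = ξ x * υ y + ξ' x * υ' y := fun x y => by
    rw [← rt_apply, h]
  obtain ⟨x0, hx0, hx2, hxw⟩ := TRIP_q h1 h2 T hT w0 hw ξ υ ξ' υ' h'
  obtain ⟨y0, hy0, hy2, hyw⟩ := TRIP_q h1 h2 (sw T) (TRIP_bad_sw T hT) w0 hw υ ξ υ' ξ'
    (fun y x => by rw [sw_apply, h']; ring)
  -- the slice `T x0`
  obtain ⟨a, b, a', b', hab⟩ := id hx2
  have hT'' : ¬ RK 8 (sv (sw T)) := TRIP_bad_sv _ (TRIP_bad_sw T hT)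
  obtain ⟨q, hq0, hq2, hq⟩ := TRIP_q h1 h2 (sv (sw T)) hT'' x0 hx0 a b a' b'
    (fun y w => by rw [sv_apply, sw_apply, hab])
  have hq' : ∀ w, T x0 q w = 0 := fun w => by
    have := hq w
    rwa [sv_apply, sw_apply] at this
  have hq2' : Rk2 (sw T q) := by
    obtain ⟨c, d, c', d', hcd⟩ := hq2
    refine ⟨d, c, d', c', fun x w => ?_⟩
    have := hcd w x
    rw [sv_apply] at this
    rw [this]; ring
  have hdep : ¬ LinearIndependent ℂ ![y0, q] := fun hli =>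
    TRIP_bad_sw T hT (h3 (sw T) y0 q hli hy2 hq2')
  have hxy : ∀ w, T x0 y0 w = 0 := by
    rw [LinearIndependent.pair_iff] at hdep
    push Not at hdep
    obtain ⟨s, t, hst, hne⟩ := hdep
    have hs : s ≠ 0 := by
      intro hs
      rw [hs, zero_smul, zero_add] at hst
      rcases smul_eq_zero.1 hst with h0 | h0
      · exact hne hs h0
      · exact hq0 h0
    intro w
    have h5 : s * T x0 y0 w + t * T x0 q w = 0 := by
      have := congrArg (fun v => T x0 v w) hst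
      simpa using this
    rw [hq' w, mul_zero, add_zero] at h5
    exact (mul_eq_zero.1 h5).resolve_left hs
  exact ⟨x0, y0, hx0, hy0, hw, hx2, hy2, hr, hxy, hxw, fun x => by
    have := hyw x
    rwa [sw_apply] at this⟩

/-- The first two claims of the pair lemma. -/
lemma TRIP_pair (h1 : P_KP) (h2 : P_B3F) (T : Tri) (hT : ¬ RK 8 T) (x0 w0 a c : V)
    (hw : w0 ≠ 0) (hx2 : Rk2 (T x0)) (hxw : ∀ y, T x0 y w0 = 0)
    (ha : LinearIndependent ℂ ![x0, a]) (haw : ∀ y, T a y w0 = 0)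
    (hc : LinearIndependent ℂ ![w0, c]) (hxc : ∀ y, T x0 y c = 0) :
    (∃ y, T a y c ≠ 0) ∧ (∀ y, (∀ w, T x0 y w = 0) → T a y c = 0) := by
  obtain ⟨P, hP, hB⟩ := h1 T hT x0 a w0 ha hw hxw haw
  set p := P 0 0 • x0 + P 0 1 • a with hp
  set q := P 1 0 • x0 + P 1 1 • a with hq
  obtain ⟨hpq, hpw, hqw, -⟩ := id hB
  obtain ⟨-, hs, -, cs, hcs, hqcs, hne, ⟨c', hc'⟩, hker⟩ := h2 T w0 p q hB
  have hdet : P 0 0 * P 1 1 - P 0 1 * P 1 0 ≠ 0 := by
    have := hP.ne_zero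
    rwa [Matrix.det_fin_two] at this
  set δ := P 0 0 * P 1 1 - P 0 1 * P 1 0 with hδ
  have hx0 : x0 = (P 1 1 / δ) • p + (-(P 0 1) / δ) • q := by
    rw [hp, hq]
    have h1 : x0 = (1 : ℂ) • x0 + (0 : ℂ) • a := by simp
    rw [smul_add, smul_add, smul_smul, smul_smul, smul_smul, smul_smul]
    have e1 : P 1 1 / δ * P 0 0 + -(P 0 1) / δ * P 1 0 = 1 := by field_simp; rw [hδ]; ring
    have e2 : P 1 1 / δ * P 0 1 + -(P 0 1) / δ * P 1 1 = 0 := by ring
    calc x0 = (P 1 1 / δ * P 0 0 + -(P 0 1) / δ * P 1 0) • x0 +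
        (P 1 1 / δ * P 0 1 + -(P 0 1) / δ * P 1 1) • a := by rw [e1, e2]; simp
      _ = _ := by rw [add_smul, add_smul]; abel
  have hP11 : P 1 1 = 0 := by
    have h3 := hs (P 1 1 / δ) (-(P 0 1) / δ) (by rw [← hx0]; exact hx2)
    rcases div_eq_zero_iff.1 h3 with h4 | h4
    · exact h4
    · exact absurd h4 hdet
  have hqx : q = P 1 0 • x0 := by rw [hq, hP11, zero_smul, add_zero]
  have hP10 : P 1 0 ≠ 0 := by
    intro h; apply hdet; rw [hδ, hP11, h]; ring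
  have hP01 : P 0 1 ≠ 0 := by
    intro h; apply hdet; rw [hδ, hP11, h]; ring
  have hqc : ∀ y, T q y c = 0 := fun y => by rw [hqx]; simp [hxc]
  obtain ⟨u, v, huv⟩ := hker c hqc
  have hv : v ≠ 0 := by
    intro hv
    rw [LinearIndependent.pair_iff] at hc
    have := hc u (-1) (by rw [huv, hv]; simp)
    simpa using this.2
  have hpa : ∀ y, T a y c = (v / P 0 1) * T p y cs := by
    intro y
    have e1 : T p y c = P 0 1 * T a y c := by
      rw [hp]; simp [hxc]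
    have e2 : T p y c = v * T p y cs := by
      rw [huv]; simp [hpw]
    field_simp
    linear_combination e2 - e1
  constructor
  · obtain ⟨y, hy⟩ : ∃ y, T p y cs ≠ 0 := by
      by_contra hcon
      push Not at hcon
      apply hne
      apply LinearMap.ext
      intro y
      exact hcon y
    exact ⟨y, by rw [hpa]; exact mul_ne_zero (div_ne_zero hv hP01) hy⟩
  · intro y hy
    have e3 : T p y cs = T q y c' := by
      have := LinearMap.congr_fun hc' y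
      simpa [sv_apply] using this
    rw [hpa, e3, hqx]
    simp [hy]

theorem p_PAIR (h1 : P_KP) (h2 : P_B3F) : P_PAIR := by
  intro T hT x0 y0 w0 a c htr ha haw hc hxc
  obtain ⟨hx0, hy0, hw0, hx2, hy2, hw2, hxy, hxw, hyw⟩ := htr
  have h := TRIP_pair h1 h2 T hT x0 w0 a c hw0 hx2 hxw ha haw hc hxc
  refine ⟨h.1, h.2, ?_⟩
  have hT' : ¬ RK 8 (sv (rt T)) := TRIP_bad_sv _ (TRIP_bad_sw _ (TRIP_bad_sv _ hT))
  have hw2' : Rk2 (sv (rt T) w0) := by
    obtain ⟨ξ, υ, ξ', υ', h⟩ := hw2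
    refine ⟨υ, ξ, υ', ξ', fun y x => ?_⟩
    rw [sv_apply, h]; ring
  have h' := (TRIP_pair h1 h2 (sv (rt T)) hT' w0 x0 c a hx0 hw2'
    (fun y => by rw [sv_apply, rt_apply]; exact hxw y) hc
    (fun y => by rw [sv_apply, rt_apply]; exact hxc y) ha
    (fun y => by rw [sv_apply, rt_apply]; exact haw y)).2
  intro y hy
  have := h' y (fun x => by rw [sv_apply, rt_apply]; exact hy x)
  rwa [sv_apply, rt_apply] at this

end Pool.Agent.MR8
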