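import Pool.Agent.MR8.Defs

set_option autoImplicit false

/-!
# `mrank (4,4,4) ≤ 8`: facts about the remaining type of a kernel pencil, and two slices of rank
two in one direction
-/

namespace Pool.Agent.MR8

open Matrix

/-! ### Linear algebra -/

/-- four independent forms have no common zero -/
lemma UNI_ker {f : Fin 4 → D} (hf : LinearIndependent ℂ f) {y : V} (hy : ∀ i, f i y = 0) :
    y = 0 := by
  have hs : Submodule.span ℂ (Set.range f) = ⊤ := by
    refine hf.span_eq_top_of_card_eq_finrank' ?_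
    rw [Fintype.card_fin, Subspace.dual_finrank_eq, Module.finrank_fin_fun]
  rw [← Module.forall_dual_apply_eq_zero_iff ℂ]
  intro φ
  have hφ : φ ∈ Submodule.span ℂ (Set.range f) := by rw [hs]; trivial
  refine Submodule.span_induction (p := fun (g : D) _ => g y = 0) ?_ ?_ ?_ ?_ hφ
  · rintro _ ⟨i, rfl⟩
    exact hy i
  · simp
  · intro a b _ _ ha hb
    rw [LinearMap.add_apply, ha, hb, add_zero]
  · intro a b _ hb
    rw [LinearMap.smul_apply, hb, smul_zero]

/-- four forms without common zero are independent -/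
lemma UNI_li {f : Fin 4 → D} (h : ∀ y : V, (∀ i, f i y = 0) → y = 0) :
    LinearIndependent ℂ f := by
  have hinj : Function.Injective (LinearMap.pi f : V →ₗ[ℂ] (Fin 4 → ℂ)) := by
    rw [← LinearMap.ker_eq_bot, LinearMap.ker_eq_bot']
    intro y hy
    exact h y fun i => congrFun hy i
  have hsurj := LinearMap.injective_iff_surjective.1 hinj
  rw [Fintype.linearIndependent_iff]
  intro g hg j
  obtain ⟨y, hy⟩ := hsurj (Pi.single j 1)
  have h1 := LinearMap.congr_fun hg y
  rw [LinearMap.sum_apply, LinearMap.zero_apply] at h1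
  have h2 : ∀ i, f i y = (Pi.single j 1 : Fin 4 → ℂ) i := fun i => congrFun hy i
  simpa [h2, Pi.single_apply] using h1

/-- coordinates with respect to four independent vectors -/
lemma UNI_coord {b : Fin 4 → V} (hb : LinearIndependent ℂ b) :
    ∃ ω : Fin 4 → D, ∀ w, w = ∑ i, ω i w • b i := by
  set B := basisOfLinearIndependentOfCardEqFinrank hb (by simp) with hB
  refine ⟨fun i => B.coord i, fun w => ?_⟩
  have h1 := B.sum_repr w
  conv_lhs => rw [← h1]
  refine Finset.sum_congr rfl fun i _ => ?_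
  rw [hB, coe_basisOfLinearIndependentOfCardEqFinrank]
  rfl

/-- a nonzero vector orthogonal to two vectors of `ℂ³` -/
lemma UNI_orth (u v : Fin 3 → ℂ) : ∃ r : Fin 3 → ℂ, r ≠ 0 ∧ ∑ i, r i * u i = 0 ∧
    ∑ i, r i * v i = 0 := by
  have hdet : (Matrix.of ![u, v, 0] : Matrix (Fin 3) (Fin 3) ℂ).det = 0 :=
    Matrix.det_eq_zero_of_row_eq_zero 2 (fun j => by simp)
  obtain ⟨r, hr, h⟩ := Matrix.exists_mulVec_eq_zero_iff.2 hdet
  refine ⟨r, hr, ?_, ?_⟩
  · have := congrFun h 0
    simp only [Matrix.mulVec, dotProduct, Matrix.of_apply, Matrix.cons_val_zero,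
      Pi.zero_apply] at this
    rw [← this]
    exact Finset.sum_congr rfl fun i _ => mul_comm _ _
  · have := congrFun h 1
    simp only [Matrix.mulVec, dotProduct, Matrix.of_apply, Matrix.cons_val_one,
      Pi.zero_apply] at this
    rw [← this]
    exact Finset.sum_congr rfl fun i _ => mul_comm _ _

/-! ### The remaining type -/

theorem p_B3F : P_B3F := by
  intro T w0 p q h
  obtain ⟨_, hp0, hq0, c, hc, hqc0, hqc1, hli⟩ := h
  obtain ⟨ω, hω⟩ := UNI_coord hc
  have hw : ∀ w, w = ω 0 w • w0 + ω 1 w • c 0 + ω 2 w • c 1 + ω 3 w • c 2 := by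
    intro w
    have := hω w
    simpa [Fin.sum_univ_four] using this
  have hqc0' : ∀ y, T q y (c 0) = 0 := fun y => by
    have := LinearMap.congr_fun hqc0 y
    rwa [sv_apply] at this
  have hqc1' : ∀ y, T q y (c 1) = T p y (c 0) := fun y => by
    have := LinearMap.congr_fun hqc1 y
    rwa [sv_apply, sv_apply] at this
  have hTq : ∀ y w, T q y w = ω 2 w * T q y (c 1) + ω 3 w * T q y (c 2) := by
    intro y w
    conv_lhs => rw [hw w]
    simp only [map_add, map_smul, smul_eq_mul, hq0, hqc0']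
    ring
  have hTp : ∀ y w, T p y w = ω 1 w * T q y (c 1) + ω 2 w * T p y (c 1) +
      ω 3 w * T p y (c 2) := by
    intro y w
    conv_lhs => rw [hw w]
    simp only [map_add, map_smul, smul_eq_mul, hp0, ← hqc1']
    ring
  have hli' := Fintype.linearIndependent_iff.1 hli
  refine ⟨?_, ?_, ?_, ?_⟩
  · refine ⟨sv T q (c 1), ω 2, sv T q (c 2), ω 3, fun y w => ?_⟩
    rw [hTq, sv_apply, sv_apply]
    ring
  · rintro s t ⟨ξ, υ, ξ', υ', hB⟩
    by_contra hs
    obtain ⟨r, hr, hr1, hr2⟩ := UNI_orth (fun i => υ (c i)) (fun i => υ' (c i))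
    have key : ∀ y, (r 0 * s + r 1 * t) * T q y (c 1) + (r 2 * t) * T q y (c 2) +
        (r 1 * s) * T p y (c 1) + (r 2 * s) * T p y (c 2) = 0 := by
      intro y
      have e1 : ∑ i, r i * T (s • p + t • q) y (c i) = 0 := by
        have e2 : ∀ i, r i * T (s • p + t • q) y (c i) =
            ξ y * (r i * υ (c i)) + ξ' y * (r i * υ' (c i)) := fun i => by
          rw [hB]
          ring
        rw [Finset.sum_congr rfl fun i _ => e2 i, Finset.sum_add_distrib, ← Finset.mul_sum,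
          ← Finset.mul_sum, hr1, hr2]
        ring
      simp only [map_add, map_smul, LinearMap.add_apply, LinearMap.smul_apply, smul_eq_mul,
        Fin.sum_univ_three, hqc0', ← hqc1'] at e1
      linear_combination e1
    have h0 := hli' ![r 0 * s + r 1 * t, r 2 * t, r 1 * s, r 2 * s] (by
      refine LinearMap.ext fun y => ?_
      simp only [Fin.sum_univ_four, LinearMap.add_apply, LinearMap.smul_apply, smul_eq_mul,
        LinearMap.zero_apply]
      simpa [sv_apply] using key y)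
    have a0 := h0 0
    have a2 := h0 2
    have a3 := h0 3
    simp only [Matrix.cons_val_zero, Matrix.cons_val] at a0 a2 a3
    have b1 : r 1 = 0 := (mul_eq_zero.1 a2).resolve_right hs
    have b2 : r 2 = 0 := (mul_eq_zero.1 a3).resolve_right hs
    rw [b1, zero_mul, add_zero] at a0
    have b0 : r 0 = 0 := (mul_eq_zero.1 a0).resolve_right hs
    refine hr (funext fun i => ?_)
    fin_cases i
    · exact b0
    · exact b1
    · exact b2
  · intro y h1 h2
    refine UNI_ker hli fun i => ?_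
    fin_cases i
    · exact h2 (c 1)
    · exact h2 (c 2)
    · exact h1 (c 1)
    · exact h1 (c 2)
  · refine ⟨c 0, ?_, hqc0', ?_, ⟨c 1, hqc1.symm⟩, ?_⟩
    · have h1 := hc.comp ![0, 1] (by decide)
      convert h1 using 1
      funext i
      fin_cases i <;> rfl
    · rw [← hqc1]
      exact hli.ne_zero 0
    · intro w hw0
      have h0 := hli' ![ω 2 w, ω 3 w, 0, 0] (by
        refine LinearMap.ext fun y => ?_
        have h1 := hw0 y
        rw [hTq] at h1
        simpa [Fin.sum_univ_four, sv_apply] using h1)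
      have a0 := h0 0
      have a1 := h0 1
      simp only [Matrix.cons_val_zero, Matrix.cons_val_one] at a0 a1
      refine ⟨ω 0 w, ω 1 w, ?_⟩
      conv_lhs => rw [hw w]
      rw [a0, a1]
      simp

/-! ### Two slices of rank two -/

lemma UNI_RK_sv {r : ℕ} {T : Tri} (h : RK r (sv T)) : RK r T := by
  obtain ⟨α, β, γ, h⟩ := h
  refine ⟨α, γ, β, fun x y w => ?_⟩
  rw [← sv_apply, h]
  exact Finset.sum_congr rfl fun i _ => by ring

/-- a common kernel vector in the last argument -/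
lemma UNI_case (h1 : P_KP) (h2 : P_B3F) (T : Tri) (hT : ¬ RK 8 T) (x x' w : V)
    (hx : LinearIndependent ℂ ![x, x']) (hw : w ≠ 0) (hr : Rk2 (T x)) (hr' : Rk2 (T x'))
    (h : ∀ y, T x y w = 0) (h' : ∀ y, T x' y w = 0) : False := by
  obtain ⟨P, hP, hB⟩ := h1 T hT x x' w hx hw h h'
  obtain ⟨-, hs, -, -⟩ := h2 T w _ _ hB
  have hinv : P⁻¹ * P = 1 := Matrix.nonsing_inv_mul P hP
  have e : ∀ i j, ∑ k, P⁻¹ i k * P k j = (1 : Matrix (Fin 2) (Fin 2) ℂ) i j := fun i j => by
    rw [← hinv, Matrix.mul_apply]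
  have e00 := e 0 0
  have e01 := e 0 1
  have e10 := e 1 0
  have e11 := e 1 1
  simp only [Fin.sum_univ_two, Matrix.one_apply, if_true] at e00 e01 e10 e11
  norm_num at e01 e10
  set p := P 0 0 • x + P 0 1 • x' with hp
  set q := P 1 0 • x + P 1 1 • x' with hq
  have f0 : P⁻¹ 0 0 • p + P⁻¹ 0 1 • q = x := by
    rw [hp, hq]
    have : P⁻¹ 0 0 • (P 0 0 • x + P 0 1 • x') + P⁻¹ 0 1 • (P 1 0 • x + P 1 1 • x') =
        (P⁻¹ 0 0 * P 0 0 + P⁻¹ 0 1 * P 1 0) • x + (P⁻¹ 0 0 * P 0 1 + P⁻¹ 0 1 * P 1 1) • x' := by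
      module
    rw [this, e00, e01, one_smul, zero_smul, add_zero]
  have f1 : P⁻¹ 1 0 • p + P⁻¹ 1 1 • q = x' := by
    rw [hp, hq]
    have : P⁻¹ 1 0 • (P 0 0 • x + P 0 1 • x') + P⁻¹ 1 1 • (P 1 0 • x + P 1 1 • x') =
        (P⁻¹ 1 0 * P 0 0 + P⁻¹ 1 1 * P 1 0) • x + (P⁻¹ 1 0 * P 0 1 + P⁻¹ 1 1 * P 1 1) • x' := by
      module
    rw [this, e10, e11, one_smul, zero_smul, zero_add]
  have g0 := hs (P⁻¹ 0 0) (P⁻¹ 0 1) (by rw [f0]; exact hr)
  have g1 := hs (P⁻¹ 1 0) (P⁻¹ 1 1) (by rw [f1]; exact hr')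
  rw [g0, zero_mul, zero_add] at e00 e01
  rw [g1, zero_mul, zero_add] at e10 e11
  have h3 : P⁻¹ 0 1 ≠ 0 := by
    intro h0
    rw [h0, zero_mul] at e00
    exact zero_ne_one e00
  have h4 : P 1 1 = 0 := (mul_eq_zero.1 e01).resolve_left h3
  rw [h4, mul_zero] at e11
  exact zero_ne_one e11

theorem p_UNI (h1 : P_KP) (h2 : P_B3F) (h3 : P_KK) : P_UNI := by
  intro T x x' hx hr hr'
  by_contra hT
  by_cases hA : ∃ y, y ≠ 0 ∧ (∀ w, T x y w = 0) ∧ ∀ w, T x' y w = 0
  · obtain ⟨y, hy, h, h'⟩ := hA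
    refine UNI_case h1 h2 (sv T) (fun hR => hT (UNI_RK_sv hR)) x x' y hx hy ?_ ?_
      (fun w => h w) (fun w => h' w)
    · obtain ⟨ξ, υ, ξ', υ', hB⟩ := hr
      refine ⟨υ, ξ, υ', ξ', fun w y => ?_⟩
      rw [sv_apply, hB]
      ring
    · obtain ⟨ξ, υ, ξ', υ', hB⟩ := hr'
      refine ⟨υ, ξ, υ', ξ', fun w y => ?_⟩
      rw [sv_apply, hB]
      ring
  by_cases hB : ∃ w, w ≠ 0 ∧ (∀ y, T x y w = 0) ∧ ∀ y, T x' y w = 0
  · obtain ⟨w, hw, h, h'⟩ := hB
    exact UNI_case h1 h2 T hT x x' w hx hw hr hr' h h'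
  obtain ⟨η0, ω0, η1, ω1, e0⟩ := hr
  obtain ⟨η2, ω2, η3, ω3, e1⟩ := hr'
  refine hT (h3 T ![x, x'] ![η0, η1, η2, η3] ![ω0, ω1, ω2, ω3] ⟨hx, fun i => ?_⟩ ?_ ?_)
  · fin_cases i
    · refine ⟨![1, 1, 0, 0], fun y w => ?_⟩
      have := e0 y w
      simpa [Fin.sum_univ_four] using this
    · refine ⟨![0, 0, 1, 1], fun y w => ?_⟩
      have := e1 y w
      simpa [Fin.sum_univ_four] using this
  · refine UNI_li fun y hy => ?_
    by_contra hy0
    have a0 := hy 0
    have a1 := hy 1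
    have a2 := hy 2
    have a3 := hy 3
    simp only [Matrix.cons_val_zero, Matrix.cons_val_one, Matrix.cons_val] at a0 a1 a2 a3
    refine hA ⟨y, hy0, fun w => ?_, fun w => ?_⟩
    · rw [e0, a0, a1]
      ring
    · rw [e1, a2, a3]
      ring
  · refine UNI_li fun w hw => ?_
    by_contra hw0
    have a0 := hw 0
    have a1 := hw 1
    have a2 := hw 2
    have a3 := hw 3
    simp only [Matrix.cons_val_zero, Matrix.cons_val_one, Matrix.cons_val] at a0 a1 a2 a3
    refine hB ⟨w, hw0, fun y => ?_, fun y => ?_⟩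
    · rw [e0, a0, a1]
      ring
    · rw [e1, a2, a3]
      ring

end Pool.Agent.MR8
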