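import Pool.Agent.MR8.Defs

set_option autoImplicit false

/-!
# MR8, block Z: a zero block `2 × 2 × 4`
-/

namespace Pool.Agent.MR8

open Matrix

lemma Z_RK_sw {r : ℕ} {T : Tri} (h : RK r (sw T)) : RK r T := by
  obtain ⟨α, β, γ, h⟩ := h
  refine ⟨β, α, γ, fun x y w => ?_⟩
  have := h y x w
  rw [sw_apply] at this
  rw [this]
  exact Finset.sum_congr rfl fun i _ => by ring

lemma Z_RK_rt {r : ℕ} {T : Tri} (h : RK r (rt T)) : RK r T := by
  obtain ⟨α, β, γ, h⟩ := h
  refine ⟨β, γ, α, fun x y w => ?_⟩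
  have := h w x y
  rw [rt_apply] at this
  rw [this]
  exact Finset.sum_congr rfl fun i _ => by ring

/-- Completion of two vectors to a basis. -/
lemma Z_complete (x : Fin 2 → V) (hx : LinearIndependent ℂ x) :
    ∃ X : Fin 4 → V, LinearIndependent ℂ X ∧ X 0 = x 0 ∧ X 1 = x 1 := by
  obtain ⟨a, ha⟩ := exists_linearIndependent_snoc_of_lt_finrank hx
    (by simp [Module.finrank_fin_fun])
  obtain ⟨b, hb⟩ := exists_linearIndependent_snoc_of_lt_finrank ha
    (by simp [Module.finrank_fin_fun])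
  exact ⟨_, hb, rfl, rfl⟩

/-- The product of three linear forms. -/
def Z_prod (α β γ : D) : Tri := α.smulRight (β.smulRight γ)

lemma Z_prod_apply (α β γ : D) (x y w : V) : Z_prod α β γ x y w = α x * β y * γ w := by
  simp [Z_prod, mul_assoc]

/-- Dual coordinates. -/
lemma Z_dual (X : Fin 4 → V) (hX : LinearIndependent ℂ X) :
    ∃ e : Fin 4 → D, (∀ i j, e i (X j) = if i = j then 1 else 0) ∧
      ∀ z, z = ∑ i, e i z • X i := by
  let b := basisOfLinearIndependentOfCardEqFinrank hX (by simp [Module.finrank_fin_fun])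
  have hb : ∀ i, b i = X i := fun i => by simp [b]
  refine ⟨fun i => b.coord i, fun i j => ?_, fun z => ?_⟩
  · rw [← hb j, Module.Basis.coord_apply, Module.Basis.repr_self, Finsupp.single_apply]
    simp only [eq_comm]
  · conv_lhs => rw [← b.sum_repr z]
    exact Finset.sum_congr rfl fun i _ => by rw [hb, Module.Basis.coord_apply]

/-- Change of two vectors of a basis by an invertible matrix (first two). -/
lemma Z_LI1 (X : Fin 4 → V) (hX : LinearIndependent ℂ X) (P : Matrix (Fin 2) (Fin 2) ℂ)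
    (hP : IsUnit P.det) :
    LinearIndependent ℂ ![P 0 0 • X 0 + P 0 1 • X 1, P 1 0 • X 0 + P 1 1 • X 1, X 2, X 3] := by
  have hd : P 0 0 * P 1 1 - P 0 1 * P 1 0 ≠ 0 := by
    have := hP.ne_zero
    rwa [Matrix.det_fin_two] at this
  rw [Fintype.linearIndependent_iff] at hX ⊢
  intro g hg
  have h1 : ∑ i, (![g 0 * P 0 0 + g 1 * P 1 0, g 0 * P 0 1 + g 1 * P 1 1, g 2, g 3] i) • X i
      = 0 := by
    rw [← hg]
    simp only [Fin.sum_univ_four, Matrix.cons_val_zero, Matrix.cons_val_one, Matrix.cons_val]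
    module
  have h2 := hX _ h1
  have h0 := h2 0
  have h1' := h2 1
  have h2' := h2 2
  have h3' := h2 3
  simp only [Matrix.cons_val_zero, Matrix.cons_val_one, Matrix.cons_val] at h0 h1' h2' h3'
  have hg0 : g 0 = 0 := by
    have : g 0 * (P 0 0 * P 1 1 - P 0 1 * P 1 0) = 0 := by
      linear_combination P 1 1 * h0 - P 1 0 * h1'
    exact (mul_eq_zero.1 this).resolve_right hd
  have hg1 : g 1 = 0 := by
    have : g 1 * (P 0 0 * P 1 1 - P 0 1 * P 1 0) = 0 := by
      linear_combination P 0 0 * h1' - P 0 1 * h0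
    exact (mul_eq_zero.1 this).resolve_right hd
  intro i
  fin_cases i
  · exact hg0
  · exact hg1
  · exact h2'
  · exact h3'

/-- The same for the last two vectors. -/
lemma Z_LI2 (X : Fin 4 → V) (hX : LinearIndependent ℂ X) (P : Matrix (Fin 2) (Fin 2) ℂ)
    (hP : IsUnit P.det) :
    LinearIndependent ℂ ![X 0, X 1, P 0 0 • X 2 + P 0 1 • X 3, P 1 0 • X 2 + P 1 1 • X 3] := by
  have hd : P 0 0 * P 1 1 - P 0 1 * P 1 0 ≠ 0 := by
    have := hP.ne_zero
    rwa [Matrix.det_fin_two] at this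
  rw [Fintype.linearIndependent_iff] at hX ⊢
  intro g hg
  have h1 : ∑ i, (![g 0, g 1, g 2 * P 0 0 + g 3 * P 1 0, g 2 * P 0 1 + g 3 * P 1 1] i) • X i
      = 0 := by
    rw [← hg]
    simp only [Fin.sum_univ_four, Matrix.cons_val_zero, Matrix.cons_val_one, Matrix.cons_val]
    module
  have h2 := hX _ h1
  have h0 := h2 0
  have h1' := h2 1
  have h2' := h2 2
  have h3' := h2 3
  simp only [Matrix.cons_val_zero, Matrix.cons_val_one, Matrix.cons_val] at h0 h1' h2' h3'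
  have hg0 : g 2 = 0 := by
    have : g 2 * (P 0 0 * P 1 1 - P 0 1 * P 1 0) = 0 := by
      linear_combination P 1 1 * h2' - P 1 0 * h3'
    exact (mul_eq_zero.1 this).resolve_right hd
  have hg1 : g 3 = 0 := by
    have : g 3 * (P 0 0 * P 1 1 - P 0 1 * P 1 0) = 0 := by
      linear_combination P 0 0 * h3' - P 0 1 * h2'
    exact (mul_eq_zero.1 this).resolve_right hd
  intro i
  fin_cases i
  · exact h0
  · exact h1'
  · exact hg0
  · exact hg1

/-- A nonzero common zero of two linear forms. -/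
lemma Z_common (a b : D) : ∃ w : V, w ≠ 0 ∧ a w = 0 ∧ b w = 0 := by
  let f : V →ₗ[ℂ] (Fin 2 → ℂ) := LinearMap.pi ![a, b]
  have hf : ∃ w ∈ LinearMap.ker f, w ≠ 0 := by
    refine (Submodule.ne_bot_iff _).1 (LinearMap.ker_ne_bot_of_finrank_lt ?_)
    simp [Module.finrank_fin_fun]
  obtain ⟨w, hw, hw0⟩ := hf
  rw [LinearMap.mem_ker] at hw
  refine ⟨w, hw0, ?_, ?_⟩
  · exact congrFun hw 0
  · exact congrFun hw 1

/-- The rank two case. -/
lemma Z_rank2 (h7 : P_PEN6) (T : Tri) (x y : Fin 4 → V) (hz : ZB T x y)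
    (u v : Fin 2 → Fin 2 → ℂ) (g : Fin 2 → D)
    (h00 : T (x 0) (y 2) = ∑ s, (u s 0 * v s 0) • g s)
    (h01 : T (x 0) (y 3) = ∑ s, (u s 0 * v s 1) • g s)
    (h10 : T (x 1) (y 2) = ∑ s, (u s 1 * v s 0) • g s)
    (h11 : T (x 1) (y 3) = ∑ s, (u s 1 * v s 1) • g s) : RK 8 T := by
  obtain ⟨hx, hy, hz⟩ := hz
  obtain ⟨ex, hex, -⟩ := Z_dual x hx
  obtain ⟨ey, -, hey⟩ := Z_dual y hy
  have hl : LinearIndependent ℂ (fun i : Fin 2 => x (Fin.castLE (by norm_num) i)) :=
    hx.comp _ (Fin.castLE_injective _)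
  let α : Fin 2 → D := fun s => u s 0 • ex 0 + u s 1 • ex 1
  let β : Fin 2 → D := fun s => v s 0 • ey 2 + v s 1 • ey 3
  have key := h7 T (∑ s, Z_prod (α s) (β s) (g s)) _ hl 2
    ⟨α, β, g, fun a b c => by simp [LinearMap.sum_apply, Z_prod_apply]⟩ ?_
  · exact key
  · have h0 : ∀ z w, T (x 0) z w = ey 2 z * T (x 0) (y 2) w + ey 3 z * T (x 0) (y 3) w := by
      intro z w
      conv_lhs => rw [hey z]
      simp only [Fin.sum_univ_four, map_add, map_smul, LinearMap.add_apply,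
        LinearMap.smul_apply, smul_eq_mul, (hz w).1, (hz w).2.1]
      ring
    have h1 : ∀ z w, T (x 1) z w = ey 2 z * T (x 1) (y 2) w + ey 3 z * T (x 1) (y 3) w := by
      intro z w
      conv_lhs => rw [hey z]
      simp only [Fin.sum_univ_four, map_add, map_smul, LinearMap.add_apply,
        LinearMap.smul_apply, smul_eq_mul, (hz w).2.2.1, (hz w).2.2.2]
      ring
    intro i z w
    fin_cases i
    · change T (x 0) z w = _
      rw [h0, h00, h01]
      change _ = (∑ s, Z_prod (α s) (β s) (g s)) (x 0) z w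
      simp only [LinearMap.sum_apply, Z_prod_apply, α, β, Fin.sum_univ_two,
        LinearMap.add_apply, LinearMap.smul_apply, smul_eq_mul, hex]
      simp
      ring
    · change T (x 1) z w = _
      rw [h1, h10, h11]
      change _ = (∑ s, Z_prod (α s) (β s) (g s)) (x 1) z w
      simp only [LinearMap.sum_apply, Z_prod_apply, α, β, Fin.sum_univ_two,
        LinearMap.add_apply, LinearMap.smul_apply, smul_eq_mul, hex]
      simp
      ring

/-- The third normal form. -/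
lemma Z_third (h5 : P_ZW1) (h6 : P_ZW2) (h7 : P_PEN6) (h8 : P_ZERO) (T : Tri)
    (x y : Fin 4 → V) (hz : ZB T x y) (hs : T (x 0) (y 3) = T (x 1) (y 2))
    (h0 : T (x 1) (y 3) = 0) (hl : LinearIndependent ℂ ![T (x 0) (y 2), T (x 0) (y 3)]) :
    RK 8 T := by
  by_contra hbad
  have hW2 := h6 T hbad x y hz hs h0 hl
  obtain ⟨w, hw, ha, hb⟩ := Z_common (T (x 0) (y 2)) (T (x 0) (y 3))
  by_cases hzero : ∀ x' z, T x' z w = 0
  · exact hbad (Z_RK_rt (h8 (rt T) w hw fun a b => by rw [rt_apply]; exact hzero a b))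
  · push Not at hzero
    obtain ⟨x1, z, hne⟩ := hzero
    obtain ⟨ey, hey, -⟩ := Z_dual y hz.2.1
    have hly : LinearIndependent ℂ (fun i : Fin 2 => y (Fin.castLE (by norm_num) i)) :=
      hz.2.1.comp _ (Fin.castLE_injective _)
    let ζ : D := (rt T) w |>.flip z
    have hζ : ∀ a, ζ a = T a z w := fun a => rfl
    let β : Fin 2 → D := fun j => (T x1 z w)⁻¹ • T x1 (y (Fin.castLE (by norm_num) j))
    refine hbad (Z_RK_sw (h7 (sw T) (∑ j : Fin 2,
      Z_prod (ey (Fin.castLE (by norm_num) j)) ζ (β j)) _ hly 2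
      ⟨fun j => ey (Fin.castLE (by norm_num) j), fun _ => ζ, β,
        fun a b c => by simp [LinearMap.sum_apply, Z_prod_apply]⟩ ?_))
    intro i a v
    have key := hW2 w ha hb a x1 z v
    have e1 : ∀ j : Fin 2, sw T (y (Fin.castLE (by norm_num) j)) a v
        = ζ a * β j v := by
      intro j
      rw [sw_apply]
      fin_cases j
      · change T a (y 0) v = ζ a * ((T x1 z w)⁻¹ * T x1 (y 0) v)
        rw [hζ]
        field_simp
        linear_combination key.1
      · change T a (y 1) v = ζ a * ((T x1 z w)⁻¹ * T x1 (y 1) v)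
        rw [hζ]
        field_simp
        linear_combination key.2
    rw [e1]
    simp only [LinearMap.sum_apply, Z_prod_apply, Fin.sum_univ_two, hey]
    fin_cases i <;> simp [Z_prod_apply, hey]

/-- A bad form has an independent off-diagonal block. -/
lemma Z_block (h1 : P_F22) (h3 : P_ZSYM) (h4 : P_ZHOOK) (h5 : P_ZW1) (h6 : P_ZW2)
    (h7 : P_PEN6) (h8 : P_ZERO) (T : Tri) (x y : Fin 4 → V) (hz : ZB T x y)
    (hbad : ¬ RK 8 T) :
    LinearIndependent ℂ ![T (x 0) (y 2), T (x 0) (y 3), T (x 1) (y 2), T (x 1) (y 3)] := by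
  rcases h1 ![![T (x 0) (y 2), T (x 0) (y 3)], ![T (x 1) (y 2), T (x 1) (y 3)]] with
    h | ⟨u, v, g, h⟩ | ⟨P, Q, hP, hQ, b, hb, h⟩
  · simpa using h
  · exact absurd (Z_rank2 h7 T x y hz u v g (h 0 0) (h 0 1) (h 1 0) (h 1 1)) hbad
  · exfalso
    apply hbad
    let X : Fin 4 → V := ![P 0 0 • x 0 + P 0 1 • x 1, P 1 0 • x 0 + P 1 1 • x 1, x 2, x 3]
    let Y : Fin 4 → V := ![y 0, y 1, Q 0 0 • y 2 + Q 0 1 • y 3, Q 1 0 • y 2 + Q 1 1 • y 3]
    have hZ : ZB T X Y := by
      refine ⟨Z_LI1 x hz.1 P hP, Z_LI2 y hz.2.1 Q hQ, fun w => ?_⟩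
      obtain ⟨z1, z2, z3, z4⟩ := hz.2.2 w
      refine ⟨?_, ?_, ?_, ?_⟩
      · change T (P 0 0 • x 0 + P 0 1 • x 1) (y 0) w = 0
        simp [z1, z3]
      · change T (P 0 0 • x 0 + P 0 1 • x 1) (y 1) w = 0
        simp [z2, z4]
      · change T (P 1 0 • x 0 + P 1 1 • x 1) (y 0) w = 0
        simp [z1, z3]
      · change T (P 1 0 • x 0 + P 1 1 • x 1) (y 1) w = 0
        simp [z2, z4]
    have e00 : T (X 0) (Y 2) = b 0 0 := by
      rw [hb]
      change T (P 0 0 • x 0 + P 0 1 • x 1) (Q 0 0 • y 2 + Q 0 1 • y 3) = _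
      refine LinearMap.ext fun w => ?_
      simp [Fin.sum_univ_two]
      ring
    have e01 : T (X 0) (Y 3) = b 0 1 := by
      rw [hb]
      change T (P 0 0 • x 0 + P 0 1 • x 1) (Q 1 0 • y 2 + Q 1 1 • y 3) = _
      refine LinearMap.ext fun w => ?_
      simp [Fin.sum_univ_two]
      ring
    have e10 : T (X 1) (Y 2) = b 1 0 := by
      rw [hb]
      change T (P 1 0 • x 0 + P 1 1 • x 1) (Q 0 0 • y 2 + Q 0 1 • y 3) = _
      refine LinearMap.ext fun w => ?_
      simp [Fin.sum_univ_two]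
      ring
    have e11 : T (X 1) (Y 3) = b 1 1 := by
      rw [hb]
      change T (P 1 0 • x 0 + P 1 1 • x 1) (Q 1 0 • y 2 + Q 1 1 • y 3) = _
      refine LinearMap.ext fun w => ?_
      simp [Fin.sum_univ_two]
      ring
    rcases h with ⟨hs, hl⟩ | ⟨h0, hl⟩ | ⟨hs, h0, hl⟩
    · exact h3 T X Y hZ (by rw [e01, e10, hs]) (by rw [e00, e01, e11]; exact hl)
    · exact h4 T X Y hZ (by rw [e11, h0]) (by rw [e00, e01, e10]; exact hl)
    · exact Z_third h5 h6 h7 h8 T X Y hZ (by rw [e01, e10, hs]) (by rw [e11, h0])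
        (by rw [e00, e01]; exact hl)

theorem p_Z (h1 : P_F22) (h2 : P_Z4) (h3 : P_ZSYM) (h4 : P_ZHOOK) (h5 : P_ZW1) (h6 : P_ZW2)
    (h7 : P_PEN6) (h8 : P_ZERO) : P_Z := by
  intro T x y hx hy hz
  by_contra hbad
  obtain ⟨X, hX, hX0, hX1⟩ := Z_complete x hx
  obtain ⟨Y, hY, hY0, hY1⟩ := Z_complete y hy
  have hZB : ZB T X Y := by
    refine ⟨hX, hY, fun w => ?_⟩
    rw [hX0, hX1, hY0, hY1]
    exact ⟨hz 0 0 w, hz 0 1 w, hz 1 0 w, hz 1 1 w⟩
  have hZB' : ZB (sw T) Y X := by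
    refine ⟨hY, hX, fun w => ?_⟩
    obtain ⟨z1, z2, z3, z4⟩ := hZB.2.2 w
    exact ⟨z1, z3, z2, z4⟩
  have b1 := Z_block h1 h3 h4 h5 h6 h7 h8 T X Y hZB hbad
  have b2 := Z_block h1 h3 h4 h5 h6 h7 h8 (sw T) Y X hZB' (fun h => hbad (Z_RK_sw h))
  refine hbad (h2 T X Y hZB b1 ?_)
  have hperm := b2.comp ![0, 2, 1, 3] (by decide)
  convert hperm using 1
  funext i
  fin_cases i <;> rfl

end Pool.Agent.MR8
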