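import Pool.Agent.MR8.Defs

set_option autoImplicit false

namespace Pool.Agent.MR8

open Matrix

/-- A basis of the dual space and its dual basis. -/
lemma Z4_dual (ω : Fin 4 → D) (hω : LinearIndependent ℂ ω) :
    ∃ e : Fin 4 → V, (∀ i j, ω i (e j) = if i = j then 1 else 0) ∧
      ∀ (f : D) (w : V), f w = ∑ i, f (e i) * ω i w := by
  classical
  have hcard : Fintype.card (Fin 4) = Module.finrank ℂ (Module.Dual ℂ V) := by
    rw [Subspace.dual_finrank_eq]
    simp
  let b : Module.Basis (Fin 4) ℂ (Module.Dual ℂ V) :=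
    basisOfLinearIndependentOfCardEqFinrank hω hcard
  have hb : ∀ i, b i = ω i := fun i => by
    simp [b]
  refine ⟨fun j => (Module.evalEquiv ℂ V).symm (b.coord j), ?_, ?_⟩
  · intro i j
    have h1 : ω i ((Module.evalEquiv ℂ V).symm (b.coord j)) = b.coord j (ω i) :=
      Module.apply_evalEquiv_symm_apply ℂ V (ω i) (b.coord j)
    rw [h1, ← hb i, Module.Basis.coord_apply, Module.Basis.repr_self, Finsupp.single_apply]
  · intro f w
    have h2 : ∀ i, f ((Module.evalEquiv ℂ V).symm (b.coord i)) = b.repr f i := fun i => by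
      rw [Module.apply_evalEquiv_symm_apply ℂ V f (b.coord i),
        Module.Basis.coord_apply]
    have h3 : f = ∑ i, b.repr f i • ω i := by
      conv_lhs => rw [← b.sum_repr f]
      exact Finset.sum_congr rfl fun i _ => by rw [hb i]
    calc f w = (∑ i, b.repr f i • ω i) w := by rw [← h3]
      _ = ∑ i, f ((Module.evalEquiv ℂ V).symm (b.coord i)) * ω i w := by
        rw [LinearMap.sum_apply]
        exact Finset.sum_congr rfl fun i _ => by
          rw [h2 i, LinearMap.smul_apply, smul_eq_mul]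

/-- Coordinate forms of a basis. -/
lemma Z4_coord (y : Fin 4 → V) (hy : LinearIndependent ℂ y) :
    ∃ φ : Fin 4 → D, (∀ i j, φ i (y j) = if i = j then 1 else 0) ∧
      ∀ v : V, v = ∑ i, φ i v • y i := by
  classical
  have hcard : Fintype.card (Fin 4) = Module.finrank ℂ V := by simp
  let b : Module.Basis (Fin 4) ℂ V := basisOfLinearIndependentOfCardEqFinrank hy hcard
  have hb : ∀ i, b i = y i := fun i => by
    simp [b]
  refine ⟨fun i => b.coord i, ?_, ?_⟩
  · intro i j
    rw [← hb j, Module.Basis.coord_apply, Module.Basis.repr_self, Finsupp.single_apply]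
    simp only [eq_comm]
  · intro v
    conv_lhs => rw [← b.sum_repr v]
    exact Finset.sum_congr rfl fun i _ => by rw [hb i, Module.Basis.coord_apply]

lemma Z4_pair (α β : D) (u v : V) (h : α u * β v - α v * β u ≠ 0) :
    LinearIndependent ℂ ![α, β] := by
  rw [LinearIndependent.pair_iff]
  intro s t hst
  have h1 : s * α u + t * β u = 0 := by
    have := congrArg (fun f : D => f u) hst
    simpa using this
  have h2 : s * α v + t * β v = 0 := by
    have := congrArg (fun f : D => f v) hst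
    simpa using this
  constructor
  · have : s * (α u * β v - α v * β u) = 0 := by linear_combination β v * h1 - β u * h2
    rcases mul_eq_zero.mp this with h3 | h3
    · exact h3
    · exact absurd h3 h
  · have : t * (α u * β v - α v * β u) = 0 := by linear_combination α u * h2 - α v * h1
    rcases mul_eq_zero.mp this with h3 | h3
    · exact h3
    · exact absurd h3 h

lemma Z4_sub (ω : Fin 4 → D) (hω : LinearIndependent ℂ ω) (p q : Fin 4) (hpq : p ≠ q) :
    LinearIndependent ℂ ![ω p, ω q] := by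
  have hinj : Function.Injective ![p, q] := by
    intro i j hij
    fin_cases i <;> fin_cases j <;> simp_all
  have h1 := hω.comp ![p, q] hinj
  have h2 : ω ∘ ![p, q] = ![ω p, ω q] := by
    ext i
    fin_cases i <;> rfl
  rwa [h2] at h1

lemma Z4_compl : ∀ r s : Fin 4, r ≠ s → ∃ p q : Fin 4, p ≠ q ∧ p ≠ r ∧ p ≠ s ∧ q ≠ r ∧ q ≠ s := by
  decide

lemma Z4_four (a b c d : D) (h : LinearIndependent ℂ ![a, b, c, d]) (s t u v : ℂ)
    (h0 : s • a + t • b + u • c + v • d = 0) : s = 0 ∧ t = 0 ∧ u = 0 ∧ v = 0 := by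
  rw [Fintype.linearIndependent_iff] at h
  have h1 := h ![s, t, u, v] (by
    simp only [Fin.sum_univ_four]
    exact h0)
  exact ⟨h1 0, h1 1, h1 2, h1 3⟩

theorem p_Z4 (h : P_G2) : P_Z4 := by
  intro T x y hZ ha hb
  by_contra hT
  obtain ⟨hx, hy, hz⟩ := hZ
  obtain ⟨φ, hφ, hφs⟩ := Z4_coord y hy
  obtain ⟨ψ, hψ, hψs⟩ := Z4_coord x hx
  set a00 : D := T (x 0) (y 2) with ha00
  set a01 : D := T (x 0) (y 3) with ha01
  set a10 : D := T (x 1) (y 2) with ha10
  set a11 : D := T (x 1) (y 3) with ha11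
  -- the forms
  let η : Fin 4 → D := ![φ 2, φ 3, φ 2 + φ 3, φ 2 + (3 : ℂ) • φ 3]
  let ω : Fin 4 → D := ![a00 + a01 - (2 : ℂ) • a10, a11 - (4 : ℂ) • a01 + (3 : ℂ) • a10,
    (3 : ℂ) • a10 - (2 : ℂ) • a01, a01 - a10]
  have hω : LinearIndependent ℂ ω := by
    rw [Fintype.linearIndependent_iff]
    intro g hg
    simp only [Fin.sum_univ_four] at hg
    have h0 : g 0 • a00 + (g 0 - 4 * g 1 - 2 * g 2 + g 3) • a01 +
        (-2 * g 0 + 3 * g 1 + 3 * g 2 - g 3) • a10 + g 1 • a11 = 0 := by
      rw [← hg]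
      refine LinearMap.ext fun w => ?_
      show g 0 * a00 w + (g 0 - 4 * g 1 - 2 * g 2 + g 3) * a01 w +
        (-2 * g 0 + 3 * g 1 + 3 * g 2 - g 3) * a10 w + g 1 * a11 w =
        g 0 * (a00 w + a01 w - 2 * a10 w) + g 1 * (a11 w - 4 * a01 w + 3 * a10 w) +
        g 2 * (3 * a10 w - 2 * a01 w) + g 3 * (a01 w - a10 w)
      ring
    obtain ⟨k0, k1, k2, k3⟩ := Z4_four a00 a01 a10 a11 ha _ _ _ _ h0
    have k4 : g 2 = 0 := by linear_combination k1 + k2 + k0 + k3
    have k5 : g 3 = 0 := by linear_combination k1 - k0 + 4 * k3 + 2 * k4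
    intro i
    fin_cases i
    · exact k0
    · exact k3
    · exact k4
    · exact k5
  have hl : LinearIndependent ℂ ![x 0, x 1] := by
    have hinj : Function.Injective (![0, 1] : Fin 2 → Fin 4) := by decide
    have h1 := hx.comp ![0, 1] hinj
    have h2 : x ∘ (![0, 1] : Fin 2 → Fin 4) = ![x 0, x 1] := by
      ext i
      fin_cases i <;> rfl
    rwa [h2] at h1
  have hexp : ∀ (X v w : V), T X v w = ∑ i, φ i v * T X (y i) w := by
    intro X v w
    conv_lhs => rw [hφs v]
    simp [map_sum, LinearMap.sum_apply]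
  have hfr : Frames T ![x 0, x 1] η ω := by
    refine ⟨hl, ?_⟩
    intro i
    fin_cases i
    · refine ⟨![1, 0, 1, 1], ?_⟩
      intro v w
      have h1 := hexp (x 0) v w
      simp only [Fin.sum_univ_four, (hz w).1, (hz w).2.1] at h1
      simp only [Fin.sum_univ_four]
      show T (x 0) v w = _
      rw [h1]
      simp [η, ω, ← ha00, ← ha01]
      ring
    · refine ⟨![0, 1, 1, 2], ?_⟩
      intro v w
      have h1 := hexp (x 1) v w
      simp only [Fin.sum_univ_four, (hz w).2.2.1, (hz w).2.2.2] at h1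
      simp only [Fin.sum_univ_four]
      show T (x 1) v w = _
      rw [h1]
      simp [η, ω, ← ha10, ← ha11]
      ring
  obtain ⟨hh, hLI, hG⟩ := h T hT ![x 0, x 1] η ω hfr
  have hη : ∀ p q : Fin 4, p ≠ q → LinearIndependent ℂ ![η p, η q] := by
    intro p q hpq
    apply Z4_pair _ _ (y 2) (y 3)
    have e22 : φ 2 (y 2) = 1 := by rw [hφ]; simp
    have e23 : φ 2 (y 3) = 0 := by rw [hφ]; simp
    have e32 : φ 3 (y 2) = 0 := by rw [hφ]; simp
    have e33 : φ 3 (y 3) = 1 := by rw [hφ]; simp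
    fin_cases p <;> fin_cases q <;> first
      | exact absurd rfl hpq
      | (simp [η, e22, e23, e32, e33]; done)
      | (simp [η, e22, e23, e32, e33]; norm_num)
  have hη0 : ∀ j, η j (y 0) = 0 := by
    intro j
    have e2 : φ 2 (y 0) = 0 := by rw [hφ]; simp
    have e3 : φ 3 (y 0) = 0 := by rw [hφ]; simp
    fin_cases j <;> simp [η, e2, e3]
  have hη1 : ∀ j, η j (y 1) = 0 := by
    intro j
    have e2 : φ 2 (y 1) = 0 := by rw [hφ]; simp
    have e3 : φ 3 (y 1) = 0 := by rw [hφ]; simp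
    fin_cases j <;> simp [η, e2, e3]
  obtain ⟨e, he, hes⟩ := Z4_dual ω hω
  set f : D := T hh (y 0) with hf
  set g : D := T hh (y 1) with hg
  have hrs : ∀ r s : Fin 4, f (e r) * g (e s) = f (e s) * g (e r) := by
    intro r s
    rcases eq_or_ne r s with rfl | hne
    · rfl
    · obtain ⟨p, q, hpq, hpr, hps, hqr, hqs⟩ := Z4_compl r s hne
      exact hG p q hpq (hη p q hpq) (Z4_sub ω hω p q hpq) (y 0) (y 1) (e r) (e s) hη0 hη1
        (by rw [he, if_neg hpr]) (by rw [he, if_neg hqr]) (by rw [he, if_neg hps])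
        (by rw [he, if_neg hqs])
  have hprop : ∀ (s : Fin 4) (w : V), g (e s) * f w = f (e s) * g w := by
    intro s w
    rw [hes f w, hes g w, Finset.mul_sum, Finset.mul_sum]
    refine Finset.sum_congr rfl fun i _ => ?_
    linear_combination ω i w * hrs i s
  set c2 : ℂ := ψ 2 hh with hc2
  set c3 : ℂ := ψ 3 hh with hc3
  have hfe : ∀ w, f w = c2 * T (x 2) (y 0) w + c3 * T (x 3) (y 0) w := by
    intro w
    have h1 : T hh (y 0) w = ∑ i, ψ i hh * T (x i) (y 0) w := by
      conv_lhs => rw [hψs hh]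
      simp [map_sum, LinearMap.sum_apply]
    simp only [Fin.sum_univ_four, (hz w).1, (hz w).2.2.1] at h1
    rw [hf, h1]
    ring
  have hge : ∀ w, g w = c2 * T (x 2) (y 1) w + c3 * T (x 3) (y 1) w := by
    intro w
    have h1 : T hh (y 1) w = ∑ i, ψ i hh * T (x i) (y 1) w := by
      conv_lhs => rw [hψs hh]
      simp [map_sum, LinearMap.sum_apply]
    simp only [Fin.sum_univ_four, (hz w).2.1, (hz w).2.2.2] at h1
    rw [hg, h1]
    ring
  have hcne : ¬ (c2 = 0 ∧ c3 = 0) := by
    rintro ⟨k2, k3⟩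
    rw [Fintype.linearIndependent_iff] at hLI
    have h1 : hh = ψ 0 hh • x 0 + ψ 1 hh • x 1 := by
      have h2 := hψs hh
      simp only [Fin.sum_univ_four] at h2
      rw [← hc2, ← hc3, k2, k3, zero_smul, zero_smul, add_zero, add_zero] at h2
      exact h2
    have h3 := hLI ![ψ 0 hh, ψ 1 hh, -1] (by
      simp only [Fin.sum_univ_three]
      show ψ 0 hh • x 0 + ψ 1 hh • x 1 + (-1 : ℂ) • hh = 0
      rw [← h1]
      simp) 2
    simp at h3
  have hf0 : ∀ s, f (e s) = 0 := by
    intro s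
    have h0 : (g (e s) * c2) • T (x 2) (y 0) + (- (f (e s) * c2)) • T (x 2) (y 1) +
        (g (e s) * c3) • T (x 3) (y 0) + (- (f (e s) * c3)) • T (x 3) (y 1) = 0 := by
      refine LinearMap.ext fun w => ?_
      have h1 := hprop s w
      rw [hfe w, hge w] at h1
      show g (e s) * c2 * T (x 2) (y 0) w + -(f (e s) * c2) * T (x 2) (y 1) w +
        g (e s) * c3 * T (x 3) (y 0) w + -(f (e s) * c3) * T (x 3) (y 1) w = 0
      linear_combination h1
    obtain ⟨_, k1, _, k3⟩ := Z4_four _ _ _ _ hb _ _ _ _ h0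
    by_contra hne
    apply hcne
    constructor
    · rcases mul_eq_zero.mp (neg_eq_zero.mp k1) with h2 | h2
      · exact absurd h2 hne
      · exact h2
    · rcases mul_eq_zero.mp (neg_eq_zero.mp k3) with h2 | h2
      · exact absurd h2 hne
      · exact h2
  have h0 : c2 • T (x 2) (y 0) + (0 : ℂ) • T (x 2) (y 1) + c3 • T (x 3) (y 0) +
      (0 : ℂ) • T (x 3) (y 1) = 0 := by
    refine LinearMap.ext fun w => ?_
    have h1 : f w = 0 := by
      rw [hes f w]
      exact Finset.sum_eq_zero fun i _ => by rw [hf0 i, zero_mul]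
    rw [hfe w] at h1
    show c2 * T (x 2) (y 0) w + 0 * T (x 2) (y 1) w + c3 * T (x 3) (y 0) w +
      0 * T (x 3) (y 1) w = 0
    linear_combination h1
  obtain ⟨k0, _, k2, _⟩ := Z4_four _ _ _ _ hb _ _ _ _ h0
  exact hcne ⟨k0, k2⟩

end Pool.Agent.MR8
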