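import Pool.Agent.MR8.Defs

set_option autoImplicit false

/-!
# Zero blocks: one block symmetric of rank three, one block a hook (helper83)
-/

namespace Pool.Agent.MR8

/-- Independent forms have dual vectors. -/
lemma ZSYM_dual (ω : Fin 3 → D) (hω : LinearIndependent ℂ ω) :
    ∃ f : Fin 3 → V, ∀ i j, ω i (f j) = if i = j then 1 else 0 := by
  set L : V →ₗ[ℂ] (Fin 3 → ℂ) := LinearMap.pi ω with hL
  have hsurj : LinearMap.range L = ⊤ := by
    by_contra hne
    obtain ⟨g, hg, hle⟩ := Submodule.exists_le_ker_of_lt_top (LinearMap.range L)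
      (lt_top_iff_ne_top.2 hne)
    apply hg
    have h1 : ∑ i, g (Pi.single i 1) • ω i = 0 := by
      apply LinearMap.ext
      intro v
      have h2 : g (L v) = 0 := hle ⟨v, rfl⟩
      have h3 : L v = ∑ i, (ω i v) • (Pi.single i (1 : ℂ) : Fin 3 → ℂ) := by
        ext j
        simp [hL, Finset.sum_apply, Pi.single_apply]
      rw [h3, map_sum] at h2
      simp only [map_smul, smul_eq_mul] at h2
      simp only [LinearMap.sum_apply, LinearMap.smul_apply, smul_eq_mul, LinearMap.zero_apply]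
      rw [← h2]
      apply Finset.sum_congr rfl
      intro i _
      ring
    have h4 := Fintype.linearIndependent_iff.1 hω _ h1
    apply LinearMap.pi_ext'
    intro i
    ext
    simp only [LinearMap.comp_apply, LinearMap.coe_single, LinearMap.zero_apply]
    exact h4 i
  have h5 : ∀ j : Fin 3, ∃ v : V, L v = Pi.single j 1 := by
    intro j
    have : (Pi.single j (1 : ℂ) : Fin 3 → ℂ) ∈ LinearMap.range L := by rw [hsurj]; trivial
    exact this
  choose f hf using h5
  refine ⟨f, fun i j => ?_⟩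
  have := congrFun (hf j) i
  rw [hL] at this
  simp only [LinearMap.pi_apply, Pi.single_apply] at this
  exact this

/-- The common part of the two theorems. -/
lemma ZSYM_core (h : P_H3) (h0 : P_ZERO) (T : Tri) (l : Fin 2 → V) (hl : LinearIndependent ℂ l)
    (η ω : Fin 3 → D)
    (hc : ∀ i, ∃ c : Fin 3 → ℂ, ∀ y w, T (l i) y w = ∑ j, c j * (η j y * ω j w))
    (hη : ∀ p q, p ≠ q → LinearIndependent ℂ ![η p, η q]) (hω : LinearIndependent ℂ ω)
    (y0 : V) (hy0 : y0 ≠ 0) (hz : ∀ i, η i y0 = 0) : RK 8 T := by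
  by_contra hT
  obtain ⟨f, hf⟩ := ZSYM_dual ω hω
  have hpair : ∀ p q : Fin 3, p ≠ q → LinearIndependent ℂ ![ω p, ω q] := by
    intro p q hpq
    rw [LinearIndependent.pair_iff]
    intro s t hst
    have e1 := LinearMap.congr_fun hst (f p)
    have e2 := LinearMap.congr_fun hst (f q)
    simp only [LinearMap.add_apply, LinearMap.smul_apply, hf, smul_eq_mul,
      LinearMap.zero_apply] at e1 e2
    simp [hpq, hpq.symm] at e1 e2
    exact ⟨e1, e2⟩
  have key : ∀ (p q : Fin 3) (w : V), p ≠ q → ω p w = 0 → ω q w = 0 → ∀ x, T x y0 w = 0 := by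
    intro p q w hpq h1 h2 x
    exact h T hT l hl η ω hc p q hpq (hη p q hpq) (hpair p q hpq) y0 w (hz p) (hz q) h1 h2 x
  have hall : ∀ x w, T x y0 w = 0 := by
    intro x w
    have hw : w = (w - ∑ j, ω j w • f j) + ∑ j, ω j w • f j := by abel
    have hk : ∀ i, ω i (w - ∑ j, ω j w • f j) = 0 := by
      intro i
      rw [map_sub, map_sum]
      simp [hf]
    have e0 : T x y0 (f 0) = 0 := key 1 2 (f 0) (by decide) (by rw [hf]; simp) (by rw [hf]; simp) x
    have e1 : T x y0 (f 1) = 0 := key 0 2 (f 1) (by decide) (by rw [hf]; simp) (by rw [hf]; simp) x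
    have e2 : T x y0 (f 2) = 0 := key 0 1 (f 2) (by decide) (by rw [hf]; simp) (by rw [hf]; simp) x
    rw [hw, map_add, key 0 1 _ (by decide) (hk 0) (hk 1) x, map_sum]
    simp only [map_smul, Fin.sum_univ_three, e0, e1, e2, smul_zero, add_zero]
  have hsw : RK 8 (sw T) := h0 (sw T) y0 hy0 (fun x w => by rw [sw_apply]; exact hall x w)
  obtain ⟨α, β, γ, hd⟩ := hsw
  apply hT
  refine ⟨β, α, γ, fun x y w => ?_⟩
  rw [← sw_apply, hd]
  apply Finset.sum_congr rfl
  intro i _
  ring

/-- Coordinates. -/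
lemma ZSYM_coord (T : Tri) (x y : Fin 4 → V) (hy : LinearIndependent ℂ y) :
    ∃ e : Fin 4 → D, (∀ i j, e i (y j) = if i = j then 1 else 0) ∧
      ∀ i v w, T (x i) v w = ∑ j, e j v * T (x i) (y j) w := by
  set b := basisOfLinearIndependentOfCardEqFinrank hy (by simp) with hb
  have hby : ∀ j, b j = y j := fun j => by rw [hb]; simp
  refine ⟨fun j => b.coord j, ?_, ?_⟩
  · intro i j
    rw [← hby j, Module.Basis.coord_apply, Module.Basis.repr_self, Finsupp.single_apply]
    simp [eq_comm]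
  · intro i v w
    conv_lhs => rw [← b.sum_repr v]
    simp only [map_sum, map_smul, LinearMap.sum_apply, LinearMap.smul_apply, smul_eq_mul, hby,
      Module.Basis.coord_apply]

lemma ZSYM_eta (y2 y3 : V) (e2 e3 : D) (h22 : e2 y2 = 1) (h23 : e2 y3 = 0) (h32 : e3 y2 = 0)
    (h33 : e3 y3 = 1) (a b a' b' : ℂ) (hdet : a * b' - b * a' ≠ 0) :
    LinearIndependent ℂ ![a • e2 + b • e3, a' • e2 + b' • e3] := by
  rw [LinearIndependent.pair_iff]
  intro s t hst
  have e1 := LinearMap.congr_fun hst y2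
  have e2' := LinearMap.congr_fun hst y3
  simp only [LinearMap.add_apply, LinearMap.smul_apply, h22, h23, h32, h33, smul_eq_mul,
    LinearMap.zero_apply, mul_one, mul_zero, add_zero, zero_add] at e1 e2'
  constructor
  · have : s * (a * b' - b * a') = 0 := by linear_combination b' * e1 - a' * e2'
    exact (mul_eq_zero.1 this).resolve_right hdet
  · have : t * (a * b' - b * a') = 0 := by linear_combination a * e2' - b * e1
    exact (mul_eq_zero.1 this).resolve_right hdet

theorem p_ZSYM (h : P_H3) (h0 : P_ZERO) : P_ZSYM := by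
  intro T x y hZB hsym hli
  obtain ⟨hx, hy, hzero⟩ := hZB
  obtain ⟨e, he, hT⟩ := ZSYM_coord T x y hy
  have hl : LinearIndependent ℂ ![x 0, x 1] := by
    have := hx.comp ![0, 1] (by decide)
    convert this using 1
    ext i; fin_cases i <;> rfl
  have hη : ∀ p q : Fin 3, p ≠ q → LinearIndependent ℂ
      ![(![(1 : ℂ) • e 2 + (1 : ℂ) • e 3, (1 : ℂ) • e 2 + (0 : ℂ) • e 3,
          (0 : ℂ) • e 2 + (1 : ℂ) • e 3] : Fin 3 → D) p,
        (![(1 : ℂ) • e 2 + (1 : ℂ) • e 3, (1 : ℂ) • e 2 + (0 : ℂ) • e 3,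
          (0 : ℂ) • e 2 + (1 : ℂ) • e 3] : Fin 3 → D) q] := by
    have h22 : e 2 (y 2) = 1 := by rw [he]; simp
    have h23 : e 2 (y 3) = 0 := by rw [he]; simp
    have h32 : e 3 (y 2) = 0 := by rw [he]; simp
    have h33 : e 3 (y 3) = 1 := by rw [he]; simp
    intro p q hpq
    fin_cases p <;> fin_cases q
    · exact absurd rfl hpq
    · exact ZSYM_eta (y 2) (y 3) (e 2) (e 3) h22 h23 h32 h33 1 1 1 0 (by norm_num)
    · exact ZSYM_eta (y 2) (y 3) (e 2) (e 3) h22 h23 h32 h33 1 1 0 1 (by norm_num)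
    · exact ZSYM_eta (y 2) (y 3) (e 2) (e 3) h22 h23 h32 h33 1 0 1 1 (by norm_num)
    · exact absurd rfl hpq
    · exact ZSYM_eta (y 2) (y 3) (e 2) (e 3) h22 h23 h32 h33 1 0 0 1 (by norm_num)
    · exact ZSYM_eta (y 2) (y 3) (e 2) (e 3) h22 h23 h32 h33 0 1 1 1 (by norm_num)
    · exact ZSYM_eta (y 2) (y 3) (e 2) (e 3) h22 h23 h32 h33 0 1 1 0 (by norm_num)
    · exact absurd rfl hpq
  have hω : LinearIndependent ℂ ![T (x 0) (y 3), T (x 0) (y 2) - T (x 0) (y 3),
      T (x 1) (y 3) - T (x 0) (y 3)] := by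
    rw [Fintype.linearIndependent_iff] at hli ⊢
    intro g hg
    simp only [Fin.sum_univ_three, Matrix.cons_val_zero, Matrix.cons_val_one,
      Matrix.cons_val] at hg
    have h1 := hli ![g 1, g 0 - g 1 - g 2, g 2] (by
      simp only [Fin.sum_univ_three, Matrix.cons_val_zero, Matrix.cons_val_one, Matrix.cons_val]
      rw [← hg]
      module)
    have a0 := h1 0
    have a1 := h1 1
    have a2 := h1 2
    simp only [Matrix.cons_val_zero, Matrix.cons_val_one, Matrix.cons_val] at a0 a1 a2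
    intro i
    fin_cases i
    · show g 0 = 0
      linear_combination a1 + a0 + a2
    · exact a0
    · exact a2
  refine ZSYM_core h h0 T ![x 0, x 1] hl
    ![(1 : ℂ) • e 2 + (1 : ℂ) • e 3, (1 : ℂ) • e 2 + (0 : ℂ) • e 3,
      (0 : ℂ) • e 2 + (1 : ℂ) • e 3]
    ![T (x 0) (y 3), T (x 0) (y 2) - T (x 0) (y 3), T (x 1) (y 3) - T (x 0) (y 3)]
    ?_ hη hω (y 0) (hy.ne_zero 0) ?_
  · intro i
    fin_cases i
    · refine ⟨![1, 1, 0], fun v w => ?_⟩
      show T (x 0) v w = _
      rw [hT]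
      simp only [Fin.sum_univ_four, Fin.sum_univ_three, Matrix.cons_val_zero,
        Matrix.cons_val_one, Matrix.cons_val, LinearMap.add_apply, LinearMap.smul_apply,
        LinearMap.sub_apply, smul_eq_mul, (hzero w).1, (hzero w).2.1]
      ring
    · refine ⟨![1, 0, 1], fun v w => ?_⟩
      show T (x 1) v w = _
      rw [hT]
      simp only [Fin.sum_univ_four, Fin.sum_univ_three, Matrix.cons_val_zero,
        Matrix.cons_val_one, Matrix.cons_val, LinearMap.add_apply, LinearMap.smul_apply,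
        LinearMap.sub_apply, smul_eq_mul, (hzero w).2.2.1, (hzero w).2.2.2, ← hsym]
      ring
  · intro i
    have h20 : e 2 (y 0) = 0 := by rw [he]; simp
    have h30 : e 3 (y 0) = 0 := by rw [he]; simp
    fin_cases i <;> simp [h20, h30]

theorem p_ZHOOK (h : P_H3) (h0 : P_ZERO) : P_ZHOOK := by
  intro T x y hZB hz13 hli
  obtain ⟨hx, hy, hzero⟩ := hZB
  obtain ⟨e, he, hT⟩ := ZSYM_coord T x y hy
  have hl : LinearIndependent ℂ ![x 0, x 1] := by
    have := hx.comp ![0, 1] (by decide)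
    convert this using 1
    ext i; fin_cases i <;> rfl
  have hη : ∀ p q : Fin 3, p ≠ q → LinearIndependent ℂ
      ![(![(1 : ℂ) • e 2 + (1 : ℂ) • e 3, (1 : ℂ) • e 2 + (0 : ℂ) • e 3,
          (0 : ℂ) • e 2 + (1 : ℂ) • e 3] : Fin 3 → D) p,
        (![(1 : ℂ) • e 2 + (1 : ℂ) • e 3, (1 : ℂ) • e 2 + (0 : ℂ) • e 3,
          (0 : ℂ) • e 2 + (1 : ℂ) • e 3] : Fin 3 → D) q] := by
    have h22 : e 2 (y 2) = 1 := by rw [he]; simp
    have h23 : e 2 (y 3) = 0 := by rw [he]; simp
    have h32 : e 3 (y 2) = 0 := by rw [he]; simp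
    have h33 : e 3 (y 3) = 1 := by rw [he]; simp
    intro p q hpq
    fin_cases p <;> fin_cases q
    · exact absurd rfl hpq
    · exact ZSYM_eta (y 2) (y 3) (e 2) (e 3) h22 h23 h32 h33 1 1 1 0 (by norm_num)
    · exact ZSYM_eta (y 2) (y 3) (e 2) (e 3) h22 h23 h32 h33 1 1 0 1 (by norm_num)
    · exact ZSYM_eta (y 2) (y 3) (e 2) (e 3) h22 h23 h32 h33 1 0 1 1 (by norm_num)
    · exact absurd rfl hpq
    · exact ZSYM_eta (y 2) (y 3) (e 2) (e 3) h22 h23 h32 h33 1 0 0 1 (by norm_num)
    · exact ZSYM_eta (y 2) (y 3) (e 2) (e 3) h22 h23 h32 h33 0 1 1 1 (by norm_num)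
    · exact ZSYM_eta (y 2) (y 3) (e 2) (e 3) h22 h23 h32 h33 0 1 1 0 (by norm_num)
    · exact absurd rfl hpq
  have hω : LinearIndependent ℂ ![T (x 0) (y 2), T (x 1) (y 2),
      T (x 0) (y 3) - T (x 0) (y 2)] := by
    rw [Fintype.linearIndependent_iff] at hli ⊢
    intro g hg
    simp only [Fin.sum_univ_three, Matrix.cons_val_zero, Matrix.cons_val_one,
      Matrix.cons_val] at hg
    have h1 := hli ![g 0 - g 2, g 2, g 1] (by
      simp only [Fin.sum_univ_three, Matrix.cons_val_zero, Matrix.cons_val_one, Matrix.cons_val]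
      rw [← hg]
      module)
    have a0 := h1 0
    have a1 := h1 1
    have a2 := h1 2
    simp only [Matrix.cons_val_zero, Matrix.cons_val_one, Matrix.cons_val] at a0 a1 a2
    intro i
    fin_cases i
    · show g 0 = 0
      linear_combination a0 + a1
    · exact a2
    · exact a1
  refine ZSYM_core h h0 T ![x 0, x 1] hl
    ![(1 : ℂ) • e 2 + (1 : ℂ) • e 3, (1 : ℂ) • e 2 + (0 : ℂ) • e 3,
      (0 : ℂ) • e 2 + (1 : ℂ) • e 3]
    ![T (x 0) (y 2), T (x 1) (y 2), T (x 0) (y 3) - T (x 0) (y 2)]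
    ?_ hη hω (y 0) (hy.ne_zero 0) ?_
  · intro i
    fin_cases i
    · refine ⟨![1, 0, 1], fun v w => ?_⟩
      show T (x 0) v w = _
      rw [hT]
      simp only [Fin.sum_univ_four, Fin.sum_univ_three, Matrix.cons_val_zero,
        Matrix.cons_val_one, Matrix.cons_val, LinearMap.add_apply, LinearMap.smul_apply,
        LinearMap.sub_apply, smul_eq_mul, (hzero w).1, (hzero w).2.1]
      ring
    · refine ⟨![0, 1, 0], fun v w => ?_⟩
      show T (x 1) v w = _
      rw [hT]
      simp only [Fin.sum_univ_four, Fin.sum_univ_three, Matrix.cons_val_zero,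
        Matrix.cons_val_one, Matrix.cons_val, LinearMap.add_apply, LinearMap.smul_apply,
        LinearMap.sub_apply, smul_eq_mul, (hzero w).2.2.1, (hzero w).2.2.2, hz13,
        LinearMap.zero_apply]
      ring
  · intro i
    have h20 : e 2 (y 0) = 0 := by rw [he]; simp
    have h30 : e 3 (y 0) = 0 := by rw [he]; simp
    fin_cases i <;> simp [h20, h30]

end Pool.Agent.MR8
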