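import Pool.Agent.MR8.Defs

set_option autoImplicit false

/-!
# Zero blocks: a block `[a₀, a₁; a₁, 0]`

The two consequences `P_ZW1` and `P_ZW2` of the extraction lemmas.
-/

namespace Pool.Agent.MR8

/-- Dual coordinates of four independent vectors. -/
lemma ZW_dual (y : Fin 4 → V) (hy : LinearIndependent ℂ y) :
    ∃ η : Fin 4 → D, (∀ i j, η i (y j) = if j = i then 1 else 0) ∧
      ∀ z, z = ∑ i, η i z • y i := by
  classical
  let b := basisOfLinearIndependentOfCardEqFinrank hy (by simp)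
  have hb : ∀ i, b i = y i := fun i => by
    simp [b]
  refine ⟨fun i => b.coord i, fun i j => ?_, fun z => ?_⟩
  · rw [← hb j, Module.Basis.coord_apply, Module.Basis.repr_self, Finsupp.single_apply]
  · have h := b.sum_repr z
    simp only [hb] at h
    simpa [Module.Basis.coord_apply] using h.symm

/-- A pair of forms is independent as soon as it has dual vectors. -/
lemma ZW_li (f g : D) (v v' : V) (h1 : f v ≠ 0) (h2 : g v = 0) (h4 : g v' ≠ 0) :
    LinearIndependent ℂ ![f, g] := by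
  rw [LinearIndependent.pair_iff]
  intro s t h
  have e1 : s * f v + t * g v = 0 := by
    have := congrArg (fun L : D => L v) h
    simpa using this
  have e2 : s * f v' + t * g v' = 0 := by
    have := congrArg (fun L : D => L v') h
    simpa using this
  rw [h2, mul_zero, add_zero] at e1
  have hs : s = 0 := (mul_eq_zero.mp e1).resolve_right h1
  rw [hs, zero_mul, zero_add] at e2
  exact ⟨hs, (mul_eq_zero.mp e2).resolve_right h4⟩

/-- Dual vectors of two independent forms, one half. -/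
lemma ZW_vec (f g : D) (h : LinearIndependent ℂ ![f, g]) : ∃ v : V, f v = 1 ∧ g v = 0 := by
  by_contra hc
  push Not at hc
  have hk : ⨅ i : Fin 1, LinearMap.ker ((fun _ : Fin 1 => g) i) ≤ LinearMap.ker f := by
    intro v hv
    simp only [Submodule.mem_iInf, LinearMap.mem_ker] at hv
    rw [LinearMap.mem_ker]
    by_contra hf
    refine hc ((f v)⁻¹ • v) ?_ ?_
    · rw [map_smul, smul_eq_mul, inv_mul_cancel₀ hf]
    · rw [map_smul, hv 0, smul_zero]
  have hm := mem_span_of_iInf_ker_le_ker hk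
  rw [Set.range_const, Submodule.mem_span_singleton] at hm
  obtain ⟨c, hc'⟩ := hm
  rw [LinearIndependent.pair_iff] at h
  have := h (-1) c (by rw [hc']; simp)
  simpa using this.1

theorem p_ZW1 (h : P_H3) : P_ZW1 := by
  intro T hT x y hZ hs h13 hli x' w hw0 hw1
  obtain ⟨hx, hy, hz⟩ := hZ
  obtain ⟨η, hη, hdec⟩ := ZW_dual y hy
  have hl : LinearIndependent ℂ ![x 0, x 1] := by
    have := hx.comp ![0, 1] (by decide)
    convert this using 1
    ext i j
    fin_cases i <;> rfl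
  have e0 : ∀ z v, T (x 0) z v = η 2 z * T (x 0) (y 2) v + η 3 z * T (x 0) (y 3) v := by
    intro z v
    conv_lhs => rw [hdec z]
    simp [Fin.sum_univ_four, (hz v).1, (hz v).2.1]
  have e1 : ∀ z v, T (x 1) z v = η 2 z * T (x 0) (y 3) v := by
    intro z v
    conv_lhs => rw [hdec z]
    simp [Fin.sum_univ_four, (hz v).2.2.1, (hz v).2.2.2, hs, h13]
  have key := h T hT ![x 0, x 1] hl ![η 2, η 2, η 3]
    ![T (x 0) (y 3), T (x 0) (y 2), T (x 0) (y 3)] (by
      intro i
      fin_cases i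
      · refine ⟨![0, 1, 1], fun z v => (e0 z v).trans ?_⟩
        simp [Fin.sum_univ_three]
      · refine ⟨![1, 0, 0], fun z v => (e1 z v).trans ?_⟩
        simp [Fin.sum_univ_three]) 1 2 (by decide)
    (by
      refine ZW_li _ _ (y 2) (y 3) ?_ ?_ ?_ <;> simp [hη])
    hli
  exact ⟨key (y 0) w (by simp [hη]) (by simp [hη]) (by simpa using hw0) (by simpa using hw1) x',
    key (y 1) w (by simp [hη]) (by simp [hη]) (by simpa using hw0) (by simpa using hw1) x'⟩

/-- The first half of the second consequence. -/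
lemma ZW_half (hE : P_E) (hW : P_ZW1) (T : Tri) (hT : ¬ RK 8 T) (x y : Fin 4 → V)
    (hZ : ZB T x y) (hs : T (x 0) (y 3) = T (x 1) (y 2)) (h13 : T (x 1) (y 3) = 0)
    (hli : LinearIndependent ℂ ![T (x 0) (y 2), T (x 0) (y 3)]) (w : V)
    (hw0 : T (x 0) (y 2) w = 0) (hw1 : T (x 0) (y 3) w = 0) (x' x'' z v : V) :
    T x' (y 0) v * T x'' z w = T x'' (y 0) v * T x' z w := by
  have hW1 := hW T hT x y hZ hs h13 hli
  obtain ⟨hx, hy, hz⟩ := hZ
  obtain ⟨η, hη, hdec⟩ := ZW_dual y hy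
  have hl : LinearIndependent ℂ ![x 0, x 1] := by
    have := hx.comp ![0, 1] (by decide)
    convert this using 1
    ext i j
    fin_cases i <;> rfl
  have e0 : ∀ z v, T (x 0) z v = η 2 z * T (x 0) (y 2) v + η 3 z * T (x 0) (y 3) v := by
    intro z v
    conv_lhs => rw [hdec z]
    simp [Fin.sum_univ_four, (hz v).1, (hz v).2.1]
  have e1 : ∀ z v, T (x 1) z v = η 2 z * T (x 0) (y 3) v := by
    intro z v
    conv_lhs => rw [hdec z]
    simp [Fin.sum_univ_four, (hz v).2.2.1, (hz v).2.2.2, hs, h13]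
  obtain ⟨v0, h00, h10⟩ := ZW_vec _ _ hli
  obtain ⟨v1, h11, h01⟩ := ZW_vec _ _ (LinearIndependent.pair_symm_iff.mp hli)
  -- the fourth form
  obtain ⟨om, hom, hle⟩ := Submodule.exists_le_ker_of_lt_top
    (Submodule.span ℂ (Set.range ![v0, v1, w])) (by
      rw [lt_top_iff_ne_top]
      intro ht
      have h1 := finrank_range_le_card (R := ℂ) ![v0, v1, w]
      rw [Set.finrank, ht, finrank_top] at h1
      simp at h1)
  have hom' : ∀ i, om (![v0, v1, w] i) = 0 := fun i =>
    hle (Submodule.subset_span ⟨i, rfl⟩)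
  have ho0 : om v0 = 0 := hom' 0
  have ho1 : om v1 = 0 := hom' 1
  have how : om w = 0 := hom' 2
  obtain ⟨u, hu⟩ : ∃ u, om u ≠ 0 := by
    by_contra hc
    push Not at hc
    exact hom (LinearMap.ext hc)
  set a0 := T (x 0) (y 2) with ha0
  set a1 := T (x 0) (y 3) with ha1
  -- first four frames
  have F1 : Frames T ![x 0, x 1] ![η 2, η 2, η 3, η 1] ![a1, a0, a1, om] := by
    refine ⟨hl, fun i => ?_⟩
    fin_cases i
    · refine ⟨![0, 1, 1, 0], fun z v => ?_⟩
      simp [Fin.sum_univ_four, e0]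
    · refine ⟨![1, 0, 0, 0], fun z v => ?_⟩
      simp [Fin.sum_univ_four, e1]
  have F2 : Frames T ![x 0, x 1] ![η 2, η 2 + η 3, η 3, η 1] ![a1, a0, a1 - a0, om] := by
    refine ⟨hl, fun i => ?_⟩
    fin_cases i
    · refine ⟨![0, 1, 1, 0], fun z v => ?_⟩
      simp [Fin.sum_univ_four, e0]
      ring
    · refine ⟨![1, 0, 0, 0], fun z v => ?_⟩
      simp [Fin.sum_univ_four, e1]
  have hya : ∀ j, (![η 2, η 2, η 3, η 1] : Fin 4 → D) j (y 0) = 0 := by
    intro j
    fin_cases j <;> simp [hη]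
  have hwa : ∀ j, (![a1, a0, a1, om] : Fin 4 → D) j w = 0 := by
    intro j
    fin_cases j <;> simp [hw0, hw1, how]
  have hya2 : ∀ j, (![η 2, η 2 + η 3, η 3, η 1] : Fin 4 → D) j (y 0) = 0 := by
    intro j
    fin_cases j <;> simp [hη]
  have hwa2 : ∀ j, (![a1, a0, a1 - a0, om] : Fin 4 → D) j w = 0 := by
    intro j
    fin_cases j <;> simp [hw0, hw1, how]
  have hTw : ∀ x, T x (y 0) w = 0 := fun x => (hW1 x w hw0 hw1).1
  have hTw1 : ∀ x, T x (y 1) w = 0 := fun x => (hW1 x w hw0 hw1).2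
  -- the four evaluations
  have E20 : T x' (y 0) v0 * T x'' (y 2) w = T x'' (y 0) v0 * T x' (y 2) w :=
    hE T hT _ _ _ F1 3 2 (by decide)
      (by refine ZW_li _ _ (y 1) (y 3) ?_ ?_ ?_ <;> simp [hη])
      (by refine ZW_li _ _ (u - a1 u • v1) v1 ?_ ?_ ?_ <;> simp [h11, ho1, hu])
      (y 0) w (y 2) v0 hya hwa hTw (by simp [hη]) (by simp [hη]) (by simp [ho0])
      (by simp [h10]) x' x''
  have E31 : T x' (y 0) v1 * T x'' (y 3) w = T x'' (y 0) v1 * T x' (y 3) w :=
    hE T hT _ _ _ F1 3 1 (by decide)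
      (by refine ZW_li _ _ (y 1) (y 2) ?_ ?_ ?_ <;> simp [hη])
      (by refine ZW_li _ _ (u - a0 u • v0) v0 ?_ ?_ ?_ <;> simp [h00, ho0, hu])
      (y 0) w (y 3) v1 hya hwa hTw (by simp [hη]) (by simp [hη]) (by simp [ho1])
      (by simp [h01]) x' x''
  have E30 : T x' (y 0) v0 * T x'' (y 3) w = T x'' (y 0) v0 * T x' (y 3) w :=
    hE T hT _ _ _ F1 3 0 (by decide)
      (by refine ZW_li _ _ (y 1) (y 2) ?_ ?_ ?_ <;> simp [hη])
      (by refine ZW_li _ _ (u - a1 u • v1) v1 ?_ ?_ ?_ <;> simp [h11, ho1, hu])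
      (y 0) w (y 3) v0 hya hwa hTw (by simp [hη]) (by simp [hη]) (by simp [ho0])
      (by simp [h10]) x' x''
  have E2s : T x' (y 0) (v0 + v1) * T x'' (y 2) w = T x'' (y 0) (v0 + v1) * T x' (y 2) w :=
    hE T hT _ _ _ F2 3 2 (by decide)
      (by refine ZW_li _ _ (y 1) (y 3) ?_ ?_ ?_ <;> simp [hη])
      (by refine ZW_li _ _ (u - (a1 u - a0 u) • v1) v1 ?_ ?_ ?_ <;>
            simp [h11, h01, ho1, hu])
      (y 0) w (y 2) (v0 + v1) hya2 hwa2 hTw (by simp [hη]) (by simp [hη])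
      (by simp [ho0, ho1]) (by simp [h10, h11, h00, h01]) x' x''
  have E21 : T x' (y 0) v1 * T x'' (y 2) w = T x'' (y 0) v1 * T x' (y 2) w := by
    simp only [map_add] at E2s
    linear_combination E2s - E20
  -- assembling
  have hv : v = a0 v • v0 + a1 v • v1 + (v - a0 v • v0 - a1 v • v1) := by abel
  have hr : ∀ x, T x (y 0) (v - a0 v • v0 - a1 v • v1) = 0 := fun x =>
    (hW1 x _ (by simp [h00, h01]) (by simp [h10, h11])).1
  have hTv : ∀ x, T x (y 0) v = a0 v * T x (y 0) v0 + a1 v * T x (y 0) v1 := by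
    intro x
    have := hr x
    simp only [map_sub, map_smul, smul_eq_mul] at this
    linear_combination this
  have hTz : ∀ x, T x z w = η 2 z * T x (y 2) w + η 3 z * T x (y 3) w := by
    intro x
    conv_lhs => rw [hdec z]
    simp [Fin.sum_univ_four, hTw, hTw1]
  rw [hTv x', hTv x'', hTz x', hTz x'']
  linear_combination (a0 v * η 2 z) * E20 + (a1 v * η 2 z) * E21 + (a0 v * η 3 z) * E30 +
    (a1 v * η 3 z) * E31

theorem p_ZW2 (hE : P_E) (hW : P_ZW1) : P_ZW2 := by
  intro T hT x y hZ hs h13 hli w hw0 hw1 x' x'' z v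
  refine ⟨ZW_half hE hW T hT x y hZ hs h13 hli w hw0 hw1 x' x'' z v, ?_⟩
  have hy' : LinearIndependent ℂ (y ∘ (Equiv.swap (0 : Fin 4) 1)) :=
    hZ.2.1.comp _ (Equiv.injective _)
  have h2 : (Equiv.swap (0 : Fin 4) 1) 2 = 2 := by decide
  have h3 : (Equiv.swap (0 : Fin 4) 1) 3 = 3 := by decide
  have h0 : (Equiv.swap (0 : Fin 4) 1) 0 = 1 := by decide
  have h1 : (Equiv.swap (0 : Fin 4) 1) 1 = 0 := by decide
  have hZ' : ZB T x (y ∘ (Equiv.swap (0 : Fin 4) 1)) := by
    refine ⟨hZ.1, hy', fun w => ?_⟩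
    simp only [Function.comp, h0, h1]
    exact ⟨(hZ.2.2 w).2.1, (hZ.2.2 w).1, (hZ.2.2 w).2.2.2, (hZ.2.2 w).2.2.1⟩
  have := ZW_half hE hW T hT x (y ∘ (Equiv.swap (0 : Fin 4) 1)) hZ'
    (by simpa only [Function.comp, h2, h3] using hs)
    (by simpa only [Function.comp, h2, h3] using h13)
    (by simpa only [Function.comp, h2, h3] using hli) w
    (by simpa only [Function.comp, h2, h3] using hw0)
    (by simpa only [Function.comp, h2, h3] using hw1) x' x'' z v
  simpa only [Function.comp, h0] using this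

end Pool.Agent.MR8
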