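import Pool.Agent.MR8.ALL
import Pool.Agent.MR8.POLY
import Pool.Agent.MR8.G
import Pool.Agent.MR8.G3
import Pool.Agent.MR8.E
import Pool.Agent.MR8.H3
import Pool.Agent.MR8.KK
import Pool.Agent.MR8.S
import Pool.Agent.MR8.BASE
import Pool.Agent.MR8.RKD
import Pool.Agent.MR8.PEN
import Pool.Agent.MR8.PEN33
import Pool.Agent.MR8.Z4
import Pool.Agent.MR8.ZSYM
import Pool.Agent.MR8.ZW
import Pool.Agent.MR8.F22
import Pool.Agent.MR8.Z
import Pool.Agent.MR8.R12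
import Pool.Agent.MR8.B0V
import Pool.Agent.MR8.B0DEC
import Pool.Agent.MR8.B0
import Pool.Agent.MR8.KP0
import Pool.Agent.MR8.KCL
import Pool.Agent.MR8.KZA
import Pool.Agent.MR8.KZC
import Pool.Agent.MR8.P33
import Pool.Agent.MR8.KP
import Pool.Agent.MR8.UNI
import Pool.Agent.MR8.FAC
import Pool.Agent.MR8.DET
import Pool.Agent.MR8.LINE
import Pool.Agent.MR8.CON1
import Pool.Agent.MR8.CON2
import Pool.Agent.MR8.CONG
import Pool.Agent.MR8.P1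
import Pool.Agent.MR8.TRIP
import Pool.Agent.MR8.NF1
import Pool.Agent.MR8.NF3
import Pool.Agent.MR8.FINB
import Pool.Agent.MR8.STAR

set_option autoImplicit false

namespace Pool.Agent.MR8

/-- Every trilinear form on `ℂ⁴` is a sum of eight products. -/
theorem all : P_ALL := by
  have hG : P_G := p_G p_POLY
  have hG3 : P_G3 := p_G3 hG
  have hE : P_E := p_E hG
  have hG2 : P_G2 := p_G2 hG
  have hH3 : P_H3 := p_H3 hG3
  have hKK : P_KK := p_KK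
  have hS : P_S := p_S hKK
  have h0 : P_ZERO := p_ZERO
  have hR : P_RKD := p_RKD
  have hM : P_MIX := p_MIX
  have hN : P_DENS := p_DENS
  have hPEN : P_PEN := p_PEN
  have hP33' : P_PEN33 := p_PEN33 hPEN
  have hZW1 : P_ZW1 := p_ZW1 hH3
  have hZ : P_Z := p_Z p_F22 (p_Z4 hG2) (p_ZSYM hH3 h0) (p_ZHOOK hH3 h0) hZW1 (p_ZW2 hE hZW1)
    p_PEN6 h0
  have hR12 : P_R12 := p_R12 hZ hH3 h0 hR
  have hB0A : P_B0A := p_B0A (p_B0V hG3 hE hR12 hR hM h0) (p_B0DEC hR12 hP33' h0)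
  have hB0 : P_B0 := p_B0 hG3 hE hKK hR12 hB0A hR hM hN h0
  have hKP : P_KP := p_KP hZ hB0 (p_KP0 hG3 h0) (p_KP1 hG3 hB0) (p_KP3 hG3 h0) p_KCL
    (p_P33 hPEN) (p_KZA hG3 hE hB0 h0) (p_KZB hG3 hE hB0 h0) (p_KZC hG3 hE hB0 h0) (p_KZD hKK)
    (p_KZ7 hG3 hE hB0 h0)
  have hB3F : P_B3F := p_B3F
  have hUNI : P_UNI := p_UNI hKP hB3F hKK
  have hFAC : P_FAC := p_FAC
  have hDET : P_DET := p_DET hS
  have hLINE : P_LINE := p_LINE hFAC hDET
  have hP1 : P_P1 := p_P1 hLINE hPEN (p_P1C (p_CON p_CON1 p_CON2) hS)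
  have hTRIP : P_TRIP := p_TRIP hKP hB3F hUNI
  have hPAIR : P_PAIR := p_PAIR hKP hB3F
  have hNF1 : P_NF1 := p_NF1 hPAIR hKP hB3F hB0
  exact p_ALL hP1 hTRIP hNF1 p_NF2 p_NF3 (p_FINB hFAC hDET) p_STAR

end Pool.Agent.MR8
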