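import Pool.Agent.MR8.Defs

set_option autoImplicit false

/-!
# Existence of a slice of rank two (jobs `P1`, `P1C`)
-/

namespace Pool.Agent.MR8

open Matrix

/-! ### Bases -/

lemma P1_fin4 : Module.finrank ℂ V = 4 := by simp [V]

lemma P1_ext3 (x : Fin 3 → V) (h : LinearIndependent ℂ x) :
    ∃ X : Fin 4 → V, LinearIndependent ℂ X ∧ X 0 = x 0 ∧ X 1 = x 1 ∧ X 2 = x 2 := by
  obtain ⟨z, hz⟩ := exists_linearIndependent_snoc_of_lt_finrank h
    (by rw [P1_fin4]; norm_num : 3 < Module.finrank ℂ V)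
  refine ⟨Fin.snoc x z, hz, ?_, ?_, ?_⟩
  · exact Fin.snoc_castSucc (α := fun _ => V) z x 0
  · exact Fin.snoc_castSucc (α := fun _ => V) z x 1
  · exact Fin.snoc_castSucc (α := fun _ => V) z x 2

lemma P1_ext2 (x : Fin 2 → V) (h : LinearIndependent ℂ x) :
    ∃ X : Fin 4 → V, LinearIndependent ℂ X ∧ X 0 = x 0 ∧ X 1 = x 1 := by
  obtain ⟨z, hz⟩ := exists_linearIndependent_snoc_of_lt_finrank h
    (by rw [P1_fin4]; norm_num : 2 < Module.finrank ℂ V)
  obtain ⟨X, hX, h0, h1, -⟩ := P1_ext3 _ hz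
  refine ⟨X, hX, ?_, ?_⟩
  · rw [h0]
    exact Fin.snoc_castSucc (α := fun _ => V) z x 0
  · rw [h1]
    exact Fin.snoc_castSucc (α := fun _ => V) z x 1

lemma P1_coord (X : Fin 4 → V) (h : LinearIndependent ℂ X) :
    ∃ ξ : Fin 4 → D, ∀ x, x = ξ 0 x • X 0 + ξ 1 x • X 1 + ξ 2 x • X 2 + ξ 3 x • X 3 := by
  let b := basisOfLinearIndependentOfCardEqFinrank h (by simp [V])
  refine ⟨fun i => b.coord i, fun x => ?_⟩
  have h1 := b.sum_repr x
  rw [Fin.sum_univ_four] at h1
  simp only [b, coe_basisOfLinearIndependentOfCardEqFinrank] at h1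
  exact h1.symm

/-! ### Forms of rank two -/

lemma P1_rk2_left (B : Bi) (u : Fin 2 → V) (hu : LinearIndependent ℂ u)
    (h : ∀ i y, B (u i) y = 0) : Rk2 B := by
  obtain ⟨X, hX, h0, h1⟩ := P1_ext2 u hu
  obtain ⟨ξ, hξ⟩ := P1_coord X hX
  refine ⟨ξ 2, B (X 2), ξ 3, B (X 3), fun x y => ?_⟩
  conv_lhs => rw [hξ x]
  simp only [map_add, map_smul, LinearMap.add_apply, LinearMap.smul_apply, smul_eq_mul, h0, h1, h]
  ring

lemma P1_rk2_flip (B : Bi) (h : Rk2 B.flip) : Rk2 B := by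
  obtain ⟨a, b, c, d, h⟩ := h
  refine ⟨b, a, d, c, fun x y => ?_⟩
  have := h y x
  rw [LinearMap.flip_apply] at this
  rw [this]
  ring

lemma P1_rk2_right (B : Bi) (u : Fin 2 → V) (hu : LinearIndependent ℂ u)
    (h : ∀ i x, B x (u i) = 0) : Rk2 B :=
  P1_rk2_flip B (P1_rk2_left B.flip u hu fun i x => by rw [LinearMap.flip_apply]; exact h i x)

lemma P1_rk2_block (B : Bi) (u z : Fin 3 → V) (hu : LinearIndependent ℂ u)
    (hz : LinearIndependent ℂ z) (h : ∀ i j, B (u i) (z j) = 0) : Rk2 B := by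
  obtain ⟨X, hX, h0, h1, h2⟩ := P1_ext3 u hu
  obtain ⟨Y, hY, k0, k1, k2⟩ := P1_ext3 z hz
  obtain ⟨ξ, hξ⟩ := P1_coord X hX
  obtain ⟨η, hη⟩ := P1_coord Y hY
  have key : ∀ i y, B (u i) y = η 3 y * B (u i) (Y 3) := by
    intro i y
    conv_lhs => rw [hη y]
    simp only [map_add, map_smul, smul_eq_mul, k0, k1, k2, h]
    ring
  refine ⟨ξ 3, B (X 3), B.flip (Y 3) - B (X 3) (Y 3) • ξ 3, η 3, fun x y => ?_⟩
  have e1 : B x (Y 3) = ξ 0 x * B (u 0) (Y 3) + ξ 1 x * B (u 1) (Y 3) + ξ 2 x * B (u 2) (Y 3)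
      + ξ 3 x * B (X 3) (Y 3) := by
    conv_lhs => rw [hξ x]
    simp only [map_add, map_smul, LinearMap.add_apply, LinearMap.smul_apply, smul_eq_mul, h0, h1,
      h2]
  conv_lhs => rw [hξ x]
  simp only [map_add, map_smul, LinearMap.add_apply, LinearMap.smul_apply, smul_eq_mul, h0, h1, h2,
    LinearMap.sub_apply, LinearMap.flip_apply]
  rw [key 0 y, key 1 y, key 2 y, e1]
  ring

/-! ### The rank under permutations of the arguments -/

lemma P1_RK_sv {r : ℕ} {T : Tri} (h : RK r (sv T)) : RK r T := by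
  obtain ⟨α, β, γ, h⟩ := h
  refine ⟨α, γ, β, fun x y w => ?_⟩
  rw [← sv_apply T x y w, h]
  exact Finset.sum_congr rfl fun i _ => by ring

lemma P1_RK_rt {r : ℕ} {T : Tri} (h : RK r (rt T)) : RK r T := by
  obtain ⟨α, β, γ, h⟩ := h
  refine ⟨β, γ, α, fun x y w => ?_⟩
  rw [← rt_apply T x y w, h]
  exact Finset.sum_congr rfl fun i _ => by ring

/-! ### The job `P1` -/

theorem p_P1 (h1 : P_LINE) (h2 : P_PEN) (h3 : P_P1C) : P_P1 := by
  intro T hT
  obtain ⟨u, v, huv, hs⟩ := h1 T hT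
  obtain ⟨E, F, hEF, hz⟩ := h2 4 (T u) (T v) (fun s t => by
    obtain ⟨y, hy, hy2⟩ := hs s t
    refine ⟨y, hy, fun w => ?_⟩
    have := hy2 w
    simpa only [map_add, map_smul, LinearMap.add_apply, LinearMap.smul_apply, smul_eq_mul]
      using this)
  have hE4 : Module.finrank ℂ E ≤ 4 := by
    have := Submodule.finrank_le E
    simpa using this
  have hF4 : Module.finrank ℂ F ≤ 4 := by
    have := Submodule.finrank_le F
    simpa using this
  have hu : ∀ i : Fin 2, ∀ y ∈ E, ∀ w ∈ F, T (![u, v] i) y w = 0 := by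
    intro i y hy w hw
    fin_cases i
    · exact (hz y hy w hw).1
    · exact (hz y hy w hw).2
  have hcase : Module.finrank ℂ E = 1 ∨ Module.finrank ℂ E = 2 ∨ Module.finrank ℂ E = 3 ∨
      Module.finrank ℂ E = 4 := by omega
  rcases hcase with h | h | h | h
  · -- `E` is a line
    right; left
    have hF : F = ⊤ := by
      apply Submodule.eq_top_of_finrank_eq
      rw [show Module.finrank ℂ (Fin 4 → ℂ) = 4 by simp]
      omega
    have hEne : E ≠ ⊥ := by
      intro h0
      rw [h0, finrank_bot] at h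
      omega
    obtain ⟨y, hy, hy0⟩ := Submodule.exists_mem_ne_zero_of_ne_bot hEne
    refine ⟨y, hy0, P1_rk2_left _ ![u, v] huv fun i w => ?_⟩
    rw [sw_apply]
    exact hu i y hy w (by rw [hF]; trivial)
  · -- `2 × 3`
    right; right
    let bE := Module.finBasisOfFinrankEq ℂ E h
    let bF := Module.finBasisOfFinrankEq ℂ F (show Module.finrank ℂ F = 3 by omega)
    exact h3 T hT ![u, v] (fun j => (bE j : V)) (fun k => (bF k : V)) huv
      (bE.linearIndependent.map' E.subtype E.ker_subtype)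
      (bF.linearIndependent.map' F.subtype F.ker_subtype)
      fun i j k => hu i _ (bE j).2 _ (bF k).2
  · -- `3 × 2`
    right; left
    let bE := Module.finBasisOfFinrankEq ℂ E h
    let bF := Module.finBasisOfFinrankEq ℂ F (show Module.finrank ℂ F = 2 by omega)
    obtain ⟨y, hy, hr⟩ := h3 (sv T) (fun h => hT (P1_RK_sv h)) ![u, v] (fun j => (bF j : V))
      (fun k => (bE k : V)) huv
      (bF.linearIndependent.map' F.subtype F.ker_subtype)
      (bE.linearIndependent.map' E.subtype E.ker_subtype)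
      fun i j k => by rw [sv_apply]; exact hu i _ (bE k).2 _ (bF j).2
    exact ⟨y, hy, hr⟩
  · -- `F` is a line
    right; right
    have hE : E = ⊤ := by
      apply Submodule.eq_top_of_finrank_eq
      rw [show Module.finrank ℂ (Fin 4 → ℂ) = 4 by simp]
      omega
    have hFne : F ≠ ⊥ := by
      intro h0
      rw [h0, finrank_bot] at hEF
      omega
    obtain ⟨w, hw, hw0⟩ := Submodule.exists_mem_ne_zero_of_ne_bot hFne
    refine ⟨w, hw0, P1_rk2_left _ ![u, v] huv fun i y => ?_⟩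
    rw [rt_apply]
    exact hu i y (by rw [hE]; trivial) w hw

/-! ### The job `P1C` -/

lemma P1_det (p q r s a b c d e f g h : ℂ) :
    Matrix.det !![0, 0, p, q; 0, 0, r, s; a, b, e, f; c, d, g, h] =
      (a * d - b * c) * (p * s - q * r) := by
  simp [Matrix.det_succ_row_zero, Fin.sum_univ_succ, Fin.succAbove]
  ring

/-- the matrix of the linear forms `B i j` on the image of `L` -/
def P1_mat (B : Fin 2 → Fin 2 → D) (L : (Fin 3 → ℂ) →ₗ[ℂ] V) :
    (Fin 3 → ℂ) →ₗ[ℂ] Matrix (Fin 2) (Fin 2) ℂ where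
  toFun z := Matrix.of fun i j => B i j (L z)
  map_add' z z' := by
    ext i j
    simp
  map_smul' c z := by
    ext i j
    simp

lemma P1_mat_apply (B : Fin 2 → Fin 2 → D) (L : (Fin 3 → ℂ) →ₗ[ℂ] V) (z : Fin 3 → ℂ)
    (i j : Fin 2) : P1_mat B L z i j = B i j (L z) := rfl

lemma P1_li3 (X : Fin 4 → V) (h : LinearIndependent ℂ X) (u : Fin 2 → ℂ) (hu : u ≠ 0) :
    LinearIndependent ℂ ![X 0, X 1, u 0 • X 2 + u 1 • X 3] := by
  rw [Fintype.linearIndependent_iff] at h ⊢
  intro g hg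
  rw [Fin.sum_univ_three] at hg
  simp only [Matrix.cons_val_zero, Matrix.cons_val_one, Matrix.cons_val_two, Matrix.head_cons,
    Matrix.tail_cons, Matrix.cons_val] at hg
  have h1 := h ![g 0, g 1, g 2 * u 0, g 2 * u 1] (by
    rw [Fin.sum_univ_four]
    simp only [Matrix.cons_val_zero, Matrix.cons_val_one, Matrix.cons_val_two, Matrix.head_cons,
      Matrix.tail_cons, Matrix.cons_val]
    rw [smul_add, smul_smul, smul_smul] at hg
    rw [add_assoc]
    exact hg)
  have e0 : g 0 = 0 := by simpa using h1 0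
  have e1 : g 1 = 0 := by simpa using h1 1
  have e2 : g 2 * u 0 = 0 := by simpa using h1 2
  have e3 : g 2 * u 1 = 0 := by simpa using h1 3
  have e4 : g 2 = 0 := by
    by_contra h0
    apply hu
    ext i
    fin_cases i
    · exact (mul_eq_zero.1 e2).resolve_left h0
    · exact (mul_eq_zero.1 e3).resolve_left h0
  intro i
  fin_cases i
  · exact e0
  · exact e1
  · exact e4

theorem p_P1C (h1 : P_CON) (h2 : P_S) : P_P1C := by
  intro T hT x y w hx hy hw h0
  obtain ⟨X, hX, hx0, hx1⟩ := P1_ext2 x hx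
  obtain ⟨Y, hY, hy0, hy1⟩ := P1_ext2 y hy
  let L : (Fin 3 → ℂ) →ₗ[ℂ] V := Fintype.linearCombination ℂ w
  have hL : ∀ z, L z = ∑ k, z k • w k := fun z => rfl
  have hLinj : ∀ z, L z = 0 → z = 0 := by
    intro z hz
    rw [hL] at hz
    rw [Fintype.linearIndependent_iff] at hw
    exact funext (hw z hz)
  have hZ : ∀ i j : Fin 2, ∀ z, T (x i) (y j) (L z) = 0 := by
    intro i j z
    rw [hL, map_sum]
    simp only [map_smul, h0, smul_zero, Finset.sum_const_zero]
  set a := P1_mat (fun i j => T (![X 2, X 3] i) (![Y 0, Y 1] j)) L with ha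
  set b := P1_mat (fun i j => T (![X 0, X 1] i) (![Y 2, Y 3] j)) L with hb
  set E := P1_mat (fun i j => T (![X 2, X 3] i) (![Y 2, Y 3] j)) L with hE
  have a00 : ∀ z, a z 0 0 = T (X 2) (Y 0) (L z) := fun z => rfl
  have a01 : ∀ z, a z 0 1 = T (X 2) (Y 1) (L z) := fun z => rfl
  have a10 : ∀ z, a z 1 0 = T (X 3) (Y 0) (L z) := fun z => rfl
  have a11 : ∀ z, a z 1 1 = T (X 3) (Y 1) (L z) := fun z => rfl
  have b00 : ∀ z, b z 0 0 = T (X 0) (Y 2) (L z) := fun z => rfl
  have b01 : ∀ z, b z 0 1 = T (X 0) (Y 3) (L z) := fun z => rfl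
  have b10 : ∀ z, b z 1 0 = T (X 1) (Y 2) (L z) := fun z => rfl
  have b11 : ∀ z, b z 1 1 = T (X 1) (Y 3) (L z) := fun z => rfl
  have c00 : ∀ z, E z 0 0 = T (X 2) (Y 2) (L z) := fun z => rfl
  have c01 : ∀ z, E z 0 1 = T (X 2) (Y 3) (L z) := fun z => rfl
  have c10 : ∀ z, E z 1 0 = T (X 3) (Y 2) (L z) := fun z => rfl
  have c11 : ∀ z, E z 1 1 = T (X 3) (Y 3) (L z) := fun z => rfl
  clear_value a b E
  obtain ⟨ξ, hξ⟩ := P1_coord X hX
  obtain ⟨η, hη⟩ := P1_coord Y hY
  have z00 : ∀ z, T (X 0) (Y 0) (L z) = 0 := fun z => by rw [hx0, hy0]; exact hZ 0 0 z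
  have z01 : ∀ z, T (X 0) (Y 1) (L z) = 0 := fun z => by rw [hx0, hy1]; exact hZ 0 1 z
  have z10 : ∀ z, T (X 1) (Y 0) (L z) = 0 := fun z => by rw [hx1, hy0]; exact hZ 1 0 z
  have z11 : ∀ z, T (X 1) (Y 1) (L z) = 0 := fun z => by rw [hx1, hy1]; exact hZ 1 1 z
  have hxv : LinearIndependent ℂ ![X 0, X 1] := by
    have : ![X 0, X 1] = x := by
      ext i
      fin_cases i <;> simp [hx0, hx1]
    rw [this]
    exact hx
  have hyv : LinearIndependent ℂ ![Y 0, Y 1] := by
    have : ![Y 0, Y 1] = y := by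
      ext i
      fin_cases i <;> simp [hy0, hy1]
    rw [this]
    exact hy
  by_cases hai : Function.Injective a
  swap
  · -- the block `a` vanishes somewhere
    obtain ⟨z, hz, hz0⟩ : ∃ z, a z = 0 ∧ z ≠ 0 := by
      by_contra hcon
      apply hai
      rw [injective_iff_map_eq_zero]
      intro z hz
      by_contra h
      exact hcon ⟨z, hz, h⟩
    have hLz : L z ≠ 0 := fun h => hz0 (hLinj z h)
    have t20 : T (X 2) (Y 0) (L z) = 0 := by rw [← a00, hz]; rfl
    have t21 : T (X 2) (Y 1) (L z) = 0 := by rw [← a01, hz]; rfl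
    have t30 : T (X 3) (Y 0) (L z) = 0 := by rw [← a10, hz]; rfl
    have t31 : T (X 3) (Y 1) (L z) = 0 := by rw [← a11, hz]; rfl
    refine ⟨L z, hLz, P1_rk2_right _ ![Y 0, Y 1] hyv fun i x' => ?_⟩
    rw [rt_apply, hξ x']
    simp only [map_add, map_smul, LinearMap.add_apply, LinearMap.smul_apply, smul_eq_mul]
    fin_cases i
    · show _ * T (X 0) (Y 0) (L z) + _ * T (X 1) (Y 0) (L z) + _ * T (X 2) (Y 0) (L z) +
        _ * T (X 3) (Y 0) (L z) = 0
      rw [z00, z10, t20, t30]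
      ring
    · show _ * T (X 0) (Y 1) (L z) + _ * T (X 1) (Y 1) (L z) + _ * T (X 2) (Y 1) (L z) +
        _ * T (X 3) (Y 1) (L z) = 0
      rw [z01, z11, t21, t31]
      ring
  by_cases hbi : Function.Injective b
  swap
  · -- the block `b` vanishes somewhere
    obtain ⟨z, hz, hz0⟩ : ∃ z, b z = 0 ∧ z ≠ 0 := by
      by_contra hcon
      apply hbi
      rw [injective_iff_map_eq_zero]
      intro z hz
      by_contra h
      exact hcon ⟨z, hz, h⟩
    have hLz : L z ≠ 0 := fun h => hz0 (hLinj z h)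
    have t02 : T (X 0) (Y 2) (L z) = 0 := by rw [← b00, hz]; rfl
    have t03 : T (X 0) (Y 3) (L z) = 0 := by rw [← b01, hz]; rfl
    have t12 : T (X 1) (Y 2) (L z) = 0 := by rw [← b10, hz]; rfl
    have t13 : T (X 1) (Y 3) (L z) = 0 := by rw [← b11, hz]; rfl
    refine ⟨L z, hLz, P1_rk2_left _ ![X 0, X 1] hxv fun i y' => ?_⟩
    rw [rt_apply, hη y']
    simp only [map_add, map_smul, LinearMap.add_apply, LinearMap.smul_apply, smul_eq_mul]
    fin_cases i
    · show _ * T (X 0) (Y 0) (L z) + _ * T (X 0) (Y 1) (L z) + _ * T (X 0) (Y 2) (L z) +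
        _ * T (X 0) (Y 3) (L z) = 0
      rw [z00, z01, t02, t03]
      ring
    · show _ * T (X 1) (Y 0) (L z) + _ * T (X 1) (Y 1) (L z) + _ * T (X 1) (Y 2) (L z) +
        _ * T (X 1) (Y 3) (L z) = 0
      rw [z10, z11, t12, t13]
      ring
  have hcon : CONh a b := by
    refine ⟨hai, hbi, fun u v huv => ?_⟩
    have hLuv : LinearIndependent ℂ ![L u, L v] := by
      have h3 := huv.map' L (LinearMap.ker_eq_bot'.2 hLinj)
      have : (L ∘ ![u, v]) = ![L u, L v] := by
        ext i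
        fin_cases i <;> rfl
      rw [this] at h3
      exact h3
    obtain ⟨s, t, s', t', hne, hdet⟩ := h2 (rt T) (fun h => hT (P1_RK_rt h)) (L u) (L v) hLuv
    obtain ⟨a0, b0, c0, h⟩ := hdet X Y
    refine ⟨s, t, s', t', hne, a0, b0, c0, fun ε => ?_⟩
    rw [← h ε]
    set z := (s • u + t • v) + ε • (s' • u + t' • v) with hz
    have e : ∀ i j, rt T (s • L u + t • L v) (X i) (Y j) +
        ε * rt T (s' • L u + t' • L v) (X i) (Y j) = T (X i) (Y j) (L z) := by
      intro i j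
      rw [rt_apply, rt_apply, hz]
      simp only [map_add, map_smul, smul_eq_mul]
    have hM : (Matrix.of fun i j => rt T (s • L u + t • L v) (X i) (Y j) +
        ε * rt T (s' • L u + t' • L v) (X i) (Y j)) =
        !![0, 0, b z 0 0, b z 0 1; 0, 0, b z 1 0, b z 1 1; a z 0 0, a z 0 1, E z 0 0, E z 0 1;
          a z 1 0, a z 1 1, E z 1 0, E z 1 1] := by
      ext i j
      rw [Matrix.of_apply, e]
      fin_cases i <;> fin_cases j
      · exact z00 z
      · exact z01 z
      · exact (b00 z).symm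
      · exact (b01 z).symm
      · exact z10 z
      · exact z11 z
      · exact (b10 z).symm
      · exact (b11 z).symm
      · exact (a00 z).symm
      · exact (a01 z).symm
      · exact (c00 z).symm
      · exact (c01 z).symm
      · exact (a10 z).symm
      · exact (a11 z).symm
      · exact (c10 z).symm
      · exact (c11 z).symm
    rw [hM, P1_det, Matrix.det_fin_two, Matrix.det_fin_two]
  obtain ⟨z, u, v, hz, hu, hv, e1, e2, e3⟩ := h1 a b E hcon
  have f0 : u 0 * a z 0 0 + u 1 * a z 1 0 = 0 := by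
    have := congrFun e1 0
    simpa [Matrix.vecMul, dotProduct, Fin.sum_univ_two] using this
  have f1 : u 0 * a z 0 1 + u 1 * a z 1 1 = 0 := by
    have := congrFun e1 1
    simpa [Matrix.vecMul, dotProduct, Fin.sum_univ_two] using this
  have g0 : b z 0 0 * v 0 + b z 0 1 * v 1 = 0 := by
    have := congrFun e2 0
    simpa [Matrix.mulVec, dotProduct, Fin.sum_univ_two] using this
  have g1 : b z 1 0 * v 0 + b z 1 1 * v 1 = 0 := by
    have := congrFun e2 1
    simpa [Matrix.mulVec, dotProduct, Fin.sum_univ_two] using this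
  have k0 : u 0 * (E z 0 0 * v 0 + E z 0 1 * v 1) + u 1 * (E z 1 0 * v 0 + E z 1 1 * v 1) = 0 := by
    simpa [Matrix.mulVec, dotProduct, Fin.sum_univ_two] using e3
  have hLz : L z ≠ 0 := fun h => hz (hLinj z h)
  rw [a00, a10] at f0
  rw [a01, a11] at f1
  rw [b00, b01] at g0
  rw [b10, b11] at g1
  rw [c00, c01, c10, c11] at k0
  refine ⟨L z, hLz, P1_rk2_block _ _ _ (P1_li3 X hX u hu) (P1_li3 Y hY v hv) fun i j => ?_⟩
  rw [rt_apply]
  fin_cases i <;> fin_cases j
  · exact z00 z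
  · exact z01 z
  · show T (X 0) (v 0 • Y 2 + v 1 • Y 3) (L z) = 0
    simp only [map_add, map_smul, LinearMap.add_apply, LinearMap.smul_apply, smul_eq_mul]
    linear_combination g0
  · exact z10 z
  · exact z11 z
  · show T (X 1) (v 0 • Y 2 + v 1 • Y 3) (L z) = 0
    simp only [map_add, map_smul, LinearMap.add_apply, LinearMap.smul_apply, smul_eq_mul]
    linear_combination g1
  · show T (u 0 • X 2 + u 1 • X 3) (Y 0) (L z) = 0
    simp only [map_add, map_smul, LinearMap.add_apply, LinearMap.smul_apply, smul_eq_mul]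
    linear_combination f0
  · show T (u 0 • X 2 + u 1 • X 3) (Y 1) (L z) = 0
    simp only [map_add, map_smul, LinearMap.add_apply, LinearMap.smul_apply, smul_eq_mul]
    linear_combination f1
  · show T (u 0 • X 2 + u 1 • X 3) (v 0 • Y 2 + v 1 • Y 3) (L z) = 0
    simp only [map_add, map_smul, LinearMap.add_apply, LinearMap.smul_apply, smul_eq_mul]
    linear_combination k0

end Pool.Agent.MR8
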