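import Pool.Agent.MR8.Defs

set_option autoImplicit false

/-!
# Two independent slices of ranks at most one and at most two
-/

namespace Pool.Agent.MR8

/-- Two linear forms on `ℂ⁴` have two independent common zeros. -/
lemma R12_ker (ξ ξ' : D) :
    ∃ y : Fin 2 → V, LinearIndependent ℂ y ∧ ∀ i, ξ (y i) = 0 ∧ ξ' (y i) = 0 := by
  have h1 := LinearMap.finrank_range_add_finrank_ker (ξ.prod ξ')
  have h2 : Module.finrank ℂ (LinearMap.range (ξ.prod ξ')) ≤ 2 := by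
    refine (Submodule.finrank_le _).trans ?_
    simp
  have h3 : Module.finrank ℂ V = 4 := by simp [V]
  have h4 : 2 ≤ Module.finrank ℂ (LinearMap.ker (ξ.prod ξ')) := by omega
  let b := Module.finBasis ℂ (LinearMap.ker (ξ.prod ξ'))
  refine ⟨fun i => (b (Fin.castLE h4 i) : V), ?_, fun i => ?_⟩
  · have h5 := (b.linearIndependent.comp (Fin.castLE h4) (Fin.castLE_injective h4)).map'
      (LinearMap.ker (ξ.prod ξ')).subtype (Submodule.ker_subtype _)
    exact h5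
  · have h6 := (b (Fin.castLE h4 i)).2
    rw [LinearMap.mem_ker] at h6
    exact ⟨congrArg Prod.fst h6, congrArg Prod.snd h6⟩

/-- The rank of the cyclic permutation. -/
lemma R12_rot {r : ℕ} {T : Tri} (h : RK r (rt (rt T))) : RK r T := by
  obtain ⟨α, β, γ, h⟩ := h
  refine ⟨γ, α, β, fun x y w => ?_⟩
  have h1 := h y w x
  rw [rt_apply, rt_apply] at h1
  rw [h1]
  exact Finset.sum_congr rfl fun i _ => by ring

/-- Two dependent linear forms: a sum of two products is one product. -/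
lemma R12_dep {ξ ξ' : D} (h : ¬ LinearIndependent ℂ ![ξ, ξ']) :
    ∃ (ζ : D) (a b : ℂ), ξ = a • ζ ∧ ξ' = b • ζ := by
  by_cases h0 : ξ = 0
  · exact ⟨ξ', 0, 1, by simp [h0], by simp⟩
  · rw [LinearIndependent.pair_iff' h0] at h
    push Not at h
    obtain ⟨a, ha⟩ := h
    exact ⟨ξ, 1, a, by simp, ha.symm⟩

theorem p_R12 (hZ : P_Z) (hH : P_H3) (_h0 : P_ZERO) (_hR : P_RKD) : P_R12 := by
  intro T u x hux h1 h2
  obtain ⟨ξ, υ, hT1⟩ := h1
  obtain ⟨ξ₁, υ₁, ξ₂, υ₂, hT2⟩ := h2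
  -- slices of rank at most one
  have key : ∀ ζ ζ' : D, (∀ y w, T x y w = ζ y * ζ' w) → RK 8 T := by
    intro ζ ζ' hx
    obtain ⟨y, hy, hy0⟩ := R12_ker ξ ζ
    refine hZ T ![u, x] y hux hy fun i j w => ?_
    fin_cases i
    · simp [hT1, (hy0 j).1]
    · simp [hx, (hy0 j).2]
  by_cases hξ : LinearIndependent ℂ ![ξ₁, ξ₂]
  swap
  · obtain ⟨ζ, a, b, ha, hb⟩ := R12_dep hξ
    refine key ζ (a • υ₁ + b • υ₂) fun y w => ?_
    rw [hT2, ha, hb]
    simp only [LinearMap.smul_apply, LinearMap.add_apply, smul_eq_mul]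
    ring
  by_cases hυ : LinearIndependent ℂ ![υ₁, υ₂]
  swap
  · obtain ⟨ζ, a, b, ha, hb⟩ := R12_dep hυ
    refine key (a • ξ₁ + b • ξ₂) ζ fun y w => ?_
    rw [hT2, ha, hb]
    simp only [LinearMap.smul_apply, LinearMap.add_apply, smul_eq_mul]
    ring
  by_contra hT
  have h3 := hH T hT ![u, x] hux ![ξ₁, ξ₂, ξ] ![υ₁, υ₂, υ] (fun i => by
    fin_cases i
    · refine ⟨![0, 0, 1], fun y w => ?_⟩
      simp [Fin.sum_univ_three, hT1]
    · refine ⟨![1, 1, 0], fun y w => ?_⟩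
      simp [Fin.sum_univ_three, hT2]) 0 1 (by decide) hξ hυ
  obtain ⟨y, hy, hy0⟩ := R12_ker ξ₁ ξ₂
  obtain ⟨w, hw, hw0⟩ := R12_ker υ₁ υ₂
  refine hT (R12_rot (hZ (rt (rt T)) y w hy hw fun i j z => ?_))
  rw [rt_apply, rt_apply]
  exact h3 (y i) (w j) (hy0 i).1 (hy0 i).2 (hw0 j).1 (hw0 j).2 z

end Pool.Agent.MR8
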